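import Mathlib

set_option autoImplicit false

/-!
Asymptotics of `Γ(k y) k^{-k y} / (Γ(y)^k y^{(k-1)/2})` on the vertical line `Re y = 1`.
-/

open Complex Filter Topology Finset

namespace Pool.Agent.Lib.MP_bc6037_nt

/-- the quotient `Γ(ky) k^{-ky} / (Γ(y)^k y^{(k-1)/2})` -/
noncomputable def GR (k : ℕ) (y : ℂ) : ℂ :=
  Gamma (k * y) * (k : ℂ) ^ (-(k * y)) / (Gamma y ^ k * y ^ (((k : ℂ) - 1) / 2))

/-- telescoping exponent -/
noncomputable def om (k : ℕ) (w : ℂ) : ℂ :=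
  ((k : ℂ) - 1) / 2 * log (1 + 1 / w) - ∑ j ∈ range k, log (1 + (j / k : ℂ) * (1 / w))

lemma log_succ {w : ℂ} (hw : 0 < w.re) : log (w + 1) = log w + log (1 + 1 / w) := by
  have hw0 : w ≠ 0 := by rintro rfl; simp at hw
  have h1 : w + 1 = w * (1 + 1 / w) := by field_simp
  have hre : 0 < (1 + 1 / w).re := by
    rw [add_re, one_re, one_div, inv_re]
    have : 0 < normSq w := normSq_pos.2 hw0
    positivity
  rw [h1]
  have hne : (1 + 1 / w) ≠ 0 := by intro h; rw [h] at hre; simp at hre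
  rw [log_mul hw0 hne]
  have a1 := abs_lt.1 (abs_arg_lt_pi_div_two_iff.2 (Or.inl hw))
  have a2 := abs_lt.1 (abs_arg_lt_pi_div_two_iff.2 (Or.inl hre))
  constructor <;> linarith [a1.1, a1.2, a2.1, a2.2]

lemma prod_inv_eq {k : ℕ} {w : ℂ} (hw : 0 < w.re) :
    ∏ j ∈ range k, (1 + (j / k : ℂ) * (1 / w))⁻¹ =
      cexp (om k w) * w ^ (((k : ℂ) - 1) / 2) / (w + 1) ^ (((k : ℂ) - 1) / 2) := by
  have hw0 : w ≠ 0 := by rintro rfl; simp at hw
  have hw1 : w + 1 ≠ 0 := by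
    intro h
    have := congrArg re h
    simp at this; linarith
  rw [cpow_def_of_ne_zero hw0, cpow_def_of_ne_zero hw1, ← Complex.exp_add, ← Complex.exp_sub,
    log_succ hw]
  have h2 : ∀ j ∈ range k, (1 + (j / k : ℂ) * (1 / w))⁻¹ =
      cexp (- log (1 + (j / k : ℂ) * (1 / w))) := by
    intro j _
    rw [Complex.exp_neg, exp_log]
    intro h
    have := congrArg re h
    have h3 : ((j / k : ℂ) * (1 / w)).re = (j / k : ℝ) * (w.re / normSq w) := by
      rw [one_div, show (j / k : ℂ) = ((j / k : ℝ) : ℂ) by push_cast; rfl, re_ofReal_mul, inv_re]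
    rw [add_re, one_re, h3, zero_re] at this
    have : 0 < normSq w := normSq_pos.2 hw0
    have : 0 ≤ (j / k : ℝ) * (w.re / normSq w) := by positivity
    linarith
  rw [Finset.prod_congr rfl h2, ← Complex.exp_sum]
  congr 1
  rw [om, Finset.sum_neg_distrib]
  ring

lemma norm_om_le {k : ℕ} (hk : 1 ≤ k) {w : ℂ} (hw : 2 ≤ ‖w‖) :
    ‖om k w‖ ≤ (2 * k) / ‖w‖ ^ 2 := by
  have hkp : (0 : ℝ) < k := by exact_mod_cast hk
  have hw0 : 0 < ‖w‖ := by linarith
  set u := 1 / w with hu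
  have hun : ‖u‖ = 1 / ‖w‖ := by rw [hu, norm_div, norm_one]
  have hu2 : ‖u‖ ≤ 1 / 2 := by
    rw [hun]; exact one_div_le_one_div_of_le (by norm_num) hw
  have key : ∀ z : ℂ, ‖z‖ ≤ 1 / 2 → ‖log (1 + z) - z‖ ≤ ‖z‖ ^ 2 := by
    intro z hz
    refine (norm_log_one_add_sub_self_le (by linarith)).trans ?_
    have h1 : (1 - ‖z‖)⁻¹ ≤ 2 := by
      rw [inv_le_comm₀ (by linarith) (by norm_num)]; linarith
    have := sq_nonneg ‖z‖
    nlinarith
  have hsum : ∑ j ∈ range k, (j / k : ℂ) = ((k : ℂ) - 1) / 2 := by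
    rw [← Finset.sum_div]
    have h1 : (∑ j ∈ range k, (j : ℂ)) * 2 = k * (k - 1) := by
      have := Finset.sum_range_id_mul_two k
      have h2 : ((∑ i ∈ range k, i : ℕ) : ℂ) * 2 = (k * (k - 1) : ℕ) := by exact_mod_cast this
      rw [Nat.cast_mul, Nat.cast_sub hk] at h2
      push_cast at h2
      exact h2
    have hk0 : (k : ℂ) ≠ 0 := by exact_mod_cast hkp.ne'
    field_simp
    linear_combination h1
  have hom : om k w = ((k : ℂ) - 1) / 2 * (log (1 + u) - u) -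
      ∑ j ∈ range k, (log (1 + (j / k : ℂ) * u) - (j / k : ℂ) * u) := by
    rw [om, Finset.sum_sub_distrib, ← Finset.sum_mul, hsum]
    ring
  rw [hom]
  have h1 : ‖((k : ℂ) - 1) / 2 * (log (1 + u) - u)‖ ≤ k * ‖u‖ ^ 2 := by
    rw [norm_mul]
    gcongr
    · rw [show ((k : ℂ) - 1) / 2 = (((k : ℝ) - 1) / 2 : ℝ) by push_cast; rfl, norm_real,
        Real.norm_eq_abs, abs_le]
      have : (1 : ℝ) ≤ k := by exact_mod_cast hk
      constructor <;> linarith
    · exact key u hu2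
  have h2 : ‖∑ j ∈ range k, (log (1 + (j / k : ℂ) * u) - (j / k : ℂ) * u)‖ ≤ k * ‖u‖ ^ 2 := by
    refine (norm_sum_le _ _).trans ?_
    have : ∀ j ∈ range k, ‖log (1 + (j / k : ℂ) * u) - (j / k : ℂ) * u‖ ≤ ‖u‖ ^ 2 := by
      intro j hj
      have hj' : (j / k : ℝ) ≤ 1 := by
        rw [div_le_one hkp]; exact_mod_cast (Finset.mem_range.1 hj).le
      have hn : ‖(j / k : ℂ) * u‖ ≤ ‖u‖ := by
        rw [norm_mul, show (j / k : ℂ) = ((j / k : ℝ) : ℂ) by push_cast; rfl, norm_real,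
          Real.norm_eq_abs, abs_of_nonneg (by positivity)]
        have := norm_nonneg u
        nlinarith
      refine (key _ (hn.trans hu2)).trans ?_
      gcongr
    refine (Finset.sum_le_sum this).trans ?_
    simp
  refine (norm_sub_le _ _).trans ((add_le_add h1 h2).trans ?_)
  rw [hun]
  apply le_of_eq
  field_simp
  ring

/-- the approximating sequence -/
noncomputable def AA (k : ℕ) (y : ℂ) (N : ℕ) : ℂ :=
  GammaSeq (k * y) (k * N) * (k : ℂ) ^ (-(k * y)) / (GammaSeq y N ^ k * y ^ (((k : ℂ) - 1) / 2))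

lemma tendsto_AA {k : ℕ} (hk : 1 ≤ k) {y : ℂ} (hy : 0 < y.re) :
    Tendsto (AA k y) atTop (𝓝 (GR k y)) := by
  have hy0 : y ≠ 0 := by rintro rfl; simp at hy
  unfold AA GR
  refine Tendsto.div (Tendsto.mul ?_ tendsto_const_nhds) (Tendsto.mul ?_ tendsto_const_nhds) ?_
  · refine (GammaSeq_tendsto_Gamma (k * y)).comp ?_
    exact tendsto_id.const_mul_atTop' (by omega)
  · exact (GammaSeq_tendsto_Gamma y).pow k
  · refine mul_ne_zero (pow_ne_zero _ (Gamma_ne_zero_of_re_pos hy)) ?_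
    rw [cpow_def_of_ne_zero hy0]
    exact Complex.exp_ne_zero _

lemma prod_identity {k : ℕ} (hk : 1 ≤ k) {y : ℂ} (hy : 0 < y.re) (N : ℕ) :
    (∏ j ∈ range N, (y + j)) ^ k / ∏ j ∈ range (k * N), (k * y + j) =
      ((k : ℂ) ^ (k * N))⁻¹ * (cexp (∑ n ∈ range N, om k (y + n)) *
        y ^ (((k : ℂ) - 1) / 2) / (y + N) ^ (((k : ℂ) - 1) / 2)) := by
  have hk0 : (k : ℂ) ≠ 0 := by exact_mod_cast (by omega : k ≠ 0)
  have hre : ∀ n : ℕ, 0 < (y + n).re := by
    intro n; rw [add_re, natCast_re]; positivity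
  have hne : ∀ n : ℕ, y + n ≠ 0 := by
    intro n h; have := hre n; rw [h] at this; simp at this
  have hp : ∀ n : ℕ, (y + n) ^ (((k : ℂ) - 1) / 2) ≠ 0 := by
    intro n; rw [cpow_def_of_ne_zero (hne n)]; exact Complex.exp_ne_zero _
  induction N with
  | zero =>
    have := hp 0
    simp only [Nat.cast_zero, add_zero] at this
    simp [this]
  | succ N ih =>
    have h1 : ∏ j ∈ range (k * (N + 1)), ((k : ℂ) * y + j) =
        (∏ j ∈ range (k * N), ((k : ℂ) * y + j)) * ((k : ℂ) ^ k * (y + N) ^ k *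
          ∏ j ∈ range k, (1 + (j / k : ℂ) * (1 / (y + N)))) := by
      rw [mul_add, mul_one, Finset.prod_range_add]
      congr 1
      have : ∀ j ∈ range k, ((k : ℂ) * y + ((k * N + j : ℕ) : ℂ)) =
          k * (y + N) * (1 + (j / k : ℂ) * (1 / (y + N))) := by
        intro j _
        have := hne N
        push_cast
        field_simp
        ring
      rw [Finset.prod_congr rfl this, Finset.prod_mul_distrib]
      simp [mul_pow]
    rw [h1, Finset.prod_range_succ, mul_pow]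
    have h3 := prod_inv_eq (k := k) (hre N)
    rw [Finset.prod_inv_distrib] at h3
    have h4 : ∏ j ∈ range k, (1 + (j / k : ℂ) * (1 / (y + N))) ≠ 0 := by
      intro h
      rw [h, inv_zero] at h3
      have h5 : (y + N + 1) ^ (((k : ℂ) - 1) / 2) ≠ 0 := by
        have := hp (N + 1)
        push_cast at this
        rwa [← add_assoc] at this
      exact (div_ne_zero (mul_ne_zero (Complex.exp_ne_zero _) (hp N)) h5) h3.symm
    rw [mul_div_mul_comm, ih]
    have h6 : (y + ↑N) ^ k / ((k : ℂ) ^ k * (y + N) ^ k *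
        ∏ j ∈ range k, (1 + (j / k : ℂ) * (1 / (y + N)))) =
        ((k : ℂ) ^ k)⁻¹ * (∏ j ∈ range k, (1 + (j / k : ℂ) * (1 / (y + N))))⁻¹ := by
      have := hne N
      field_simp
    rw [h6, h3, Finset.sum_range_succ, Complex.exp_add]
    have h7 := hp N
    push_cast
    rw [← add_assoc, mul_add, mul_one, pow_add]
    field_simp

lemma AA_eq {k : ℕ} (hk : 1 ≤ k) {y : ℂ} (hy : 0 < y.re) {N : ℕ} (hN : 1 ≤ N) :
    AA k y N = ((k * N).factorial / (N.factorial : ℂ) ^ k * ((k : ℂ) ^ (k * N + 1))⁻¹) *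
      (y + N) ^ (((k : ℂ) - 1) / 2) * cexp (∑ n ∈ range N, om k (y + n)) := by
  have hk0 : (k : ℂ) ≠ 0 := by exact_mod_cast (by omega : k ≠ 0)
  have hN0 : (N : ℂ) ≠ 0 := by exact_mod_cast (by omega : N ≠ 0)
  have hre : ∀ n : ℕ, 0 < (y + n).re := by
    intro n; rw [add_re, natCast_re]; positivity
  have hne : ∀ n : ℕ, y + n ≠ 0 := by
    intro n h; have := hre n; rw [h] at this; simp at this
  have hp : ∀ n : ℕ, (y + n) ^ (((k : ℂ) - 1) / 2) ≠ 0 := by
    intro n; rw [cpow_def_of_ne_zero (hne n)]; exact Complex.exp_ne_zero _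
  have hp0 : y ^ (((k : ℂ) - 1) / 2) ≠ 0 := by simpa using hp 0
  have hfac : (N.factorial : ℂ) ≠ 0 := by exact_mod_cast N.factorial_ne_zero
  have hprod1 : ∏ j ∈ range N, (y + j) ≠ 0 := Finset.prod_ne_zero_iff.2 fun j _ => hne j
  have hprod2 : ∏ j ∈ range (k * N), ((k : ℂ) * y + j) ≠ 0 := by
    refine Finset.prod_ne_zero_iff.2 fun j _ h => ?_
    have := congrArg re h
    rw [add_re, natCast_re, show ((k : ℂ) * y).re = k * y.re by
      rw [show (k : ℂ) = ((k : ℝ) : ℂ) by simp, re_ofReal_mul], zero_re] at this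
    have h1 : (1 : ℝ) ≤ k := by exact_mod_cast hk
    have : (0 : ℝ) < k * y.re := by positivity
    have : (0 : ℝ) ≤ j := by positivity
    linarith
  have hid := prod_identity hk hy N
  unfold AA GammaSeq
  rw [Finset.prod_range_succ, Finset.prod_range_succ]
  have hpow : (((k * N : ℕ) : ℂ)) ^ ((k : ℂ) * y) = (k : ℂ) ^ ((k : ℂ) * y) * ((N : ℂ) ^ y) ^ k := by
    rw [Nat.cast_mul, natCast_mul_natCast_cpow, ← cpow_nat_mul]
  have hNy : (N : ℂ) ^ y ≠ 0 := by rw [cpow_def_of_ne_zero hN0]; exact Complex.exp_ne_zero _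
  have hky : (k : ℂ) ^ ((k : ℂ) * y) ≠ 0 := by
    rw [cpow_def_of_ne_zero hk0]; exact Complex.exp_ne_zero _
  rw [hpow, cpow_neg]
  have hsq : (y + N) ^ (((k : ℂ) - 1) / 2) * (y + N) ^ (((k : ℂ) - 1) / 2) * (y + N) =
      (y + N) ^ k := by
    rw [← cpow_add _ _ (hne N), add_halves, cpow_sub _ _ (hne N), cpow_one, cpow_natCast]
    have := hne N
    field_simp
  have hkyN : (k : ℂ) * y + ((k * N : ℕ) : ℂ) = k * (y + N) := by push_cast; ring
  rw [hkyN]
  have e1 : (k : ℂ) ^ ((k : ℂ) * y) * ((N : ℂ) ^ y) ^ k * ((k * N).factorial : ℂ) /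
      ((∏ j ∈ range (k * N), ((k : ℂ) * y + j)) * ((k : ℂ) * (y + N))) *
      ((k : ℂ) ^ ((k : ℂ) * y))⁻¹ /
      (((N : ℂ) ^ y * (N.factorial : ℂ) / ((∏ j ∈ range N, (y + j)) * (y + N))) ^ k *
        y ^ (((k : ℂ) - 1) / 2)) =
      ((k * N).factorial / (N.factorial : ℂ) ^ k) * ((y + N) ^ k / (k * (y + N))) *
      ((∏ j ∈ range N, (y + j)) ^ k / ∏ j ∈ range (k * N), ((k : ℂ) * y + j)) /
        y ^ (((k : ℂ) - 1) / 2) := by
    have := hne N
    rw [div_pow, mul_pow, mul_pow]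
    field_simp
  rw [e1, hid, ← hsq, pow_succ]
  have := hne N
  have := hp N
  field_simp

/-- normalising constants -/
noncomputable def cN (k : ℕ) (N : ℕ) : ℂ :=
  ((k * N).factorial / (N.factorial : ℂ) ^ k * ((k : ℂ) ^ (k * N + 1))⁻¹) *
    (N : ℂ) ^ (((k : ℂ) - 1) / 2)

lemma add_cpow_eq {y : ℂ} (hy : 0 < y.re) {N : ℕ} (hN : 1 ≤ N) (a : ℂ) :
    (y + N) ^ a = (N : ℂ) ^ a * (1 + y / N) ^ a := by
  have hN0 : (N : ℂ) ≠ 0 := by exact_mod_cast (by omega : N ≠ 0)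
  have hNp : (0 : ℝ) < N := by exact_mod_cast hN
  have hre : 0 < (1 + y / N).re := by
    rw [add_re, one_re, div_natCast_re]; positivity
  have hne : 1 + y / N ≠ 0 := by intro h; rw [h] at hre; simp at hre
  have h1 : y + N = ((N : ℝ) : ℂ) * (1 + y / N) := by
    push_cast; field_simp; ring
  have h2 : y + N ≠ 0 := by rw [h1]; exact mul_ne_zero (by simpa using hN0) hne
  rw [cpow_def_of_ne_zero h2, cpow_def_of_ne_zero hN0, cpow_def_of_ne_zero hne, ← Complex.exp_add]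
  congr 1
  rw [h1, log_ofReal_mul hNp hne, ofReal_log hNp.le]
  push_cast
  ring

lemma AA_eq' {k : ℕ} (hk : 1 ≤ k) {y : ℂ} (hy : 0 < y.re) {N : ℕ} (hN : 1 ≤ N) :
    AA k y N = cN k N * (1 + y / N) ^ (((k : ℂ) - 1) / 2) *
      cexp (∑ n ∈ range N, om k (y + n)) := by
  rw [AA_eq hk hy hN, add_cpow_eq hy hN, cN]
  ring

lemma tendsto_one_add_cpow (y a : ℂ) :
    Tendsto (fun N : ℕ => (1 + y / N) ^ a) atTop (𝓝 1) := by
  have h1 : Tendsto (fun N : ℕ => 1 + y / N) atTop (𝓝 (1 + 0)) :=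
    tendsto_const_nhds.add (tendsto_const_div_atTop_nhds_zero_nat y)
  rw [add_zero] at h1
  have h2 := h1.cpow (tendsto_const_nhds (x := a)) (by simp)
  simpa using h2

lemma sum_om_le {k : ℕ} (hk : 1 ≤ k) {y : ℂ} {T : ℝ} (hT : 2 ≤ T) (h1 : 1 ≤ y.re)
    (h2 : T ≤ y.re - 1 + |y.im|) (N : ℕ) (hn : ∀ n : ℕ, 2 ≤ ‖y + n‖) :
    ∑ n ∈ range N, ‖om k (y + n)‖ ≤ 4 * k / T := by
  have hkp : (0 : ℝ) < k := by exact_mod_cast hk
  have hterm : ∀ n ∈ range N, ‖om k (y + n)‖ ≤ 4 * k * (1 / (T + n) - 1 / (T + (n + 1 : ℕ))) := by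
    intro n _
    refine (norm_om_le hk (hn n)).trans ?_
    have hn0 : (0 : ℝ) ≤ n := Nat.cast_nonneg n
    have h3 : ‖y + n‖ ^ 2 = (y.re + n) ^ 2 + y.im ^ 2 := by
      rw [← normSq_eq_norm_sq, normSq_apply]; simp; ring
    have h4 : (T + n) * (T + n + 1) ≤ 2 * ‖y + n‖ ^ 2 := by
      rw [h3, ← sq_abs y.im]
      have := abs_nonneg y.im
      nlinarith [sq_nonneg (y.re + n - |y.im|), mul_nonneg hn0 this]
    have h5 : 1 / (T + n) - 1 / (T + (n + 1 : ℕ)) = 1 / ((T + n) * (T + n + 1)) := by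
      push_cast; field_simp; ring
    rw [h5]
    have h6 : 0 < (T + n) * (T + n + 1) := by positivity
    have h7 : 0 < ‖y + n‖ ^ 2 := by
      have := hn n; positivity
    rw [mul_one_div, div_le_div_iff₀ h7 h6]
    nlinarith
  refine (Finset.sum_le_sum hterm).trans ?_
  rw [← Finset.mul_sum, Finset.sum_range_sub' (fun n : ℕ => 1 / (T + n))]
  have : (0 : ℝ) ≤ 1 / (T + N) := by positivity
  have h8 : 1 / (T + (0 : ℕ)) - 1 / (T + (N : ℕ)) ≤ 1 / T := by simp; positivity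
  calc 4 * k * (1 / (T + (0 : ℕ)) - 1 / (T + (N : ℕ))) ≤ 4 * k * (1 / T) := by gcongr
    _ = 4 * k / T := by ring

/-- the limit of the Gamma quotient, `(2π)^{(1-k)/2} / √k` -/
noncomputable def Gc (k : ℕ) : ℝ := √(2 * Real.pi) / (√(2 * Real.pi) ^ k * √k)

lemma Gc_pos {k : ℕ} (hk : 1 ≤ k) : 0 < Gc k := by
  have : (0 : ℝ) < k := by exact_mod_cast hk
  unfold Gc
  positivity

lemma cN_eq_real (k N : ℕ) : cN k N = ((((k * N).factorial / (N.factorial : ℝ) ^ k *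
    ((k : ℝ) ^ (k * N + 1))⁻¹) * (N : ℝ) ^ (((k : ℝ) - 1) / 2) : ℝ) : ℂ) := by
  rw [cN]
  push_cast
  rw [ofReal_cpow (Nat.cast_nonneg N)]
  push_cast
  rfl

lemma factorial_eq_stirling {n : ℕ} (hn : 1 ≤ n) : (n.factorial : ℝ) =
    Stirling.stirlingSeq n * (√(2 * n : ℝ) * (n / Real.exp 1) ^ n) := by
  have : (0 : ℝ) < n := by exact_mod_cast hn
  rw [Stirling.stirlingSeq, div_mul_cancel₀]
  positivity

lemma stirling_pos {n : ℕ} (hn : 1 ≤ n) : 0 < Stirling.stirlingSeq n := by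
  obtain ⟨m, rfl⟩ : ∃ m, n = m + 1 := ⟨n - 1, by omega⟩
  exact Stirling.stirlingSeq'_pos m

lemma cN_real_eq {k N : ℕ} (hk : 1 ≤ k) (hN : 1 ≤ N) :
    (((k * N).factorial / (N.factorial : ℝ) ^ k *
    ((k : ℝ) ^ (k * N + 1))⁻¹) * (N : ℝ) ^ (((k : ℝ) - 1) / 2) : ℝ) =
    Stirling.stirlingSeq (k * N) / Stirling.stirlingSeq N ^ k * (√2 / (√2 ^ k * √k)) := by
  have hkp : (0 : ℝ) < k := by exact_mod_cast hk
  have hNp : (0 : ℝ) < N := by exact_mod_cast hN
  have hkN : 1 ≤ k * N := Nat.one_le_iff_ne_zero.2 (by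
    have : k ≠ 0 := by omega
    have : N ≠ 0 := by omega
    positivity)
  rw [factorial_eq_stirling hkN, factorial_eq_stirling hN]
  have hS1 := stirling_pos hkN
  have hS2 := stirling_pos hN
  have h1 : (N : ℝ) ^ (((k : ℝ) - 1) / 2) = √N ^ k / √N := by
    rw [Real.sqrt_eq_rpow, ← Real.rpow_natCast, ← Real.rpow_mul hNp.le, ← Real.rpow_sub hNp]
    congr 1; ring
  have h2 : √(2 * ((k * N : ℕ) : ℝ)) = √2 * √k * √N := by
    push_cast
    rw [Real.sqrt_mul (by norm_num), Real.sqrt_mul hkp.le]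
    ring
  have h3 : √(2 * (N : ℝ)) = √2 * √N := Real.sqrt_mul (by norm_num) _
  have h4 : (((k * N : ℕ) : ℝ) / Real.exp 1) ^ (k * N) =
      (k : ℝ) ^ (k * N) * ((N / Real.exp 1) ^ N) ^ k := by
    rw [← pow_mul, mul_comm N k, ← mul_pow]
    push_cast
    congr 1
    ring
  rw [h1, h2, h3, h4]
  have hsN : 0 < √(N : ℝ) := Real.sqrt_pos.2 hNp
  have hsk : 0 < √(k : ℝ) := Real.sqrt_pos.2 hkp
  have hs2 : 0 < √(2 : ℝ) := by positivity
  have hkk : (k : ℝ) = √k * √k := (Real.mul_self_sqrt hkp.le).symm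
  rw [mul_pow, mul_pow, mul_pow, pow_succ]
  have hE : 0 < ((N : ℝ) / Real.exp 1) ^ N := by positivity
  have hkkk : (0 : ℝ) < (k : ℝ) ^ (k * N) := by positivity
  field_simp
  nlinarith [Real.mul_self_sqrt hkp.le]

lemma cN_tendsto {k : ℕ} (hk : 1 ≤ k) : Tendsto (cN k) atTop (𝓝 (Gc k : ℂ)) := by
  have h1 : Tendsto (fun N : ℕ => Stirling.stirlingSeq (k * N) / Stirling.stirlingSeq N ^ k *
      (√2 / (√2 ^ k * √k))) atTop (𝓝 (√Real.pi / √Real.pi ^ k * (√2 / (√2 ^ k * √k)))) := by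
    refine Tendsto.mul_const _ (Tendsto.div ?_ (Stirling.tendsto_stirlingSeq_sqrt_pi.pow k) ?_)
    · exact Stirling.tendsto_stirlingSeq_sqrt_pi.comp
        (tendsto_id.const_mul_atTop' (by omega))
    · have : 0 < √Real.pi := Real.sqrt_pos.2 Real.pi_pos
      positivity
  have h2 : √Real.pi / √Real.pi ^ k * (√2 / (√2 ^ k * √k)) = Gc k := by
    rw [Gc, Real.sqrt_mul (by norm_num), mul_pow]
    have : 0 < √Real.pi := Real.sqrt_pos.2 Real.pi_pos
    have hkp : (0 : ℝ) < k := by exact_mod_cast hk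
    have hsk : 0 < √(k : ℝ) := Real.sqrt_pos.2 hkp
    field_simp
  rw [h2] at h1
  have h3 := (continuous_ofReal.tendsto (Gc k)).comp h1
  refine h3.congr' ?_
  filter_upwards [eventually_ge_atTop 1] with N hN
  simp only [Function.comp]
  rw [cN_eq_real, cN_real_eq hk hN]

/-- **Asymptotics of the Gamma quotient** on `Re y = 1`. -/
theorem GR_asymp {k : ℕ} (hk : 1 ≤ k) : ∃ C : ℝ, 0 ≤ C ∧ ∀ t : ℝ, 2 ≤ |t| →
    ‖GR k (1 + t * I) - Gc k‖ ≤ C / |t| := by
  have hG := cN_tendsto hk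
  set G : ℂ := (Gc k : ℂ)
  have hkp : (0 : ℝ) < k := by exact_mod_cast hk
  refine ⟨‖G‖ * (4 * k * Real.exp (2 * k)), by positivity, fun t ht => ?_⟩
  set y : ℂ := 1 + t * I with hy
  have hyre : y.re = 1 := by simp [hy]
  have hyim : y.im = t := by simp [hy]
  have hpos : 0 < y.re := by rw [hyre]; norm_num
  have htp : 0 < |t| := by linarith
  have hn : ∀ n : ℕ, 2 ≤ ‖y + n‖ := by
    intro n
    refine ht.trans ?_
    have := abs_im_le_norm (y + n)
    simpa [hyim] using this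
  have hS : ∀ N, ‖∑ n ∈ range N, om k (y + n)‖ ≤ 4 * k / |t| := fun N =>
    (norm_sum_le _ _).trans (sum_om_le hk ht (by rw [hyre]) (by rw [hyre, hyim]; linarith) N hn)
  have h1 : Tendsto (fun N => AA k y N - cN k N * (1 + y / N) ^ (((k : ℂ) - 1) / 2)) atTop
      (𝓝 (GR k y - G * 1)) := (tendsto_AA hk hpos).sub (hG.mul (tendsto_one_add_cpow y _))
  have h2 : Tendsto (fun N => ‖cN k N * (1 + y / N) ^ (((k : ℂ) - 1) / 2)‖ *
      (4 * k / |t| * Real.exp (2 * k))) atTop (𝓝 (‖G * 1‖ * (4 * k / |t| * Real.exp (2 * k)))) :=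
    (hG.mul (tendsto_one_add_cpow y _)).norm.mul_const _
  have h3 := le_of_tendsto_of_tendsto h1.norm h2 (by
    filter_upwards [eventually_ge_atTop 1] with N hN
    rw [AA_eq' hk hpos hN]
    have e1 : cN k N * (1 + y / N) ^ (((k : ℂ) - 1) / 2) *
        cexp (∑ n ∈ range N, om k (y + n)) - cN k N * (1 + y / N) ^ (((k : ℂ) - 1) / 2) =
        cN k N * (1 + y / N) ^ (((k : ℂ) - 1) / 2) * (cexp (∑ n ∈ range N, om k (y + n)) - 1) := by
      ring
    rw [e1, norm_mul]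
    gcongr
    have h5 := Complex.norm_exp_sub_sum_le_norm_mul_exp (∑ n ∈ range N, om k (y + n)) 1
    simp only [Finset.sum_range_one, pow_zero, Nat.factorial_zero, Nat.cast_one, div_one,
      pow_one] at h5
    refine h5.trans ?_
    have h6 := hS N
    have h7 : 4 * k / |t| ≤ 2 * k := by
      rw [div_le_iff₀ htp]; nlinarith
    have h8 : Real.exp ‖∑ n ∈ range N, om k (y + n)‖ ≤ Real.exp (2 * k) :=
      Real.exp_le_exp.2 (h6.trans h7)
    gcongr)
  rw [mul_one] at h3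
  refine h3.trans (le_of_eq ?_)
  field_simp

end Pool.Agent.Lib.MP_bc6037_nt
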