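import Mathlib

set_option autoImplicit false

open Complex MeasureTheory Set Filter Topology Asymptotics

namespace Pool.Agent.Lib.MP_bc6037_nt.ZetaGrowth

/-- `(s-1) ζ(s)` as an entire function. -/
noncomputable def H : ℂ → ℂ := Function.update (fun s => (s - 1) * riemannZeta s) 1 1

lemma H_of_ne {s : ℂ} (hs : s ≠ 1) : H s = (s - 1) * riemannZeta s := by
  simp [H, Function.update_of_ne hs]

lemma H_one : H 1 = 1 := by simp [H]

lemma differentiable_H : Differentiable ℂ H := by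
  intro s
  by_cases hs : s = 1
  · subst hs
    refine (analyticAt_of_differentiable_on_punctured_nhds_of_continuousAt ?_ ?_).differentiableAt
    · filter_upwards [self_mem_nhdsWithin] with z hz
      have hz' : z ≠ 1 := hz
      have h1 : DifferentiableAt ℂ (fun s => (s - 1) * riemannZeta s) z :=
        (differentiableAt_id.sub_const 1).mul (differentiableAt_riemannZeta hz')
      refine h1.congr_of_eventuallyEq ?_
      filter_upwards [isOpen_ne.mem_nhds hz'] with w hw
      exact H_of_ne hw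
    · have : Tendsto (fun s => (s - 1) * riemannZeta s) (𝓝[≠] 1) (𝓝 1) := riemannZeta_residue_one
      unfold H
      rw [continuousAt_update_same]
      exact this
  · have h1 : DifferentiableAt ℂ (fun s => (s - 1) * riemannZeta s) s :=
      (differentiableAt_id.sub_const 1).mul (differentiableAt_riemannZeta hs)
    refine h1.congr_of_eventuallyEq ?_
    filter_upwards [isOpen_ne.mem_nhds hs] with w hw
    exact H_of_ne hw

/-- the sawtooth, cut off to `(1, ∞)` -/
noncomputable def saw : ℝ → ℂ := (Ioi (1:ℝ)).indicator fun t => ((⌊t⌋₊ : ℂ) - t)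

lemma norm_saw_le (t : ℝ) : ‖saw t‖ ≤ 1 := by
  by_cases ht : t ∈ Ioi (1:ℝ)
  · have ht1 : (1:ℝ) < t := ht
    rw [saw, indicator_of_mem ht]
    have h1 : (⌊t⌋₊ : ℝ) ≤ t := Nat.floor_le (by linarith)
    have h2 : t < ⌊t⌋₊ + 1 := Nat.lt_floor_add_one t
    have : ((⌊t⌋₊ : ℂ) - t) = (((⌊t⌋₊ : ℝ) - t : ℝ) : ℂ) := by push_cast; rfl
    rw [this, norm_real, Real.norm_eq_abs, abs_le]
    constructor <;> linarith
  · rw [saw, indicator_of_notMem ht]; simp

lemma measurable_saw : Measurable saw := by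
  refine Measurable.indicator ?_ measurableSet_Ioi
  refine Measurable.sub ?_ measurable_ofReal
  exact (measurable_from_top (f := fun n : ℕ => (n : ℂ))).comp Nat.measurable_floor

lemma locallyIntegrable_saw : LocallyIntegrableOn saw (Ioi 0) := by
  refine LocallyIntegrable.locallyIntegrableOn ?_ _
  have hc : LocallyIntegrable (fun _ : ℝ => (1:ℝ)) := locallyIntegrable_const _
  exact hc.mono measurable_saw.aestronglyMeasurable (ae_of_all _ fun t => by
    simpa using norm_saw_le t)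

lemma saw_top : saw =O[atTop] (fun t : ℝ => t ^ (-(0:ℝ))) := by
  refine IsBigO.of_bound 1 (Eventually.of_forall fun t => ?_)
  simpa using norm_saw_le t

lemma saw_zero (b : ℝ) : saw =O[𝓝[>] 0] (fun t : ℝ => t ^ (-b)) := by
  refine IsBigO.of_bound 1 ?_
  have : Iio (1:ℝ) ∈ 𝓝[>] (0:ℝ) := mem_nhdsWithin_of_mem_nhds (Iio_mem_nhds one_pos)
  filter_upwards [this] with t ht
  have : t ∉ Ioi (1:ℝ) := by simp only [mem_Ioi, not_lt]; exact (show t < 1 from ht).le
  rw [saw, indicator_of_notMem this]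
  simp only [norm_zero, one_mul]
  positivity

/-- The Mellin transform of the sawtooth. -/
noncomputable def J (s : ℂ) : ℂ := mellin saw (-s)

lemma differentiableAt_J {s : ℂ} (hs : 0 < s.re) : DifferentiableAt ℂ J s := by
  have : DifferentiableAt ℂ (mellin saw) (-s) :=
    mellin_differentiableAt_of_isBigO_rpow locallyIntegrable_saw saw_top (by simpa using hs)
      (saw_zero ((-s).re - 1)) (by linarith)
  exact this.comp s (differentiableAt_id.neg)

lemma convergent_J {s : ℂ} (hs : 0 < s.re) : MellinConvergent saw (-s) :=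
  mellinConvergent_of_isBigO_rpow locallyIntegrable_saw saw_top (by simpa using hs)
      (saw_zero ((-s).re - 1)) (by linarith)

lemma J_eq {s : ℂ} : J s = ∫ t in Ioi (1:ℝ), (t:ℂ) ^ (-s - 1) * ((⌊t⌋₊ : ℂ) - t) := by
  unfold J mellin
  rw [← integral_indicator measurableSet_Ioi, ← integral_indicator measurableSet_Ioi]
  congr 1
  ext t
  by_cases ht : t ∈ Ioi (1:ℝ)
  · have ht0 : t ∈ Ioi (0:ℝ) := mem_Ioi.mpr (lt_trans one_pos (mem_Ioi.mp ht))
    rw [indicator_of_mem ht, indicator_of_mem ht0, saw, indicator_of_mem ht]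
    rfl
  · rw [indicator_of_notMem ht]
    by_cases ht0 : t ∈ Ioi (0:ℝ)
    · rw [indicator_of_mem ht0, saw, indicator_of_notMem ht]; simp
    · rw [indicator_of_notMem ht0]

lemma norm_J_le {s : ℂ} (hs : 0 < s.re) : ‖J s‖ ≤ 1 / s.re := by
  rw [J_eq]
  have h1 : ∫ t in Ioi (1:ℝ), t ^ (-s.re - 1) = 1 / s.re := by
    rw [integral_Ioi_rpow_of_lt (by linarith) one_pos]
    simp
  rw [← h1]
  have hint : IntegrableOn (fun t : ℝ => t ^ (-s.re - 1)) (Ioi 1) :=
    integrableOn_Ioi_rpow_of_lt (by linarith) one_pos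
  refine norm_integral_le_of_norm_le hint ?_
  rw [ae_restrict_iff' measurableSet_Ioi]
  refine ae_of_all _ fun t ht => ?_
  have ht1 : (1:ℝ) < t := ht
  have h2 : ‖((⌊t⌋₊ : ℂ) - t)‖ ≤ 1 := by
    have := norm_saw_le t
    rwa [saw, indicator_of_mem ht] at this
  rw [norm_mul, norm_cpow_eq_rpow_re_of_pos (by linarith)]
  simp only [sub_re, neg_re, one_re]
  have : 0 ≤ t ^ (-s.re - 1) := by positivity
  nlinarith

lemma zeta_eq_of_one_lt {s : ℂ} (hs : 1 < s.re) :
    riemannZeta s = s / (s - 1) + s * J s := by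
  have hs1 : s - 1 ≠ 0 := by
    intro h
    have : s = 1 := by linear_combination h
    rw [this] at hs; simp at hs
  have hs0 : s ≠ 0 := by
    intro h; rw [h] at hs; norm_num at hs
  have hO : (fun n : ℕ => ∑ k ∈ Finset.Icc 1 n, ‖(1 : ℕ → ℂ) k‖) =O[atTop]
      fun n : ℕ => (n:ℝ) ^ (1:ℝ) := by
    refine IsBigO.of_bound 1 (Eventually.of_forall fun n => ?_)
    simp
  have h := LSeries_eq_mul_integral' (1 : ℕ → ℂ) zero_le_one hs hO
  rw [LSeries_one_eq_riemannZeta hs] at h
  have hint1 : IntegrableOn (fun t : ℝ => (t:ℂ) ^ (-s)) (Ioi 1) :=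
    integrableOn_Ioi_cpow_of_lt (by simpa using by linarith) one_pos
  have hint2 : IntegrableOn (fun t : ℝ => (t:ℂ) ^ (-s - 1) * ((⌊t⌋₊ : ℂ) - t)) (Ioi 1) := by
    have h0 := convergent_J (s := s) (by linarith)
    have h1 : IntegrableOn (fun t : ℝ => (t:ℂ) ^ (-s - 1) • saw t) (Ioi 1) :=
      h0.mono_set (Ioi_subset_Ioi zero_le_one)
    refine h1.congr_fun (fun t ht => ?_) measurableSet_Ioi
    simp only [saw, indicator_of_mem ht, smul_eq_mul]
  have hsplit : ∫ t in Ioi (1:ℝ), (∑ k ∈ Finset.Icc 1 ⌊t⌋₊, (1 : ℕ → ℂ) k) * (t:ℂ) ^ (-(s + 1))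
      = (∫ t in Ioi (1:ℝ), (t:ℂ) ^ (-s)) +
        ∫ t in Ioi (1:ℝ), (t:ℂ) ^ (-s - 1) * ((⌊t⌋₊ : ℂ) - t) := by
    rw [← integral_add hint1 hint2]
    refine setIntegral_congr_fun measurableSet_Ioi fun t ht => ?_
    have ht0 : (t:ℂ) ≠ 0 := ofReal_ne_zero.mpr (ne_of_gt (lt_trans one_pos ht))
    have e1 : (t:ℂ) ^ (-s) = (t:ℂ) ^ (-s - 1) * t := by
      conv_lhs => rw [show -s = (-s - 1) + 1 by ring]
      rw [cpow_add _ _ ht0, cpow_one]
    have e2 : -(s + 1) = -s - 1 := by ring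
    simp only [Pi.one_apply, Finset.sum_const, Nat.card_Icc, add_tsub_cancel_right, nsmul_eq_mul,
      mul_one]
    rw [e1, e2]
    ring
  rw [h, hsplit, ← J_eq, integral_Ioi_cpow_of_lt (by simpa using by linarith) one_pos]
  have e3 : -s + 1 ≠ 0 := by
    intro h'; apply hs1; linear_combination -h'
  simp only [ofReal_one, one_cpow]
  field_simp
  ring

lemma H_eq {s : ℂ} (hs : 0 < s.re) : H s = s + s * (s - 1) * J s := by
  have hopen : IsOpen {z : ℂ | 0 < z.re} := isOpen_lt continuous_const continuous_re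
  have hpre : IsPreconnected {z : ℂ | 0 < z.re} :=
    (convex_halfSpace_re_gt 0).isPreconnected
  have hf : AnalyticOnNhd ℂ H {z : ℂ | 0 < z.re} :=
    DifferentiableOn.analyticOnNhd (differentiable_H.differentiableOn) hopen
  have hg : AnalyticOnNhd ℂ (fun s => s + s * (s - 1) * J s) {z : ℂ | 0 < z.re} := by
    refine DifferentiableOn.analyticOnNhd ?_ hopen
    intro z hz
    have hz' : DifferentiableAt ℂ J z := differentiableAt_J hz
    have : DifferentiableAt ℂ (fun s => s + s * (s - 1) * J s) z := by fun_prop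
    exact this.differentiableWithinAt
  have h2 : (2:ℂ) ∈ {z : ℂ | 0 < z.re} := by simp
  have hev : H =ᶠ[𝓝 (2:ℂ)] fun s => s + s * (s - 1) * J s := by
    have : {z : ℂ | 1 < z.re} ∈ 𝓝 (2:ℂ) :=
      (isOpen_lt continuous_const continuous_re).mem_nhds (by simp)
    filter_upwards [this] with z hz
    have hz1 : z ≠ 1 := by
      intro h; rw [h] at hz; simp at hz
    rw [H_of_ne hz1, zeta_eq_of_one_lt hz]
    have : z - 1 ≠ 0 := sub_ne_zero.mpr hz1
    field_simp
  exact hf.eqOn_of_preconnected_of_eventuallyEq hg hpre h2 hev hs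

lemma norm_H_le {s : ℂ} (hs : 0 < s.re) : ‖H s‖ ≤ ‖s‖ + ‖s‖ * ‖s - 1‖ / s.re := by
  rw [H_eq hs]
  have := norm_J_le hs
  calc ‖s + s * (s - 1) * J s‖ ≤ ‖s‖ + ‖s * (s - 1) * J s‖ := norm_add_le _ _
    _ = ‖s‖ + ‖s‖ * ‖s - 1‖ * ‖J s‖ := by rw [norm_mul, norm_mul]
    _ ≤ ‖s‖ + ‖s‖ * ‖s - 1‖ * (1 / s.re) := by gcongr
    _ = _ := by ring

end Pool.Agent.Lib.MP_bc6037_nt.ZetaGrowth
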