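import Mathlib
import Pool.Agent.Lib.MP_bc6037_nt.ZetaGrowth

set_option autoImplicit false

open Complex MeasureTheory Set Filter Topology Asymptotics

namespace Pool.Agent.Lib.MP_bc6037_nt.ZetaGrowth

/-! ### A Phragmen-Lindelof interpolation lemma with polynomial weights -/

lemma exp_aux (B u : ℝ) : B * u - u ^ 2 ≤ B ^ 2 / 4 := by
  nlinarith [sq_nonneg (u - B / 2)]

lemma one_add_rpow_le {a t T : ℝ} (ha : 0 ≤ a) :
    (1 + |t|) ^ a ≤ (1 + |T|) ^ a * Real.exp (a * |t - T|) := by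
  have h1 : 1 + |t| ≤ (1 + |T|) * (1 + |t - T|) := by
    have : |t| ≤ |T| + |t - T| := by
      have := abs_add_le T (t - T)
      simpa using this
    nlinarith [abs_nonneg T, abs_nonneg (t - T)]
  have h2 : (1 + |t|) ^ a ≤ ((1 + |T|) * (1 + |t - T|)) ^ a :=
    Real.rpow_le_rpow (by positivity) h1 ha
  rw [Real.mul_rpow (by positivity) (by positivity)] at h2
  have h3 : (1 + |t - T|) ^ a ≤ Real.exp (a * |t - T|) := by
    have h4 : 1 + |t - T| ≤ Real.exp |t - T| := by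
      have := Real.add_one_le_exp |t - T|
      linarith
    calc (1 + |t - T|) ^ a ≤ (Real.exp |t - T|) ^ a := Real.rpow_le_rpow (by positivity) h4 ha
      _ = Real.exp (a * |t - T|) := by rw [← Real.exp_mul, mul_comm]
  calc (1 + |t|) ^ a ≤ (1 + |T|) ^ a * (1 + |t - T|) ^ a := h2
    _ ≤ _ := by gcongr

theorem pl_poly {f : ℂ → ℂ} (hf : Differentiable ℂ f) {σ₀ σ₁ : ℝ} (h01 : σ₀ < σ₁) {A B : ℝ}
    (hgrow : ∀ s : ℂ, σ₀ ≤ s.re → s.re ≤ σ₁ → ‖f s‖ ≤ A * Real.exp (B * |s.im|))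
    {a₀ a₁ C₀ C₁ : ℝ} (ha0 : 0 ≤ a₀) (ha1 : 0 ≤ a₁)
    (h0 : ∀ s : ℂ, s.re = σ₀ → ‖f s‖ ≤ C₀ * (1 + |s.im|) ^ a₀)
    (h1 : ∀ s : ℂ, s.re = σ₁ → ‖f s‖ ≤ C₁ * (1 + |s.im|) ^ a₁) :
    ∃ C : ℝ, ∀ s : ℂ, σ₀ ≤ s.re → s.re ≤ σ₁ →
      ‖f s‖ ≤ C * (1 + |s.im|) ^ (a₀ + (a₁ - a₀) / (σ₁ - σ₀) * (s.re - σ₀)) := by
  set κ : ℝ := (a₁ - a₀) / (σ₁ - σ₀) with hκ
  have hB0 : ∀ s : ℂ, σ₀ ≤ s.re → s.re ≤ σ₁ → ‖f s‖ ≤ |A| * Real.exp (|B| * |s.im|) := by
    intro s h h'
    refine (hgrow s h h').trans ?_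
    gcongr
    · exact le_abs_self A
    · exact le_abs_self B
  have hC0 : 0 ≤ C₀ := by
    have h2 := h0 (σ₀ : ℂ) (by simp)
    have h3 : (0:ℝ) ≤ ‖f (σ₀ : ℂ)‖ := norm_nonneg _
    simp at h2
    linarith
  have hC1 : 0 ≤ C₁ := by
    have h2 := h1 (σ₁ : ℂ) (by simp)
    have h3 : (0:ℝ) ≤ ‖f (σ₁ : ℂ)‖ := norm_nonneg _
    simp at h2
    linarith
  set C : ℝ := max (C₀ * Real.exp (σ₀ ^ 2 + a₀ ^ 2 / 4)) (C₁ * Real.exp (σ₁ ^ 2 + a₁ ^ 2 / 4))
    with hC
  have hCnn : 0 ≤ C := le_max_of_le_left (by positivity)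
  refine ⟨C, fun s hs0 hs1 => ?_⟩
  set T : ℝ := s.im with hT
  set L : ℝ := Real.log (1 + |T|) with hL
  have hTpos : 0 < 1 + |T| := by positivity
  let G : ℂ → ℂ := fun z => f z * exp ((z - T * I) ^ 2) * exp (-((κ * (z - σ₀) + a₀) * L))
  have hGd : Differentiable ℂ G := by
    refine (hf.mul ?_).mul ?_
    · fun_prop
    · fun_prop
  have hnorm1 : ∀ z : ℂ, ‖exp ((z - T * I) ^ 2)‖ = Real.exp (z.re ^ 2 - (z.im - T) ^ 2) := by
    intro z
    rw [norm_exp]
    congr 1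
    simp [sq]
  have hnorm2 : ∀ z : ℂ, ‖exp (-((κ * (z - σ₀) + a₀) * L))‖
      = Real.exp (-((κ * (z.re - σ₀) + a₀) * L)) := by
    intro z
    rw [norm_exp]
    congr 1
    simp
  have hGn : ∀ z : ℂ, ‖G z‖ = ‖f z‖ * Real.exp (z.re ^ 2 - (z.im - T) ^ 2)
      * Real.exp (-((κ * (z.re - σ₀) + a₀) * L)) := by
    intro z
    simp only [G, norm_mul, hnorm1, hnorm2]
  have hrp : ∀ a : ℝ, Real.exp (a * L) = (1 + |T|) ^ a := by
    intro a
    rw [hL, Real.rpow_def_of_pos hTpos, mul_comm]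
  -- boundedness in the strip
  have hbdd : ∃ K : ℝ, ∀ z : ℂ, σ₀ ≤ z.re → z.re ≤ σ₁ → ‖G z‖ ≤ K := by
    set M : ℝ := max |σ₀| |σ₁| with hM
    refine ⟨|A| * Real.exp (|B| * |T| + |B| ^ 2 / 4) * Real.exp (M ^ 2) *
      Real.exp ((|κ| * (σ₁ - σ₀) + a₀) * |L|), fun z hz0 hz1 => ?_⟩
    rw [hGn]
    have e1 : ‖f z‖ * Real.exp (z.re ^ 2 - (z.im - T) ^ 2) ≤
        |A| * Real.exp (|B| * |T| + |B| ^ 2 / 4) * Real.exp (M ^ 2) := by
      have h2 := hB0 z hz0 hz1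
      have h3 : |z.im| ≤ |T| + |z.im - T| := by
        have := abs_add_le T (z.im - T)
        simpa using this
      have h4 := exp_aux |B| |z.im - T|
      rw [sq_abs] at h4
      have h5 : z.re ^ 2 ≤ M ^ 2 := by
        rw [sq_le_sq, abs_of_nonneg (a := M) (le_max_of_le_left (abs_nonneg _))]
        exact abs_le_max_abs_abs hz0 hz1
      calc ‖f z‖ * Real.exp (z.re ^ 2 - (z.im - T) ^ 2)
          ≤ (|A| * Real.exp (|B| * |z.im|)) * Real.exp (z.re ^ 2 - (z.im - T) ^ 2) := by gcongr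
        _ = |A| * Real.exp (|B| * |z.im| + (z.re ^ 2 - (z.im - T) ^ 2)) := by
            rw [Real.exp_add]; ring
        _ ≤ |A| * Real.exp ((|B| * |T| + |B| ^ 2 / 4) + M ^ 2) := by
            gcongr ?_ * ?_
            apply Real.exp_le_exp.mpr
            nlinarith [abs_nonneg B]
        _ = _ := by rw [Real.exp_add]; ring
    have e2 : Real.exp (-((κ * (z.re - σ₀) + a₀) * L)) ≤
        Real.exp ((|κ| * (σ₁ - σ₀) + a₀) * |L|) := by
      apply Real.exp_le_exp.mpr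
      have h6 : |κ * (z.re - σ₀) + a₀| ≤ |κ| * (σ₁ - σ₀) + a₀ := by
        calc |κ * (z.re - σ₀) + a₀| ≤ |κ * (z.re - σ₀)| + |a₀| := abs_add_le _ _
          _ = |κ| * (z.re - σ₀) + a₀ := by
              rw [abs_mul, abs_of_nonneg (sub_nonneg.mpr hz0), abs_of_nonneg ha0]
          _ ≤ _ := by gcongr
      calc -((κ * (z.re - σ₀) + a₀) * L) ≤ |(κ * (z.re - σ₀) + a₀) * L| := neg_le_abs _
        _ = |κ * (z.re - σ₀) + a₀| * |L| := abs_mul _ _
        _ ≤ _ := by gcongr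
    gcongr
  obtain ⟨K, hK⟩ := hbdd
  have hline : ∀ (σ a C' : ℝ), 0 ≤ a → 0 ≤ C' → κ * (σ - σ₀) + a₀ = a →
      C' * Real.exp (σ ^ 2 + a ^ 2 / 4) ≤ C →
      (∀ s : ℂ, s.re = σ → ‖f s‖ ≤ C' * (1 + |s.im|) ^ a) → ∀ z : ℂ, z.re = σ → ‖G z‖ ≤ C := by
    intro σ a C' ha hC' hlin hle hb z hz
    rw [hGn, hz, hlin]
    refine le_trans ?_ hle
    have h2 := hb z hz
    have h3 := one_add_rpow_le (t := z.im) (T := T) ha
    have h4 := exp_aux a |z.im - T|
    rw [sq_abs] at h4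
    have h5 : Real.exp (-(a * L)) = ((1 + |T|) ^ a)⁻¹ := by
      rw [Real.exp_neg, hrp]
    have hp : 0 < (1 + |T|) ^ a := Real.rpow_pos_of_pos hTpos a
    calc ‖f z‖ * Real.exp (σ ^ 2 - (z.im - T) ^ 2) * Real.exp (-(a * L))
        ≤ (C' * ((1 + |T|) ^ a * Real.exp (a * |z.im - T|))) *
            Real.exp (σ ^ 2 - (z.im - T) ^ 2) * Real.exp (-(a * L)) := by
          gcongr
          exact h2.trans (by gcongr)
      _ = C' * (Real.exp (a * |z.im - T|) * Real.exp (σ ^ 2 - (z.im - T) ^ 2)) := by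
          rw [h5]; field_simp
      _ = C' * Real.exp (a * |z.im - T| + (σ ^ 2 - (z.im - T) ^ 2)) := by rw [Real.exp_add]
      _ ≤ C' * Real.exp (σ ^ 2 + a ^ 2 / 4) :=
          mul_le_mul_of_nonneg_left (Real.exp_le_exp.mpr (by linarith)) hC'
  have hG : ‖G s‖ ≤ C := by
    refine PhragmenLindelof.vertical_strip (a := σ₀) (b := σ₁) hGd.diffContOnCl ?_ ?_ ?_ hs0 hs1
    · refine ⟨0, by apply div_pos Real.pi_pos (sub_pos.mpr h01), 0, ?_⟩
      refine IsBigO.of_bound K ?_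
      refine eventually_inf_principal.mpr (Eventually.of_forall fun z hz => ?_)
      have := hK z hz.1.le hz.2.le
      simpa using this
    · exact hline σ₀ a₀ C₀ ha0 hC0 (by ring) (le_max_left _ _) h0
    · refine hline σ₁ a₁ C₁ ha1 hC1 ?_ (le_max_right _ _) h1
      rw [hκ]
      have : σ₁ - σ₀ ≠ 0 := ne_of_gt (sub_pos.mpr h01)
      field_simp
      ring
  rw [hGn, ← hT, sub_self] at hG
  have hs2 : (1:ℝ) ≤ Real.exp (s.re ^ 2 - 0 ^ 2) := by
    apply Real.one_le_exp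
    nlinarith [sq_nonneg s.re]
  have hp : Real.exp (-((κ * (s.re - σ₀) + a₀) * L)) = ((1 + |T|) ^ (κ * (s.re - σ₀) + a₀))⁻¹ := by
    rw [Real.exp_neg, hrp]
  rw [hp] at hG
  have hpp : 0 < (1 + |T|) ^ (κ * (s.re - σ₀) + a₀) := Real.rpow_pos_of_pos hTpos _
  have e3 : a₀ + κ * (s.re - σ₀) = κ * (s.re - σ₀) + a₀ := by ring
  rw [e3]
  have hfn : 0 ≤ ‖f s‖ := norm_nonneg _
  have hG' : ‖f s‖ * ((1 + |T|) ^ (κ * (s.re - σ₀) + a₀))⁻¹ ≤ C := by
    refine le_trans ?_ hG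
    refine mul_le_mul_of_nonneg_right ?_ (inv_pos.mpr hpp).le
    nlinarith
  rw [← div_eq_mul_inv, div_le_iff₀ hpp] at hG'
  exact hG'

/-! ### Gamma on the line `Re s = 2` and the functional equation -/

lemma norm_Gamma_le {s : ℂ} (hs : 0 < s.re) : ‖Gamma s‖ ≤ Real.Gamma s.re := by
  rw [Gamma_eq_integral hs, Real.Gamma_eq_integral hs, GammaIntegral]
  refine (norm_integral_le_integral_norm _).trans (le_of_eq ?_)
  refine setIntegral_congr_fun measurableSet_Ioi fun x hx => ?_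
  have hx' : (0:ℝ) < x := hx
  simp only [norm_mul]
  rw [norm_cpow_eq_rpow_re_of_pos hx', norm_real, Real.norm_eq_abs,
    abs_of_pos (Real.exp_pos _)]
  simp

lemma norm_Gamma_one_add_I_sq {t : ℝ} (ht : t ≠ 0) :
    ‖Gamma (1 + t * I)‖ ^ 2 = Real.pi * t / Real.sinh (Real.pi * t) := by
  have hconj : Gamma (1 - t * I) = (starRingEnd ℂ) (Gamma (1 + t * I)) := by
    rw [← Gamma_conj]; congr 1; simp [sub_eq_add_neg]
  have h1 : Gamma (1 - t * I) = (-(t * I)) * Gamma (-(t * I)) := by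
    rw [← Gamma_add_one]
    · congr 1; ring
    · simpa using ht
  have h2 := Gamma_mul_Gamma_one_sub (1 + t * I)
  have h3 : (1 : ℂ) - (1 + t * I) = -(t * I) := by ring
  rw [h3] at h2
  have h4 : sin (Real.pi * (1 + t * I)) = -(sinh (Real.pi * t) * I) := by
    have : (Real.pi : ℂ) * (1 + t * I) = (Real.pi * t) * I + Real.pi := by ring
    rw [this, sin_add_pi, sin_mul_I]
  rw [h4] at h2
  have h5 : Gamma (1 + t * I) * Gamma (1 - t * I) = ((Real.pi * t / Real.sinh (Real.pi * t) : ℝ) : ℂ) := by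
    rw [h1]
    have : Gamma (1 + t * I) * (-(t * I) * Gamma (-(t * I)))
        = -(t * I) * (Gamma (1 + t * I) * Gamma (-(t * I))) := by ring
    rw [this, h2]
    have hsh : sinh ((Real.pi : ℂ) * t) ≠ 0 := by
      have : sinh ((Real.pi : ℂ) * t) = ((Real.sinh (Real.pi * t) : ℝ) : ℂ) := by push_cast; rfl
      rw [this, ofReal_ne_zero]
      rw [Ne, Real.sinh_eq_zero]
      exact mul_ne_zero Real.pi_ne_zero ht
    push_cast
    field_simp
  rw [hconj, mul_conj, ofReal_inj] at h5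
  rw [← h5, normSq_eq_norm_sq]

lemma norm_Gamma_two_cosh {t : ℝ} (ht : 1 ≤ |t|) :
    ‖Gamma (2 + t * I)‖ * Real.cosh (Real.pi * t / 2) ≤ 2 * (1 + |t|) ^ (3 / 2 : ℝ) := by
  have ht0 : t ≠ 0 := by intro h; rw [h] at ht; simp at ht; linarith
  have h1 : Gamma (2 + t * I) = (1 + t * I) * Gamma (1 + t * I) := by
    rw [← Gamma_add_one]
    · congr 1; ring
    · intro h
      have := congrArg re h
      simp at this
  have hn1 : ‖(1 + t * I : ℂ)‖ ≤ 1 + |t| := by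
    calc ‖(1 + t * I : ℂ)‖ ≤ ‖(1:ℂ)‖ + ‖(t * I : ℂ)‖ := norm_add_le _ _
      _ = 1 + |t| := by simp
  -- the square of the remaining factor
  have hsq : (‖Gamma (1 + t * I)‖ * Real.cosh (Real.pi * t / 2)) ^ 2 ≤ 4 * (1 + |t|) := by
    rw [mul_pow, norm_Gamma_one_add_I_sq ht0]
    have e1 : Real.pi * t / Real.sinh (Real.pi * t) = Real.pi * |t| / Real.sinh (Real.pi * |t|) := by
      rcases le_or_gt 0 t with h | h
      · rw [abs_of_nonneg h]
      · rw [abs_of_neg h, mul_neg, Real.sinh_neg, neg_div_neg_eq]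
    have e2 : Real.cosh (Real.pi * t / 2) = Real.cosh (Real.pi * |t| / 2) := by
      rcases le_or_gt 0 t with h | h
      · rw [abs_of_nonneg h]
      · rw [abs_of_neg h, mul_neg, neg_div, Real.cosh_neg]
    rw [e1, e2]
    set x : ℝ := Real.pi * |t| / 2 with hx
    have hx1 : 1 ≤ x := by
      have := Real.pi_gt_three
      rw [hx]
      nlinarith
    have e3 : Real.pi * |t| = 2 * x := by rw [hx]; ring
    rw [e3, Real.sinh_two_mul]
    have hs : 0 < Real.sinh x := Real.sinh_pos_iff.mpr (by linarith)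
    have hc : 0 < Real.cosh x := Real.cosh_pos x
    have e4 : 2 * x / (2 * Real.sinh x * Real.cosh x) * Real.cosh x ^ 2
        = x * (Real.cosh x / Real.sinh x) := by field_simp
    rw [e4]
    have hcs : Real.cosh x ≤ 2 * Real.sinh x := by
      have h5 : Real.exp (-x) ≤ 1 := Real.exp_le_one_iff.mpr (by linarith)
      have h6 : 1 + x ≤ Real.exp x := by have := Real.add_one_le_exp x; linarith
      have h7 : (2.7 : ℝ) < Real.exp 1 := by
        have := Real.exp_one_gt_d9; linarith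
      have h8 : Real.exp 1 ≤ Real.exp x := Real.exp_le_exp.mpr hx1
      have h9 : Real.exp (-x) ≤ Real.exp (-1) := Real.exp_le_exp.mpr (by linarith)
      have h10 : Real.exp (-1) * Real.exp 1 = 1 := by rw [← Real.exp_add]; simp
      have h11 : Real.exp (-1) ≤ 1 / 2.7 := by
        rw [le_div_iff₀ (by norm_num)]
        nlinarith [Real.exp_pos (-1)]
      rw [Real.cosh_eq, Real.sinh_eq]
      linarith
    have h12 : Real.cosh x / Real.sinh x ≤ 2 := by
      rw [div_le_iff₀ hs]; exact hcs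
    have hpi : Real.pi ≤ 4 := Real.pi_le_four
    calc x * (Real.cosh x / Real.sinh x) ≤ x * 2 := by gcongr
      _ = Real.pi * |t| := by rw [hx]; ring
      _ ≤ 4 * (1 + |t|) := by nlinarith [abs_nonneg t]
  have h2 : ‖Gamma (1 + t * I)‖ * Real.cosh (Real.pi * t / 2) ≤ 2 * (1 + |t|) ^ (1 / 2 : ℝ) := by
    have hnn : 0 ≤ 2 * (1 + |t|) ^ (1 / 2 : ℝ) := by positivity
    have hp : 0 ≤ ‖Gamma (1 + t * I)‖ * Real.cosh (Real.pi * t / 2) :=
      mul_nonneg (norm_nonneg _) (Real.cosh_pos _).le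
    rw [← pow_le_pow_iff_left₀ hp hnn two_ne_zero]
    refine hsq.trans (le_of_eq ?_)
    rw [mul_pow, ← Real.rpow_natCast ((1 + |t|) ^ (1 / 2 : ℝ)), ← Real.rpow_mul (by positivity)]
    norm_num
  rw [h1, norm_mul]
  have hc : 0 < Real.cosh (Real.pi * t / 2) := Real.cosh_pos _
  calc ‖(1 + t * I : ℂ)‖ * ‖Gamma (1 + t * I)‖ * Real.cosh (Real.pi * t / 2)
      = ‖(1 + t * I : ℂ)‖ * (‖Gamma (1 + t * I)‖ * Real.cosh (Real.pi * t / 2)) := by ring
    _ ≤ (1 + |t|) * (2 * (1 + |t|) ^ (1 / 2 : ℝ)) := by gcongr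
    _ = 2 * (1 + |t|) ^ (3 / 2 : ℝ) := by
        have : (1 + |t|) ^ (3 / 2 : ℝ) = (1 + |t|) * (1 + |t|) ^ (1 / 2 : ℝ) := by
          rw [show (3 / 2 : ℝ) = 1 + 1 / 2 by norm_num, Real.rpow_add (by positivity), Real.rpow_one]
        rw [this]; ring

lemma norm_zeta_two_line (t : ℝ) : ‖riemannZeta (2 + t * I)‖ ≤ ∑' n : ℕ, 1 / (n : ℝ) ^ (2 : ℝ) := by
  have hre : (2 + t * I : ℂ).re = 2 := by simp
  rw [zeta_eq_tsum_one_div_nat_cpow (by rw [hre]; norm_num)]
  have hs : Summable fun n : ℕ => 1 / (n : ℝ) ^ (2 : ℝ) :=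
    Real.summable_one_div_nat_rpow.mpr (by norm_num)
  refine tsum_of_norm_bounded hs.hasSum fun n => ?_
  rcases Nat.eq_zero_or_pos n with h | h
  · subst h
    have h2 : (2 + t * I : ℂ) ≠ 0 := by
      intro h; rw [h] at hre; simp at hre
    simp [zero_cpow h2]
  · rw [norm_div, norm_one, norm_natCast_cpow_of_pos h, hre]

lemma norm_cos_le (w : ℂ) : ‖cos w‖ ≤ Real.cosh w.im := by
  have h1 : cos w = (exp (w * I) + exp (-w * I)) / 2 := rfl
  rw [h1, norm_div]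
  have h2 : ‖exp (w * I) + exp (-w * I)‖ ≤ Real.exp (-w.im) + Real.exp w.im := by
    refine (norm_add_le _ _).trans (le_of_eq ?_)
    rw [norm_exp, norm_exp]
    simp
  rw [Real.cosh_eq]
  have h3 : ‖(2:ℂ)‖ = 2 := by simp
  rw [h3]
  linarith

lemma zeta_neg_one_line : ∃ C : ℝ, ∀ t : ℝ, 1 ≤ |t| →
    ‖riemannZeta (-1 + t * I)‖ ≤ C * (1 + |t|) ^ (3 / 2 : ℝ) := by
  refine ⟨4 * ∑' n : ℕ, 1 / (n : ℝ) ^ (2 : ℝ), fun t ht => ?_⟩
  set w : ℂ := 2 + ((-t : ℝ) : ℂ) * I with hw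
  have hre : w.re = 2 := by simp [hw]
  have him : w.im = -t := by simp [hw]
  have h1 : (-1 + t * I : ℂ) = 1 - w := by rw [hw]; push_cast; ring
  have hwn : ∀ n : ℕ, w ≠ -n := by
    intro n h
    have := congrArg re h
    rw [hre] at this
    simp at this
    linarith [(Nat.cast_nonneg n : (0:ℝ) ≤ n)]
  have hw1 : w ≠ 1 := by
    intro h; rw [h] at hre; simp at hre
  rw [h1, riemannZeta_one_sub hwn hw1]
  have hG := norm_Gamma_two_cosh (t := -t) (by simpa using ht)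
  rw [← hw, abs_neg] at hG
  have hz := norm_zeta_two_line (-t)
  rw [← hw] at hz
  have hcos : ‖cos (Real.pi * w / 2)‖ ≤ Real.cosh (Real.pi * (-t) / 2) := by
    refine (norm_cos_le _).trans (le_of_eq ?_)
    congr 1
    have : (Real.pi * w / 2 : ℂ) = ((Real.pi / 2 : ℝ) : ℂ) * w := by push_cast; ring
    rw [this, im_ofReal_mul, him]
    ring
  have hp : ‖(2 * Real.pi : ℂ) ^ (-w)‖ ≤ 1 := by
    have : (2 * Real.pi : ℂ) = ((2 * Real.pi : ℝ) : ℂ) := by push_cast; rfl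
    rw [this, norm_cpow_eq_rpow_re_of_pos (by positivity)]
    apply Real.rpow_le_one_of_one_le_of_nonpos
    · nlinarith [Real.pi_gt_three]
    · simp [hre]
  rw [norm_mul, norm_mul, norm_mul, norm_mul]
  have hc : 0 ≤ Real.cosh (Real.pi * (-t) / 2) := (Real.cosh_pos _).le
  have hS : 0 ≤ ∑' n : ℕ, 1 / (n : ℝ) ^ (2 : ℝ) := tsum_nonneg fun n => by positivity
  calc ‖(2:ℂ)‖ * ‖(2 * Real.pi : ℂ) ^ (-w)‖ * ‖Gamma w‖ * ‖cos (Real.pi * w / 2)‖ *
        ‖riemannZeta w‖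
      ≤ 2 * 1 * ‖Gamma w‖ * Real.cosh (Real.pi * (-t) / 2) *
        ∑' n : ℕ, 1 / (n : ℝ) ^ (2 : ℝ) := by
        gcongr
        simp
    _ = 2 * (‖Gamma w‖ * Real.cosh (Real.pi * (-t) / 2)) *
        ∑' n : ℕ, 1 / (n : ℝ) ^ (2 : ℝ) := by ring
    _ ≤ 2 * (2 * (1 + |t|) ^ (3 / 2 : ℝ)) * ∑' n : ℕ, 1 / (n : ℝ) ^ (2 : ℝ) := by gcongr
    _ = _ := by ring

/-- polynomial bound for `H` on the line `Re s = -1` -/
lemma H_neg_one_line : ∃ C : ℝ, ∀ s : ℂ, s.re = -1 → ‖H s‖ ≤ C * (1 + |s.im|) ^ (5 / 2 : ℝ) := by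
  obtain ⟨C, hC⟩ := zeta_neg_one_line
  -- compact part
  have hK : IsCompact ((fun t : ℝ => (-1 + t * I : ℂ)) '' Icc (-1) 1) :=
    isCompact_Icc.image (by fun_prop)
  obtain ⟨M, hM⟩ := hK.exists_bound_of_continuousOn differentiable_H.continuous.continuousOn
  refine ⟨max (2 * |C|) |M|, fun s hs => ?_⟩
  have hse : s = -1 + s.im * I := by
    apply Complex.ext <;> simp [hs]
  have hp1 : (1:ℝ) ≤ (1 + |s.im|) ^ (5 / 2 : ℝ) :=
    Real.one_le_rpow (by linarith [abs_nonneg s.im]) (by norm_num)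
  by_cases h : 1 ≤ |s.im|
  · have hs1 : s ≠ 1 := by intro h; rw [h] at hs; norm_num at hs
    rw [H_of_ne hs1, norm_mul]
    have h2 := hC s.im h
    rw [← hse] at h2
    have h3 : ‖s - 1‖ ≤ 2 * (1 + |s.im|) := by
      have h6 : s - 1 = -2 + s.im * I := by linear_combination hse
      calc ‖s - 1‖ = ‖(-2 + s.im * I : ℂ)‖ := by rw [h6]
        _ ≤ ‖(-2:ℂ)‖ + ‖(s.im * I : ℂ)‖ := norm_add_le _ _
        _ = 2 + |s.im| := by simp
        _ ≤ _ := by linarith [abs_nonneg s.im]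
    have h4 : (1 + |s.im|) ^ (5 / 2 : ℝ) = (1 + |s.im|) * (1 + |s.im|) ^ (3 / 2 : ℝ) := by
      rw [show (5 / 2 : ℝ) = 1 + 3 / 2 by norm_num, Real.rpow_add (by positivity), Real.rpow_one]
    have h5 : ‖riemannZeta s‖ ≤ |C| * (1 + |s.im|) ^ (3 / 2 : ℝ) :=
      h2.trans (by gcongr; exact le_abs_self C)
    calc ‖s - 1‖ * ‖riemannZeta s‖
        ≤ (2 * (1 + |s.im|)) * (|C| * (1 + |s.im|) ^ (3 / 2 : ℝ)) := by gcongr
      _ = (2 * |C|) * (1 + |s.im|) ^ (5 / 2 : ℝ) := by rw [h4]; ring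
      _ ≤ _ := by gcongr; exact le_max_left _ _
  · push Not at h
    have h2 : ‖H s‖ ≤ M := hM s ⟨s.im, ⟨by linarith [neg_abs_le s.im], by linarith [le_abs_self s.im]⟩,
      hse.symm⟩
    calc ‖H s‖ ≤ |M| := h2.trans (le_abs_self M)
      _ ≤ max (2 * |C|) |M| := le_max_right _ _
      _ = max (2 * |C|) |M| * 1 := by ring
      _ ≤ _ := by gcongr

/-- exponential bound for `H` in the strip `-1 ≤ Re s ≤ 2` -/
lemma H_strip_exp : ∃ A : ℝ, ∀ s : ℂ, -1 ≤ s.re → s.re ≤ 2 → ‖H s‖ ≤ A * Real.exp (5 * |s.im|) := by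
  -- compact part
  have hK : IsCompact (Icc (-1:ℝ) 2 ×ℂ Icc (-1:ℝ) 1) := isCompact_Icc.reProdIm isCompact_Icc
  obtain ⟨M, hM⟩ := hK.exists_bound_of_continuousOn differentiable_H.continuous.continuousOn
  -- Gamma on `[1/2, 2]`
  obtain ⟨MG, hMG⟩ := (isCompact_Icc (a := (1/2:ℝ)) (b := 2)).exists_bound_of_continuousOn
    (f := Real.Gamma) (fun x hx => (Real.differentiableAt_Gamma (fun m => by
      have : (0:ℝ) ≤ m := Nat.cast_nonneg m
      have := hx.1
      linarith)).continuousAt.continuousWithinAt)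
  have hexp1 : ∀ t : ℝ, 2 + |t| ≤ 2 * Real.exp |t| := by
    intro t
    have := Real.add_one_le_exp |t|
    linarith [abs_nonneg t]
  have hns : ∀ s : ℂ, -1 ≤ s.re → s.re ≤ 2 → ‖s‖ ≤ 2 + |s.im| ∧ ‖s - 1‖ ≤ 2 + |s.im| := by
    intro s h1 h2
    constructor
    · refine (norm_le_abs_re_add_abs_im s).trans ?_
      gcongr
      rw [abs_le]; constructor <;> linarith
    · refine (norm_le_abs_re_add_abs_im (s - 1)).trans ?_
      simp only [sub_re, one_re, sub_im, one_im, sub_zero]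
      gcongr
      rw [abs_le]; constructor <;> linarith
  have hright : ∀ s : ℂ, 1 / 2 ≤ s.re → s.re ≤ 2 → ‖H s‖ ≤ 12 * Real.exp (2 * |s.im|) := by
    intro s h1 h2
    obtain ⟨h3, h4⟩ := hns s (by linarith) h2
    have h5 := norm_H_le (s := s) (by linarith)
    have h6 : ‖s‖ * ‖s - 1‖ / s.re ≤ (2 + |s.im|) * (2 + |s.im|) / (1 / 2) := by
      gcongr
    have h7 : Real.exp (2 * |s.im|) = Real.exp |s.im| * Real.exp |s.im| := by
      rw [← Real.exp_add]; ring_nf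
    have h8 := hexp1 s.im
    rw [h7]
    nlinarith [abs_nonneg s.im, Real.exp_pos |s.im|]
  refine ⟨max |M| (48 * |MG|) + 12, fun s h1 h2 => ?_⟩
  have hpos : 0 < Real.exp (5 * |s.im|) := Real.exp_pos _
  have hge1 : 1 ≤ Real.exp (5 * |s.im|) := Real.one_le_exp (by positivity)
  by_cases ht : |s.im| ≤ 1
  · have h3 : ‖H s‖ ≤ M := hM s ⟨⟨h1, h2⟩, ⟨by linarith [neg_abs_le s.im], by
      linarith [le_abs_self s.im]⟩⟩
    have h4 : ‖H s‖ ≤ |M| := h3.trans (le_abs_self M)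
    have h5 : |M| ≤ max |M| (48 * |MG|) := le_max_left _ _
    nlinarith [abs_nonneg M]
  · push Not at ht
    by_cases hσ : 1 / 2 ≤ s.re
    · have h3 := hright s hσ h2
      have h4 : Real.exp (2 * |s.im|) ≤ Real.exp (5 * |s.im|) :=
        Real.exp_le_exp.mpr (by linarith [abs_nonneg s.im])
      have h5 : 0 ≤ max |M| (48 * |MG|) := le_max_of_le_left (abs_nonneg _)
      nlinarith
    · push Not at hσ
      set w : ℂ := 1 - s with hw
      have hwre : w.re = 1 - s.re := by simp [hw]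
      have hwim : w.im = -s.im := by simp [hw]
      have hs1 : s ≠ 1 := by intro h; rw [h] at hσ; norm_num at hσ
      have hsim : s.im ≠ 0 := by intro h; rw [h] at ht; simp at ht; linarith
      have hwn : ∀ n : ℕ, w ≠ -n := by
        intro n h
        have := congrArg im h
        rw [hwim] at this
        simp at this
        exact hsim this
      have hw1 : w ≠ 1 := by
        intro h
        have := congrArg im h
        rw [hwim] at this
        simp at this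
        exact hsim this
      have hsw : s = 1 - w := by rw [hw]; ring
      have hz : riemannZeta s = 2 * (2 * Real.pi) ^ (-w) * Gamma w * cos (Real.pi * w / 2) *
          riemannZeta w := by
        rw [hsw]; exact riemannZeta_one_sub hwn hw1
      rw [H_of_ne hs1, norm_mul, hz, norm_mul, norm_mul, norm_mul, norm_mul]
      have hG : ‖Gamma w‖ ≤ |MG| := by
        refine (norm_Gamma_le (s := w) (by rw [hwre]; linarith)).trans ?_
        have h3 := hMG w.re ⟨by rw [hwre]; linarith, by rw [hwre]; linarith⟩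
        rw [Real.norm_eq_abs] at h3
        exact (le_abs_self _).trans (h3.trans (le_abs_self _))
      have hcos : ‖cos (Real.pi * w / 2)‖ ≤ Real.exp (2 * |s.im|) := by
        refine (norm_cos_le _).trans ?_
        have h3 : (Real.pi * w / 2 : ℂ).im = Real.pi / 2 * (-s.im) := by
          have : (Real.pi * w / 2 : ℂ) = ((Real.pi / 2 : ℝ) : ℂ) * w := by push_cast; ring
          rw [this, im_ofReal_mul, hwim]
        rw [h3, ← Real.cosh_abs]
        have h4 : |Real.pi / 2 * (-s.im)| ≤ 2 * |s.im| := by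
          rw [abs_mul, abs_neg, abs_of_pos (by positivity)]
          have := Real.pi_le_four
          gcongr
          linarith
        rw [Real.cosh_eq]
        have h5 : Real.exp |Real.pi / 2 * (-s.im)| ≤ Real.exp (2 * |s.im|) :=
          Real.exp_le_exp.mpr h4
        have h6 : Real.exp (-|Real.pi / 2 * (-s.im)|) ≤ Real.exp (2 * |s.im|) :=
          Real.exp_le_exp.mpr (by linarith [abs_nonneg (Real.pi / 2 * (-s.im)), abs_nonneg s.im])
        linarith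
      have hp : ‖(2 * Real.pi : ℂ) ^ (-w)‖ ≤ 1 := by
        have : (2 * Real.pi : ℂ) = ((2 * Real.pi : ℝ) : ℂ) := by push_cast; rfl
        rw [this, norm_cpow_eq_rpow_re_of_pos (by positivity)]
        apply Real.rpow_le_one_of_one_le_of_nonpos
        · nlinarith [Real.pi_gt_three]
        · simp only [neg_re, hwre]; linarith
      have hzw : ‖riemannZeta w‖ ≤ 12 * Real.exp (2 * |s.im|) := by
        have h3 := hright w (by rw [hwre]; linarith) (by rw [hwre]; linarith)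
        rw [hwim, abs_neg] at h3
        refine le_trans ?_ h3
        rw [H_of_ne hw1, norm_mul]
        have h4 : 1 ≤ ‖w - 1‖ := by
          have : |(w - 1).im| ≤ ‖w - 1‖ := abs_im_le_norm _
          have h5 : (w - 1).im = -s.im := by simp [hwim]
          rw [h5, abs_neg] at this
          linarith
        nlinarith [norm_nonneg (riemannZeta w)]
      have hs1' : ‖s - 1‖ ≤ 2 * Real.exp |s.im| := (hns s h1 h2).2.trans (hexp1 _)
      have hMGnn : 0 ≤ |MG| := abs_nonneg _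
      calc ‖s - 1‖ * (‖(2:ℂ)‖ * ‖(2 * Real.pi : ℂ) ^ (-w)‖ * ‖Gamma w‖ *
            ‖cos (Real.pi * w / 2)‖ * ‖riemannZeta w‖)
          ≤ (2 * Real.exp |s.im|) * (2 * 1 * |MG| * Real.exp (2 * |s.im|) *
            (12 * Real.exp (2 * |s.im|))) := by
            gcongr
            simp
        _ = 48 * |MG| * (Real.exp |s.im| * Real.exp (2 * |s.im|) * Real.exp (2 * |s.im|)) := by ring
        _ = 48 * |MG| * Real.exp (5 * |s.im|) := by
            rw [← Real.exp_add, ← Real.exp_add]; ring_nf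
        _ ≤ (max |M| (48 * |MG|) + 12) * Real.exp (5 * |s.im|) := by
            gcongr
            have := le_max_right |M| (48 * |MG|)
            linarith

/-- **Interpolation for zeta.** If `(s-1)ζ(s)` is `O((1+|t|)^(1+δ))` on the line `Re s = σ₁`, where
`0 < σ₁ ≤ 2`, then in the strip `-1 ≤ Re s ≤ σ₁` it is bounded by the interpolated power. -/
lemma H_interp {σ₁ a₁ C₁ : ℝ} (hσ : -1 < σ₁) (hσ2 : σ₁ ≤ 2) (ha1 : 0 ≤ a₁)
    (h1 : ∀ s : ℂ, s.re = σ₁ → ‖H s‖ ≤ C₁ * (1 + |s.im|) ^ a₁) :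
    ∃ C : ℝ, ∀ s : ℂ, -1 ≤ s.re → s.re ≤ σ₁ →
      ‖H s‖ ≤ C * (1 + |s.im|) ^ (5 / 2 + (a₁ - 5 / 2) / (σ₁ - (-1)) * (s.re - (-1))) := by
  obtain ⟨A, hA⟩ := H_strip_exp
  obtain ⟨C₀, hC₀⟩ := H_neg_one_line
  exact pl_poly differentiable_H hσ (fun s h h' => hA s h (h'.trans hσ2)) (by norm_num) ha1 hC₀ h1

end Pool.Agent.Lib.MP_bc6037_nt.ZetaGrowth
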