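import Mathlib
import Pool.Agent.Lib.MP_bc6037_nt.ZetaPL

set_option autoImplicit false

/-!
Exponential decay of the Gamma function in vertical strips.
-/

open Complex Filter Topology Set MeasureTheory

namespace Pool.Agent.Lib.MP_bc6037_nt

lemma div_sinh_le {x : ℝ} (hx : 0 < x) : x / Real.sinh x ≤ (1 + 2 * x) * Real.exp (-x) := by
  have h1 : 0 < Real.sinh x := Real.sinh_pos_iff.2 hx
  rw [div_le_iff₀ h1, Real.sinh_eq]
  have h2 : Real.exp (-x) * Real.exp x = 1 := by rw [← Real.exp_add]; simp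
  have h3 := Real.add_one_le_exp (2 * x)
  have h4 : Real.exp (2 * x) = Real.exp x * Real.exp x := by rw [← Real.exp_add]; ring_nf
  have h5 := Real.exp_pos (-x)
  have h6 : (1 + 2 * x) * Real.exp (-x) * ((Real.exp x - Real.exp (-x)) / 2) =
      (1 + 2 * x) * (1 - Real.exp (-x) ^ 2) / 2 := by
    have : Real.exp (-x) * Real.exp x = 1 := h2
    linear_combination (1 + 2 * x) / 2 * h2
  rw [h6]
  have h7 : (1 + 2 * x) * Real.exp (-x) ^ 2 ≤ 1 := by
    have h8 : Real.exp (-x) ^ 2 * (Real.exp x * Real.exp x) = 1 := by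
      have : (Real.exp (-x) * Real.exp x) ^ 2 = 1 := by rw [h2]; norm_num
      linear_combination this
    have h9 : 0 < Real.exp (-x) ^ 2 := by positivity
    nlinarith
  nlinarith

lemma Gamma_one_vert (t : ℝ) :
    ‖Gamma (1 + t * I)‖ ≤ 3 * (1 + |t|) * Real.exp (-(Real.pi * |t|) / 2) := by
  by_cases ht : t = 0
  · subst ht; simp
  · have h0 : 0 < |t| := abs_pos.2 ht
    have hpi := Real.pi_pos
    have h1 := ZetaGrowth.norm_Gamma_one_add_I_sq ht
    have h2 : Real.pi * t / Real.sinh (Real.pi * t) =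
        Real.pi * |t| / Real.sinh (Real.pi * |t|) := by
      rcases abs_cases t with ⟨h, _⟩ | ⟨h, _⟩
      · rw [h]
      · rw [h, mul_neg, Real.sinh_neg, neg_div_neg_eq]
    rw [h2] at h1
    have h3 := div_sinh_le (mul_pos hpi h0)
    have h4 : (1 + 2 * (Real.pi * |t|)) ≤ 9 * (1 + |t|) ^ 2 := by
      have := Real.pi_lt_four
      nlinarith
    have h5 : ‖Gamma (1 + t * I)‖ ^ 2 ≤ (3 * (1 + |t|) * Real.exp (-(Real.pi * |t|) / 2)) ^ 2 := by
      rw [h1, mul_pow, mul_pow, ← Real.exp_nat_mul]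
      have e1 : ((2 : ℕ) : ℝ) * (-(Real.pi * |t|) / 2) = -(Real.pi * |t|) := by push_cast; ring
      rw [e1]
      refine h3.trans ?_
      have := Real.exp_pos (-(Real.pi * |t|))
      nlinarith
    exact le_of_sq_le_sq h5 (by positivity)

lemma Gamma_nat_vert (n : ℕ) : ∃ C : ℝ, 0 ≤ C ∧ ∀ t : ℝ,
    ‖Gamma ((n + 1 : ℕ) + t * I)‖ ≤
      C * (1 + |t|) ^ (n + 1) * Real.exp (-(Real.pi * |t|) / 2) := by
  induction n with
  | zero =>
    refine ⟨3, by norm_num, fun t => ?_⟩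
    have := Gamma_one_vert t
    simpa using this
  | succ n ih =>
    obtain ⟨C, hC0, hC⟩ := ih
    refine ⟨(n + 1) * C, by positivity, fun t => ?_⟩
    have h1 : (((n + 1 + 1 : ℕ) : ℂ) + t * I) = (((n + 1 : ℕ) : ℂ) + t * I) + 1 := by
      push_cast; ring
    have h2 : (((n + 1 : ℕ) : ℂ) + t * I) ≠ 0 := by
      intro h
      have := congrArg re h
      simp at this
      have h3 : (0 : ℝ) ≤ n := Nat.cast_nonneg n
      linarith
    rw [h1, Gamma_add_one _ h2, norm_mul]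
    have h4 : ‖(((n + 1 : ℕ) : ℂ) + t * I)‖ ≤ (n + 1) * (1 + |t|) := by
      refine (norm_add_le _ _).trans ?_
      rw [norm_natCast, norm_mul, norm_real, norm_I, mul_one, Real.norm_eq_abs]
      push_cast
      have : (0 : ℝ) ≤ n := Nat.cast_nonneg n
      have := abs_nonneg t
      nlinarith
    calc ‖(((n + 1 : ℕ) : ℂ) + t * I)‖ * ‖Gamma (((n + 1 : ℕ) : ℂ) + t * I)‖
        ≤ ((n + 1) * (1 + |t|)) * (C * (1 + |t|) ^ (n + 1) * Real.exp (-(Real.pi * |t|) / 2)) := by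
          gcongr
          exact hC t
      _ = _ := by ring

lemma Gamma_le_of_re_lt {w : ℂ} {N : ℝ} (h0 : 0 < w.re) (hN : w.re < N) :
    ‖Gamma w‖ ≤ Real.Gamma w.re / Real.Gamma N * ‖Gamma (N + w.im * I)‖ := by
  set θ : ℝ := N - w.re with hθ
  have hθ0 : 0 < θ := by rw [hθ]; linarith
  have h1 := Complex.Gamma_mul_Gamma_eq_betaIntegral (s := w) (t := (θ : ℂ)) h0 (by simpa using hθ0)
  have h2 : w + θ = N + w.im * I := by
    apply Complex.ext <;> simp [hθ]
  have h3 : ‖betaIntegral w θ‖ ≤ (betaIntegral (w.re : ℂ) θ).re := by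
    unfold betaIntegral
    have e1 : ∀ x ∈ Ioo (0 : ℝ) 1, (x : ℂ) ^ ((w.re : ℂ) - 1) * (1 - (x : ℂ)) ^ ((θ : ℂ) - 1) =
        ((x ^ (w.re - 1) * (1 - x) ^ (θ - 1) : ℝ) : ℂ) := by
      intro x hx
      rw [ofReal_mul, ofReal_cpow hx.1.le, ofReal_cpow (by linarith [hx.2] : (0 : ℝ) ≤ 1 - x)]
      push_cast
      rfl
    rw [intervalIntegral.integral_of_le zero_le_one, intervalIntegral.integral_of_le zero_le_one,
      MeasureTheory.integral_Ioc_eq_integral_Ioo, MeasureTheory.integral_Ioc_eq_integral_Ioo,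
      setIntegral_congr_fun measurableSet_Ioo e1, integral_complex_ofReal, ofReal_re]
    refine norm_integral_le_of_norm_le ?_ ?_
    · have h4 := Complex.betaIntegral_convergent (u := (w.re : ℂ)) (v := θ) (by simpa using h0)
        (by simpa using hθ0)
      rw [intervalIntegrable_iff_integrableOn_Ioo_of_le zero_le_one] at h4
      have h5 := (h4.congr_fun e1 measurableSet_Ioo).re
      simpa using h5
    · filter_upwards [ae_restrict_mem measurableSet_Ioo] with x hx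
      have hx1 : 0 < 1 - x := by linarith [hx.2]
      rw [norm_mul, norm_cpow_eq_rpow_re_of_pos hx.1,
        show (1 - (x : ℂ)) = ((1 - x : ℝ) : ℂ) by push_cast; rfl,
        norm_cpow_eq_rpow_re_of_pos hx1]
      simp
  have h6 := Complex.Gamma_mul_Gamma_eq_betaIntegral (s := (w.re : ℂ)) (t := (θ : ℂ))
    (by simpa using h0) (by simpa using hθ0)
  have h7 : (w.re : ℂ) + θ = (N : ℝ) := by push_cast [hθ]; ring
  rw [h7, Gamma_ofReal, Gamma_ofReal, Gamma_ofReal] at h6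
  have hGN : 0 < Real.Gamma N := Real.Gamma_pos_of_pos (by linarith)
  have hGθ : 0 < Real.Gamma θ := Real.Gamma_pos_of_pos hθ0
  have h8 : Real.Gamma w.re * Real.Gamma θ = Real.Gamma N * (betaIntegral (w.re : ℂ) θ).re := by
    have := congrArg re h6
    rwa [← ofReal_mul, ofReal_re, re_ofReal_mul] at this
  rw [h2, Gamma_ofReal] at h1
  have h9 : ‖Gamma w‖ * Real.Gamma θ = ‖Gamma (N + w.im * I)‖ * ‖betaIntegral w θ‖ := by
    have := congrArg norm h1
    rwa [norm_mul, norm_mul, norm_real, Real.norm_eq_abs, abs_of_pos hGθ] at this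
  have h10 : ‖Gamma w‖ * Real.Gamma θ ≤ ‖Gamma (N + w.im * I)‖ *
      (Real.Gamma w.re * Real.Gamma θ / Real.Gamma N) := by
    rw [h9]
    gcongr
    rw [h8]
    rw [mul_div_cancel_left₀ _ hGN.ne']
    exact h3
  have h11 : ‖Gamma (N + w.im * I)‖ * (Real.Gamma w.re * Real.Gamma θ / Real.Gamma N) =
      (Real.Gamma w.re / Real.Gamma N * ‖Gamma (N + w.im * I)‖) * Real.Gamma θ := by ring
  rw [h11] at h10
  exact le_of_mul_le_mul_right h10 hGθ

/-- uniform exponential decay of `Γ` in a vertical strip `σ₀ ≤ Re w ≤ n+1` -/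
lemma Gamma_strip (n : ℕ) {σ₀ : ℝ} (h0 : 0 < σ₀) : ∃ C : ℝ, 0 ≤ C ∧ ∀ w : ℂ, σ₀ ≤ w.re →
    w.re ≤ (n + 1 : ℕ) →
    ‖Gamma w‖ ≤ C * (1 + |w.im|) ^ (n + 1) * Real.exp (-(Real.pi * |w.im|) / 2) := by
  obtain ⟨C, hC0, hC⟩ := Gamma_nat_vert n
  have hcont : ContinuousOn Real.Gamma (Icc σ₀ (n + 1 : ℕ)) := by
    intro x hx
    refine (Real.differentiableAt_Gamma ?_).continuousAt.continuousWithinAt
    intro m hm
    have : (0 : ℝ) ≤ m := Nat.cast_nonneg m
    linarith [hx.1]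
  obtain ⟨B, hB⟩ := isCompact_Icc.exists_bound_of_continuousOn hcont
  have hG : 0 < Real.Gamma ((n + 1 : ℕ) : ℝ) := Real.Gamma_pos_of_pos (by positivity)
  refine ⟨(1 + |B| / Real.Gamma ((n + 1 : ℕ) : ℝ)) * C, by positivity, fun w h1 h2 => ?_⟩
  rcases h2.lt_or_eq with h3 | h3
  · refine (Gamma_le_of_re_lt (by linarith) h3).trans ?_
    have h4 := hB w.re ⟨h1, h2⟩
    have h5 : Real.Gamma w.re ≤ |B| := ((le_abs_self _).trans h4).trans (le_abs_self B)
    have h6 := hC w.im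
    calc Real.Gamma w.re / Real.Gamma ((n + 1 : ℕ) : ℝ) * ‖Gamma (((n + 1 : ℕ) : ℝ) + w.im * I)‖
        ≤ |B| / Real.Gamma ((n + 1 : ℕ) : ℝ) *
          (C * (1 + |w.im|) ^ (n + 1) * Real.exp (-(Real.pi * |w.im|) / 2)) := by
          gcongr
          simpa using h6
      _ ≤ (1 + |B| / Real.Gamma ((n + 1 : ℕ) : ℝ)) *
          (C * (1 + |w.im|) ^ (n + 1) * Real.exp (-(Real.pi * |w.im|) / 2)) := by
          gcongr
          linarith
      _ = _ := by ring
  · have h6 := hC w.im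
    have h7 : w = ((n + 1 : ℕ) : ℂ) + w.im * I := by
      apply Complex.ext
      · simp at h3; simp [h3]
      · simp
    rw [← h7] at h6
    refine h6.trans ?_
    have : 0 ≤ |B| / Real.Gamma ((n + 1 : ℕ) : ℝ) * C := by positivity
    have h8 : C ≤ (1 + |B| / Real.Gamma ((n + 1 : ℕ) : ℝ)) * C := by linarith
    gcongr

end Pool.Agent.Lib.MP_bc6037_nt
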