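import Mathlib
import Pool.Agent.Lib.MP_bc6037_nt.GammaVert
import Pool.Agent.Lib.MP_bc6037_nt.GammaRatio

set_option autoImplicit false

/-!
The kernel on the line `Re s = -1` after the functional equation, and its asymptotics.
-/

open Complex Filter Topology Set MeasureTheory Asymptotics

namespace Pool.Agent.Lib.MP_bc6037_nt

/-- `log(2 π k) + i π / 2`, the logarithm of `2 π i k` -/
noncomputable def L0 (k : ℕ) : ℂ := Real.log (2 * Real.pi * k) + Real.pi / 2 * I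

/-- the factor of the functional equation at `s = -1 + i t` -/
noncomputable def X0 (t : ℝ) : ℂ :=
  2 * (2 * Real.pi) ^ (-(2 - t * I)) * Gamma (2 - t * I) * cos (Real.pi * (2 - t * I) / 2)

lemma zeta_eq_X0 (t : ℝ) : riemannZeta (-1 + t * I) = X0 t * riemannZeta (2 - t * I) := by
  have h := riemannZeta_one_sub (s := 2 - t * I) (by
    intro n h
    have := congrArg re h
    simp at this
    have h3 : (0 : ℝ) ≤ n := Nat.cast_nonneg n
    linarith) (by
    intro h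
    have := congrArg re h
    simp at this)
  have h2 : (1 : ℂ) - (2 - t * I) = -1 + t * I := by ring
  rw [h2] at h
  rw [h, X0]

/-- the kernel -/
noncomputable def EE (k : ℕ) (t : ℝ) : ℂ :=
  k * Gamma (k * (1 + t * I)) * cexp (-(k * (1 + t * I)) * L0 k) * X0 t ^ k / (-1 + t * I)

lemma Gamma_refl {t : ℝ} (ht : 0 < t) :
    Gamma (2 - t * I) = (1 - t * I) * (Real.pi * t / sinh (Real.pi * t)) / Gamma (1 + t * I) := by
  have h1 : Gamma (2 - t * I) = (1 - t * I) * Gamma (1 - t * I) := by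
    rw [← Gamma_add_one]
    · congr 1; ring
    · intro h
      have := congrArg re h
      simp at this
  have h2 := Gamma_mul_Gamma_one_sub (t * I)
  have htI : (t : ℂ) * I ≠ 0 := mul_ne_zero (by exact_mod_cast ht.ne') I_ne_zero
  have h3 : Gamma (1 + t * I) = t * I * Gamma (t * I) := by
    rw [← Gamma_add_one _ htI]; congr 1; ring
  have h4 : sin (Real.pi * (t * I)) = sinh (Real.pi * t) * I := by
    rw [← mul_assoc, sin_mul_I]
  have hG : Gamma (1 + t * I) ≠ 0 := Gamma_ne_zero_of_re_pos (by simp)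
  have hsh : sinh ((Real.pi : ℂ) * t) ≠ 0 := by
    have : sinh ((Real.pi : ℂ) * t) = ((Real.sinh (Real.pi * t) : ℝ) : ℂ) := by push_cast; rfl
    rw [this, ofReal_ne_zero, Ne, Real.sinh_eq_zero]
    exact mul_ne_zero Real.pi_ne_zero ht.ne'
  rw [h1, eq_div_iff hG, mul_assoc]
  congr 1
  rw [h3, mul_comm, mul_assoc, h2, h4]
  have := I_ne_zero
  field_simp

/-- explicit form of the kernel for `t > 0` -/
lemma EE_eq {k : ℕ} (hk : 1 ≤ k) {t : ℝ} (ht : 0 < t) :
    EE k t = (k * cexp (-(3 * k) * Real.log (2 * Real.pi)) * cexp (-(k * (Real.pi / 2 * I))) *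
        (-(2 * Real.pi)) ^ k) * GR k (1 + t * I) * (1 + t * I) ^ (((k : ℂ) - 1) / 2) *
        (1 - t * I) ^ k * t ^ k * ((1 - Real.exp (-(Real.pi * t)) : ℝ) : ℂ)⁻¹ ^ k /
        (-1 + t * I) := by
  have hk0 : (k : ℂ) ≠ 0 := by exact_mod_cast (by omega : k ≠ 0)
  have hkp : (0 : ℝ) < k := by exact_mod_cast hk
  have hG : Gamma (1 + t * I) ≠ 0 := Gamma_ne_zero_of_re_pos (by simp)
  have hy0 : (1 + t * I : ℂ) ≠ 0 := by
    intro h; have := congrArg re h; simp at this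
  have hya : (1 + t * I : ℂ) ^ (((k : ℂ) - 1) / 2) ≠ 0 := by
    rw [cpow_def_of_ne_zero hy0]; exact Complex.exp_ne_zero _
  have hkk : (k : ℂ) ^ (-(k * (1 + t * I)) : ℂ) ≠ 0 := by
    rw [cpow_def_of_ne_zero hk0]; exact Complex.exp_ne_zero _
  -- Gamma(k y) in terms of GR
  have h1 : Gamma (k * (1 + t * I)) = GR k (1 + t * I) * (Gamma (1 + t * I) ^ k *
      (1 + t * I) ^ (((k : ℂ) - 1) / 2)) / (k : ℂ) ^ (-(k * (1 + t * I)) : ℂ) := by
    rw [GR]
    field_simp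
  have h2 : cos (Real.pi * (2 - t * I) / 2) = - cosh (Real.pi * t / 2) := by
    have : (Real.pi : ℂ) * (2 - t * I) / 2 = Real.pi - (Real.pi * t / 2) * I := by ring
    rw [this, cos_pi_sub, cos_mul_I]
  have hsh : sinh ((Real.pi : ℂ) * t) ≠ 0 := by
    have : sinh ((Real.pi : ℂ) * t) = ((Real.sinh (Real.pi * t) : ℝ) : ℂ) := by push_cast; rfl
    rw [this, ofReal_ne_zero, Ne, Real.sinh_eq_zero]
    exact mul_ne_zero Real.pi_ne_zero ht.ne'
  have h2pi : (2 * Real.pi : ℂ) ≠ 0 := by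
    exact_mod_cast (by positivity : (2 * Real.pi : ℝ) ≠ 0)
  have hlog : log (2 * Real.pi : ℂ) = Real.log (2 * Real.pi) := by
    rw [ofReal_log (by positivity)]; push_cast; rfl
  have h3 : (2 * Real.pi : ℂ) ^ (-(2 - t * I)) = cexp (-(2 - t * I) * Real.log (2 * Real.pi)) := by
    rw [cpow_def_of_ne_zero h2pi, hlog, mul_comm]
  have h4 : (k : ℂ) ^ (-(k * (1 + t * I)) : ℂ) = cexp (-(k * (1 + t * I)) * Real.log k) := by
    rw [cpow_def_of_ne_zero hk0, natCast_log, mul_comm]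
  have h5 : L0 k = Real.log (2 * Real.pi) + Real.log k + Real.pi / 2 * I := by
    rw [L0, Real.log_mul (by positivity) hkp.ne']; push_cast; ring
  -- the hyperbolic factor
  have hE : (1 - Real.exp (-(Real.pi * t)) : ℝ) ≠ 0 := by
    have : Real.exp (-(Real.pi * t)) < 1 := by
      rw [Real.exp_lt_one_iff]; have := mul_pos Real.pi_pos ht; linarith
    linarith
  have h6 : cosh ((Real.pi : ℂ) * t / 2) * cexp (Real.pi * t / 2) / sinh (Real.pi * t) =
      ((1 - Real.exp (-(Real.pi * t)) : ℝ) : ℂ)⁻¹ := by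
    rw [eq_comm, inv_eq_iff_eq_inv, inv_div]
    have e1 : sinh ((Real.pi : ℂ) * t) = 2 * sinh (Real.pi * t / 2) * cosh (Real.pi * t / 2) := by
      rw [← sinh_two_mul]; congr 1; ring
    have e2 : cosh ((Real.pi : ℂ) * t / 2) ≠ 0 := by
      intro h; rw [h, mul_zero] at e1; exact hsh e1
    have e3 : (2 : ℂ) * sinh (Real.pi * t / 2) = cexp (Real.pi * t / 2) - cexp (-(Real.pi * t / 2)) := by
      rw [Complex.two_sinh]
    rw [e1, e3, eq_div_iff (mul_ne_zero e2 (Complex.exp_ne_zero _))]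
    have e4 : cexp (-(Real.pi * t)) * cexp (Real.pi * t / 2) = cexp (-(Real.pi * t / 2)) := by
      rw [← Complex.exp_add]; congr 1; ring
    push_cast
    linear_combination (-cosh ((Real.pi : ℂ) * t / 2)) * e4
  have h7 : X0 t = cexp (-(2 - t * I) * Real.log (2 * Real.pi)) * (-(2 * Real.pi)) * (1 - t * I) * t *
      (cosh (Real.pi * t / 2) / sinh (Real.pi * t)) / Gamma (1 + t * I) := by
    rw [X0, h3, Gamma_refl ht, h2]
    field_simp
  have h8 : cexp (-(k * (1 + t * I)) * L0 k) =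
      cexp (-(k * (1 + t * I)) * Real.log (2 * Real.pi)) * cexp (-(k * (1 + t * I)) * Real.log k) *
      (cexp (-(k * (Real.pi / 2 * I))) * cexp (Real.pi * t / 2) ^ k) := by
    rw [← Complex.exp_nat_mul, ← Complex.exp_add, ← Complex.exp_add, ← Complex.exp_add, h5]
    congr 1
    linear_combination (-(k : ℂ) * t * Real.pi / 2) * I_sq
  have h9 : cexp (-(2 - t * I) * Real.log (2 * Real.pi)) ^ k *
      cexp (-(k * (1 + t * I)) * Real.log (2 * Real.pi)) =
      cexp (-(3 * k) * Real.log (2 * Real.pi)) := by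
    rw [← Complex.exp_nat_mul, ← Complex.exp_add]
    congr 1
    ring
  have hs : (-1 + t * I : ℂ) ≠ 0 := by
    intro h; have := congrArg re h; simp at this
  rw [EE, h1, h7, h8, h4, ← h6, ← h9]
  have hc : cexp (-(k * (1 + t * I)) * Real.log k) ≠ 0 := Complex.exp_ne_zero _
  rw [div_pow, mul_pow, mul_pow, mul_pow, mul_pow, div_pow, div_pow, mul_pow (cosh _)]
  field_simp

lemma bigO_mul_sub {f g : ℝ → ℂ} {a b : ℂ} (hf : (fun t => f t - a) =O[atTop] fun t : ℝ => t⁻¹)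
    (hg : (fun t => g t - b) =O[atTop] fun t : ℝ => t⁻¹) :
    (fun t => f t * g t - a * b) =O[atTop] fun t : ℝ => t⁻¹ := by
  have h1 : (fun t : ℝ => t⁻¹) =O[atTop] fun _ : ℝ => (1 : ℝ) :=
    tendsto_inv_atTop_zero.isBigO_one ℝ
  have h2 : (fun t => f t * g t - a * b) =
      fun t => (f t - a) * (g t - b) + a * (g t - b) + b * (f t - a) := by
    funext t; ring
  rw [h2]
  refine ((IsBigO.trans (hf.mul hg) ?_).add (hg.const_mul_left a)).add (hf.const_mul_left b)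
  have := (isBigO_refl (fun t : ℝ => t⁻¹) atTop).mul h1
  simpa using this

/-- auxiliary function -/
noncomputable def hh (k : ℕ) (x : ℝ) : ℂ :=
  ((x : ℂ) + I) ^ (((k : ℂ) - 1) / 2) * ((x : ℂ) - I) ^ k / (-(x : ℂ) + I)

lemma hh_zero_ne (k : ℕ) : hh k 0 ≠ 0 := by
  unfold hh
  have h1 : ((0 : ℝ) : ℂ) + I ≠ 0 := by simp
  refine div_ne_zero (mul_ne_zero ?_ (pow_ne_zero _ ?_)) ?_
  · rw [cpow_def_of_ne_zero h1]; exact Complex.exp_ne_zero _
  · simp
  · simp

lemma hh_diff (k : ℕ) : DifferentiableAt ℝ (hh k) 0 := by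
  unfold hh
  have hc : DifferentiableAt ℝ (fun x : ℝ => (x : ℂ)) 0 := ofRealCLM.differentiableAt
  refine DifferentiableAt.div (DifferentiableAt.mul ?_ ?_) ?_ (by simp)
  · have h1 : DifferentiableAt ℂ (fun z : ℂ => (z + I) ^ (((k : ℂ) - 1) / 2)) ((0 : ℝ) : ℂ) := by
      refine (differentiableAt_id.add_const I).cpow (differentiableAt_const _) ?_
      right
      simp
    exact (h1.restrictScalars ℝ).comp (0 : ℝ) hc
  · exact (hc.sub_const I).pow k
  · exact hc.neg.add_const I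

lemma hh_bigO (k : ℕ) : (fun t : ℝ => hh k t⁻¹ - hh k 0) =O[atTop] fun t : ℝ => t⁻¹ := by
  have h1 := (hh_diff k).hasDerivAt.isBigO_sub
  have h2 := h1.comp_tendsto tendsto_inv_atTop_zero
  simpa [Function.comp_def] using h2

lemma expfac_bigO (k : ℕ) : (fun t : ℝ => ((1 - Real.exp (-(Real.pi * t)) : ℝ) : ℂ)⁻¹ ^ k - 1)
    =O[atTop] fun t : ℝ => t⁻¹ := by
  have hd : DifferentiableAt ℝ (fun x : ℝ => ((1 - x : ℝ) : ℂ)⁻¹ ^ k) 0 := by
    refine DifferentiableAt.pow (DifferentiableAt.inv ?_ (by simp)) k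
    exact ofRealCLM.differentiableAt.comp (0 : ℝ) ((differentiableAt_const 1).sub differentiableAt_id)
  have h1 := hd.hasDerivAt.isBigO_sub
  have h3 : Tendsto (fun t : ℝ => Real.exp (-(Real.pi * t))) atTop (𝓝 0) := by
    refine Real.tendsto_exp_atBot.comp ?_
    exact tendsto_neg_atTop_atBot.comp (tendsto_id.const_mul_atTop Real.pi_pos)
  have h2 := h1.comp_tendsto h3
  have h4 : (fun t : ℝ => Real.exp (-(Real.pi * t))) =O[atTop] fun t : ℝ => t⁻¹ := by
    refine IsBigO.of_bound 1 ?_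
    filter_upwards [eventually_gt_atTop 0] with t ht
    rw [Real.norm_eq_abs, abs_of_pos (Real.exp_pos _), Real.norm_eq_abs, abs_of_pos (inv_pos.2 ht),
      one_mul, Real.exp_neg]
    apply inv_anti₀ ht
    have h5 := Real.add_one_le_exp (Real.pi * t)
    have h6 := Real.pi_gt_three
    nlinarith
  have h7 : (fun t : ℝ => ((1 - Real.exp (-(Real.pi * t)) : ℝ) : ℂ)⁻¹ ^ k - 1) =O[atTop]
      fun t : ℝ => Real.exp (-(Real.pi * t)) := by
    simpa [Function.comp_def] using h2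
  exact h7.trans h4

/-- the exponent `(5k-3)/2` -/
noncomputable def bt (k : ℕ) : ℝ := (5 * k - 3) / 2

lemma EE_eq_rpow {k : ℕ} (hk : 1 ≤ k) {t : ℝ} (ht : 0 < t) :
    EE k t = (k * cexp (-(3 * k) * Real.log (2 * Real.pi)) * cexp (-(k * (Real.pi / 2 * I))) *
        (-(2 * Real.pi)) ^ k) * GR k (1 + t * I) * hh k t⁻¹ *
        ((1 - Real.exp (-(Real.pi * t)) : ℝ) : ℂ)⁻¹ ^ k * ((t ^ bt k : ℝ) : ℂ) := by
  have ht0 : (t : ℂ) ≠ 0 := by exact_mod_cast ht.ne'
  have h1 : (1 + t * I : ℂ) = t * ((t⁻¹ : ℝ) + I) := by push_cast; field_simp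
  have h1' : ((t⁻¹ : ℝ) : ℂ) + I ≠ 0 := by
    intro h; have := congrArg im h; simp at this
  have h2 : (1 + t * I : ℂ) ^ (((k : ℂ) - 1) / 2) =
      ((t ^ (((k : ℝ) - 1) / 2) : ℝ) : ℂ) * ((t⁻¹ : ℝ) + I) ^ (((k : ℂ) - 1) / 2) := by
    have h3 : (1 + t * I : ℂ) ≠ 0 := by
      rw [h1]; exact mul_ne_zero ht0 h1'
    rw [cpow_def_of_ne_zero h3, cpow_def_of_ne_zero h1', ofReal_cpow ht.le,
      cpow_def_of_ne_zero ht0, ← Complex.exp_add]
    congr 1
    rw [h1, log_ofReal_mul ht h1', ofReal_log ht.le]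
    push_cast
    ring
  have h4 : (1 - t * I : ℂ) = t * ((t⁻¹ : ℝ) - I) := by push_cast; field_simp
  have h5 : (-1 + t * I : ℂ) = t * (-(t⁻¹ : ℝ) + I) := by push_cast; field_simp
  have h5' : (-((t⁻¹ : ℝ) : ℂ) + I) ≠ 0 := by
    intro h; have := congrArg im h; simp at this
  have h6 : ((t ^ bt k : ℝ) : ℂ) = ((t ^ (((k : ℝ) - 1) / 2) : ℝ) : ℂ) * t ^ k * t ^ k / t := by
    have : t ^ bt k = t ^ (((k : ℝ) - 1) / 2) * t ^ k * t ^ k / t := by
      rw [← Real.rpow_natCast t k, ← Real.rpow_add ht, ← Real.rpow_add ht]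
      nth_rewrite 3 [← Real.rpow_one t]
      rw [← Real.rpow_sub ht, bt]
      congr 1
      ring
    rw [this]; push_cast; rfl
  rw [EE_eq hk ht, h2, h4, h5, h6, hh, mul_pow]
  field_simp

/-- the leading constant `√k (2π)^{-(5k-1)/2} e^{iπ(k-3)/4}` -/
noncomputable def Cz (k : ℕ) : ℂ :=
  ((√k * (2 * Real.pi) ^ (-(bt k + 1)) : ℝ) : ℂ) * cexp (Real.pi * ((k : ℂ) - 3) / 4 * I)

lemma Cz_ne {k : ℕ} (hk : 1 ≤ k) : Cz k ≠ 0 := by
  have hkp : (0 : ℝ) < k := by exact_mod_cast hk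
  have : 0 < √(k : ℝ) := Real.sqrt_pos.2 hkp
  refine mul_ne_zero ?_ (Complex.exp_ne_zero _)
  rw [ofReal_ne_zero]
  positivity

lemma Cz_eq {k : ℕ} (hk : 1 ≤ k) :
    (k * cexp (-(3 * k) * Real.log (2 * Real.pi)) * cexp (-(k * (Real.pi / 2 * I))) *
        (-(2 * Real.pi)) ^ k) * Gc k * hh k 0 * 1 = Cz k := by
  have hkp : (0 : ℝ) < k := by exact_mod_cast hk
  have hsk : 0 < √(k : ℝ) := Real.sqrt_pos.2 hkp
  have h2pi : (0 : ℝ) < 2 * Real.pi := by positivity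
  have hI : (I : ℂ) = cexp (Real.pi / 2 * I) := by rw [Complex.exp_pi_div_two_mul_I]
  have e1 : ((((0 : ℝ) : ℂ)) + I) ^ (((k : ℂ) - 1) / 2) =
      cexp (Real.pi / 2 * I * (((k : ℂ) - 1) / 2)) := by
    rw [ofReal_zero, zero_add, cpow_def_of_ne_zero I_ne_zero, log_I]
  have e2 : (((0 : ℝ) : ℂ) - I) ^ k = cexp (-(Real.pi / 2 * I)) ^ k := by
    rw [Complex.exp_neg, ← hI, inv_I, ofReal_zero, zero_sub]
  have e3 : (-((0 : ℝ) : ℂ) + I) = cexp (Real.pi / 2 * I) := by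
    rw [← hI]; simp
  have e4 : (-(2 * Real.pi) : ℂ) ^ k = ((2 * Real.pi : ℝ) : ℂ) ^ k * cexp (Real.pi * I) ^ k := by
    rw [← mul_pow, Complex.exp_pi_mul_I]; congr 1; push_cast; ring
  have e5 : cexp (-(3 * k) * Real.log (2 * Real.pi)) = (((2 * Real.pi) ^ (-(3 * k) : ℝ) : ℝ) : ℂ) := by
    rw [Real.rpow_def_of_pos h2pi]; push_cast; congr 1; ring
  have e6 : (((2 * Real.pi) ^ (-(3 * k) : ℝ) : ℝ)) * ((2 * Real.pi) ^ k) * k * Gc k =
      √k * (2 * Real.pi) ^ (-(bt k + 1)) := by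
    have h1 : √(2 * Real.pi) / √(2 * Real.pi) ^ k = (2 * Real.pi) ^ ((1 - k) / 2 : ℝ) := by
      rw [Real.sqrt_eq_rpow, ← Real.rpow_natCast, ← Real.rpow_mul h2pi.le, ← Real.rpow_sub h2pi]
      congr 1; ring
    have h2 : Gc k = (2 * Real.pi) ^ ((1 - k) / 2 : ℝ) / √k := by
      rw [← h1, Gc]; field_simp
    have h3 : (2 * Real.pi) ^ (-(bt k + 1)) = (2 * Real.pi) ^ (-(3 * k) : ℝ) * (2 * Real.pi) ^ k *
        (2 * Real.pi) ^ ((1 - k) / 2 : ℝ) := by
      rw [← Real.rpow_natCast, ← Real.rpow_add h2pi, ← Real.rpow_add h2pi]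
      congr 1; rw [bt]; ring
    rw [h2, h3]
    have hkk : (k : ℝ) = √k * √k := (Real.mul_self_sqrt hkp.le).symm
    field_simp
    nlinarith [Real.mul_self_sqrt hkp.le]
  have e7 : cexp (-(k * (Real.pi / 2 * I))) * cexp (Real.pi * I) ^ k *
      (cexp (Real.pi / 2 * I * (((k : ℂ) - 1) / 2)) * cexp (-(Real.pi / 2 * I)) ^ k /
        cexp (Real.pi / 2 * I)) = cexp (Real.pi * ((k : ℂ) - 3) / 4 * I) := by
    rw [← Complex.exp_nat_mul, ← Complex.exp_nat_mul, ← Complex.exp_add, ← Complex.exp_add,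
      ← Complex.exp_sub, ← Complex.exp_add]
    congr 1
    ring
  rw [hh, e1, e2, e3, e4, e5, Cz, ← e7, ← e6]
  push_cast
  ring

theorem EE_asymp {k : ℕ} (hk : 1 ≤ k) :
    (fun t : ℝ => EE k t - Cz k * ((t ^ bt k : ℝ) : ℂ)) =O[atTop] fun t : ℝ => t ^ (bt k - 1) := by
  obtain ⟨C, hC0, hC⟩ := GR_asymp hk
  rw [← Cz_eq hk]
  set G : ℂ := (Gc k : ℂ)
  set K : ℂ := k * cexp (-(3 * k) * Real.log (2 * Real.pi)) * cexp (-(k * (Real.pi / 2 * I))) *
        (-(2 * Real.pi)) ^ k with hK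
  have hGR : (fun t : ℝ => GR k (1 + t * I) - G) =O[atTop] fun t : ℝ => t⁻¹ := by
    refine IsBigO.of_bound C ?_
    filter_upwards [eventually_ge_atTop 2] with t ht
    have h1 := hC t (by rw [abs_of_nonneg (by linarith)]; exact ht)
    rwa [norm_inv, Real.norm_eq_abs, ← div_eq_mul_inv]
  have hKc : (fun _ : ℝ => K - K) =O[atTop] fun t : ℝ => t⁻¹ := by
    simp only [sub_self]; exact isBigO_zero _ _
  have h1 := bigO_mul_sub (bigO_mul_sub (bigO_mul_sub hKc hGR) (hh_bigO k)) (expfac_bigO k)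
  have h2 : (fun t : ℝ => ((t ^ bt k : ℝ) : ℂ)) =O[atTop] fun t : ℝ => t ^ bt k := by
    refine IsBigO.of_bound 1 (Eventually.of_forall fun t => ?_)
    rw [norm_real, one_mul]
  have h3 := h1.mul h2
  refine (h3.congr' ?_ ?_)
  · filter_upwards [eventually_gt_atTop 0] with t ht
    rw [EE_eq_rpow hk ht, ← hK]
    ring
  · filter_upwards [eventually_gt_atTop 0] with t ht
    rw [Real.rpow_sub ht, Real.rpow_one]
    field_simp

end Pool.Agent.Lib.MP_bc6037_nt
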