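import Pool.Agent.Lib.MP_bc6037_nt.Perron

set_option autoImplicit false

/-!
Existence and uniqueness of the main-term polynomial.
-/

open MeasureTheory Complex Filter Set
open scoped Topology Nat

namespace Pool.Agent.Lib.MP_bc6037_nt.Exponents

open ZetaGrowth DeltaMellin MainPoly Perron

/-- A first pointwise bound. -/
theorem exists_main_bound (k : ℕ) : ∃ P : Polynomial ℝ, ∃ Z : ℂ → ℂ,
    DifferentiableOn ℂ Z {s : ℂ | 0 < s.re} ∧
    (∀ s : ℂ, 0 < s.re → s ≠ 1 → Z s = riemannZeta s ^ k / s - Q P s) ∧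
    ∃ a : ℝ, a < 1 ∧ ∃ C : ℝ, ∀ x : ℝ, 1 ≤ x → |Err k P x| ≤ C * x ^ a := by
  obtain ⟨P, Z, hZ, hZe⟩ := exists_main k
  refine ⟨P, Z, hZ, hZe, ?_⟩
  obtain ⟨C, hC0, hC⟩ := norm_zeta_le (σ₀ := 1 / 2) (by norm_num)
  have hz : ∃ C : ℝ, ∀ t : ℝ, 1 ≤ |t| →
      ‖riemannZeta (((1 / 2 : ℝ) : ℂ) + t * I)‖ ^ k ≤ C * |t| ^ (k : ℝ) := by
    refine ⟨C ^ k, fun t ht => ?_⟩
    have hre : ((((1 / 2 : ℝ) : ℂ)) + t * I).re = 1 / 2 := by simp
    have him : ((((1 / 2 : ℝ) : ℂ)) + t * I).im = t := by simp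
    have := hC (((1 / 2 : ℝ) : ℂ) + t * I) (by rw [hre]) (by rw [hre]; norm_num)
      (by rw [him]; exact ht)
    rw [him] at this
    calc _ ≤ (C * |t|) ^ k := pow_le_pow_left₀ (norm_nonneg _) this k
      _ = _ := by rw [mul_pow, Real.rpow_natCast]
  have hk : (0 : ℝ) ≤ k := Nat.cast_nonneg k
  have hpos : (0 : ℝ) < (1 - 1 / 2) / (1 + (k : ℝ)) := by positivity
  obtain ⟨C', hC'⟩ := perron_bound hZ hZe (σ₀ := 1 / 2) (m := k) (by norm_num) (by norm_num)
    (Nat.cast_nonneg k) hz (ε := (1 - 1 / 2) / (1 + (k : ℝ)) / 2) (by positivity)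
  exact ⟨_, by linarith, C', hC'⟩

lemma isMainPoly_of_bound {k : ℕ} {P : Polynomial ℝ} {a C : ℝ} (ha : a < 1)
    (h : ∀ x : ℝ, 1 ≤ x → |Err k P x| ≤ C * x ^ a) : IsMainPoly k P := by
  unfold IsMainPoly
  have h1 : Tendsto (fun x : ℝ => C * x ^ (-(1 - a))) atTop (𝓝 0) := by
    have := (tendsto_rpow_neg_atTop (by linarith : 0 < 1 - a)).const_mul C
    simpa using this
  apply squeeze_zero_norm' _ h1
  filter_upwards [eventually_ge_atTop 1] with x hx
  have hx0 : 0 < x := by linarith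
  rw [Real.norm_eq_abs, abs_div, abs_of_pos hx0, div_le_iff₀ hx0]
  refine (h x hx).trans (le_of_eq ?_)
  rw [mul_assoc]
  congr 1
  rw [← Real.rpow_add_one hx0.ne']
  congr 1
  ring

theorem exists_isMainPoly (k : ℕ) : ∃ P : Polynomial ℝ, IsMainPoly k P := by
  obtain ⟨P, _, _, _, a, ha, C, hC⟩ := exists_main_bound k
  exact ⟨P, isMainPoly_of_bound ha hC⟩

theorem isMainPoly_unique {k : ℕ} {P P' : Polynomial ℝ} (h : IsMainPoly k P)
    (h' : IsMainPoly k P') : P = P' := by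
  have h1 : Tendsto (fun x : ℝ => (P' - P).eval (Real.log x)) atTop (𝓝 0) := by
    have := h.sub h'
    rw [sub_zero] at this
    apply this.congr'
    filter_upwards [eventually_gt_atTop 0] with x hx
    rw [Err, Err, Polynomial.eval_sub]
    field_simp
    ring
  have h2 : Tendsto (fun y : ℝ => (P' - P).eval y) atTop (𝓝 0) := by
    have := h1.comp Real.tendsto_exp_atTop
    refine this.congr (fun y => ?_)
    simp
  have h3 := (Polynomial.tendsto_nhds_iff (P := P' - P) (c := 0)).1 h2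
  have h4 : P' - P = 0 := Polynomial.leadingCoeff_eq_zero.1 h3.1
  exact (sub_eq_zero.mp h4).symm

theorem mainPoly_spec (k : ℕ) : IsMainPoly k (mainPoly k) := by
  unfold mainPoly
  rw [dif_pos (exists_isMainPoly k)]
  exact (exists_isMainPoly k).choose_spec

/-- The continued transform for the main polynomial, and a first bound `a < 1`. -/
theorem mainPoly_data (k : ℕ) : ∃ Z : ℂ → ℂ,
    DifferentiableOn ℂ Z {s : ℂ | 0 < s.re} ∧
    (∀ s : ℂ, 0 < s.re → s ≠ 1 → Z s = riemannZeta s ^ k / s - Q (mainPoly k) s) ∧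
    ∃ a : ℝ, a < 1 ∧ ∃ C : ℝ, ∀ x : ℝ, 1 ≤ x → |Delta k x| ≤ C * x ^ a := by
  obtain ⟨P, Z, hZ, hZe, a, ha, C, hC⟩ := exists_main_bound k
  have hP : P = mainPoly k := isMainPoly_unique (isMainPoly_of_bound ha hC) (mainPoly_spec k)
  subst hP
  exact ⟨Z, hZ, hZe, a, ha, C, hC⟩

end Pool.Agent.Lib.MP_bc6037_nt.Exponents
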