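import Mathlib

set_option autoImplicit false

/-!
Holomorphy of parameter integrals under local domination, and a bilinear Parseval formula.
-/

open MeasureTheory Complex Filter Set Metric
open scoped Topology FourierTransform Convolution

namespace Pool.Agent.Lib.MP_bc6037_nt.HoloInt

/-- Holomorphy of a parameter integral. -/
theorem differentiableAt_integral {α : Type*} {m : MeasurableSpace α} {μ : Measure α}
    {F : ℂ → α → ℂ} {s₀ : ℂ} {r : ℝ} (hr : 0 < r)
    (hd : ∀ a, DifferentiableOn ℂ (fun s => F s a) (ball s₀ r))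
    (hm : ∀ s ∈ ball s₀ r, AEStronglyMeasurable (F s) μ)
    {b : α → ℝ} (hb : Integrable b μ) (hbd : ∀ s ∈ ball s₀ r, ∀ a, ‖F s a‖ ≤ b a) :
    DifferentiableAt ℂ (fun s => ∫ a, F s a ∂μ) s₀ := by
  set F' : ℂ → α → ℂ := fun s a => deriv (fun s => F s a) s with hF'
  have hs₀ : s₀ ∈ ball s₀ r := mem_ball_self hr
  have hdiff : ∀ a, ∀ s ∈ ball s₀ r, HasDerivAt (fun s => F s a) (F' s a) s := by
    intro a s hs
    exact ((hd a).differentiableAt (isOpen_ball.mem_nhds hs)).hasDerivAt
  have hF'm : AEStronglyMeasurable (F' s₀) μ := by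
    have hlim : ∀ a, Tendsto (fun n : ℕ => ((r / (n + 2) : ℝ) : ℂ)⁻¹ •
        (F (s₀ + ((r / (n + 2) : ℝ) : ℂ)) a - F s₀ a)) atTop (𝓝 (F' s₀ a)) := by
      intro a
      have h1 := (hasDerivAt_iff_tendsto_slope_zero.1 (hdiff a s₀ hs₀))
      have h2 : Tendsto (fun n : ℕ => ((r / (n + 2) : ℝ) : ℂ)) atTop (𝓝[≠] 0) := by
        rw [tendsto_nhdsWithin_iff]
        constructor
        · have h3 : Tendsto (fun n : ℕ => r / ((n : ℝ) + 2)) atTop (𝓝 0) := by
            apply tendsto_const_nhds.div_atTop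
            exact tendsto_atTop_add_const_right _ _ tendsto_natCast_atTop_atTop
          have h4 := (Complex.continuous_ofReal.tendsto 0).comp h3
          rw [Complex.ofReal_zero] at h4
          exact h4
        · refine Eventually.of_forall fun n => ?_
          have : r / ((n : ℝ) + 2) ≠ 0 := by positivity
          rw [mem_compl_iff, mem_singleton_iff, Complex.ofReal_eq_zero]
          exact this
      exact h1.comp h2
    refine aestronglyMeasurable_of_tendsto_ae atTop (fun n : ℕ => ?_) (ae_of_all _ hlim)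
    have hms : s₀ + ((r / (n + 2) : ℝ) : ℂ) ∈ ball s₀ r := ?_
    · exact ((hm _ hms).sub (hm s₀ hs₀)).const_smul (((r / (n + 2) : ℝ) : ℂ)⁻¹)
    rw [mem_ball, dist_eq_norm, add_sub_cancel_left, Complex.norm_real, Real.norm_eq_abs,
      abs_of_pos (by positivity)]
    rw [div_lt_iff₀ (by positivity)]
    have : (0 : ℝ) ≤ n := Nat.cast_nonneg n
    nlinarith
  have hr2 : 0 < r / 2 := by positivity
  have hnhds : ball s₀ (r / 2) ∈ 𝓝 s₀ := ball_mem_nhds _ hr2
  have hbound : ∀ a, ∀ s ∈ ball s₀ (r / 2), ‖F' s a‖ ≤ b a / (r / 2) := by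
    intro a s hs
    have hsub : closedBall s (r / 2) ⊆ ball s₀ r := by
      intro w hw
      rw [mem_closedBall] at hw
      rw [mem_ball] at hs ⊢
      linarith [dist_triangle w s s₀]
    apply Complex.norm_deriv_le_of_forall_mem_sphere_norm_le hr2
    · apply DifferentiableOn.diffContOnCl
      rw [closure_ball _ hr2.ne']
      exact (hd a).mono hsub
    · intro z hz
      exact hbd z (hsub (sphere_subset_closedBall hz)) a
  have hint : Integrable (F s₀) μ := hb.mono' (hm s₀ hs₀) (ae_of_all _ fun a => hbd s₀ hs₀ a)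
  have hmeas : ∀ᶠ s in 𝓝 s₀, AEStronglyMeasurable (F s) μ := by
    filter_upwards [ball_mem_nhds s₀ hr] with s hs using hm s hs
  have hsub2 : ball s₀ (r / 2) ⊆ ball s₀ r := ball_subset_ball (by linarith)
  exact (hasDerivAt_integral_of_dominated_loc_of_deriv_le hnhds hmeas hint hF'm
    (ae_of_all _ fun a s hs => hbound a s hs) (hb.div_const _)
    (ae_of_all _ fun a s hs => hdiff a s (hsub2 hs))).2.differentiableAt

/-- Bilinear Parseval formula for a bounded, integrable, a.e. continuous function. -/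
theorem parseval {f : ℝ → ℂ} (hf : Integrable f) {B : ℝ} (hB : ∀ y, ‖f y‖ ≤ B)
    (hc : ∀ᵐ y : ℝ, ContinuousAt f y)
    (hint : Integrable (fun ξ : ℝ => 𝓕 f ξ * 𝓕 f (-ξ))) :
    ∫ y, f y * f y = ∫ ξ : ℝ, 𝓕 f ξ * 𝓕 f (-ξ) := by
  set g : ℝ → ℂ := fun y => f (-y) with hg
  have hgi : Integrable g := hf.comp_neg
  have hFg : ∀ ξ : ℝ, 𝓕 g ξ = 𝓕 f (-ξ) := by
    intro ξ
    rw [Real.fourier_real_eq, Real.fourier_real_eq]
    rw [← integral_neg_eq_self]
    congr 1
    ext y
    simp only [hg, neg_neg]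
    congr 3
    ring
  set c : ℝ → ℂ := f ⋆[ContinuousLinearMap.mul ℂ ℂ] g with hcdef
  have hci : Integrable c := hf.integrable_convolution (ContinuousLinearMap.mul ℂ ℂ) hgi
  have hFc : ∀ ξ : ℝ, 𝓕 c ξ = 𝓕 f ξ * 𝓕 f (-ξ) := by
    intro ξ
    rw [hcdef, Real.fourier_mul_convolution_eq hf hgi, hFg]
  have hFc' : 𝓕 c = fun ξ => 𝓕 f ξ * 𝓕 f (-ξ) := funext hFc
  have hce : ∀ u, c u = ∫ t, f t * f (t - u) := by
    intro u
    rw [hcdef, convolution_def]
    congr 1
    ext t
    simp only [ContinuousLinearMap.mul_apply', hg]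
    congr 2
    ring
  have hcont : ContinuousAt c 0 := by
    have h1 : c = fun u => ∫ t, f t * f (t - u) := funext hce
    rw [h1]
    apply continuousAt_of_dominated (bound := fun t => ‖f t‖ * B)
    · refine Eventually.of_forall fun u => ?_
      exact hf.aestronglyMeasurable.mul (hf.comp_sub_right u).aestronglyMeasurable
    · refine Eventually.of_forall fun u => ae_of_all _ fun t => ?_
      rw [norm_mul]
      exact mul_le_mul_of_nonneg_left (hB _) (norm_nonneg _)
    · exact hf.norm.mul_const B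
    · filter_upwards [hc] with t ht
      apply ContinuousAt.mul continuousAt_const
      have h2 : ContinuousAt f (t - 0) := by rwa [sub_zero]
      exact ContinuousAt.comp (x := (0 : ℝ)) h2 (continuousAt_const.sub continuousAt_id)
  have h3 := hci.fourierInv_fourier_eq (by rw [hFc']; exact hint) hcont
  rw [hce 0] at h3
  simp only [sub_zero] at h3
  rw [← h3, hFc', Real.fourierInv_eq]
  congr 1
  ext ξ
  simp

end Pool.Agent.Lib.MP_bc6037_nt.HoloInt
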