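import Mathlib
import Pool.Agent.Lib.MP_bc6037_nt.HoloInt
import Pool.Agent.Lib.MP_bc6037_nt.GammaVert

set_option autoImplicit false

/-!
Laplace transform of powers with complex parameter; Mellin inversion for `exp (-z x^{1/k})`.
-/

open Complex Filter Topology Set MeasureTheory

namespace Pool.Agent.Lib.MP_bc6037_nt

lemma integrableOn_rpow_exp {a r : ℝ} (ha : 0 < a) (hr : 0 < r) :
    IntegrableOn (fun t : ℝ => t ^ (a - 1) * Real.exp (-(r * t))) (Ioi 0) := by
  have h := integrableOn_rpow_mul_exp_neg_mul_rpow (p := 1) (s := a - 1) (b := r)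
    (by linarith) one_pos hr
  refine h.congr_fun (fun t ht => ?_) measurableSet_Ioi
  simp [Real.rpow_one]

lemma integrableOn_cpow_exp {a r : ℂ} (ha : 0 < a.re) (hr : 0 < r.re) :
    IntegrableOn (fun t : ℝ => (t : ℂ) ^ (a - 1) * cexp (-(r * t))) (Ioi 0) := by
  have h := integrableOn_rpow_exp ha hr
  refine h.mono' ?_ ?_
  · refine ContinuousOn.aestronglyMeasurable ?_ measurableSet_Ioi
    intro t ht
    have ht' : 0 < t := ht
    refine ContinuousAt.continuousWithinAt ?_
    refine ContinuousAt.mul ?_ (by fun_prop)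
    exact (continuousAt_cpow_const (Or.inl (by simpa using ht'))).comp
      continuous_ofReal.continuousAt
  · filter_upwards [ae_restrict_mem measurableSet_Ioi] with t ht
    have ht' : 0 < t := ht
    rw [norm_mul, norm_cpow_eq_rpow_re_of_pos ht', Complex.norm_exp]
    simp

lemma laplace_cpow {a r : ℂ} (ha : 0 < a.re) (hr : 0 < r.re) :
    ∫ t in Ioi (0 : ℝ), (t : ℂ) ^ (a - 1) * cexp (-(r * t)) = cexp (-a * log r) * Gamma a := by
  set F : ℂ → ℝ → ℂ := fun r t => (Ioi (0 : ℝ)).indicator
    (fun t : ℝ => (t : ℂ) ^ (a - 1) * cexp (-(r * t))) t with hF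
  have hopen : IsOpen {z : ℂ | 0 < z.re} := isOpen_lt continuous_const continuous_re
  have hpre : IsPreconnected {z : ℂ | 0 < z.re} := (convex_halfSpace_re_gt 0).isPreconnected
  have hd : DifferentiableOn ℂ (fun r => ∫ t, F r t) {z : ℂ | 0 < z.re} := by
    intro r0 hr0
    have hr0' : 0 < r0.re := hr0
    refine DifferentiableAt.differentiableWithinAt ?_
    have hball : ∀ s ∈ Metric.ball r0 (r0.re / 2), r0.re / 2 ≤ s.re := by
      intro s hs
      rw [Metric.mem_ball, dist_eq_norm] at hs
      have := (abs_re_le_norm (s - r0)).trans hs.le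
      rw [sub_re, abs_le] at this
      linarith [this.1]
    refine HoloInt.differentiableAt_integral (r := r0.re / 2) (by linarith) (F := F)
      (b := (Ioi (0 : ℝ)).indicator fun t : ℝ => t ^ (a.re - 1) * Real.exp (-(r0.re / 2 * t)))
      ?_ ?_ ?_ ?_
    · intro t
      by_cases ht : t ∈ Ioi (0 : ℝ)
      · simp only [hF, indicator_of_mem ht]
        fun_prop
      · simp only [hF, indicator_of_notMem ht]
        exact differentiableOn_const _
    · intro s hs
      have h1 := integrableOn_cpow_exp (a := a) (r := s) ha (by linarith [hball s hs])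
      exact (h1.integrable_indicator measurableSet_Ioi).aestronglyMeasurable
    · exact (integrableOn_rpow_exp ha (by linarith)).integrable_indicator measurableSet_Ioi
    · intro s hs t
      by_cases ht : t ∈ Ioi (0 : ℝ)
      · simp only [hF, indicator_of_mem ht]
        have ht' : 0 < t := ht
        rw [norm_mul, norm_cpow_eq_rpow_re_of_pos ht', Complex.norm_exp]
        have h2 := hball s hs
        have h3 : (-(s * (t : ℂ))).re = -(s.re * t) := by simp
        rw [h3, sub_re, one_re]
        gcongr
      · simp only [hF, indicator_of_notMem ht]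
        simp
  have hg : DifferentiableOn ℂ (fun r => cexp (-a * log r) * Gamma a) {z : ℂ | 0 < z.re} := by
    intro r0 hr0
    have hr0' : 0 < r0.re := hr0
    refine DifferentiableAt.differentiableWithinAt ?_
    have : DifferentiableAt ℂ log r0 := (hasStrictDerivAt_log (Or.inl hr0')).hasDerivAt.differentiableAt
    fun_prop
  have key := (hd.analyticOnNhd hopen).eqOn_of_preconnected_of_frequently_eq
    (hg.analyticOnNhd hopen) hpre (z₀ := 1) (by simp) ?_
  · have h1 := key hr
    simp only at h1
    rw [← h1, ← integral_indicator measurableSet_Ioi]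
  · have h2 : ∀ x : ℝ, 0 < x → ∫ t, F x t = cexp (-a * log x) * Gamma a := by
      intro x hx
      simp only [hF]
      rw [integral_indicator measurableSet_Ioi, integral_cpow_mul_exp_neg_mul_Ioi ha hx]
      congr 1
      have hx0 : (1 / (x : ℂ)) ≠ 0 := by
        simpa using hx.ne'
      rw [cpow_def_of_ne_zero hx0, one_div, log_inv, ← ofReal_log hx.le]
      · congr 1; ring
      · rw [arg_ofReal_of_nonneg hx.le]; exact Real.pi_pos.ne
    -- frequently
    have h3 : ∃ᶠ x : ℝ in 𝓝[≠] (1 : ℝ), ∫ t, F x t = cexp (-a * log x) * Gamma a := by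
      refine Eventually.frequently ?_
      have : ∀ᶠ x : ℝ in 𝓝 (1 : ℝ), 0 < x := lt_mem_nhds one_pos
      exact (this.filter_mono nhdsWithin_le_nhds).mono fun x hx => h2 x hx
    have h4 : Tendsto (fun x : ℝ => (x : ℂ)) (𝓝[≠] (1 : ℝ)) (𝓝[≠] (1 : ℂ)) := by
      refine tendsto_nhdsWithin_of_tendsto_nhds_of_eventually_within _ ?_ ?_
      · have : Tendsto (fun x : ℝ => (x : ℂ)) (𝓝 (1 : ℝ)) (𝓝 ((1 : ℝ) : ℂ)) :=
          continuous_ofReal.tendsto 1
        simpa using this.mono_left nhdsWithin_le_nhds
      · filter_upwards [self_mem_nhdsWithin] with x hx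
        simpa using hx
    exact h4.frequently h3

end Pool.Agent.Lib.MP_bc6037_nt
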