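import Mathlib
import Pool.Agent.Lib.MP_bc6037_nt.LaplacePow
import Pool.Agent.Lib.MP_bc6037_nt.Exponents

set_option autoImplicit false

/-!
The Mellin-Barnes representation of `∫ g(x) x exp(-z x^{1/k}) dx`.
-/

open Complex Filter Topology Set MeasureTheory

namespace Pool.Agent.Lib.MP_bc6037_nt

/-- the Mellin-Barnes kernel -/
noncomputable def KZ (k : ℕ) (z s : ℂ) : ℂ :=
  k * Gamma (k * (s + 2)) * cexp (-(k * (s + 2)) * log z)

lemma exp_decay_le (m : ℕ) {c : ℝ} (hc : 0 < c) : ∃ C : ℝ, 0 ≤ C ∧ ∀ u : ℝ, 0 ≤ u →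
    (1 + u) ^ m * Real.exp (-(c * u)) ≤ C * (1 + u) ^ (-2 : ℝ) := by
  -- `(1+u)^(m+2) exp(-cu)` is bounded
  have h1 : ∀ n : ℕ, ∃ C : ℝ, 0 ≤ C ∧ ∀ u : ℝ, 0 ≤ u → (1 + u) ^ n * Real.exp (-(c * u)) ≤ C := by
    intro n
    refine ⟨(n.factorial : ℝ) * (1 / c) ^ n * Real.exp c, by positivity, fun u hu => ?_⟩
    have h2 := Real.pow_div_factorial_le_exp (c * (1 + u)) (by positivity) n
    have h3 : (0 : ℝ) < n.factorial := by exact_mod_cast n.factorial_pos
    rw [div_le_iff₀ h3, mul_pow] at h2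
    have h4 : Real.exp (c * (1 + u)) = Real.exp c * Real.exp (c * u) := by
      rw [← Real.exp_add]; ring_nf
    rw [h4] at h2
    have h5 : Real.exp (-(c * u)) * Real.exp (c * u) = 1 := by rw [← Real.exp_add]; simp
    have h6 : (1 / c) ^ n * c ^ n = 1 := by rw [← mul_pow]; field_simp; simp
    have h7 : 0 < (1 / c) ^ n := by positivity
    have h8 := Real.exp_pos (-(c * u))
    calc (1 + u) ^ n * Real.exp (-(c * u))
        = (c ^ n * (1 + u) ^ n) * ((1 / c) ^ n * Real.exp (-(c * u))) := by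
          linear_combination (-(1 + u) ^ n * Real.exp (-(c * u))) * h6
      _ ≤ (Real.exp c * Real.exp (c * u) * n.factorial) * ((1 / c) ^ n * Real.exp (-(c * u))) := by
          gcongr
      _ = _ := by linear_combination (Real.exp c * n.factorial * (1 / c) ^ n) * h5
  obtain ⟨C, hC0, hC⟩ := h1 (m + 2)
  refine ⟨C, hC0, fun u hu => ?_⟩
  have h9 : (0 : ℝ) < 1 + u := by linarith
  have h10 : (1 + u) ^ (-2 : ℝ) = ((1 + u) ^ 2)⁻¹ := by
    rw [Real.rpow_neg h9.le]; norm_cast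
  rw [h10, ← div_eq_mul_inv, le_div_iff₀ (by positivity)]
  have := hC u hu
  calc (1 + u) ^ m * Real.exp (-(c * u)) * (1 + u) ^ 2
      = (1 + u) ^ (m + 2) * Real.exp (-(c * u)) := by ring
    _ ≤ C := this

lemma abs_arg_lt {z : ℂ} (hz : 0 < z.re) : |arg z| < Real.pi / 2 :=
  abs_arg_lt_pi_div_two_iff.2 (Or.inl hz)

/-- bound of the kernel in the strip `-1 ≤ Re s ≤ 2` -/
lemma KZ_bound {k : ℕ} (hk : 1 ≤ k) {z : ℂ} (hz : 0 < z.re) : ∃ C : ℝ, 0 ≤ C ∧ ∀ s : ℂ,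
    -1 ≤ s.re → s.re ≤ 2 →
    ‖KZ k z s‖ ≤ C * (1 + |s.im|) ^ (4 * k) *
      Real.exp (-(k * (Real.pi / 2 - |arg z|) * |s.im|)) := by
  have hk1 : (1 : ℝ) ≤ k := by exact_mod_cast hk
  obtain ⟨C, hC0, hC⟩ := Gamma_strip (4 * k - 1) (σ₀ := 1) one_pos
  have h4k : 4 * k - 1 + 1 = 4 * k := by omega
  rw [h4k] at hC
  set B : ℝ := Real.exp (4 * k * |Real.log ‖z‖|) with hB
  refine ⟨k * (C * k ^ (4 * k)) * B, by positivity, fun s h1 h2 => ?_⟩
  have hre : ((k : ℂ) * (s + 2)).re = k * (s.re + 2) := by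
    rw [show (k : ℂ) = ((k : ℝ) : ℂ) by simp, re_ofReal_mul]; simp
  have him : ((k : ℂ) * (s + 2)).im = k * s.im := by
    rw [show (k : ℂ) = ((k : ℝ) : ℂ) by simp, im_ofReal_mul]; simp
  have hG := hC (k * (s + 2)) (by rw [hre]; nlinarith) (by rw [hre]; push_cast; nlinarith)
  rw [him, abs_mul, abs_of_nonneg (by positivity : (0 : ℝ) ≤ k)] at hG
  have hexp : ‖cexp (-(k * (s + 2)) * log z)‖ ≤ B * Real.exp (k * |arg z| * |s.im|) := by
    rw [Complex.norm_exp, hB, ← Real.exp_add]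
    apply Real.exp_le_exp.2
    have e1 : (-(k * (s + 2)) * log z).re = -(k * (s.re + 2)) * Real.log ‖z‖ + k * s.im * arg z := by
      rw [mul_re, neg_re, neg_im, hre, him, log_re, log_im]; ring
    rw [e1]
    have e2 : -(k * (s.re + 2)) * Real.log ‖z‖ ≤ 4 * k * |Real.log ‖z‖| := by
      have : |(k * (s.re + 2)) * Real.log ‖z‖| ≤ 4 * k * |Real.log ‖z‖| := by
        rw [abs_mul, abs_of_nonneg (by nlinarith : 0 ≤ k * (s.re + 2))]
        exact mul_le_mul_of_nonneg_right (by nlinarith) (abs_nonneg _)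
      have := (abs_le.1 this).1
      linarith
    have e3 : k * s.im * arg z ≤ k * |arg z| * |s.im| := by
      have : s.im * arg z ≤ |s.im| * |arg z| := by rw [← abs_mul]; exact le_abs_self _
      nlinarith
    linarith
  rw [KZ, norm_mul, norm_mul, Complex.norm_natCast]
  have hpow : (1 + k * |s.im|) ^ (4 * k) ≤ (k * (1 + |s.im|)) ^ (4 * k) := by
    have := abs_nonneg s.im
    gcongr
    nlinarith
  calc (k : ℝ) * ‖Gamma (k * (s + 2))‖ * ‖cexp (-(k * (s + 2)) * log z)‖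
      ≤ k * (C * (1 + k * |s.im|) ^ (4 * k) * Real.exp (-(Real.pi * (k * |s.im|)) / 2)) *
        (B * Real.exp (k * |arg z| * |s.im|)) := by gcongr
    _ ≤ k * (C * (k * (1 + |s.im|)) ^ (4 * k) * Real.exp (-(Real.pi * (k * |s.im|)) / 2)) *
        (B * Real.exp (k * |arg z| * |s.im|)) := by gcongr
    _ = k * (C * k ^ (4 * k)) * B * (1 + |s.im|) ^ (4 * k) *
        (Real.exp (-(Real.pi * (k * |s.im|)) / 2) * Real.exp (k * |arg z| * |s.im|)) := by
        rw [mul_pow]; ring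
    _ = _ := by
        rw [← Real.exp_add]
        congr 2
        ring

lemma KZ_differentiableOn {k : ℕ} (hk : 1 ≤ k) (z : ℂ) :
    DifferentiableOn ℂ (KZ k z) {s : ℂ | -2 < s.re} := by
  intro s hs
  have hs' : -2 < s.re := hs
  refine DifferentiableAt.differentiableWithinAt ?_
  unfold KZ
  have h1 : DifferentiableAt ℂ (fun s : ℂ => Gamma (k * (s + 2))) s := by
    refine (differentiableAt_Gamma _ ?_).comp s (by fun_prop)
    intro m h
    have := congrArg re h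
    rw [show (k : ℂ) = ((k : ℝ) : ℂ) by simp, re_ofReal_mul] at this
    simp at this
    have h2 : (1 : ℝ) ≤ k := by exact_mod_cast hk
    have h3 : (0 : ℝ) ≤ m := Nat.cast_nonneg m
    nlinarith
  fun_prop

lemma KZ_continuous_line {k : ℕ} (hk : 1 ≤ k) (z : ℂ) {σ : ℝ} (hσ : -2 < σ) :
    Continuous fun t : ℝ => KZ k z (σ + t * I) := by
  rw [continuous_iff_continuousAt]
  intro t
  have h1 : ContinuousAt (KZ k z) (σ + t * I) :=
    ((KZ_differentiableOn hk z).differentiableAt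
      ((isOpen_lt continuous_const continuous_re).mem_nhds (by simpa using hσ))).continuousAt
  exact h1.comp (f := fun t : ℝ => (σ + t * I : ℂ)) (by fun_prop)

lemma integrable_rpow_neg_two : Integrable (fun t : ℝ => (1 + |t|) ^ (-2 : ℝ)) := by
  have := integrable_one_add_norm (E := ℝ) (μ := volume) (r := 2) (by simp)
  simpa [Real.norm_eq_abs] using this

lemma KZ_integrable_line {k : ℕ} (hk : 1 ≤ k) {z : ℂ} (hz : 0 < z.re) {σ : ℝ} (h1 : -1 ≤ σ)
    (h2 : σ ≤ 2) : Integrable fun t : ℝ => KZ k z (σ + t * I) := by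
  obtain ⟨C, hC0, hC⟩ := KZ_bound hk hz
  have hc : 0 < k * (Real.pi / 2 - |arg z|) := by
    have := abs_arg_lt hz
    have : (1 : ℝ) ≤ k := by exact_mod_cast hk
    have : 0 < Real.pi / 2 - |arg z| := by linarith
    positivity
  obtain ⟨D, hD0, hD⟩ := exp_decay_le (4 * k) hc
  refine (integrable_rpow_neg_two.const_mul (C * D)).mono'
    (KZ_continuous_line hk z (by linarith)).aestronglyMeasurable (ae_of_all _ fun t => ?_)
  have h3 := hC (σ + t * I) (by simpa using h1) (by simpa using h2)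
  have h4 := hD |t| (abs_nonneg t)
  have him : (σ + t * I : ℂ).im = t := by simp
  rw [him] at h3
  calc ‖KZ k z (σ + t * I)‖ ≤ C * ((1 + |t|) ^ (4 * k) *
      Real.exp (-(k * (Real.pi / 2 - |arg z|) * |t|))) := by rw [← mul_assoc]; exact h3
    _ ≤ C * (D * (1 + |t|) ^ (-2 : ℝ)) := by gcongr
    _ = _ := by ring

/-- **Mellin inversion** for `x exp(-z x^{1/k})`. -/
lemma inversion {k : ℕ} (hk : 1 ≤ k) {z : ℂ} (hz : 0 < z.re) {x : ℝ} (hx : 0 < x) :
    (x : ℂ) * cexp (-(z * ((x ^ (1 / k : ℝ) : ℝ) : ℂ))) =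
      (1 / (2 * Real.pi)) * ∫ t : ℝ, KZ k z (2 + t * I) * (x : ℂ) ^ (-(2 + t * I : ℂ) - 1) := by
  have hk1 : (1 : ℝ) ≤ k := by exact_mod_cast hk
  have hkp : (0 : ℝ) < k := by linarith
  have hk0 : (k : ℂ) ≠ 0 := by exact_mod_cast hkp.ne'
  set v : ℝ := x ^ (1 / k : ℝ) with hv
  have hv0 : 0 < v := Real.rpow_pos_of_pos hx _
  set f : ℝ → ℂ := fun v => cexp (-(z * v)) with hf
  have hmel : ∀ w : ℂ, 0 < w.re → mellin f w = cexp (-w * log z) * Gamma w := by
    intro w hw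
    rw [mellin, ← laplace_cpow hw hz]
    rfl
  have hmc : MellinConvergent f ((4 * k : ℝ) : ℂ) := by
    have := integrableOn_cpow_exp (a := ((4 * k : ℝ) : ℂ)) (r := z) (by simp; positivity) hz
    exact this
  have hKint := KZ_integrable_line hk hz (σ := 2) (by norm_num) le_rfl
  have hrel : ∀ y : ℝ, mellin f (((4 * k : ℝ) : ℂ) + y * I) =
      (k : ℂ)⁻¹ * KZ k z (((2 : ℝ) : ℂ) + ((k : ℝ)⁻¹ * y : ℝ) * I) := by
    intro y
    rw [hmel _ (by simp; positivity), KZ]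
    have e1 : (k : ℂ) * (((2 : ℝ) : ℂ) + ((k : ℝ)⁻¹ * y : ℝ) * I + 2) =
        ((4 * k : ℝ) : ℂ) + y * I := by
      push_cast
      field_simp
      ring
    rw [e1]
    field_simp
  have hvert : VerticalIntegrable (mellin f) ((4 * k : ℝ)) := by
    unfold VerticalIntegrable
    have h1 : (fun y : ℝ => mellin f (((4 * k : ℝ) : ℂ) + y * I)) = fun y : ℝ =>
        (k : ℂ)⁻¹ * KZ k z (((2 : ℝ) : ℂ) + (((k : ℝ)⁻¹ * y : ℝ) : ℂ) * I) := by
      funext y; exact hrel y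
    rw [h1]
    apply Integrable.const_mul
    exact hKint.comp_mul_left' (inv_ne_zero hkp.ne')
  have hinv := mellinInv_mellin_eq (4 * k : ℝ) f hv0 hmc hvert (by fun_prop)
  have hsub : ∫ y : ℝ, (v : ℂ) ^ (-(((4 * k : ℝ) : ℂ) + y * I)) • mellin f (((4 * k : ℝ) : ℂ) + y * I) =
      ∫ t : ℝ, KZ k z (2 + t * I) * (x : ℂ) ^ (-(4 + t * I) : ℂ) := by
    have h2 := MeasureTheory.Measure.integral_comp_mul_left
      (fun t : ℝ => KZ k z (((2 : ℝ) : ℂ) + t * I) * (x : ℂ) ^ (-(4 + t * I) : ℂ)) ((k : ℝ)⁻¹)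
    rw [inv_inv, abs_of_pos hkp] at h2
    have h3 : ∫ t : ℝ, KZ k z (2 + t * I) * (x : ℂ) ^ (-(4 + t * I) : ℂ) =
        (k : ℂ)⁻¹ * ((k : ℝ) • ∫ t : ℝ, KZ k z (((2 : ℝ) : ℂ) + t * I) *
          (x : ℂ) ^ (-(4 + t * I) : ℂ)) := by
      rw [Complex.real_smul, ← mul_assoc]
      push_cast
      rw [inv_mul_cancel₀ hk0, one_mul]
    rw [h3, ← h2, ← integral_const_mul]
    congr 1
    funext y
    rw [hrel, smul_eq_mul]
    have h4 : (v : ℂ) ^ (-(((4 * k : ℝ) : ℂ) + y * I)) =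
        (x : ℂ) ^ (-(4 + (((k : ℝ)⁻¹ * y : ℝ) : ℂ) * I) : ℂ) := by
      have hx0 : (x : ℂ) ≠ 0 := by exact_mod_cast hx.ne'
      have hvc : (v : ℂ) ≠ 0 := by exact_mod_cast hv0.ne'
      rw [cpow_def_of_ne_zero hx0, cpow_def_of_ne_zero hvc, ← ofReal_log hx.le, ← ofReal_log hv0.le,
        hv, Real.log_rpow hx]
      congr 1
      push_cast
      field_simp
    rw [h4]
    ring
  rw [mellinInv, hsub] at hinv
  have hmul : (x : ℂ) * f v = (1 / (2 * Real.pi)) * ∫ t : ℝ, KZ k z (2 + t * I) *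
      (x : ℂ) ^ (-(2 + t * I : ℂ) - 1) := by
    rw [← hinv, Complex.real_smul]
    push_cast
    rw [mul_left_comm]
    congr 1
    rw [← integral_const_mul]
    congr 1
    funext t
    have hx0 : (x : ℂ) ≠ 0 := by exact_mod_cast hx.ne'
    rw [mul_left_comm]
    congr 1
    have : (-(2 + t * I : ℂ) - 1) = 1 + (-(4 + t * I)) := by ring
    rw [this, cpow_add _ _ hx0, cpow_one]
  exact hmul

end Pool.Agent.Lib.MP_bc6037_nt
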