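import Mathlib
import Pool.Agent.Lib.MP_bc6037_nt.MellinBarnes
import Pool.Agent.Lib.MP_bc6037_nt.Chirp

set_option autoImplicit false

/-!
The Mellin-Barnes representation of `∫ g(x) x exp(-z x^{1/k}) dx` and the shift to `Re s = -1`.
-/

open Complex Filter Topology Set MeasureTheory

namespace Pool.Agent.Lib.MP_bc6037_nt

open DeltaMellin ZetaGrowth

/-- the transform `∫_1^∞ g(x) x exp(-z x^{1/k}) dx` -/
noncomputable def Ig (k : ℕ) (g : ℝ → ℝ) (z : ℂ) : ℂ :=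
  ∫ x in Ioi (1 : ℝ), (g x : ℂ) * ((x : ℂ) * cexp (-(z * ((x ^ (1 / k : ℝ) : ℝ) : ℂ))))

lemma fubini {k : ℕ} (hk : 1 ≤ k) {z : ℂ} (hz : 0 < z.re) {g : ℝ → ℝ} (hgm : Measurable g)
    {C : ℝ} (hg : ∀ x : ℝ, 1 ≤ x → |g x| ≤ C * x ^ (3 / 2 : ℝ)) {Z : ℂ → ℂ}
    (hZ : ∀ t : ℝ, ∫ x in Ioi (1 : ℝ), (g x : ℂ) * (x : ℂ) ^ (-(2 + t * I : ℂ) - 1) =
      Z (2 + t * I)) :
    Ig k g z = (1 / (2 * Real.pi)) * ∫ t : ℝ, KZ k z (2 + t * I) * Z (2 + t * I) := by
  have hK := KZ_integrable_line hk hz (σ := 2) (by norm_num) le_rfl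
  have hG : Integrable (fun x : ℝ => g x * x ^ (-3 : ℝ)) (volume.restrict (Ioi 1)) := by
    have h1 : IntegrableOn (fun x : ℝ => C * x ^ (-(3 / 2) : ℝ)) (Ioi 1) :=
      (integrableOn_Ioi_rpow_of_lt (by norm_num) one_pos).const_mul C
    refine h1.mono' (hgm.mul (measurable_id.pow_const _)).aestronglyMeasurable ?_
    filter_upwards [ae_restrict_mem measurableSet_Ioi] with x hx
    have hx1 : (1 : ℝ) < x := hx
    have hx0 : 0 < x := by linarith
    rw [norm_mul, Real.norm_eq_abs, Real.norm_eq_abs, abs_of_pos (Real.rpow_pos_of_pos hx0 _)]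
    calc |g x| * x ^ (-3 : ℝ) ≤ C * x ^ (3 / 2 : ℝ) * x ^ (-3 : ℝ) := by
          have := hg x hx1.le
          gcongr
      _ = C * x ^ (-(3 / 2) : ℝ) := by
          rw [mul_assoc, ← Real.rpow_add hx0]; norm_num
  have hprod : Integrable (Function.uncurry fun (x t : ℝ) =>
      (g x : ℂ) * (KZ k z (2 + t * I) * (x : ℂ) ^ (-(2 + t * I : ℂ) - 1)))
      ((volume.restrict (Ioi 1)).prod volume) := by
    have h2 := (hG.norm).mul_prod hK.norm
    refine h2.mono' ?_ ?_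
    · refine Measurable.aestronglyMeasurable ?_
      have m1 : Measurable fun p : ℝ × ℝ => (g p.1 : ℂ) :=
        measurable_ofReal.comp (hgm.comp measurable_fst)
      have m2 : Measurable fun p : ℝ × ℝ => KZ k z (2 + p.2 * I) := by
        have h5 := (KZ_continuous_line hk z (σ := 2) (by norm_num)).measurable
        have h6 : Measurable fun p : ℝ × ℝ => p.2 := measurable_snd
        have h7 := h5.comp h6
        simpa [Function.comp_def] using h7
      have m3 : Measurable fun p : ℝ × ℝ => (p.1 : ℂ) ^ (-(2 + p.2 * I : ℂ) - 1) := by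
        refine Measurable.pow (measurable_ofReal.comp measurable_fst) ?_
        have : Measurable fun p : ℝ × ℝ => (p.2 : ℂ) := measurable_ofReal.comp measurable_snd
        fun_prop
      exact m1.mul (m2.mul m3)
    · have : ∀ᵐ p ∂((volume.restrict (Ioi (1 : ℝ))).prod (volume : Measure ℝ)), p.1 ∈ Ioi (1 : ℝ) := by
        have h3 : ∀ᵐ x ∂(volume.restrict (Ioi (1 : ℝ))), x ∈ Ioi (1 : ℝ) :=
          ae_restrict_mem measurableSet_Ioi
        exact Measure.quasiMeasurePreserving_fst.ae h3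
      filter_upwards [this] with p hp
      have hp1 : (1 : ℝ) < p.1 := hp
      have hp0 : 0 < p.1 := by linarith
      simp only [Function.uncurry]
      rw [norm_mul, norm_mul, norm_cpow_eq_rpow_re_of_pos hp0, norm_real]
      have : (-(2 + p.2 * I : ℂ) - 1).re = -3 := by simp; norm_num
      rw [this, norm_mul, Real.norm_eq_abs (p.1 ^ (-3 : ℝ)),
        abs_of_pos (Real.rpow_pos_of_pos hp0 _)]
      apply le_of_eq
      push_cast
      ring
  unfold Ig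
  have h4 : ∀ x ∈ Ioi (1 : ℝ), (g x : ℂ) * ((x : ℂ) * cexp (-(z * ((x ^ (1 / k : ℝ) : ℝ) : ℂ)))) =
      (1 / (2 * Real.pi)) * ∫ t : ℝ, (g x : ℂ) * (KZ k z (2 + t * I) *
        (x : ℂ) ^ (-(2 + t * I : ℂ) - 1)) := by
    intro x hx
    have hx1 : (1 : ℝ) < x := hx
    rw [inversion hk hz (by linarith : 0 < x), integral_const_mul]
    ring
  rw [setIntegral_congr_fun measurableSet_Ioi h4, integral_const_mul,
    integral_integral_swap hprod]
  congr 1
  congr 1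
  funext t
  rw [← hZ t, ← integral_const_mul]
  congr 1
  funext x
  ring

/-- the constant `ζ(0)^k` -/
noncomputable def w0 (k : ℕ) : ℝ := (-1 / 2) ^ k

open Classical in
/-- the entire function `ζ(s)^k / s - Q(s) - ζ(0)^k / s` -/
noncomputable def Zt (k : ℕ) (P : Polynomial ℝ) (Z : ℂ → ℂ) (s : ℂ) : ℂ :=
  if 0 < s.re then Z s - w0 k / s else dslope (fun s => riemannZeta s ^ k) 0 s - Q P s

lemma zeta_zero_pow (k : ℕ) : riemannZeta 0 ^ k = (w0 k : ℂ) := by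
  rw [riemannZeta_zero, w0]; push_cast; rfl

lemma Zt_eq_left {k : ℕ} {P : Polynomial ℝ} {Z : ℂ → ℂ}
    (hZ' : ∀ s : ℂ, 0 < s.re → s ≠ 1 → Z s = riemannZeta s ^ k / s - Q P s) {s : ℂ} (hs : s ≠ 1) :
    Zt k P Z s = dslope (fun s => riemannZeta s ^ k) 0 s - Q P s := by
  unfold Zt
  split_ifs with h
  · have hs0 : s ≠ 0 := by rintro rfl; simp at h
    rw [hZ' s h hs, dslope_of_ne _ hs0, slope_def_field, zeta_zero_pow]
    simp only [sub_zero]
    ring
  · rfl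

lemma Zt_eq {k : ℕ} {P : Polynomial ℝ} {Z : ℂ → ℂ}
    (hZ' : ∀ s : ℂ, 0 < s.re → s ≠ 1 → Z s = riemannZeta s ^ k / s - Q P s) {s : ℂ} (hs : s ≠ 1)
    (hs0 : s ≠ 0) : Zt k P Z s = riemannZeta s ^ k / s - Q P s - w0 k / s := by
  rw [Zt_eq_left hZ' hs, dslope_of_ne _ hs0, slope_def_field, zeta_zero_pow]
  simp only [sub_zero]
  ring

lemma Zt_differentiable {k : ℕ} {P : Polynomial ℝ} {Z : ℂ → ℂ}
    (hZ : DifferentiableOn ℂ Z {s : ℂ | 0 < s.re})
    (hZ' : ∀ s : ℂ, 0 < s.re → s ≠ 1 → Z s = riemannZeta s ^ k / s - Q P s) :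
    Differentiable ℂ (Zt k P Z) := by
  intro s
  by_cases hs : 0 < s.re
  · have hnhds : {s : ℂ | 0 < s.re} ∈ 𝓝 s :=
      (isOpen_lt continuous_const continuous_re).mem_nhds hs
    have hs0 : s ≠ 0 := by rintro rfl; simp at hs
    have h1 : DifferentiableAt ℂ (fun s => Z s - w0 k / s) s :=
      (hZ.differentiableAt hnhds).sub ((differentiableAt_const _).div differentiableAt_id hs0)
    refine h1.congr_of_eventuallyEq ?_
    filter_upwards [hnhds] with w hw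
    have hw' : 0 < w.re := hw
    simp [Zt, hw']
  · have hs1 : s ≠ 1 := by rintro rfl; simp at hs
    have hopen : IsOpen {s : ℂ | s ≠ 1} := isOpen_ne
    have h0 : {s : ℂ | s ≠ 1} ∈ 𝓝 (0 : ℂ) := hopen.mem_nhds (by simp)
    have hd : DifferentiableOn ℂ (fun s => riemannZeta s ^ k) {s : ℂ | s ≠ 1} := by
      intro w hw
      exact ((differentiableAt_riemannZeta hw).pow k).differentiableWithinAt
    have hd2 := (Complex.differentiableOn_dslope h0).2 hd
    have h1 : DifferentiableAt ℂ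
        (fun s => dslope (fun s => riemannZeta s ^ k) 0 s - Q P s) s :=
      (hd2.differentiableAt (hopen.mem_nhds hs1)).sub (MainPoly.differentiableAt_Q P hs1)
    refine h1.congr_of_eventuallyEq ?_
    filter_upwards [hopen.mem_nhds hs1] with w hw
    exact Zt_eq_left hZ' hw

lemma mellin_g {k : ℕ} {P : Polynomial ℝ} {Z : ℂ → ℂ}
    (hZ' : ∀ s : ℂ, 0 < s.re → s ≠ 1 → Z s = riemannZeta s ^ k / s - Q P s) (t : ℝ) :
    ∫ x in Ioi (1 : ℝ), ((Err k P x - w0 k : ℝ) : ℂ) * (x : ℂ) ^ (-(2 + t * I : ℂ) - 1) =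
      Zt k P Z (2 + t * I) := by
  have hre : (1 : ℝ) < (2 + t * I : ℂ).re := by simp
  have hne1 : (2 + t * I : ℂ) ≠ 1 := by intro h; have := congrArg re h; simp at this
  have hne0 : (2 + t * I : ℂ) ≠ 0 := by intro h; have := congrArg re h; simp at this
  rw [Zt_eq hZ' hne1 hne0, ← mellin_Err k P hre]
  have h1 := integral_Ioi_cpow_of_lt (a := -(2 + t * I : ℂ) - 1) (c := 1) (by simp; norm_num) one_pos
  have h1i := integrableOn_Ioi_cpow_of_lt (a := -(2 + t * I : ℂ) - 1) (c := 1)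
    (by simp; norm_num) one_pos
  have h2 : ∀ x : ℝ, ((Err k P x - w0 k : ℝ) : ℂ) * (x : ℂ) ^ (-(2 + t * I : ℂ) - 1) =
      (Err k P x : ℂ) * (x : ℂ) ^ (-(2 + t * I : ℂ) - 1) -
      w0 k * (x : ℂ) ^ (-(2 + t * I : ℂ) - 1) := by
    intro x; push_cast; ring
  simp_rw [h2]
  rw [integral_sub (integrableOn_Err k P hre) (h1i.const_mul _), integral_const_mul, h1]
  congr 1
  have e1 : (-(2 + t * I : ℂ) - 1 + 1) = -(2 + t * I) := by ring
  rw [e1]
  simp only [ofReal_one, one_cpow]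
  rw [neg_div_neg_eq]
  ring

lemma g_bound (k : ℕ) (P : Polynomial ℝ) : ∃ C : ℝ, 0 ≤ C ∧ ∀ x : ℝ, 1 ≤ x →
    |Err k P x - w0 k| ≤ C * x ^ (3 / 2 : ℝ) := by
  obtain ⟨C, hC0, hC⟩ := Err_le k P (by norm_num : (1 : ℝ) < 3 / 2)
  refine ⟨C + |w0 k|, by positivity, fun x hx => ?_⟩
  have h1 : (1 : ℝ) ≤ x ^ (3 / 2 : ℝ) := Real.one_le_rpow hx (by norm_num)
  have h2 := hC x hx
  have h3 := abs_sub (Err k P x) (w0 k)
  have h4 := abs_nonneg (w0 k)
  nlinarith

lemma H_strip : ∃ C : ℝ, 0 ≤ C ∧ ∀ s : ℂ, -1 ≤ s.re → s.re ≤ 2 →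
    ‖H s‖ ≤ C * (1 + |s.im|) ^ (5 / 2 : ℝ) := by
  have h1 : ∀ s : ℂ, s.re = 2 → ‖H s‖ ≤ 9 * (1 + |s.im|) ^ (5 / 2 : ℝ) := by
    intro s hs
    have h2 := norm_H_le (s := s) (by rw [hs]; norm_num)
    have h3 : ‖s‖ ≤ 2 * (1 + |s.im|) := by
      have := norm_le_abs_re_add_abs_im s
      rw [hs] at this
      have h5 := abs_nonneg s.im
      norm_num at this
      linarith
    have h4 : ‖s - 1‖ ≤ 1 + |s.im| := by
      have := norm_le_abs_re_add_abs_im (s - 1)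
      rw [sub_re, hs, sub_im, one_re, one_im] at this
      norm_num at this
      exact this
    have h5 := abs_nonneg s.im
    have h6 : ‖H s‖ ≤ 9 * (1 + |s.im|) ^ (2 : ℝ) := by
      refine h2.trans ?_
      rw [hs]
      have : (1 + |s.im|) ^ (2 : ℝ) = (1 + |s.im|) ^ 2 := by norm_cast
      rw [this]
      have h7 := norm_nonneg s
      have h8 := norm_nonneg (s - 1)
      have h9 : ‖s‖ * ‖s - 1‖ ≤ 2 * (1 + |s.im|) * (1 + |s.im|) := by gcongr
      nlinarith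
    refine h6.trans ?_
    gcongr
    · linarith
    · norm_num
  obtain ⟨C, hC⟩ := H_interp (σ₁ := 2) (by norm_num) le_rfl (by norm_num : (0 : ℝ) ≤ 5 / 2) h1
  refine ⟨|C|, abs_nonneg _, fun s h2 h3 => ?_⟩
  have h4 := hC s h2 h3
  have e1 : (5 / 2 + (5 / 2 - 5 / 2) / (2 - (-1)) * (s.re - (-1)) : ℝ) = 5 / 2 := by ring
  rw [e1] at h4
  refine h4.trans ?_
  have := abs_nonneg s.im
  have : 0 ≤ (1 + |s.im|) ^ (5 / 2 : ℝ) := by positivity
  gcongr
  exact le_abs_self C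

lemma Zt_bound {k : ℕ} {P : Polynomial ℝ} {Z : ℂ → ℂ}
    (hZ : DifferentiableOn ℂ Z {s : ℂ | 0 < s.re})
    (hZ' : ∀ s : ℂ, 0 < s.re → s ≠ 1 → Z s = riemannZeta s ^ k / s - Q P s) :
    ∃ C : ℝ, 0 ≤ C ∧ ∀ s : ℂ, -1 ≤ s.re → s.re ≤ 2 →
      ‖Zt k P Z s‖ ≤ C * (1 + |s.im|) ^ (3 * k) := by
  obtain ⟨CH, hCH0, hCH⟩ := H_strip
  obtain ⟨CQ, hCQ0, hCQ⟩ := Perron.norm_Q_le P
  -- compact box
  have hcomp : IsCompact {s : ℂ | -1 ≤ s.re ∧ s.re ≤ 2 ∧ |s.im| ≤ 1} := by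
    have : {s : ℂ | -1 ≤ s.re ∧ s.re ≤ 2 ∧ |s.im| ≤ 1} = Icc (-1 : ℝ) 2 ×ℂ Icc (-1 : ℝ) 1 := by
      ext s
      simp only [mem_ofPred_eq, mem_reProdIm, mem_Icc, abs_le]
      tauto
    rw [this]
    exact isCompact_Icc.reProdIm isCompact_Icc
  obtain ⟨B, hB⟩ := hcomp.exists_bound_of_continuousOn
    (Zt_differentiable hZ hZ').continuous.continuousOn
  refine ⟨|B| + CH ^ k + CQ + |w0 k|, by positivity, fun s h1 h2 => ?_⟩
  have habs := abs_nonneg s.im
  have hone : (1 : ℝ) ≤ (1 + |s.im|) ^ (3 * k) := one_le_pow₀ (by linarith)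
  by_cases h3 : |s.im| ≤ 1
  · have h4 := (hB s ⟨h1, h2, h3⟩).trans (le_abs_self B)
    have h5 : 0 ≤ CH ^ k + CQ + |w0 k| := by positivity
    have h6 := abs_nonneg B
    nlinarith
  · push Not at h3
    have hs1 : s ≠ 1 := by rintro rfl; simp at h3; linarith
    have hs0 : s ≠ 0 := by rintro rfl; simp at h3; linarith
    have hsn : 1 ≤ ‖s‖ := h3.le.trans (abs_im_le_norm s)
    have hsn1 : 1 ≤ ‖s - 1‖ := by
      have := abs_im_le_norm (s - 1)
      simp at this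
      linarith
    have hzeta : ‖riemannZeta s‖ ≤ CH * (1 + |s.im|) ^ 3 := by
      have h7 := hCH s h1 h2
      rw [H_of_ne hs1, norm_mul] at h7
      have h8 : ‖riemannZeta s‖ ≤ ‖s - 1‖ * ‖riemannZeta s‖ := by
        have := norm_nonneg (riemannZeta s)
        nlinarith
      refine h8.trans (h7.trans ?_)
      gcongr
      rw [← Real.rpow_natCast]
      apply Real.rpow_le_rpow_of_exponent_le (by linarith)
      norm_num
    have hzk : ‖riemannZeta s ^ k / s‖ ≤ CH ^ k * (1 + |s.im|) ^ (3 * k) := by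
      rw [norm_div, norm_pow]
      calc ‖riemannZeta s‖ ^ k / ‖s‖ ≤ ‖riemannZeta s‖ ^ k / 1 := by gcongr
        _ ≤ (CH * (1 + |s.im|) ^ 3) ^ k := by rw [div_one]; gcongr
        _ = _ := by rw [mul_pow, ← pow_mul]
    have hQ : ‖Q P s‖ ≤ CQ := (hCQ s h3.le).trans (div_le_self hCQ0 h3.le)
    have hw : ‖(w0 k : ℂ) / s‖ ≤ |w0 k| := by
      rw [norm_div, norm_real, Real.norm_eq_abs]
      exact div_le_self (abs_nonneg _) hsn
    rw [Zt_eq hZ' hs1 hs0]
    calc ‖riemannZeta s ^ k / s - Q P s - w0 k / s‖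
        ≤ ‖riemannZeta s ^ k / s‖ + ‖Q P s‖ + ‖(w0 k : ℂ) / s‖ :=
          (norm_sub_le _ _).trans (add_le_add (norm_sub_le _ _) le_rfl)
      _ ≤ CH ^ k * (1 + |s.im|) ^ (3 * k) + CQ + |w0 k| := by gcongr
      _ ≤ _ := by
        have h5 : 0 ≤ CQ + |w0 k| := by positivity
        have h6 := abs_nonneg B
        nlinarith

/-- **the representation on the line `Re s = -1`** -/
theorem Ig_eq {k : ℕ} (hk : 1 ≤ k) {P : Polynomial ℝ} {Z : ℂ → ℂ}
    (hZ : DifferentiableOn ℂ Z {s : ℂ | 0 < s.re})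
    (hZ' : ∀ s : ℂ, 0 < s.re → s ≠ 1 → Z s = riemannZeta s ^ k / s - Q P s)
    {z : ℂ} (hz : 0 < z.re) :
    Ig k (fun x => Err k P x - w0 k) z =
      (1 / (2 * Real.pi)) * ∫ t : ℝ, KZ k z (-1 + t * I) * Zt k P Z (-1 + t * I) := by
  obtain ⟨C, hC0, hC⟩ := g_bound k P
  rw [fubini hk hz ((measurable_Err k P).sub_const _) hC (mellin_g hZ')]
  congr 1
  obtain ⟨B, hB0, hB⟩ := Zt_bound hZ hZ'
  obtain ⟨A, hA0, hA⟩ := KZ_bound hk hz
  have hc : 0 < k * (Real.pi / 2 - |arg z|) := by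
    have := abs_arg_lt hz
    have : (1 : ℝ) ≤ k := by exact_mod_cast hk
    have : 0 < Real.pi / 2 - |arg z| := by linarith
    positivity
  obtain ⟨D, hD0, hD⟩ := exp_decay_le (4 * k + 3 * k) hc
  have key := Perron.shift_line (G := fun s => KZ k z s * Zt k P Z s) (a := -1) (b := 2)
    (by norm_num) (U := {s : ℂ | -2 < s.re}) (fun s h1 _ => by
      show -2 < s.re
      linarith)
    ((KZ_differentiableOn hk z).mul (Zt_differentiable hZ hZ').differentiableOn)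
    (isOpen_lt continuous_const continuous_re) (C := A * B * D) (fun s h1 h2 => by
      have h3 := hA s h1 h2
      have h4 := hB s h1 h2
      have h5 := hD |s.im| (abs_nonneg _)
      rw [norm_mul]
      calc ‖KZ k z s‖ * ‖Zt k P Z s‖
          ≤ (A * (1 + |s.im|) ^ (4 * k) * Real.exp (-(k * (Real.pi / 2 - |arg z|) * |s.im|))) *
            (B * (1 + |s.im|) ^ (3 * k)) := by gcongr
        _ = A * B * ((1 + |s.im|) ^ (4 * k + 3 * k) *
            Real.exp (-(k * (Real.pi / 2 - |arg z|) * |s.im|))) := by rw [pow_add]; ring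
        _ ≤ A * B * (D * (1 + |s.im|) ^ (-2 : ℝ)) := by gcongr
        _ = _ := by ring)
  have e1 : ∀ t : ℝ, (((2 : ℝ) : ℂ) + t * I) = 2 + t * I := by intro t; push_cast; rfl
  have e2 : ∀ t : ℝ, (((-1 : ℝ) : ℂ) + t * I) = -1 + t * I := by intro t; push_cast; rfl
  simp only [e1, e2] at key
  exact key.symm

end Pool.Agent.Lib.MP_bc6037_nt
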