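import Mathlib
import Pool.Agent.Lib.MP_bc6037_nt.ShiftLeft

set_option autoImplicit false

/-!
Estimates of the transform near `2 π i k` and on the real line.
-/

open Complex Filter Topology Set MeasureTheory Asymptotics

namespace Pool.Agent.Lib.MP_bc6037_nt

open DeltaMellin ZetaGrowth

/-- **real parameter**: `Ig(δ) = O(δ^{-k})` -/
theorem Ig_real {k : ℕ} (hk : 1 ≤ k) {P : Polynomial ℝ} {Z : ℂ → ℂ}
    (hZ : DifferentiableOn ℂ Z {s : ℂ | 0 < s.re})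
    (hZ' : ∀ s : ℂ, 0 < s.re → s ≠ 1 → Z s = riemannZeta s ^ k / s - Q P s) :
    ∃ C : ℝ, 0 ≤ C ∧ ∀ δ : ℝ, 0 < δ → ‖Ig k (fun x => Err k P x - w0 k) δ‖ ≤ C * (1 / δ) ^ k := by
  refine ⟨1 / (2 * Real.pi) * ∫ t : ℝ, ‖KZ k 1 (-1 + t * I) * Zt k P Z (-1 + t * I)‖, by
    have : 0 ≤ ∫ t : ℝ, ‖KZ k 1 (-1 + t * I) * Zt k P Z (-1 + t * I)‖ :=
      integral_nonneg fun _ => norm_nonneg _
    positivity, fun δ hδ => ?_⟩
  rw [Ig_eq hk hZ hZ' (by simpa using hδ), norm_mul]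
  have h1 : ∀ t : ℝ, ‖KZ k δ (-1 + t * I) * Zt k P Z (-1 + t * I)‖ =
      (1 / δ) ^ k * ‖KZ k 1 (-1 + t * I) * Zt k P Z (-1 + t * I)‖ := by
    intro t
    rw [norm_mul, norm_mul, ← mul_assoc]
    congr 1
    unfold KZ
    rw [norm_mul _ (cexp _), norm_mul _ (cexp _), mul_comm ((1 / δ) ^ k), mul_assoc]
    congr 1
    rw [Complex.norm_exp, Complex.norm_exp, log_one, mul_zero, zero_re, Real.exp_zero, one_mul,
      ← ofReal_log hδ.le, re_mul_ofReal]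
    have e1 : (-((k : ℂ) * (-1 + t * I + 2))).re = -k := by
      rw [neg_re, show (k : ℂ) = ((k : ℝ) : ℂ) by simp, re_ofReal_mul]; simp; ring
    rw [e1, one_div, inv_pow, ← Real.rpow_natCast, ← Real.rpow_neg hδ.le,
      Real.rpow_def_of_pos hδ]
    congr 1
    ring
  have h2 : ‖∫ t : ℝ, KZ k δ (-1 + t * I) * Zt k P Z (-1 + t * I)‖ ≤
      (1 / δ) ^ k * ∫ t : ℝ, ‖KZ k 1 (-1 + t * I) * Zt k P Z (-1 + t * I)‖ := by
    refine (norm_integral_le_integral_norm _).trans (le_of_eq ?_)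
    rw [← integral_const_mul]
    congr 1
    funext t
    exact h1 t
  have h3 : ‖(1 / (2 * Real.pi) : ℂ)‖ = 1 / (2 * Real.pi) := by
    rw [show (1 / (2 * Real.pi) : ℂ) = ((1 / (2 * Real.pi) : ℝ) : ℂ) by push_cast; rfl, norm_real,
      Real.norm_eq_abs, abs_of_pos (by positivity)]
  rw [h3]
  calc 1 / (2 * Real.pi) * ‖∫ t : ℝ, KZ k δ (-1 + t * I) * Zt k P Z (-1 + t * I)‖
      ≤ 1 / (2 * Real.pi) * ((1 / δ) ^ k *
        ∫ t : ℝ, ‖KZ k 1 (-1 + t * I) * Zt k P Z (-1 + t * I)‖) := by gcongr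
    _ = _ := by ring

lemma Gamma_k_bound {k : ℕ} (hk : 1 ≤ k) : ∃ C : ℝ, 0 ≤ C ∧ ∀ t : ℝ,
    ‖Gamma (k * (1 + t * I))‖ ≤ C * (1 + |t|) ^ k * Real.exp (-(Real.pi / 2 * k * |t|)) := by
  obtain ⟨C, hC0, hC⟩ := Gamma_nat_vert (k - 1)
  have hk1 : k - 1 + 1 = k := by omega
  have hkr : (1 : ℝ) ≤ k := by exact_mod_cast hk
  rw [hk1] at hC
  refine ⟨C * k ^ k, by positivity, fun t => ?_⟩
  have h1 := hC (k * t)
  have e1 : ((k : ℂ) + ((k * t : ℝ) : ℂ) * I) = k * (1 + t * I) := by push_cast; ring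
  rw [e1, abs_mul, abs_of_nonneg (by positivity : (0 : ℝ) ≤ k)] at h1
  have h2 : (1 + k * |t|) ^ k ≤ (k * (1 + |t|)) ^ k := by
    have := abs_nonneg t
    gcongr
    nlinarith
  calc ‖Gamma (k * (1 + t * I))‖ ≤ C * (1 + k * |t|) ^ k * Real.exp (-(Real.pi * (k * |t|)) / 2) := h1
    _ ≤ C * (k * (1 + |t|)) ^ k * Real.exp (-(Real.pi * (k * |t|)) / 2) := by gcongr
    _ = C * k ^ k * (1 + |t|) ^ k * Real.exp (-(Real.pi / 2 * k * |t|)) := by
      rw [mul_pow]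
      have : -(Real.pi * (k * |t|)) / 2 = -(Real.pi / 2 * k * |t|) := by ring
      rw [this]; ring

lemma X0_bound : ∃ C : ℝ, 0 ≤ C ∧ ∀ t : ℝ, ‖X0 t‖ ≤ C * (1 + |t|) ^ 2 := by
  obtain ⟨C, hC0, hC⟩ := Gamma_nat_vert 1
  refine ⟨2 * C, by positivity, fun t => ?_⟩
  have h1 := hC (-t)
  have e1 : (((1 + 1 : ℕ) : ℂ) + ((-t : ℝ) : ℂ) * I) = 2 - t * I := by push_cast; ring
  rw [e1, abs_neg] at h1
  have h2 : ‖cos (Real.pi * (2 - t * I) / 2)‖ ≤ Real.exp (Real.pi * |t| / 2) := by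
    refine (norm_cos_le _).trans ?_
    have e2 : (Real.pi * (2 - t * I) / 2 : ℂ).im = -(Real.pi * t / 2) := by
      have : (Real.pi * (2 - t * I) / 2 : ℂ) = ((Real.pi : ℝ) : ℂ) + ((-(Real.pi * t / 2) : ℝ) : ℂ) * I := by
        push_cast; ring
      rw [this]; simp
    rw [e2, Real.cosh_neg, ← Real.cosh_abs, Real.cosh_eq]
    have e3 : |Real.pi * t / 2| = Real.pi * |t| / 2 := by
      rw [abs_div, abs_mul, abs_of_pos Real.pi_pos, abs_of_pos (by norm_num : (0 : ℝ) < 2)]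
    rw [e3]
    have h3 : Real.exp (-(Real.pi * |t| / 2)) ≤ Real.exp (Real.pi * |t| / 2) := by
      apply Real.exp_le_exp.2
      have := Real.pi_pos
      have := abs_nonneg t
      have : 0 ≤ Real.pi * |t| / 2 := by positivity
      linarith
    linarith
  have h3 : ‖(2 * Real.pi : ℂ) ^ (-(2 - t * I))‖ ≤ 1 := by
    have : (2 * Real.pi : ℂ) = ((2 * Real.pi : ℝ) : ℂ) := by push_cast; rfl
    rw [this, norm_cpow_eq_rpow_re_of_pos (by positivity)]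
    apply Real.rpow_le_one_of_one_le_of_nonpos
    · nlinarith [Real.pi_gt_three]
    · simp
  rw [X0, norm_mul, norm_mul, norm_mul]
  calc ‖(2 : ℂ)‖ * ‖(2 * Real.pi : ℂ) ^ (-(2 - t * I))‖ * ‖Gamma (2 - t * I)‖ *
        ‖cos (Real.pi * (2 - t * I) / 2)‖
      ≤ 2 * 1 * (C * (1 + |t|) ^ (1 + 1) * Real.exp (-(Real.pi * |t|) / 2)) *
        Real.exp (Real.pi * |t| / 2) := by
        gcongr
        simp
    _ = 2 * C * (1 + |t|) ^ 2 * (Real.exp (-(Real.pi * |t|) / 2) * Real.exp (Real.pi * |t| / 2)) := by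
        ring
    _ = _ := by
        rw [← Real.exp_add]
        have : -(Real.pi * |t|) / 2 + Real.pi * |t| / 2 = 0 := by ring
        rw [this, Real.exp_zero, mul_one]

lemma norm_expL0 (k : ℕ) (t : ℝ) : ‖cexp (-(k * (1 + t * I)) * L0 k)‖ =
    Real.exp (-(k * Real.log (2 * Real.pi * k))) * Real.exp (Real.pi / 2 * k * t) := by
  rw [Complex.norm_exp, ← Real.exp_add]
  congr 1
  have : (-(k * (1 + t * I)) * L0 k : ℂ) =
      ((-(k * Real.log (2 * Real.pi * k)) + Real.pi / 2 * k * t : ℝ) : ℂ) +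
      ((-(k * t * Real.log (2 * Real.pi * k)) - k * Real.pi / 2 : ℝ) : ℂ) * I := by
    rw [L0]; push_cast
    linear_combination (-(k : ℂ) * t * Real.pi / 2) * I_sq
  rw [this]; simp

/-- the weight `exp(-(π/2) k |t| + (π/2) k t)` -/
noncomputable def wt (k : ℕ) (t : ℝ) : ℝ := Real.exp (-(Real.pi / 2 * k * |t|)) * Real.exp (Real.pi / 2 * k * t)

lemma EE_bound {k : ℕ} (hk : 1 ≤ k) : ∃ C : ℝ, 0 ≤ C ∧ ∀ t : ℝ,
    ‖EE k t‖ ≤ C * (1 + |t|) ^ (3 * k) * wt k t := by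
  obtain ⟨C₁, h10, h1⟩ := Gamma_k_bound hk
  obtain ⟨C₂, h20, h2⟩ := X0_bound
  set B := Real.exp (-(k * Real.log (2 * Real.pi * k))) with hB
  refine ⟨k * C₁ * B * C₂ ^ k, by positivity, fun t => ?_⟩
  have h3 : 1 ≤ ‖(-1 + t * I : ℂ)‖ := by
    have := abs_re_le_norm (-1 + t * I : ℂ)
    simpa using this
  rw [EE, norm_div, norm_mul, norm_mul, norm_mul, norm_pow, norm_expL0, Complex.norm_natCast]
  calc k * ‖Gamma (k * (1 + t * I))‖ * (B * Real.exp (Real.pi / 2 * k * t)) * ‖X0 t‖ ^ k /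
        ‖(-1 + t * I : ℂ)‖
      ≤ k * ‖Gamma (k * (1 + t * I))‖ * (B * Real.exp (Real.pi / 2 * k * t)) * ‖X0 t‖ ^ k / 1 := by
        gcongr
    _ ≤ k * (C₁ * (1 + |t|) ^ k * Real.exp (-(Real.pi / 2 * k * |t|))) *
        (B * Real.exp (Real.pi / 2 * k * t)) * (C₂ * (1 + |t|) ^ 2) ^ k := by
        rw [div_one]
        gcongr
        · exact h1 t
        · exact h2 t
    _ = _ := by
        rw [mul_pow, ← pow_mul, wt, show 3 * k = k + 2 * k by ring, pow_add]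
        ring

/-- `Λ(ε) = log(1 - i ε)` -/
noncomputable def Lam (ε : ℝ) : ℂ := log (1 - ε * I)

lemma norm_expLam (k : ℕ) (ε t : ℝ) : ‖cexp (-(k * (1 + t * I)) * Lam ε)‖ =
    Real.exp (-(k * (Lam ε).re)) * Real.exp (-(k * (-(Lam ε).im) * t)) := by
  rw [Complex.norm_exp, ← Real.exp_add]
  congr 1
  have e1 : (-(k * (1 + t * I)) : ℂ) = ((-(k : ℝ) : ℝ) : ℂ) + ((-(k * t) : ℝ) : ℂ) * I := by
    push_cast; ring
  rw [e1, mul_re]
  simp
  ring

lemma Lam_re_nonneg (ε : ℝ) : 0 ≤ (Lam ε).re := by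
  rw [Lam, log_re]
  apply Real.log_nonneg
  have := abs_re_le_norm (1 - ε * I : ℂ)
  simpa using this

lemma Lam_im (ε : ℝ) : (Lam ε).im = - Real.arctan ε := by
  rw [Lam, log_im, arg_of_re_nonneg (by simp)]
  have e1 : (1 - ε * I : ℂ).im = -ε := by simp
  have e2 : ‖(1 - ε * I : ℂ)‖ = Real.sqrt (1 + ε ^ 2) := by
    rw [norm_def, normSq_apply]
    simp
    ring_nf
  rw [e1, e2, neg_div, Real.arcsin_neg, Real.arctan_eq_arcsin]

lemma log_z_eq {k : ℕ} (hk : 1 ≤ k) {ε : ℝ} (hε : 0 < ε) :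
    log (2 * Real.pi * k * (ε + I)) = L0 k + Lam ε := by
  have hkp : (0 : ℝ) < k := by exact_mod_cast hk
  have h1 : (2 * Real.pi * k * (ε + I) : ℂ) = ((2 * Real.pi * k : ℝ) : ℂ) * (I * (1 - ε * I)) := by
    push_cast
    linear_combination (2 * Real.pi * k * ε : ℂ) * I_sq
  have hne : (1 - ε * I : ℂ) ≠ 0 := by
    intro h; have := congrArg re h; simp at this
  rw [h1, log_ofReal_mul (by positivity) (mul_ne_zero I_ne_zero hne), L0, Lam,
    log_mul I_ne_zero hne, log_I]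
  · push_cast; ring
  · rw [arg_I]
    have h2 : arg (1 - ε * I) = - Real.arctan ε := by
      have := Lam_im ε
      rwa [Lam, log_im] at this
    rw [h2]
    have h3 := Real.arctan_lt_pi_div_two ε
    have h4 : 0 < Real.arctan ε := by rw [Real.arctan_pos]; exact hε
    have := Real.pi_pos
    constructor <;> linarith

end Pool.Agent.Lib.MP_bc6037_nt
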