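import Mathlib
import Pool.Agent.Lib.MP_bc6037_nt.KernelBounds

set_option autoImplicit false

/-!
Uniform bounds for the transform in the right half plane.
-/

open Complex Filter Topology Set MeasureTheory Asymptotics

namespace Pool.Agent.Lib.MP_bc6037_nt

open DeltaMellin ZetaGrowth

lemma weight_pt (m : ℕ) {a x : ℝ} (ha : 0 < a) (hx : 0 ≤ x) :
    (1 + x) ^ m ≤ m.factorial * (2 / a) ^ m * Real.exp (a / 2) * Real.exp (a / 2 * x) := by
  have h1 := Real.pow_div_factorial_le_exp (a / 2 * (1 + x)) (by positivity) m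
  have hf : (0 : ℝ) < m.factorial := by exact_mod_cast m.factorial_pos
  rw [div_le_iff₀ hf] at h1
  have h2 : (1 + x) ^ m = (2 / a) ^ m * (a / 2 * (1 + x)) ^ m := by
    rw [← mul_pow]; congr 1; field_simp
  rw [h2]
  calc (2 / a) ^ m * (a / 2 * (1 + x)) ^ m ≤ (2 / a) ^ m * (Real.exp (a / 2 * (1 + x)) *
        m.factorial) := by gcongr
    _ = _ := by
      rw [show a / 2 * (1 + x) = a / 2 + a / 2 * x by ring, Real.exp_add]; ring

lemma integrable_exp_abs {b : ℝ} (hb : 0 < b) : Integrable (fun t : ℝ => Real.exp (-(b * |t|))) := by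
  rw [← integrableOn_univ, ← Iic_union_Ioi (a := (0 : ℝ)), integrableOn_union]
  constructor
  · have := integrableOn_exp_mul_Iic hb 0
    refine this.congr_fun (fun t ht => ?_) measurableSet_Iic
    simp only
    rw [abs_of_nonpos ht]; congr 1; ring
  · have := integrableOn_exp_mul_Ioi (a := -b) (by linarith) 0
    refine this.congr_fun (fun t ht => ?_) measurableSet_Ioi
    simp only
    rw [abs_of_pos ht]; congr 1; ring

lemma integral_exp_abs {b : ℝ} (hb : 0 < b) : ∫ t : ℝ, Real.exp (-(b * |t|)) = 2 / b := by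
  have h1 := integral_comp_abs (f := fun t : ℝ => Real.exp (-(b * t)))
  rw [h1]
  have h2 := integral_exp_mul_Ioi (a := -b) (by linarith) 0
  have h3 : ∫ x in Ioi (0 : ℝ), Real.exp (-(b * x)) = 1 / b := by
    have : (fun x : ℝ => Real.exp (-(b * x))) = fun x => Real.exp (-b * x) := by
      funext x; congr 1; ring
    rw [this, h2]; simp
  rw [h3]; ring

lemma weight_int (m : ℕ) (A : ℝ) : ∃ C : ℝ, 0 ≤ C ∧ ∀ a : ℝ, 0 < a → a ≤ A →
    ∀ (f : ℝ → ℂ) (M : ℝ), (∀ t, ‖f t‖ ≤ M * (1 + |t|) ^ m * Real.exp (-(a * |t|))) →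
      ‖∫ t, f t‖ ≤ M * (C * (1 / a) ^ (m + 1)) := by
  refine ⟨m.factorial * 2 ^ m * Real.exp (A / 2) * 4, by positivity, fun a ha haA f M hf => ?_⟩
  have hM : 0 ≤ M := by
    have h0 := (norm_nonneg _).trans (hf 0)
    simp at h0
    exact h0
  set K := m.factorial * (2 / a) ^ m * Real.exp (a / 2) with hK
  have hK0 : 0 ≤ K := by positivity
  have h1 : ∀ t, ‖f t‖ ≤ M * K * Real.exp (-(a / 2 * |t|)) := by
    intro t
    refine (hf t).trans ?_
    have h2 := weight_pt m ha (abs_nonneg t)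
    have h3 : Real.exp (-(a * |t|)) = Real.exp (-(a / 2 * |t|)) * Real.exp (-(a / 2 * |t|)) := by
      rw [← Real.exp_add]; congr 1; ring
    have h4 : Real.exp (a / 2 * |t|) * Real.exp (-(a / 2 * |t|)) = 1 := by
      rw [← Real.exp_add]; simp
    calc M * (1 + |t|) ^ m * Real.exp (-(a * |t|))
        ≤ M * (K * Real.exp (a / 2 * |t|)) * Real.exp (-(a * |t|)) := by gcongr
      _ = M * K * (Real.exp (a / 2 * |t|) * Real.exp (-(a / 2 * |t|))) *
          Real.exp (-(a / 2 * |t|)) := by rw [h3]; ring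
      _ = _ := by rw [h4]; ring
  have h5 : ‖∫ t, f t‖ ≤ ∫ t, M * K * Real.exp (-(a / 2 * |t|)) :=
    norm_integral_le_of_norm_le ((integrable_exp_abs (by positivity : 0 < a / 2)).const_mul _)
      (Eventually.of_forall h1)
  rw [integral_const_mul, integral_exp_abs (by positivity)] at h5
  refine h5.trans ?_
  have h6 : Real.exp (a / 2) ≤ Real.exp (A / 2) := Real.exp_le_exp.2 (by linarith)
  calc M * K * (2 / (a / 2)) = M * (m.factorial * 2 ^ m * Real.exp (a / 2) * 4 * (1 / a) ^ (m + 1)) := by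
        rw [hK, pow_succ, div_pow, div_pow, one_pow]; field_simp; ring
    _ ≤ M * (m.factorial * 2 ^ m * Real.exp (A / 2) * 4 * (1 / a) ^ (m + 1)) := by gcongr

lemma weight_integrable (m : ℕ) {a : ℝ} (ha : 0 < a) {f : ℝ → ℂ} {M : ℝ}
    (hfm : AEStronglyMeasurable f volume)
    (hf : ∀ t, ‖f t‖ ≤ M * (1 + |t|) ^ m * Real.exp (-(a * |t|))) : Integrable f := by
  have hM : 0 ≤ M := by
    have h0 := (norm_nonneg _).trans (hf 0)
    simp at h0
    exact h0
  refine ((integrable_exp_abs (by positivity : 0 < a / 2)).const_mul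
    (M * (m.factorial * (2 / a) ^ m * Real.exp (a / 2)))).mono' hfm (Eventually.of_forall fun t => ?_)
  refine (hf t).trans ?_
  have h2 := weight_pt m ha (abs_nonneg t)
  have h3 : Real.exp (-(a * |t|)) = Real.exp (-(a / 2 * |t|)) * Real.exp (-(a / 2 * |t|)) := by
    rw [← Real.exp_add]; congr 1; ring
  have h4 : Real.exp (a / 2 * |t|) * Real.exp (-(a / 2 * |t|)) = 1 := by
    rw [← Real.exp_add]; simp
  calc M * (1 + |t|) ^ m * Real.exp (-(a * |t|))
      ≤ M * (m.factorial * (2 / a) ^ m * Real.exp (a / 2) * Real.exp (a / 2 * |t|)) *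
        Real.exp (-(a * |t|)) := by gcongr
    _ = M * (m.factorial * (2 / a) ^ m * Real.exp (a / 2)) *
        (Real.exp (a / 2 * |t|) * Real.exp (-(a / 2 * |t|))) *
        Real.exp (-(a / 2 * |t|)) := by rw [h3]; ring
    _ = _ := by rw [h4]; ring

lemma KZ_line_bound {k : ℕ} (hk : 1 ≤ k) : ∃ C : ℝ, 0 ≤ C ∧ ∀ z : ℂ, 0 < z.re → ∀ t : ℝ,
    ‖KZ k z (-1 + t * I)‖ ≤ C * (1 / ‖z‖) ^ k * (1 + |t|) ^ k *
      Real.exp (-(k * (Real.pi / 2 - |arg z|) * |t|)) := by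
  obtain ⟨C, hC0, hC⟩ := Gamma_k_bound hk
  refine ⟨k * C, by positivity, fun z hz t => ?_⟩
  have hz0 : z ≠ 0 := by rintro rfl; simp at hz
  have hzn : 0 < ‖z‖ := norm_pos_iff.2 hz0
  have e0 : (-1 + t * I + 2 : ℂ) = 1 + t * I := by ring
  have e1 : ‖cexp (-(k * (1 + t * I)) * log z)‖ = (1 / ‖z‖) ^ k * Real.exp (k * arg z * t) := by
    rw [Complex.norm_exp]
    have : (-(k * (1 + t * I)) * log z : ℂ).re = -(k * Real.log ‖z‖) + k * arg z * t := by
      have h1 : (-(k * (1 + t * I)) : ℂ) = ((-(k : ℝ) : ℝ) : ℂ) + ((-(k * t) : ℝ) : ℂ) * I := by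
        push_cast; ring
      rw [h1, mul_re, log_re, log_im]
      simp
      ring
    rw [this, Real.exp_add, Real.exp_neg, Real.exp_nat_mul, Real.exp_log hzn, one_div, inv_pow]
  rw [KZ, e0, norm_mul, norm_mul, e1, Complex.norm_natCast]
  have h2 : k * arg z * t ≤ k * |arg z| * |t| := by
    calc k * arg z * t ≤ |k * arg z * t| := le_abs_self _
      _ = k * |arg z| * |t| := by rw [abs_mul, abs_mul, Nat.abs_cast]
  calc k * ‖Gamma (k * (1 + t * I))‖ * ((1 / ‖z‖) ^ k * Real.exp (k * arg z * t))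
      ≤ k * (C * (1 + |t|) ^ k * Real.exp (-(Real.pi / 2 * k * |t|))) *
        ((1 / ‖z‖) ^ k * Real.exp (k * |arg z| * |t|)) := by
        gcongr
        exact hC t
    _ = k * C * (1 / ‖z‖) ^ k * (1 + |t|) ^ k *
        (Real.exp (-(Real.pi / 2 * k * |t|)) * Real.exp (k * |arg z| * |t|)) := by ring
    _ = _ := by rw [← Real.exp_add]; congr 2; ring

lemma arg_gap {z : ℂ} (hz : 0 < z.re) : z.re / ‖z‖ ≤ Real.pi / 2 - |arg z| := by
  have hz0 : z ≠ 0 := by rintro rfl; simp at hz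
  have h1 := abs_arg_lt hz
  have h2 : Real.sin (Real.pi / 2 - |arg z|) ≤ Real.pi / 2 - |arg z| :=
    Real.sin_le (by linarith)
  rw [Real.sin_pi_div_two_sub, Real.cos_abs, cos_arg hz0] at h2
  exact h2

lemma KZ_mul_integrable {k : ℕ} (hk : 1 ≤ k) (m : ℕ) {z : ℂ} (hz : 0 < z.re) {F : ℝ → ℂ} {M : ℝ}
    (hFm : AEStronglyMeasurable F volume) (hF : ∀ t, ‖F t‖ ≤ M * (1 + |t|) ^ m) :
    Integrable fun t : ℝ => KZ k z (-1 + t * I) * F t := by
  obtain ⟨C₁, h10, h1⟩ := KZ_line_bound hk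
  have hkp : (0 : ℝ) < k := by exact_mod_cast hk
  have hM : 0 ≤ M := by
    have h0 := (norm_nonneg _).trans (hF 0)
    simp at h0
    exact h0
  have h3 := abs_arg_lt hz
  refine weight_integrable (k + m) (a := k * (Real.pi / 2 - |arg z|))
    (M := M * (C₁ * (1 / ‖z‖) ^ k)) (mul_pos hkp (by linarith)) ?_ (fun t => ?_)
  · have h4 := (KZ_continuous_line hk z (σ := -1) (by norm_num))
    have e1 : ∀ t : ℝ, (((-1 : ℝ) : ℂ) + t * I) = -1 + t * I := by intro t; push_cast; rfl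
    simp only [e1] at h4
    exact h4.aestronglyMeasurable.mul hFm
  · rw [norm_mul]
    calc ‖KZ k z (-1 + t * I)‖ * ‖F t‖ ≤ (C₁ * (1 / ‖z‖) ^ k * (1 + |t|) ^ k *
          Real.exp (-(k * (Real.pi / 2 - |arg z|) * |t|))) * (M * (1 + |t|) ^ m) := by
          gcongr
          · exact h1 z hz t
          · exact hF t
      _ = _ := by rw [pow_add]; ring

/-- bound for an integral against the kernel -/
lemma KZ_int_bound {k : ℕ} (hk : 1 ≤ k) (m : ℕ) : ∃ C : ℝ, 0 ≤ C ∧ ∀ z : ℂ, 0 < z.re →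
    ∀ (F : ℝ → ℂ) (M : ℝ), 0 ≤ M → (∀ t, ‖F t‖ ≤ M * (1 + |t|) ^ m) →
      ‖∫ t : ℝ, KZ k z (-1 + t * I) * F t‖ ≤
        M * (C * (1 / ‖z‖) ^ k * (‖z‖ / z.re) ^ (k + m + 1)) := by
  obtain ⟨C₁, h10, h1⟩ := KZ_line_bound hk
  obtain ⟨C₂, h20, h2⟩ := weight_int (k + m) (k * (Real.pi / 2))
  have hkr : (1 : ℝ) ≤ k := by exact_mod_cast hk
  refine ⟨C₁ * C₂, by positivity, fun z hz F M hM hF => ?_⟩
  have hz0 : z ≠ 0 := by rintro rfl; simp at hz
  have hzn : 0 < ‖z‖ := norm_pos_iff.2 hz0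
  have h3 := arg_gap hz
  have h4 : 0 < z.re / ‖z‖ := by positivity
  set a := k * (Real.pi / 2 - |arg z|) with ha
  have ha1 : z.re / ‖z‖ ≤ a := by nlinarith
  have ha0 : 0 < a := by linarith
  have haA : a ≤ k * (Real.pi / 2) := by
    have := abs_nonneg (arg z)
    rw [ha]
    gcongr
    linarith
  have h5 := h2 a ha0 haA (fun t => KZ k z (-1 + t * I) * F t) (M * (C₁ * (1 / ‖z‖) ^ k))
    (fun t => by
      rw [norm_mul]
      calc ‖KZ k z (-1 + t * I)‖ * ‖F t‖ ≤ (C₁ * (1 / ‖z‖) ^ k * (1 + |t|) ^ k *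
            Real.exp (-(a * |t|))) * (M * (1 + |t|) ^ m) := by
            gcongr
            · exact h1 z hz t
            · exact hF t
        _ = _ := by rw [pow_add]; ring)
  refine h5.trans ?_
  have h6 : 1 / a ≤ ‖z‖ / z.re := by
    rw [div_le_iff₀ ha0]
    calc (1 : ℝ) = ‖z‖ / z.re * (z.re / ‖z‖) := by field_simp
      _ ≤ ‖z‖ / z.re * a := by gcongr
  calc M * (C₁ * (1 / ‖z‖) ^ k) * (C₂ * (1 / a) ^ (k + m + 1))
      ≤ M * (C₁ * (1 / ‖z‖) ^ k) * (C₂ * (‖z‖ / z.re) ^ (k + m + 1)) := by gcongr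
    _ = _ := by ring

/-- **uniform bound in the half plane** -/
theorem Ig_UB {k : ℕ} (hk : 1 ≤ k) {P : Polynomial ℝ} {Z : ℂ → ℂ}
    (hZ : DifferentiableOn ℂ Z {s : ℂ | 0 < s.re})
    (hZ' : ∀ s : ℂ, 0 < s.re → s ≠ 1 → Z s = riemannZeta s ^ k / s - Q P s) :
    ∃ C : ℝ, 0 ≤ C ∧ ∀ z : ℂ, 0 < z.re → ‖Ig k (fun x => Err k P x - w0 k) z‖ ≤
      C * (1 / ‖z‖) ^ k * (‖z‖ / z.re) ^ (4 * k + 1) := by
  obtain ⟨B, hB0, hB⟩ := Zt_bound hZ hZ'
  obtain ⟨C, hC0, hC⟩ := KZ_int_bound hk (3 * k)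
  refine ⟨1 / (2 * Real.pi) * (B * C), by positivity, fun z hz => ?_⟩
  have h1 := hC z hz (fun t => Zt k P Z (-1 + t * I)) B hB0 (fun t => by
    have := hB (-1 + t * I) (by simp) (by simp; norm_num)
    simpa using this)
  rw [Ig_eq hk hZ hZ' hz, norm_mul]
  have h3 : ‖(1 / (2 * Real.pi) : ℂ)‖ = 1 / (2 * Real.pi) := by
    rw [show (1 / (2 * Real.pi) : ℂ) = ((1 / (2 * Real.pi) : ℝ) : ℂ) by push_cast; rfl, norm_real,
      Real.norm_eq_abs, abs_of_pos (by positivity)]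
  rw [h3]
  have e : k + 3 * k + 1 = 4 * k + 1 := by ring
  rw [e] at h1
  calc 1 / (2 * Real.pi) * ‖∫ t : ℝ, KZ k z (-1 + t * I) * Zt k P Z (-1 + t * I)‖
      ≤ 1 / (2 * Real.pi) * (B * (C * (1 / ‖z‖) ^ k * (‖z‖ / z.re) ^ (4 * k + 1))) := by gcongr
    _ = _ := by ring

lemma weight_pt' {m : ℝ} (hm : 0 ≤ m) {a x : ℝ} (ha : 0 < a) (hx : 0 ≤ x) :
    (1 + x) ^ m ≤ ⌈m⌉₊.factorial * Real.exp 1 * (2 / a) ^ m * Real.exp (a / 2) *
      Real.exp (a / 2 * x) := by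
  set N := ⌈m⌉₊ with hN
  have hmN : m ≤ N := Nat.le_ceil m
  have hf : (0 : ℝ) < N.factorial := by exact_mod_cast N.factorial_pos
  have hy : 0 ≤ a / 2 * (1 + x) := by positivity
  have h1 : (a / 2 * (1 + x)) ^ m ≤ N.factorial * Real.exp (1 + a / 2 * (1 + x)) := by
    calc (a / 2 * (1 + x)) ^ m ≤ (1 + a / 2 * (1 + x)) ^ m := by
          apply Real.rpow_le_rpow hy (by linarith) hm
      _ ≤ (1 + a / 2 * (1 + x)) ^ (N : ℝ) :=
          Real.rpow_le_rpow_of_exponent_le (by linarith) hmN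
      _ = (1 + a / 2 * (1 + x)) ^ N := Real.rpow_natCast _ _
      _ ≤ N.factorial * Real.exp (1 + a / 2 * (1 + x)) := by
          have := Real.pow_div_factorial_le_exp (1 + a / 2 * (1 + x)) (by positivity) N
          rw [div_le_iff₀ hf] at this
          linarith
  have h2 : (1 + x) ^ m = (2 / a) ^ m * (a / 2 * (1 + x)) ^ m := by
    rw [← Real.mul_rpow (by positivity) hy]; congr 1; field_simp
  rw [h2]
  calc (2 / a) ^ m * (a / 2 * (1 + x)) ^ m ≤ (2 / a) ^ m *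
        (N.factorial * Real.exp (1 + a / 2 * (1 + x))) := by gcongr
    _ = _ := by
      rw [show 1 + a / 2 * (1 + x) = 1 + a / 2 + a / 2 * x by ring, Real.exp_add, Real.exp_add]
      ring

lemma weight_int' {m : ℝ} (hm : 0 ≤ m) (A : ℝ) : ∃ C : ℝ, 0 ≤ C ∧ ∀ a : ℝ, 0 < a → a ≤ A →
    ∀ (f : ℝ → ℂ) (M : ℝ), (∀ t, ‖f t‖ ≤ M * (1 + |t|) ^ m * Real.exp (-(a * |t|))) →
      ‖∫ t, f t‖ ≤ M * (C * (1 / a) ^ (m + 1)) := by
  refine ⟨⌈m⌉₊.factorial * Real.exp 1 * 2 ^ m * Real.exp (A / 2) * 4, by positivity,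
    fun a ha haA f M hf => ?_⟩
  have hM : 0 ≤ M := by
    have h0 := (norm_nonneg _).trans (hf 0)
    simp at h0
    exact h0
  set K := ⌈m⌉₊.factorial * Real.exp 1 * (2 / a) ^ m * Real.exp (a / 2) with hK
  have hK0 : 0 ≤ K := by positivity
  have h1 : ∀ t, ‖f t‖ ≤ M * K * Real.exp (-(a / 2 * |t|)) := by
    intro t
    refine (hf t).trans ?_
    have h2 := weight_pt' hm ha (abs_nonneg t)
    have h3 : Real.exp (-(a * |t|)) = Real.exp (-(a / 2 * |t|)) * Real.exp (-(a / 2 * |t|)) := by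
      rw [← Real.exp_add]; congr 1; ring
    have h4 : Real.exp (a / 2 * |t|) * Real.exp (-(a / 2 * |t|)) = 1 := by
      rw [← Real.exp_add]; simp
    calc M * (1 + |t|) ^ m * Real.exp (-(a * |t|))
        ≤ M * (K * Real.exp (a / 2 * |t|)) * Real.exp (-(a * |t|)) := by gcongr
      _ = M * K * (Real.exp (a / 2 * |t|) * Real.exp (-(a / 2 * |t|))) *
          Real.exp (-(a / 2 * |t|)) := by rw [h3]; ring
      _ = _ := by rw [h4]; ring
  have h5 : ‖∫ t, f t‖ ≤ ∫ t, M * K * Real.exp (-(a / 2 * |t|)) :=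
    norm_integral_le_of_norm_le ((integrable_exp_abs (by positivity : 0 < a / 2)).const_mul _)
      (Eventually.of_forall h1)
  rw [integral_const_mul, integral_exp_abs (by positivity)] at h5
  refine h5.trans ?_
  have h6 : Real.exp (a / 2) ≤ Real.exp (A / 2) := Real.exp_le_exp.2 (by linarith)
  have h7 : (2 / a) ^ m = 2 ^ m * (1 / a) ^ m := by
    rw [← Real.mul_rpow (by norm_num) (by positivity)]; congr 1; ring
  have h8 : (1 / a) ^ (m + 1) = (1 / a) ^ m * (1 / a) := by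
    rw [Real.rpow_add (by positivity), Real.rpow_one]
  calc M * K * (2 / (a / 2)) = M * (⌈m⌉₊.factorial * Real.exp 1 * 2 ^ m * Real.exp (a / 2) * 4 *
        (1 / a) ^ (m + 1)) := by
        rw [hK, h7, h8]; field_simp; ring
    _ ≤ M * (⌈m⌉₊.factorial * Real.exp 1 * 2 ^ m * Real.exp (A / 2) * 4 *
        (1 / a) ^ (m + 1)) := by gcongr

end Pool.Agent.Lib.MP_bc6037_nt
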