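import Mathlib
import Pool.Agent.Lib.MP_bc6037_nt.SingBounds

set_option autoImplicit false

/-!
The Dirichlet series part of the transform.
-/

open Complex Filter Topology Set MeasureTheory Asymptotics

namespace Pool.Agent.Lib.MP_bc6037_nt

open DeltaMellin ZetaGrowth

/-- `d_k(n)` as a real number -/
noncomputable def dk (k n : ℕ) : ℝ := (((ArithmeticFunction.zeta ^ k : ArithmeticFunction ℕ) n : ℕ) : ℝ)

lemma dk_zero (k : ℕ) : dk k 0 = 0 := by simp [dk]

lemma dk_nonneg (k n : ℕ) : 0 ≤ dk k n := Nat.cast_nonneg _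

/-- `d_k(n) / n^2` -/
noncomputable def cc (k n : ℕ) : ℝ := dk k n / (n : ℝ) ^ 2

lemma cc_nonneg (k n : ℕ) : 0 ≤ cc k n := div_nonneg (dk_nonneg k n) (by positivity)

lemma cc_zero (k : ℕ) : cc k 0 = 0 := by simp [cc, dk_zero]

lemma series_zeta (k : ℕ) (t : ℝ) : HasSum (fun n : ℕ => (cc k n : ℂ) * cexp (I * Real.log n * t))
    (riemannZeta (2 - t * I) ^ k) := by
  have h := lseriesHasSum_pow k (s := 2 - t * I) (by simp)
  rw [LSeriesHasSum] at h
  have e : LSeries.term (fun n => (((ArithmeticFunction.zeta ^ k : ArithmeticFunction ℕ) n : ℕ) : ℂ))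
      (2 - t * I) = fun n : ℕ => (cc k n : ℂ) * cexp (I * Real.log n * t) := by
    funext n
    rcases Nat.eq_zero_or_pos n with hn | hn
    · subst hn; simp [cc_zero]
    · have hn0 : (n : ℂ) ≠ 0 := by exact_mod_cast hn.ne'
      rw [LSeries.term_of_ne_zero hn.ne', cpow_def_of_ne_zero hn0, cc, dk]
      have h1 : log (n : ℂ) * (2 - t * I) = Real.log n * 2 - I * Real.log n * t := by
        rw [natCast_log]; ring
      rw [h1, Complex.exp_sub]
      have h2 : cexp (Real.log n * 2) = (n : ℂ) ^ 2 := by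
        have : (Real.log n * 2 : ℂ) = ((2 : ℕ) : ℂ) * log (n : ℂ) := by
          rw [natCast_log]; push_cast; ring
        rw [this, Complex.exp_nat_mul, exp_log hn0]
      rw [h2]
      have h3 := Complex.exp_ne_zero (I * Real.log n * t)
      push_cast
      field_simp
  rwa [e] at h

lemma summable_cc (k : ℕ) : Summable (cc k) := by
  have h := (series_zeta k 0).summable.norm
  refine h.congr fun n => ?_
  simp [abs_of_nonneg (cc_nonneg k n)]

lemma norm_zeta_pow_le (k : ℕ) (t : ℝ) : ‖riemannZeta (2 - t * I) ^ k‖ ≤ ∑' n, cc k n := by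
  have h := series_zeta k t
  have h1 : ∀ n, ‖(cc k n : ℂ) * cexp (I * Real.log n * t)‖ = cc k n := by
    intro n
    have : (I * Real.log n * t : ℂ) = ((Real.log n * t : ℝ) : ℂ) * I := by push_cast; ring
    rw [norm_mul, this, Complex.norm_exp_ofReal_mul_I, norm_real, Real.norm_eq_abs,
      abs_of_nonneg (cc_nonneg k n), mul_one]
  rw [← h.tsum_eq]
  refine (norm_tsum_le_tsum_norm ?_).trans (le_of_eq ?_)
  · exact (summable_cc k).congr fun n => (h1 n).symm
  · congr 1; funext n; exact h1 n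

lemma main_hasSum (k : ℕ) {β : ℝ} (hβ : 0 ≤ β) {u : ℂ} (hu : 0 < u.re) :
    HasSum (fun n : ℕ => (cc k n : ℂ) * (cexp (-((β : ℂ) + 1) * log (u - I * Real.log n)) *
      Gamma ((β : ℂ) + 1)))
    (∫ t in Ioi (0 : ℝ), ((t ^ β : ℝ) : ℂ) * cexp (-(u * t)) * riemannZeta (2 - t * I) ^ k) := by
  have hre : ∀ n : ℕ, (u - I * Real.log n).re = u.re := by
    intro n; rw [sub_re, I_mul_re, ofReal_im]; simp
  have hb : 0 < ((β : ℂ) + 1).re := by simp; linarith
  have hcpow : ∀ t ∈ Ioi (0 : ℝ), (t : ℂ) ^ ((β : ℂ) + 1 - 1) = ((t ^ β : ℝ) : ℂ) := by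
    intro t ht
    rw [add_sub_cancel_right, ofReal_cpow (le_of_lt ht)]
  have hint : ∀ n : ℕ, IntegrableOn (fun t : ℝ => (cc k n : ℂ) *
      (((t ^ β : ℝ) : ℂ) * cexp (-((u - I * Real.log n) * t)))) (Ioi 0) := by
    intro n
    have h1 := integrableOn_cpow_exp (a := (β : ℂ) + 1) (r := u - I * Real.log n) hb
      (by rw [hre]; exact hu)
    refine Integrable.const_mul (h1.congr_fun (fun t ht => ?_) measurableSet_Ioi) _
    simp only
    rw [hcpow t ht]
  have hnorm : ∀ n : ℕ, ∫ t in Ioi (0 : ℝ), ‖(cc k n : ℂ) *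
      (((t ^ β : ℝ) : ℂ) * cexp (-((u - I * Real.log n) * t)))‖ =
      cc k n * ∫ t in Ioi (0 : ℝ), t ^ β * Real.exp (-(u.re * t)) := by
    intro n
    rw [← integral_const_mul]
    refine setIntegral_congr_fun measurableSet_Ioi (fun t ht => ?_)
    have ht' : 0 < t := ht
    rw [norm_mul, norm_mul, norm_real, norm_real, Real.norm_eq_abs, Real.norm_eq_abs,
      abs_of_nonneg (cc_nonneg k n), abs_of_pos (Real.rpow_pos_of_pos ht' _), Complex.norm_exp,
      neg_re, re_mul_ofReal, hre]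
  have key := hasSum_integral_of_summable_integral_norm hint
    (((summable_cc k).mul_right _).congr fun n => (hnorm n).symm)
  have e1 : ∀ t : ℝ, ∑' n : ℕ, (cc k n : ℂ) *
      (((t ^ β : ℝ) : ℂ) * cexp (-((u - I * Real.log n) * t))) =
      ((t ^ β : ℝ) : ℂ) * cexp (-(u * t)) * riemannZeta (2 - t * I) ^ k := by
    intro t
    rw [← (series_zeta k t).tsum_eq, ← tsum_mul_left]
    congr 1
    funext n
    have : cexp (-((u - I * Real.log n) * t)) = cexp (-(u * t)) * cexp (I * Real.log n * t) := by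
      rw [← Complex.exp_add]; congr 1; ring
    rw [this]; ring
  simp only [e1] at key
  have e2 : (fun n : ℕ => ∫ t in Ioi (0 : ℝ), (cc k n : ℂ) *
      (((t ^ β : ℝ) : ℂ) * cexp (-((u - I * Real.log n) * t)))) = fun n : ℕ =>
      (cc k n : ℂ) * (cexp (-((β : ℂ) + 1) * log (u - I * Real.log n)) *
      Gamma ((β : ℂ) + 1)) := by
    funext n
    rw [integral_const_mul]
    congr 1
    rw [← laplace_cpow hb (by rw [hre]; exact hu : 0 < (u - I * Real.log n).re)]
    refine setIntegral_congr_fun measurableSet_Ioi (fun t ht => ?_)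
    rw [hcpow t ht]
  rw [e2] at key
  exact key

end Pool.Agent.Lib.MP_bc6037_nt
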