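import Mathlib
import Pool.Agent.Lib.MP_bc6037_nt.SingSeries

set_option autoImplicit false

/-!
The bound `d_k(n) ≤ C n^η` for every `η > 0`.
-/

open Finset

namespace Pool.Agent.Lib.MP_bc6037_nt

/-- local factor bound -/
lemma local_factor {η : ℝ} (hη : 0 < η) (a : ℕ) :
    ((a : ℝ) + 1) ≤ max 1 (1 / (η * Real.log 2)) * ((2 : ℝ) ^ η) ^ a := by
  have hlog : 0 < Real.log 2 := Real.log_pos (by norm_num)
  have h1 : 1 + (a : ℝ) * (η * Real.log 2) ≤ ((2 : ℝ) ^ η) ^ a := by
    have h2 : ((2 : ℝ) ^ η) ^ a = Real.exp ((a : ℝ) * (η * Real.log 2)) := by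
      rw [Real.rpow_def_of_pos (by norm_num), ← Real.exp_nat_mul]
      congr 1; ring
    rw [h2]
    have := Real.add_one_le_exp ((a : ℝ) * (η * Real.log 2))
    linarith
  have hM1 : (1 : ℝ) ≤ max 1 (1 / (η * Real.log 2)) := le_max_left _ _
  have hM2 : 1 / (η * Real.log 2) ≤ max 1 (1 / (η * Real.log 2)) := le_max_right _ _
  set M := max 1 (1 / (η * Real.log 2))
  have h3 : 1 ≤ M * (η * Real.log 2) := by
    rw [div_le_iff₀ (by positivity)] at hM2; exact hM2
  have ha : (0 : ℝ) ≤ a := Nat.cast_nonneg a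
  calc (a : ℝ) + 1 ≤ M * (1 + (a : ℝ) * (η * Real.log 2)) := by
        nlinarith
    _ ≤ _ := by gcongr

theorem card_divisors_le_rpow {η : ℝ} (hη : 0 < η) :
    ∃ C : ℝ, 1 ≤ C ∧ ∀ n : ℕ, n ≠ 0 → (n.divisors.card : ℝ) ≤ C * (n : ℝ) ^ η := by
  set M := max 1 (1 / (η * Real.log 2)) with hM
  have hM1 : (1 : ℝ) ≤ M := le_max_left _ _
  set P0 : ℕ := ⌈(2 : ℝ) ^ (1 / η)⌉₊ with hP0
  refine ⟨M ^ (P0 + 1), one_le_pow₀ hM1, fun n hn => ?_⟩
  have e1 : (n : ℝ) ^ η = ∏ p ∈ n.primeFactors, ((p : ℝ) ^ η) ^ (n.factorization p) := by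
    have h1 : (n : ℝ) = ∏ p ∈ n.primeFactors, (p : ℝ) ^ (n.factorization p) := by
      have := Nat.prod_factorization_pow_eq_self hn
      conv_lhs => rw [← this]
      rw [Finsupp.prod, Nat.support_factorization]
      push_cast; rfl
    conv_lhs => rw [h1]
    rw [← Real.finsetProd_rpow _ _ (fun p _ => by positivity)]
    refine Finset.prod_congr rfl fun p _ => ?_
    rw [← Real.rpow_natCast, ← Real.rpow_natCast, ← Real.rpow_mul (by positivity),
      ← Real.rpow_mul (by positivity), mul_comm]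
  have e2 : (n.divisors.card : ℝ) = ∏ p ∈ n.primeFactors, ((n.factorization p : ℝ) + 1) := by
    rw [Nat.card_divisors hn]; push_cast; rfl
  have hle : ∀ p ∈ n.primeFactors, ((n.factorization p : ℝ) + 1) ≤
      (if p ∈ Finset.range (P0 + 1) then M else 1) * ((p : ℝ) ^ η) ^ (n.factorization p) := by
    intro p hp
    have hpp := Nat.prime_of_mem_primeFactors hp
    have hp2 : (2 : ℝ) ≤ p := by exact_mod_cast hpp.two_le
    by_cases hpr : p ∈ Finset.range (P0 + 1)
    · rw [if_pos hpr]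
      refine (local_factor hη _).trans ?_
      gcongr
    · rw [if_neg hpr, one_mul]
      have hpP : (2 : ℝ) ^ (1 / η) ≤ p := by
        have h1 : P0 + 1 ≤ p := by
          by_contra h; exact hpr (Finset.mem_range.2 (by omega))
        calc (2 : ℝ) ^ (1 / η) ≤ P0 := Nat.le_ceil _
          _ ≤ p := by exact_mod_cast (by omega : P0 ≤ p)
      have h2 : (2 : ℝ) ≤ (p : ℝ) ^ η := by
        calc (2 : ℝ) = ((2 : ℝ) ^ (1 / η)) ^ η := by
              rw [← Real.rpow_mul (by norm_num), one_div_mul_cancel hη.ne', Real.rpow_one]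
          _ ≤ _ := by gcongr
      calc ((n.factorization p : ℝ) + 1) ≤ (2 : ℝ) ^ (n.factorization p) := by
            have : n.factorization p + 1 ≤ 2 ^ (n.factorization p) := Nat.lt_two_pow_self
            exact_mod_cast this
        _ ≤ _ := by gcongr
  rw [e1, e2]
  refine (Finset.prod_le_prod (fun p _ => by positivity) hle).trans ?_
  rw [Finset.prod_mul_distrib]
  refine mul_le_mul_of_nonneg_right ?_ (Finset.prod_nonneg fun p _ => by positivity)
  rw [Finset.prod_ite, Finset.prod_const, Finset.prod_const_one, mul_one]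
  refine pow_le_pow_right₀ hM1 ?_
  calc #{x ∈ n.primeFactors | x ∈ Finset.range (P0 + 1)} ≤ #(Finset.range (P0 + 1)) :=
        Finset.card_le_card fun x hx => (Finset.mem_filter.1 hx).2
    _ = P0 + 1 := Finset.card_range _

/-- `d_k(n) ≤ d(n)^k` -/
lemma zk_le (k : ℕ) {n : ℕ} (hn : n ≠ 0) :
    (ArithmeticFunction.zeta ^ k : ArithmeticFunction ℕ) n ≤ n.divisors.card ^ k := by
  induction k generalizing n with
  | zero =>
    rw [pow_zero, pow_zero, ArithmeticFunction.one_apply]; split_ifs <;> omega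
  | succ k ih =>
    rw [pow_succ, ArithmeticFunction.mul_apply]
    calc ∑ x ∈ n.divisorsAntidiagonal, (ArithmeticFunction.zeta ^ k : ArithmeticFunction ℕ) x.1 *
          ArithmeticFunction.zeta x.2 ≤ ∑ x ∈ n.divisorsAntidiagonal, n.divisors.card ^ k := by
          refine Finset.sum_le_sum fun x hx => ?_
          have hx' := Nat.mem_divisorsAntidiagonal.1 hx
          have h1 : x.1 ≠ 0 := by rintro h; rw [h, zero_mul] at hx'; exact hx'.2 hx'.1.symm
          have h2 : x.2 ≠ 0 := by rintro h; rw [h, mul_zero] at hx'; exact hx'.2 hx'.1.symm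
          rw [ArithmeticFunction.zeta_apply_ne h2, mul_one]
          refine (ih h1).trans (Nat.pow_le_pow_left (Finset.card_le_card ?_) _)
          exact Nat.divisors_subset_of_dvd hn ⟨x.2, hx'.1.symm⟩
      _ = n.divisors.card ^ (k + 1) := by
          rw [Finset.sum_const, smul_eq_mul, pow_succ, mul_comm]
          congr 1
          rw [← Nat.map_div_right_divisors, Finset.card_map]

theorem dk_le_rpow (k : ℕ) {η : ℝ} (hη : 0 < η) :
    ∃ C : ℝ, 1 ≤ C ∧ ∀ n : ℕ, n ≠ 0 → dk k n ≤ C * (n : ℝ) ^ η := by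
  rcases Nat.eq_zero_or_pos k with hk | hk
  · subst hk
    refine ⟨1, le_rfl, fun n hn => ?_⟩
    have h1 : dk 0 n ≤ 1 := by
      have := zk_le 0 hn
      rw [pow_zero (n.divisors.card)] at this
      unfold dk; exact_mod_cast this
    have hn1 : (1 : ℝ) ≤ n := by exact_mod_cast Nat.one_le_iff_ne_zero.2 hn
    have := Real.one_le_rpow hn1 hη.le
    linarith
  · have hkp : (0 : ℝ) < k := by exact_mod_cast hk
    obtain ⟨C, hC1, hC⟩ := card_divisors_le_rpow (η := η / k) (by positivity)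
    refine ⟨C ^ k, one_le_pow₀ hC1, fun n hn => ?_⟩
    calc dk k n ≤ ((n.divisors.card : ℝ)) ^ k := by
          have := zk_le k hn
          unfold dk; exact_mod_cast this
      _ ≤ (C * (n : ℝ) ^ (η / k)) ^ k := by gcongr; exact hC n hn
      _ = C ^ k * (n : ℝ) ^ η := by
          rw [mul_pow, ← Real.rpow_natCast ((n : ℝ) ^ (η / k)), ← Real.rpow_mul (by positivity),
            div_mul_cancel₀ _ hkp.ne']

end Pool.Agent.Lib.MP_bc6037_nt
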