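import Mathlib
import Pool.Agent.Lib.MP_bc6037_nt.SingSeries

set_option autoImplicit false

/-!
Decomposition of the transform into the Dirichlet series part and an error term.
-/

open Complex Filter Topology Set MeasureTheory Asymptotics

namespace Pool.Agent.Lib.MP_bc6037_nt

open DeltaMellin ZetaGrowth

lemma DD_bound {k : ℕ} (hk : 1 ≤ k) : ∃ A : ℝ, 0 ≤ A ∧ ∀ t : ℝ, 0 < t →
    ‖EE k t - Cz k * ((t ^ bt k : ℝ) : ℂ)‖ ≤ A * (1 + t) ^ (bt k - 1) := by
  have hkr : (1 : ℝ) ≤ k := by exact_mod_cast hk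
  have hbt : 1 ≤ bt k := by rw [bt]; linarith
  obtain ⟨C, hC⟩ := (EE_asymp hk).bound
  obtain ⟨T, hT⟩ := eventually_atTop.1 hC
  obtain ⟨C₁, hC10, hC1⟩ := EE_bound hk
  set T' := max T 1 with hT'
  have hT1 : 1 ≤ T' := le_max_right _ _
  refine ⟨|C| + (C₁ * (1 + T') ^ (3 * k) + ‖Cz k‖ * T' ^ bt k), by positivity, fun t ht => ?_⟩
  have hone : (1 : ℝ) ≤ (1 + t) ^ (bt k - 1) := Real.one_le_rpow (by linarith) (by linarith)
  rcases le_or_gt T' t with h | h
  · have h1 := hT t ((le_max_left _ _).trans h)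
    have h2 : t ^ (bt k - 1) ≤ (1 + t) ^ (bt k - 1) :=
      Real.rpow_le_rpow ht.le (by linarith) (by linarith)
    rw [Real.norm_eq_abs, abs_of_pos (Real.rpow_pos_of_pos ht _)] at h1
    calc ‖EE k t - Cz k * ((t ^ bt k : ℝ) : ℂ)‖ ≤ C * t ^ (bt k - 1) := h1
      _ ≤ |C| * (1 + t) ^ (bt k - 1) := by
        have := Real.rpow_pos_of_pos ht (bt k - 1)
        gcongr
        exact le_abs_self C
      _ ≤ _ := by
        gcongr
        have : 0 ≤ C₁ * (1 + T') ^ (3 * k) + ‖Cz k‖ * T' ^ bt k := by positivity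
        linarith
  · have h1 : ‖EE k t‖ ≤ C₁ * (1 + T') ^ (3 * k) := by
      refine (hC1 t).trans ?_
      have h2 : wt k t = 1 := by
        rw [wt, abs_of_pos ht, ← Real.exp_add]; simp
      rw [h2, mul_one, abs_of_pos ht]
      gcongr
    have h2 : ‖Cz k * ((t ^ bt k : ℝ) : ℂ)‖ ≤ ‖Cz k‖ * T' ^ bt k := by
      rw [norm_mul, norm_real, Real.norm_eq_abs, abs_of_pos (Real.rpow_pos_of_pos ht _)]
      gcongr
    have h3 := (norm_sub_le (EE k t) (Cz k * ((t ^ bt k : ℝ) : ℂ))).trans (add_le_add h1 h2)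
    have h4 : 0 ≤ C₁ * (1 + T') ^ (3 * k) + ‖Cz k‖ * T' ^ bt k := by positivity
    have h5 := abs_nonneg C
    nlinarith

/-- `log(z / (2 π i k))` -/
noncomputable def ell (k : ℕ) (z : ℂ) : ℂ := log z - L0 k

lemma ell_re {k : ℕ} (z : ℂ) : (ell k z).re = Real.log ‖z‖ - Real.log (2 * Real.pi * k) := by
  rw [ell, sub_re, log_re, L0]
  have : (Real.log (2 * Real.pi * k) + Real.pi / 2 * I : ℂ) =
      ((Real.log (2 * Real.pi * k) : ℝ) : ℂ) + ((Real.pi / 2 : ℝ) : ℂ) * I := by push_cast; rfl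
  rw [this]
  simp only [add_re, ofReal_re, re_ofReal_mul, I_re, mul_zero, add_zero]

lemma ell_im {k : ℕ} (z : ℂ) : (ell k z).im = arg z - Real.pi / 2 := by
  rw [ell, sub_im, log_im, L0]
  have : (Real.log (2 * Real.pi * k) + Real.pi / 2 * I : ℂ) =
      ((Real.log (2 * Real.pi * k) : ℝ) : ℂ) + ((Real.pi / 2 : ℝ) : ℂ) * I := by push_cast; rfl
  rw [this]
  simp only [add_im, ofReal_im, im_ofReal_mul, I_im, mul_one, zero_add]

lemma norm_expell {k : ℕ} (hk : 1 ≤ k) {z : ℂ} (hz : z ≠ 0) (t : ℝ) :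
    ‖cexp (-(k * (1 + t * I)) * ell k z)‖ = (2 * Real.pi * k / ‖z‖) ^ k *
      Real.exp (-(k * (Real.pi / 2 - arg z) * t)) := by
  have hkp : (0 : ℝ) < k := by exact_mod_cast hk
  have hzn : 0 < ‖z‖ := norm_pos_iff.2 hz
  have h0 : 0 < 2 * Real.pi * k := by positivity
  have h1 : (2 * Real.pi * k / ‖z‖) ^ k =
      Real.exp (-(k * (Real.log ‖z‖ - Real.log (2 * Real.pi * k)))) := by
    have : -(k * (Real.log ‖z‖ - Real.log (2 * Real.pi * k))) =
        k * Real.log (2 * Real.pi * k / ‖z‖) := by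
      rw [Real.log_div h0.ne' hzn.ne']; ring
    rw [this, Real.exp_nat_mul, Real.exp_log (by positivity)]
  rw [Complex.norm_exp, h1, ← Real.exp_add]
  congr 1
  have e1 : (-(k * (1 + t * I)) : ℂ) = ((-(k : ℝ) : ℝ) : ℂ) + ((-(k * t) : ℝ) : ℂ) * I := by
    push_cast; ring
  rw [e1, mul_re, ell_re, ell_im]
  simp
  ring

/-- the regular part on the line `Re s = -1` -/
noncomputable def Rt (k : ℕ) (P : Polynomial ℝ) (t : ℝ) : ℂ :=
  -Q P (-1 + t * I) - w0 k / (-1 + t * I)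

lemma line_ne_one (t : ℝ) : (-1 + t * I : ℂ) ≠ 1 := by
  intro h; have := congrArg re h; simp at this; norm_num at this

lemma line_ne_zero (t : ℝ) : (-1 + t * I : ℂ) ≠ 0 := by
  intro h; have := congrArg re h; simp at this

lemma Rt_bound (k : ℕ) (P : Polynomial ℝ) : ∃ C : ℝ, 0 ≤ C ∧ ∀ t : ℝ, ‖Rt k P t‖ ≤ C := by
  refine ⟨(∑ j ∈ P.support, |P.coeff j| * (j.factorial : ℝ)) + |w0 k|, by positivity, fun t => ?_⟩
  have h1 : 1 ≤ ‖(-1 + t * I : ℂ)‖ := by
    have := abs_re_le_norm (-1 + t * I : ℂ)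
    simpa using this
  have h2 : 1 ≤ ‖(-1 + t * I - 1 : ℂ)‖ := by
    have := abs_re_le_norm (-1 + t * I - 1 : ℂ)
    simp at this
    norm_num at this
    linarith
  unfold Rt
  refine (norm_sub_le _ _).trans (add_le_add ?_ ?_)
  · rw [norm_neg, Q]
    refine (norm_sum_le _ _).trans (Finset.sum_le_sum fun j _ => ?_)
    rw [norm_mul, norm_real, Real.norm_eq_abs, norm_div, norm_pow, Complex.norm_natCast]
    gcongr
    exact div_le_self (by positivity) (one_le_pow₀ h2)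
  · rw [norm_div, norm_real, Real.norm_eq_abs]
    exact div_le_self (abs_nonneg _) h1

lemma Rt_continuous (k : ℕ) (P : Polynomial ℝ) : Continuous (Rt k P) := by
  unfold Rt
  have h0 : Continuous fun t : ℝ => (-1 + t * I : ℂ) := by fun_prop
  refine Continuous.sub (Continuous.neg ?_) (continuous_const.div h0 line_ne_zero)
  refine continuous_iff_continuousAt.2 fun t => ?_
  exact (MainPoly.differentiableAt_Q P (line_ne_one t)).continuousAt.comp
    (f := fun t : ℝ => (-1 + t * I : ℂ)) h0.continuousAt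

/-- main integrand -/
noncomputable def EEz (k : ℕ) (z : ℂ) (t : ℝ) : ℂ :=
  EE k t * cexp (-(k * (1 + t * I)) * ell k z) * riemannZeta (2 - t * I) ^ k

lemma KZ_split {k : ℕ} {P : Polynomial ℝ} {Z : ℂ → ℂ}
    (hZ' : ∀ s : ℂ, 0 < s.re → s ≠ 1 → Z s = riemannZeta s ^ k / s - Q P s) (z : ℂ) (t : ℝ) :
    KZ k z (-1 + t * I) * Zt k P Z (-1 + t * I) = EEz k z t + KZ k z (-1 + t * I) * Rt k P t := by
  rw [Zt_eq hZ' (line_ne_one t) (line_ne_zero t), zeta_eq_X0, Rt, EEz, EE, KZ]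
  have e0 : (-1 + t * I + 2 : ℂ) = 1 + t * I := by ring
  have e1 : cexp (-(k * (1 + t * I)) * log z) =
      cexp (-(k * (1 + t * I)) * L0 k) * cexp (-(k * (1 + t * I)) * ell k z) := by
    rw [← Complex.exp_add, ell]; congr 1; ring
  rw [e0, e1, mul_pow]
  ring

/-- the Dirichlet series part -/
noncomputable def Mn (k : ℕ) (z : ℂ) : ℂ := Cz k * cexp (-(k * ell k z)) *
  ∫ t in Ioi (0 : ℝ), ((t ^ bt k : ℝ) : ℂ) * cexp (-(I * k * ell k z * t)) *
    riemannZeta (2 - t * I) ^ k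

lemma zeta_line_continuous (k : ℕ) : Continuous fun t : ℝ => riemannZeta (2 - t * I) ^ k := by
  refine Continuous.pow ?_ k
  refine continuous_iff_continuousAt.2 fun t => ?_
  have h0 : Continuous fun t : ℝ => (2 - t * I : ℂ) := by fun_prop
  exact (differentiableAt_riemannZeta (s := 2 - t * I) (by
    intro h; have := congrArg re h; simp at this)).continuousAt.comp
    (f := fun t : ℝ => (2 - t * I : ℂ)) h0.continuousAt

lemma u_re {k : ℕ} (z : ℂ) : (I * k * ell k z).re = k * (Real.pi / 2 - arg z) := by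
  have : (I * k * ell k z : ℂ) = I * (((k : ℝ) : ℂ) * ell k z) := by push_cast; ring
  rw [this, I_mul_re, im_ofReal_mul, ell_im]; ring

lemma main_integrable {k : ℕ} (hk : 1 ≤ k) {u : ℂ} (hu : 0 < u.re) : IntegrableOn
    (fun t : ℝ => ((t ^ bt k : ℝ) : ℂ) * cexp (-(u * t)) * riemannZeta (2 - t * I) ^ k) (Ioi 0) := by
  have hkr : (1 : ℝ) ≤ k := by exact_mod_cast hk
  have hbt : 1 ≤ bt k := by rw [bt]; linarith
  have h := (integrableOn_rpow_exp (a := bt k + 1) (r := u.re) (by linarith) hu).const_mul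
    (∑' n, cc k n)
  refine h.mono' ?_ ?_
  · refine Measurable.aestronglyMeasurable ?_
    refine (Measurable.mul ?_ (by fun_prop)).mul (zeta_line_continuous k).measurable
    exact measurable_ofReal.comp (measurable_id.pow_const _)
  · filter_upwards [ae_restrict_mem measurableSet_Ioi] with t ht
    have ht' : 0 < t := ht
    rw [norm_mul, norm_mul, norm_real, Real.norm_eq_abs, abs_of_pos (Real.rpow_pos_of_pos ht' _),
      Complex.norm_exp, neg_re, re_mul_ofReal, add_sub_cancel_right]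
    have h1 := norm_zeta_pow_le k t
    have h2 := Real.rpow_pos_of_pos ht' (bt k)
    calc t ^ bt k * Real.exp (-(u.re * t)) * ‖riemannZeta (2 - t * I) ^ k‖
        ≤ t ^ bt k * Real.exp (-(u.re * t)) * ∑' n, cc k n := by gcongr
      _ = _ := by ring

lemma quad_arg {z : ℂ} (h1 : 0 < z.re) (h2 : 0 ≤ z.im) : 0 ≤ arg z ∧ arg z < Real.pi / 2 :=
  ⟨arg_nonneg_iff.2 h2, (abs_lt.1 (abs_arg_lt h1)).2⟩

/-- **decomposition with error term** -/
theorem KEY0 {k : ℕ} (hk : 2 ≤ k) {P : Polynomial ℝ} {Z : ℂ → ℂ}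
    (hZ : DifferentiableOn ℂ Z {s : ℂ | 0 < s.re})
    (hZ' : ∀ s : ℂ, 0 < s.re → s ≠ 1 → Z s = riemannZeta s ^ k / s - Q P s) :
    ∃ C : ℝ, 0 ≤ C ∧ ∀ z : ℂ, 0 < z.re → 0 ≤ z.im →
      ‖2 * Real.pi * Ig k (fun x => Err k P x - w0 k) z - Mn k z‖ ≤
        C * (1 / ‖z‖) ^ k * (‖z‖ / z.re) ^ bt k := by
  have hk1 : 1 ≤ k := by omega
  have hkp : (0 : ℝ) < k := by exact_mod_cast (by omega : 0 < k)
  have hkr : (1 : ℝ) ≤ k := by exact_mod_cast hk1
  have hkr2 : (2 : ℝ) ≤ k := by exact_mod_cast hk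
  have hbt : 1 ≤ bt k := by rw [bt]; linarith
  obtain ⟨A, hA0, hA⟩ := DD_bound hk1
  obtain ⟨C₁, hC10, hC1⟩ := EE_bound hk1
  obtain ⟨R, hR0, hR⟩ := Rt_bound k P
  obtain ⟨B, hB0, hB⟩ := Zt_bound hZ hZ'
  obtain ⟨C₂, hC20, hC2⟩ := weight_int' (m := bt k - 1) (by linarith) (k * (Real.pi / 2))
  obtain ⟨C₃, hC30, hC3⟩ := weight_int (3 * k) (k * (Real.pi / 2))
  obtain ⟨C₄, hC40, hC4⟩ := KZ_int_bound hk1 0
  set S := ∑' n, cc k n with hS
  have hS0 : 0 ≤ S := tsum_nonneg (cc_nonneg k)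
  set W := (2 * Real.pi * k) ^ k with hW
  have hW0 : 0 ≤ W := by positivity
  refine ⟨A * W * S * C₂ + C₁ * W * S * (C₃ * (1 / (k * (Real.pi / 2))) ^ (3 * k + 1)) + R * C₄,
    by positivity, fun z hz hzi => ?_⟩
  have hz0 : z ≠ 0 := by rintro rfl; simp at hz
  have hzn : 0 < ‖z‖ := norm_pos_iff.2 hz0
  obtain ⟨ha1, ha2⟩ := quad_arg hz hzi
  set ρ := k * (Real.pi / 2 - arg z) with hρ
  have hρ0 : 0 < ρ := mul_pos hkp (by linarith)
  have hρk : ρ ≤ k * (Real.pi / 2) := by rw [hρ]; gcongr; linarith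
  have hgap := arg_gap hz
  rw [abs_of_nonneg ha1] at hgap
  have hq : 0 < z.re / ‖z‖ := by positivity
  have hρq : 1 / ρ ≤ ‖z‖ / z.re := by
    rw [div_le_iff₀ hρ0]
    calc (1 : ℝ) = ‖z‖ / z.re * (z.re / ‖z‖) := by field_simp
      _ ≤ ‖z‖ / z.re * ρ := by
        gcongr
        rw [hρ]
        have : 0 ≤ Real.pi / 2 - arg z := by linarith
        nlinarith
  have hone : 1 ≤ ‖z‖ / z.re := by
    rw [le_div_iff₀ hz, one_mul]; exact re_le_norm z
  set E := (2 * Real.pi * k / ‖z‖) ^ k with hE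
  have hEW : E = W * (1 / ‖z‖) ^ k := by
    rw [hE, hW, ← mul_pow, mul_one_div]
  have hE0 : 0 ≤ E := by positivity
  have hne := norm_expell hk1 hz0
  -- integrability
  have hI1 : Integrable fun t : ℝ => KZ k z (-1 + t * I) * Zt k P Z (-1 + t * I) := by
    refine KZ_mul_integrable hk1 (3 * k) hz (M := B) ?_ ?_
    · refine Continuous.aestronglyMeasurable ?_
      exact (Zt_differentiable hZ hZ').continuous.comp (by fun_prop)
    · intro t
      have := hB (-1 + t * I) (by simp) (by simp; norm_num)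
      simpa using this
  have hI2 : Integrable fun t : ℝ => KZ k z (-1 + t * I) * Rt k P t :=
    KZ_mul_integrable hk1 0 hz (M := R) (Rt_continuous k P).aestronglyMeasurable
      (fun t => by simpa using hR t)
  have hI3 : Integrable (EEz k z) := by
    refine (hI1.sub hI2).congr (Eventually.of_forall fun t => ?_)
    simp only [Pi.sub_apply]
    rw [KZ_split hZ' z t]; ring
  have hu := u_re (k := k) z
  have hu0 : 0 < (I * k * ell k z).re := by rw [hu]; exact hρ0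
  set u := I * k * ell k z with hudef
  have hI4 := main_integrable hk1 hu0
  have hexp : ∀ t : ℝ, cexp (-(k * (1 + t * I)) * ell k z) = cexp (-(k * ell k z)) * cexp (-(u * t)) := by
    intro t; rw [← Complex.exp_add, hudef]; congr 1; ring
  set G : ℝ → ℂ := fun t => Cz k * cexp (-(k * ell k z)) *
    (((t ^ bt k : ℝ) : ℂ) * cexp (-(u * t)) * riemannZeta (2 - t * I) ^ k) with hG
  have hI5 : IntegrableOn G (Ioi 0) := hI4.const_mul _
  have hMn : Mn k z = ∫ t in Ioi (0 : ℝ), G t := by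
    rw [hG, integral_const_mul]; rfl
  -- the three error terms
  have hdecomp : 2 * Real.pi * Ig k (fun x => Err k P x - w0 k) z - Mn k z =
      (∫ t, (Ioi (0 : ℝ)).indicator (fun t => EEz k z t - G t) t) +
      (∫ t, (Iic (0 : ℝ)).indicator (EEz k z) t) + ∫ t : ℝ, KZ k z (-1 + t * I) * Rt k P t := by
    have h2pi : (2 * Real.pi : ℂ) ≠ 0 := by
      exact_mod_cast (by positivity : (2 * Real.pi : ℝ) ≠ 0)
    rw [Ig_eq hk1 hZ hZ' hz, ← mul_assoc, mul_one_div_cancel h2pi, one_mul,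
      integral_indicator measurableSet_Ioi, integral_indicator measurableSet_Iic,
      integral_sub hI3.integrableOn hI5, hMn]
    have e1 : ∫ t : ℝ, KZ k z (-1 + t * I) * Zt k P Z (-1 + t * I) =
        (∫ t, EEz k z t) + ∫ t : ℝ, KZ k z (-1 + t * I) * Rt k P t := by
      rw [← integral_add hI3 hI2]
      congr 1
      funext t
      exact KZ_split hZ' z t
    have e2 : (∫ t, EEz k z t) = (∫ t in Iic (0 : ℝ), EEz k z t) + ∫ t in Ioi (0 : ℝ), EEz k z t :=
      (intervalIntegral.integral_Iic_add_Ioi hI3.integrableOn hI3.integrableOn).symm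
    rw [e1, e2]
    ring
  have hT1 : ‖∫ t, (Ioi (0 : ℝ)).indicator (fun t => EEz k z t - G t) t‖ ≤
      A * E * S * (C₂ * (1 / ρ) ^ (bt k - 1 + 1)) := by
    refine hC2 ρ hρ0 hρk _ _ fun t => ?_
    by_cases ht : t ∈ Ioi (0 : ℝ)
    · have ht' : 0 < t := ht
      rw [indicator_of_mem ht]
      have e1 : EEz k z t - G t = (EE k t - Cz k * ((t ^ bt k : ℝ) : ℂ)) *
          cexp (-(k * (1 + t * I)) * ell k z) * riemannZeta (2 - t * I) ^ k := by
        rw [hG, EEz, hexp]; ring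
      rw [e1, norm_mul, norm_mul, hne, abs_of_pos ht']
      calc ‖EE k t - Cz k * ((t ^ bt k : ℝ) : ℂ)‖ * (E * Real.exp (-(ρ * t))) *
            ‖riemannZeta (2 - t * I) ^ k‖
          ≤ (A * (1 + t) ^ (bt k - 1)) * (E * Real.exp (-(ρ * t))) * S := by
            gcongr
            · exact hA t ht'
            · exact norm_zeta_pow_le k t
        _ = _ := by ring
    · rw [indicator_of_notMem ht, norm_zero]; positivity
  have hT2 : ‖∫ t, (Iic (0 : ℝ)).indicator (EEz k z) t‖ ≤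
      C₁ * E * S * (C₃ * (1 / (k * (Real.pi / 2))) ^ (3 * k + 1)) := by
    refine hC3 _ (by positivity) le_rfl _ _ fun t => ?_
    by_cases ht : t ∈ Iic (0 : ℝ)
    · have ht' : t ≤ 0 := ht
      rw [indicator_of_mem ht, EEz, norm_mul, norm_mul, hne]
      have h1 : wt k t * Real.exp (-(ρ * t)) ≤ Real.exp (-(k * (Real.pi / 2) * |t|)) := by
        rw [wt, ← Real.exp_add, ← Real.exp_add]
        apply Real.exp_le_exp.2
        rw [abs_of_nonpos ht']
        have : 0 ≤ (k * (Real.pi / 2) - ρ) * (-t) := mul_nonneg (by linarith) (by linarith)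
        nlinarith
      have hwt : 0 ≤ wt k t := by unfold wt; positivity
      calc ‖EE k t‖ * (E * Real.exp (-(ρ * t))) * ‖riemannZeta (2 - t * I) ^ k‖
          ≤ (C₁ * (1 + |t|) ^ (3 * k) * wt k t) * (E * Real.exp (-(ρ * t))) * S := by
            gcongr
            · exact hC1 t
            · exact norm_zeta_pow_le k t
        _ = C₁ * E * S * (1 + |t|) ^ (3 * k) * (wt k t * Real.exp (-(ρ * t))) := by ring
        _ ≤ C₁ * E * S * (1 + |t|) ^ (3 * k) * Real.exp (-(k * (Real.pi / 2) * |t|)) := by gcongr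
    · rw [indicator_of_notMem ht, norm_zero]; positivity
  have hT3 : ‖∫ t : ℝ, KZ k z (-1 + t * I) * Rt k P t‖ ≤
      R * (C₄ * (1 / ‖z‖) ^ k * (‖z‖ / z.re) ^ (k + 0 + 1)) :=
    hC4 z hz _ R hR0 (fun t => by simpa using hR t)
  rw [hdecomp]
  have he1 : (1 / ρ) ^ (bt k - 1 + 1) ≤ (‖z‖ / z.re) ^ bt k := by
    rw [sub_add_cancel]
    gcongr
  have he2 : (1 : ℝ) ≤ (‖z‖ / z.re) ^ bt k := Real.one_le_rpow hone (by linarith)
  have he3 : (‖z‖ / z.re) ^ (k + 0 + 1) ≤ (‖z‖ / z.re) ^ bt k := by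
    rw [← Real.rpow_natCast]
    apply Real.rpow_le_rpow_of_exponent_le hone
    rw [bt]; push_cast; linarith
  set X := (‖z‖ / z.re) ^ bt k with hX
  calc _ ≤ A * E * S * (C₂ * (1 / ρ) ^ (bt k - 1 + 1)) +
        C₁ * E * S * (C₃ * (1 / (k * (Real.pi / 2))) ^ (3 * k + 1)) +
        R * (C₄ * (1 / ‖z‖) ^ k * (‖z‖ / z.re) ^ (k + 0 + 1)) :=
        (norm_add_le _ _).trans (add_le_add ((norm_add_le _ _).trans (add_le_add hT1 hT2)) hT3)
    _ ≤ A * E * S * (C₂ * X) + C₁ * E * S * (C₃ * (1 / (k * (Real.pi / 2))) ^ (3 * k + 1)) * X +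
        R * (C₄ * (1 / ‖z‖) ^ k * X) := by
        refine add_le_add (add_le_add ?_ (le_mul_of_one_le_right (by positivity) he2)) ?_
        · gcongr
        · gcongr
    _ = _ := by rw [hEW]; ring

end Pool.Agent.Lib.MP_bc6037_nt
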