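import Mathlib
import Pool.Agent.Lib.MP_bc6037_nt.SingSplit

set_option autoImplicit false

/-!
The singularities of the transform at `2 π i k n^{1/k}`.
-/

open Complex Filter Topology Set MeasureTheory Asymptotics

namespace Pool.Agent.Lib.MP_bc6037_nt

open DeltaMellin ZetaGrowth

/-- the frequency `2 π k n^{1/k}` -/
noncomputable def om' (k n : ℕ) : ℝ := 2 * Real.pi * k * (n : ℝ) ^ (1 / k : ℝ)

/-- the singularity `2 π i k n^{1/k}` -/
noncomputable def zn (k n : ℕ) : ℂ := (om' k n : ℂ) * I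

/-- the coefficient at the singularity -/
noncomputable def An (k n : ℕ) : ℂ :=
  ((√k / (2 * Real.pi) * dk k n * (n : ℝ) ^ (-((k + 1) / (2 * k)) : ℝ) * Real.Gamma (bt k + 1) : ℝ) : ℂ) *
    cexp (Real.pi * ((k : ℂ) - 3) / 4 * I)

lemma om'_pos {k n : ℕ} (hk : 1 ≤ k) (hn : 1 ≤ n) : 0 < om' k n := by
  have hkp : (0 : ℝ) < k := by exact_mod_cast hk
  have hnp : (0 : ℝ) < n := by exact_mod_cast hn
  unfold om'
  positivity

lemma zn_ne {k n : ℕ} (hk : 1 ≤ k) (hn : 1 ≤ n) : zn k n ≠ 0 :=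
  mul_ne_zero (by exact_mod_cast (om'_pos hk hn).ne') I_ne_zero

lemma zn_re (k n : ℕ) : (zn k n).re = 0 := by simp [zn]

lemma zn_im (k n : ℕ) : (zn k n).im = om' k n := by simp [zn]

lemma zn_slit {k n : ℕ} (hk : 1 ≤ k) (hn : 1 ≤ n) : zn k n ∈ slitPlane := by
  right; rw [zn_im]; exact (om'_pos hk hn).ne'

lemma log_zn {k n : ℕ} (hk : 1 ≤ k) (hn : 1 ≤ n) :
    log (zn k n) = L0 k + Real.log n / k := by
  have hkp : (0 : ℝ) < k := by exact_mod_cast hk
  have hnp : (0 : ℝ) < n := by exact_mod_cast hn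
  rw [zn, log_ofReal_mul (om'_pos hk hn) I_ne_zero, log_I, om', L0,
    Real.log_mul (by positivity) (by positivity), Real.log_rpow hnp]
  push_cast
  ring

lemma norm_exp_neg_mul_log {b : ℝ} {w : ℂ} (hw : w ≠ 0) :
    ‖cexp (-(b : ℂ) * log w)‖ = ‖w‖ ^ (-b) := by
  rw [Complex.norm_exp, Real.rpow_def_of_pos (norm_pos_iff.2 hw)]
  congr 1
  rw [← ofReal_neg, re_ofReal_mul, log_re]
  ring

lemma log_gap {m n : ℕ} (hm : 1 ≤ m) (hn : 1 ≤ n) (h : m ≠ n) :
    1 / ((n : ℝ) + 1) ≤ |Real.log m - Real.log n| := by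
  have hmp : (0 : ℝ) < m := by exact_mod_cast hm
  have hnp : (0 : ℝ) < n := by exact_mod_cast hn
  rcases lt_or_gt_of_ne h with h1 | h1
  · have h2 : (m : ℝ) + 1 ≤ n := by exact_mod_cast h1
    have h3 := Real.one_sub_inv_le_log_of_pos (x := (n : ℝ) / m) (by positivity)
    rw [Real.log_div hnp.ne' hmp.ne', inv_div] at h3
    rw [abs_sub_comm]
    refine le_trans ?_ (h3.trans (le_abs_self _))
    have h4 : (m : ℝ) / n ≤ (n - 1) / n := by gcongr; linarith
    have h5 : 1 / ((n : ℝ) + 1) ≤ 1 / n := by gcongr; linarith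
    have h6 : ((n : ℝ) - 1) / n = 1 - 1 / n := by field_simp
    linarith
  · have h2 : (n : ℝ) + 1 ≤ m := by exact_mod_cast h1
    have h3 := Real.one_sub_inv_le_log_of_pos (x := (m : ℝ) / n) (by positivity)
    rw [Real.log_div hmp.ne' hnp.ne', inv_div] at h3
    refine le_trans ?_ (h3.trans (le_abs_self _))
    have h4 : (n : ℝ) / m ≤ n / (n + 1) := by gcongr
    have h6 : (n : ℝ) / (n + 1) = 1 - 1 / (n + 1) := by field_simp; ring
    linarith

/-- the Dirichlet series without its `n`-th term is bounded near the `n`-th singularity -/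
lemma series_rest (k : ℕ) {n : ℕ} (hn : 1 ≤ n) {β : ℝ} (hβ : 0 ≤ β) {u : ℂ} (hu : 0 < u.re)
    (hun : ‖u - I * Real.log n‖ ≤ 1 / (2 * ((n : ℝ) + 1))) :
    ‖(∫ t in Ioi (0 : ℝ), ((t ^ β : ℝ) : ℂ) * cexp (-(u * t)) * riemannZeta (2 - t * I) ^ k) -
      (cc k n : ℂ) * (cexp (-((β : ℂ) + 1) * log (u - I * Real.log n)) * Gamma ((β : ℂ) + 1))‖ ≤
      (∑' m, cc k m) * ((2 * ((n : ℝ) + 1)) ^ (β + 1) * ‖Gamma ((β : ℂ) + 1)‖) := by
  have hnp : (0 : ℝ) < n := by exact_mod_cast hn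
  set f : ℕ → ℂ := fun m => (cc k m : ℂ) * (cexp (-((β : ℂ) + 1) * log (u - I * Real.log m)) *
      Gamma ((β : ℂ) + 1)) with hf
  have h1 : HasSum f _ := main_hasSum k hβ hu
  have h2 := h1.sub (hasSum_ite_eq n (f n))
  have h3 : (cc k n : ℂ) * (cexp (-((β : ℂ) + 1) * log (u - I * Real.log n)) *
    Gamma ((β : ℂ) + 1)) = f n := rfl
  rw [h3, ← h2.tsum_eq, ← tsum_mul_right]
  refine tsum_of_norm_bounded ((summable_cc k).mul_right _).hasSum fun m => ?_
  have hK : 0 ≤ (2 * ((n : ℝ) + 1)) ^ (β + 1) * ‖Gamma ((β : ℂ) + 1)‖ := by positivity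
  by_cases hmn : m = n
  · subst hmn
    simp only [if_true, sub_self, norm_zero]
    exact mul_nonneg (cc_nonneg k m) hK
  · rw [if_neg hmn, sub_zero, hf]
    simp only
    rw [norm_mul, norm_real, Real.norm_eq_abs, abs_of_nonneg (cc_nonneg k m), norm_mul]
    rcases Nat.eq_zero_or_pos m with hm | hm
    · subst hm; rw [cc_zero]; simp
    · have hne : u - I * Real.log m ≠ 0 := by
        intro h
        have := congrArg re h
        rw [sub_re, I_mul_re, ofReal_im, neg_zero, sub_zero, zero_re] at this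
        linarith
      have h5 : 1 / (2 * ((n : ℝ) + 1)) ≤ ‖u - I * Real.log m‖ := by
        have h6 := log_gap hm hn hmn
        have h7 : |Real.log m - Real.log n| ≤ ‖u - I * Real.log m‖ + ‖u - I * Real.log n‖ := by
          have h8 : ((Real.log m - Real.log n : ℝ) : ℂ) * I =
              (u - I * Real.log n) - (u - I * Real.log m) := by push_cast; ring
          have h9 : |Real.log m - Real.log n| = ‖((Real.log m - Real.log n : ℝ) : ℂ) * I‖ := by
            rw [norm_mul, norm_I, mul_one, norm_real, Real.norm_eq_abs]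
          rw [h9, h8, add_comm]
          exact norm_sub_le _ _
        have h10 : 1 / ((n : ℝ) + 1) = 1 / (2 * ((n : ℝ) + 1)) + 1 / (2 * ((n : ℝ) + 1)) := by
          field_simp; norm_num
        linarith
      have h11 : ‖cexp (-((β : ℂ) + 1) * log (u - I * Real.log m))‖ ≤
          (2 * ((n : ℝ) + 1)) ^ (β + 1) := by
        have e1 : (-((β : ℂ) + 1)) = -((β + 1 : ℝ) : ℂ) := by push_cast; ring
        rw [e1, norm_exp_neg_mul_log hne, Real.rpow_neg (norm_nonneg _),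
          ← Real.inv_rpow (norm_nonneg _)]
        apply Real.rpow_le_rpow (by positivity) _ (by linarith)
        rw [inv_le_comm₀ (norm_pos_iff.2 hne) (by positivity), ← one_div]
        exact h5
      have := cc_nonneg k m
      gcongr

/-- the analytic factor at the `n`-th singularity -/
noncomputable def hn' (k n : ℕ) (z : ℂ) : ℂ :=
  Cz k * cexp (-(k * ell k z)) * ((cc k n : ℂ) *
    (cexp (-((bt k : ℂ) + 1) * log (I * k * dslope log (zn k n) z)) * Gamma ((bt k : ℂ) + 1)))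

lemma dslope_log_zn {k n : ℕ} (hk : 1 ≤ k) (hn : 1 ≤ n) :
    I * k * dslope log (zn k n) (zn k n) = ((2 * Real.pi * (n : ℝ) ^ (1 / k : ℝ) : ℝ) : ℂ)⁻¹ := by
  have hkp : (0 : ℝ) < k := by exact_mod_cast hk
  have hk0 : (k : ℂ) ≠ 0 := by exact_mod_cast hkp.ne'
  have hnp : (0 : ℝ) < n := by exact_mod_cast hn
  have h1 : (0 : ℝ) < 2 * Real.pi * (n : ℝ) ^ (1 / k : ℝ) := by positivity
  have h1' : ((2 * Real.pi * (n : ℝ) ^ (1 / k : ℝ) : ℝ) : ℂ) ≠ 0 := by exact_mod_cast h1.ne'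
  rw [dslope_same, (hasDerivAt_log (zn_slit hk hn)).deriv]
  have h2 : zn k n = k * ((2 * Real.pi * (n : ℝ) ^ (1 / k : ℝ) : ℝ) : ℂ) * I := by
    rw [zn, om']; push_cast; ring
  rw [h2]
  field_simp

lemma dslope_log_differentiable {k n : ℕ} (hk : 1 ≤ k) (hn : 1 ≤ n) :
    DifferentiableAt ℂ (dslope log (zn k n)) (zn k n) := by
  have hU : slitPlane ∈ 𝓝 (zn k n) := isOpen_slitPlane.mem_nhds (zn_slit hk hn)
  have h1 : DifferentiableOn ℂ log slitPlane := fun z hz =>
    (differentiableAt_log hz).differentiableWithinAt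
  exact ((Complex.differentiableOn_dslope hU).2 h1).differentiableAt hU

lemma hn'_differentiable {k n : ℕ} (hk : 1 ≤ k) (hn : 1 ≤ n) :
    DifferentiableAt ℂ (hn' k n) (zn k n) := by
  have hnp : (0 : ℝ) < n := by exact_mod_cast hn
  have h1 := dslope_log_differentiable hk hn
  have h2 : I * k * dslope log (zn k n) (zn k n) ∈ slitPlane := by
    rw [dslope_log_zn hk hn, ← ofReal_inv]
    left
    rw [ofReal_re]
    positivity
  have h3 : DifferentiableAt ℂ log (zn k n) := differentiableAt_log (zn_slit hk hn)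
  unfold hn' ell
  refine DifferentiableAt.mul (DifferentiableAt.const_mul ?_ _) (DifferentiableAt.const_mul
    (DifferentiableAt.mul_const ?_ _) _)
  · exact (((h3.sub_const _).const_mul _).neg).cexp
  · exact (((h1.const_mul _).clog h2).const_mul _).cexp

lemma hn'_eq {k n : ℕ} (hk : 1 ≤ k) (hn : 1 ≤ n) : hn' k n (zn k n) = 2 * Real.pi * An k n := by
  have hkp : (0 : ℝ) < k := by exact_mod_cast hk
  have hk0 : (k : ℂ) ≠ 0 := by exact_mod_cast hkp.ne'
  have hnp : (0 : ℝ) < n := by exact_mod_cast hn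
  have h2pi : (0 : ℝ) < 2 * Real.pi := by positivity
  have e1 : cexp (-(k * ell k (zn k n))) = ((n : ℝ)⁻¹ : ℝ) := by
    rw [ell, log_zn hk hn]
    have : (-(k * (L0 k + Real.log n / k - L0 k)) : ℂ) = ((-Real.log n : ℝ) : ℂ) := by
      push_cast; field_simp; ring
    rw [this, ← ofReal_exp, Real.exp_neg, Real.exp_log hnp]
  have e2 : cexp (-((bt k : ℂ) + 1) * log (I * k * dslope log (zn k n) (zn k n))) =
      (((2 * Real.pi) ^ (bt k + 1) * (n : ℝ) ^ ((bt k + 1) / k) : ℝ) : ℂ) := by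
    have h1 : (0 : ℝ) < 2 * Real.pi * (n : ℝ) ^ (1 / k : ℝ) := by positivity
    rw [dslope_log_zn hk hn, ← ofReal_inv, ← ofReal_log (by positivity)]
    have : (-((bt k : ℂ) + 1)) * (Real.log (2 * Real.pi * (n : ℝ) ^ (1 / k : ℝ))⁻¹ : ℝ) =
        ((Real.log (2 * Real.pi * (n : ℝ) ^ (1 / k : ℝ)) * (bt k + 1) : ℝ) : ℂ) := by
      rw [Real.log_inv]; push_cast; ring
    rw [this, ← ofReal_exp, ← Real.rpow_def_of_pos h1, Real.mul_rpow h2pi.le (by positivity),
      ← Real.rpow_mul hnp.le]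
    congr 3
    field_simp
  have e3 : Gamma ((bt k : ℂ) + 1) = (Real.Gamma (bt k + 1) : ℝ) := by
    rw [← Complex.Gamma_ofReal]; push_cast; rfl
  have e4 : (n : ℝ) ^ (-((k + 1) / (2 * k)) : ℝ) = (n : ℝ)⁻¹ * (1 / (n : ℝ) ^ 2) *
      (n : ℝ) ^ ((bt k + 1) / k) := by
    rw [← Real.rpow_natCast, ← Real.rpow_neg_one, one_div, ← Real.rpow_neg hnp.le,
      ← Real.rpow_add hnp, ← Real.rpow_add hnp]
    congr 1
    rw [bt]
    push_cast
    field_simp
    ring
  have e5 : (2 * Real.pi) ^ (-(bt k + 1)) * (2 * Real.pi) ^ (bt k + 1) = 1 := by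
    rw [← Real.rpow_add h2pi]; simp
  have key : √k * (2 * Real.pi) ^ (-(bt k + 1)) * (n : ℝ)⁻¹ * (dk k n / (n : ℝ) ^ 2 *
      ((2 * Real.pi) ^ (bt k + 1) * (n : ℝ) ^ ((bt k + 1) / k) * Real.Gamma (bt k + 1))) =
      2 * Real.pi * (√k / (2 * Real.pi) * dk k n * ((n : ℝ)⁻¹ * (1 / (n : ℝ) ^ 2) *
      (n : ℝ) ^ ((bt k + 1) / k)) * Real.Gamma (bt k + 1)) := by
    calc _ = √k * ((2 * Real.pi) ^ (-(bt k + 1)) * (2 * Real.pi) ^ (bt k + 1)) * (n : ℝ)⁻¹ *
        (dk k n / (n : ℝ) ^ 2 * ((n : ℝ) ^ ((bt k + 1) / k) * Real.Gamma (bt k + 1))) := by ring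
      _ = _ := by rw [e5]; field_simp
  have keyC := congrArg (fun x : ℝ => (x : ℂ)) key
  rw [hn', e1, e2, e3, Cz, An, e4, cc]
  push_cast at keyC ⊢
  linear_combination cexp (Real.pi * ((k : ℂ) - 3) / 4 * I) * keyC

/-- **the singularity of the transform at `2 π i k n^{1/k}`** -/
theorem KEY {k : ℕ} (hk : 2 ≤ k) {P : Polynomial ℝ} {Z : ℂ → ℂ}
    (hZ : DifferentiableOn ℂ Z {s : ℂ | 0 < s.re})
    (hZ' : ∀ s : ℂ, 0 < s.re → s ≠ 1 → Z s = riemannZeta s ^ k / s - Q P s) {n : ℕ} (hn : 1 ≤ n) :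
    ∃ C : ℝ, 0 ≤ C ∧ ∀ᶠ z in 𝓝 (zn k n), 0 < z.re →
      ‖Ig k (fun x => Err k P x - w0 k) z -
        An k n * cexp (-((bt k + 1 : ℝ) : ℂ) * log (z - zn k n))‖ ≤
        C * (1 / z.re) ^ bt k := by
  have hk1 : 1 ≤ k := by omega
  have hkp : (0 : ℝ) < k := by exact_mod_cast (by omega : 0 < k)
  have hkr : (2 : ℝ) ≤ k := by exact_mod_cast hk
  have hnp : (0 : ℝ) < n := by exact_mod_cast hn
  have hbt : 1 ≤ bt k := by rw [bt]; linarith
  obtain ⟨C₁, hC10, hC1⟩ := KEY0 hk hZ hZ'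
  set ω := om' k n with hω
  have hω0 : 0 < ω := om'_pos hk1 hn
  -- the neighbourhood
  have hev1 : ∀ᶠ z in 𝓝 (zn k n), 0 < z.im := by
    refine continuous_im.continuousAt.eventually (lt_mem_nhds ?_)
    rw [zn_im]; exact hω0
  have hlogc : ContinuousAt log (zn k n) := continuousAt_clog (zn_slit hk1 hn)
  have hu_eq : ∀ z, I * k * ell k z - I * Real.log n = I * k * (log z - log (zn k n)) := by
    intro z
    have hk0 : (k : ℂ) ≠ 0 := by exact_mod_cast hkp.ne'
    rw [log_zn hk1 hn, ell]; field_simp; ring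
  have hev2 : ∀ᶠ z in 𝓝 (zn k n), ‖I * k * ell k z - I * Real.log n‖ ≤ 1 / (2 * ((n : ℝ) + 1)) := by
    have h1 : ContinuousAt (fun z => ‖I * k * (log z - log (zn k n))‖) (zn k n) :=
      ((hlogc.sub continuousAt_const).const_mul _).norm
    have h2 := h1.eventually (ge_mem_nhds
      (show ‖I * k * (log (zn k n) - log (zn k n))‖ < 1 / (2 * ((n : ℝ) + 1)) by
        rw [sub_self, mul_zero, norm_zero]; positivity))
    filter_upwards [h2] with z hz
    rw [hu_eq]; exact hz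
  have hev3 : ∀ᶠ z in 𝓝 (zn k n), 0 < (I * k * dslope log (zn k n) z).re := by
    have h1 : ContinuousAt (fun z => (I * k * dslope log (zn k n) z).re) (zn k n) :=
      continuous_re.continuousAt.comp ((dslope_log_differentiable hk1 hn).continuousAt.const_mul _)
    refine h1.eventually (lt_mem_nhds ?_)
    show 0 < (I * k * dslope log (zn k n) (zn k n)).re
    rw [dslope_log_zn hk1 hn, ← ofReal_inv, ofReal_re]
    positivity
  obtain ⟨C₂, hC2⟩ := (hn'_differentiable hk1 hn).hasDerivAt.isBigO_sub.bound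
  have hev5 : ∀ᶠ z in 𝓝 (zn k n), ‖Cz k * cexp (-(k * ell k z))‖ ≤
      ‖Cz k * cexp (-(k * ell k (zn k n)))‖ + 1 := by
    have h1 : ContinuousAt (fun z => ‖Cz k * cexp (-(k * ell k z))‖) (zn k n) := by
      unfold ell
      exact ((((hlogc.sub continuousAt_const).const_mul _).neg.cexp).const_mul _).norm
    exact h1.eventually (ge_mem_nhds (by linarith))
  have hev6 : ∀ᶠ z in 𝓝 (zn k n), ‖z‖ ≤ 2 * ω ∧ ω / 2 ≤ ‖z‖ := by
    have h1 : ContinuousAt (fun z : ℂ => ‖z‖) (zn k n) := continuous_norm.continuousAt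
    have h2 : ‖zn k n‖ = ω := by
      rw [zn, norm_mul, norm_I, mul_one, norm_real, Real.norm_eq_abs, abs_of_pos hω0]
    exact (h1.eventually (ge_mem_nhds (by show ‖zn k n‖ < 2 * ω; rw [h2]; linarith))).and
      (h1.eventually (le_mem_nhds (by show ω / 2 < ‖zn k n‖; rw [h2]; linarith)))
  have hev7 : ∀ᶠ z in 𝓝 (zn k n), z.re ≤ 1 := by
    refine continuous_re.continuousAt.eventually (ge_mem_nhds ?_)
    rw [zn_re]; norm_num
  set K := ‖Cz k * cexp (-(k * ell k (zn k n)))‖ + 1 with hK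
  set S := ∑' m, cc k m with hS
  have hS0 : 0 ≤ S := tsum_nonneg (cc_nonneg k)
  set G := (2 * ((n : ℝ) + 1)) ^ (bt k + 1) * ‖Gamma ((bt k : ℂ) + 1)‖ with hG
  have hG0 : 0 ≤ G := by positivity
  have hK0 : 0 ≤ K := by positivity
  refine ⟨1 / (2 * Real.pi) * (C₁ * (1 / (ω / 2)) ^ k * (2 * ω) ^ bt k +
    |C₂| + K * (S * G)), by positivity, ?_⟩
  filter_upwards [hev1, hev2, hev3, hC2, hev5, hev6, hev7] with z h1 h2 h3 h4 h5 h6 h7 hz
  have hzn0 : z - zn k n ≠ 0 := by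
    intro h; have := congrArg re h; rw [sub_re, zn_re, sub_zero, zero_re] at this; linarith
  have hre : z.re ≤ ‖z - zn k n‖ := by
    have := re_le_norm (z - zn k n)
    rwa [sub_re, zn_re, sub_zero] at this
  have hinv : 1 ≤ 1 / z.re := by rw [le_div_iff₀ hz]; linarith
  set Y := (1 / z.re) ^ bt k with hY
  have hY1 : 1 ≤ Y := Real.one_le_rpow hinv (by linarith)
  have hY0 : 0 ≤ Y := by linarith
  -- first error
  have hE1 : ‖2 * Real.pi * Ig k (fun x => Err k P x - w0 k) z - Mn k z‖ ≤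
      C₁ * (1 / (ω / 2)) ^ k * (2 * ω) ^ bt k * Y := by
    refine (hC1 z hz h1.le).trans ?_
    have hd : ‖z‖ / z.re ≤ 2 * ω * (1 / z.re) := by
      rw [mul_one_div]; gcongr; exact h6.1
    calc C₁ * (1 / ‖z‖) ^ k * (‖z‖ / z.re) ^ bt k
        ≤ C₁ * (1 / (ω / 2)) ^ k * (2 * ω * (1 / z.re)) ^ bt k := by
          have := h6.2
          gcongr
      _ = C₁ * (1 / (ω / 2)) ^ k * (2 * ω) ^ bt k * (1 / z.re) ^ bt k := by
          rw [Real.mul_rpow (by positivity) (by positivity)]; ring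
  -- second error
  have hu0 : 0 < (I * k * ell k z).re := by
    rw [u_re]
    have := (quad_arg hz h1.le).2
    exact mul_pos hkp (by linarith)
  have hlog : log (I * k * ell k z - I * Real.log n) =
      log (z - zn k n) + log (I * k * dslope log (zn k n) z) := by
    have e1 : I * k * ell k z - I * Real.log n =
        (z - zn k n) * (I * k * dslope log (zn k n) z) := by
      have := sub_smul_dslope log (zn k n) z
      rw [smul_eq_mul] at this
      rw [hu_eq, ← this]; ring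
    have h8 : I * k * dslope log (zn k n) z ≠ 0 := by
      intro h; rw [h] at h3; simp at h3
    have h9 : 0 < (z - zn k n).re := by rw [sub_re, zn_re, sub_zero]; exact hz
    rw [e1, log_mul hzn0 h8]
    have a1 := abs_lt.1 (abs_arg_lt_pi_div_two_iff.2 (Or.inl h9))
    have a2 := abs_lt.1 (abs_arg_lt_pi_div_two_iff.2 (Or.inl h3))
    constructor <;> linarith [a1.1, a1.2, a2.1, a2.2]
  have hE2 : ‖Mn k z - hn' k n z * cexp (-((bt k + 1 : ℝ) : ℂ) * log (z - zn k n))‖ ≤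
      K * (S * G) := by
    have e1 : Mn k z - hn' k n z * cexp (-((bt k + 1 : ℝ) : ℂ) * log (z - zn k n)) =
        Cz k * cexp (-(k * ell k z)) * ((∫ t in Ioi (0 : ℝ), ((t ^ bt k : ℝ) : ℂ) *
          cexp (-(I * k * ell k z * t)) * riemannZeta (2 - t * I) ^ k) -
          (cc k n : ℂ) * (cexp (-((bt k : ℂ) + 1) * log (I * k * ell k z - I * Real.log n)) *
            Gamma ((bt k : ℂ) + 1))) := by
      rw [Mn, hn', hlog, mul_add, Complex.exp_add]
      push_cast
      ring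
    rw [e1, norm_mul]
    gcongr
    exact series_rest k hn (by linarith) hu0 h2
  -- third error
  have hE3 : ‖hn' k n z * cexp (-((bt k + 1 : ℝ) : ℂ) * log (z - zn k n)) -
      2 * Real.pi * An k n * cexp (-((bt k + 1 : ℝ) : ℂ) * log (z - zn k n))‖ ≤ |C₂| * Y := by
    rw [← sub_mul, ← hn'_eq hk1 hn, norm_mul, norm_exp_neg_mul_log hzn0]
    have hpos : 0 < ‖z - zn k n‖ := norm_pos_iff.2 hzn0
    calc ‖hn' k n z - hn' k n (zn k n)‖ * ‖z - zn k n‖ ^ (-(bt k + 1))
        ≤ (|C₂| * ‖z - zn k n‖) * ‖z - zn k n‖ ^ (-(bt k + 1)) := by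
          gcongr
          exact h4.trans (by gcongr; exact le_abs_self _)
      _ = |C₂| * ‖z - zn k n‖ ^ (-(bt k)) := by
          rw [mul_assoc]
          congr 1
          nth_rewrite 1 [← Real.rpow_one ‖z - zn k n‖]
          rw [← Real.rpow_add hpos]
          congr 1; ring
      _ ≤ |C₂| * z.re ^ (-(bt k)) := by
          gcongr ?_ * ?_
          exact Real.rpow_le_rpow_of_nonpos hz hre (by linarith)
      _ = |C₂| * (1 / z.re) ^ bt k := by
          rw [one_div, Real.inv_rpow hz.le, Real.rpow_neg hz.le]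
      _ ≤ |C₂| * Y := by
          exact le_rfl
  have h2pi : (0 : ℝ) < 2 * Real.pi := by positivity
  have hfin : ‖2 * Real.pi * Ig k (fun x => Err k P x - w0 k) z -
      2 * Real.pi * An k n * cexp (-((bt k + 1 : ℝ) : ℂ) * log (z - zn k n))‖ ≤
      (C₁ * (1 / (ω / 2)) ^ k * (2 * ω) ^ bt k + |C₂| + K * (S * G)) * Y := by
    have e1 : 2 * Real.pi * Ig k (fun x => Err k P x - w0 k) z -
      2 * Real.pi * An k n * cexp (-((bt k + 1 : ℝ) : ℂ) * log (z - zn k n)) =
      (2 * Real.pi * Ig k (fun x => Err k P x - w0 k) z - Mn k z) +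
      (Mn k z - hn' k n z * cexp (-((bt k + 1 : ℝ) : ℂ) * log (z - zn k n))) +
      (hn' k n z * cexp (-((bt k + 1 : ℝ) : ℂ) * log (z - zn k n)) -
      2 * Real.pi * An k n * cexp (-((bt k + 1 : ℝ) : ℂ) * log (z - zn k n))) := by ring
    rw [e1]
    refine ((norm_add_le _ _).trans (add_le_add ((norm_add_le _ _).trans
      (add_le_add hE1 hE2)) hE3)).trans ?_
    have h8 : K * (S * G) ≤ K * (S * G) * Y := le_mul_of_one_le_right (by positivity) hY1
    linarith
  have e2 : 2 * Real.pi * Ig k (fun x => Err k P x - w0 k) z -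
      2 * Real.pi * An k n * cexp (-((bt k + 1 : ℝ) : ℂ) * log (z - zn k n)) =
      ((2 * Real.pi : ℝ) : ℂ) * (Ig k (fun x => Err k P x - w0 k) z -
        An k n * cexp (-((bt k + 1 : ℝ) : ℂ) * log (z - zn k n))) := by push_cast; ring
  rw [e2, norm_mul, norm_real, Real.norm_eq_abs, abs_of_pos h2pi] at hfin
  calc _ = 1 / (2 * Real.pi) * (2 * Real.pi * ‖Ig k (fun x => Err k P x - w0 k) z -
        An k n * cexp (-((bt k + 1 : ℝ) : ℂ) * log (z - zn k n))‖) := by
        rw [← mul_assoc, one_div_mul_cancel h2pi.ne', one_mul]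
    _ ≤ 1 / (2 * Real.pi) * ((C₁ * (1 / (ω / 2)) ^ k * (2 * ω) ^ bt k + |C₂| +
        K * (S * G)) * Y) := by gcongr
    _ = _ := by ring

lemma Ig_conj (k : ℕ) (g : ℝ → ℝ) (z : ℂ) :
    Ig k g ((starRingEnd ℂ) z) = (starRingEnd ℂ) (Ig k g z) := by
  rw [Ig, Ig, ← integral_conj]
  congr 1
  funext x
  simp only [map_mul, conj_ofReal]
  rw [← Complex.exp_conj]
  simp only [map_neg, map_mul, conj_ofReal]

/-- **bound near the origin** -/
theorem KEYzero {k : ℕ} (hk : 2 ≤ k) {P : Polynomial ℝ} {Z : ℂ → ℂ}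
    (hZ : DifferentiableOn ℂ Z {s : ℂ | 0 < s.re})
    (hZ' : ∀ s : ℂ, 0 < s.re → s ≠ 1 → Z s = riemannZeta s ^ k / s - Q P s) :
    ∃ C : ℝ, 0 ≤ C ∧ ∀ z : ℂ, 0 < z.re → ‖z‖ ≤ 1 →
      ‖Ig k (fun x => Err k P x - w0 k) z‖ ≤ C * (1 / z.re) ^ bt k := by
  have hk1 : 1 ≤ k := by omega
  have hkp : (0 : ℝ) < k := by exact_mod_cast (by omega : 0 < k)
  have hkr : (2 : ℝ) ≤ k := by exact_mod_cast hk
  have hbt : 1 ≤ bt k := by rw [bt]; linarith
  have hbtk : (k : ℝ) ≤ bt k := by rw [bt]; linarith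
  obtain ⟨C₁, hC10, hC1⟩ := KEY0 hk hZ hZ'
  set S := ∑' m, cc k m with hS
  have hS0 : 0 ≤ S := tsum_nonneg (cc_nonneg k)
  set C := 1 / (2 * Real.pi) * (C₁ + ‖Cz k‖ * (2 * Real.pi * k) ^ k *
    (S * ‖Gamma ((bt k : ℂ) + 1)‖)) with hC
  -- the upper quadrant
  have hup : ∀ z : ℂ, 0 < z.re → 0 ≤ z.im → ‖z‖ ≤ 1 →
      ‖Ig k (fun x => Err k P x - w0 k) z‖ ≤ C * (1 / z.re) ^ bt k := by
    intro z hz hzi hz1
    have hz0 : z ≠ 0 := by rintro rfl; simp at hz
    have hzn : 0 < ‖z‖ := norm_pos_iff.2 hz0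
    have hre1 : z.re ≤ ‖z‖ := re_le_norm z
    have hinv : 1 ≤ 1 / z.re := by rw [le_div_iff₀ hz]; linarith
    set Y := (1 / z.re) ^ bt k with hY
    have hY0 : 0 ≤ Y := by positivity
    have hn1 : 1 ≤ 1 / ‖z‖ := by rw [le_div_iff₀ hzn]; linarith
    have hE1 : ‖2 * Real.pi * Ig k (fun x => Err k P x - w0 k) z - Mn k z‖ ≤ C₁ * Y := by
      refine (hC1 z hz hzi).trans ?_
      have h1 : (1 / ‖z‖) ^ k * (‖z‖ / z.re) ^ bt k ≤ Y := by
        have h2 : (1 / ‖z‖) ^ k ≤ (1 / ‖z‖) ^ bt k := by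
          rw [← Real.rpow_natCast]
          exact Real.rpow_le_rpow_of_exponent_le hn1 hbtk
        calc (1 / ‖z‖) ^ k * (‖z‖ / z.re) ^ bt k ≤ (1 / ‖z‖) ^ bt k * (‖z‖ / z.re) ^ bt k := by
              gcongr
          _ = Y := by
              rw [← Real.mul_rpow (by positivity) (by positivity), hY]
              congr 1; field_simp
      calc C₁ * (1 / ‖z‖) ^ k * (‖z‖ / z.re) ^ bt k = C₁ * ((1 / ‖z‖) ^ k * (‖z‖ / z.re) ^ bt k) := by
            ring
        _ ≤ _ := by gcongr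
    have hu0 : 0 < (I * k * ell k z).re := by
      rw [u_re]
      have := (quad_arg hz hzi).2
      exact mul_pos hkp (by linarith)
    set u := I * k * ell k z with hu
    have him : u.im = k * (Real.log ‖z‖ - Real.log (2 * Real.pi * k)) := by
      have e1 : u = I * (((k : ℝ) : ℂ) * ell k z) := by rw [hu]; push_cast; ring
      rw [e1, I_mul_im, re_ofReal_mul, ell_re]
    have hlog1 : 1 ≤ Real.log (2 * Real.pi * k) := by
      rw [Real.le_log_iff_exp_le (by positivity)]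
      have := Real.exp_one_lt_d9
      have := Real.pi_gt_three
      nlinarith
    have hlogz : Real.log ‖z‖ ≤ 0 := Real.log_nonpos hzn.le hz1
    have hgap : ∀ m : ℕ, 1 ≤ ‖u - I * Real.log m‖ := by
      intro m
      have h1 := abs_im_le_norm (u - I * Real.log m)
      rw [sub_im, I_mul_im, ofReal_re, him] at h1
      have h2 : 0 ≤ Real.log m := Real.log_natCast_nonneg m
      have h3 : k * (Real.log ‖z‖ - Real.log (2 * Real.pi * k)) - Real.log m ≤ -1 := by
        nlinarith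
      have h4 := neg_abs_le (k * (Real.log ‖z‖ - Real.log (2 * Real.pi * k)) - Real.log m)
      linarith
    have hser : ‖∫ t in Ioi (0 : ℝ), ((t ^ bt k : ℝ) : ℂ) * cexp (-(u * t)) *
        riemannZeta (2 - t * I) ^ k‖ ≤ S * ‖Gamma ((bt k : ℂ) + 1)‖ := by
      rw [← (main_hasSum k (by linarith : (0 : ℝ) ≤ bt k) hu0).tsum_eq, ← tsum_mul_right]
      refine tsum_of_norm_bounded ((summable_cc k).mul_right _).hasSum fun m => ?_
      have hne : u - I * Real.log m ≠ 0 := by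
        intro h; have := hgap m; rw [h, norm_zero] at this; linarith
      rw [norm_mul, norm_real, Real.norm_eq_abs, abs_of_nonneg (cc_nonneg k m), norm_mul]
      have h11 : ‖cexp (-((bt k : ℂ) + 1) * log (u - I * Real.log m))‖ ≤ 1 := by
        have e1 : (-((bt k : ℂ) + 1)) = -((bt k + 1 : ℝ) : ℂ) := by push_cast; ring
        rw [e1, norm_exp_neg_mul_log hne]
        exact Real.rpow_le_one_of_one_le_of_nonpos (hgap m) (by linarith)
      have := cc_nonneg k m
      calc cc k m * (‖cexp (-((bt k : ℂ) + 1) * log (u - I * Real.log m))‖ *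
            ‖Gamma ((bt k : ℂ) + 1)‖) ≤ cc k m * (1 * ‖Gamma ((bt k : ℂ) + 1)‖) := by gcongr
        _ = _ := by ring
    have hMn : ‖Mn k z‖ ≤ ‖Cz k‖ * (2 * Real.pi * k) ^ k * (S * ‖Gamma ((bt k : ℂ) + 1)‖) * Y := by
      have h1 : ‖cexp (-(k * ell k z))‖ = (2 * Real.pi * k) ^ k * (1 / ‖z‖) ^ k := by
        have h2 := norm_expell hk1 hz0 0
        simp only [ofReal_zero, zero_mul, add_zero, mul_one, mul_zero, neg_zero, Real.exp_zero] at h2
        rw [neg_mul] at h2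
        rw [h2, ← mul_pow, mul_one_div]
      have h3 : (1 / ‖z‖) ^ k ≤ Y := by
        calc (1 / ‖z‖) ^ k ≤ (1 / z.re) ^ k := by gcongr
          _ ≤ Y := by
            rw [hY, ← Real.rpow_natCast]
            exact Real.rpow_le_rpow_of_exponent_le hinv hbtk
      rw [Mn, norm_mul, norm_mul, h1]
      calc ‖Cz k‖ * ((2 * Real.pi * k) ^ k * (1 / ‖z‖) ^ k) * _
          ≤ ‖Cz k‖ * ((2 * Real.pi * k) ^ k * Y) * (S * ‖Gamma ((bt k : ℂ) + 1)‖) := by
            gcongr
        _ = _ := by ring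
    have h2pi : (0 : ℝ) < 2 * Real.pi := by positivity
    have hfin : ‖2 * Real.pi * Ig k (fun x => Err k P x - w0 k) z‖ ≤
        (C₁ + ‖Cz k‖ * (2 * Real.pi * k) ^ k * (S * ‖Gamma ((bt k : ℂ) + 1)‖)) * Y := by
      have e1 : 2 * Real.pi * Ig k (fun x => Err k P x - w0 k) z =
          (2 * Real.pi * Ig k (fun x => Err k P x - w0 k) z - Mn k z) + Mn k z := by ring
      rw [e1]
      refine (norm_add_le _ _).trans ((add_le_add hE1 hMn).trans (le_of_eq ?_))
      ring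
    have e2 : (2 * Real.pi : ℂ) = ((2 * Real.pi : ℝ) : ℂ) := by push_cast; rfl
    rw [e2, norm_mul, norm_real, Real.norm_eq_abs, abs_of_pos h2pi] at hfin
    calc _ = 1 / (2 * Real.pi) * (2 * Real.pi * ‖Ig k (fun x => Err k P x - w0 k) z‖) := by
          rw [← mul_assoc, one_div_mul_cancel h2pi.ne', one_mul]
      _ ≤ 1 / (2 * Real.pi) * ((C₁ + ‖Cz k‖ * (2 * Real.pi * k) ^ k *
          (S * ‖Gamma ((bt k : ℂ) + 1)‖)) * Y) := by gcongr
      _ = _ := by rw [hC]; ring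
  refine ⟨C, by rw [hC]; positivity, fun z hz hz1 => ?_⟩
  rcases le_total 0 z.im with h | h
  · exact hup z hz h hz1
  · have h1 := hup ((starRingEnd ℂ) z) (by rw [conj_re]; exact hz)
      (by rw [conj_im]; linarith) (by rw [RCLike.norm_conj]; exact hz1)
    rwa [Ig_conj, RCLike.norm_conj, conj_re] at h1

end Pool.Agent.Lib.MP_bc6037_nt
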