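import Mathlib
import Pool.Agent.Lib.MP_bc6037_nt.Singularity

set_option autoImplicit false

/-!
A uniform comparison of `w^{-k} (i log w)^{-(b+1)}` with `(i (w-1))^{-(b+1)}` in the fourth quadrant.
-/

open Complex Filter Topology Set MeasureTheory

namespace Pool.Agent.Lib.MP_bc6037_nt

/-- the slope of the logarithm at one -/
lemma dslope_log_one_re {w : ℂ} (hw : ‖w - 1‖ ≤ 1 / 2) : 0 < (dslope log 1 w).re := by
  -- log w = (w-1) q(w), ‖log w - (w-1)‖ ≤ ‖w-1‖²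
  by_cases h1 : w = 1
  · subst h1
    rw [dslope_same, (hasDerivAt_log (by simp : (1 : ℂ) ∈ slitPlane)).deriv]
    simp
  · have h2 := sub_smul_dslope log 1 w
    rw [smul_eq_mul, log_one, sub_zero] at h2
    have hne : w - 1 ≠ 0 := sub_ne_zero.2 h1
    have h3 : ‖log (1 + (w - 1)) - (w - 1)‖ ≤ ‖w - 1‖ ^ 2 * (1 - ‖w - 1‖)⁻¹ / 2 :=
      norm_log_one_add_sub_self_le (by linarith)
    rw [add_sub_cancel, ← h2] at h3
    have h4 : ‖dslope log 1 w - 1‖ * ‖w - 1‖ ≤ ‖w - 1‖ ^ 2 * (1 - ‖w - 1‖)⁻¹ / 2 := by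
      rw [← norm_mul]
      refine le_trans (le_of_eq ?_) h3
      congr 1; ring
    have hpos : 0 < ‖w - 1‖ := norm_pos_iff.2 hne
    have h5 : (1 - ‖w - 1‖)⁻¹ ≤ 2 := by
      rw [inv_le_comm₀ (by linarith) (by norm_num)]; linarith
    have h6 : ‖dslope log 1 w - 1‖ ≤ 1 / 2 := by
      have h7 : ‖dslope log 1 w - 1‖ * ‖w - 1‖ ≤ (1 / 2) * ‖w - 1‖ := by
        calc ‖dslope log 1 w - 1‖ * ‖w - 1‖ ≤ ‖w - 1‖ ^ 2 * (1 - ‖w - 1‖)⁻¹ / 2 := h4
          _ ≤ ‖w - 1‖ ^ 2 * 2 / 2 := by gcongr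
          _ = ‖w - 1‖ * ‖w - 1‖ := by ring
          _ ≤ (1 / 2) * ‖w - 1‖ := by gcongr
      exact le_of_mul_le_mul_right h7 hpos
    have h8 := (abs_le.1 ((abs_re_le_norm (dslope log 1 w - 1)).trans h6)).1
    rw [sub_re, one_re] at h8
    linarith

/-- the analytic factor is Lipschitz at one -/
lemma factor_bound (k : ℕ) (b : ℝ) : ∃ C : ℝ, 0 ≤ C ∧ ∀ w : ℂ, ‖w - 1‖ ≤ 1 / 2 →
    ‖cexp (-(k * log w)) * cexp (-((b + 1 : ℝ) : ℂ) * log (dslope log 1 w)) - 1‖ ≤
      C * ‖w - 1‖ := by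
  set U : Set ℂ := {w | 0 < w.re ∧ 0 < (dslope log 1 w).re} with hU
  set G : ℂ → ℂ := fun w => cexp (-(k * log w)) *
    cexp (-((b + 1 : ℝ) : ℂ) * log (dslope log 1 w)) - 1 with hG
  have hsub : Metric.closedBall (1 : ℂ) (1 / 2) ⊆ slitPlane := by
    intro w hw
    rw [Metric.mem_closedBall, dist_eq_norm] at hw
    left
    have h8 := (abs_le.1 ((abs_re_le_norm (w - 1)).trans hw)).1
    rw [sub_re, one_re] at h8
    linarith
  -- dslope log 1 is differentiable on the slit plane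
  have hd : ∀ w ∈ slitPlane, DifferentiableAt ℂ (dslope log 1) w := by
    intro w hw
    by_cases h : w = 1
    · rw [h]
      have h1 : AnalyticAt ℂ log 1 := analyticAt_clog (by simp)
      obtain ⟨p, hp⟩ := h1
      exact hp.has_fpower_series_dslope_fslope.analyticAt.differentiableAt
    · exact (differentiableAt_dslope_of_ne h).2 (differentiableAt_log hw)
  have hGd : ∀ w ∈ Metric.closedBall (1 : ℂ) (1 / 2), DifferentiableAt ℂ G w := by
    intro w hw
    have hw' := hsub hw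
    rw [Metric.mem_closedBall, dist_eq_norm] at hw
    have h1 : dslope log 1 w ∈ slitPlane := Or.inl (dslope_log_one_re hw)
    have h2 := hd w hw'
    rw [hG]
    refine DifferentiableAt.sub_const (DifferentiableAt.mul ?_ ?_) _
    · exact (((differentiableAt_log hw').const_mul _).neg).cexp
    · exact ((h2.clog h1).const_mul _).cexp
  have hG1 : G 1 = 0 := by
    rw [hG]
    simp only
    rw [dslope_same, (hasDerivAt_log (by simp : (1 : ℂ) ∈ slitPlane)).deriv]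
    simp
  have hcont : ContinuousOn (dslope G 1) (Metric.closedBall (1 : ℂ) (1 / 2)) := by
    have hmem : Metric.closedBall (1 : ℂ) (1 / 2) ∈ 𝓝 (1 : ℂ) :=
      Metric.closedBall_mem_nhds _ (by norm_num)
    rw [continuousOn_dslope hmem]
    exact ⟨fun w hw => (hGd w hw).continuousAt.continuousWithinAt,
      hGd 1 (Metric.mem_closedBall_self (by norm_num))⟩
  obtain ⟨C, hC⟩ := (isCompact_closedBall (1 : ℂ) (1 / 2)).exists_bound_of_continuousOn hcont
  refine ⟨|C|, abs_nonneg _, fun w hw => ?_⟩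
  have h1 := sub_smul_dslope G 1 w
  rw [smul_eq_mul, hG1, sub_zero] at h1
  have h2 := hC w (by rw [Metric.mem_closedBall, dist_eq_norm]; exact hw)
  calc ‖G w‖ = ‖w - 1‖ * ‖dslope G 1 w‖ := by rw [← h1, norm_mul]
    _ ≤ ‖w - 1‖ * |C| := by gcongr; exact h2.trans (le_abs_self _)
    _ = |C| * ‖w - 1‖ := mul_comm _ _

/-- **the comparison** -/
theorem phi_bound (k : ℕ) {b : ℝ} (hb : 0 ≤ b) : ∃ C : ℝ, 0 ≤ C ∧ ∀ w : ℂ, 0 ≤ w.re → w.im < 0 →
    ‖cexp (-(k * log w)) * cexp (-((b + 1 : ℝ) : ℂ) * log (I * log w)) -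
      cexp (-((b + 1 : ℝ) : ℂ) * log (I * (w - 1)))‖ ≤
      C * ((‖w‖ / (-w.im)) ^ b + (1 / ‖w‖) ^ k) := by
  obtain ⟨C, hC0, hC⟩ := factor_bound k b
  refine ⟨C * 2 ^ b + 4 ^ (b + 1) + 2 ^ (b + 1), by positivity, fun w hre him => ?_⟩
  have hw0 : w ≠ 0 := by rintro rfl; simp at him
  have hwn : 0 < ‖w‖ := norm_pos_iff.2 hw0
  have him' : 0 < -w.im := by linarith
  have himle : -w.im ≤ ‖w‖ := by
    have := abs_im_le_norm w
    rw [abs_of_neg him] at this; exact this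
  have hratio : 1 ≤ ‖w‖ / (-w.im) := by rw [le_div_iff₀ him']; linarith
  have hR1 : 1 ≤ (‖w‖ / (-w.im)) ^ b := Real.one_le_rpow hratio hb
  have hK0 : 0 ≤ (1 / ‖w‖) ^ k := by positivity
  have harg : arg w < 0 := arg_neg_iff.2 him
  -- I (w-1) and I log w have positive real part
  have hre1 : 0 < (I * (w - 1)).re := by rw [I_mul_re, sub_im, one_im]; linarith
  have hre2 : 0 < (I * log w).re := by rw [I_mul_re, log_im]; linarith
  have hne1 : I * (w - 1) ≠ 0 := by intro h; rw [h] at hre1; simp at hre1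
  have hne2 : I * log w ≠ 0 := by intro h; rw [h] at hre2; simp at hre2
  have hnk : ‖cexp (-(k * log w))‖ = (1 / ‖w‖) ^ k := by
    have e1 : cexp (-(k * log w)) = (w ^ k)⁻¹ := by
      rw [Complex.exp_neg, Complex.exp_nat_mul, exp_log hw0]
    rw [e1, norm_inv, norm_pow, one_div, inv_pow]
  by_cases hnear : ‖w - 1‖ ≤ 1 / 2
  · have hq := dslope_log_one_re hnear
    have h2 := sub_smul_dslope log 1 w
    rw [smul_eq_mul, log_one, sub_zero] at h2
    have hlog : log (I * log w) = log (I * (w - 1)) + log (dslope log 1 w) := by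
      have e1 : I * log w = (I * (w - 1)) * dslope log 1 w := by rw [← h2]; ring
      have h8 : dslope log 1 w ≠ 0 := by intro h; rw [h] at hq; simp at hq
      rw [e1, log_mul hne1 h8]
      have a1 := abs_lt.1 (abs_arg_lt_pi_div_two_iff.2 (Or.inl hre1))
      have a2 := abs_lt.1 (abs_arg_lt_pi_div_two_iff.2 (Or.inl hq))
      constructor <;> linarith [a1.1, a1.2, a2.1, a2.2]
    have e2 : cexp (-(k * log w)) * cexp (-((b + 1 : ℝ) : ℂ) * log (I * log w)) -
        cexp (-((b + 1 : ℝ) : ℂ) * log (I * (w - 1))) =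
        cexp (-((b + 1 : ℝ) : ℂ) * log (I * (w - 1))) *
        (cexp (-(k * log w)) * cexp (-((b + 1 : ℝ) : ℂ) * log (dslope log 1 w)) - 1) := by
      rw [hlog, mul_add, Complex.exp_add]; ring
    have hnI : ‖I * (w - 1)‖ = ‖w - 1‖ := by rw [norm_mul, norm_I, one_mul]
    have hw1pos : 0 < ‖w - 1‖ := by rw [← hnI]; exact norm_pos_iff.2 hne1
    have him2 : -w.im ≤ ‖w - 1‖ := by
      have := abs_im_le_norm (w - 1)
      rw [sub_im, one_im, sub_zero, abs_of_neg him] at this; exact this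
    have hwhalf : 1 / 2 ≤ ‖w‖ := by
      have := norm_sub_norm_le (1 : ℂ) (1 - w)
      rw [sub_sub_cancel, norm_one, norm_sub_rev] at this
      linarith
    rw [e2, norm_mul, norm_exp_neg_mul_log hne1, hnI]
    have h9 : ‖w - 1‖ ^ (-(b + 1)) * (C * ‖w - 1‖) = C * ‖w - 1‖ ^ (-b) := by
      rw [mul_left_comm]
      congr 1
      nth_rewrite 2 [← Real.rpow_one ‖w - 1‖]
      rw [← Real.rpow_add hw1pos]
      congr 1; ring
    have h10 : ‖w - 1‖ ^ (-b) ≤ 2 ^ b * (‖w‖ / (-w.im)) ^ b := by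
      calc ‖w - 1‖ ^ (-b) ≤ (-w.im) ^ (-b) :=
            Real.rpow_le_rpow_of_nonpos him' him2 (by linarith)
        _ = (1 / (-w.im)) ^ b := by rw [one_div, Real.inv_rpow him'.le, Real.rpow_neg him'.le]
        _ ≤ (2 * (‖w‖ / (-w.im))) ^ b := by
            apply Real.rpow_le_rpow (by positivity) _ hb
            rw [← mul_div_assoc]
            gcongr
            linarith
        _ = _ := Real.mul_rpow (by norm_num) (by positivity)
    calc ‖w - 1‖ ^ (-(b + 1)) * ‖cexp (-(k * log w)) *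
          cexp (-((b + 1 : ℝ) : ℂ) * log (dslope log 1 w)) - 1‖
        ≤ ‖w - 1‖ ^ (-(b + 1)) * (C * ‖w - 1‖) := by gcongr; exact hC w hnear
      _ = C * ‖w - 1‖ ^ (-b) := h9
      _ ≤ C * (2 ^ b * (‖w‖ / (-w.im)) ^ b) := by gcongr
      _ = C * 2 ^ b * (‖w‖ / (-w.im)) ^ b := by ring
      _ ≤ (C * 2 ^ b + 4 ^ (b + 1) + 2 ^ (b + 1)) * ((‖w‖ / (-w.im)) ^ b + (1 / ‖w‖) ^ k) := by
          have h11 : (0 : ℝ) ≤ 4 ^ (b + 1) := by positivity
          have h12 : (0 : ℝ) ≤ 2 ^ (b + 1) := by positivity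
          have h13 : (0 : ℝ) ≤ C * 2 ^ b := by positivity
          gcongr
          · linarith
          · linarith
  · push Not at hnear
    have hlog4 : 1 / 4 ≤ ‖log w‖ := by
      by_contra h
      push Not at h
      have h1 := norm_exp_sub_one_le (x := log w) (by linarith)
      rw [exp_log hw0] at h1
      linarith
    have hnlog : ‖I * log w‖ = ‖log w‖ := by rw [norm_mul, norm_I, one_mul]
    have hnI : ‖I * (w - 1)‖ = ‖w - 1‖ := by rw [norm_mul, norm_I, one_mul]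
    refine (norm_sub_le _ _).trans ?_
    rw [norm_mul, hnk, norm_exp_neg_mul_log hne2, norm_exp_neg_mul_log hne1, hnlog, hnI]
    have h1 : ‖log w‖ ^ (-(b + 1)) ≤ 4 ^ (b + 1) := by
      calc ‖log w‖ ^ (-(b + 1)) ≤ (1 / 4 : ℝ) ^ (-(b + 1)) :=
            Real.rpow_le_rpow_of_nonpos (by norm_num) hlog4 (by linarith)
        _ = 4 ^ (b + 1) := by
            rw [one_div, Real.inv_rpow (by norm_num), Real.rpow_neg (by norm_num), inv_inv]
    have h2 : ‖w - 1‖ ^ (-(b + 1)) ≤ 2 ^ (b + 1) := by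
      calc ‖w - 1‖ ^ (-(b + 1)) ≤ (1 / 2 : ℝ) ^ (-(b + 1)) :=
            Real.rpow_le_rpow_of_nonpos (by norm_num) hnear.le (by linarith)
        _ = 2 ^ (b + 1) := by
            rw [one_div, Real.inv_rpow (by norm_num), Real.rpow_neg (by norm_num), inv_inv]
    have h13 : (0 : ℝ) ≤ C * 2 ^ b := by positivity
    have h14 : (0 : ℝ) ≤ 4 ^ (b + 1) := by positivity
    have h15 : (0 : ℝ) ≤ 2 ^ (b + 1) := by positivity
    set R := (‖w‖ / (-w.im)) ^ b
    set K := (1 / ‖w‖) ^ k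
    calc K * ‖log w‖ ^ (-(b + 1)) + ‖w - 1‖ ^ (-(b + 1)) ≤ K * 4 ^ (b + 1) + 2 ^ (b + 1) * 1 := by
          rw [mul_one]; gcongr
      _ ≤ K * 4 ^ (b + 1) + 2 ^ (b + 1) * R := by gcongr
      _ ≤ (C * 2 ^ b + 4 ^ (b + 1) + 2 ^ (b + 1)) * (R + K) := by nlinarith

end Pool.Agent.Lib.MP_bc6037_nt
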