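import Mathlib
import Pool.Agent.Lib.MP_bc6037_nt.PhiBound

set_option autoImplicit false

/-!
Expansion of the transform over all singularities with a uniform error term.
-/

open Complex Filter Topology Set MeasureTheory
open scoped ComplexConjugate

namespace Pool.Agent.Lib.MP_bc6037_nt

open DeltaMellin ZetaGrowth

noncomputable section

/-- the normalised coefficient -/
def Un (k n : ℕ) : ℂ :=
  Cz k * ((n : ℝ)⁻¹ : ℝ) * ((cc k n : ℂ) * (((k : ℝ) ^ (-(bt k + 1)) : ℝ) : ℂ)) *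
    ((Real.Gamma (bt k + 1) : ℝ) : ℂ)

lemma An_zero (k : ℕ) : An k 0 = 0 := by
  rw [An, dk_zero]; simp

lemma Un_eq {k n : ℕ} (hk : 1 ≤ k) (hn : 1 ≤ n) :
    2 * Real.pi * An k n * ((om' k n ^ (-(bt k + 1)) : ℝ) : ℂ) = Un k n := by
  have hkp : (0 : ℝ) < k := by exact_mod_cast hk
  have hk0 : (k : ℂ) ≠ 0 := by exact_mod_cast hkp.ne'
  have hnp : (0 : ℝ) < n := by exact_mod_cast hn
  have h2pi : (0 : ℝ) < 2 * Real.pi := by positivity
  rw [← hn'_eq hk hn]
  have e1 : cexp (-(k * ell k (zn k n))) = ((n : ℝ)⁻¹ : ℝ) := by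
    rw [ell, log_zn hk hn]
    have : (-(k * (L0 k + Real.log n / k - L0 k)) : ℂ) = ((-Real.log n : ℝ) : ℂ) := by
      push_cast; field_simp; ring
    rw [this, ← ofReal_exp, Real.exp_neg, Real.exp_log hnp]
  have h1 : (0 : ℝ) < 2 * Real.pi * (n : ℝ) ^ (1 / k : ℝ) := by positivity
  have e2 : cexp (-((bt k : ℂ) + 1) * log (I * k * dslope log (zn k n) (zn k n))) =
      (((2 * Real.pi * (n : ℝ) ^ (1 / k : ℝ)) ^ (bt k + 1) : ℝ) : ℂ) := by
    rw [dslope_log_zn hk hn, ← ofReal_inv, ← ofReal_log (by positivity)]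
    have : (-((bt k : ℂ) + 1)) * (Real.log (2 * Real.pi * (n : ℝ) ^ (1 / k : ℝ))⁻¹ : ℝ) =
        ((Real.log (2 * Real.pi * (n : ℝ) ^ (1 / k : ℝ)) * (bt k + 1) : ℝ) : ℂ) := by
      rw [Real.log_inv]; push_cast; ring
    rw [this, ← ofReal_exp, ← Real.rpow_def_of_pos h1]
  have e3 : Gamma ((bt k : ℂ) + 1) = (Real.Gamma (bt k + 1) : ℝ) := by
    rw [← Complex.Gamma_ofReal]; push_cast; rfl
  have e4 : om' k n ^ (-(bt k + 1)) = (2 * Real.pi * (n : ℝ) ^ (1 / k : ℝ)) ^ (-(bt k + 1)) *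
      (k : ℝ) ^ (-(bt k + 1)) := by
    rw [← Real.mul_rpow h1.le hkp.le]
    congr 1
    rw [om']; ring
  have e5 : (2 * Real.pi * (n : ℝ) ^ (1 / k : ℝ)) ^ (bt k + 1) *
      (2 * Real.pi * (n : ℝ) ^ (1 / k : ℝ)) ^ (-(bt k + 1)) = 1 := by
    rw [← Real.rpow_add h1]; simp
  have e5C := congrArg (fun x : ℝ => (x : ℂ)) e5
  rw [hn', e1, e2, e3, e4, Un]
  push_cast at e5C ⊢
  linear_combination (Cz k * (n : ℂ)⁻¹ * (cc k n : ℂ) * (((k : ℝ) ^ (-(bt k + 1)) : ℝ) : ℂ) *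
    ((Real.Gamma (bt k + 1) : ℝ) : ℂ)) * e5C

/-- the `n`-th term of the Dirichlet series part -/
def Mterm (k n : ℕ) (z : ℂ) : ℂ :=
  Cz k * cexp (-(k * ell k z)) * ((cc k n : ℂ) *
    (cexp (-((bt k : ℂ) + 1) * log (I * k * ell k z - I * Real.log n)) * Gamma ((bt k : ℂ) + 1)))

lemma Mterm_eq {k n : ℕ} (hk : 1 ≤ k) (hn : 1 ≤ n) {z : ℂ} (hz : 0 < z.re) (hzi : 0 ≤ z.im) :
    Mterm k n z - 2 * Real.pi * (An k n * cexp (-((bt k + 1 : ℝ) : ℂ) * log (z - zn k n))) =
      Un k n * (cexp (-(k * log (z / zn k n))) *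
        cexp (-((bt k + 1 : ℝ) : ℂ) * log (I * log (z / zn k n))) -
        cexp (-((bt k + 1 : ℝ) : ℂ) * log (I * (z / zn k n - 1)))) := by
  have hkp : (0 : ℝ) < k := by exact_mod_cast hk
  have hk0 : (k : ℂ) ≠ 0 := by exact_mod_cast hkp.ne'
  have hnp : (0 : ℝ) < n := by exact_mod_cast hn
  have hω := om'_pos hk hn
  have hzn := zn_ne hk hn
  have hz0 : z ≠ 0 := by rintro rfl; simp at hz
  set w := z / zn k n with hw
  have hwz : z = zn k n * w := by rw [hw]; field_simp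
  have hw' : w = -(I * z) / (om' k n : ℂ) := by
    rw [hw, zn]
    have : (om' k n : ℂ) ≠ 0 := by exact_mod_cast hω.ne'
    field_simp
    rw [I_sq]; ring
  have hwre : w.re = z.im / om' k n := by
    rw [hw', div_ofReal_re, neg_re, I_mul_re]; ring
  have hwim : w.im = -z.re / om' k n := by
    rw [hw', div_ofReal_im, neg_im, I_mul_im]
  have hwre0 : 0 ≤ w.re := by rw [hwre]; positivity
  have hwim0 : w.im < 0 := by rw [hwim]; exact div_neg_of_neg_of_pos (by linarith) hω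
  have hw0 : w ≠ 0 := by intro h; rw [h] at hwim0; simp at hwim0
  have harg : arg w < 0 := arg_neg_iff.2 hwim0
  have harg2 : |arg w| ≤ Real.pi / 2 := abs_arg_le_pi_div_two_iff.2 hwre0
  have hargz : arg (zn k n) = Real.pi / 2 := by
    rw [zn, arg_real_mul _ hω, arg_I]
  have hlogz : log z = log (zn k n) + log w := by
    rw [hwz, log_mul hzn hw0]
    rw [hargz]
    have := abs_le.1 harg2
    constructor <;> linarith [this.1, this.2, Real.pi_pos]
  have hell : ell k z = Real.log n / k + log w := by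
    rw [ell, hlogz, log_zn hk hn]; ring
  have hre2 : 0 < (I * log w).re := by rw [I_mul_re, log_im]; linarith
  have hne2 : I * log w ≠ 0 := by intro h; rw [h] at hre2; simp at hre2
  have hre1 : 0 < (I * (w - 1)).re := by rw [I_mul_re, sub_im, one_im]; linarith
  have hne1 : I * (w - 1) ≠ 0 := by intro h; rw [h] at hre1; simp at hre1
  have e1 : I * k * ell k z - I * Real.log n = ((k : ℝ) : ℂ) * (I * log w) := by
    rw [hell]; push_cast; field_simp; ring
  have e2 : log (I * k * ell k z - I * Real.log n) = Real.log k + log (I * log w) := by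
    rw [e1, log_ofReal_mul hkp hne2]
  have e3 : z - zn k n = ((om' k n : ℝ) : ℂ) * (I * (w - 1)) := by
    rw [hwz, zn]; ring
  have e4 : log (z - zn k n) = Real.log (om' k n) + log (I * (w - 1)) := by
    rw [e3, log_ofReal_mul hω hne1]
  have e5 : cexp (-(k * ell k z)) = (((n : ℝ)⁻¹ : ℝ) : ℂ) * cexp (-(k * log w)) := by
    rw [hell]
    have : (-(k * (Real.log n / k + log w)) : ℂ) = ((-Real.log n : ℝ) : ℂ) + -(k * log w) := by
      push_cast; field_simp; ring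
    rw [this, Complex.exp_add, ← ofReal_exp, Real.exp_neg, Real.exp_log hnp]
  have e6 : ∀ x : ℝ, 0 < x → cexp (-((bt k + 1 : ℝ) : ℂ) * Real.log x) =
      ((x ^ (-(bt k + 1)) : ℝ) : ℂ) := by
    intro x hx
    rw [Real.rpow_def_of_pos hx, ofReal_exp]
    congr 1
    push_cast; ring
  have e7 : Gamma ((bt k : ℂ) + 1) = (Real.Gamma (bt k + 1) : ℝ) := by
    rw [← Complex.Gamma_ofReal]; push_cast; rfl
  have e8 : (-((bt k : ℂ) + 1)) = -((bt k + 1 : ℝ) : ℂ) := by push_cast; ring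
  rw [Mterm, e8, e2, e4, e5, mul_add, mul_add, Complex.exp_add, Complex.exp_add, e6 k hkp,
    e6 _ hω, e7]
  have e9 := Un_eq hk hn
  have e10 : 2 * Real.pi * (An k n * ((((om' k n) ^ (-(bt k + 1)) : ℝ) : ℂ) *
      cexp (-((bt k + 1 : ℝ) : ℂ) * log (I * (w - 1))))) =
      Un k n * cexp (-((bt k + 1 : ℝ) : ℂ) * log (I * (w - 1))) := by
    rw [← e9]; ring
  rw [e10, Un]; ring

lemma norm_Un_le (k : ℕ) (hk : 1 ≤ k) : ∃ K : ℝ, 0 ≤ K ∧ ∀ n : ℕ, 1 ≤ n →
    ‖Un k n‖ ≤ K * cc k n ∧ ‖Un k n‖ * (om' k n) ^ k ≤ K * cc k n := by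
  have hkp : (0 : ℝ) < k := by exact_mod_cast hk
  have hkr : (1 : ℝ) ≤ k := by exact_mod_cast hk
  have hbt : 0 < bt k + 1 := by rw [bt]; linarith
  set K1 := ‖Cz k‖ * (k : ℝ) ^ (-(bt k + 1)) * Real.Gamma (bt k + 1) with hK1
  have hG := Real.Gamma_pos_of_pos hbt
  have hK10 : 0 ≤ K1 := by positivity
  refine ⟨K1 * (1 + (2 * Real.pi * k) ^ k), by positivity, fun n hn => ?_⟩
  have hnp : (0 : ℝ) < n := by exact_mod_cast hn
  have hn1 : (1 : ℝ) ≤ n := by exact_mod_cast hn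
  have hcc := cc_nonneg k n
  have h1 : ‖Un k n‖ = K1 * cc k n * (n : ℝ)⁻¹ := by
    rw [Un, norm_mul, norm_mul, norm_mul, norm_mul, norm_real, norm_real, norm_real, norm_real,
      Real.norm_eq_abs, Real.norm_eq_abs, Real.norm_eq_abs, Real.norm_eq_abs,
      abs_of_pos (inv_pos.2 hnp), abs_of_nonneg hcc, abs_of_pos (Real.rpow_pos_of_pos hkp _),
      abs_of_pos hG, hK1]
    ring
  have h2 : (om' k n) ^ k = (2 * Real.pi * k) ^ k * n := by
    rw [om', mul_pow]
    congr 1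
    rw [← Real.rpow_natCast, ← Real.rpow_mul hnp.le, one_div_mul_cancel hkp.ne', Real.rpow_one]
  have h3 : (n : ℝ)⁻¹ ≤ 1 := inv_le_one_of_one_le₀ hn1
  have h4 : (0 : ℝ) ≤ (2 * Real.pi * k) ^ k := by positivity
  have h5 : 0 ≤ K1 * cc k n := by positivity
  constructor
  · rw [h1]
    calc K1 * cc k n * (n : ℝ)⁻¹ ≤ K1 * cc k n * 1 := by gcongr
      _ ≤ K1 * (1 + (2 * Real.pi * k) ^ k) * cc k n := by nlinarith
  · rw [h1, h2]
    have e : K1 * cc k n * (n : ℝ)⁻¹ * ((2 * Real.pi * k) ^ k * n) =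
        K1 * cc k n * (2 * Real.pi * k) ^ k := by field_simp
    rw [e]
    nlinarith

/-- the polar term at the `n`-th singularity and its conjugate -/
def TT (k : ℕ) (z : ℂ) (n : ℕ) : ℂ :=
  An k n * cexp (-((bt k + 1 : ℝ) : ℂ) * log (z - zn k n)) +
    conj (An k n) * cexp (-((bt k + 1 : ℝ) : ℂ) * log (z + zn k n))

lemma norm_An_le (k : ℕ) (hk : 1 ≤ k) : ∃ K : ℝ, 0 ≤ K ∧ ∀ n : ℕ, 1 ≤ n →
    ‖An k n‖ ≤ K * cc k n * (om' k n) ^ (bt k + 1) := by
  obtain ⟨K, hK0, hK⟩ := norm_Un_le k hk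
  refine ⟨K, hK0, fun n hn => ?_⟩
  have hω := om'_pos hk hn
  have h1 := (hK n hn).1
  have h2 := congrArg norm (Un_eq hk hn)
  rw [norm_mul, norm_mul, norm_mul, norm_real, norm_real, Real.norm_eq_abs, Real.norm_eq_abs,
    abs_of_pos Real.pi_pos, abs_of_pos (Real.rpow_pos_of_pos hω _)] at h2
  simp only [Complex.norm_ofNat] at h2
  have h3 : 2 * Real.pi * ‖An k n‖ = ‖Un k n‖ * (om' k n) ^ (bt k + 1) := by
    rw [← h2, mul_assoc _ (om' k n ^ (-(bt k + 1)) : ℝ), ← Real.rpow_add hω]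
    simp
  have h4 : 1 ≤ 2 * Real.pi := by have := Real.pi_gt_three; linarith
  have h5 := norm_nonneg (An k n)
  have h6 : 0 < om' k n ^ (bt k + 1) := Real.rpow_pos_of_pos hω _
  calc ‖An k n‖ ≤ 2 * Real.pi * ‖An k n‖ := by nlinarith
    _ = ‖Un k n‖ * (om' k n) ^ (bt k + 1) := h3
    _ ≤ _ := by gcongr

lemma om_le {k n : ℕ} (hk : 1 ≤ k) (hn : 1 ≤ n) {z : ℂ} (hz : 0 < z.re) (hz1 : z.re ≤ 1) :
    om' k n ≤ ‖z - zn k n‖ * ((1 + ‖z‖) / z.re) ∧ om' k n ≤ ‖z + zn k n‖ * ((1 + ‖z‖) / z.re) := by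
  have hω := om'_pos hk hn
  have hnz : ‖zn k n‖ = om' k n := by
    rw [zn, norm_mul, norm_I, mul_one, norm_real, Real.norm_eq_abs, abs_of_pos hω]
  have key : ∀ y : ℂ, z.re ≤ ‖y‖ → om' k n ≤ ‖z‖ + ‖y‖ → om' k n ≤ ‖y‖ * ((1 + ‖z‖) / z.re) := by
    intro y h1 h2
    rw [← mul_div_assoc, le_div_iff₀ hz]
    have h3 := norm_nonneg z
    have h4 := norm_nonneg y
    nlinarith
  constructor
  · refine key _ ?_ ?_
    · have := re_le_norm (z - zn k n)
      rwa [sub_re, zn_re, sub_zero] at this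
    · rw [← hnz]
      have := norm_sub_le z (z - zn k n)
      rwa [sub_sub_cancel] at this
  · refine key _ ?_ ?_
    · have := re_le_norm (z + zn k n)
      rwa [add_re, zn_re, add_zero] at this
    · rw [← hnz]
      have := norm_sub_le (z + zn k n) z
      rw [add_sub_cancel_left] at this
      linarith

lemma norm_TT_le (k : ℕ) (hk : 1 ≤ k) : ∃ K : ℝ, 0 ≤ K ∧ ∀ n : ℕ, ∀ z : ℂ, 0 < z.re → z.re ≤ 1 →
    ‖An k n * cexp (-((bt k + 1 : ℝ) : ℂ) * log (z - zn k n))‖ ≤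
      K * cc k n * ((1 + ‖z‖) / z.re) ^ (bt k + 1) ∧
    ‖conj (An k n) * cexp (-((bt k + 1 : ℝ) : ℂ) * log (z + zn k n))‖ ≤
      K * cc k n * ((1 + ‖z‖) / z.re) ^ (bt k + 1) := by
  obtain ⟨K, hK0, hK⟩ := norm_An_le k hk
  have hkr : (1 : ℝ) ≤ k := by exact_mod_cast hk
  have hbt : 0 < bt k + 1 := by rw [bt]; linarith
  refine ⟨K, hK0, fun n z hz hz1 => ?_⟩
  rcases Nat.eq_zero_or_pos n with hn | hn
  · subst hn
    rw [An_zero, cc_zero]; simp
  have hω := om'_pos hk hn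
  have hA := hK n hn
  obtain ⟨h1, h2⟩ := om_le hk hn hz hz1
  have hR : 0 < (1 + ‖z‖) / z.re := by positivity
  have hcc := cc_nonneg k n
  have key : ∀ y : ℂ, 0 < y.re → om' k n ≤ ‖y‖ * ((1 + ‖z‖) / z.re) →
      ‖cexp (-((bt k + 1 : ℝ) : ℂ) * log y)‖ ≤ (om' k n) ^ (-(bt k + 1)) *
        ((1 + ‖z‖) / z.re) ^ (bt k + 1) := by
    intro y hy h
    have hy0 : y ≠ 0 := by rintro rfl; simp at hy
    have hyn := norm_pos_iff.2 hy0
    rw [norm_exp_neg_mul_log hy0]
    have h3 : om' k n / ((1 + ‖z‖) / z.re) ≤ ‖y‖ := by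
      rw [div_le_iff₀ hR]; exact h
    calc ‖y‖ ^ (-(bt k + 1)) ≤ (om' k n / ((1 + ‖z‖) / z.re)) ^ (-(bt k + 1)) :=
          Real.rpow_le_rpow_of_nonpos (by positivity) h3 (by linarith)
      _ = _ := by
          rw [Real.div_rpow hω.le hR.le, Real.rpow_neg hR.le, div_inv_eq_mul]
  have e1 : (om' k n) ^ (bt k + 1) * (om' k n) ^ (-(bt k + 1)) = 1 := by
    rw [← Real.rpow_add hω]; simp
  have fin : ∀ (a : ℂ) (y : ℂ), ‖a‖ = ‖An k n‖ → 0 < y.re →
      om' k n ≤ ‖y‖ * ((1 + ‖z‖) / z.re) →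
      ‖a * cexp (-((bt k + 1 : ℝ) : ℂ) * log y)‖ ≤
        K * cc k n * ((1 + ‖z‖) / z.re) ^ (bt k + 1) := by
    intro a y ha hy h
    rw [norm_mul, ha]
    calc ‖An k n‖ * ‖cexp (-((bt k + 1 : ℝ) : ℂ) * log y)‖
        ≤ (K * cc k n * (om' k n) ^ (bt k + 1)) * ((om' k n) ^ (-(bt k + 1)) *
        ((1 + ‖z‖) / z.re) ^ (bt k + 1)) := by
          gcongr
          exact key y hy h
      _ = K * cc k n * ((1 + ‖z‖) / z.re) ^ (bt k + 1) *
          ((om' k n) ^ (bt k + 1) * (om' k n) ^ (-(bt k + 1))) := by ring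
      _ = _ := by rw [e1, mul_one]
  exact ⟨fin _ _ rfl (by rw [sub_re, zn_re, sub_zero]; exact hz) h1,
    fin _ _ (RCLike.norm_conj _) (by rw [add_re, zn_re, add_zero]; exact hz) h2⟩

lemma summable_TT (k : ℕ) (hk : 1 ≤ k) {z : ℂ} (hz : 0 < z.re) (hz1 : z.re ≤ 1) :
    Summable (TT k z) := by
  obtain ⟨K, hK0, hK⟩ := norm_TT_le k hk
  refine Summable.of_norm_bounded
    ((((summable_cc k).mul_left K).mul_right (((1 + ‖z‖) / z.re) ^ (bt k + 1))).mul_left 2)
    fun n => ?_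
  obtain ⟨h1, h2⟩ := hK n z hz hz1
  rw [TT]
  refine (norm_add_le _ _).trans ?_
  linarith

lemma TT_conj (k n : ℕ) {z : ℂ} (hz : 0 < z.re) :
    TT k (conj z) n = conj (TT k z n) := by
  have key : ∀ y : ℂ, 0 < y.re → cexp (-((bt k + 1 : ℝ) : ℂ) * log (conj y)) =
      conj (cexp (-((bt k + 1 : ℝ) : ℂ) * log y)) := by
    intro y hy
    rw [log_conj _ (by
      have h1 := (abs_lt.1 (abs_arg_lt hy)).2
      have := Real.pi_pos
      linarith), ← Complex.exp_conj]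
    congr 1
    rw [map_mul, map_neg, conj_ofReal]
  have hzn : conj (zn k n) = -zn k n := by
    rw [zn, map_mul, conj_ofReal, conj_I]; ring
  have e1 : conj z - zn k n = conj (z + zn k n) := by rw [map_add, hzn]; ring
  have e2 : conj z + zn k n = conj (z - zn k n) := by rw [map_sub, hzn]; ring
  have h1 : 0 < (z + zn k n).re := by rw [add_re, zn_re, add_zero]; exact hz
  have h2 : 0 < (z - zn k n).re := by rw [sub_re, zn_re, sub_zero]; exact hz
  rw [TT, TT, e1, e2, key _ h1, key _ h2, map_add, map_mul, map_mul, conj_conj]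
  ring

/-- **expansion of the transform over all singularities** -/
theorem uniform_expansion {k : ℕ} (hk : 2 ≤ k) {P : Polynomial ℝ} {Z : ℂ → ℂ}
    (hZ : DifferentiableOn ℂ Z {s : ℂ | 0 < s.re})
    (hZ' : ∀ s : ℂ, 0 < s.re → s ≠ 1 → Z s = riemannZeta s ^ k / s - Q P s) :
    ∃ C : ℝ, 0 ≤ C ∧ ∀ z : ℂ, 0 < z.re → z.re ≤ 1 →
      ‖Ig k (fun x => Err k P x - w0 k) z - ∑' n, TT k z n‖ ≤
        C * (1 / z.re) ^ bt k * (1 + ‖z‖) ^ bt k := by
  have hk1 : 1 ≤ k := by omega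
  have hkp : (0 : ℝ) < k := by exact_mod_cast hk1
  have hkr : (2 : ℝ) ≤ k := by exact_mod_cast hk
  have hbt : 1 ≤ bt k := by rw [bt]; linarith
  have hbtk : (k : ℝ) ≤ bt k := by rw [bt]; linarith
  obtain ⟨C₁, hC10, hC1⟩ := KEY0 hk hZ hZ'
  obtain ⟨C₂, hC20, hC2⟩ := phi_bound k (b := bt k) (by linarith)
  obtain ⟨K, hK0, hK⟩ := norm_Un_le k hk1
  obtain ⟨K₃, hK30, hK3⟩ := norm_An_le k hk1
  set S := ∑' m, cc k m with hS
  have hS0 : 0 ≤ S := tsum_nonneg (cc_nonneg k)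
  set C := 2 * C₁ + 2 * (K * C₂ * S) + K₃ * S with hC
  -- the closed upper quadrant
  have hup : ∀ z : ℂ, 0 < z.re → z.re ≤ 1 → 0 ≤ z.im →
      ‖Ig k (fun x => Err k P x - w0 k) z - ∑' n, TT k z n‖ ≤
        C * (1 / z.re) ^ bt k * (1 + ‖z‖) ^ bt k := by
    intro z hz hz1 hzi
    have hz0 : z ≠ 0 := by rintro rfl; simp at hz
    have hznm : 0 < ‖z‖ := norm_pos_iff.2 hz0
    have hrez : z.re ≤ ‖z‖ := re_le_norm z
    have h2pi : (0 : ℝ) < 2 * Real.pi := by positivity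
    have h2pi1 : (1 : ℝ) ≤ 2 * Real.pi := by have := Real.pi_gt_three; linarith
    set Y := (1 / z.re) ^ bt k * (1 + ‖z‖) ^ bt k with hY
    have hinv : 1 ≤ 1 / z.re := by rw [le_div_iff₀ hz]; linarith
    have hI1 : 1 ≤ (1 / z.re) ^ bt k := Real.one_le_rpow hinv (by linarith)
    have hN1 : 1 ≤ (1 + ‖z‖) ^ bt k := Real.one_le_rpow (by linarith) (by linarith)
    have hY1 : 1 ≤ Y := by
      calc (1 : ℝ) = 1 * 1 := by ring
        _ ≤ Y := by rw [hY]; gcongr
    -- elementary bounds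
    have hb1 : (‖z‖ / z.re) ^ bt k ≤ Y := by
      rw [div_eq_mul_one_div, Real.mul_rpow hznm.le (by positivity), mul_comm]
      rw [hY]
      gcongr
      linarith
    have hb2 : (1 / ‖z‖) ^ k ≤ Y := by
      calc (1 / ‖z‖) ^ k ≤ (1 / z.re) ^ k := by gcongr
        _ ≤ (1 / z.re) ^ bt k := by
            rw [← Real.rpow_natCast]
            exact Real.rpow_le_rpow_of_exponent_le hinv hbtk
        _ = (1 / z.re) ^ bt k * 1 := (mul_one _).symm
        _ ≤ Y := by rw [hY]; gcongr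
    have hb3 : (1 / ‖z‖) ^ k * (‖z‖ / z.re) ^ bt k ≤ 2 * Y := by
      rcases le_total 1 ‖z‖ with h | h
      · have : (1 / ‖z‖) ^ k ≤ 1 := pow_le_one₀ (by positivity) (by
          rw [div_le_one hznm]; exact h)
        calc (1 / ‖z‖) ^ k * (‖z‖ / z.re) ^ bt k ≤ 1 * Y := by gcongr
          _ ≤ 2 * Y := by linarith
      · have h1 : 1 ≤ 1 / ‖z‖ := by rw [le_div_iff₀ hznm]; linarith
        have h2 : (1 / ‖z‖) ^ k ≤ (1 / ‖z‖) ^ bt k := by
          rw [← Real.rpow_natCast]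
          exact Real.rpow_le_rpow_of_exponent_le h1 hbtk
        calc (1 / ‖z‖) ^ k * (‖z‖ / z.re) ^ bt k ≤ (1 / ‖z‖) ^ bt k * (‖z‖ / z.re) ^ bt k := by
              gcongr
          _ = (1 / z.re) ^ bt k * 1 := by
              rw [← Real.mul_rpow (by positivity) (by positivity), mul_one]
              congr 1; field_simp
          _ ≤ Y := by rw [hY]; gcongr
          _ ≤ 2 * Y := by linarith
    -- the series of the main part
    have hu0 : 0 < (I * k * ell k z).re := by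
      rw [u_re]
      have := (quad_arg hz hzi).2
      exact mul_pos hkp (by linarith)
    have hMn : HasSum (fun n => Mterm k n z) (Mn k z) := by
      have h1 := (main_hasSum k (by linarith : (0 : ℝ) ≤ bt k) hu0).mul_left
        (Cz k * cexp (-(k * ell k z)))
      exact h1
    -- the polar parts
    obtain ⟨K₄, hK40, hK4⟩ := norm_TT_le k hk1
    have hT1 : Summable fun n => An k n * cexp (-((bt k + 1 : ℝ) : ℂ) * log (z - zn k n)) :=
      Summable.of_norm_bounded (((summable_cc k).mul_left K₄).mul_right _)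
        fun n => (hK4 n z hz hz1).1
    have hT2 : Summable fun n => conj (An k n) * cexp (-((bt k + 1 : ℝ) : ℂ) * log (z + zn k n)) :=
      Summable.of_norm_bounded (((summable_cc k).mul_left K₄).mul_right _)
        fun n => (hK4 n z hz hz1).2
    have hTT : ∑' n, TT k z n = (∑' n, An k n * cexp (-((bt k + 1 : ℝ) : ℂ) * log (z - zn k n))) +
        ∑' n, conj (An k n) * cexp (-((bt k + 1 : ℝ) : ℂ) * log (z + zn k n)) := by
      rw [← hT1.tsum_add hT2]; rfl
    -- difference of main part and polar part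
    have hD : ‖Mn k z - 2 * Real.pi * ∑' n, An k n *
        cexp (-((bt k + 1 : ℝ) : ℂ) * log (z - zn k n))‖ ≤ 2 * (K * C₂ * S) * Y := by
      rw [← hMn.tsum_eq, ← tsum_mul_left, ← hMn.summable.tsum_sub (hT1.mul_left _)]
      have e1 : 2 * (K * C₂ * S) * Y = ∑' n, (K * C₂ * (2 * Y)) * cc k n := by
        rw [tsum_mul_left]; ring
      rw [e1]
      refine tsum_of_norm_bounded ((summable_cc k).mul_left _).hasSum fun n => ?_
      rcases Nat.eq_zero_or_pos n with hn | hn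
      · subst hn
        rw [Mterm, An_zero, cc_zero]; simp
      have hω := om'_pos hk1 hn
      have hznn : ‖zn k n‖ = om' k n := by
        rw [zn, norm_mul, norm_I, mul_one, norm_real, Real.norm_eq_abs, abs_of_pos hω]
      have hw' : z / zn k n = -(I * z) / (om' k n : ℂ) := by
        rw [zn]
        have : (om' k n : ℂ) ≠ 0 := by exact_mod_cast hω.ne'
        field_simp
        rw [I_sq]; ring
      have hwre : (z / zn k n).re = z.im / om' k n := by
        rw [hw', div_ofReal_re, neg_re, I_mul_re]; ring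
      have hwim : (z / zn k n).im = -z.re / om' k n := by
        rw [hw', div_ofReal_im, neg_im, I_mul_im]
      have hwre0 : 0 ≤ (z / zn k n).re := by rw [hwre]; positivity
      have hwim0 : (z / zn k n).im < 0 := by
        rw [hwim]; exact div_neg_of_neg_of_pos (by linarith) hω
      have h1 := hC2 _ hwre0 hwim0
      rw [norm_div, hznn, hwim] at h1
      have e2 : ‖z‖ / om' k n / (-(-z.re / om' k n)) = ‖z‖ / z.re := by field_simp
      have e3 : (1 / (‖z‖ / om' k n)) ^ k = (1 / ‖z‖) ^ k * (om' k n) ^ k := by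
        rw [← mul_pow]; congr 1; field_simp
      rw [e2, e3] at h1
      rw [Mterm_eq hk1 hn hz hzi, norm_mul]
      obtain ⟨hU1, hU2⟩ := hK n hn
      have hcc := cc_nonneg k n
      calc ‖Un k n‖ * _ ≤ ‖Un k n‖ * (C₂ * ((‖z‖ / z.re) ^ bt k + (1 / ‖z‖) ^ k * (om' k n) ^ k)) := by
            gcongr
        _ = C₂ * (‖Un k n‖ * (‖z‖ / z.re) ^ bt k + (‖Un k n‖ * (om' k n) ^ k) * (1 / ‖z‖) ^ k) := by
            ring
        _ ≤ C₂ * ((K * cc k n) * Y + (K * cc k n) * Y) := by gcongr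
        _ = _ := by ring
    -- the conjugate part is bounded
    have hconj : ‖∑' n, conj (An k n) * cexp (-((bt k + 1 : ℝ) : ℂ) * log (z + zn k n))‖ ≤
        K₃ * S := by
      rw [hS, ← tsum_mul_left]
      refine tsum_of_norm_bounded ((summable_cc k).mul_left _).hasSum fun n => ?_
      rcases Nat.eq_zero_or_pos n with hn | hn
      · subst hn
        rw [An_zero, cc_zero]; simp
      have hω := om'_pos hk1 hn
      have hy : 0 < (z + zn k n).re := by rw [add_re, zn_re, add_zero]; exact hz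
      have hy0 : z + zn k n ≠ 0 := by intro h; rw [h] at hy; simp at hy
      have h1 : om' k n ≤ ‖z + zn k n‖ := by
        have := (le_abs_self _).trans (abs_im_le_norm (z + zn k n))
        rw [add_im, zn_im] at this
        linarith
      rw [norm_mul, RCLike.norm_conj, norm_exp_neg_mul_log hy0]
      have h2 : ‖z + zn k n‖ ^ (-(bt k + 1)) ≤ (om' k n) ^ (-(bt k + 1)) :=
        Real.rpow_le_rpow_of_nonpos hω h1 (by linarith)
      have e1 : (om' k n) ^ (bt k + 1) * (om' k n) ^ (-(bt k + 1)) = 1 := by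
        rw [← Real.rpow_add hω]; simp
      have hcc := cc_nonneg k n
      calc ‖An k n‖ * ‖z + zn k n‖ ^ (-(bt k + 1)) ≤
            (K₃ * cc k n * (om' k n) ^ (bt k + 1)) * (om' k n) ^ (-(bt k + 1)) := by
              gcongr
              exact hK3 n hn
        _ = K₃ * cc k n * ((om' k n) ^ (bt k + 1) * (om' k n) ^ (-(bt k + 1))) := by ring
        _ = K₃ * cc k n := by rw [e1, mul_one]
    -- assembly
    have hA := hC1 z hz hzi
    have hA' : ‖2 * Real.pi * Ig k (fun x => Err k P x - w0 k) z - Mn k z‖ ≤ 2 * C₁ * Y := by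
      refine hA.trans ?_
      calc C₁ * (1 / ‖z‖) ^ k * (‖z‖ / z.re) ^ bt k = C₁ * ((1 / ‖z‖) ^ k * (‖z‖ / z.re) ^ bt k) := by
            ring
        _ ≤ C₁ * (2 * Y) := by gcongr
        _ = _ := by ring
    set T1 := ∑' n, An k n * cexp (-((bt k + 1 : ℝ) : ℂ) * log (z - zn k n)) with hT1def
    set T2 := ∑' n, conj (An k n) * cexp (-((bt k + 1 : ℝ) : ℂ) * log (z + zn k n)) with hT2def
    set G := Ig k (fun x => Err k P x - w0 k) z with hG
    have h5 : ‖G - T1‖ ≤ (2 * C₁ + 2 * (K * C₂ * S)) * Y := by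
      have e1 : ((2 * Real.pi : ℝ) : ℂ) * (G - T1) = (2 * Real.pi * G - Mn k z) +
          (Mn k z - 2 * Real.pi * T1) := by push_cast; ring
      have h6 : 2 * Real.pi * ‖G - T1‖ ≤ 2 * C₁ * Y + 2 * (K * C₂ * S) * Y := by
        have e2 : 2 * Real.pi * ‖G - T1‖ = ‖((2 * Real.pi : ℝ) : ℂ) * (G - T1)‖ := by
          rw [norm_mul, norm_real, Real.norm_eq_abs, abs_of_pos h2pi]
        rw [e2, e1]
        exact (norm_add_le _ _).trans (add_le_add hA' hD)
      have h7 := norm_nonneg (G - T1)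
      nlinarith
    rw [hTT, mul_assoc, ← hY]
    calc ‖G - (T1 + T2)‖ = ‖(G - T1) - T2‖ := by congr 1; ring
      _ ≤ (2 * C₁ + 2 * (K * C₂ * S)) * Y + K₃ * S := (norm_sub_le _ _).trans (add_le_add h5 hconj)
      _ ≤ (2 * C₁ + 2 * (K * C₂ * S)) * Y + K₃ * S * Y := by
          have : 0 ≤ K₃ * S := by positivity
          nlinarith
      _ = C * Y := by rw [hC]; ring
  refine ⟨C, by positivity, fun z hz hz1 => ?_⟩
  rcases le_total 0 z.im with h | h
  · exact hup z hz hz1 h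
  · have h1 := hup (conj z) (by simpa using hz) (by simpa using hz1) (by simpa using h)
    rw [Ig_conj, RCLike.norm_conj, conj_re] at h1
    have e1 : ∑' n, TT k (conj z) n = conj (∑' n, TT k z n) := by
      rw [conj_tsum]
      exact tsum_congr fun n => TT_conj k n hz
    rw [e1, ← map_sub, RCLike.norm_conj] at h1
    exact h1

end

end Pool.Agent.Lib.MP_bc6037_nt
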