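import Mathlib

set_option autoImplicit false

/-!
Fourier representation of smooth compactly supported weights and the resulting formula for
integrals against damped weights.
-/

open Complex Filter Topology Set MeasureTheory FourierTransform
open scoped ContDiff SchwartzMap

namespace Pool.Agent.Lib.MP_bc6037_nt

/-- Fourier representation of a smooth compactly supported weight -/
theorem fourier_rep {ψ : ℝ → ℝ} (hψ : ContDiff ℝ ∞ ψ) (hc : HasCompactSupport ψ) :
    ∃ h : ℝ → ℂ, Continuous h ∧ (∀ L : ℕ, Integrable fun ξ : ℝ => (1 + |ξ|) ^ L * ‖h ξ‖) ∧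
      ∀ v : ℝ, (ψ v : ℂ) = ∫ ξ : ℝ, h ξ * cexp (2 * Real.pi * ξ * v * I) := by
  have hφ : ContDiff ℝ ∞ fun v : ℝ => (ψ v : ℂ) := ofRealCLM.contDiff.comp hψ
  have hφc : HasCompactSupport fun v : ℝ => (ψ v : ℂ) :=
    hc.comp_left (g := fun x : ℝ => (x : ℂ)) (by simp)
  set f : 𝓢(ℝ, ℂ) := hφc.toSchwartzMap hφ with hf
  have hfv : ∀ v, f v = (ψ v : ℂ) := fun v => rfl
  set F : 𝓢(ℝ, ℂ) := 𝓕 f with hF
  refine ⟨fun ξ => F ξ, F.continuous, fun L => ?_, fun v => ?_⟩
  · have h1 : Integrable fun ξ : ℝ => 2 ^ L * (‖ξ‖ ^ 0 * ‖F ξ‖ + ‖ξ‖ ^ L * ‖F ξ‖) :=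
      ((F.integrable_pow_mul volume 0).add (F.integrable_pow_mul volume L)).const_mul _
    refine h1.mono' ?_ (Eventually.of_forall fun ξ => ?_)
    · refine Continuous.aestronglyMeasurable ?_
      exact ((continuous_const.add continuous_abs).pow L).mul F.continuous.norm
    · have h2 : 0 ≤ |ξ| := abs_nonneg ξ
      have h3 : (1 + |ξ|) ^ L ≤ 2 ^ L * (1 + |ξ| ^ L) := by
        rcases le_total |ξ| 1 with h | h
        · calc (1 + |ξ|) ^ L ≤ 2 ^ L := by gcongr; linarith
            _ ≤ 2 ^ L * (1 + |ξ| ^ L) := by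
              have : 0 ≤ |ξ| ^ L := by positivity
              have : (0 : ℝ) < 2 ^ L := by positivity
              nlinarith
        · calc (1 + |ξ|) ^ L ≤ (2 * |ξ|) ^ L := by gcongr; linarith
            _ = 2 ^ L * |ξ| ^ L := mul_pow _ _ _
            _ ≤ 2 ^ L * (1 + |ξ| ^ L) := by
              have : (0 : ℝ) < 2 ^ L := by positivity
              nlinarith
      rw [Real.norm_eq_abs, abs_of_nonneg (by positivity), Real.norm_eq_abs, pow_zero, one_mul]
      have h4 := norm_nonneg (F ξ)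
      calc (1 + |ξ|) ^ L * ‖F ξ‖ ≤ 2 ^ L * (1 + |ξ| ^ L) * ‖F ξ‖ := by gcongr
        _ = _ := by ring
  · have h1 : 𝓕⁻ (𝓕 (f : ℝ → ℂ)) v = f v := by
      have h2 : 𝓕 (f : ℝ → ℂ) = (F : ℝ → ℂ) := (SchwartzMap.fourier_coe f).symm
      rw [f.continuous.fourierInv_fourier_eq f.integrable (by rw [h2]; exact F.integrable)]
    rw [Real.fourierInv_eq', hfv] at h1
    rw [← h1]
    congr 1
    funext ξ
    rw [smul_eq_mul, hF, SchwartzMap.fourier_coe, mul_comm]
    congr 2
    simp only [Real.inner_apply]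
    push_cast
    ring

/-- Fubini for weights represented by damped exponentials -/
theorem kernel_fubini {α : Type*} [MeasurableSpace α] {μ : Measure α} [SFinite μ] {X : α → ℝ}
    (hX : Measurable X) {g : α → ℂ} {δ γ : ℝ}
    (hg : Integrable (fun a => g a * ((Real.exp (-(δ * X a)) : ℝ) : ℂ)) μ)
    {W : ℝ → ℝ} {h : ℝ → ℂ} (hi : Integrable h)
    (hrep : ∀ v : ℝ, (W v : ℂ) = ∫ ξ : ℝ, h ξ * cexp (-((δ - 2 * Real.pi * ξ * γ * I) * v))) :
    ∫ a, g a * (W (X a) : ℂ) ∂μ =
      ∫ ξ : ℝ, h ξ * (∫ a, g a * cexp (-((δ - 2 * Real.pi * ξ * γ * I) * X a)) ∂μ) ∧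
    Integrable fun ξ : ℝ =>
      h ξ * (∫ a, g a * cexp (-((δ - 2 * Real.pi * ξ * γ * I) * X a)) ∂μ) := by
  have hprod : Integrable (Function.uncurry fun (a : α) (ξ : ℝ) =>
      g a * (h ξ * cexp (-((δ - 2 * Real.pi * ξ * γ * I) * X a)))) (μ.prod volume) := by
    have h1 := hg.mul_prod hi
    have h2 : AEStronglyMeasurable (fun p : α × ℝ => cexp ((2 * Real.pi * p.2 * γ * X p.1 : ℝ) * I))
        (μ.prod volume) := by
      refine Measurable.aestronglyMeasurable ?_
      have m1 : Measurable fun p : α × ℝ => X p.1 := hX.comp measurable_fst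
      have m2 : Measurable fun p : α × ℝ => p.2 := measurable_snd
      have m3 : Measurable fun p : α × ℝ => (2 * Real.pi * p.2 * γ * X p.1 : ℝ) :=
        ((m2.const_mul _).mul_const _).mul m1
      exact Complex.measurable_exp.comp ((measurable_ofReal.comp m3).mul_const I)
    have h3 := h1.bdd_mul (c := 1) h2 (Eventually.of_forall fun p => by
      rw [Complex.norm_exp_ofReal_mul_I])
    refine h3.congr (Eventually.of_forall fun p => ?_)
    simp only [Function.uncurry]
    have e1 : cexp (-((δ - 2 * Real.pi * p.2 * γ * I) * X p.1)) =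
        ((Real.exp (-(δ * X p.1)) : ℝ) : ℂ) * cexp ((2 * Real.pi * p.2 * γ * X p.1 : ℝ) * I) := by
      rw [ofReal_exp, ← Complex.exp_add]
      congr 1
      push_cast
      ring
    rw [e1]
    ring
  refine ⟨?_, ?_⟩
  swap
  · refine hprod.integral_prod_right.congr (Eventually.of_forall fun ξ => ?_)
    simp only [Function.uncurry]
    rw [← integral_const_mul]
    congr 1
    funext a
    ring
  calc ∫ a, g a * (W (X a) : ℂ) ∂μ
      = ∫ a, (∫ ξ : ℝ, g a * (h ξ * cexp (-((δ - 2 * Real.pi * ξ * γ * I) * X a)))) ∂μ := by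
        congr 1
        funext a
        rw [hrep, integral_const_mul]
    _ = ∫ ξ : ℝ, (∫ a, g a * (h ξ * cexp (-((δ - 2 * Real.pi * ξ * γ * I) * X a))) ∂μ) :=
        integral_integral_swap hprod
    _ = _ := by
        congr 1
        funext ξ
        rw [← integral_const_mul]
        congr 1
        funext a
        ring

end Pool.Agent.Lib.MP_bc6037_nt
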