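import Mathlib
import Pool.Agent.Lib.MP_bc6037_nt.Singularity
import Pool.Agent.Lib.MP_bc6037_nt.Kernel

set_option autoImplicit false

/-!
Window weights `ψ((v - V)/H) exp(-(v - V)/V)`, `H = κ V^ε`, and resonance in short windows.
-/

open Complex Filter Topology Set MeasureTheory
open scoped ContDiff

namespace Pool.Agent.Lib.MP_bc6037_nt

open DeltaMellin ZetaGrowth

/-- the window length in the variable `v = x^{1/k}` -/
noncomputable def HH (κ ε V : ℝ) : ℝ := κ * V ^ ε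

/-- the window weight -/
noncomputable def Wn (ψ : ℝ → ℝ) (κ ε V v : ℝ) : ℝ :=
  ψ ((v - V) / HH κ ε V) * Real.exp (-((v - V) / V))

lemma HH_pos {κ ε V : ℝ} (hκ : 0 < κ) (hV : 0 < V) : 0 < HH κ ε V :=
  mul_pos hκ (Real.rpow_pos_of_pos hV _)

lemma HH_tendsto {κ ε : ℝ} (hκ : 0 < κ) (hε : 0 < ε) : Tendsto (HH κ ε) atTop atTop :=
  (tendsto_rpow_atTop hε).const_mul_atTop hκ

/-- coefficient function of the representation -/
noncomputable def hV (h : ℝ → ℂ) (κ ε V ξ : ℝ) : ℂ :=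
  h ξ * cexp (1 - 2 * Real.pi * ξ * (V / HH κ ε V) * I)

lemma norm_hV (h : ℝ → ℂ) (κ ε V ξ : ℝ) : ‖hV h κ ε V ξ‖ = Real.exp 1 * ‖h ξ‖ := by
  have e1 : (1 - 2 * Real.pi * ξ * (V / HH κ ε V) * I : ℂ) =
      ((1 : ℝ) : ℂ) + ((-(2 * Real.pi * ξ * (V / HH κ ε V)) : ℝ) : ℂ) * I := by push_cast; ring
  rw [hV, norm_mul, e1, Complex.exp_add, norm_mul, Complex.norm_exp_ofReal_mul_I, mul_one,
    Complex.norm_exp, ofReal_re, mul_comm]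

lemma hV_continuous {h : ℝ → ℂ} (hh : Continuous h) (κ ε V : ℝ) : Continuous (hV h κ ε V) := by
  unfold hV
  exact hh.mul (by fun_prop)

lemma Wn_rep {ψ : ℝ → ℝ} {h : ℝ → ℂ}
    (hrep : ∀ v : ℝ, (ψ v : ℂ) = ∫ ξ : ℝ, h ξ * cexp (2 * Real.pi * ξ * v * I))
    {κ ε V : ℝ} (hκ : 0 < κ) (hV0 : 0 < V) (v : ℝ) :
    (Wn ψ κ ε V v : ℂ) = ∫ ξ : ℝ, hV h κ ε V ξ *
      cexp (-((((1 / V : ℝ) : ℂ) - 2 * Real.pi * ξ * ((1 / HH κ ε V : ℝ) : ℂ) * I) * v)) := by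
  have hH := HH_pos (ε := ε) hκ hV0
  have hHc : (HH κ ε V : ℂ) ≠ 0 := by exact_mod_cast hH.ne'
  have hVc : (V : ℂ) ≠ 0 := by exact_mod_cast hV0.ne'
  rw [Wn, ofReal_mul, hrep, ← integral_mul_const]
  congr 1
  funext ξ
  rw [hV, mul_assoc (h ξ), mul_assoc (h ξ)]
  congr 1
  rw [ofReal_exp, ← Complex.exp_add, ← Complex.exp_add]
  congr 1
  push_cast
  field_simp
  ring

/-- the shift of the frequency -/
noncomputable def ws (κ ε V ξ : ℝ) : ℂ :=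
  ((1 / V : ℝ) : ℂ) - 2 * Real.pi * ξ * ((1 / HH κ ε V : ℝ) : ℂ) * I

lemma ws_re (κ ε V ξ : ℝ) : (ws κ ε V ξ).re = 1 / V := by
  have : ws κ ε V ξ = ((1 / V : ℝ) : ℂ) + ((-(2 * Real.pi * ξ * (1 / HH κ ε V)) : ℝ) : ℂ) * I := by
    rw [ws]; push_cast; ring
  rw [this]; simp

lemma ws_ne {κ ε V ξ : ℝ} (hV0 : 0 < V) : ws κ ε V ξ ≠ 0 := by
  intro h
  have := ws_re κ ε V ξ
  rw [h, zero_re] at this
  have : 0 < 1 / V := by positivity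
  linarith

lemma ws_norm_le {κ ε V ξ : ℝ} (hκ : 0 < κ) (hV0 : 0 < V) :
    ‖ws κ ε V ξ‖ ≤ 1 / V + 2 * Real.pi * |ξ| / HH κ ε V := by
  have hH := HH_pos (ε := ε) hκ hV0
  have : ws κ ε V ξ = ((1 / V : ℝ) : ℂ) + ((-(2 * Real.pi * ξ * (1 / HH κ ε V)) : ℝ) : ℂ) * I := by
    rw [ws]; push_cast; ring
  rw [this]
  refine (norm_add_le _ _).trans (le_of_eq ?_)
  rw [norm_mul, norm_I, mul_one, norm_real, norm_real, Real.norm_eq_abs, Real.norm_eq_abs,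
    abs_of_pos (by positivity), abs_neg, abs_mul, abs_mul, abs_of_pos (by positivity : 0 < 2 * Real.pi),
    abs_of_pos (by positivity : 0 < 1 / HH κ ε V)]
  ring

/-- the transform far from the base frequency -/
lemma far_bound {k : ℕ} (hk : 1 ≤ k) {P : Polynomial ℝ} {Z : ℂ → ℂ}
    (hZ : DifferentiableOn ℂ Z {s : ℂ | 0 < s.re})
    (hZ' : ∀ s : ℂ, 0 < s.re → s ≠ 1 → Z s = riemannZeta s ^ k / s - Q P s)
    {z₀ : ℂ} (hz₀ : z₀.re = 0) {κ ε : ℝ} (hκ : 0 < κ) (hε : 0 < ε) {r : ℝ} (hr : 0 < r) :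
    ∃ C : ℝ, 0 ≤ C ∧ ∃ L : ℕ, ∀ᶠ V : ℝ in atTop, ∀ ξ : ℝ, r ≤ ‖ws κ ε V ξ‖ →
      ‖Ig k (fun x => Err k P x - w0 k) (z₀ + ws κ ε V ξ)‖ ≤ C * (1 + |ξ|) ^ L := by
  obtain ⟨C, hC0, hC⟩ := Ig_UB hk hZ hZ'
  set m := ⌈1 / ε⌉₊ with hm
  set K := 1 + 4 * Real.pi / (r * κ) with hK
  have hK1 : 1 ≤ K := by
    have : 0 < 4 * Real.pi / (r * κ) := by positivity
    linarith
  refine ⟨C * (‖z₀‖ + 8) ^ (3 * k + 1) * K ^ (m * (4 * k + 1)), by positivity,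
    3 * k + 1 + m * (4 * k + 1), ?_⟩
  filter_upwards [eventually_ge_atTop (2 / r), eventually_ge_atTop 1,
    (HH_tendsto hκ hε).eventually_ge_atTop 1] with V h1 h2 h3 ξ hξ
  have hV0 : 0 < V := by linarith
  have hH0 := HH_pos (ε := ε) hκ hV0
  have habs := abs_nonneg ξ
  have h4 := ws_norm_le (ε := ε) (ξ := ξ) hκ hV0
  have h5 : 1 / V ≤ r / 2 := by
    rw [div_le_iff₀ hr] at h1
    rw [div_le_iff₀ hV0]; linarith
  have h6 : r / 2 ≤ 2 * Real.pi * |ξ| / HH κ ε V := by linarith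
  have h7 : V ^ ε ≤ 4 * Real.pi / (r * κ) * |ξ| := by
    rw [le_div_iff₀ hH0, HH] at h6
    have : V ^ ε * (r * κ) ≤ 4 * Real.pi * |ξ| := by nlinarith
    rw [div_mul_eq_mul_div, le_div_iff₀ (by positivity)]
    exact this
  have h8 : V ^ ε ≤ K * (1 + |ξ|) := by
    refine h7.trans ?_
    have : 0 < 4 * Real.pi / (r * κ) := by positivity
    nlinarith
  have hone : 1 ≤ K * (1 + |ξ|) := by nlinarith
  have h9 : V ≤ (K * (1 + |ξ|)) ^ m := by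
    calc V = (V ^ ε) ^ (1 / ε) := by
          rw [← Real.rpow_mul hV0.le, mul_one_div_cancel hε.ne', Real.rpow_one]
      _ ≤ (K * (1 + |ξ|)) ^ (1 / ε) := by
          apply Real.rpow_le_rpow (by positivity) h8 (by positivity)
      _ ≤ (K * (1 + |ξ|)) ^ (m : ℝ) := by
          apply Real.rpow_le_rpow_of_exponent_le hone (Nat.le_ceil _)
      _ = _ := Real.rpow_natCast _ _
  set z := z₀ + ws κ ε V ξ with hz
  have hre : z.re = 1 / V := by rw [hz, add_re, hz₀, ws_re, zero_add]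
  have hrepos : 0 < z.re := by rw [hre]; positivity
  have hz0 : z ≠ 0 := by intro h; rw [h] at hrepos; simp at hrepos
  have hzn : 0 < ‖z‖ := norm_pos_iff.2 hz0
  have hzle : ‖z‖ ≤ (‖z₀‖ + 8) * (1 + |ξ|) := by
    have h10 : 1 / V ≤ 1 := by rw [div_le_iff₀ hV0]; linarith
    have h11 : 2 * Real.pi * |ξ| / HH κ ε V ≤ 7 * |ξ| := by
      rw [div_le_iff₀ hH0]
      have := Real.pi_lt_d2
      nlinarith
    have h12 : ‖z‖ ≤ ‖z₀‖ + ‖ws κ ε V ξ‖ := norm_add_le _ _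
    have := norm_nonneg z₀
    nlinarith
  have h13 := hC z hrepos
  rw [hre] at h13
  have h14 : (1 / ‖z‖) ^ k * (‖z‖ / (1 / V)) ^ (4 * k + 1) = ‖z‖ ^ (3 * k + 1) * V ^ (4 * k + 1) := by
    have e : ‖z‖ / (1 / V) = ‖z‖ * V := by field_simp
    rw [e, mul_pow, show 4 * k + 1 = k + (3 * k + 1) by ring, pow_add ‖z‖, one_div, inv_pow]
    field_simp
  calc ‖Ig k (fun x => Err k P x - w0 k) z‖ ≤ C * ((1 / ‖z‖) ^ k * (‖z‖ / (1 / V)) ^ (4 * k + 1)) := by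
        rw [← mul_assoc]; exact h13
    _ = C * (‖z‖ ^ (3 * k + 1) * V ^ (4 * k + 1)) := by rw [h14]
    _ ≤ C * (((‖z₀‖ + 8) * (1 + |ξ|)) ^ (3 * k + 1) * ((K * (1 + |ξ|)) ^ m) ^ (4 * k + 1)) := by
        gcongr
    _ = _ := by
      rw [← pow_mul, mul_pow, mul_pow, pow_add (1 + |ξ|)]
      ring

/-- pointwise bound near the `n`-th frequency -/
lemma bd_n {k : ℕ} (hk : 2 ≤ k) {P : Polynomial ℝ} {Z : ℂ → ℂ}
    (hZ : DifferentiableOn ℂ Z {s : ℂ | 0 < s.re})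
    (hZ' : ∀ s : ℂ, 0 < s.re → s ≠ 1 → Z s = riemannZeta s ^ k / s - Q P s) {n : ℕ} (hn : 1 ≤ n)
    {κ ε : ℝ} (hκ : 0 < κ) (hε : 0 < ε) :
    ∃ C : ℝ, 0 ≤ C ∧ ∃ L : ℕ, ∀ᶠ V : ℝ in atTop, ∀ ξ : ℝ,
      ‖Ig k (fun x => Err k P x - w0 k) (zn k n + ws κ ε V ξ) -
        An k n * cexp (-((bt k + 1 : ℝ) : ℂ) * log (ws κ ε V ξ))‖ ≤
        C * V ^ bt k * (1 + |ξ|) ^ L := by
  have hk1 : 1 ≤ k := by omega
  have hkr : (2 : ℝ) ≤ k := by exact_mod_cast hk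
  have hbt : 1 ≤ bt k := by rw [bt]; linarith
  obtain ⟨C₁, hC10, hC1⟩ := KEY hk hZ hZ' hn
  obtain ⟨r, hr0, hr⟩ := Metric.eventually_nhds_iff.1 hC1
  obtain ⟨C₂, hC20, L, hL⟩ := far_bound hk1 hZ hZ' (zn_re k n) hκ hε hr0
  refine ⟨C₁ + C₂ + ‖An k n‖ * r ^ (-(bt k + 1)), by positivity, L, ?_⟩
  filter_upwards [hL, eventually_ge_atTop 1] with V h1 hV ξ
  have hV0 : 0 < V := by linarith
  have hY : 1 ≤ V ^ bt k := Real.one_le_rpow hV (by linarith)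
  have hpow : (1 : ℝ) ≤ (1 + |ξ|) ^ L := one_le_pow₀ (by linarith [abs_nonneg ξ])
  have hre : (zn k n + ws κ ε V ξ).re = 1 / V := by rw [add_re, zn_re, zero_add, ws_re]
  have hne := ws_ne (κ := κ) (ε := ε) (ξ := ξ) hV0
  have hr1 : 0 ≤ ‖An k n‖ * r ^ (-(bt k + 1)) := by positivity
  by_cases hnear : ‖ws κ ε V ξ‖ < r
  · have h2 := hr (y := zn k n + ws κ ε V ξ) (by rw [dist_eq_norm, add_sub_cancel_left]; exact hnear)
      (by rw [hre]; positivity)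
    rw [add_sub_cancel_left, hre, one_div_one_div] at h2
    calc _ ≤ C₁ * V ^ bt k := h2
      _ = C₁ * V ^ bt k * 1 := by ring
      _ ≤ (C₁ + C₂ + ‖An k n‖ * r ^ (-(bt k + 1))) * V ^ bt k * (1 + |ξ|) ^ L := by
        gcongr
        linarith
  · push Not at hnear
    have h2 := h1 ξ hnear
    have h3 : ‖An k n * cexp (-((bt k + 1 : ℝ) : ℂ) * log (ws κ ε V ξ))‖ ≤
        ‖An k n‖ * r ^ (-(bt k + 1)) := by
      rw [norm_mul, norm_exp_neg_mul_log hne]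
      gcongr ?_ * ?_
      exact Real.rpow_le_rpow_of_nonpos hr0 hnear (by linarith)
    calc _ ≤ C₂ * (1 + |ξ|) ^ L + ‖An k n‖ * r ^ (-(bt k + 1)) :=
          (norm_sub_le _ _).trans (add_le_add h2 h3)
      _ ≤ C₂ * (1 + |ξ|) ^ L + ‖An k n‖ * r ^ (-(bt k + 1)) * (1 + |ξ|) ^ L := by
          exact add_le_add le_rfl (le_mul_of_one_le_right hr1 hpow)
      _ = (C₂ + ‖An k n‖ * r ^ (-(bt k + 1))) * 1 * (1 + |ξ|) ^ L := by ring
      _ ≤ _ := by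
          gcongr
          linarith

/-- pointwise bound at frequency zero -/
lemma bd_zero {k : ℕ} (hk : 2 ≤ k) {P : Polynomial ℝ} {Z : ℂ → ℂ}
    (hZ : DifferentiableOn ℂ Z {s : ℂ | 0 < s.re})
    (hZ' : ∀ s : ℂ, 0 < s.re → s ≠ 1 → Z s = riemannZeta s ^ k / s - Q P s)
    {κ ε : ℝ} (hκ : 0 < κ) (hε : 0 < ε) :
    ∃ C : ℝ, 0 ≤ C ∧ ∃ L : ℕ, ∀ᶠ V : ℝ in atTop, ∀ ξ : ℝ,
      ‖Ig k (fun x => Err k P x - w0 k) (0 + ws κ ε V ξ)‖ ≤
        C * V ^ bt k * (1 + |ξ|) ^ L := by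
  have hk1 : 1 ≤ k := by omega
  have hkr : (2 : ℝ) ≤ k := by exact_mod_cast hk
  have hbt : 1 ≤ bt k := by rw [bt]; linarith
  obtain ⟨C₁, hC10, hC1⟩ := KEYzero hk hZ hZ'
  obtain ⟨C₂, hC20, L, hL⟩ := far_bound hk1 hZ hZ' zero_re hκ hε one_pos
  refine ⟨C₁ + C₂, by positivity, L, ?_⟩
  filter_upwards [hL, eventually_ge_atTop 1] with V h1 hV ξ
  have hV0 : 0 < V := by linarith
  have hY : 1 ≤ V ^ bt k := Real.one_le_rpow hV (by linarith)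
  have hpow : (1 : ℝ) ≤ (1 + |ξ|) ^ L := one_le_pow₀ (by linarith [abs_nonneg ξ])
  rcases le_total 1 ‖ws κ ε V ξ‖ with h | h
  · calc _ ≤ C₂ * (1 + |ξ|) ^ L := h1 ξ h
      _ = C₂ * 1 * (1 + |ξ|) ^ L := by ring
      _ ≤ (C₁ + C₂) * V ^ bt k * (1 + |ξ|) ^ L := by gcongr; linarith
  · have h2 := hC1 (0 + ws κ ε V ξ) (by rw [zero_add, ws_re]; positivity) (by rw [zero_add]; exact h)
    have h3 : (0 + ws κ ε V ξ).re = 1 / V := by rw [zero_add, ws_re]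
    rw [h3, one_div_one_div] at h2
    calc _ ≤ C₁ * V ^ bt k := h2
      _ = C₁ * V ^ bt k * 1 := by ring
      _ ≤ (C₁ + C₂) * V ^ bt k * (1 + |ξ|) ^ L := by gcongr; linarith

end Pool.Agent.Lib.MP_bc6037_nt
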