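import Mathlib
import Pool.Agent.Lib.MP_bc6037_nt.Window

set_option autoImplicit false

/-!
Resonance asymptotics of `∫ (Δ_k(x) - ζ(0)^k) x exp(-2 π i k (n x)^{1/k}) W(x^{1/k}) dx` for window
weights `W`.
-/

open Complex Filter Topology Set MeasureTheory
open scoped ContDiff

namespace Pool.Agent.Lib.MP_bc6037_nt

open DeltaMellin ZetaGrowth

lemma rpow_exp_integrable {k : ℕ} (hk : 1 ≤ k) {V : ℝ} (hV : 0 < V) (C : ℝ) {q : ℝ} (hq : -1 < q) :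
    IntegrableOn (fun x : ℝ => C * (x ^ q * Real.exp (-(1 / V * x ^ (1 / k : ℝ))))) (Ioi 1) := by
  have hkp : (0 : ℝ) < k := by exact_mod_cast hk
  have h := integrableOn_rpow_mul_exp_neg_mul_rpow (p := 1 / k) (s := q) (b := 1 / V)
    hq (by positivity) (by positivity)
  refine Integrable.const_mul ((h.mono_set (Ioi_subset_Ioi zero_le_one)).congr_fun
    (fun x _ => ?_) measurableSet_Ioi) C
  simp only
  congr 2
  ring

lemma Ig_integrable {k : ℕ} (hk : 1 ≤ k) {g : ℝ → ℝ} (hgm : Measurable g) {C : ℝ}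
    (hg : ∀ x : ℝ, 1 ≤ x → |g x| ≤ C * x ^ (3 / 2 : ℝ)) {z₀ : ℂ} (hz : z₀.re = 0) {V : ℝ}
    (hV : 0 < V) :
    Integrable (fun x : ℝ => ((g x : ℂ) * ((x : ℂ) * cexp (-(z₀ * ((x ^ (1 / k : ℝ) : ℝ) : ℂ))))) *
      ((Real.exp (-(1 / V * x ^ (1 / k : ℝ))) : ℝ) : ℂ)) (volume.restrict (Ioi 1)) := by
  refine (rpow_exp_integrable hk hV C (by norm_num : (-1 : ℝ) < 5 / 2)).mono' ?_ ?_
  · refine Measurable.aestronglyMeasurable ?_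
    have m1 : Measurable fun x : ℝ => x ^ (1 / k : ℝ) := measurable_id.pow_const _
    have m2 : Measurable fun x : ℝ => cexp (-(z₀ * ((x ^ (1 / k : ℝ) : ℝ) : ℂ))) :=
      Complex.measurable_exp.comp ((measurable_ofReal.comp m1).const_mul _).neg
    refine ((measurable_ofReal.comp hgm).mul (measurable_ofReal.mul m2)).mul ?_
    exact measurable_ofReal.comp (Real.measurable_exp.comp (m1.const_mul _).neg)
  · filter_upwards [ae_restrict_mem measurableSet_Ioi] with x hx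
    have hx1 : (1 : ℝ) < x := hx
    have hx0 : 0 < x := by linarith
    have e1 : ‖cexp (-(z₀ * ((x ^ (1 / k : ℝ) : ℝ) : ℂ)))‖ = 1 := by
      rw [Complex.norm_exp, neg_re, re_mul_ofReal, hz, zero_mul, neg_zero, Real.exp_zero]
    rw [norm_mul, norm_mul, norm_mul, e1, mul_one, norm_real, norm_real, norm_real,
      Real.norm_eq_abs, Real.norm_eq_abs, Real.norm_eq_abs, abs_of_pos hx0,
      abs_of_pos (Real.exp_pos _)]
    have h1 := hg x hx1.le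
    have h2 : x ^ (5 / 2 : ℝ) = x ^ (3 / 2 : ℝ) * x := by
      nth_rewrite 3 [← Real.rpow_one x]
      rw [← Real.rpow_add hx0]; norm_num
    rw [h2]
    calc |g x| * x * Real.exp (-(1 / V * x ^ (1 / k : ℝ)))
        ≤ (C * x ^ (3 / 2 : ℝ)) * x * Real.exp (-(1 / V * x ^ (1 / k : ℝ))) := by gcongr
      _ = _ := by ring

lemma hV_integrable {h : ℝ → ℂ} (hh : Continuous h) (hi : Integrable h) (κ ε V : ℝ) :
    Integrable fun ξ => hV h κ ε V ξ := by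
  refine (hi.norm.const_mul (Real.exp 1)).mono' (hV_continuous hh κ ε V).aestronglyMeasurable
    (Eventually.of_forall fun ξ => ?_)
  rw [norm_hV]

theorem reson_rep {k : ℕ} (hk : 1 ≤ k) {g : ℝ → ℝ} (hgm : Measurable g) {C : ℝ}
    (hg : ∀ x : ℝ, 1 ≤ x → |g x| ≤ C * x ^ (3 / 2 : ℝ)) {z₀ : ℂ} (hz : z₀.re = 0)
    {ψ : ℝ → ℝ} {h : ℝ → ℂ} (hh : Continuous h) (hi : Integrable h)
    (hrep : ∀ v : ℝ, (ψ v : ℂ) = ∫ ξ : ℝ, h ξ * cexp (2 * Real.pi * ξ * v * I))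
    {κ ε V : ℝ} (hκ : 0 < κ) (hV0 : 0 < V) :
    ∫ x in Ioi (1 : ℝ), ((g x : ℂ) * ((x : ℂ) * cexp (-(z₀ * ((x ^ (1 / k : ℝ) : ℝ) : ℂ))))) *
      (Wn ψ κ ε V (x ^ (1 / k : ℝ)) : ℂ) =
    (∫ ξ : ℝ, hV h κ ε V ξ * Ig k g (z₀ + ws κ ε V ξ)) ∧
    Integrable fun ξ : ℝ => hV h κ ε V ξ * Ig k g (z₀ + ws κ ε V ξ) := by
  have key := kernel_fubini (μ := volume.restrict (Ioi (1 : ℝ))) (X := fun x => x ^ (1 / k : ℝ))
    (measurable_id.pow_const _) (Ig_integrable hk hgm hg hz hV0) (hV_integrable hh hi κ ε V)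
    (Wn_rep hrep hκ hV0)
  have e : ∀ ξ : ℝ, (∫ x in Ioi (1 : ℝ), ((g x : ℂ) * ((x : ℂ) *
      cexp (-(z₀ * ((x ^ (1 / k : ℝ) : ℝ) : ℂ))))) *
      cexp (-((((1 / V : ℝ) : ℂ) - 2 * Real.pi * ξ * ((1 / HH κ ε V : ℝ) : ℂ) * I) *
        ((x ^ (1 / k : ℝ) : ℝ) : ℂ)))) =
      Ig k g (z₀ + ws κ ε V ξ) := by
    intro ξ
    unfold Ig
    refine setIntegral_congr_fun measurableSet_Ioi fun x _ => ?_
    rw [mul_assoc, mul_assoc, ← Complex.exp_add]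
    congr 3
    rw [ws]
    ring
  simp only [e] at key
  exact key

lemma J_eq {ψ : ℝ → ℝ} {h : ℝ → ℂ} (hh : Continuous h) (hi : Integrable h)
    (hrep : ∀ v : ℝ, (ψ v : ℂ) = ∫ ξ : ℝ, h ξ * cexp (2 * Real.pi * ξ * v * I))
    {κ ε V : ℝ} (hκ : 0 < κ) (hV0 : 0 < V) {β : ℝ} (hβ : 0 ≤ β) :
    ((Real.Gamma (β + 1) : ℝ) : ℂ) *
      ∫ ξ : ℝ, hV h κ ε V ξ * cexp (-((β + 1 : ℝ) : ℂ) * log (ws κ ε V ξ)) =
      ((∫ v in Ioi (0 : ℝ), v ^ β * Wn ψ κ ε V v : ℝ) : ℂ) := by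
  have hint : Integrable (fun v : ℝ => ((v ^ β : ℝ) : ℂ) * ((Real.exp (-(1 / V * v)) : ℝ) : ℂ))
      (volume.restrict (Ioi 0)) := by
    have h1 := integrableOn_rpow_exp (a := β + 1) (r := 1 / V) (by linarith) (by positivity)
    have h2 : Integrable (fun v : ℝ => ((v ^ (β + 1 - 1) * Real.exp (-(1 / V * v)) : ℝ) : ℂ))
      (volume.restrict (Ioi 0)) := h1.ofReal
    simp only [add_sub_cancel_right, ofReal_mul] at h2
    exact h2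
  have key := (kernel_fubini (μ := volume.restrict (Ioi (0 : ℝ))) (X := fun v => v)
    measurable_id hint (hV_integrable hh hi κ ε V) (Wn_rep hrep hκ hV0)).1
  have e : ∀ ξ : ℝ, (∫ v in Ioi (0 : ℝ), ((v ^ β : ℝ) : ℂ) *
      cexp (-((((1 / V : ℝ) : ℂ) - 2 * Real.pi * ξ * ((1 / HH κ ε V : ℝ) : ℂ) * I) * v))) =
      cexp (-((β + 1 : ℝ) : ℂ) * log (ws κ ε V ξ)) * (Real.Gamma (β + 1) : ℝ) := by
    intro ξ
    rw [← Complex.Gamma_ofReal, ← laplace_cpow (a := ((β + 1 : ℝ) : ℂ)) (r := ws κ ε V ξ)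
      (by rw [ofReal_re]; linarith) (by rw [ws_re]; positivity)]
    refine setIntegral_congr_fun measurableSet_Ioi fun v hv => ?_
    rw [ofReal_cpow (le_of_lt hv)]
    congr 2
    push_cast
    ring
  simp only [e] at key
  have e2 : ((∫ v in Ioi (0 : ℝ), v ^ β * Wn ψ κ ε V v : ℝ) : ℂ) =
      ∫ v in Ioi (0 : ℝ), ((v ^ β : ℝ) : ℂ) * (Wn ψ κ ε V v : ℂ) := by
    rw [← integral_complex_ofReal]
    congr 1
    funext v
    rw [ofReal_mul]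
  rw [e2, key, ← integral_const_mul]
  congr 1
  funext ξ
  ring

theorem reson_bound {k : ℕ} (hk : 1 ≤ k) {g : ℝ → ℝ} (hgm : Measurable g) {C : ℝ}
    (hg : ∀ x : ℝ, 1 ≤ x → |g x| ≤ C * x ^ (3 / 2 : ℝ)) {z₀ : ℂ} (hz : z₀.re = 0)
    {ψ : ℝ → ℝ} {h : ℝ → ℂ} (hh : Continuous h)
    (hi : ∀ L : ℕ, Integrable fun ξ : ℝ => (1 + |ξ|) ^ L * ‖h ξ‖)
    (hrep : ∀ v : ℝ, (ψ v : ℂ) = ∫ ξ : ℝ, h ξ * cexp (2 * Real.pi * ξ * v * I))
    {κ ε : ℝ} (hκ : 0 < κ) {b β : ℝ} (hb : 0 ≤ b) {A : ℂ} {C' : ℝ} (hC' : 0 ≤ C') {L : ℕ}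
    (hbd : ∀ᶠ V : ℝ in atTop, ∀ ξ : ℝ, ‖Ig k g (z₀ + ws κ ε V ξ) -
      A * cexp (-(b : ℂ) * log (ws κ ε V ξ))‖ ≤ C' * V ^ β * (1 + |ξ|) ^ L) :
    ∃ B : ℝ, 0 ≤ B ∧ ∀ᶠ V : ℝ in atTop,
    ‖(∫ x in Ioi (1 : ℝ), ((g x : ℂ) * ((x : ℂ) * cexp (-(z₀ * ((x ^ (1 / k : ℝ) : ℝ) : ℂ))))) *
      (Wn ψ κ ε V (x ^ (1 / k : ℝ)) : ℂ)) - A *
        ∫ ξ : ℝ, hV h κ ε V ξ * cexp (-(b : ℂ) * log (ws κ ε V ξ))‖ ≤ B * V ^ β := by
  have hi0 : Integrable h := by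
    refine (hi 0).mono hh.aestronglyMeasurable (Eventually.of_forall fun ξ => ?_)
    simp
  refine ⟨C' * (Real.exp 1 * ∫ ξ : ℝ, (1 + |ξ|) ^ L * ‖h ξ‖), by
    have : 0 ≤ ∫ ξ : ℝ, (1 + |ξ|) ^ L * ‖h ξ‖ := integral_nonneg fun ξ => by positivity
    positivity, ?_⟩
  filter_upwards [hbd, eventually_ge_atTop 1] with V hbdV hV1
  have hV0 : 0 < V := by linarith
  set E : ℝ → ℂ := fun ξ => cexp (-(b : ℂ) * log (ws κ ε V ξ)) with hE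
  have hEc : Continuous E := by
    refine continuous_iff_continuousAt.2 fun ξ => ?_
    refine ContinuousAt.cexp (ContinuousAt.const_mul (ContinuousAt.clog ?_ ?_) _)
    · unfold ws; fun_prop
    · left; rw [ws_re]; positivity
  have hE1 : ∀ ξ, ‖E ξ‖ ≤ (1 / V) ^ (-b) := by
    intro ξ
    rw [hE]
    simp only
    rw [norm_exp_neg_mul_log (ws_ne hV0)]
    apply Real.rpow_le_rpow_of_nonpos (by positivity) _ (by linarith)
    have := re_le_norm (ws κ ε V ξ)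
    rwa [ws_re] at this
  have hIV := hV_integrable hh hi0 κ ε V
  have hIE : Integrable fun ξ => hV h κ ε V ξ * E ξ := by
    have := hIV.bdd_mul (c := (1 / V) ^ (-b)) hEc.aestronglyMeasurable (Eventually.of_forall hE1)
    refine this.congr (Eventually.of_forall fun ξ => ?_)
    simp only; ring
  obtain ⟨hrr, hID⟩ := reson_rep hk hgm hg hz hh hi0 hrep (ε := ε) hκ hV0
  rw [hrr]
  have e1 : (∫ ξ : ℝ, hV h κ ε V ξ * Ig k g (z₀ + ws κ ε V ξ)) -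
      A * ∫ ξ : ℝ, hV h κ ε V ξ * E ξ =
      ∫ ξ : ℝ, hV h κ ε V ξ * (Ig k g (z₀ + ws κ ε V ξ) - A * E ξ) := by
    rw [← integral_const_mul, ← integral_sub hID (hIE.const_mul _)]
    congr 1
    funext ξ
    ring
  rw [e1]
  have h3 : ‖∫ ξ : ℝ, hV h κ ε V ξ * (Ig k g (z₀ + ws κ ε V ξ) - A * E ξ)‖ ≤
      ∫ ξ : ℝ, C' * V ^ β * Real.exp 1 * ((1 + |ξ|) ^ L * ‖h ξ‖) := by
    refine norm_integral_le_of_norm_le ((hi L).const_mul _) (Eventually.of_forall fun ξ => ?_)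
    rw [norm_mul, norm_hV]
    calc Real.exp 1 * ‖h ξ‖ * ‖Ig k g (z₀ + ws κ ε V ξ) - A * E ξ‖
        ≤ Real.exp 1 * ‖h ξ‖ * (C' * V ^ β * (1 + |ξ|) ^ L) := by gcongr; exact hbdV ξ
      _ = _ := by ring
  rw [integral_const_mul] at h3
  refine h3.trans (le_of_eq ?_)
  ring

/-- the coefficient of the resonance -/
noncomputable def Bc (k n : ℕ) : ℂ :=
  ((√k / (2 * Real.pi) * dk k n * (n : ℝ) ^ (-((k + 1) / (2 * k)) : ℝ) : ℝ) : ℂ) *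
    cexp (Real.pi * ((k : ℂ) - 3) / 4 * I)

lemma An_eq (k n : ℕ) : An k n = Bc k n * (Real.Gamma (bt k + 1) : ℝ) := by
  rw [An, Bc]; push_cast; ring

/-- **resonance at the `n`-th frequency** -/
theorem RES_n {k : ℕ} (hk : 2 ≤ k) {P : Polynomial ℝ} {Z : ℂ → ℂ}
    (hZ : DifferentiableOn ℂ Z {s : ℂ | 0 < s.re})
    (hZ' : ∀ s : ℂ, 0 < s.re → s ≠ 1 → Z s = riemannZeta s ^ k / s - Q P s) {n : ℕ} (hn : 1 ≤ n)
    {ψ : ℝ → ℝ} (hψ : ContDiff ℝ ∞ ψ) (hc : HasCompactSupport ψ) {κ ε : ℝ} (hκ : 0 < κ)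
    (hε : 0 < ε) :
    ∃ B : ℝ, 0 ≤ B ∧ ∀ᶠ V : ℝ in atTop,
    ‖(∫ x in Ioi (1 : ℝ), (((Err k P x - w0 k : ℝ) : ℂ) * ((x : ℂ) *
        cexp (-(zn k n * ((x ^ (1 / k : ℝ) : ℝ) : ℂ))))) * (Wn ψ κ ε V (x ^ (1 / k : ℝ)) : ℂ)) -
      Bc k n * ((∫ v in Ioi (0 : ℝ), v ^ bt k * Wn ψ κ ε V v : ℝ) : ℂ)‖ ≤ B * V ^ bt k := by
  have hk1 : 1 ≤ k := by omega
  have hkr : (2 : ℝ) ≤ k := by exact_mod_cast hk
  have hbt : 0 ≤ bt k := by rw [bt]; linarith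
  obtain ⟨h, hh, hi, hrep⟩ := fourier_rep hψ hc
  have hi0 : Integrable h := by
    refine (hi 0).mono hh.aestronglyMeasurable (Eventually.of_forall fun ξ => ?_)
    simp
  obtain ⟨C, hC0, hC⟩ := g_bound k P
  have hgm : Measurable fun x => Err k P x - w0 k := (measurable_Err k P).sub_const _
  obtain ⟨C', hC'0, L, hC'⟩ := bd_n hk hZ hZ' hn hκ hε
  obtain ⟨B₁, hB10, hB1⟩ := reson_bound hk1 hgm hC (zn_re k n) hh hi hrep hκ (b := bt k + 1)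
    (by linarith) hC'0 hC'
  refine ⟨B₁, hB10, ?_⟩
  filter_upwards [hB1, eventually_gt_atTop 0] with V h1 hV0
  have hJ := J_eq hh hi0 hrep (ε := ε) hκ hV0 hbt
  have e3 : An k n * ∫ ξ : ℝ, hV h κ ε V ξ * cexp (-((bt k + 1 : ℝ) : ℂ) * log (ws κ ε V ξ)) =
      Bc k n * ((∫ v in Ioi (0 : ℝ), v ^ bt k * Wn ψ κ ε V v : ℝ) : ℂ) := by
    rw [An_eq, ← hJ]; ring
  rw [e3] at h1
  exact h1

/-- **no mass at frequency zero** -/
theorem RES_0 {k : ℕ} (hk : 2 ≤ k) {P : Polynomial ℝ} {Z : ℂ → ℂ}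
    (hZ : DifferentiableOn ℂ Z {s : ℂ | 0 < s.re})
    (hZ' : ∀ s : ℂ, 0 < s.re → s ≠ 1 → Z s = riemannZeta s ^ k / s - Q P s)
    {ψ : ℝ → ℝ} (hψ : ContDiff ℝ ∞ ψ) (hc : HasCompactSupport ψ) {κ ε : ℝ} (hκ : 0 < κ)
    (hε : 0 < ε) :
    ∃ B : ℝ, 0 ≤ B ∧ ∀ᶠ V : ℝ in atTop,
    ‖(∫ x in Ioi (1 : ℝ), (((Err k P x - w0 k : ℝ) : ℂ) * ((x : ℂ) *
        cexp (-(0 * ((x ^ (1 / k : ℝ) : ℝ) : ℂ))))) * (Wn ψ κ ε V (x ^ (1 / k : ℝ)) : ℂ))‖ ≤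
      B * V ^ bt k := by
  have hk1 : 1 ≤ k := by omega
  have hkr : (2 : ℝ) ≤ k := by exact_mod_cast hk
  have hbt : 0 ≤ bt k := by rw [bt]; linarith
  obtain ⟨h, hh, hi, hrep⟩ := fourier_rep hψ hc
  obtain ⟨C, hC0, hC⟩ := g_bound k P
  have hgm : Measurable fun x => Err k P x - w0 k := (measurable_Err k P).sub_const _
  obtain ⟨C', hC'0, L, hC'⟩ := bd_zero hk hZ hZ' hκ hε
  obtain ⟨B₁, hB10, hB1⟩ := reson_bound hk1 hgm hC zero_re hh hi hrep hκ (b := bt k + 1)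
    (by linarith) (A := 0) hC'0 (L := L) (by
      filter_upwards [hC'] with V hV ξ
      rw [zero_mul, sub_zero]; exact hV ξ)
  refine ⟨B₁, hB10, ?_⟩
  filter_upwards [hB1] with V h1
  rwa [zero_mul, sub_zero] at h1

end Pool.Agent.Lib.MP_bc6037_nt
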