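import Mathlib
import Pool.Agent.Lib.MP_bc6037_nt.WindowRes

set_option autoImplicit false

/-!
Limits of the model integrals for window weights, and the resonance limits.
-/

open Complex Filter Topology Set MeasureTheory
open scoped ContDiff FourierTransform

namespace Pool.Agent.Lib.MP_bc6037_nt

open DeltaMellin ZetaGrowth

/-- elementary distortion bound -/
noncomputable def dd (q η : ℝ) : ℝ := ((1 + η) ^ q - 1) + (1 - Real.exp (-η))

lemma dd_bound {q η s : ℝ} (hq : 0 ≤ q) (hη : 0 ≤ η) (hs0 : 0 ≤ s) (hs1 : s ≤ 1) :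
    |(1 + η * s) ^ q * Real.exp (-(η * s)) - 1| ≤ dd q η := by
  have h1 : 0 ≤ η * s := by positivity
  have h2 : η * s ≤ η := by nlinarith
  have h3 : 1 ≤ (1 + η * s) ^ q := Real.one_le_rpow (by linarith) hq
  have h4 : (1 + η * s) ^ q ≤ (1 + η) ^ q := Real.rpow_le_rpow (by linarith) (by linarith) hq
  have h5 : Real.exp (-(η * s)) ≤ 1 := by rw [Real.exp_le_one_iff]; linarith
  have h6 : Real.exp (-η) ≤ Real.exp (-(η * s)) := Real.exp_le_exp.2 (by linarith)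
  have h7 : Real.exp (-η) ≤ 1 := by rw [Real.exp_le_one_iff]; linarith
  have h8 : 0 < Real.exp (-(η * s)) := Real.exp_pos _
  unfold dd
  rw [abs_le]
  constructor
  · nlinarith
  · nlinarith

lemma dd_tendsto {q : ℝ} {κ ε : ℝ} (hε1 : ε < 1) :
    Tendsto (fun V : ℝ => dd q (HH κ ε V / V)) atTop (𝓝 0) := by
  have h1 : Tendsto (fun V : ℝ => HH κ ε V / V) atTop (𝓝 0) := by
    have h2 : Tendsto (fun V : ℝ => κ * V ^ (-(1 - ε))) atTop (𝓝 0) := by
      have := (tendsto_rpow_neg_atTop (by linarith : 0 < 1 - ε)).const_mul κ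
      rwa [mul_zero] at this
    refine h2.congr' ?_
    filter_upwards [eventually_gt_atTop 0] with V hV
    rw [HH, mul_div_assoc]
    congr 1
    rw [neg_sub, Real.rpow_sub hV, Real.rpow_one]
  have h3 : ContinuousAt (dd q) 0 := by
    unfold dd
    refine ContinuousAt.add (ContinuousAt.sub (ContinuousAt.rpow ?_ continuousAt_const ?_)
      continuousAt_const) ?_
    · fun_prop
    · left; norm_num
    · fun_prop
  have h4 : dd q 0 = 0 := by simp [dd]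
  rw [← h4]
  exact h3.tendsto.comp h1

/-- the basic window integral -/
noncomputable def WI (ψ : ℝ → ℝ) (κ ε q θ V : ℝ) : ℂ :=
  ∫ v in Ioi (0 : ℝ), ((v ^ q * Wn ψ κ ε V v : ℝ) : ℂ) * cexp (I * θ * v)

lemma WI_eq {ψ : ℝ → ℝ} (hsupp : ∀ s, ψ s ≠ 0 → 0 < s ∧ s < 1) {κ ε V : ℝ} (hκ : 0 < κ)
    (hV : 0 < V) (q θ : ℝ) :
    WI ψ κ ε q θ V = ((V ^ q * HH κ ε V : ℝ) : ℂ) * (cexp (I * θ * V) *
      ∫ s : ℝ, (((1 + HH κ ε V / V * s) ^ q * Real.exp (-(HH κ ε V / V * s)) * ψ s : ℝ) : ℂ) *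
        cexp (I * θ * HH κ ε V * s)) := by
  have hH := HH_pos (ε := ε) hκ hV
  set H := HH κ ε V with hHdef
  set F : ℝ → ℂ := fun v => ((v ^ q * Wn ψ κ ε V v : ℝ) : ℂ) * cexp (I * θ * v) with hF
  have h1 : WI ψ κ ε q θ V = ∫ v, F v := by
    rw [WI, ← integral_indicator measurableSet_Ioi]
    congr 1
    funext v
    by_cases hv : v ∈ Ioi (0 : ℝ)
    · rw [indicator_of_mem hv]
    · rw [indicator_of_notMem hv]
      have hv0 : v ≤ 0 := not_lt.1 hv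
      have : ψ ((v - V) / H) = 0 := by
        by_contra hne
        have := (hsupp _ hne).1
        rw [lt_div_iff₀ hH] at this
        linarith
      rw [hF]
      simp only
      rw [Wn, ← hHdef, this]
      simp
  have h2 : ∫ v, F v = ∫ u, F (V + u) := (integral_add_left_eq_self F V).symm
  have h3 := Measure.integral_comp_mul_left (fun u => F (V + u)) H
  rw [abs_of_pos (inv_pos.2 hH)] at h3
  have h4 : ∫ u, F (V + u) = (H : ℂ) * ∫ s, F (V + H * s) := by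
    rw [h3, real_smul, ← mul_assoc, ← ofReal_mul, mul_inv_cancel₀ hH.ne', ofReal_one, one_mul]
  rw [h1, h2, h4, ofReal_mul, mul_assoc, mul_left_comm, mul_assoc]
  congr 1
  rw [← integral_const_mul, ← integral_const_mul]
  congr 1
  funext s
  rw [hF]
  simp only
  have e1 : (V + H * s - V) / H = s := by field_simp; ring
  have e2 : (V + H * s - V) / V = H / V * s := by field_simp; ring
  rw [Wn, ← hHdef, e1, e2]
  by_cases hs : ψ s = 0
  · rw [hs]; simp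
  · have hs0 := (hsupp s hs).1
    have e3 : (V + H * s) ^ q = V ^ q * (1 + H / V * s) ^ q := by
      rw [← Real.mul_rpow hV.le (by positivity)]
      congr 1; field_simp
    have e4 : cexp (I * θ * ((V + H * s : ℝ) : ℂ)) = cexp (I * θ * V) * cexp (I * θ * H * s) := by
      rw [← Complex.exp_add]; congr 1; push_cast; ring
    rw [e3, e4]
    push_cast
    ring

lemma RL_tendsto {ψ : ℝ → ℝ} {θ κ ε : ℝ} (hθ : θ ≠ 0) (hκ : 0 < κ) (hε : 0 < ε) :
    Tendsto (fun V : ℝ => ∫ s : ℝ, (ψ s : ℂ) * cexp (I * θ * HH κ ε V * s)) atTop (𝓝 0) := by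
  have h1 := Real.tendsto_integral_exp_smul_cocompact (fun s => (ψ s : ℂ))
  have h2 : Tendsto (fun V : ℝ => -(θ * HH κ ε V) / (2 * Real.pi)) atTop (cocompact ℝ) := by
    have hne : -θ / (2 * Real.pi) ≠ 0 := by
      rw [Ne, div_eq_zero_iff, not_or]
      exact ⟨neg_ne_zero.2 hθ, by positivity⟩
    have h3 : Tendsto (fun V : ℝ => (-θ / (2 * Real.pi)) * HH κ ε V) atTop (cocompact ℝ) := by
      rw [cocompact_eq_atBot_atTop]
      rcases lt_or_gt_of_ne hne with h | h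
      · exact ((HH_tendsto hκ hε).const_mul_atTop_of_neg h).mono_right le_sup_left
      · exact ((HH_tendsto hκ hε).const_mul_atTop h).mono_right le_sup_right
    refine h3.congr fun V => ?_
    ring
  refine (h1.comp h2).congr fun V => ?_
  simp only [Function.comp]
  congr 1
  funext s
  rw [Circle.smul_def, smul_eq_mul, Real.fourierChar_apply, mul_comm]
  congr 2
  push_cast
  have : (Real.pi : ℂ) ≠ 0 := by exact_mod_cast Real.pi_ne_zero
  field_simp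

lemma WI_tendsto {ψ : ℝ → ℝ} (hψ : Continuous ψ) (hc : HasCompactSupport ψ) (h0 : ∀ s, 0 ≤ ψ s)
    (hsupp : ∀ s, ψ s ≠ 0 → 0 < s ∧ s < 1) {κ ε q : ℝ} (hκ : 0 < κ) (hε : 0 < ε) (hε1 : ε < 1)
    (hq : 0 ≤ q) (θ : ℝ) :
    Tendsto (fun V : ℝ => WI ψ κ ε q θ V / ((V ^ q * HH κ ε V : ℝ) : ℂ)) atTop
      (𝓝 (if θ = 0 then ((∫ s, ψ s : ℝ) : ℂ) else 0)) := by
  have hint : Integrable ψ := hψ.integrable_of_hasCompactSupport hc
  set J := ∫ s, ψ s with hJ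
  -- main part
  set Mp : ℝ → ℂ := fun V => cexp (I * θ * V) *
    ∫ s : ℝ, (ψ s : ℂ) * cexp (I * θ * HH κ ε V * s) with hMp
  have hMlim : Tendsto Mp atTop (𝓝 (if θ = 0 then ((J : ℝ) : ℂ) else 0)) := by
    by_cases hθ : θ = 0
    · rw [if_pos hθ]
      have : Mp = fun _ => ((J : ℝ) : ℂ) := by
        funext V
        rw [hMp, hJ, ← integral_complex_ofReal]
        simp [hθ]
      rw [this]
      exact tendsto_const_nhds
    · rw [if_neg hθ]
      have h1 := RL_tendsto (ψ := ψ) hθ hκ hε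
      rw [tendsto_zero_iff_norm_tendsto_zero] at h1 ⊢
      refine h1.congr fun V => ?_
      have e1 : I * θ * V = ((θ * V : ℝ) : ℂ) * I := by push_cast; ring
      rw [hMp]
      simp only
      rw [norm_mul, e1, Complex.norm_exp_ofReal_mul_I, one_mul]
  have hdiff : Tendsto (fun V : ℝ => WI ψ κ ε q θ V / ((V ^ q * HH κ ε V : ℝ) : ℂ) - Mp V) atTop
      (𝓝 0) := by
    rw [tendsto_zero_iff_norm_tendsto_zero]
    have hz : Tendsto (fun V : ℝ => dd q (HH κ ε V / V) * J) atTop (𝓝 0) := by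
      have := (dd_tendsto (q := q) (κ := κ) hε1).mul_const J
      rwa [zero_mul] at this
    refine squeeze_zero' (Eventually.of_forall fun _ => norm_nonneg _) ?_ hz
    filter_upwards [eventually_gt_atTop 0] with V hV
    have hH := HH_pos (ε := ε) hκ hV
    set η := HH κ ε V / V with hη
    have hη0 : 0 ≤ η := by positivity
    have hne : ((V ^ q * HH κ ε V : ℝ) : ℂ) ≠ 0 := by
      rw [ofReal_ne_zero]; positivity
    have hnormE : ∀ s : ℝ, ‖cexp (I * θ * HH κ ε V * s)‖ = 1 := by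
      intro s
      have e1 : I * θ * HH κ ε V * s = ((θ * HH κ ε V * s : ℝ) : ℂ) * I := by push_cast; ring
      rw [e1, Complex.norm_exp_ofReal_mul_I]
    have hbd : ∀ s : ℝ, ‖((((1 + η * s) ^ q * Real.exp (-(η * s)) - 1) * ψ s : ℝ) : ℂ) *
        cexp (I * θ * HH κ ε V * s)‖ ≤ dd q η * ψ s := by
      intro s
      rw [norm_mul, hnormE, mul_one, norm_real, Real.norm_eq_abs, abs_mul, abs_of_nonneg (h0 s)]
      by_cases hs : ψ s = 0
      · rw [hs]; simp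
      · have := dd_bound hq hη0 (hsupp s hs).1.le (hsupp s hs).2.le
        have := h0 s
        gcongr
    have hI1 : Integrable fun s : ℝ => (ψ s : ℂ) * cexp (I * θ * HH κ ε V * s) := by
      refine hint.norm.mono' (by fun_prop) (Eventually.of_forall fun s => ?_)
      rw [norm_mul, hnormE, mul_one, norm_real]
    have hmeas : Measurable fun s : ℝ => ((1 + η * s) ^ q * Real.exp (-(η * s)) - 1) * ψ s := by
      refine Measurable.mul (Measurable.sub (Measurable.mul ?_ (by fun_prop)) measurable_const)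
        hψ.measurable
      exact (by fun_prop : Measurable fun s : ℝ => 1 + η * s).pow_const q
    have hI2 : Integrable fun s : ℝ => ((((1 + η * s) ^ q * Real.exp (-(η * s)) - 1) * ψ s : ℝ) : ℂ) *
        cexp (I * θ * HH κ ε V * s) := by
      refine (hint.const_mul (dd q η)).mono' ?_ (Eventually.of_forall hbd)
      refine Measurable.aestronglyMeasurable ?_
      exact (measurable_ofReal.comp hmeas).mul (by fun_prop)
    have e1 : WI ψ κ ε q θ V / ((V ^ q * HH κ ε V : ℝ) : ℂ) - Mp V = cexp (I * θ * V) *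
        ∫ s : ℝ, ((((1 + η * s) ^ q * Real.exp (-(η * s)) - 1) * ψ s : ℝ) : ℂ) *
          cexp (I * θ * HH κ ε V * s) := by
      rw [WI_eq hsupp hκ hV q θ, mul_div_cancel_left₀ _ hne, hMp]
      simp only
      rw [← mul_sub]
      congr 1
      have e2 : (∫ s : ℝ, (((1 + HH κ ε V / V * s) ^ q * Real.exp (-(HH κ ε V / V * s)) *
          ψ s : ℝ) : ℂ) * cexp (I * θ * HH κ ε V * s)) =
          (∫ s : ℝ, ((((1 + η * s) ^ q * Real.exp (-(η * s)) - 1) * ψ s : ℝ) : ℂ) *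
          cexp (I * θ * HH κ ε V * s)) + ∫ s : ℝ, (ψ s : ℂ) * cexp (I * θ * HH κ ε V * s) := by
        rw [← integral_add hI2 hI1]
        congr 1
        funext s
        rw [← hη]
        push_cast
        ring
      rw [e2]; ring
    have e3 : I * θ * V = ((θ * V : ℝ) : ℂ) * I := by push_cast; ring
    rw [e1, norm_mul, e3, Complex.norm_exp_ofReal_mul_I, one_mul]
    refine (norm_integral_le_of_norm_le (hint.const_mul (dd q η)) (Eventually.of_forall hbd)).trans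
      (le_of_eq ?_)
    rw [integral_const_mul]
  have := hdiff.add hMlim
  rw [zero_add] at this
  refine this.congr fun V => ?_
  ring

/-- `∫ x² e^{iθx^{1/k}} W(x^{1/k}) dx` -/
noncomputable def MM (k : ℕ) (ψ : ℝ → ℝ) (κ ε θ V : ℝ) : ℂ :=
  ∫ x in Ioi (1 : ℝ), (((x ^ 2 : ℝ) : ℂ) *
    cexp (I * θ * ((x ^ (1 / k : ℝ) : ℝ) : ℂ))) * (Wn ψ κ ε V (x ^ (1 / k : ℝ)) : ℂ)

lemma MM_eq {k : ℕ} (hk : 1 ≤ k) {ψ : ℝ → ℝ} (hsupp : ∀ s, ψ s ≠ 0 → 0 < s ∧ s < 1)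
    {κ ε V : ℝ} (hκ : 0 < κ) (hV : 1 ≤ V) (θ : ℝ) :
    MM k ψ κ ε θ V = k * WI ψ κ ε (3 * k - 1) θ V := by
  have hkp : (0 : ℝ) < k := by exact_mod_cast hk
  have hV0 : 0 < V := by linarith
  have hH := HH_pos (ε := ε) hκ hV0
  have hsub : Ioi (1 : ℝ) ⊆ Ioi 0 := Ioi_subset_Ioi zero_le_one
  set G : ℝ → ℂ := fun x => (((x ^ 2 : ℝ) : ℂ) *
    cexp (I * θ * ((x ^ (1 / k : ℝ) : ℝ) : ℂ))) * (Wn ψ κ ε V (x ^ (1 / k : ℝ)) : ℂ) with hG
  have hzero : ∀ x ∈ Ioi (0 : ℝ) \ Ioi 1, G x = 0 := by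
    intro x hx
    have hx0 : (0 : ℝ) < x := hx.1
    have hx1 : x ≤ 1 := not_lt.1 hx.2
    have : ψ ((x ^ (1 / k : ℝ) - V) / HH κ ε V) = 0 := by
      by_contra hne
      have h1 := (hsupp _ hne).1
      have h2 : x ^ (1 / k : ℝ) ≤ 1 := Real.rpow_le_one hx0.le hx1 (by positivity)
      rw [lt_div_iff₀ hH] at h1
      linarith
    rw [hG]; simp only; rw [Wn, this]; simp
  have h1 : MM k ψ κ ε θ V = ∫ x in Ioi (0 : ℝ), G x :=
    (setIntegral_eq_of_subset_of_forall_sdiff_eq_zero measurableSet_Ioi hsub hzero).symm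
  have h2 := integral_comp_rpow_Ioi_of_pos (g := G) hkp
  rw [h1, ← h2, WI, ← integral_const_mul]
  refine setIntegral_congr_fun measurableSet_Ioi fun v hv => ?_
  have hv0 : (0 : ℝ) < v := hv
  have e1 : (v ^ (k : ℝ)) ^ (1 / k : ℝ) = v := by
    rw [← Real.rpow_mul hv0.le, mul_one_div_cancel hkp.ne', Real.rpow_one]
  have e2 : (k : ℝ) * v ^ ((k : ℝ) - 1) * (v ^ (k : ℝ)) ^ 2 = k * v ^ (3 * (k : ℝ) - 1) := by
    rw [mul_assoc]
    congr 1
    rw [← Real.rpow_natCast (v ^ (k : ℝ)), ← Real.rpow_mul hv0.le, ← Real.rpow_add hv0]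
    congr 1; push_cast; ring
  simp only [hG, e1, real_smul]
  have e3 : ((((k : ℝ) * v ^ ((k : ℝ) - 1) * (v ^ (k : ℝ)) ^ 2 : ℝ)) : ℂ) =
      ((k * v ^ (3 * (k : ℝ) - 1) : ℝ) : ℂ) := by rw [e2]
  rw [ofReal_mul, ofReal_mul (k : ℝ) (v ^ (3 * (k : ℝ) - 1)), ofReal_natCast] at e3
  rw [ofReal_mul (v ^ (3 * (k : ℝ) - 1))]
  linear_combination (cexp (I * θ * v) * (Wn ψ κ ε V v : ℂ)) * e3

lemma MM_tendsto {k : ℕ} (hk : 1 ≤ k) {ψ : ℝ → ℝ} (hψ : Continuous ψ) (hc : HasCompactSupport ψ)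
    (h0 : ∀ s, 0 ≤ ψ s) (hsupp : ∀ s, ψ s ≠ 0 → 0 < s ∧ s < 1) {κ ε : ℝ} (hκ : 0 < κ) (hε : 0 < ε)
    (hε1 : ε < 1) (θ : ℝ) :
    Tendsto (fun V : ℝ => MM k ψ κ ε θ V / ((V ^ (3 * (k : ℝ) - 1) * HH κ ε V : ℝ) : ℂ)) atTop
      (𝓝 (if θ = 0 then (k : ℂ) * ((∫ s, ψ s : ℝ) : ℂ) else 0)) := by
  have hkr : (1 : ℝ) ≤ k := by exact_mod_cast hk
  have h1 := (WI_tendsto hψ hc h0 hsupp hκ hε hε1 (by linarith : 0 ≤ 3 * (k : ℝ) - 1) θ).const_mul
    (k : ℂ)
  have h2 : (k : ℂ) * (if θ = 0 then ((∫ s, ψ s : ℝ) : ℂ) else 0) =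
      (if θ = 0 then (k : ℂ) * ((∫ s, ψ s : ℝ) : ℂ) else 0) := by
    split_ifs <;> simp
  rw [h2] at h1
  refine h1.congr' ?_
  filter_upwards [eventually_ge_atTop 1] with V hV
  rw [MM_eq hk hsupp hκ hV]
  ring

/-- the resonance integral at frequency `θ` -/
noncomputable def RR (k : ℕ) (P : Polynomial ℝ) (ψ : ℝ → ℝ) (κ ε : ℝ) (z₀ : ℂ) (V : ℝ) : ℂ :=
  ∫ x in Ioi (1 : ℝ), (((Err k P x - w0 k : ℝ) : ℂ) * ((x : ℂ) *
    cexp (-(z₀ * ((x ^ (1 / k : ℝ) : ℝ) : ℂ))))) * (Wn ψ κ ε V (x ^ (1 / k : ℝ)) : ℂ)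

lemma RR_tendsto {k : ℕ} (hk : 2 ≤ k) {P : Polynomial ℝ} {Z : ℂ → ℂ}
    (hZ : DifferentiableOn ℂ Z {s : ℂ | 0 < s.re})
    (hZ' : ∀ s : ℂ, 0 < s.re → s ≠ 1 → Z s = riemannZeta s ^ k / s - Q P s) {n : ℕ} (hn : 1 ≤ n)
    {ψ : ℝ → ℝ} (hψ : ContDiff ℝ ∞ ψ) (hc : HasCompactSupport ψ) (h0 : ∀ s, 0 ≤ ψ s)
    (hsupp : ∀ s, ψ s ≠ 0 → 0 < s ∧ s < 1) {κ ε : ℝ} (hκ : 0 < κ) (hε : 0 < ε) (hε1 : ε < 1) :
    Tendsto (fun V : ℝ => RR k P ψ κ ε (zn k n) V / ((V ^ bt k * HH κ ε V : ℝ) : ℂ)) atTop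
      (𝓝 (Bc k n * ((∫ s, ψ s : ℝ) : ℂ))) := by
  have hkr : (2 : ℝ) ≤ k := by exact_mod_cast hk
  have hbt : 0 ≤ bt k := by rw [bt]; linarith
  obtain ⟨B, hB0, hB⟩ := RES_n hk hZ hZ' hn hψ hc hκ hε
  have h1 := (WI_tendsto hψ.continuous hc h0 hsupp hκ hε hε1 hbt 0).const_mul (Bc k n)
  rw [if_pos rfl] at h1
  have hWI : ∀ V : ℝ, WI ψ κ ε (bt k) 0 V =
      ((∫ v in Ioi (0 : ℝ), v ^ bt k * Wn ψ κ ε V v : ℝ) : ℂ) := by
    intro V
    rw [WI, ← integral_complex_ofReal]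
    congr 1
    funext v
    simp
  have hdiff : Tendsto (fun V : ℝ => RR k P ψ κ ε (zn k n) V / ((V ^ bt k * HH κ ε V : ℝ) : ℂ) -
      Bc k n * (WI ψ κ ε (bt k) 0 V / ((V ^ bt k * HH κ ε V : ℝ) : ℂ))) atTop (𝓝 0) := by
    rw [tendsto_zero_iff_norm_tendsto_zero]
    have hz : Tendsto (fun V : ℝ => B * (HH κ ε V)⁻¹) atTop (𝓝 0) := by
      have := (HH_tendsto hκ hε).inv_tendsto_atTop.const_mul B
      rwa [mul_zero] at this
    refine squeeze_zero' (Eventually.of_forall fun _ => norm_nonneg _) ?_ hz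
    filter_upwards [hB, eventually_gt_atTop 0] with V h2 hV
    have hH := HH_pos (ε := ε) hκ hV
    have hVb : 0 < V ^ bt k := Real.rpow_pos_of_pos hV _
    have e1 : RR k P ψ κ ε (zn k n) V / ((V ^ bt k * HH κ ε V : ℝ) : ℂ) -
        Bc k n * (WI ψ κ ε (bt k) 0 V / ((V ^ bt k * HH κ ε V : ℝ) : ℂ)) =
        (RR k P ψ κ ε (zn k n) V - Bc k n * ((∫ v in Ioi (0 : ℝ), v ^ bt k * Wn ψ κ ε V v : ℝ) : ℂ)) /
          ((V ^ bt k * HH κ ε V : ℝ) : ℂ) := by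
      rw [hWI]; ring
    rw [e1, norm_div, norm_real, Real.norm_eq_abs, abs_of_pos (by positivity),
      div_le_iff₀ (by positivity)]
    refine h2.trans (le_of_eq ?_)
    field_simp
  have := hdiff.add h1
  rw [zero_add] at this
  refine this.congr fun V => ?_
  ring

lemma RR_zero_tendsto {k : ℕ} (hk : 2 ≤ k) {P : Polynomial ℝ} {Z : ℂ → ℂ}
    (hZ : DifferentiableOn ℂ Z {s : ℂ | 0 < s.re})
    (hZ' : ∀ s : ℂ, 0 < s.re → s ≠ 1 → Z s = riemannZeta s ^ k / s - Q P s)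
    {ψ : ℝ → ℝ} (hψ : ContDiff ℝ ∞ ψ) (hc : HasCompactSupport ψ) {κ ε : ℝ} (hκ : 0 < κ)
    (hε : 0 < ε) :
    Tendsto (fun V : ℝ => RR k P ψ κ ε 0 V / ((V ^ bt k * HH κ ε V : ℝ) : ℂ)) atTop (𝓝 0) := by
  obtain ⟨B, hB0, hB⟩ := RES_0 hk hZ hZ' hψ hc hκ hε
  rw [tendsto_zero_iff_norm_tendsto_zero]
  have hz : Tendsto (fun V : ℝ => B * (HH κ ε V)⁻¹) atTop (𝓝 0) := by
    have := (HH_tendsto hκ hε).inv_tendsto_atTop.const_mul B
    rwa [mul_zero] at this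
  refine squeeze_zero' (Eventually.of_forall fun _ => norm_nonneg _) ?_ hz
  filter_upwards [hB, eventually_gt_atTop 0] with V h2 hV
  have hH := HH_pos (ε := ε) hκ hV
  have hVb : 0 < V ^ bt k := Real.rpow_pos_of_pos hV _
  rw [norm_div, norm_real, Real.norm_eq_abs, abs_of_pos (by positivity),
    div_le_iff₀ (by positivity)]
  refine h2.trans (le_of_eq ?_)
  field_simp

lemma RR_conj (k : ℕ) (P : Polynomial ℝ) (ψ : ℝ → ℝ) (κ ε : ℝ) (z₀ : ℂ) (V : ℝ) :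
    RR k P ψ κ ε ((starRingEnd ℂ) z₀) V = (starRingEnd ℂ) (RR k P ψ κ ε z₀ V) := by
  rw [RR, RR, ← integral_conj]
  congr 1
  funext x
  simp only [map_mul, conj_ofReal]
  rw [← Complex.exp_conj]
  simp only [map_neg, map_mul, conj_ofReal]

end Pool.Agent.Lib.MP_bc6037_nt
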