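import Mathlib
import Pool.Agent.Lib.MP_bc6037_nt.UniformSing
import Pool.Agent.Lib.MP_bc6037_nt.WindowInt

set_option autoImplicit false

/-!
Decay of the window integrals away from frequency zero, uniformly in the window.
-/

open Complex Filter Topology Set MeasureTheory
open scoped ContDiff

namespace Pool.Agent.Lib.MP_bc6037_nt

noncomputable section

/-- amplitude function -/
def ua (ψ : ℝ → ℝ) (b η s : ℝ) : ℝ := (1 + η * s) ^ b * Real.exp (-(η * s)) * ψ s

lemma deriv_supp {ψ : ℝ → ℝ} (hψ : ContDiff ℝ ∞ ψ) (h0 : ∀ s, s ≤ 0 ∨ 1 ≤ s → ψ s = 0) :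
    ∀ s, s ≤ 0 ∨ 1 ≤ s → deriv ψ s = 0 := by
  have hc : Continuous (deriv ψ) := hψ.continuous_deriv (by norm_num)
  have hneg : ∀ s < 0, deriv ψ s = 0 := by
    intro s hs
    have : ψ =ᶠ[𝓝 s] fun _ => 0 := by
      filter_upwards [Iio_mem_nhds hs] with t ht
      exact h0 t (Or.inl (le_of_lt ht))
    rw [this.deriv_eq]; simp
  have hpos : ∀ s, 1 < s → deriv ψ s = 0 := by
    intro s hs
    have : ψ =ᶠ[𝓝 s] fun _ => 0 := by
      filter_upwards [Ioi_mem_nhds hs] with t ht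
      exact h0 t (Or.inr (le_of_lt ht))
    rw [this.deriv_eq]; simp
  intro s hs
  rcases hs with hs | hs
  · rcases hs.lt_or_eq with h | h
    · exact hneg s h
    · subst h
      have h1 : Tendsto (deriv ψ) (𝓝[<] 0) (𝓝 (deriv ψ 0)) := hc.continuousWithinAt
      have h2 : Tendsto (deriv ψ) (𝓝[<] 0) (𝓝 0) := by
        refine tendsto_const_nhds.congr' ?_
        filter_upwards [self_mem_nhdsWithin] with t ht
        exact (hneg t ht).symm
      exact tendsto_nhds_unique h1 h2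
  · rcases hs.lt_or_eq with h | h
    · exact hpos s h
    · subst h
      have h1 : Tendsto (deriv ψ) (𝓝[>] 1) (𝓝 (deriv ψ 1)) := hc.continuousWithinAt
      have h2 : Tendsto (deriv ψ) (𝓝[>] 1) (𝓝 0) := by
        refine tendsto_const_nhds.congr' ?_
        filter_upwards [self_mem_nhdsWithin] with t ht
        exact (hpos t ht).symm
      exact tendsto_nhds_unique h1 h2

lemma ua_hasDeriv {ψ : ℝ → ℝ} (hψ : ContDiff ℝ ∞ ψ) (b η : ℝ) {s : ℝ} (hs : 0 < 1 + η * s) :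
    HasDerivAt (ua ψ b η) (ua (deriv ψ) b η s + η * b * ua ψ (b - 1) η s - η * ua ψ b η s) s := by
  have h1 : HasDerivAt (fun s => 1 + η * s) η s := by
    simpa using ((hasDerivAt_id s).const_mul η).const_add 1
  have h2 : HasDerivAt (fun s => (1 + η * s) ^ b) (η * b * (1 + η * s) ^ (b - 1)) s := by
    have := h1.rpow_const (p := b) (Or.inl hs.ne')
    exact this
  have h3 : HasDerivAt (fun s => Real.exp (-(η * s))) (Real.exp (-(η * s)) * (-η)) s := by
    have h4 : HasDerivAt (fun s => -(η * s)) (-η) s := by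
      have := ((hasDerivAt_id' s).const_mul η).fun_neg
      simpa using this
    exact h4.exp
  have h5 : HasDerivAt ψ (deriv ψ s) s :=
    (hψ.differentiable (by norm_num)).differentiableAt.hasDerivAt
  have h6 := (h2.mul h3).mul h5
  refine h6.congr_deriv ?_
  simp only [ua, Pi.mul_apply]
  ring

lemma ua_bound {ψ : ℝ → ℝ} (hψ : Continuous ψ) (b : ℝ) : ∃ C : ℝ, 0 ≤ C ∧
    ∀ η s : ℝ, 0 ≤ η → η ≤ 1 → 0 ≤ s → s ≤ 1 → |ua ψ b η s| ≤ C := by
  obtain ⟨M, hM⟩ := (isCompact_Icc (a := (0 : ℝ)) (b := 1)).exists_bound_of_continuousOn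
    hψ.continuousOn
  refine ⟨2 ^ |b| * |M|, by positivity, fun η s h1 h2 h3 h4 => ?_⟩
  have h5 : 1 ≤ 1 + η * s := by nlinarith
  have h6 : 1 + η * s ≤ 2 := by nlinarith
  have h7 : (1 + η * s) ^ b ≤ 2 ^ |b| := by
    calc (1 + η * s) ^ b ≤ (1 + η * s) ^ |b| :=
          Real.rpow_le_rpow_of_exponent_le h5 (le_abs_self b)
      _ ≤ 2 ^ |b| := Real.rpow_le_rpow (by linarith) h6 (abs_nonneg b)
  have h8 : Real.exp (-(η * s)) ≤ 1 := by
    rw [Real.exp_le_one_iff]; nlinarith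
  have h9 := hM s ⟨h3, h4⟩
  rw [Real.norm_eq_abs] at h9
  have h10 := h9.trans (le_abs_self M)
  rw [ua, abs_mul, abs_mul, abs_of_nonneg (Real.rpow_nonneg (by linarith) _),
    abs_of_pos (Real.exp_pos _)]
  have h11 := Real.exp_pos (-(η * s))
  have h12 := abs_nonneg (ψ s)
  calc (1 + η * s) ^ b * Real.exp (-(η * s)) * |ψ s| ≤ 2 ^ |b| * 1 * |M| :=
        mul_le_mul (mul_le_mul h7 h8 h11.le (by positivity)) h10 h12 (by positivity)
    _ = _ := by ring

lemma ua_continuousOn {ψ : ℝ → ℝ} (hψ : Continuous ψ) (b : ℝ) {η : ℝ} (h1 : 0 ≤ η) :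
    ContinuousOn (ua ψ b η) (Icc 0 1) := by
  unfold ua
  refine ContinuousOn.mul (ContinuousOn.mul (ContinuousOn.rpow_const (by fun_prop) ?_) (by fun_prop))
    hψ.continuousOn
  intro s hs
  left
  have : 0 ≤ η * s := mul_nonneg h1 hs.1
  linarith

/-- **integration by parts** -/
theorem ua_decay (j : ℕ) : ∀ {ψ : ℝ → ℝ} (_ : ContDiff ℝ ∞ ψ)
    (_ : ∀ s, s ≤ 0 ∨ 1 ≤ s → ψ s = 0) (b : ℝ),
    ∃ C : ℝ, 0 ≤ C ∧ ∀ η t : ℝ, 0 ≤ η → η ≤ 1 → t ≠ 0 →
      ‖∫ s in (0 : ℝ)..1, ((ua ψ b η s : ℝ) : ℂ) * cexp (I * t * s)‖ ≤ C * (1 / |t|) ^ j := by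
  induction j with
  | zero =>
    intro ψ hψ h0 b
    obtain ⟨C, hC0, hC⟩ := ua_bound hψ.continuous b
    refine ⟨C, hC0, fun η t h1 h2 ht => ?_⟩
    rw [pow_zero, mul_one]
    have := intervalIntegral.norm_integral_le_of_norm_le_const (a := (0 : ℝ)) (b := 1) (C := C)
      (f := fun s => ((ua ψ b η s : ℝ) : ℂ) * cexp (I * t * s)) (fun s hs => by
        rw [uIoc_of_le zero_le_one] at hs
        have e : (I * t * s : ℂ) = ((t * s : ℝ) : ℂ) * I := by push_cast; ring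
        rw [norm_mul, e, Complex.norm_exp_ofReal_mul_I, mul_one, norm_real, Real.norm_eq_abs]
        exact hC η s h1 h2 hs.1.le hs.2)
    simpa using this
  | succ j ih =>
    intro ψ hψ h0 b
    have hψ' : ContDiff ℝ ∞ (deriv ψ) := by
      have h := hψ
      rw [show (∞ : WithTop ℕ∞) = ∞ + 1 from rfl, contDiff_succ_iff_deriv] at h
      exact h.2.2
    obtain ⟨C1, hC10, hC1⟩ := ih hψ' (deriv_supp hψ h0) b
    obtain ⟨C2, hC20, hC2⟩ := ih hψ h0 (b - 1)
    obtain ⟨C3, hC30, hC3⟩ := ih hψ h0 b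
    refine ⟨C1 + |b| * C2 + C3, by positivity, fun η t h1 h2 ht => ?_⟩
    have htc : (I * t : ℂ) ≠ 0 := mul_ne_zero I_ne_zero (by exact_mod_cast ht)
    have hpos : ∀ s ∈ Icc (0 : ℝ) 1, 0 < 1 + η * s := fun s hs => by
      have := mul_nonneg h1 hs.1; linarith
    have hu : ∀ s ∈ uIcc (0 : ℝ) 1, HasDerivAt (fun s => ((ua ψ b η s : ℝ) : ℂ))
        ((ua (deriv ψ) b η s + η * b * ua ψ (b - 1) η s - η * ua ψ b η s : ℝ) : ℂ) s := by
      intro s hs
      rw [uIcc_of_le zero_le_one] at hs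
      exact (ua_hasDeriv hψ b η (hpos s hs)).ofReal_comp
    have hv : ∀ s ∈ uIcc (0 : ℝ) 1, HasDerivAt (fun s : ℝ => cexp (I * t * s) / (I * t))
        (cexp (I * t * s)) s := by
      intro s _
      have h3 : HasDerivAt (fun s : ℝ => (I * t * s : ℂ)) (I * t) s := by
        simpa using (hasDerivAt_id s).ofReal_comp.const_mul (I * t)
      have h4 := h3.cexp.div_const (I * t)
      refine h4.congr_deriv ?_
      rw [mul_div_assoc, div_self htc, mul_one]
    have hi1 : IntervalIntegrable (fun s => ((ua (deriv ψ) b η s : ℝ) : ℂ)) volume 0 1 := by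
      refine ContinuousOn.intervalIntegrable ?_
      rw [uIcc_of_le zero_le_one]
      exact continuous_ofReal.comp_continuousOn (ua_continuousOn hψ'.continuous b h1)
    have hi2 : ∀ b' : ℝ, IntervalIntegrable (fun s => ((ua ψ b' η s : ℝ) : ℂ)) volume 0 1 := by
      intro b'
      refine ContinuousOn.intervalIntegrable ?_
      rw [uIcc_of_le zero_le_one]
      exact continuous_ofReal.comp_continuousOn (ua_continuousOn hψ.continuous b' h1)
    have hi : IntervalIntegrable (fun s => ((ua (deriv ψ) b η s + η * b * ua ψ (b - 1) η s -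
        η * ua ψ b η s : ℝ) : ℂ)) volume 0 1 := by
      have h3 := (hi1.add ((hi2 (b - 1)).const_mul (η * b : ℂ))).sub ((hi2 b).const_mul (η : ℂ))
      have e0 : (fun s => ((ua (deriv ψ) b η s + η * b * ua ψ (b - 1) η s -
          η * ua ψ b η s : ℝ) : ℂ)) = fun s => ((ua (deriv ψ) b η s : ℝ) : ℂ) +
          (η * b : ℂ) * ((ua ψ (b - 1) η s : ℝ) : ℂ) - (η : ℂ) * ((ua ψ b η s : ℝ) : ℂ) := by
        funext s; push_cast; ring
      rw [e0]; exact h3
    have hvi : IntervalIntegrable (fun s : ℝ => cexp (I * t * s)) volume 0 1 :=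
      (Continuous.intervalIntegrable (by fun_prop) _ _)
    have hparts := intervalIntegral.integral_mul_deriv_eq_deriv_mul hu hv hi hvi
    have hu0 : ua ψ b η 0 = 0 := by rw [ua, h0 0 (Or.inl le_rfl), mul_zero]
    have hu1 : ua ψ b η 1 = 0 := by rw [ua, h0 1 (Or.inr le_rfl), mul_zero]
    rw [hparts, hu0, hu1]
    have e1 : (fun s : ℝ => ((ua (deriv ψ) b η s + η * b * ua ψ (b - 1) η s -
        η * ua ψ b η s : ℝ) : ℂ) * (cexp (I * t * s) / (I * t))) = fun s : ℝ =>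
        (1 / (I * t)) * (((ua (deriv ψ) b η s : ℝ) : ℂ) * cexp (I * t * s) +
          (η * b : ℂ) * (((ua ψ (b - 1) η s : ℝ) : ℂ) * cexp (I * t * s)) -
          (η : ℂ) * (((ua ψ b η s : ℝ) : ℂ) * cexp (I * t * s))) := by
      funext s; push_cast; field_simp
    have hj : ∀ {g : ℝ → ℂ}, IntervalIntegrable g volume 0 1 →
        IntervalIntegrable (fun s : ℝ => g s * cexp (I * t * s)) volume 0 1 := by
      intro g hg
      exact hg.mul_continuousOn (by fun_prop)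
    simp only [e1]
    rw [intervalIntegral.integral_const_mul, intervalIntegral.integral_sub
      ((hj hi1).add ((hj (hi2 _)).const_mul _)) ((hj (hi2 _)).const_mul _),
      intervalIntegral.integral_add (hj hi1) ((hj (hi2 _)).const_mul _),
      intervalIntegral.integral_const_mul, intervalIntegral.integral_const_mul]
    simp only [ofReal_zero, zero_mul, sub_self, zero_sub, norm_neg]
    rw [norm_mul, norm_div, norm_one, norm_mul, norm_I, one_mul, norm_real, Real.norm_eq_abs]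
    set J1 := ∫ s in (0 : ℝ)..1, ((ua (deriv ψ) b η s : ℝ) : ℂ) * cexp (I * t * s)
    set J2 := ∫ s in (0 : ℝ)..1, ((ua ψ (b - 1) η s : ℝ) : ℂ) * cexp (I * t * s)
    set J3 := ∫ s in (0 : ℝ)..1, ((ua ψ b η s : ℝ) : ℂ) * cexp (I * t * s)
    have k1 := hC1 η t h1 h2 ht
    have k2 := hC2 η t h1 h2 ht
    have k3 := hC3 η t h1 h2 ht
    set Y := (1 / |t|) ^ j with hY
    have hY0 : 0 ≤ Y := by positivity
    have k4 : ‖J1 + (η * b : ℂ) * J2 - (η : ℂ) * J3‖ ≤ C1 * Y + |b| * (C2 * Y) + C3 * Y := by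
      refine (norm_sub_le _ _).trans (add_le_add ((norm_add_le _ _).trans (add_le_add k1 ?_)) ?_)
      · have e5 : ‖(η * b : ℂ)‖ ≤ |b| := by
          rw [← ofReal_mul, norm_real, Real.norm_eq_abs, abs_mul, abs_of_nonneg h1]
          have := abs_nonneg b
          nlinarith
        rw [norm_mul]; gcongr
      · rw [norm_mul, norm_real, Real.norm_eq_abs, abs_of_nonneg h1]
        calc η * ‖J3‖ ≤ 1 * (C3 * Y) := by gcongr
          _ = _ := one_mul _
    calc 1 / |t| * ‖J1 + (η * b : ℂ) * J2 - (η : ℂ) * J3‖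
        ≤ 1 / |t| * (C1 * Y + |b| * (C2 * Y) + C3 * Y) := by gcongr
      _ = (C1 + |b| * C2 + C3) * (1 / |t|) ^ (j + 1) := by rw [hY, pow_succ]; ring

/-- the window integral in terms of the amplitude function -/
lemma WI_eq_ua {ψ : ℝ → ℝ} (hsupp : ∀ s, ψ s ≠ 0 → 0 < s ∧ s < 1) {κ V : ℝ} (hκ : 0 < κ)
    (hV : 0 < V) (q θ : ℝ) :
    WI ψ κ 0 q θ V = ((V ^ q * κ : ℝ) : ℂ) * (cexp (I * θ * V) *
      ∫ s in (0 : ℝ)..1, ((ua ψ q (κ / V) s : ℝ) : ℂ) * cexp (I * (θ * κ : ℝ) * s)) := by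
  have hHH : HH κ 0 V = κ := by rw [HH, Real.rpow_zero, mul_one]
  rw [WI_eq hsupp hκ hV q θ, hHH]
  congr 2
  rw [intervalIntegral.integral_of_le zero_le_one, ← integral_indicator measurableSet_Ioc]
  congr 1
  funext s
  by_cases hs : s ∈ Ioc (0 : ℝ) 1
  · rw [indicator_of_mem hs, ua]
    push_cast
    congr 2
    ring
  · rw [indicator_of_notMem hs]
    have : ψ s = 0 := by
      by_contra hne
      exact hs ⟨(hsupp s hne).1, (hsupp s hne).2.le⟩
    rw [this]; simp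

/-- **decay of the window integrals** -/
theorem WI_decay {ψ : ℝ → ℝ} (hψ : ContDiff ℝ ∞ ψ) (hsupp : ∀ s, ψ s ≠ 0 → 0 < s ∧ s < 1)
    (q : ℝ) (j : ℕ) : ∃ C : ℝ, 0 ≤ C ∧ ∀ κ V θ : ℝ, 0 < κ → κ ≤ V → θ ≠ 0 →
      ‖WI ψ κ 0 q θ V‖ ≤ C * (V ^ q * κ * (1 / (κ * |θ|)) ^ j) := by
  have h0 : ∀ s, s ≤ 0 ∨ 1 ≤ s → ψ s = 0 := by
    intro s hs
    by_contra hne
    obtain ⟨h1, h2⟩ := hsupp s hne
    rcases hs with h | h <;> linarith
  obtain ⟨C, hC0, hC⟩ := ua_decay j hψ h0 q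
  refine ⟨C, hC0, fun κ V θ hκ hκV hθ => ?_⟩
  have hV : 0 < V := by linarith
  have hVq : 0 < V ^ q := Real.rpow_pos_of_pos hV _
  rw [WI_eq_ua hsupp hκ hV, norm_mul, norm_mul, norm_real, Real.norm_eq_abs,
    abs_of_pos (by positivity)]
  have e : (I * θ * V : ℂ) = ((θ * V : ℝ) : ℂ) * I := by push_cast; ring
  rw [e, Complex.norm_exp_ofReal_mul_I, one_mul]
  have h1 := hC (κ / V) (θ * κ) (by positivity) (by rw [div_le_one hV]; exact hκV)
    (mul_ne_zero hθ hκ.ne')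
  rw [abs_mul, abs_of_pos hκ, mul_comm |θ|] at h1
  calc V ^ q * κ * _ ≤ V ^ q * κ * (C * (1 / (κ * |θ|)) ^ j) := by gcongr
    _ = _ := by ring

/-- the window integral at frequency zero -/
theorem WI_zero {ψ : ℝ → ℝ} (hψ : Continuous ψ) (hc : HasCompactSupport ψ) (h0 : ∀ s, 0 ≤ ψ s)
    (hsupp : ∀ s, ψ s ≠ 0 → 0 < s ∧ s < 1) {q : ℝ} (hq : 0 ≤ q) {κ V : ℝ} (hκ : 0 < κ)
    (hV : 0 < V) :
    ‖WI ψ κ 0 q 0 V / ((V ^ q * κ : ℝ) : ℂ) - ((∫ s, ψ s : ℝ) : ℂ)‖ ≤
      dd q (κ / V) * ∫ s, ψ s := by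
  have hVq : 0 < V ^ q := Real.rpow_pos_of_pos hV _
  have hint : Integrable ψ := hψ.integrable_of_hasCompactSupport hc
  have hHH : HH κ 0 V = κ := by rw [HH, Real.rpow_zero, mul_one]
  rw [WI_eq hsupp hκ hV q 0, hHH, mul_div_cancel_left₀ _ (by
    exact_mod_cast (by positivity : (0 : ℝ) < V ^ q * κ).ne')]
  simp only [ofReal_zero, mul_zero, zero_mul, Complex.exp_zero, one_mul, mul_one]
  rw [integral_complex_ofReal, ← ofReal_sub, norm_real, Real.norm_eq_abs]
  have hη : 0 ≤ κ / V := by positivity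
  have hpt : ∀ s, |(1 + κ / V * s) ^ q * Real.exp (-(κ / V * s)) * ψ s - ψ s| ≤
      dd q (κ / V) * ψ s := by
    intro s
    by_cases hs : ψ s = 0
    · rw [hs]; simp
    · obtain ⟨h1, h2⟩ := hsupp s hs
      have h3 := dd_bound hq hη h1.le h2.le
      have e : (1 + κ / V * s) ^ q * Real.exp (-(κ / V * s)) * ψ s - ψ s =
          ((1 + κ / V * s) ^ q * Real.exp (-(κ / V * s)) - 1) * ψ s := by ring
      rw [e, abs_mul, abs_of_nonneg (h0 s)]
      exact mul_le_mul_of_nonneg_right h3 (h0 s)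
  have hmeas : AEStronglyMeasurable (fun s => (1 + κ / V * s) ^ q * Real.exp (-(κ / V * s)) * ψ s -
      ψ s) volume := by
    refine Measurable.aestronglyMeasurable ?_
    have := hψ.measurable
    fun_prop
  have hint2 : Integrable (fun s => (1 + κ / V * s) ^ q * Real.exp (-(κ / V * s)) * ψ s - ψ s) :=
    (hint.const_mul _).mono' hmeas (Eventually.of_forall fun s => by
      rw [Real.norm_eq_abs]; exact hpt s)
  have hint3 : Integrable (fun s => (1 + κ / V * s) ^ q * Real.exp (-(κ / V * s)) * ψ s) := by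
    have := hint2.add hint
    refine this.congr (Eventually.of_forall fun s => ?_)
    simp
  rw [← integral_sub hint3 hint, ← integral_const_mul]
  refine (abs_integral_le_integral_abs).trans ?_
  exact integral_mono_of_nonneg (Eventually.of_forall fun s => abs_nonneg _) (hint.const_mul _)
    (Eventually.of_forall hpt)

end

end Pool.Agent.Lib.MP_bc6037_nt
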