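import Mathlib
import Pool.Agent.Lib.MP_bc6037_nt.WinDecay

set_option autoImplicit false

/-!
The resonance integral at an arbitrary real frequency, over windows of bounded length in the
variable `v = x^{1/k}`, with error terms uniform in the window.
-/

open Complex Filter Topology Set MeasureTheory
open scoped ContDiff ComplexConjugate

namespace Pool.Agent.Lib.MP_bc6037_nt

open DeltaMellin ZetaGrowth

noncomputable section

lemma HH_zero (κ V : ℝ) : HH κ 0 V = κ := by rw [HH, Real.rpow_zero, mul_one]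

lemma J_shift {ψ : ℝ → ℝ} {h : ℝ → ℂ} (hh : Continuous h) (hi : Integrable h)
    (hrep : ∀ v : ℝ, (ψ v : ℂ) = ∫ ξ : ℝ, h ξ * cexp (2 * Real.pi * ξ * v * I))
    {κ ε V : ℝ} (hκ : 0 < κ) (hV0 : 0 < V) {β : ℝ} (hβ : 0 ≤ β) (τ : ℝ) :
    ((Real.Gamma (β + 1) : ℝ) : ℂ) *
      ∫ ξ : ℝ, hV h κ ε V ξ * cexp (-((β + 1 : ℝ) : ℂ) * log (ws κ ε V ξ + (τ : ℂ) * I)) =
      WI ψ κ ε β (-τ) V := by
  have hτn : ∀ v : ℝ, ‖cexp (-((τ : ℂ) * I * v))‖ = 1 := by
    intro v
    have e : (-((τ : ℂ) * I * v)) = ((-(τ * v) : ℝ) : ℂ) * I := by push_cast; ring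
    rw [e, Complex.norm_exp_ofReal_mul_I]
  have hint : Integrable (fun v : ℝ => (((v ^ β : ℝ) : ℂ) * cexp (-((τ : ℂ) * I * v))) *
      ((Real.exp (-(1 / V * v)) : ℝ) : ℂ)) (volume.restrict (Ioi 0)) := by
    have h1 := integrableOn_rpow_exp (a := β + 1) (r := 1 / V) (by linarith) (by positivity)
    have h2 : Integrable (fun v : ℝ => ((v ^ (β + 1 - 1) * Real.exp (-(1 / V * v)) : ℝ) : ℂ))
      (volume.restrict (Ioi 0)) := h1.ofReal
    simp only [add_sub_cancel_right, ofReal_mul] at h2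
    have h3 := h2.bdd_mul (c := 1) (f := fun v : ℝ => cexp (-((τ : ℂ) * I * v)))
      (by
        refine Continuous.aestronglyMeasurable ?_
        fun_prop) (Eventually.of_forall fun v => (hτn v).le)
    refine h3.congr (Eventually.of_forall fun v => ?_)
    simp only; ring
  have key := (kernel_fubini (μ := volume.restrict (Ioi (0 : ℝ))) (X := fun v => v)
    measurable_id hint (hV_integrable hh hi κ ε V) (Wn_rep hrep hκ hV0)).1
  have hre : ∀ ξ, (ws κ ε V ξ + (τ : ℂ) * I).re = 1 / V := by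
    intro ξ; rw [add_re, ws_re]; simp
  have e : ∀ ξ : ℝ, (∫ v in Ioi (0 : ℝ), (((v ^ β : ℝ) : ℂ) * cexp (-((τ : ℂ) * I * v))) *
      cexp (-((((1 / V : ℝ) : ℂ) - 2 * Real.pi * ξ * ((1 / HH κ ε V : ℝ) : ℂ) * I) * v))) =
      cexp (-((β + 1 : ℝ) : ℂ) * log (ws κ ε V ξ + (τ : ℂ) * I)) * (Real.Gamma (β + 1) : ℝ) := by
    intro ξ
    rw [← Complex.Gamma_ofReal, ← laplace_cpow (a := ((β + 1 : ℝ) : ℂ))
      (r := ws κ ε V ξ + (τ : ℂ) * I) (by rw [ofReal_re]; linarith) (by rw [hre]; positivity)]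
    refine setIntegral_congr_fun measurableSet_Ioi fun v hv => ?_
    rw [ofReal_cpow (le_of_lt hv), mul_assoc, ← Complex.exp_add, ws]
    congr 2
    · push_cast; ring
    · ring
  simp only [e] at key
  have e2 : WI ψ κ ε β (-τ) V =
      ∫ v in Ioi (0 : ℝ), (((v ^ β : ℝ) : ℂ) * cexp (-((τ : ℂ) * I * v))) *
        (Wn ψ κ ε V v : ℂ) := by
    rw [WI]
    congr 1
    funext v
    have : cexp (I * ((-τ : ℝ) : ℂ) * v) = cexp (-((τ : ℂ) * I * v)) := by
      congr 1; push_cast; ring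
    rw [this, ofReal_mul]; ring
  rw [e2, key, ← integral_const_mul]
  congr 1
  funext ξ
  ring

/-- the norm of the point on the line of integration -/
lemma zline_norm {κ V θ ξ : ℝ} (hκ : 1 ≤ κ) (hV : 1 ≤ V) :
    1 + ‖(θ : ℂ) * I + ws κ 0 V ξ‖ ≤ (|θ| + 9) * (1 + |ξ|) := by
  have hκ0 : 0 < κ := by linarith
  have hV0 : 0 < V := by linarith
  have h1 := ws_norm_le (ε := 0) (ξ := ξ) hκ0 hV0
  rw [HH_zero] at h1
  have h2 : ‖(θ : ℂ) * I‖ = |θ| := by
    rw [norm_mul, norm_I, mul_one, norm_real, Real.norm_eq_abs]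
  have h3 := norm_add_le ((θ : ℂ) * I) (ws κ 0 V ξ)
  have h4 : 1 / V ≤ 1 := by rw [div_le_iff₀ hV0]; linarith
  have h5 := abs_nonneg ξ
  have h6 := abs_nonneg θ
  have h7 : 2 * Real.pi * |ξ| / κ ≤ 7 * |ξ| := by
    rw [div_le_iff₀ hκ0]
    have := Real.pi_lt_d2
    nlinarith [mul_nonneg h5 (by linarith : (0 : ℝ) ≤ κ - 1)]
  rw [h2] at h3
  nlinarith [mul_nonneg h5 h6]

/-- **series of window integrals** -/
theorem RR_series {k : ℕ} (hk : 2 ≤ k) {P : Polynomial ℝ} {Z : ℂ → ℂ}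
    (hZ : DifferentiableOn ℂ Z {s : ℂ | 0 < s.re})
    (hZ' : ∀ s : ℂ, 0 < s.re → s ≠ 1 → Z s = riemannZeta s ^ k / s - Q P s)
    {ψ : ℝ → ℝ} (hψ : ContDiff ℝ ∞ ψ) (hc : HasCompactSupport ψ) (θ : ℝ) :
    ∃ C : ℝ, 0 ≤ C ∧ ∀ κ V : ℝ, 1 ≤ κ → κ ≤ V →
      ‖RR k P ψ κ 0 ((θ : ℂ) * I) V - ∑' n, (Bc k n * WI ψ κ 0 (bt k) (om' k n - θ) V +
        conj (Bc k n) * WI ψ κ 0 (bt k) (-om' k n - θ) V)‖ ≤ C * V ^ bt k := by
  have hk1 : 1 ≤ k := by omega
  have hkr : (2 : ℝ) ≤ k := by exact_mod_cast hk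
  have hbt : 1 ≤ bt k := by rw [bt]; linarith
  obtain ⟨h, hh, hi, hrep⟩ := fourier_rep hψ hc
  have hi0 : Integrable h := by
    refine (hi 0).mono hh.aestronglyMeasurable (Eventually.of_forall fun ξ => ?_)
    simp
  obtain ⟨C, hC0, hC⟩ := g_bound k P
  have hgm : Measurable fun x => Err k P x - w0 k := (measurable_Err k P).sub_const _
  obtain ⟨C₁, hC10, hC1⟩ := uniform_expansion hk hZ hZ'
  obtain ⟨K, hK0, hK⟩ := norm_TT_le k hk1
  set L : ℕ := ⌈bt k + 1⌉₊ with hL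
  have hLb : bt k + 1 ≤ L := Nat.le_ceil _
  set J := ∫ ξ : ℝ, (1 + |ξ|) ^ L * ‖h ξ‖ with hJ
  have hJ0 : 0 ≤ J := integral_nonneg fun ξ => by positivity
  refine ⟨C₁ * (|θ| + 9) ^ bt k * Real.exp 1 * J, by positivity, fun κ V hκ hκV => ?_⟩
  have hκ0 : 0 < κ := by linarith
  have hV1 : 1 ≤ V := by linarith
  have hV0 : 0 < V := by linarith
  set z : ℝ → ℂ := fun ξ => (θ : ℂ) * I + ws κ 0 V ξ with hz
  have hzre : ∀ ξ, (z ξ).re = 1 / V := by
    intro ξ
    show ((θ : ℂ) * I + ws κ 0 V ξ).re = 1 / V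
    rw [add_re, ws_re]; simp
  have hzpos : ∀ ξ, 0 < (z ξ).re := fun ξ => by rw [hzre]; positivity
  have hz1 : ∀ ξ, (z ξ).re ≤ 1 := fun ξ => by rw [hzre, div_le_iff₀ hV0]; linarith
  have hzn : ∀ ξ, 1 + ‖z ξ‖ ≤ (|θ| + 9) * (1 + |ξ|) := fun ξ => zline_norm hκ hV1
  obtain ⟨hrr, hID⟩ := reson_rep hk1 hgm hC (z₀ := (θ : ℂ) * I) (by simp) hh hi0 hrep (ε := 0)
    hκ0 hV0
  have hRR : RR k P ψ κ 0 ((θ : ℂ) * I) V =
      ∫ ξ : ℝ, hV h κ 0 V ξ * Ig k (fun x => Err k P x - w0 k) (z ξ) := hrr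
  -- the terms
  set f : ℕ → ℝ → ℂ := fun n ξ => hV h κ 0 V ξ * TT k (z ξ) n with hf
  have hcont : ∀ n, Continuous (fun ξ => TT k (z ξ) n) := by
    intro n
    have hzc : Continuous z := by
      rw [hz]; unfold ws; fun_prop
    unfold TT
    refine Continuous.add (continuous_const.mul ?_) (continuous_const.mul ?_)
    · refine continuous_iff_continuousAt.2 fun ξ => ?_
      refine ContinuousAt.cexp (ContinuousAt.const_mul (ContinuousAt.clog ?_ ?_) _)
      · exact (hzc.sub continuous_const).continuousAt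
      · left; rw [sub_re, zn_re, sub_zero]; exact hzpos ξ
    · refine continuous_iff_continuousAt.2 fun ξ => ?_
      refine ContinuousAt.cexp (ContinuousAt.const_mul (ContinuousAt.clog ?_ ?_) _)
      · exact (hzc.add continuous_const).continuousAt
      · left; rw [add_re, zn_re, add_zero]; exact hzpos ξ
  set M := 2 * K * ((|θ| + 9) * V) ^ (bt k + 1) * Real.exp 1 with hM
  have hM0 : 0 ≤ M := by positivity
  have hfb : ∀ n ξ, ‖f n ξ‖ ≤ cc k n * (M * ((1 + |ξ|) ^ L * ‖h ξ‖)) := by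
    intro n ξ
    obtain ⟨h1, h2⟩ := hK n (z ξ) (hzpos ξ) (hz1 ξ)
    have h3 : ‖TT k (z ξ) n‖ ≤ 2 * (K * cc k n * ((1 + ‖z ξ‖) / (z ξ).re) ^ (bt k + 1)) := by
      rw [TT]; refine (norm_add_le _ _).trans ?_; linarith
    have h4 : ((1 + ‖z ξ‖) / (z ξ).re) ^ (bt k + 1) ≤
        ((|θ| + 9) * V) ^ (bt k + 1) * (1 + |ξ|) ^ L := by
      rw [hzre, div_div_eq_mul_div, div_one]
      calc ((1 + ‖z ξ‖) * V) ^ (bt k + 1) ≤ (((|θ| + 9) * V) * (1 + |ξ|)) ^ (bt k + 1) := by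
            apply Real.rpow_le_rpow (by positivity) _ (by linarith)
            calc (1 + ‖z ξ‖) * V ≤ ((|θ| + 9) * (1 + |ξ|)) * V := by gcongr; exact hzn ξ
              _ = _ := by ring
        _ = ((|θ| + 9) * V) ^ (bt k + 1) * (1 + |ξ|) ^ (bt k + 1) :=
            Real.mul_rpow (by positivity) (by positivity)
        _ ≤ ((|θ| + 9) * V) ^ (bt k + 1) * (1 + |ξ|) ^ L := by
            gcongr
            rw [← Real.rpow_natCast]
            exact Real.rpow_le_rpow_of_exponent_le (by linarith [abs_nonneg ξ]) hLb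
    have hcc := cc_nonneg k n
    show ‖hV h κ 0 V ξ * TT k (z ξ) n‖ ≤ _
    rw [norm_mul, norm_hV]
    calc Real.exp 1 * ‖h ξ‖ * ‖TT k (z ξ) n‖ ≤ Real.exp 1 * ‖h ξ‖ *
          (2 * (K * cc k n * (((|θ| + 9) * V) ^ (bt k + 1) * (1 + |ξ|) ^ L))) := by
            gcongr
            exact h3.trans (by gcongr)
      _ = _ := by rw [hM]; ring
  have hfi : ∀ n, Integrable (f n) := by
    intro n
    refine ((hi L).const_mul (cc k n * M)).mono' ?_ (Eventually.of_forall fun ξ => ?_)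
    · exact ((hV_continuous hh κ 0 V).mul (hcont n)).aestronglyMeasurable
    · refine (hfb n ξ).trans (le_of_eq ?_); ring
  have hfs : Summable fun n => ∫ ξ, ‖f n ξ‖ := by
    refine Summable.of_nonneg_of_le (fun n => integral_nonneg fun ξ => norm_nonneg _) (fun n => ?_)
      ((summable_cc k).mul_right (M * J))
    calc ∫ ξ, ‖f n ξ‖ ≤ ∫ ξ, cc k n * M * ((1 + |ξ|) ^ L * ‖h ξ‖) := by
          refine integral_mono_of_nonneg (Eventually.of_forall fun ξ => norm_nonneg _)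
            ((hi L).const_mul _) (Eventually.of_forall fun ξ => ?_)
          refine (hfb n ξ).trans (le_of_eq ?_); ring
      _ = cc k n * (M * J) := by rw [integral_const_mul]; ring
  have hsum := hasSum_integral_of_summable_integral_norm hfi hfs
  -- each term
  have hterm : ∀ n, ∫ ξ, f n ξ = Bc k n * WI ψ κ 0 (bt k) (om' k n - θ) V +
        conj (Bc k n) * WI ψ κ 0 (bt k) (-om' k n - θ) V := by
    intro n
    have hG : Real.Gamma (bt k + 1) ≠ 0 := (Real.Gamma_pos_of_pos (by linarith)).ne'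
    have hGc : ((Real.Gamma (bt k + 1) : ℝ) : ℂ) ≠ 0 := by exact_mod_cast hG
    have j1 := J_shift hh hi0 hrep (ε := 0) hκ0 hV0 (by linarith : (0 : ℝ) ≤ bt k) (θ - om' k n)
    have j2 := J_shift hh hi0 hrep (ε := 0) hκ0 hV0 (by linarith : (0 : ℝ) ≤ bt k) (θ + om' k n)
    rw [neg_sub] at j1
    have e3 : -(θ + om' k n) = -om' k n - θ := by ring
    rw [e3] at j2
    have iint : ∀ τ : ℝ, Integrable fun ξ => hV h κ 0 V ξ *
        cexp (-((bt k + 1 : ℝ) : ℂ) * log (ws κ 0 V ξ + (τ : ℂ) * I)) := by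
      intro τ
      have hwre : ∀ ξ, (ws κ 0 V ξ + (τ : ℂ) * I).re = 1 / V := by
        intro ξ; rw [add_re, ws_re]; simp
      have hb : ∀ ξ, ‖cexp (-((bt k + 1 : ℝ) : ℂ) * log (ws κ 0 V ξ + (τ : ℂ) * I))‖ ≤
          (1 / V) ^ (-(bt k + 1)) := by
        intro ξ
        have hne : ws κ 0 V ξ + (τ : ℂ) * I ≠ 0 := by
          intro h0
          have := hwre ξ
          rw [h0, zero_re] at this
          have : 0 < 1 / V := by positivity
          linarith
        rw [norm_exp_neg_mul_log hne]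
        apply Real.rpow_le_rpow_of_nonpos (by positivity) _ (by linarith)
        have := re_le_norm (ws κ 0 V ξ + (τ : ℂ) * I)
        rwa [hwre] at this
      have hcE : Continuous fun ξ => cexp (-((bt k + 1 : ℝ) : ℂ) * log (ws κ 0 V ξ + (τ : ℂ) * I)) := by
        refine continuous_iff_continuousAt.2 fun ξ => ?_
        refine ContinuousAt.cexp (ContinuousAt.const_mul (ContinuousAt.clog ?_ ?_) _)
        · unfold ws; fun_prop
        · left; rw [hwre]; positivity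
      have := (hV_integrable hh hi0 κ 0 V).bdd_mul (c := (1 / V) ^ (-(bt k + 1)))
        hcE.aestronglyMeasurable (Eventually.of_forall hb)
      refine this.congr (Eventually.of_forall fun ξ => ?_)
      simp only; ring
    have e4 : ∀ ξ, f n ξ = An k n * (hV h κ 0 V ξ * cexp (-((bt k + 1 : ℝ) : ℂ) *
        log (ws κ 0 V ξ + ((θ - om' k n : ℝ) : ℂ) * I))) + conj (An k n) * (hV h κ 0 V ξ *
        cexp (-((bt k + 1 : ℝ) : ℂ) * log (ws κ 0 V ξ + ((θ + om' k n : ℝ) : ℂ) * I))) := by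
      intro ξ
      have e5 : z ξ - zn k n = ws κ 0 V ξ + ((θ - om' k n : ℝ) : ℂ) * I := by
        rw [hz, zn]; push_cast; ring
      have e6 : z ξ + zn k n = ws κ 0 V ξ + ((θ + om' k n : ℝ) : ℂ) * I := by
        rw [hz, zn]; push_cast; ring
      show hV h κ 0 V ξ * TT k (z ξ) n = _
      rw [TT, e5, e6]; ring
    simp only [e4]
    rw [integral_add ((iint _).const_mul _) ((iint _).const_mul _), integral_const_mul,
      integral_const_mul, ← j1, ← j2, An_eq, map_mul, conj_ofReal]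
    ring
  simp only [hterm] at hsum
  -- measurability of the sum
  have htsum_meas : AEStronglyMeasurable (fun ξ => ∑' n, f n ξ) volume := by
    refine aestronglyMeasurable_of_tendsto_ae (u := atTop) (f := fun N ξ =>
      ∑ n ∈ Finset.range N, f n ξ) (fun N => ?_) ?_
    · exact Finset.aestronglyMeasurable_fun_sum _ fun n _ => (hfi n).aestronglyMeasurable
    · refine Eventually.of_forall fun ξ => ?_
      have h1 : Summable fun n => f n ξ := (summable_TT k hk1 (hzpos ξ) (hz1 ξ)).mul_left _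
      exact h1.hasSum.tendsto_sum_nat
  have htsum_int : Integrable (fun ξ => ∑' n, f n ξ) := by
    refine ((hi L).const_mul ((∑' n, cc k n) * M)).mono' htsum_meas
      (Eventually.of_forall fun ξ => ?_)
    have h1 : HasSum (fun n => cc k n * (M * ((1 + |ξ|) ^ L * ‖h ξ‖)))
        ((∑' n, cc k n) * (M * ((1 + |ξ|) ^ L * ‖h ξ‖))) := (summable_cc k).hasSum.mul_right _
    refine (tsum_of_norm_bounded h1 fun n => hfb n ξ).trans (le_of_eq ?_)
    ring
  rw [hRR, hsum.tsum_eq, ← integral_sub hID htsum_int]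
  have hpt : ∀ ξ, ‖hV h κ 0 V ξ * Ig k (fun x => Err k P x - w0 k) (z ξ) - ∑' n, f n ξ‖ ≤
      (C₁ * (|θ| + 9) ^ bt k * Real.exp 1 * V ^ bt k) * ((1 + |ξ|) ^ L * ‖h ξ‖) := by
    intro ξ
    have e7 : ∑' n, f n ξ = hV h κ 0 V ξ * ∑' n, TT k (z ξ) n := tsum_mul_left
    rw [e7, ← mul_sub, norm_mul, norm_hV]
    have h1 := hC1 (z ξ) (hzpos ξ) (hz1 ξ)
    have h2 : (1 / (z ξ).re) ^ bt k = V ^ bt k := by rw [hzre, one_div_one_div]
    have h3 : (1 + ‖z ξ‖) ^ bt k ≤ (|θ| + 9) ^ bt k * (1 + |ξ|) ^ L := by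
      calc (1 + ‖z ξ‖) ^ bt k ≤ ((|θ| + 9) * (1 + |ξ|)) ^ bt k := by
            apply Real.rpow_le_rpow (by positivity) (hzn ξ) (by linarith)
        _ = (|θ| + 9) ^ bt k * (1 + |ξ|) ^ bt k := Real.mul_rpow (by positivity) (by positivity)
        _ ≤ (|θ| + 9) ^ bt k * (1 + |ξ|) ^ L := by
            gcongr
            rw [← Real.rpow_natCast]
            exact Real.rpow_le_rpow_of_exponent_le (by linarith [abs_nonneg ξ]) (by linarith)
    rw [h2] at h1
    calc Real.exp 1 * ‖h ξ‖ * ‖Ig k (fun x => Err k P x - w0 k) (z ξ) - ∑' n, TT k (z ξ) n‖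
        ≤ Real.exp 1 * ‖h ξ‖ * (C₁ * V ^ bt k * ((|θ| + 9) ^ bt k * (1 + |ξ|) ^ L)) := by
          gcongr
          exact h1.trans (by gcongr)
      _ = _ := by ring
  refine (norm_integral_le_of_norm_le ((hi L).const_mul _) (Eventually.of_forall hpt)).trans ?_
  rw [integral_const_mul]
  refine le_of_eq ?_
  rw [hJ]; ring

end

end Pool.Agent.Lib.MP_bc6037_nt
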