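import Mathlib
import Pool.Agent.Lib.MP_bc6037_nt.WindowInt

set_option autoImplicit false

/-!
The transform has no other singularities on the imaginary axis: at every frequency `θ > 0` that is
not of the form `2 π k n^{1/k}` the resonance integral has no mass.
-/

open Complex Filter Topology Set MeasureTheory Asymptotics
open scoped ContDiff

namespace Pool.Agent.Lib.MP_bc6037_nt

open DeltaMellin ZetaGrowth

/-- gap between `log y` and the logarithms of the integers, `y` not an integer -/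
lemma log_gap_real {y : ℝ} (hy : 0 < y) (hne : ∀ m : ℕ, (m : ℝ) ≠ y) :
    ∃ g : ℝ, 0 < g ∧ ∀ m : ℕ, 1 ≤ m → g ≤ |Real.log m - Real.log y| := by
  set M : ℕ := ⌈y⌉₊ + 1 with hM
  -- finitely many values below M, and a gap above
  have hfin : ∃ g : ℝ, 0 < g ∧ ∀ m ∈ Finset.Icc 1 M, g ≤ |Real.log (m : ℕ) - Real.log y| := by
    have hpos : ∀ m ∈ Finset.Icc 1 M, 0 < |Real.log (m : ℕ) - Real.log y| := by
      intro m hm
      rw [Finset.mem_Icc] at hm
      have hmp : (0 : ℝ) < m := by exact_mod_cast (by omega : 0 < m)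
      rw [abs_pos, sub_ne_zero]
      intro h
      exact hne m (Real.log_injOn_pos (mem_Ioi.2 hmp) (mem_Ioi.2 hy) h)
    have hnon : (Finset.Icc 1 M).Nonempty := ⟨1, by rw [Finset.mem_Icc]; omega⟩
    obtain ⟨m0, hm0, hmin⟩ := Finset.exists_min_image (Finset.Icc 1 M)
      (fun m : ℕ => |Real.log (m : ℕ) - Real.log y|) hnon
    exact ⟨_, hpos m0 hm0, fun m hm => hmin m hm⟩
  obtain ⟨g, hg0, hg⟩ := hfin
  have hMy : y < M := by
    have := Nat.le_ceil y
    rw [hM]; push_cast; linarith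
  have hMp : (0 : ℝ) < M := hy.trans hMy
  have hlog : 0 < Real.log M - Real.log y := by
    have := Real.log_lt_log hy hMy
    linarith
  refine ⟨min g (Real.log M - Real.log y), lt_min hg0 hlog, fun m hm => ?_⟩
  rcases le_total m M with h | h
  · exact (min_le_left _ _).trans (hg m (by rw [Finset.mem_Icc]; exact ⟨hm, h⟩))
  · refine (min_le_right _ _).trans (le_trans ?_ (le_abs_self _))
    have h1 : Real.log M ≤ Real.log m := Real.log_le_log hMp (by exact_mod_cast h)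
    linarith

/-- the Dirichlet series is bounded near `i log y` -/
lemma series_other (k : ℕ) {l g : ℝ} (hg : 0 < g) (hgap : ∀ m : ℕ, 1 ≤ m → g ≤ |Real.log m - l|)
    {β : ℝ} (hβ : 0 ≤ β) {u : ℂ} (hu : 0 < u.re) (hun : ‖u - I * l‖ ≤ g / 2) :
    ‖(∫ t in Ioi (0 : ℝ), ((t ^ β : ℝ) : ℂ) * cexp (-(u * t)) * riemannZeta (2 - t * I) ^ k)‖ ≤
      (∑' m, cc k m) * ((2 / g) ^ (β + 1) * ‖Gamma ((β : ℂ) + 1)‖) := by
  set f : ℕ → ℂ := fun m => (cc k m : ℂ) * (cexp (-((β : ℂ) + 1) * log (u - I * Real.log m)) *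
      Gamma ((β : ℂ) + 1)) with hf
  have h1 : HasSum f _ := main_hasSum k hβ hu
  rw [← h1.tsum_eq, ← tsum_mul_right]
  refine tsum_of_norm_bounded ((summable_cc k).mul_right _).hasSum fun m => ?_
  have hK : 0 ≤ (2 / g) ^ (β + 1) * ‖Gamma ((β : ℂ) + 1)‖ := by positivity
  rw [hf]
  simp only
  rw [norm_mul, norm_real, Real.norm_eq_abs, abs_of_nonneg (cc_nonneg k m), norm_mul]
  rcases Nat.eq_zero_or_pos m with hm | hm
  · subst hm; rw [cc_zero]; simp
  · have hne : u - I * Real.log m ≠ 0 := by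
      intro h
      have := congrArg re h
      rw [sub_re, I_mul_re, ofReal_im, neg_zero, sub_zero, zero_re] at this
      linarith
    have h5 : g / 2 ≤ ‖u - I * Real.log m‖ := by
      have h6 := hgap m hm
      have h7 : |Real.log m - l| ≤ ‖u - I * Real.log m‖ + ‖u - I * l‖ := by
        have h8 : ((Real.log m - l : ℝ) : ℂ) * I =
            (u - I * l) - (u - I * Real.log m) := by push_cast; ring
        have h9 : |Real.log m - l| = ‖((Real.log m - l : ℝ) : ℂ) * I‖ := by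
          rw [norm_mul, norm_I, mul_one, norm_real, Real.norm_eq_abs]
        rw [h9, h8, add_comm]
        exact norm_sub_le _ _
      linarith
    have h11 : ‖cexp (-((β : ℂ) + 1) * log (u - I * Real.log m))‖ ≤
        (2 / g) ^ (β + 1) := by
      have e1 : (-((β : ℂ) + 1)) = -((β + 1 : ℝ) : ℂ) := by push_cast; ring
      rw [e1, norm_exp_neg_mul_log hne, Real.rpow_neg (norm_nonneg _),
        ← Real.inv_rpow (norm_nonneg _)]
      apply Real.rpow_le_rpow (by positivity) _ (by linarith)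
      rw [inv_le_comm₀ (norm_pos_iff.2 hne) (by positivity), inv_div]
      exact h5
    have := cc_nonneg k m
    gcongr

/-- **no singularity at the other frequencies** -/
theorem KEYother {k : ℕ} (hk : 2 ≤ k) {P : Polynomial ℝ} {Z : ℂ → ℂ}
    (hZ : DifferentiableOn ℂ Z {s : ℂ | 0 < s.re})
    (hZ' : ∀ s : ℂ, 0 < s.re → s ≠ 1 → Z s = riemannZeta s ^ k / s - Q P s) {θ : ℝ} (hθ : 0 < θ)
    (hne : ∀ n : ℕ, 1 ≤ n → θ ≠ om' k n) :
    ∃ C : ℝ, 0 ≤ C ∧ ∀ᶠ z in 𝓝 ((θ : ℂ) * I), 0 < z.re →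
      ‖Ig k (fun x => Err k P x - w0 k) z‖ ≤ C * (1 / z.re) ^ bt k := by
  have hk1 : 1 ≤ k := by omega
  have hkp : (0 : ℝ) < k := by exact_mod_cast (by omega : 0 < k)
  have hkr : (2 : ℝ) ≤ k := by exact_mod_cast hk
  have hbt : 1 ≤ bt k := by rw [bt]; linarith
  obtain ⟨C₁, hC10, hC1⟩ := KEY0 hk hZ hZ'
  set z0 : ℂ := (θ : ℂ) * I with hz0
  have hz0re : z0.re = 0 := by simp [hz0]
  have hz0im : z0.im = θ := by simp [hz0]
  have hz0n : ‖z0‖ = θ := by
    rw [hz0, norm_mul, norm_I, mul_one, norm_real, Real.norm_eq_abs, abs_of_pos hθ]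
  have hslit : z0 ∈ slitPlane := by right; rw [hz0im]; exact hθ.ne'
  -- the point y
  set y : ℝ := (θ / (2 * Real.pi * k)) ^ (k : ℝ) with hy
  have hy0 : 0 < y := by positivity
  have hyne : ∀ m : ℕ, (m : ℝ) ≠ y := by
    intro m hm
    rcases Nat.eq_zero_or_pos m with h0 | h0
    · subst h0; rw [Nat.cast_zero] at hm; linarith
    · refine hne m h0 ?_
      rw [om', hm, hy, ← Real.rpow_mul (by positivity), mul_one_div_cancel hkp.ne', Real.rpow_one]
      field_simp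
  obtain ⟨g, hg0, hg⟩ := log_gap_real hy0 hyne
  have hlogy : Real.log y = k * (Real.log θ - Real.log (2 * Real.pi * k)) := by
    rw [hy, Real.log_rpow (by positivity), Real.log_div hθ.ne' (by positivity)]
  have hev1 : ∀ᶠ z in 𝓝 z0, 0 < z.im := by
    refine continuous_im.continuousAt.eventually (lt_mem_nhds ?_)
    rw [hz0im]; exact hθ
  have hlogc : ContinuousAt log z0 := continuousAt_clog hslit
  have hlogz0 : log z0 = Real.log θ + Real.pi / 2 * I := by
    rw [hz0, log_ofReal_mul hθ I_ne_zero, log_I]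
  have hu_eq : ∀ z, I * k * ell k z - I * Real.log y = I * k * (log z - log z0) := by
    intro z
    rw [hlogz0, hlogy, ell, L0]; push_cast; ring
  have hev2 : ∀ᶠ z in 𝓝 z0, ‖I * k * ell k z - I * Real.log y‖ ≤ g / 2 := by
    have h1 : ContinuousAt (fun z => ‖I * k * (log z - log z0)‖) z0 :=
      ((hlogc.sub continuousAt_const).const_mul _).norm
    have h2 := h1.eventually (ge_mem_nhds
      (show ‖I * k * (log z0 - log z0)‖ < g / 2 by
        rw [sub_self, mul_zero, norm_zero]; positivity))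
    filter_upwards [h2] with z hz
    rw [hu_eq]; exact hz
  have hev5 : ∀ᶠ z in 𝓝 z0, ‖Cz k * cexp (-(k * ell k z))‖ ≤
      ‖Cz k * cexp (-(k * ell k z0))‖ + 1 := by
    have h1 : ContinuousAt (fun z => ‖Cz k * cexp (-(k * ell k z))‖) z0 := by
      unfold ell
      exact ((((hlogc.sub continuousAt_const).const_mul _).neg.cexp).const_mul _).norm
    exact h1.eventually (ge_mem_nhds (by linarith))
  have hev6 : ∀ᶠ z in 𝓝 z0, ‖z‖ ≤ 2 * θ ∧ θ / 2 ≤ ‖z‖ := by
    have h1 : ContinuousAt (fun z : ℂ => ‖z‖) z0 := continuous_norm.continuousAt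
    exact (h1.eventually (ge_mem_nhds (by show ‖z0‖ < 2 * θ; rw [hz0n]; linarith))).and
      (h1.eventually (le_mem_nhds (by show θ / 2 < ‖z0‖; rw [hz0n]; linarith)))
  have hev7 : ∀ᶠ z in 𝓝 z0, z.re ≤ 1 := by
    refine continuous_re.continuousAt.eventually (ge_mem_nhds ?_)
    rw [hz0re]; norm_num
  set K := ‖Cz k * cexp (-(k * ell k z0))‖ + 1 with hK
  set S := ∑' m, cc k m with hS
  have hS0 : 0 ≤ S := tsum_nonneg (cc_nonneg k)
  set G := (2 / g) ^ (bt k + 1) * ‖Gamma ((bt k : ℂ) + 1)‖ with hG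
  have hG0 : 0 ≤ G := by positivity
  have hK0 : 0 ≤ K := by positivity
  refine ⟨1 / (2 * Real.pi) * (C₁ * (1 / (θ / 2)) ^ k * (2 * θ) ^ bt k +
    K * (S * G)), by positivity, ?_⟩
  filter_upwards [hev1, hev2, hev5, hev6, hev7] with z h1 h2 h5 h6 h7 hz
  have hinv : 1 ≤ 1 / z.re := by rw [le_div_iff₀ hz]; linarith
  set Y := (1 / z.re) ^ bt k with hY
  have hY1 : 1 ≤ Y := Real.one_le_rpow hinv (by linarith)
  have hY0 : 0 ≤ Y := by linarith
  -- first error
  have hE1 : ‖2 * Real.pi * Ig k (fun x => Err k P x - w0 k) z - Mn k z‖ ≤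
      C₁ * (1 / (θ / 2)) ^ k * (2 * θ) ^ bt k * Y := by
    refine (hC1 z hz h1.le).trans ?_
    have hd : ‖z‖ / z.re ≤ 2 * θ * (1 / z.re) := by
      rw [mul_one_div]; gcongr; exact h6.1
    calc C₁ * (1 / ‖z‖) ^ k * (‖z‖ / z.re) ^ bt k
        ≤ C₁ * (1 / (θ / 2)) ^ k * (2 * θ * (1 / z.re)) ^ bt k := by
          have := h6.2
          gcongr
      _ = C₁ * (1 / (θ / 2)) ^ k * (2 * θ) ^ bt k * (1 / z.re) ^ bt k := by
          rw [Real.mul_rpow (by positivity) (by positivity)]; ring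
  have hu0 : 0 < (I * k * ell k z).re := by
    rw [u_re]
    have := (quad_arg hz h1.le).2
    exact mul_pos hkp (by linarith)
  have hE2 : ‖Mn k z‖ ≤ K * (S * G) := by
    rw [Mn, norm_mul]
    gcongr
    exact series_other k hg0 hg (by linarith) hu0 h2
  have h2pi : (0 : ℝ) < 2 * Real.pi := by positivity
  have hfin : ‖2 * Real.pi * Ig k (fun x => Err k P x - w0 k) z‖ ≤
      (C₁ * (1 / (θ / 2)) ^ k * (2 * θ) ^ bt k + K * (S * G)) * Y := by
    have e1 : 2 * Real.pi * Ig k (fun x => Err k P x - w0 k) z =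
      (2 * Real.pi * Ig k (fun x => Err k P x - w0 k) z - Mn k z) + Mn k z := by ring
    rw [e1]
    refine (norm_add_le _ _).trans ((add_le_add hE1 hE2).trans ?_)
    have h8 : K * (S * G) ≤ K * (S * G) * Y := le_mul_of_one_le_right (by positivity) hY1
    linarith
  have e2 : 2 * Real.pi * Ig k (fun x => Err k P x - w0 k) z =
      ((2 * Real.pi : ℝ) : ℂ) * Ig k (fun x => Err k P x - w0 k) z := by push_cast; ring
  rw [e2, norm_mul, norm_real, Real.norm_eq_abs, abs_of_pos h2pi] at hfin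
  calc _ = 1 / (2 * Real.pi) * (2 * Real.pi * ‖Ig k (fun x => Err k P x - w0 k) z‖) := by
        rw [← mul_assoc, one_div_mul_cancel h2pi.ne', one_mul]
    _ ≤ 1 / (2 * Real.pi) * ((C₁ * (1 / (θ / 2)) ^ k * (2 * θ) ^ bt k + K * (S * G)) * Y) := by
        gcongr
    _ = _ := by ring

/-- pointwise bound near the other frequencies -/
lemma bd_other {k : ℕ} (hk : 2 ≤ k) {P : Polynomial ℝ} {Z : ℂ → ℂ}
    (hZ : DifferentiableOn ℂ Z {s : ℂ | 0 < s.re})
    (hZ' : ∀ s : ℂ, 0 < s.re → s ≠ 1 → Z s = riemannZeta s ^ k / s - Q P s) {θ : ℝ} (hθ : 0 < θ)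
    (hne : ∀ n : ℕ, 1 ≤ n → θ ≠ om' k n)
    {κ ε : ℝ} (hκ : 0 < κ) (hε : 0 < ε) :
    ∃ C : ℝ, 0 ≤ C ∧ ∃ L : ℕ, ∀ᶠ V : ℝ in atTop, ∀ ξ : ℝ,
      ‖Ig k (fun x => Err k P x - w0 k) ((θ : ℂ) * I + ws κ ε V ξ)‖ ≤
        C * V ^ bt k * (1 + |ξ|) ^ L := by
  have hk1 : 1 ≤ k := by omega
  have hkr : (2 : ℝ) ≤ k := by exact_mod_cast hk
  have hbt : 1 ≤ bt k := by rw [bt]; linarith
  have hre0 : ((θ : ℂ) * I).re = 0 := by simp
  obtain ⟨C₁, hC10, hC1⟩ := KEYother hk hZ hZ' hθ hne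
  obtain ⟨r, hr0, hr⟩ := Metric.eventually_nhds_iff.1 hC1
  obtain ⟨C₂, hC20, L, hL⟩ := far_bound hk1 hZ hZ' hre0 hκ hε hr0
  refine ⟨C₁ + C₂, by positivity, L, ?_⟩
  filter_upwards [hL, eventually_ge_atTop 1] with V h1 hV ξ
  have hV0 : 0 < V := by linarith
  have hY : 1 ≤ V ^ bt k := Real.one_le_rpow hV (by linarith)
  have hpow : (1 : ℝ) ≤ (1 + |ξ|) ^ L := one_le_pow₀ (by linarith [abs_nonneg ξ])
  have hre : ((θ : ℂ) * I + ws κ ε V ξ).re = 1 / V := by rw [add_re, hre0, zero_add, ws_re]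
  by_cases hnear : ‖ws κ ε V ξ‖ < r
  · have h2 := hr (y := (θ : ℂ) * I + ws κ ε V ξ)
      (by rw [dist_eq_norm, add_sub_cancel_left]; exact hnear)
      (by rw [hre]; positivity)
    rw [hre, one_div_one_div] at h2
    calc _ ≤ C₁ * V ^ bt k := h2
      _ = C₁ * V ^ bt k * 1 := by ring
      _ ≤ (C₁ + C₂) * V ^ bt k * (1 + |ξ|) ^ L := by
        gcongr
        linarith
  · push Not at hnear
    have h2 := h1 ξ hnear
    calc _ ≤ C₂ * (1 + |ξ|) ^ L := h2
      _ = C₂ * 1 * (1 + |ξ|) ^ L := by ring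
      _ ≤ _ := by
          gcongr
          linarith

/-- **no mass at the other frequencies** -/
theorem RR_other_tendsto {k : ℕ} (hk : 2 ≤ k) {P : Polynomial ℝ} {Z : ℂ → ℂ}
    (hZ : DifferentiableOn ℂ Z {s : ℂ | 0 < s.re})
    (hZ' : ∀ s : ℂ, 0 < s.re → s ≠ 1 → Z s = riemannZeta s ^ k / s - Q P s) {θ : ℝ} (hθ : 0 < θ)
    (hne : ∀ n : ℕ, 1 ≤ n → θ ≠ om' k n)
    {ψ : ℝ → ℝ} (hψ : ContDiff ℝ ∞ ψ) (hc : HasCompactSupport ψ) {κ ε : ℝ} (hκ : 0 < κ)
    (hε : 0 < ε) :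
    Tendsto (fun V : ℝ => RR k P ψ κ ε ((θ : ℂ) * I) V / ((V ^ bt k * HH κ ε V : ℝ) : ℂ)) atTop
      (𝓝 0) := by
  have hk1 : 1 ≤ k := by omega
  have hkr : (2 : ℝ) ≤ k := by exact_mod_cast hk
  have hbt : 0 ≤ bt k := by rw [bt]; linarith
  have hre0 : ((θ : ℂ) * I).re = 0 := by simp
  obtain ⟨h, hh, hi, hrep⟩ := fourier_rep hψ hc
  obtain ⟨C, hC0, hC⟩ := g_bound k P
  have hgm : Measurable fun x => Err k P x - w0 k := (measurable_Err k P).sub_const _
  obtain ⟨C', hC'0, L, hC'⟩ := bd_other hk hZ hZ' hθ hne hκ hε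
  obtain ⟨B, hB0, hB⟩ := reson_bound hk1 hgm hC hre0 hh hi hrep hκ (b := bt k + 1)
    (by linarith) (A := 0) hC'0 (L := L) (by
      filter_upwards [hC'] with V hV ξ
      rw [zero_mul, sub_zero]; exact hV ξ)
  rw [tendsto_zero_iff_norm_tendsto_zero]
  have hz : Tendsto (fun V : ℝ => B * (HH κ ε V)⁻¹) atTop (𝓝 0) := by
    have := (HH_tendsto hκ hε).inv_tendsto_atTop.const_mul B
    rwa [mul_zero] at this
  refine squeeze_zero' (Eventually.of_forall fun _ => norm_nonneg _) ?_ hz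
  filter_upwards [hB, eventually_gt_atTop 0] with V h2 hV
  have hH := HH_pos (ε := ε) hκ hV
  have hVb : 0 < V ^ bt k := Real.rpow_pos_of_pos hV _
  rw [zero_mul, sub_zero] at h2
  rw [norm_div, norm_real, Real.norm_eq_abs, abs_of_pos (by positivity),
    div_le_iff₀ (by positivity), RR]
  refine h2.trans (le_of_eq ?_)
  field_simp

end Pool.Agent.Lib.MP_bc6037_nt
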