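import Mathlib
import Pool.Agent.Lib.MP_bc6037_nt.DivBound
import Pool.Agent.Lib.MP_bc6037_nt.WindowRes

set_option autoImplicit false

/-!
The conjectural limit law of the error term: independent random Fourier series indexed by the
`k`-free numbers, realised as a continuous function on a torus.
-/

open Complex Filter Topology Set MeasureTheory UnitAddTorus
open scoped ComplexConjugate

namespace Pool.Agent.Lib.MP_bc6037_nt

noncomputable section

local instance : MeasureSpace UnitAddCircle := ⟨AddCircle.haarAddCircle⟩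
local instance : Measure.IsAddHaarMeasure (volume : Measure UnitAddCircle) :=
  inferInstanceAs (Measure.IsAddHaarMeasure AddCircle.haarAddCircle)
local instance : IsProbabilityMeasure (volume : Measure UnitAddCircle) :=
  inferInstanceAs (IsProbabilityMeasure AddCircle.haarAddCircle)

section Coeff

variable {d : Type*} [Fintype d]

lemma coeff_mFourier [DecidableEq (d → ℤ)] (m c : d → ℤ) :
    mFourierCoeff (fun x => mFourier m x) c = if m = c then 1 else 0 := by
  have h := orthonormal_iff_ite.1 (orthonormal_mFourier (d := d)) c m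
  have h2 : mFourierCoeff (fun x => mFourier m x) c =
      inner ℂ (mFourierLp (d := d) 2 c) (mFourierLp 2 m) := by
    rw [mFourierCoeff, mFourierLp, mFourierLp, ContinuousMap.inner_toLp]
    congr 1
    funext t
    rw [mFourier_neg, smul_eq_mul]
    ring
  rw [h2, h]
  by_cases hc : c = m
  · simp [hc]
  · rw [if_neg hc, if_neg (fun h => hc h.symm)]

lemma coeff_sum {ι : Type*} (s : Finset ι) (f : ι → C(UnitAddTorus d, ℂ)) (c : d → ℤ) :
    mFourierCoeff (fun x => ∑ i ∈ s, f i x) c = ∑ i ∈ s, mFourierCoeff (fun x => f i x) c := by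
  unfold mFourierCoeff
  simp_rw [Finset.smul_sum]
  rw [integral_finsetSum]
  intro i _
  exact ((mFourier (-c)).continuous.smul (f i).continuous).integrable_of_hasCompactSupport
    (HasCompactSupport.of_compactSpace _)

lemma coeff_tsum {ι : Type*} [Countable ι] (f : ι → C(UnitAddTorus d, ℂ))
    (hs : Summable fun i => ‖f i‖) (c : d → ℤ) :
    mFourierCoeff (fun x => ∑' i, f i x) c = ∑' i, mFourierCoeff (fun x => f i x) c := by
  unfold mFourierCoeff
  have h1 : ∀ x, (mFourier (-c) x) • ∑' i, f i x = ∑' i, mFourier (-c) x • f i x := by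
    intro x
    rw [tsum_const_smul'']
  simp_rw [h1]
  rw [← integral_tsum_of_summable_integral_norm]
  · intro i
    exact ((mFourier (-c)).continuous.smul (f i).continuous).integrable_of_hasCompactSupport
      (HasCompactSupport.of_compactSpace _)
  · refine Summable.of_nonneg_of_le (fun i => by positivity) (fun i => ?_) hs
    calc ∫ x, ‖mFourier (-c) x • f i x‖ ≤ ∫ x : UnitAddTorus d, ‖f i‖ := by
          refine integral_mono_of_nonneg (Filter.Eventually.of_forall fun x => norm_nonneg _)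
            (integrable_const _) (Filter.Eventually.of_forall fun x => ?_)
          simp only [norm_smul]
          calc ‖mFourier (-c) x‖ * ‖f i x‖ ≤ 1 * ‖f i‖ := by
                gcongr
                · exact ((mFourier (-c)).norm_coe_le_norm x).trans (le_of_eq mFourier_norm)
                · exact (f i).norm_coe_le_norm x
            _ = _ := one_mul _
      _ = ‖f i‖ := by simp

lemma coeff_smul (a : ℂ) (f : UnitAddTorus d → ℂ) (c : d → ℤ) :
    mFourierCoeff (fun x => a * f x) c = a * mFourierCoeff f c := by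
  unfold mFourierCoeff
  rw [← integral_const_mul]
  congr 1; funext t; simp only [smul_eq_mul]; ring

lemma coeff_add (f g : C(UnitAddTorus d, ℂ)) (c : d → ℤ) :
    mFourierCoeff (fun x => f x + g x) c =
      mFourierCoeff (fun x => f x) c + mFourierCoeff (fun x => g x) c := by
  unfold mFourierCoeff
  rw [← integral_add]
  · congr 1; funext t; rw [smul_add]
  · exact ((mFourier (-c)).continuous.smul f.continuous).integrable_of_hasCompactSupport
      (HasCompactSupport.of_compactSpace _)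
  · exact ((mFourier (-c)).continuous.smul g.continuous).integrable_of_hasCompactSupport
      (HasCompactSupport.of_compactSpace _)

lemma mFourier_single' [DecidableEq d] (i : d) (n : ℤ) (x : UnitAddTorus d) :
    mFourier (Pi.single i n) x = fourier n (x i) := by
  simp only [mFourier, ContinuousMap.coe_mk]
  rw [Finset.prod_eq_single i]
  · rw [Pi.single_eq_same]
  · intro j _ hj
    rw [Pi.single_eq_of_ne hj, fourier_zero]
  · intro h; exact absurd (Finset.mem_univ i) h

end Coeff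

/-- the amplitude `(π √k)⁻¹ d_k(n) n^{-(k+1)/(2k)}` -/
def amp (k n : ℕ) : ℝ := (Real.pi * √k)⁻¹ * dk k n * (n : ℝ) ^ (-((k + 1) / (2 * k)) : ℝ)

lemma amp_nonneg (k n : ℕ) : 0 ≤ amp k n := by
  have := dk_nonneg k n
  unfold amp; positivity

/-- the Fourier coefficient at the frequency `k n^{1/k}` -/
def cC (k n : ℕ) : ℂ := ((amp k n / 2 : ℝ) : ℂ) * cexp (Real.pi * ((k : ℂ) - 3) / 4 * I)

lemma Bc_eq {k : ℕ} (hk : 1 ≤ k) (n : ℕ) : Bc k n = k * cC k n := by
  have hkp : (0 : ℝ) < k := by exact_mod_cast hk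
  have h1 : √(k : ℝ) * √(k : ℝ) = k := Real.mul_self_sqrt hkp.le
  have h2 : √(k : ℝ) / (2 * Real.pi) * dk k n * (n : ℝ) ^ (-((k + 1) / (2 * k)) : ℝ) =
      k * (amp k n / 2) := by
    have h3 : √(k : ℝ) ≠ 0 := (Real.sqrt_pos.2 hkp).ne'
    unfold amp
    field_simp
    linear_combination ((dk k n) * (n : ℝ) ^ (-((k + 1) / (2 * k)) : ℝ)) * h1
  rw [Bc, cC, h2]
  push_cast; ring

lemma norm_cC (k n : ℕ) : ‖cC k n‖ = amp k n / 2 := by
  have e : (Real.pi * ((k : ℂ) - 3) / 4 * I) = ((Real.pi * ((k : ℝ) - 3) / 4 : ℝ) : ℂ) * I := by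
    push_cast; ring
  have := amp_nonneg k n
  rw [cC, e, norm_mul, Complex.norm_exp_ofReal_mul_I, mul_one, norm_real, Real.norm_eq_abs,
    abs_of_nonneg (by positivity)]

lemma amp_summable {k : ℕ} (hk : 2 ≤ k) {q : ℕ} (hq : 0 < q) :
    Summable fun a : ℕ => amp k ((a + 1) ^ k * q) := by
  have hkp : (0 : ℝ) < k := by exact_mod_cast (by omega : 0 < k)
  have hkr : (2 : ℝ) ≤ k := by exact_mod_cast hk
  have hqp : (0 : ℝ) < q := by exact_mod_cast hq
  obtain ⟨C, hC1, hC⟩ := dk_le_rpow k (η := 1 / (4 * k)) (by positivity)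
  have hs : Summable fun a : ℕ => (Real.pi * √k)⁻¹ * (C * (q : ℝ) ^ (1 / (4 * k) : ℝ) *
      (q : ℝ) ^ (-((k + 1) / (2 * k)) : ℝ)) * (1 / ((a + 1 : ℕ) : ℝ) ^ (5 / 4 : ℝ)) := by
    refine Summable.mul_left _ ?_
    exact (summable_nat_add_iff 1).2 (Real.summable_one_div_nat_rpow.2 (by norm_num))
  refine Summable.of_nonneg_of_le (fun a => amp_nonneg _ _) (fun a => ?_) hs
  have hap : (1 : ℝ) ≤ ((a + 1 : ℕ) : ℝ) := by exact_mod_cast Nat.le_add_left 1 a
  have hap0 : (0 : ℝ) < ((a + 1 : ℕ) : ℝ) := by linarith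
  set A : ℝ := ((a + 1 : ℕ) : ℝ) with hA
  have hn : (((a + 1) ^ k * q : ℕ) : ℝ) = A ^ k * q := by rw [hA]; push_cast; ring
  have h1 := hC ((a + 1) ^ k * q) (by positivity)
  have h2 : (A ^ k * (q : ℝ)) ^ (1 / (4 * k) : ℝ) = A ^ (1 / 4 : ℝ) * (q : ℝ) ^ (1 / (4 * k) : ℝ) := by
    rw [Real.mul_rpow (by positivity) hqp.le, ← Real.rpow_natCast A k, ← Real.rpow_mul hap0.le]
    congr 2
    field_simp
  have h3 : (A ^ k * (q : ℝ)) ^ (-((k + 1) / (2 * k)) : ℝ) =
      A ^ (-((k : ℝ) + 1) / 2) * (q : ℝ) ^ (-((k + 1) / (2 * k)) : ℝ) := by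
    rw [Real.mul_rpow (by positivity) hqp.le, ← Real.rpow_natCast A k, ← Real.rpow_mul hap0.le]
    congr 2
    field_simp
  have h4 : A ^ (-((k : ℝ) + 1) / 2) ≤ A ^ (-(3 / 2) : ℝ) := by
    apply Real.rpow_le_rpow_of_exponent_le hap
    linarith
  have h5 : A ^ (1 / 4 : ℝ) * A ^ (-(3 / 2) : ℝ) = 1 / A ^ (5 / 4 : ℝ) := by
    have e : (1 : ℝ) / A ^ (5 / 4 : ℝ) = A ^ (-(5 / 4) : ℝ) := by
      rw [Real.rpow_neg hap0.le, one_div]
    rw [e, ← Real.rpow_add hap0]
    norm_num
  rw [hn, h2] at h1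
  rw [amp, hn, h3]
  calc (Real.pi * √k)⁻¹ * dk k ((a + 1) ^ k * q) *
        (A ^ (-((k : ℝ) + 1) / 2) * (q : ℝ) ^ (-((k + 1) / (2 * k)) : ℝ))
      ≤ (Real.pi * √k)⁻¹ * (C * (A ^ (1 / 4 : ℝ) * (q : ℝ) ^ (1 / (4 * k) : ℝ))) *
        (A ^ (-(3 / 2) : ℝ) * (q : ℝ) ^ (-((k + 1) / (2 * k)) : ℝ)) := by gcongr
    _ = (Real.pi * √k)⁻¹ * (C * (q : ℝ) ^ (1 / (4 * k) : ℝ) *
      (q : ℝ) ^ (-((k + 1) / (2 * k)) : ℝ)) * (A ^ (1 / 4 : ℝ) * A ^ (-(3 / 2) : ℝ)) := by ring
    _ = _ := by rw [h5]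

/-- one component of the limit law -/
def lawTerm (k q : ℕ) (u : ℝ) : ℝ :=
  ∑' a : ℕ, amp k ((a + 1) ^ k * q) *
    Real.cos (2 * Real.pi * (a + 1) * u + Real.pi * (k - 3) / 4)

/-- one mode on the torus -/
def mode (k : ℕ) (S : Finset ℕ) (q : S) (a : ℕ) : C(UnitAddTorus S, ℂ) :=
  cC k ((a + 1) ^ k * q) • mFourier (Pi.single q ((a : ℤ) + 1)) +
    conj (cC k ((a + 1) ^ k * q)) • mFourier (-(Pi.single q ((a : ℤ) + 1)))

lemma mode_apply (k : ℕ) (S : Finset ℕ) (q : S) (a : ℕ) (x : UnitAddTorus S) :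
    mode k S q a x = cC k ((a + 1) ^ k * q) * mFourier (Pi.single q ((a : ℤ) + 1)) x +
    conj (cC k ((a + 1) ^ k * q)) * mFourier (-(Pi.single q ((a : ℤ) + 1))) x := rfl

lemma mode_real (k : ℕ) (S : Finset ℕ) (q : S) (a : ℕ) (x : UnitAddTorus S) :
    mode k S q a x = (((mode k S q a x).re : ℝ) : ℂ) := by
  rw [mode_apply, mFourier_neg, ← map_mul, Complex.add_conj, ofReal_re]

lemma norm_mode_le (k : ℕ) (S : Finset ℕ) (q : S) (a : ℕ) :
    ‖mode k S q a‖ ≤ amp k ((a + 1) ^ k * q) := by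
  unfold mode
  refine (norm_add_le _ _).trans (le_of_eq ?_)
  rw [norm_smul, norm_smul, mFourier_norm, mFourier_norm, RCLike.norm_conj, norm_cC]
  ring

/-- the sum of the modes of one component -/
lemma summable_mode {k : ℕ} (hk : 2 ≤ k) {S : Finset ℕ} (hS : ∀ q ∈ S, 0 < q) (q : S) :
    Summable fun a => ‖mode k S q a‖ :=
  Summable.of_nonneg_of_le (fun _ => norm_nonneg _) (fun a => norm_mode_le k S q a)
    (amp_summable hk (hS q q.2))

/-- the limit law as a continuous function on the torus -/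
def torusLaw {k : ℕ} (hk : 2 ≤ k) {S : Finset ℕ} (hS : ∀ q ∈ S, 0 < q) :
    C(UnitAddTorus S, ℝ) where
  toFun x := ∑ q : S, ∑' a : ℕ, (mode k S q a x).re
  continuous_toFun := by
    refine continuous_finsetSum _ fun q _ => ?_
    refine continuous_tsum (fun a => Complex.continuous_re.comp (mode k S q a).continuous)
      (summable_mode hk hS q) (fun a x => ?_)
    rw [Real.norm_eq_abs]
    exact (abs_re_le_norm _).trans ((mode k S q a).norm_coe_le_norm x)

lemma torusLaw_coe {k : ℕ} (hk : 2 ≤ k) {S : Finset ℕ} (hS : ∀ q ∈ S, 0 < q) (x : UnitAddTorus S) :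
    ((torusLaw hk hS x : ℝ) : ℂ) = ∑ q : S, ∑' a : ℕ, mode k S q a x := by
  show ((∑ q : S, ∑' a : ℕ, (mode k S q a x).re : ℝ) : ℂ) = _
  push_cast
  refine Finset.sum_congr rfl fun q _ => tsum_congr fun a => (mode_real k S q a x).symm

lemma coeff_mode (k : ℕ) (S : Finset ℕ) (q : S) (a : ℕ) (c : S → ℤ) [DecidableEq (S → ℤ)] :
    mFourierCoeff (fun x => mode k S q a x) c =
      (if Pi.single q ((a : ℤ) + 1) = c then cC k ((a + 1) ^ k * q) else 0) +
      (if -(Pi.single q ((a : ℤ) + 1)) = c then conj (cC k ((a + 1) ^ k * q)) else 0) := by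
  have h := coeff_add (cC k ((a + 1) ^ k * q) • mFourier (Pi.single q ((a : ℤ) + 1)))
    (conj (cC k ((a + 1) ^ k * q)) • mFourier (-(Pi.single q ((a : ℤ) + 1)))) c
  have h1 : mFourierCoeff (fun x => mode k S q a x) c = _ := h
  rw [h1]
  simp only [ContinuousMap.coe_smul, Pi.smul_apply, smul_eq_mul]
  rw [coeff_smul, coeff_smul, coeff_mFourier, coeff_mFourier]
  simp only [mul_ite, mul_one, mul_zero]

lemma coeff_torusLaw {k : ℕ} (hk : 2 ≤ k) {S : Finset ℕ} (hS : ∀ q ∈ S, 0 < q) (c : S → ℤ)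
    [DecidableEq (S → ℤ)] :
    mFourierCoeff (fun x => ((torusLaw hk hS x : ℝ) : ℂ)) c =
      ∑ q : S, ∑' a : ℕ,
      ((if Pi.single q ((a : ℤ) + 1) = c then cC k ((a + 1) ^ k * q) else 0) +
      (if -(Pi.single q ((a : ℤ) + 1)) = c then conj (cC k ((a + 1) ^ k * q)) else 0)) := by
  set f : S → C(UnitAddTorus S, ℂ) := fun q => ∑' a : ℕ, mode k S q a with hf
  have hfs : ∀ q : S, Summable fun a => mode k S q a := fun q =>
    Summable.of_norm (summable_mode hk hS q)
  have hfx : ∀ (q : S) (x : UnitAddTorus S), f q x = ∑' a : ℕ, mode k S q a x := by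
    intro q x
    have h1 := (ContinuousMap.evalCLM ℂ x).hasSum (hfs q).hasSum
    exact h1.tsum_eq.symm
  have h0 : (fun x => ((torusLaw hk hS x : ℝ) : ℂ)) = fun x => ∑ q : S, f q x := by
    funext x
    rw [torusLaw_coe]
    exact Finset.sum_congr rfl fun q _ => (hfx q x).symm
  rw [h0, coeff_sum]
  refine Finset.sum_congr rfl fun q _ => ?_
  have h2 : (fun x => f q x) = fun x => ∑' a : ℕ, mode k S q a x := funext fun x => hfx q x
  rw [h2, coeff_tsum _ (summable_mode hk hS q)]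
  exact tsum_congr fun a => coeff_mode k S q a c

/-- coefficient at a positive mode -/
lemma coeff_pos {k : ℕ} (hk : 2 ≤ k) {S : Finset ℕ} (hS : ∀ q ∈ S, 0 < q) (q : S) (a : ℕ) :
    mFourierCoeff (fun x => ((torusLaw hk hS x : ℝ) : ℂ)) (Pi.single q ((a : ℤ) + 1)) =
      cC k ((a + 1) ^ k * q) := by
  classical
  rw [coeff_torusLaw, Finset.sum_eq_single q]
  · rw [tsum_eq_single a]
    · rw [if_pos rfl, if_neg, add_zero]
      intro h
      have := congrFun h q
      rw [Pi.neg_apply, Pi.single_eq_same] at this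
      omega
    · intro b hb
      rw [if_neg, if_neg, add_zero]
      · intro h
        have := congrFun h q
        rw [Pi.neg_apply, Pi.single_eq_same, Pi.single_eq_same] at this
        omega
      · intro h
        have := congrFun h q
        rw [Pi.single_eq_same, Pi.single_eq_same] at this
        exact hb (by omega)
  · intro r _ hr
    rw [tsum_congr (g := fun _ => (0 : ℂ)), tsum_zero]
    intro b
    rw [if_neg, if_neg, add_zero]
    · intro h
      have := congrFun h r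
      rw [Pi.neg_apply, Pi.single_eq_same, Pi.single_eq_of_ne hr] at this
      omega
    · intro h
      have := congrFun h r
      rw [Pi.single_eq_same, Pi.single_eq_of_ne hr] at this
      omega
  · intro h; exact absurd (Finset.mem_univ q) h

/-- coefficient at the other modes -/
lemma coeff_zero {k : ℕ} (hk : 2 ≤ k) {S : Finset ℕ} (hS : ∀ q ∈ S, 0 < q) (c : S → ℤ)
    (h1 : ∀ (q : S) (a : ℕ), c ≠ Pi.single q ((a : ℤ) + 1))
    (h2 : ∀ (q : S) (a : ℕ), c ≠ -(Pi.single q ((a : ℤ) + 1))) :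
    mFourierCoeff (fun x => ((torusLaw hk hS x : ℝ) : ℂ)) c = 0 := by
  classical
  rw [coeff_torusLaw]
  refine Finset.sum_eq_zero fun q _ => ?_
  rw [tsum_congr (g := fun _ => (0 : ℂ)), tsum_zero]
  intro b
  rw [if_neg fun h => h1 q b h.symm, if_neg fun h => h2 q b h.symm, add_zero]

lemma coeff_neg {d : Type*} [Fintype d] (f : UnitAddTorus d → ℝ) (c : d → ℤ) :
    mFourierCoeff (fun x => ((f x : ℝ) : ℂ)) (-c) =
      conj (mFourierCoeff (fun x => ((f x : ℝ) : ℂ)) c) := by
  unfold mFourierCoeff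
  rw [← integral_conj]
  congr 1
  funext t
  simp only [smul_eq_mul, map_mul, conj_ofReal]
  rw [mFourier_neg (n := -c)]

/-- the torus function in coordinates -/
lemma torusLaw_real {k : ℕ} (hk : 2 ≤ k) {S : Finset ℕ} (hS : ∀ q ∈ S, 0 < q) (u : S → ℝ) :
    torusLaw hk hS (fun q => (u q : UnitAddCircle)) = ∑ q : S, lawTerm k q (u q) := by
  show ∑ q : S, ∑' a : ℕ, (mode k S q a (fun q => (u q : UnitAddCircle))).re = _
  refine Finset.sum_congr rfl fun q _ => ?_
  rw [lawTerm]
  refine tsum_congr fun a => ?_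
  rw [mode_apply, mFourier_neg, ← map_mul, Complex.add_conj, ofReal_re, mFourier_single',
    fourier_coe_apply, cC, mul_assoc, re_ofReal_mul, ← Complex.exp_add]
  have e : Real.pi * ((k : ℂ) - 3) / 4 * I + 2 * Real.pi * I * ((((a : ℤ) + 1 : ℤ)) : ℂ) *
      ((u q : ℝ) : ℂ) / ((1 : ℝ) : ℂ) =
      ((2 * Real.pi * (a + 1) * u q + Real.pi * (k - 3) / 4 : ℝ) : ℂ) * I := by
    push_cast; ring
  rw [e, Complex.exp_ofReal_mul_I_re]
  ring

end

end Pool.Agent.Lib.MP_bc6037_nt
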