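import Mathlib
import Pool.Agent.Lib.MP_bc6037_nt.WindowInt

set_option autoImplicit false

/-!
The Bessel inequality for the mean square in short windows.
-/

open Complex Filter Topology Set MeasureTheory
open scoped ContDiff

namespace Pool.Agent.Lib.MP_bc6037_nt

open DeltaMellin ZetaGrowth

lemma Wn_nonneg {ψ : ℝ → ℝ} (h0 : ∀ s, 0 ≤ ψ s) (κ ε V v : ℝ) : 0 ≤ Wn ψ κ ε V v :=
  mul_nonneg (h0 _) (Real.exp_pos _).le

lemma Wn_le {ψ : ℝ → ℝ} (h0 : ∀ s, 0 ≤ ψ s) (h1 : ∀ s, ψ s ≤ 1) {κ ε V : ℝ} (hV : 0 < V) (v : ℝ) :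
    |Wn ψ κ ε V v| ≤ Real.exp 1 * Real.exp (-(1 / V * v)) := by
  rw [abs_of_nonneg (Wn_nonneg h0 _ _ _ _), Wn, ← Real.exp_add]
  have e1 : -((v - V) / V) = 1 + -(1 / V * v) := by field_simp; ring
  rw [e1]
  calc ψ ((v - V) / HH κ ε V) * Real.exp (1 + -(1 / V * v)) ≤ 1 * Real.exp (1 + -(1 / V * v)) := by
        gcongr
        exact h1 _
    _ = _ := one_mul _

lemma Wn_le_one {ψ : ℝ → ℝ} (h0 : ∀ s, 0 ≤ ψ s) (h1 : ∀ s, ψ s ≤ 1)
    (hsupp : ∀ s, ψ s ≠ 0 → 0 < s ∧ s < 1) {κ ε V : ℝ} (hκ : 0 < κ) (hV : 0 < V) (v : ℝ) :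
    Wn ψ κ ε V v ≤ 1 := by
  rw [Wn]
  by_cases h : ψ ((v - V) / HH κ ε V) = 0
  · rw [h]; simp
  · have h2 := (hsupp _ h).1
    have hH := HH_pos (ε := ε) hκ hV
    rw [lt_div_iff₀ hH, zero_mul] at h2
    have h3 : Real.exp (-((v - V) / V)) ≤ 1 := by
      rw [Real.exp_le_one_iff]
      have : 0 < (v - V) / V := by positivity
      linarith
    have h4 := h1 ((v - V) / HH κ ε V)
    have h5 := h0 ((v - V) / HH κ ε V)
    have h6 := Real.exp_pos (-((v - V) / V))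
    nlinarith

lemma Wn_measurable {ψ : ℝ → ℝ} (hψ : Continuous ψ) (κ ε V : ℝ) : Measurable (Wn ψ κ ε V) := by
  unfold Wn
  have m1 : Continuous fun v : ℝ => (v - V) / HH κ ε V := by fun_prop
  exact (hψ.comp m1).measurable.mul (by fun_prop)

lemma wint_gen {k : ℕ} (hk : 1 ≤ k) {F : ℝ → ℂ} (hF : Measurable F) {C q : ℝ} (hq : -1 < q)
    (hb : ∀ x, 1 ≤ x → ‖F x‖ ≤ C * x ^ q) {V : ℝ} (hV : 0 < V) {ψ : ℝ → ℝ} (hψ : Continuous ψ)
    (h0 : ∀ s, 0 ≤ ψ s) (h1 : ∀ s, ψ s ≤ 1) (κ ε : ℝ) :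
    Integrable (fun x : ℝ => F x * (Wn ψ κ ε V (x ^ (1 / k : ℝ)) : ℂ)) (volume.restrict (Ioi 1)) := by
  refine (rpow_exp_integrable hk hV (C * Real.exp 1) hq).mono' ?_ ?_
  · have m1 : Measurable fun x : ℝ => x ^ (1 / k : ℝ) := measurable_id.pow_const _
    exact (hF.mul (measurable_ofReal.comp
      ((Wn_measurable hψ κ ε V).comp m1))).aestronglyMeasurable
  · filter_upwards [ae_restrict_mem measurableSet_Ioi] with x hx
    have hx1 : (1 : ℝ) < x := hx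
    rw [norm_mul, norm_real, Real.norm_eq_abs]
    have h3 := Wn_le h0 h1 (κ := κ) (ε := ε) hV (x ^ (1 / k : ℝ))
    have h4 := hb x hx1.le
    have h5 : 0 ≤ C * x ^ q := (norm_nonneg _).trans h4
    calc ‖F x‖ * |Wn ψ κ ε V (x ^ (1 / k : ℝ))| ≤
          (C * x ^ q) * (Real.exp 1 * Real.exp (-(1 / V * x ^ (1 / k : ℝ)))) := by gcongr
      _ = _ := by ring

theorem bessel {k : ℕ} (hk : 2 ≤ k) (P : Polynomial ℝ) {ψ : ℝ → ℝ} (hψ : ContDiff ℝ ∞ ψ)
    (hc : HasCompactSupport ψ) (h0 : ∀ v, 0 ≤ ψ v) (h1 : ∀ v, ψ v ≤ 1)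
    (hsupp : ∀ s, ψ s ≠ 0 → 0 < s ∧ s < 1) {κ ε : ℝ} (hκ : 0 < κ) (hε : 0 < ε) (hε1 : ε < 1)
    {ι : Type*} (s : Finset ι) (θ : ι → ℝ)
    (hθ : Set.InjOn θ s) (ρ : ι → ℂ) {J : ℝ} (hJ : J = ∫ u, ψ u)
    (hR : ∀ j ∈ s, Tendsto (fun V : ℝ => RR k P ψ κ ε (θ j * I) V /
      ((V ^ bt k * HH κ ε V : ℝ) : ℂ)) atTop (𝓝 (ρ j * J)))
    {c : ℝ} (hcl : c < J / k * ∑ j ∈ s, ‖ρ j‖ ^ 2) :
    ∀ᶠ V : ℝ in atTop, c * (V ^ (2 * (k : ℝ) - 2) * HH κ ε V) ≤
      ∫ x in Ioi (1 : ℝ), (Err k P x - w0 k) ^ 2 * Wn ψ κ ε V (x ^ (1 / k : ℝ)) := by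
  classical
  have hk1 : 1 ≤ k := by omega
  have hkp : (0 : ℝ) < k := by exact_mod_cast (by omega : 0 < k)
  have hkr : (2 : ℝ) ≤ k := by exact_mod_cast hk
  have hkc : (k : ℂ) ≠ 0 := by exact_mod_cast hkp.ne'
  obtain ⟨Cg, hCg0, hCg⟩ := g_bound k P
  have hgm : Measurable fun x => Err k P x - w0 k := (measurable_Err k P).sub_const _
  set a : ι → ℂ := fun j => ρ j / k with ha
  set lam : ℝ → ℝ := fun V => V ^ (-(((k : ℝ) + 1) / 2)) with hlam
  -- the comparison functional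
  set Fn : ℝ → ℝ := fun V => 2 * (lam V * (∑ j ∈ s, (starRingEnd ℂ) (a j) *
      RR k P ψ κ ε (θ j * I) V).re) -
    lam V ^ 2 * (∑ j ∈ s, ∑ l ∈ s, a j * (starRingEnd ℂ) (a l) *
      MM k ψ κ ε (θ j - θ l) V).re with hFn
  -- limit
  have hlim : Tendsto (fun V : ℝ => Fn V / (V ^ (2 * (k : ℝ) - 2) * HH κ ε V)) atTop
      (𝓝 (J / k * ∑ j ∈ s, ‖ρ j‖ ^ 2)) := by
    have g1 : Tendsto (fun V : ℝ => ∑ j ∈ s, (starRingEnd ℂ) (a j) *
        (RR k P ψ κ ε (θ j * I) V / ((V ^ bt k * HH κ ε V : ℝ) : ℂ))) atTop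
        (𝓝 (∑ j ∈ s, (starRingEnd ℂ) (a j) * (ρ j * J))) :=
      tendsto_finsetSum _ fun j hj => (hR j hj).const_mul _
    have g2 : Tendsto (fun V : ℝ => ∑ j ∈ s, ∑ l ∈ s, a j * (starRingEnd ℂ) (a l) *
        (MM k ψ κ ε (θ j - θ l) V / ((V ^ (3 * (k : ℝ) - 1) * HH κ ε V : ℝ) : ℂ))) atTop
        (𝓝 (∑ j ∈ s, ∑ l ∈ s, a j * (starRingEnd ℂ) (a l) *
          (if θ j - θ l = 0 then (k : ℂ) * (J : ℂ) else 0))) := by
      refine tendsto_finsetSum _ fun j _ => tendsto_finsetSum _ fun l _ => ?_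
      have := MM_tendsto hk1 hψ.continuous hc h0 hsupp hκ hε hε1 (θ j - θ l)
      rw [← hJ] at this
      exact this.const_mul _
    have g3 := ((continuous_re.tendsto _).comp g1).const_mul (2 : ℝ)
    have g4 := (continuous_re.tendsto _).comp g2
    have g5 := g3.sub g4
    have e1 : (∑ j ∈ s, (starRingEnd ℂ) (a j) * (ρ j * J)) =
        ((J / k * ∑ j ∈ s, ‖ρ j‖ ^ 2 : ℝ) : ℂ) := by
      rw [Finset.mul_sum, ofReal_sum]
      refine Finset.sum_congr rfl fun j _ => ?_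
      rw [ha]
      simp only [map_div₀, map_natCast]
      have : (starRingEnd ℂ) (ρ j) * ρ j = ((‖ρ j‖ ^ 2 : ℝ) : ℂ) := by
        rw [mul_comm, mul_conj, normSq_eq_norm_sq]
      calc (starRingEnd ℂ) (ρ j) / k * (ρ j * J) = (starRingEnd ℂ) (ρ j) * ρ j * (J / k) := by
            field_simp
        _ = _ := by rw [this]; push_cast; ring
    have e2 : (∑ j ∈ s, ∑ l ∈ s, a j * (starRingEnd ℂ) (a l) *
          (if θ j - θ l = 0 then (k : ℂ) * (J : ℂ) else 0)) =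
        ((J / k * ∑ j ∈ s, ‖ρ j‖ ^ 2 : ℝ) : ℂ) := by
      rw [Finset.mul_sum, ofReal_sum]
      refine Finset.sum_congr rfl fun j hj => ?_
      rw [Finset.sum_eq_single j]
      · rw [sub_self, if_pos rfl, ha]
        simp only [map_div₀, map_natCast]
        have : ρ j * (starRingEnd ℂ) (ρ j) = ((‖ρ j‖ ^ 2 : ℝ) : ℂ) := by
          rw [mul_conj, normSq_eq_norm_sq]
        calc ρ j / k * ((starRingEnd ℂ) (ρ j) / k) * (k * J) =
              ρ j * (starRingEnd ℂ) (ρ j) * (J / k) := by field_simp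
          _ = _ := by rw [this]; push_cast; ring
      · intro l hl hne
        rw [if_neg, mul_zero]
        intro h
        exact hne (hθ hl hj (sub_eq_zero.1 h).symm)
      · intro h; exact absurd hj h
    rw [e1, e2, ofReal_re] at g5
    have e3 : 2 * (J / k * ∑ j ∈ s, ‖ρ j‖ ^ 2) - J / k * ∑ j ∈ s, ‖ρ j‖ ^ 2 =
        J / k * ∑ j ∈ s, ‖ρ j‖ ^ 2 := by ring
    rw [e3] at g5
    refine g5.congr' ?_
    filter_upwards [eventually_gt_atTop 0] with V hV0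
    have hH := HH_pos (ε := ε) hκ hV0
    have p1 : (0 : ℝ) < V ^ (2 * (k : ℝ) - 2) := Real.rpow_pos_of_pos hV0 _
    have p2 : (0 : ℝ) < V ^ bt k := Real.rpow_pos_of_pos hV0 _
    have p3 : (0 : ℝ) < V ^ (3 * (k : ℝ) - 1) := Real.rpow_pos_of_pos hV0 _
    have q1 : V ^ (2 * (k : ℝ) - 2) = lam V * V ^ bt k := by
      rw [hlam]; simp only; rw [← Real.rpow_add hV0]; congr 1; rw [bt]; ring
    have q2 : V ^ (2 * (k : ℝ) - 2) = lam V ^ 2 * V ^ (3 * (k : ℝ) - 1) := by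
      rw [hlam]; simp only
      rw [← Real.rpow_natCast, ← Real.rpow_mul hV0.le, ← Real.rpow_add hV0]
      congr 1; push_cast; ring
    have hlp : 0 < lam V := Real.rpow_pos_of_pos hV0 _
    have k2 : (∑ j ∈ s, (starRingEnd ℂ) (a j) * (RR k P ψ κ ε (θ j * I) V /
        ((V ^ bt k * HH κ ε V : ℝ) : ℂ))) =
        (∑ j ∈ s, (starRingEnd ℂ) (a j) * RR k P ψ κ ε (θ j * I) V) /
          ((V ^ bt k * HH κ ε V : ℝ) : ℂ) := by
      rw [Finset.sum_div]
      exact Finset.sum_congr rfl fun j _ => by rw [mul_div_assoc]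
    have k3 : (∑ j ∈ s, ∑ l ∈ s, a j * (starRingEnd ℂ) (a l) *
        (MM k ψ κ ε (θ j - θ l) V / ((V ^ (3 * (k : ℝ) - 1) * HH κ ε V : ℝ) : ℂ))) =
        (∑ j ∈ s, ∑ l ∈ s, a j * (starRingEnd ℂ) (a l) * MM k ψ κ ε (θ j - θ l) V) /
          ((V ^ (3 * (k : ℝ) - 1) * HH κ ε V : ℝ) : ℂ) := by
      rw [Finset.sum_div]
      refine Finset.sum_congr rfl fun j _ => ?_
      rw [Finset.sum_div]
      exact Finset.sum_congr rfl fun l _ => by rw [mul_div_assoc]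
    simp only [Function.comp]
    rw [hFn]
    simp only
    rw [k2, k3, div_ofReal_re, div_ofReal_re, sub_div]
    generalize (∑ j ∈ s, (starRingEnd ℂ) (a j) * RR k P ψ κ ε (θ j * I) V).re = A
    generalize (∑ j ∈ s, ∑ l ∈ s, a j * (starRingEnd ℂ) (a l) *
      MM k ψ κ ε (θ j - θ l) V).re = B
    congr 1
    · rw [q1]; field_simp
    · rw [q2]; field_simp
  -- Bessel's inequality
  have hbes : ∀ V : ℝ, 0 < V → Fn V ≤
      ∫ x in Ioi (1 : ℝ), (Err k P x - w0 k) ^ 2 * Wn ψ κ ε V (x ^ (1 / k : ℝ)) := by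
    intro V hV0
    set e : ι → ℝ → ℂ := fun j x => cexp (I * θ j * ((x ^ (1 / k : ℝ) : ℝ) : ℂ)) with he
    have m1 : Measurable fun x : ℝ => x ^ (1 / k : ℝ) := measurable_id.pow_const _
    have hnorm_e : ∀ (w : ℝ) (x : ℝ), ‖cexp (I * w * ((x ^ (1 / k : ℝ) : ℝ) : ℂ))‖ = 1 := by
      intro w x
      have : I * w * ((x ^ (1 / k : ℝ) : ℝ) : ℂ) = ((w * x ^ (1 / k : ℝ) : ℝ) : ℂ) * I := by
        push_cast; ring
      rw [this, Complex.norm_exp_ofReal_mul_I]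
    have hmeas_e : ∀ w : ℝ, Measurable fun x : ℝ => cexp (I * w * ((x ^ (1 / k : ℝ) : ℝ) : ℂ)) :=
      fun w => Complex.measurable_exp.comp ((measurable_ofReal.comp m1).const_mul _)
    have hneg : ∀ (w x : ℝ), -((w : ℂ) * I * ((x ^ (1 / k : ℝ) : ℝ) : ℂ)) =
        I * ((-w : ℝ) : ℂ) * ((x ^ (1 / k : ℝ) : ℝ) : ℂ) := by
      intro w x; push_cast; ring
    set g1 : ι → ℝ → ℂ := fun j x => (((Err k P x - w0 k : ℝ) : ℂ) * ((x : ℂ) *
      cexp (-((θ j : ℂ) * I * ((x ^ (1 / k : ℝ) : ℝ) : ℂ))))) *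
        (Wn ψ κ ε V (x ^ (1 / k : ℝ)) : ℂ) with hg1
    set g2 : ℝ → ℝ → ℂ := fun w x => (((x ^ 2 : ℝ) : ℂ) *
      cexp (I * w * ((x ^ (1 / k : ℝ) : ℝ) : ℂ))) * (Wn ψ κ ε V (x ^ (1 / k : ℝ)) : ℂ) with hg2
    have hI1 : ∀ j, Integrable (g1 j) (volume.restrict (Ioi 1)) := by
      intro j
      refine wint_gen hk1 (q := 5 / 2) (C := Cg) ?_ (by norm_num) ?_ hV0 hψ.continuous h0 h1 κ ε
      · simp only [hneg]
        exact (measurable_ofReal.comp hgm).mul (measurable_ofReal.mul (hmeas_e (-(θ j))))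
      · intro x hx
        have hx0 : 0 < x := by linarith
        rw [norm_mul, norm_mul, hneg, hnorm_e, mul_one, norm_real, norm_real, Real.norm_eq_abs,
          Real.norm_eq_abs, abs_of_pos hx0]
        calc |Err k P x - w0 k| * x ≤ (Cg * x ^ (3 / 2 : ℝ)) * x := by
              have h2 := hCg x hx
              gcongr
          _ = Cg * x ^ (5 / 2 : ℝ) := by
              nth_rewrite 2 [← Real.rpow_one x]
              rw [mul_assoc, ← Real.rpow_add hx0]; norm_num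
    have hI2 : ∀ w, Integrable (g2 w) (volume.restrict (Ioi 1)) := by
      intro w
      refine wint_gen hk1 (q := 2) (C := 1) ?_ (by norm_num) ?_ hV0 hψ.continuous h0 h1 κ ε
      · exact (measurable_ofReal.comp (measurable_id.pow_const 2)).mul (hmeas_e w)
      · intro x hx
        have hx0 : 0 < x := by linarith
        rw [norm_mul, hnorm_e, mul_one, norm_real, Real.norm_eq_abs,
          abs_of_pos (by positivity), one_mul]
        have : x ^ (2 : ℝ) = x ^ 2 := by norm_cast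
        rw [this]
    have hI3 : Integrable (fun x => (Err k P x - w0 k) ^ 2 * Wn ψ κ ε V (x ^ (1 / k : ℝ)))
        (volume.restrict (Ioi 1)) := by
      have h2 : Integrable (fun x => (((Err k P x - w0 k) ^ 2 : ℝ) : ℂ) *
          (Wn ψ κ ε V (x ^ (1 / k : ℝ)) : ℂ)) (volume.restrict (Ioi 1)) := by
        refine wint_gen hk1 (q := 3) (C := Cg ^ 2) ?_ (by norm_num) ?_ hV0 hψ.continuous h0 h1 κ ε
        · exact measurable_ofReal.comp (hgm.pow_const 2)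
        · intro x hx
          have hx0 : 0 < x := by linarith
          rw [norm_real, Real.norm_eq_abs, abs_of_nonneg (sq_nonneg _), ← sq_abs]
          calc |Err k P x - w0 k| ^ 2 ≤ (Cg * x ^ (3 / 2 : ℝ)) ^ 2 := by
                have := hCg x hx
                gcongr
            _ = Cg ^ 2 * x ^ (3 : ℝ) := by
                rw [mul_pow, ← Real.rpow_natCast (x ^ (3 / 2 : ℝ)), ← Real.rpow_mul hx0.le]
                norm_num
      have h3 := h2.re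
      refine h3.congr (Eventually.of_forall fun x => ?_)
      simp only
      rw [← ofReal_mul]
      exact ofReal_re _
    set L := lam V with hL
    set S1 : ℝ → ℂ := fun x => ∑ j ∈ s, (starRingEnd ℂ) (a j) * g1 j x with hS1
    set S2 : ℝ → ℂ := fun x => ∑ j ∈ s, ∑ l ∈ s, a j * (starRingEnd ℂ) (a l) *
      g2 (θ j - θ l) x with hS2
    have hIS1 : Integrable S1 (volume.restrict (Ioi 1)) :=
      integrable_finsetSum _ fun j _ => (hI1 j).const_mul _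
    have hIS2 : Integrable S2 (volume.restrict (Ioi 1)) :=
      integrable_finsetSum _ fun j _ => integrable_finsetSum _ fun l _ => (hI2 _).const_mul _
    have hint1 : (∑ j ∈ s, (starRingEnd ℂ) (a j) * RR k P ψ κ ε (θ j * I) V) =
        ∫ x in Ioi (1 : ℝ), S1 x := by
      rw [hS1, integral_finsetSum _ fun j _ => (hI1 j).const_mul _]
      refine Finset.sum_congr rfl fun j _ => ?_
      rw [integral_const_mul]
      rfl
    have hint2 : (∑ j ∈ s, ∑ l ∈ s, a j * (starRingEnd ℂ) (a l) * MM k ψ κ ε (θ j - θ l) V) =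
        ∫ x in Ioi (1 : ℝ), S2 x := by
      rw [hS2, integral_finsetSum _ fun j _ => integrable_finsetSum _ fun l _ =>
        (hI2 _).const_mul _]
      refine Finset.sum_congr rfl fun j _ => ?_
      rw [integral_finsetSum _ fun l _ => (hI2 _).const_mul _]
      refine Finset.sum_congr rfl fun l _ => ?_
      rw [integral_const_mul]
      rfl
    have hre1 : (∫ x in Ioi (1 : ℝ), S1 x).re = ∫ x in Ioi (1 : ℝ), (S1 x).re :=
      (reCLM.integral_comp_comm hIS1).symm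
    have hre2 : (∫ x in Ioi (1 : ℝ), S2 x).re = ∫ x in Ioi (1 : ℝ), (S2 x).re :=
      (reCLM.integral_comp_comm hIS2).symm
    have hR1 : Integrable (fun x => (S1 x).re) (volume.restrict (Ioi 1)) := hIS1.re
    have hR2 : Integrable (fun x => (S2 x).re) (volume.restrict (Ioi 1)) := hIS2.re
    have hR1' : Integrable (fun x => 2 * (L * (S1 x).re)) (volume.restrict (Ioi 1)) :=
      (hR1.const_mul L).const_mul 2
    have hR2' : Integrable (fun x => L ^ 2 * (S2 x).re) (volume.restrict (Ioi 1)) :=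
      hR2.const_mul (L ^ 2)
    rw [hFn]
    simp only
    rw [hint1, hint2, hre1, hre2, ← integral_const_mul, ← integral_const_mul,
      ← integral_const_mul, ← integral_sub hR1' hR2']
    refine setIntegral_mono_on (hR1'.sub hR2') hI3 measurableSet_Ioi fun x hx => ?_
    have hx1 : (1 : ℝ) < x := hx
    have hx0 : 0 < x := by linarith
    set E := Err k P x - w0 k with hE
    set X := Wn ψ κ ε V (x ^ (1 / k : ℝ)) with hX
    have hX0 : 0 ≤ X := Wn_nonneg h0 _ _ _ _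
    set T := ∑ j ∈ s, a j * e j x with hT
    have hconj : ∀ j, (starRingEnd ℂ) (e j x) =
        cexp (-((θ j : ℂ) * I * ((x ^ (1 / k : ℝ) : ℝ) : ℂ))) := by
      intro j
      rw [he]
      simp only
      rw [← Complex.exp_conj]
      congr 1
      rw [map_mul, map_mul, conj_I, conj_ofReal, conj_ofReal]
      ring
    have hs1 : S1 x = ((E * x * X : ℝ) : ℂ) * (starRingEnd ℂ) T := by
      rw [hS1, hT, map_sum, Finset.mul_sum]
      refine Finset.sum_congr rfl fun j _ => ?_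
      have hgx : g1 j x = ((E : ℂ) * ((x : ℂ) *
        cexp (-((θ j : ℂ) * I * ((x ^ (1 / k : ℝ) : ℝ) : ℂ))))) * (X : ℂ) := rfl
      rw [map_mul, hconj, hgx, ofReal_mul, ofReal_mul]
      ring
    have hs2 : S2 x = ((x ^ 2 * X * ‖T‖ ^ 2 : ℝ) : ℂ) := by
      have h2 : ((‖T‖ ^ 2 : ℝ) : ℂ) = T * (starRingEnd ℂ) T := by
        rw [mul_conj, normSq_eq_norm_sq]
      have h3 : ((x ^ 2 * X * ‖T‖ ^ 2 : ℝ) : ℂ) = ((x ^ 2 * X : ℝ) : ℂ) * (T * (starRingEnd ℂ) T) := by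
        rw [← h2]; push_cast; ring
      rw [h3, hT, map_sum, Finset.sum_mul_sum, Finset.mul_sum, hS2]
      refine Finset.sum_congr rfl fun j _ => ?_
      rw [Finset.mul_sum]
      refine Finset.sum_congr rfl fun l _ => ?_
      have hgx : g2 (θ j - θ l) x = (((x ^ 2 : ℝ) : ℂ) *
        cexp (I * ((θ j - θ l : ℝ) : ℂ) * ((x ^ (1 / k : ℝ) : ℝ) : ℂ))) * (X : ℂ) := rfl
      rw [map_mul, hconj, hgx]
      have h4 : cexp (I * ((θ j - θ l : ℝ) : ℂ) * ((x ^ (1 / k : ℝ) : ℝ) : ℂ)) =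
          e j x * cexp (-((θ l : ℂ) * I * ((x ^ (1 / k : ℝ) : ℝ) : ℂ))) := by
        rw [he]
        simp only
        rw [← Complex.exp_add]
        congr 1
        push_cast
        ring
      rw [h4]
      push_cast
      ring
    rw [hs1, hs2, re_ofReal_mul, ofReal_re, conj_re]
    have h5 : |T.re| ≤ ‖T‖ := abs_re_le_norm T
    have h6 : T.re ^ 2 ≤ ‖T‖ ^ 2 := by
      rw [← sq_abs]; gcongr
    have h7 : 2 * (E * (L * x) * T.re) - (L * x) ^ 2 * ‖T‖ ^ 2 ≤ E ^ 2 := by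
      have h8 : 0 ≤ (E - (L * x) * T.re) ^ 2 := sq_nonneg _
      have h9 : (L * x) ^ 2 * T.re ^ 2 ≤ (L * x) ^ 2 * ‖T‖ ^ 2 := by gcongr
      nlinarith
    calc 2 * (L * (E * x * X * T.re)) - L ^ 2 * (x ^ 2 * X * ‖T‖ ^ 2) =
          (2 * (E * (L * x) * T.re) - (L * x) ^ 2 * ‖T‖ ^ 2) * X := by ring
      _ ≤ E ^ 2 * X := by gcongr
  have hev := hlim.eventually (lt_mem_nhds hcl)
  filter_upwards [hev, eventually_gt_atTop 0] with V h2 hV0
  have hH := HH_pos (ε := ε) hκ hV0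
  have hpos : (0 : ℝ) < V ^ (2 * (k : ℝ) - 2) * HH κ ε V :=
    mul_pos (Real.rpow_pos_of_pos hV0 _) hH
  rw [lt_div_iff₀ hpos] at h2
  exact h2.le.trans (hbes V hV0)

end Pool.Agent.Lib.MP_bc6037_nt
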