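import Mathlib
import Pool.Agent.Lib.MP_bc6037_nt.WindowBessel

set_option autoImplicit false

/-!
One-sided mean lower bounds in short windows.
-/

open Complex Filter Topology Set MeasureTheory
open scoped ContDiff

namespace Pool.Agent.Lib.MP_bc6037_nt

open DeltaMellin ZetaGrowth

lemma dk_one (k : ℕ) : dk k 1 = 1 := by
  have : (ArithmeticFunction.zeta ^ k : ArithmeticFunction ℕ) 1 = 1 := by
    induction k with
    | zero => simp
    | succ k ih => rw [pow_succ, ArithmeticFunction.mul_apply_one, ih]; simp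
  rw [dk, this]; simp

lemma norm_Bc (k n : ℕ) : ‖Bc k n‖ = √k / (2 * Real.pi) * dk k n *
    (n : ℝ) ^ (-((k + 1) / (2 * k)) : ℝ) := by
  have h1 : (Real.pi * ((k : ℂ) - 3) / 4 * I) = ((Real.pi * ((k : ℝ) - 3) / 4 : ℝ) : ℂ) * I := by
    push_cast; rfl
  rw [Bc, norm_mul, h1, Complex.norm_exp_ofReal_mul_I, mul_one, norm_real, Real.norm_eq_abs,
    abs_of_nonneg]
  have := dk_nonneg k n
  positivity

/-- the smoothed one-sided mean lower bound -/
theorem one_sided_window {k : ℕ} (hk : 2 ≤ k) {P : Polynomial ℝ} {Z : ℂ → ℂ}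
    (hZ : DifferentiableOn ℂ Z {s : ℂ | 0 < s.re})
    (hZ' : ∀ s : ℂ, 0 < s.re → s ≠ 1 → Z s = riemannZeta s ^ k / s - Q P s)
    {ψ : ℝ → ℝ} (hψ : ContDiff ℝ ∞ ψ) (hc : HasCompactSupport ψ) (h0 : ∀ s, 0 ≤ ψ s)
    (h1 : ∀ s, ψ s ≤ 1) (hsupp : ∀ s, ψ s ≠ 0 → 0 < s ∧ s < 1) (hJ0 : 0 < ∫ s, ψ s)
    {κ ε : ℝ} (hκ : 0 < κ) (hε : 0 < ε) (hε1 : ε < 1) :
    ∃ c : ℝ, 0 < c ∧ ∀ᶠ V : ℝ in atTop, ∀ τ : ℝ, |τ| = 1 →
      c * (V ^ bt k * HH κ ε V) ≤ ∫ x in Ioi (1 : ℝ), max (τ * (Err k P x - w0 k)) 0 *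
        (x * Wn ψ κ ε V (x ^ (1 / k : ℝ))) := by
  have hk1 : 1 ≤ k := by omega
  have hkp : (0 : ℝ) < k := by exact_mod_cast (by omega : 0 < k)
  have hkr : (2 : ℝ) ≤ k := by exact_mod_cast hk
  set J := ∫ s, ψ s with hJ
  set c₀ := ‖Bc k 1‖ * J with hc₀
  have hc₀0 : 0 < c₀ := by
    rw [hc₀, norm_Bc, dk_one, Nat.cast_one, Real.one_rpow]
    have : 0 < √(k : ℝ) := Real.sqrt_pos.2 hkp
    positivity
  obtain ⟨Cg, hCg0, hCg⟩ := g_bound k P
  have hgm : Measurable fun x => Err k P x - w0 k := (measurable_Err k P).sub_const _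
  have t0 := RR_zero_tendsto hk hZ hZ' hψ hc hκ hε (P := P)
  have t1 := RR_tendsto hk hZ hZ' (le_refl 1) hψ hc h0 hsupp hκ hε hε1 (P := P)
  have t0' := t0.norm
  have t1' := t1.norm
  rw [norm_zero] at t0'
  rw [norm_mul, norm_real, Real.norm_eq_abs, abs_of_pos hJ0, ← hc₀] at t1'
  have e0 := t0'.eventually (gt_mem_nhds (by linarith : (0 : ℝ) < c₀ / 4))
  have e1 := t1'.eventually (lt_mem_nhds (by linarith : c₀ * (3 / 4) < c₀))
  refine ⟨c₀ / 4, by linarith, ?_⟩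
  filter_upwards [e0, e1, eventually_ge_atTop 1] with V he0 he1 hV τ hτ
  have hV0 : 0 < V := by linarith
  have hH := HH_pos (ε := ε) hκ hV0
  have hpos : 0 < V ^ bt k * HH κ ε V := mul_pos (Real.rpow_pos_of_pos hV0 _) hH
  set F : ℂ → ℝ → ℂ := fun z₀ x => (((Err k P x - w0 k : ℝ) : ℂ) * ((x : ℂ) *
    cexp (-(z₀ * ((x ^ (1 / k : ℝ) : ℝ) : ℂ))))) * (Wn ψ κ ε V (x ^ (1 / k : ℝ)) : ℂ) with hF
  have hnrm : ∀ z₀ : ℂ, z₀.re = 0 → ∀ x : ℝ, ‖cexp (-(z₀ * ((x ^ (1 / k : ℝ) : ℝ) : ℂ)))‖ = 1 := by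
    intro z₀ hz x
    rw [Complex.norm_exp, neg_re, re_mul_ofReal, hz, zero_mul, neg_zero, Real.exp_zero]
  have m1 : Measurable fun x : ℝ => x ^ (1 / k : ℝ) := measurable_id.pow_const _
  have hFint : ∀ z₀ : ℂ, z₀.re = 0 → Integrable (F z₀) (volume.restrict (Ioi 1)) := by
    intro z₀ hz
    refine wint_gen hk1 (q := 5 / 2) (C := Cg) ?_ (by norm_num) ?_ hV0 hψ.continuous h0 h1 κ ε
    · exact (measurable_ofReal.comp hgm).mul (measurable_ofReal.mul
        (Complex.measurable_exp.comp ((measurable_ofReal.comp m1).const_mul _).neg))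
    · intro x hx
      have hx0 : 0 < x := by linarith
      rw [norm_mul, norm_mul, hnrm z₀ hz, mul_one, norm_real, norm_real, Real.norm_eq_abs,
        Real.norm_eq_abs, abs_of_pos hx0]
      calc |Err k P x - w0 k| * x ≤ (Cg * x ^ (3 / 2 : ℝ)) * x := by
            have h2 := hCg x hx
            gcongr
        _ = Cg * x ^ (5 / 2 : ℝ) := by
            nth_rewrite 2 [← Real.rpow_one x]
            rw [mul_assoc, ← Real.rpow_add hx0]; norm_num
  have hI0 := hFint 0 zero_re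
  have hI1 := hFint (zn k 1) (zn_re k 1)
  set A0 := RR k P ψ κ ε 0 V with hA0
  set A := RR k P ψ κ ε (zn k 1) V with hA
  have hA0' : A0 = ∫ x in Ioi (1 : ℝ), F 0 x := rfl
  have hA' : A = ∫ x in Ioi (1 : ℝ), F (zn k 1) x := rfl
  have n0 : ‖A0‖ ≤ c₀ / 4 * (V ^ bt k * HH κ ε V) := by
    rw [norm_div, norm_real, Real.norm_eq_abs, abs_of_pos hpos, div_lt_iff₀ hpos] at he0
    exact he0.le
  have n1 : c₀ * (3 / 4) * (V ^ bt k * HH κ ε V) ≤ ‖A‖ := by
    rw [norm_div, norm_real, Real.norm_eq_abs, abs_of_pos hpos, lt_div_iff₀ hpos] at he1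
    exact he1.le
  obtain ⟨ξ, hξ1, hξ⟩ : ∃ ξ : ℂ, ‖ξ‖ ≤ 1 ∧ (ξ * A).re = ‖A‖ := by
    by_cases hA0' : A = 0
    · exact ⟨1, by simp, by simp [hA0']⟩
    · have hn : ‖A‖ ≠ 0 := norm_ne_zero_iff.2 hA0'
      refine ⟨(starRingEnd ℂ) A / ‖A‖, ?_, ?_⟩
      · rw [norm_div, RCLike.norm_conj, norm_real, norm_norm, div_self hn]
      · rw [div_mul_eq_mul_div, mul_comm, mul_conj, normSq_eq_norm_sq, ← ofReal_div, ofReal_re]
        field_simp
  have hH2 : (((τ : ℂ) * A0 + ξ * A)).re =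
      ∫ x in Ioi (1 : ℝ), ((τ : ℂ) * F 0 x + ξ * F (zn k 1) x).re := by
    have h5 := reCLM.integral_comp_comm ((hI0.const_mul (τ : ℂ)).add (hI1.const_mul ξ))
    simp only [Pi.add_apply, reCLM_apply] at h5
    rw [h5, integral_add (hI0.const_mul _) (hI1.const_mul _), integral_const_mul,
      integral_const_mul, hA0', hA']
  have hlow : c₀ / 2 * (V ^ bt k * HH κ ε V) ≤ (((τ : ℂ) * A0 + ξ * A)).re := by
    rw [add_re, hξ, re_ofReal_mul]
    have h6 : -‖A0‖ ≤ τ * A0.re := by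
      have h7 : |τ * A0.re| ≤ ‖A0‖ := by rw [abs_mul, hτ, one_mul]; exact abs_re_le_norm A0
      linarith [(abs_le.1 h7).1]
    linarith
  have hup : (((τ : ℂ) * A0 + ξ * A)).re ≤ 2 * ∫ x in Ioi (1 : ℝ),
      max (τ * (Err k P x - w0 k)) 0 * (x * Wn ψ κ ε V (x ^ (1 / k : ℝ))) := by
    rw [hH2, ← integral_const_mul]
    have hpt : ∀ x : ℝ, 1 < x → ((τ : ℂ) * F 0 x + ξ * F (zn k 1) x).re ≤
        2 * (max (τ * (Err k P x - w0 k)) 0 * (x * Wn ψ κ ε V (x ^ (1 / k : ℝ)))) := by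
      intro x hx
      have hx0 : 0 < x := by linarith
      set e := cexp (-(zn k 1 * ((x ^ (1 / k : ℝ) : ℝ) : ℂ))) with he
      have he1 : ‖e‖ = 1 := hnrm _ (zn_re k 1) x
      have hr : |(ξ * e).re| ≤ 1 := (abs_re_le_norm _).trans (by
        rw [norm_mul, he1, mul_one]; exact hξ1)
      set g := Err k P x - w0 k with hg
      set W := Wn ψ κ ε V (x ^ (1 / k : ℝ)) with hW
      have f0 : F 0 x = ((g : ℂ) * ((x : ℂ) * 1)) * (W : ℂ) := by
        rw [hF]
        simp only [zero_mul, neg_zero, Complex.exp_zero]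
        rfl
      have f1 : F (zn k 1) x = ((g : ℂ) * ((x : ℂ) * e)) * (W : ℂ) := rfl
      have h7 : (τ : ℂ) * F 0 x + ξ * F (zn k 1) x = ((g * (x * W) : ℝ) : ℂ) * (τ + ξ * e) := by
        rw [f0, f1, ofReal_mul, ofReal_mul]
        ring
      have hnn : 0 ≤ x * W := mul_nonneg hx0.le (Wn_nonneg h0 _ _ _ _)
      rw [h7, re_ofReal_mul, add_re, ofReal_re]
      set r := (ξ * e).re with hrdef
      have h8 : g * (τ + r) ≤ 2 * max (τ * g) 0 := by
        have hm1 := le_max_left (τ * g) 0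
        have hm2 := le_max_right (τ * g) 0
        rcases (abs_eq (by norm_num : (0 : ℝ) ≤ 1)).1 hτ with h | h
        · subst h
          rw [one_mul] at hm1 hm2 ⊢
          have := (abs_le.1 hr)
          nlinarith [this.1, this.2]
        · subst h
          have := (abs_le.1 hr)
          nlinarith [this.1, this.2]
      calc g * (x * W) * (τ + r) = (g * (τ + r)) * (x * W) := by ring
        _ ≤ (2 * max (τ * g) 0) * (x * W) := by gcongr
        _ = _ := by ring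
    have hImax : Integrable (fun x => 2 * (max (τ * (Err k P x - w0 k)) 0 *
        (x * Wn ψ κ ε V (x ^ (1 / k : ℝ))))) (volume.restrict (Ioi 1)) := by
      refine Integrable.const_mul (hI0.mono ?_ ?_) 2
      · refine Measurable.aestronglyMeasurable ?_
        exact ((hgm.const_mul τ).max measurable_const).mul
          (measurable_id.mul ((Wn_measurable hψ.continuous κ ε V).comp m1))
      · filter_upwards [ae_restrict_mem measurableSet_Ioi] with x hx
        have hx1 : (1 : ℝ) < x := hx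
        have hx0 : 0 < x := by linarith
        have hWn := Wn_nonneg h0 κ ε V (x ^ (1 / k : ℝ))
        have e1 : ‖F 0 x‖ = |Err k P x - w0 k| * (x * Wn ψ κ ε V (x ^ (1 / k : ℝ))) := by
          rw [hF]
          simp only
          rw [norm_mul, norm_mul, norm_mul, hnrm 0 zero_re, mul_one, norm_real, norm_real,
            norm_real, Real.norm_eq_abs,
            Real.norm_eq_abs, Real.norm_eq_abs, abs_of_pos hx0, abs_of_nonneg hWn]
          ring
        have hnn : 0 ≤ x * Wn ψ κ ε V (x ^ (1 / k : ℝ)) := mul_nonneg hx0.le hWn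
        rw [e1, norm_mul, Real.norm_eq_abs, Real.norm_eq_abs, abs_of_nonneg hnn,
          abs_of_nonneg (le_max_right _ _)]
        gcongr
        apply max_le _ (abs_nonneg _)
        calc τ * (Err k P x - w0 k) ≤ |τ * (Err k P x - w0 k)| := le_abs_self _
          _ = |Err k P x - w0 k| := by rw [abs_mul, hτ, one_mul]
    refine setIntegral_mono_on ?_ hImax measurableSet_Ioi (fun x hx => hpt x hx)
    exact ((hI0.const_mul (τ : ℂ)).add (hI1.const_mul ξ)).re
  have := hlow.trans hup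
  linarith

end Pool.Agent.Lib.MP_bc6037_nt
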