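import Mathlib
import Pool.Agent.Lib.MP_bc6037_nt.WindowOneSided

set_option autoImplicit false

/-!
Transfer from smooth windows to the intervals `[X, X + X^θ]`.
-/

open Complex Filter Topology Set MeasureTheory
open scoped ContDiff

namespace Pool.Agent.Lib.MP_bc6037_nt

open DeltaMellin ZetaGrowth

/-- a bump close to the indicator function of `(0, 1)` -/
lemma exists_bump' {δ : ℝ} (h0 : 0 < δ) (h1 : δ < 1 / 4) : ∃ χ : ℝ → ℝ, ContDiff ℝ ∞ χ ∧
    HasCompactSupport χ ∧ (∀ v, 0 ≤ χ v) ∧ (∀ v, χ v ≤ 1) ∧ (∀ v, χ v ≠ 0 → 0 < v ∧ v < 1) ∧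
    1 - 4 * δ ≤ ∫ v, χ v := by
  let f : ContDiffBump (1 / 2 : ℝ) := ⟨1 / 2 - 2 * δ, 1 / 2 - δ, by linarith, by linarith⟩
  have hone : ∀ v, 2 * δ ≤ v → v ≤ 1 - 2 * δ → f v = 1 := by
    intro v h1 h2
    apply f.one_of_mem_closedBall
    have h3 : f.rIn = 1 / 2 - 2 * δ := rfl
    rw [Metric.mem_closedBall, Real.dist_eq, abs_le, h3]
    constructor <;> linarith
  refine ⟨f, f.contDiff, f.hasCompactSupport, fun v => f.nonneg, fun v => f.le_one, ?_, ?_⟩
  · intro v hv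
    have h1 : v ∈ Function.support f := hv
    rw [f.support_eq, Metric.mem_ball, Real.dist_eq, abs_lt] at h1
    have h2 : f.rOut = 1 / 2 - δ := rfl
    rw [h2] at h1
    constructor <;> linarith [h1.1, h1.2]
  · have hint : Integrable f := f.continuous.integrable_of_hasCompactSupport f.hasCompactSupport
    calc 1 - 4 * δ = ∫ _v in Ioc (2 * δ) (1 - 2 * δ), (1 : ℝ) := by
          rw [setIntegral_const]
          simp only [Measure.real, smul_eq_mul]
          rw [Real.volume_Ioc, ENNReal.toReal_ofReal (by linarith)]; ring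
      _ = ∫ v in Ioc (2 * δ) (1 - 2 * δ), f v := by
          refine setIntegral_congr_fun measurableSet_Ioc fun u hu => ?_
          exact (hone u hu.1.le hu.2).symm
      _ ≤ ∫ v, f v := setIntegral_le_integral hint (Eventually.of_forall fun v => f.nonneg)

/-- the window lies inside `[X, X + X^θ]` -/
lemma window_sub {k : ℕ} (hk : 2 ≤ k) {θ η : ℝ} (hθ1 : θ < 1) (hη : 0 < η) (hη1 : η < 1)
    {ψ : ℝ → ℝ} (hsupp : ∀ s, ψ s ≠ 0 → 0 < s ∧ s < 1) :
    ∀ᶠ X : ℝ in atTop, ∀ x : ℝ, 0 < x →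
      ψ ((x ^ (1 / k : ℝ) - X ^ (1 / k : ℝ)) / HH ((1 - η) / k) (k * θ - k + 1) (X ^ (1 / k : ℝ))) ≠ 0 →
      X < x ∧ x ≤ X + X ^ θ := by
  have hkp : (0 : ℝ) < k := by exact_mod_cast (by omega : 0 < k)
  have h1 : Tendsto (fun X : ℝ => X ^ (-(1 - θ))) atTop (𝓝 0) :=
    tendsto_rpow_neg_atTop (by linarith)
  filter_upwards [h1.eventually (gt_mem_nhds hη), eventually_gt_atTop 0] with X hX hX0 x hx0 hne
  obtain ⟨h2, h3⟩ := hsupp _ hne
  set V := X ^ (1 / k : ℝ) with hV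
  have hV0 : 0 < V := Real.rpow_pos_of_pos hX0 _
  have hκ : 0 < (1 - η) / k := div_pos (by linarith) hkp
  have hH := HH_pos (ε := k * θ - k + 1) hκ hV0
  set H := HH ((1 - η) / k) (k * θ - k + 1) V with hHdef
  rw [lt_div_iff₀ hH, zero_mul] at h2
  rw [div_lt_one hH] at h3
  have hkk : (0 : ℝ) < 1 / k := by positivity
  refine ⟨(Real.rpow_lt_rpow_iff hX0.le hx0.le hkk).1 (by linarith), ?_⟩
  set t := X ^ (-(1 - θ)) with ht
  have ht0 : 0 < t := Real.rpow_pos_of_pos hX0 _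
  have e1 : H = V * ((1 - η) * t / k) := by
    have e2 : V * t = V ^ (k * θ - k + 1) := by
      rw [ht, hV, ← Real.rpow_add hX0, ← Real.rpow_mul hX0.le]
      congr 1; field_simp; ring
    rw [hHdef, HH, ← e2]; ring
  have e3 : x ^ (1 / k : ℝ) ≤ V * Real.exp ((1 - η) * t / k) := by
    have h4 : x ^ (1 / k : ℝ) ≤ V * (1 + (1 - η) * t / k) := by
      rw [mul_add, mul_one, ← e1]; linarith
    refine h4.trans ?_
    have := Real.add_one_le_exp ((1 - η) * t / k)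
    gcongr
    linarith
  have e4 : x ≤ X * Real.exp ((1 - η) * t) := by
    have h5 := Real.rpow_le_rpow (Real.rpow_pos_of_pos hx0 _).le e3 hkp.le
    rw [← Real.rpow_mul hx0.le, one_div_mul_cancel hkp.ne', Real.rpow_one,
      Real.mul_rpow hV0.le (Real.exp_pos _).le, hV, ← Real.rpow_mul hX0.le,
      one_div_mul_cancel hkp.ne', Real.rpow_one, ← Real.exp_mul] at h5
    have e5 : (1 - η) * t / k * k = (1 - η) * t := by field_simp
    rwa [e5] at h5
  have e6 : Real.exp ((1 - η) * t) ≤ 1 + t := by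
    have h6 := Real.one_sub_le_exp_neg ((1 - η) * t)
    have h7 : (1 - η) * t < 1 := by nlinarith
    have h8 : (0 : ℝ) < 1 - (1 - η) * t := by linarith
    have h9 : Real.exp ((1 - η) * t) * (1 - (1 - η) * t) ≤ 1 := by
      calc Real.exp ((1 - η) * t) * (1 - (1 - η) * t) ≤
            Real.exp ((1 - η) * t) * Real.exp (-((1 - η) * t)) := by gcongr
        _ = 1 := by rw [← Real.exp_add]; simp
    have h10 : 1 ≤ (1 + t) * (1 - (1 - η) * t) := by
      have : (1 - η) * t ≤ η := by nlinarith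
      nlinarith
    have h11 : Real.exp ((1 - η) * t) * (1 - (1 - η) * t) ≤ (1 + t) * (1 - (1 - η) * t) :=
      h9.trans h10
    exact le_of_mul_le_mul_right h11 h8
  have e7 : X * t = X ^ θ := by
    rw [ht]
    nth_rewrite 1 [← Real.rpow_one X]
    rw [← Real.rpow_add hX0]; congr 1; ring
  calc x ≤ X * Real.exp ((1 - η) * t) := e4
    _ ≤ X * (1 + t) := by gcongr
    _ = X + X ^ θ := by rw [mul_add, mul_one, e7]

lemma om'_inj {k m n : ℕ} (hk : 1 ≤ k) (h : om' k m = om' k n) : m = n := by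
  have hkp : (0 : ℝ) < k := by exact_mod_cast hk
  unfold om' at h
  have h1 : (m : ℝ) ^ (1 / k : ℝ) = (n : ℝ) ^ (1 / k : ℝ) :=
    mul_left_cancel₀ (by positivity : (2 * Real.pi * k : ℝ) ≠ 0) h
  have h2 := Real.rpow_left_injOn (by positivity : (1 / k : ℝ) ≠ 0)
    (Nat.cast_nonneg m : (0 : ℝ) ≤ m) (Nat.cast_nonneg n : (0 : ℝ) ≤ n) h1
  exact_mod_cast h2

/-- the Bessel bound with the full family of frequencies `≤ N` -/
theorem window_square {k : ℕ} (hk : 2 ≤ k) {P : Polynomial ℝ} {Z : ℂ → ℂ}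
    (hZ : DifferentiableOn ℂ Z {s : ℂ | 0 < s.re})
    (hZ' : ∀ s : ℂ, 0 < s.re → s ≠ 1 → Z s = riemannZeta s ^ k / s - Q P s) (N : ℕ)
    {ψ : ℝ → ℝ} (hψ : ContDiff ℝ ∞ ψ) (hc : HasCompactSupport ψ) (h0 : ∀ s, 0 ≤ ψ s)
    (h1 : ∀ s, ψ s ≤ 1) (hsupp : ∀ s, ψ s ≠ 0 → 0 < s ∧ s < 1)
    {κ ε : ℝ} (hκ : 0 < κ) (hε : 0 < ε) (hε1 : ε < 1) {c : ℝ}
    (hcl : c < (∫ s, ψ s) * (∑ n ∈ Finset.Icc 1 N, (dk k n) ^ 2 / (n : ℝ) ^ (1 + 1 / (k : ℝ))) /
      (2 * Real.pi ^ 2)) :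
    ∀ᶠ V : ℝ in atTop, c * (V ^ (2 * (k : ℝ) - 2) * HH κ ε V) ≤
      ∫ x in Ioi (1 : ℝ), (Err k P x - w0 k) ^ 2 * Wn ψ κ ε V (x ^ (1 / k : ℝ)) := by
  have hk1 : 1 ≤ k := by omega
  have hkp : (0 : ℝ) < k := by exact_mod_cast (by omega : 0 < k)
  have hkr : (2 : ℝ) ≤ k := by exact_mod_cast hk
  set S := ∑ n ∈ Finset.Icc 1 N, (dk k n) ^ 2 / (n : ℝ) ^ (1 + 1 / (k : ℝ)) with hS
  set J := ∫ s, ψ s with hJ
  set s : Finset (ℕ × Bool) := Finset.Icc 1 N ×ˢ Finset.univ with hs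
  set θ : ℕ × Bool → ℝ := fun j => if j.2 then om' k j.1 else -om' k j.1 with hθ
  set ρ : ℕ × Bool → ℂ := fun j => if j.2 then Bc k j.1 else (starRingEnd ℂ) (Bc k j.1) with hρ
  have hmem : ∀ j ∈ s, 1 ≤ j.1 := by
    intro j hj
    rw [hs, Finset.mem_product, Finset.mem_Icc] at hj
    exact hj.1.1
  have hθinj : Set.InjOn θ s := by
    rintro ⟨m, b⟩ hm ⟨n, b'⟩ hn h
    have hm1 := om'_pos hk1 (hmem _ hm)
    have hn1 := om'_pos hk1 (hmem _ hn)
    simp only [hθ] at h hm1 hn1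
    cases b <;> cases b' <;> simp at h
    · rw [om'_inj hk1 h]
    · linarith
    · linarith
    · rw [om'_inj hk1 h]
  have hR : ∀ j ∈ s, Tendsto (fun V : ℝ => RR k P ψ κ ε (θ j * I) V /
      ((V ^ bt k * HH κ ε V : ℝ) : ℂ)) atTop (𝓝 (ρ j * J)) := by
    rintro ⟨n, b⟩ hj
    have h2 := RR_tendsto hk hZ hZ' (hmem _ hj) hψ hc h0 hsupp hκ hε hε1
    cases b
    · have h3 := (continuous_conj.tendsto _).comp h2
      simp only [hθ, hρ]
      refine (h3.congr fun V => ?_).trans (le_of_eq ?_)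
      · simp only [Function.comp, map_div₀, conj_ofReal]
        rw [← RR_conj]
        simp [zn]
      · simp [map_mul, conj_ofReal, hJ]
    · simpa [hθ, hρ, zn, hJ] using h2
  have hsum : J / k * ∑ j ∈ s, ‖ρ j‖ ^ 2 = J * S / (2 * Real.pi ^ 2) := by
    rw [hs, Finset.sum_product, hS, Finset.mul_sum, Finset.mul_sum, Finset.sum_div]
    refine Finset.sum_congr rfl fun n hn => ?_
    have hn1 : 1 ≤ n := (Finset.mem_Icc.1 hn).1
    have hnp : (0 : ℝ) < n := by exact_mod_cast hn1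
    rw [Fintype.sum_bool]
    simp only [hρ, if_true, Bool.false_eq_true, if_false, RCLike.norm_conj]
    rw [norm_Bc]
    have e1 : ((n : ℝ) ^ (-((k + 1) / (2 * k)) : ℝ)) ^ 2 = 1 / (n : ℝ) ^ (1 + 1 / (k : ℝ)) := by
      rw [← Real.rpow_natCast, ← Real.rpow_mul hnp.le, one_div, ← Real.rpow_neg hnp.le]
      congr 1
      push_cast
      field_simp
    have e2 : √(k : ℝ) ^ 2 = k := Real.sq_sqrt hkp.le
    rw [mul_pow, mul_pow, e1, div_pow, e2]
    have := Real.pi_ne_zero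
    field_simp
    ring
  refine bessel hk P hψ hc h0 h1 hsupp hκ hε hε1 s θ hθinj ρ hJ hR ?_
  rw [hsum]
  exact hcl

end Pool.Agent.Lib.MP_bc6037_nt
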