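import Mathlib
import Pool.Agent.Lib.MP_bc6037_nt.ShortWindow

set_option autoImplicit false

/-!
Lower bounds for moments of the error term over `[X, X + X^θ]`.
-/

open Filter Topology Set MeasureTheory
open scoped ContDiff

namespace Pool.Agent.Lib.MP_bc6037_nt

open DeltaMellin ZetaGrowth

lemma g_bound_on {k : ℕ} {P : Polynomial ℝ} {C : ℝ} (hC0 : 0 ≤ C)
    (hC : ∀ x : ℝ, 1 ≤ x → |Err k P x| ≤ C * x ^ (3 / 2 : ℝ)) {X Y : ℝ} (hX : 1 ≤ X) :
    ∀ y ∈ Ioc X Y, |Err k P y| ≤ C * Y ^ (3 / 2 : ℝ) := by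
  intro y hy
  have hy1 : 1 ≤ y := hX.trans hy.1.le
  refine (hC y hy1).trans ?_
  gcongr
  exact hy.2

/-- exponent bookkeeping -/
lemma exp_sq {k : ℕ} (hk : 2 ≤ k) (θ : ℝ) {X : ℝ} (hX : 0 < X) (κ : ℝ) :
    (X ^ (1 / k : ℝ)) ^ (2 * (k : ℝ) - 2) * HH κ (k * θ - k + 1) (X ^ (1 / k : ℝ)) =
      κ * X ^ (θ + 1 - 1 / (k : ℝ)) := by
  have hkp : (0 : ℝ) < k := by exact_mod_cast (by omega : 0 < k)
  rw [HH, mul_left_comm, ← Real.rpow_mul hX.le, ← Real.rpow_mul hX.le, ← Real.rpow_add hX]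
  congr 2
  field_simp
  ring

lemma exp_one {k : ℕ} (hk : 2 ≤ k) (θ : ℝ) {X : ℝ} (hX : 0 < X) (κ : ℝ) :
    (X ^ (1 / k : ℝ)) ^ bt k * HH κ (k * θ - k + 1) (X ^ (1 / k : ℝ)) =
      κ * (X * X ^ (θ + ((k : ℝ) - 1) / (2 * k))) := by
  have hkp : (0 : ℝ) < k := by exact_mod_cast (by omega : 0 < k)
  have e : X * X ^ (θ + ((k : ℝ) - 1) / (2 * k)) = X ^ (1 + (θ + ((k : ℝ) - 1) / (2 * k))) := by
    rw [Real.rpow_add hX 1, Real.rpow_one]
  rw [HH, mul_left_comm, ← Real.rpow_mul hX.le, ← Real.rpow_mul hX.le, ← Real.rpow_add hX, e]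
  congr 2
  rw [bt]
  field_simp
  ring

/-- **the mean square over short intervals, sharp constant** -/
theorem short_square {k : ℕ} (hk : 2 ≤ k) {P : Polynomial ℝ} {Z : ℂ → ℂ}
    (hZ : DifferentiableOn ℂ Z {s : ℂ | 0 < s.re})
    (hZ' : ∀ s : ℂ, 0 < s.re → s ≠ 1 → Z s = riemannZeta s ^ k / s - Q P s) {θ : ℝ}
    (hθ : 1 - 1 / (k : ℝ) < θ) (hθ1 : θ < 1) (N : ℕ) {c : ℝ}
    (hc : c < (∑ n ∈ Finset.Icc 1 N, (dk k n) ^ 2 / (n : ℝ) ^ (1 + 1 / (k : ℝ))) /
      (2 * k * Real.pi ^ 2)) :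
    ∀ᶠ X : ℝ in atTop, c * X ^ (θ + 1 - 1 / (k : ℝ)) ≤
      ∫ y in X..(X + X ^ θ), (Err k P y) ^ 2 := by
  have hk1 : 1 ≤ k := by omega
  have hkp : (0 : ℝ) < k := by exact_mod_cast (by omega : 0 < k)
  have hkr : (2 : ℝ) ≤ k := by exact_mod_cast hk
  rcases le_or_gt c 0 with hc0 | hc0
  · filter_upwards [eventually_gt_atTop 0] with X hX
    have h1 : 0 ≤ ∫ y in X..(X + X ^ θ), (Err k P y) ^ 2 := by
      apply intervalIntegral.integral_nonneg
      · have := Real.rpow_pos_of_pos hX θ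
        linarith
      · intro u _; positivity
    have h2 := Real.rpow_pos_of_pos hX (θ + 1 - 1 / (k : ℝ))
    nlinarith
  set S := ∑ n ∈ Finset.Icc 1 N, (dk k n) ^ 2 / (n : ℝ) ^ (1 + 1 / (k : ℝ)) with hS
  have hS0 : 0 < S := by
    by_contra h
    push Not at h
    have : S / (2 * k * Real.pi ^ 2) ≤ 0 := div_nonpos_of_nonpos_of_nonneg h (by positivity)
    linarith
  set ε : ℝ := k * θ - k + 1 with hε
  have hε0 : 0 < ε := by
    have h1 : (k : ℝ) * (1 - 1 / k) < k * θ := by gcongr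
    have h2 : (k : ℝ) * (1 - 1 / k) = k - 1 := by field_simp
    rw [hε]; linarith
  have hε1 : ε < 1 := by rw [hε]; nlinarith
  -- choice of the small parameter
  have hlim : Tendsto (fun η : ℝ => (1 - η) * (((1 - 5 * η) * S / (2 * Real.pi ^ 2)) *
      ((1 - η) / k))) (𝓝[>] 0) (𝓝 (S / (2 * k * Real.pi ^ 2))) := by
    have h1 : ContinuousAt (fun η : ℝ => (1 - η) * (((1 - 5 * η) * S / (2 * Real.pi ^ 2)) *
      ((1 - η) / k))) 0 := by fun_prop
    have h2 : (fun η : ℝ => (1 - η) * (((1 - 5 * η) * S / (2 * Real.pi ^ 2)) *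
      ((1 - η) / k))) 0 = S / (2 * k * Real.pi ^ 2) := by
      simp only [mul_zero, sub_zero, one_mul]
      have := Real.pi_ne_zero
      field_simp
    rw [← h2]
    exact h1.tendsto.mono_left nhdsWithin_le_nhds
  obtain ⟨η, hη1, hη2, hη0⟩ : ∃ η : ℝ, c < (1 - η) * (((1 - 5 * η) * S / (2 * Real.pi ^ 2)) *
      ((1 - η) / k)) ∧ η < 1 / 8 ∧ 0 < η := by
    have h1 := hlim.eventually (lt_mem_nhds hc)
    have h2 : ∀ᶠ η : ℝ in 𝓝[>] 0, η < 1 / 8 :=
      nhdsWithin_le_nhds (Iio_mem_nhds (by norm_num))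
    have h3 : ∀ᶠ η : ℝ in 𝓝[>] 0, 0 < η := self_mem_nhdsWithin
    exact (h1.and (h2.and h3)).exists
  obtain ⟨ψ, hψ, hψc, h0, h1, hsupp, hJ⟩ := exists_bump' hη0 (by linarith)
  set κ : ℝ := (1 - η) / k with hκdef
  have hκ : 0 < κ := div_pos (by linarith) hkp
  have hcl : (1 - 5 * η) * S / (2 * Real.pi ^ 2) < (∫ s, ψ s) * S / (2 * Real.pi ^ 2) := by
    gcongr
    linarith
  have hB := window_square hk hZ hZ' N hψ hψc h0 h1 hsupp hκ hε0 hε1 hcl
  have hroot : Tendsto (fun X : ℝ => X ^ (1 / k : ℝ)) atTop atTop :=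
    tendsto_rpow_atTop (by positivity)
  have hW := window_sub hk hθ1 hη0 (by linarith : η < 1) hsupp
  obtain ⟨Cg, hCg0, hCg⟩ := Err_le k P (by norm_num : (1 : ℝ) < 3 / 2)
  set cs := (1 - η) * (((1 - 5 * η) * S / (2 * Real.pi ^ 2)) * ((1 - η) / k)) with hcs
  have hpow : Tendsto (fun X : ℝ => X ^ (1 - 1 / (k : ℝ))) atTop atTop := by
    apply tendsto_rpow_atTop
    have : 1 / (k : ℝ) ≤ 1 / 2 := by gcongr
    linarith
  filter_upwards [hroot.eventually hB, hW, hpow.eventually_ge_atTop ((w0 k) ^ 2 / η / (cs - c)),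
    eventually_ge_atTop 1] with X h2 h3 h4 hX
  have hX0 : 0 < X := by linarith
  have hXθ : 0 < X ^ θ := Real.rpow_pos_of_pos hX0 _
  rw [exp_sq hk θ hX0] at h2
  set Y := X + X ^ θ with hY
  have hXY : X ≤ Y := by linarith
  set V := X ^ (1 / k : ℝ) with hV
  set g : ℝ → ℝ := fun x => Err k P x - w0 k with hg
  have hzero : ∀ x ∈ Ioi (1 : ℝ) \ Ioc X Y, (Err k P x - w0 k) ^ 2 *
      Wn ψ κ ε V (x ^ (1 / k : ℝ)) = 0 := by
    intro x hx
    have hx1 : (1 : ℝ) < x := hx.1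
    have hx0 : 0 < x := by linarith
    have : ψ ((x ^ (1 / k : ℝ) - V) / HH κ ε V) = 0 := by
      by_contra hne
      exact hx.2 (h3 x hx0 hne)
    rw [Wn, this]; ring
  have hsub : Ioc X Y ⊆ Ioi (1 : ℝ) := fun x hx => lt_of_le_of_lt hX hx.1
  rw [setIntegral_eq_of_subset_of_forall_sdiff_eq_zero measurableSet_Ioi hsub hzero] at h2
  have hfinI : volume (Ioc X Y) ≠ ⊤ := by rw [Real.volume_Ioc]; exact ENNReal.ofReal_ne_top
  have hbd := g_bound_on hCg0 hCg (Y := Y) hX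
  have hgm : Measurable g := (measurable_Err k P).sub_const _
  have hg2 : IntegrableOn (fun y => g y ^ 2) (Ioc X Y) := by
    refine Measure.integrableOn_of_bounded (M := (Cg * Y ^ (3 / 2 : ℝ) + |w0 k|) ^ 2) hfinI
      (hgm.pow_const 2).aestronglyMeasurable ?_
    filter_upwards [ae_restrict_mem measurableSet_Ioc] with y hy
    rw [Real.norm_eq_abs, abs_of_nonneg (sq_nonneg _), ← sq_abs]
    have h5 : |g y| ≤ Cg * Y ^ (3 / 2 : ℝ) + |w0 k| := (abs_sub _ _).trans (by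
      have := hbd y hy; linarith)
    gcongr
  have hE2 : IntegrableOn (fun y => (Err k P y) ^ 2) (Ioc X Y) := by
    refine Measure.integrableOn_of_bounded (M := (Cg * Y ^ (3 / 2 : ℝ)) ^ 2) hfinI
      ((measurable_Err k P).pow_const 2).aestronglyMeasurable ?_
    filter_upwards [ae_restrict_mem measurableSet_Ioc] with y hy
    rw [Real.norm_eq_abs, abs_of_nonneg (sq_nonneg _), ← sq_abs]
    have := hbd y hy
    gcongr
  have hV0 : 0 < V := Real.rpow_pos_of_pos hX0 _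
  have h5 : ((1 - 5 * η) * S / (2 * Real.pi ^ 2)) * (κ * X ^ (θ + 1 - 1 / (k : ℝ))) ≤
      ∫ y in Ioc X Y, g y ^ 2 := by
    refine h2.trans ?_
    refine integral_mono_of_nonneg (Eventually.of_forall fun x => ?_) hg2
      (Eventually.of_forall fun x => ?_)
    · have := Wn_nonneg h0 κ ε V (x ^ (1 / k : ℝ))
      simp only [Pi.zero_apply]
      positivity
    · have h6 := Wn_le_one h0 h1 hsupp (ε := ε) hκ hV0 (x ^ (1 / k : ℝ))
      have h7 := sq_nonneg (Err k P x - w0 k)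
      simp only [hg]
      nlinarith
  have h6 : (1 - η) * (∫ y in Ioc X Y, g y ^ 2) - (w0 k) ^ 2 / η * X ^ θ ≤
      ∫ y in Ioc X Y, (Err k P y) ^ 2 := by
    have hcst : IntegrableOn (fun _ : ℝ => (w0 k) ^ 2 / η) (Ioc X Y) := by
      rw [integrableOn_const_iff]; right; exact hfinI.lt_top
    have h7 : ∫ y in Ioc X Y, ((1 - η) * g y ^ 2 - (w0 k) ^ 2 / η) =
        (1 - η) * (∫ y in Ioc X Y, g y ^ 2) - (w0 k) ^ 2 / η * X ^ θ := by
      rw [integral_sub (hg2.const_mul _) hcst, integral_const_mul, setIntegral_const]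
      simp only [Measure.real, smul_eq_mul]
      rw [Real.volume_Ioc, ENNReal.toReal_ofReal (by linarith)]
      rw [hY]; ring
    rw [← h7]
    refine integral_mono ((hg2.const_mul _).sub hcst) hE2 fun y => ?_
    simp only [hg]
    have h8 : 0 ≤ (η * (Err k P y - w0 k) + w0 k) ^ 2 / η := by positivity
    have h9 : (η * (Err k P y - w0 k) + w0 k) ^ 2 / η = η * (Err k P y - w0 k) ^ 2 +
        2 * (Err k P y - w0 k) * w0 k + (w0 k) ^ 2 / η := by field_simp; ring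
    have h10 : (Err k P y) ^ 2 = (Err k P y - w0 k) ^ 2 + 2 * (Err k P y - w0 k) * w0 k +
      (w0 k) ^ 2 := by ring
    have h11 := sq_nonneg (w0 k)
    linarith
  rw [intervalIntegral.integral_of_le hXY]
  refine le_trans ?_ h6
  have h7 : (w0 k) ^ 2 / η * X ^ θ ≤ (cs - c) * X ^ (θ + 1 - 1 / (k : ℝ)) := by
    have h8 : 0 < cs - c := by linarith
    rw [div_le_iff₀ h8] at h4
    have h9 : X ^ (θ + 1 - 1 / (k : ℝ)) = X ^ (1 - 1 / (k : ℝ)) * X ^ θ := by
      rw [← Real.rpow_add hX0]; congr 1; ring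
    rw [h9]
    calc (w0 k) ^ 2 / η * X ^ θ ≤ (X ^ (1 - 1 / (k : ℝ)) * (cs - c)) * X ^ θ := by gcongr
      _ = _ := by ring
  have h8 : (1 - η) * (((1 - 5 * η) * S / (2 * Real.pi ^ 2)) * (κ * X ^ (θ + 1 - 1 / (k : ℝ)))) ≤
      (1 - η) * (∫ y in Ioc X Y, g y ^ 2) := by
    have : 0 ≤ 1 - η := by linarith
    gcongr
  have h9 : (1 - η) * (((1 - 5 * η) * S / (2 * Real.pi ^ 2)) * (κ * X ^ (θ + 1 - 1 / (k : ℝ)))) =
      cs * X ^ (θ + 1 - 1 / (k : ℝ)) := by rw [hcs]; ring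
  linarith

/-- **one-sided means over short intervals** -/
theorem short_one_sided {k : ℕ} (hk : 2 ≤ k) {P : Polynomial ℝ} {Z : ℂ → ℂ}
    (hZ : DifferentiableOn ℂ Z {s : ℂ | 0 < s.re})
    (hZ' : ∀ s : ℂ, 0 < s.re → s ≠ 1 → Z s = riemannZeta s ^ k / s - Q P s) {θ : ℝ}
    (hθ : 1 - 1 / (k : ℝ) < θ) (hθ1 : θ < 1) :
    ∃ c : ℝ, 0 < c ∧ ∀ᶠ X : ℝ in atTop, ∀ τ : ℝ, |τ| = 1 →
      c * X ^ (θ + ((k : ℝ) - 1) / (2 * k)) ≤ ∫ y in X..(X + X ^ θ), max (τ * Err k P y) 0 := by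
  have hk1 : 1 ≤ k := by omega
  have hkp : (0 : ℝ) < k := by exact_mod_cast (by omega : 0 < k)
  have hkr : (2 : ℝ) ≤ k := by exact_mod_cast hk
  set ε : ℝ := k * θ - k + 1 with hε
  have hε0 : 0 < ε := by
    have h1 : (k : ℝ) * (1 - 1 / k) < k * θ := by gcongr
    have h2 : (k : ℝ) * (1 - 1 / k) = k - 1 := by field_simp
    rw [hε]; linarith
  have hε1 : ε < 1 := by rw [hε]; nlinarith
  obtain ⟨η, hη0, hη2⟩ : ∃ η : ℝ, 0 < η ∧ η < 1 / 8 := ⟨1 / 16, by norm_num, by norm_num⟩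
  obtain ⟨ψ, hψ, hψc, h0, h1, hsupp, hJ⟩ := exists_bump' hη0 (by linarith)
  set κ : ℝ := (1 - η) / k with hκdef
  have hκ : 0 < κ := div_pos (by linarith) hkp
  obtain ⟨c₀, hc₀, hB⟩ := one_sided_window hk hZ hZ' hψ hψc h0 h1 hsupp (by linarith) hκ hε0 hε1
  have hroot : Tendsto (fun X : ℝ => X ^ (1 / k : ℝ)) atTop atTop :=
    tendsto_rpow_atTop (by positivity)
  have hW := window_sub hk hθ1 hη0 (by linarith : η < 1) hsupp
  obtain ⟨Cg, hCg0, hCg⟩ := Err_le k P (by norm_num : (1 : ℝ) < 3 / 2)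
  set p : ℝ := ((k : ℝ) - 1) / (2 * k) with hp
  have hp0 : 0 < p := div_pos (by linarith) (by positivity)
  have hpow : Tendsto (fun X : ℝ => X ^ p) atTop atTop := tendsto_rpow_atTop hp0
  set c₁ := c₀ * κ / 2 with hc₁
  have hc₁0 : 0 < c₁ := by positivity
  refine ⟨c₁ / 2, by positivity, ?_⟩
  filter_upwards [hroot.eventually hB, hW, hpow.eventually_ge_atTop (|w0 k| / (c₁ / 2)),
    eventually_ge_atTop 1] with X h2 h3 h4 hX τ hτ
  have hX0 : 0 < X := by linarith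
  have hXθ : 0 < X ^ θ := Real.rpow_pos_of_pos hX0 _
  have hXθ1 : X ^ θ ≤ X := by
    calc X ^ θ ≤ X ^ (1 : ℝ) := Real.rpow_le_rpow_of_exponent_le hX hθ1.le
      _ = X := Real.rpow_one X
  have h2 := h2 τ hτ
  rw [exp_one hk θ hX0] at h2
  set Y := X + X ^ θ with hY
  have hXY : X ≤ Y := by linarith
  have hY2 : Y ≤ 2 * X := by linarith
  set V := X ^ (1 / k : ℝ) with hV
  have hV0 : 0 < V := Real.rpow_pos_of_pos hX0 _
  have hzero : ∀ x ∈ Ioi (1 : ℝ) \ Ioc X Y, max (τ * (Err k P x - w0 k)) 0 *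
      (x * Wn ψ κ ε V (x ^ (1 / k : ℝ))) = 0 := by
    intro x hx
    have hx1 : (1 : ℝ) < x := hx.1
    have hx0 : 0 < x := by linarith
    have : ψ ((x ^ (1 / k : ℝ) - V) / HH κ ε V) = 0 := by
      by_contra hne
      exact hx.2 (h3 x hx0 hne)
    rw [Wn, this]; ring
  have hsub : Ioc X Y ⊆ Ioi (1 : ℝ) := fun x hx => lt_of_le_of_lt hX hx.1
  rw [setIntegral_eq_of_subset_of_forall_sdiff_eq_zero measurableSet_Ioi hsub hzero] at h2
  have hfinI : volume (Ioc X Y) ≠ ⊤ := by rw [Real.volume_Ioc]; exact ENNReal.ofReal_ne_top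
  have hbd := g_bound_on hCg0 hCg (Y := Y) hX
  have hEm : IntegrableOn (fun y => max (τ * Err k P y) 0) (Ioc X Y) := by
    refine Measure.integrableOn_of_bounded (M := Cg * Y ^ (3 / 2 : ℝ)) hfinI
      ((((measurable_Err k P).const_mul τ).max measurable_const).aestronglyMeasurable) ?_
    filter_upwards [ae_restrict_mem measurableSet_Ioc] with y hy
    rw [Real.norm_eq_abs, abs_of_nonneg (le_max_right _ _)]
    apply max_le _ (by positivity)
    calc τ * Err k P y ≤ |τ * Err k P y| := le_abs_self _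
      _ = |Err k P y| := by rw [abs_mul, hτ, one_mul]
      _ ≤ _ := hbd y hy
  have hcst : IntegrableOn (fun _ : ℝ => |w0 k|) (Ioc X Y) := by
    rw [integrableOn_const_iff]; right; exact hfinI.lt_top
  have h5 : ∫ x in Ioc X Y, max (τ * (Err k P x - w0 k)) 0 *
      (x * Wn ψ κ ε V (x ^ (1 / k : ℝ))) ≤
      ∫ x in Ioc X Y, (2 * X) * (max (τ * Err k P x) 0 + |w0 k|) := by
    refine integral_mono_of_nonneg ?_ ((hEm.add hcst).const_mul _) ?_
    · filter_upwards [ae_restrict_mem measurableSet_Ioc] with x hx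
      have hx0 : 0 < x := by linarith [hx.1]
      have := Wn_nonneg h0 κ ε V (x ^ (1 / k : ℝ))
      have := le_max_right (τ * (Err k P x - w0 k)) 0
      simp only [Pi.zero_apply]
      positivity
    · filter_upwards [ae_restrict_mem measurableSet_Ioc] with x hx
      have hx0 : 0 < x := by linarith [hx.1]
      have h9 := Wn_le_one h0 h1 hsupp (ε := ε) hκ hV0 (x ^ (1 / k : ℝ))
      have h9' := Wn_nonneg h0 κ ε V (x ^ (1 / k : ℝ))
      have h10 := le_max_right (τ * (Err k P x - w0 k)) 0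
      have h11 : x * Wn ψ κ ε V (x ^ (1 / k : ℝ)) ≤ (2 * X) * 1 := by
        have : x ≤ 2 * X := hx.2.trans hY2
        gcongr
      have h12 : max (τ * (Err k P x - w0 k)) 0 ≤ max (τ * Err k P x) 0 + |w0 k| := by
        have h13 := le_max_left (τ * Err k P x) 0
        have h14 := le_max_right (τ * Err k P x) 0
        have h15 := abs_nonneg (w0 k)
        refine max_le ?_ (by linarith)
        have h16 : -(τ * w0 k) ≤ |w0 k| := by
          calc -(τ * w0 k) ≤ |τ * w0 k| := neg_le_abs _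
            _ = |w0 k| := by rw [abs_mul, hτ, one_mul]
        have h17 : τ * (Err k P x - w0 k) = τ * Err k P x + -(τ * w0 k) := by ring
        rw [h17]
        linarith
      calc max (τ * (Err k P x - w0 k)) 0 * (x * Wn ψ κ ε V (x ^ (1 / k : ℝ))) ≤
          (max (τ * Err k P x) 0 + |w0 k|) * ((2 * X) * 1) := by gcongr
        _ = _ := by ring
  rw [integral_const_mul, integral_add hEm hcst, setIntegral_const] at h5
  simp only [Measure.real, smul_eq_mul] at h5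
  rw [Real.volume_Ioc, ENNReal.toReal_ofReal (by linarith)] at h5
  have h6 := h2.trans h5
  rw [intervalIntegral.integral_of_le hXY]
  set IE := ∫ x in Ioc X Y, max (τ * Err k P x) 0 with hIE
  have e1 : Y - X = X ^ θ := by rw [hY]; ring
  rw [e1] at h6
  have h7 : c₁ * X ^ (θ + p) ≤ IE + X ^ θ * |w0 k| := by
    have h8 : (2 * X) * (c₁ * X ^ (θ + p)) ≤ (2 * X) * (IE + X ^ θ * |w0 k|) := by
      refine le_trans (le_of_eq ?_) h6
      rw [hc₁]; ring
    exact le_of_mul_le_mul_left h8 (by positivity)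
  have h8 : X ^ θ * |w0 k| ≤ c₁ / 2 * X ^ (θ + p) := by
    rw [div_le_iff₀ (by positivity)] at h4
    rw [Real.rpow_add hX0]
    calc X ^ θ * |w0 k| ≤ X ^ θ * (X ^ p * (c₁ / 2)) := by gcongr
      _ = _ := by ring
  linarith

/-- Cauchy-Schwarz on a set of finite measure -/
lemma sq_setIntegral_le {E : Set ℝ} (hfin : volume E ≠ ⊤) {f : ℝ → ℝ}
    (hf : IntegrableOn f E) (hf2 : IntegrableOn (fun x => f x ^ 2) E) :
    (∫ x in E, f x) ^ 2 ≤ (volume E).toReal * ∫ x in E, f x ^ 2 := by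
  set m := (volume E).toReal with hm
  set A := ∫ x in E, f x with hA
  set B := ∫ x in E, f x ^ 2 with hB
  have hm0 : 0 ≤ m := ENNReal.toReal_nonneg
  have key : ∀ t : ℝ, 0 ≤ B - 2 * t * A + t ^ 2 * m := by
    intro t
    have h1 : 0 ≤ ∫ x in E, (f x - t) ^ 2 := integral_nonneg fun x => sq_nonneg _
    have hc : IntegrableOn (fun _ : ℝ => t ^ 2) E := by
      rw [integrableOn_const_iff]
      right
      exact hfin.lt_top
    have h2 : ∫ x in E, (f x - t) ^ 2 = B - 2 * t * A + t ^ 2 * m := by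
      have e : ∀ x, (f x - t) ^ 2 = (f x ^ 2 - 2 * t * f x) + t ^ 2 := fun x => by ring
      simp only [e]
      have e1 : Integrable (fun x => f x ^ 2 - 2 * t * f x) (volume.restrict E) :=
        hf2.sub (hf.const_mul (2 * t))
      rw [integral_add e1 hc, integral_sub hf2 (hf.const_mul (2 * t)),
        integral_const_mul, setIntegral_const]
      simp only [smul_eq_mul, Measure.real]
      rw [← hA, ← hB, ← hm]; ring
    rwa [h2] at h1
  rcases hm0.eq_or_lt with h | h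
  · have h1 := key (A * (B + 1))
    have h2 := key 0
    rw [← h] at h1 ⊢
    by_contra hcon
    push Not at hcon
    rw [zero_mul] at hcon
    simp only [mul_zero, add_zero, zero_mul, sub_zero, ne_eq, OfNat.ofNat_ne_zero,
      not_false_eq_true, zero_pow] at h1 h2
    have h3 : 0 ≤ B - 2 * (A / (A ^ 2) * (B + 1)) * A + (A / (A ^ 2) * (B + 1)) ^ 2 * 0 := by
      have := key (A / (A ^ 2) * (B + 1))
      rwa [← h] at this
    have hA0 : A ≠ 0 := by rintro h4; rw [h4] at hcon; simp at hcon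
    have h4 : 2 * (A / (A ^ 2) * (B + 1)) * A = 2 * (B + 1) := by field_simp
    rw [h4] at h3
    linarith
  · have h1 := key (A / m)
    have h2 : B - 2 * (A / m) * A + (A / m) ^ 2 * m = B - A ^ 2 / m := by field_simp; ring
    rw [h2] at h1
    have h3 : A ^ 2 / m ≤ B := by linarith
    rw [div_le_iff₀ h] at h3
    linarith

/-- **measure of the set where the error term is large with a given sign** -/
theorem short_measure {k : ℕ} (hk : 2 ≤ k) {P : Polynomial ℝ} {θ : ℝ} (hθ1 : θ < 1) {c₀ : ℝ}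
    (hc₀ : 0 < c₀)
    (hev : ∀ᶠ X : ℝ in atTop, ∀ τ : ℝ, |τ| = 1 →
      c₀ * X ^ (θ + ((k : ℝ) - 1) / (2 * k)) ≤ ∫ y in X..(X + X ^ θ), max (τ * Err k P y) 0) :
    ∃ c : ℝ, 0 < c ∧ ∀ᶠ X : ℝ in atTop, ∀ τ : ℝ, |τ| = 1 →
      c * X ^ (2 * θ + ((k : ℝ) - 1) / k) ≤
        (volume {y : ℝ | X < y ∧ y ≤ X + X ^ θ ∧
          c * y ^ (((k : ℝ) - 1) / (2 * k)) ≤ τ * Err k P y}).toReal *
        ∫ y in X..(X + X ^ θ), (Err k P y) ^ 2 := by
  have hkp : (0 : ℝ) < k := by exact_mod_cast (by omega : 0 < k)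
  have hkr : (2 : ℝ) ≤ k := by exact_mod_cast hk
  obtain ⟨Cg, hCg0, hCg⟩ := Err_le k P (by norm_num : (1 : ℝ) < 3 / 2)
  set p : ℝ := ((k : ℝ) - 1) / (2 * k) with hp
  have hp0 : 0 ≤ p := div_nonneg (by linarith) (by positivity)
  set c₁ := c₀ / 2 / 2 ^ p with hc₁
  have h2p : (0 : ℝ) < 2 ^ p := Real.rpow_pos_of_pos (by norm_num) _
  have hc₁0 : 0 < c₁ := by positivity
  set c := min c₁ (c₀ ^ 2 / 4) with hc
  have hc0 : 0 < c := lt_min hc₁0 (by positivity)
  refine ⟨c, hc0, ?_⟩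
  filter_upwards [hev, eventually_ge_atTop 1] with X h1 hX τ hτ
  have hX0 : 0 < X := by linarith
  have hXθ : 0 < X ^ θ := Real.rpow_pos_of_pos hX0 _
  have hXθ1 : X ^ θ ≤ X := by
    calc X ^ θ ≤ X ^ (1 : ℝ) := Real.rpow_le_rpow_of_exponent_le hX hθ1.le
      _ = X := Real.rpow_one X
  set Y := X + X ^ θ with hY
  have hXY : X ≤ Y := by linarith
  have hY2 : Y ≤ 2 * X := by linarith
  have hY0 : 0 < Y := by linarith
  have h2 := h1 τ hτ
  set f : ℝ → ℝ := fun y => max (τ * Err k P y) 0 with hf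
  have hfm : Measurable f := ((measurable_Err k P).const_mul τ).max measurable_const
  have hf0 : ∀ y, 0 ≤ f y := fun y => le_max_right _ _
  have hfabs : ∀ y, f y ≤ |Err k P y| := fun y => by
    apply max_le _ (abs_nonneg _)
    calc τ * Err k P y ≤ |τ * Err k P y| := le_abs_self _
      _ = |Err k P y| := by rw [abs_mul, hτ, one_mul]
  set E : Set ℝ := {y : ℝ | X < y ∧ y ≤ Y ∧ c * y ^ p ≤ τ * Err k P y} with hE
  have hEsub : E ⊆ Ioc X Y := fun y hy => ⟨hy.1, hy.2.1⟩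
  have hEm : MeasurableSet E := by
    have m1 : MeasurableSet {y : ℝ | c * y ^ p ≤ τ * Err k P y} :=
      measurableSet_le ((measurable_id.pow_const _).const_mul _)
        ((measurable_Err k P).const_mul τ)
    have : E = Ioc X Y ∩ {y : ℝ | c * y ^ p ≤ τ * Err k P y} := by
      ext y; constructor
      · rintro ⟨a, b, d⟩; exact ⟨⟨a, b⟩, d⟩
      · rintro ⟨⟨a, b⟩, d⟩; exact ⟨a, b, d⟩
    rw [this]
    exact measurableSet_Ioc.inter m1
  have hbd := g_bound_on hCg0 hCg (Y := Y) hX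
  have hfinI : volume (Ioc X Y) ≠ ⊤ := by rw [Real.volume_Ioc]; exact ENNReal.ofReal_ne_top
  have hfI : IntegrableOn f (Ioc X Y) := by
    refine Measure.integrableOn_of_bounded (M := Cg * Y ^ (3 / 2 : ℝ)) hfinI
      hfm.aestronglyMeasurable ?_
    filter_upwards [ae_restrict_mem measurableSet_Ioc] with y hy
    rw [Real.norm_eq_abs, abs_of_nonneg (hf0 y)]
    exact (hfabs y).trans (hbd y hy)
  have hE2I : IntegrableOn (fun y => (Err k P y) ^ 2) (Ioc X Y) := by
    refine Measure.integrableOn_of_bounded (M := (Cg * Y ^ (3 / 2 : ℝ)) ^ 2) hfinI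
      ((measurable_Err k P).pow_const 2).aestronglyMeasurable ?_
    filter_upwards [ae_restrict_mem measurableSet_Ioc] with y hy
    rw [Real.norm_eq_abs, abs_of_nonneg (sq_nonneg _), ← sq_abs]
    have := hbd y hy
    gcongr
  have hf2I : IntegrableOn (fun y => f y ^ 2) (Ioc X Y) := by
    refine Measure.integrableOn_of_bounded (M := (Cg * Y ^ (3 / 2 : ℝ)) ^ 2) hfinI
      (hfm.pow_const 2).aestronglyMeasurable ?_
    filter_upwards [ae_restrict_mem measurableSet_Ioc] with y hy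
    rw [Real.norm_eq_abs, abs_of_nonneg (sq_nonneg _)]
    have h3 := (hfabs y).trans (hbd y hy)
    have h4 := hf0 y
    gcongr
  rw [intervalIntegral.integral_of_le hXY] at h2 ⊢
  -- the part outside E
  have hsplit : ∫ y in Ioc X Y, f y = (∫ y in E, f y) + ∫ y in Ioc X Y \ E, f y := by
    rw [← setIntegral_union disjoint_sdiff_right (measurableSet_Ioc.diff hEm)
      (hfI.mono_set hEsub) (hfI.mono_set sdiff_subset), union_sdiff_cancel hEsub]
  have hout : ∫ y in Ioc X Y \ E, f y ≤ c₀ / 2 * X ^ (θ + p) := by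
    have h3 : ∀ y ∈ Ioc X Y \ E, f y ≤ c₁ * (2 * X) ^ p := by
      intro y hy
      have hy0 : 0 < y := by linarith [hy.1.1]
      have h4 : ¬ c * y ^ p ≤ τ * Err k P y := fun h5 => hy.2 ⟨hy.1.1, hy.1.2, h5⟩
      push Not at h4
      have h5 : c * y ^ p ≤ c₁ * (2 * X) ^ p := by
        have h6 : c ≤ c₁ := min_le_left _ _
        have h7 : y ≤ 2 * X := hy.1.2.trans hY2
        gcongr
      exact max_le (h4.le.trans h5) (by positivity)
    have h4 : ∫ y in Ioc X Y \ E, f y ≤ ∫ y in Ioc X Y, c₁ * (2 * X) ^ p := by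
      calc ∫ y in Ioc X Y \ E, f y ≤ ∫ y in Ioc X Y \ E, c₁ * (2 * X) ^ p := by
            refine setIntegral_mono_on (hfI.mono_set sdiff_subset) ?_
              (measurableSet_Ioc.diff hEm) h3
            rw [integrableOn_const_iff]
            right
            exact (measure_mono sdiff_subset).trans_lt hfinI.lt_top
        _ ≤ _ := by
            refine setIntegral_mono_set ?_ ?_ (Eventually.of_forall sdiff_subset)
            · rw [integrableOn_const_iff]; right; exact hfinI.lt_top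
            · exact Eventually.of_forall fun y => by
                simp only [Pi.zero_apply]; positivity
    refine h4.trans (le_of_eq ?_)
    rw [setIntegral_const]
    simp only [Measure.real, smul_eq_mul]
    have e1 : Y - X = X ^ θ := by rw [hY]; ring
    rw [Real.volume_Ioc, ENNReal.toReal_ofReal (by linarith), e1,
      Real.mul_rpow (by norm_num) hX0.le, hc₁, Real.rpow_add hX0]
    field_simp
  have hin : c₀ / 2 * X ^ (θ + p) ≤ ∫ y in E, f y := by
    rw [hsplit] at h2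
    linarith
  have hfinE : volume E ≠ ⊤ := ((measure_mono hEsub).trans_lt hfinI.lt_top).ne
  have hCS := sq_setIntegral_le hfinE (hfI.mono_set hEsub) (hf2I.mono_set hEsub)
  have h3 : ∫ y in E, f y ^ 2 ≤ ∫ y in Ioc X Y, (Err k P y) ^ 2 := by
    calc ∫ y in E, f y ^ 2 ≤ ∫ y in E, (Err k P y) ^ 2 := by
          refine setIntegral_mono_on (hf2I.mono_set hEsub) (hE2I.mono_set hEsub) hEm fun y _ => ?_
          rw [← sq_abs (Err k P y)]
          have := hfabs y
          have := hf0 y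
          gcongr
      _ ≤ _ := setIntegral_mono_set hE2I (Eventually.of_forall fun y => sq_nonneg _)
          (Eventually.of_forall hEsub)
  have hm0 : 0 ≤ (volume E).toReal := ENNReal.toReal_nonneg
  have h4 : (c₀ / 2 * X ^ (θ + p)) ^ 2 ≤ (volume E).toReal * ∫ y in Ioc X Y, (Err k P y) ^ 2 := by
    calc (c₀ / 2 * X ^ (θ + p)) ^ 2 ≤ (∫ y in E, f y) ^ 2 := by gcongr
      _ ≤ (volume E).toReal * ∫ y in E, f y ^ 2 := hCS
      _ ≤ _ := by gcongr
  refine le_trans ?_ h4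
  have h5 : (X ^ (θ + p)) ^ 2 = X ^ (2 * θ + ((k : ℝ) - 1) / k) := by
    rw [← Real.rpow_natCast, ← Real.rpow_mul hX0.le]
    congr 1
    rw [hp]; push_cast; field_simp
  rw [mul_pow, h5]
  have h6 : c ≤ c₀ ^ 2 / 4 := min_le_right _ _
  have h7 : (c₀ / 2) ^ 2 = c₀ ^ 2 / 4 := by ring
  rw [h7]
  gcongr

end Pool.Agent.Lib.MP_bc6037_nt
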