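import Mathlib
import Pool.Agent.Lib.MP_bc6037_nt.LimitLaw
import Pool.Agent.Lib.MP_bc6037_nt.AllFreq
import Pool.Agent.Lib.MP_bc6037_nt.ShortMain

set_option autoImplicit false

/-!
The window weights as a family of finite measures, and the Fourier coefficients of the normalised
error term with respect to them.
-/

open Complex Filter Topology Set MeasureTheory
open scoped ContDiff

namespace Pool.Agent.Lib.MP_bc6037_nt

open DeltaMellin ZetaGrowth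

noncomputable section

/-- the exponent `1 + (k-1)/(2k)` -/
def pp (k : ℕ) : ℝ := 1 + (k - 1) / (2 * k)

lemma pp_eq {k : ℕ} (hk : 1 ≤ k) : (k : ℝ) * pp k + k - 1 = bt k := by
  have hkp : (0 : ℝ) < k := by exact_mod_cast hk
  rw [pp, bt]; field_simp; ring

/-- `∫ x^p e^{iθ x^{1/k}} W(x^{1/k}) dx` -/
def MG (k : ℕ) (ψ : ℝ → ℝ) (κ ε p θ V : ℝ) : ℂ :=
  ∫ x in Ioi (1 : ℝ), (((x ^ p : ℝ) : ℂ) *
    cexp (I * θ * ((x ^ (1 / k : ℝ) : ℝ) : ℂ))) * (Wn ψ κ ε V (x ^ (1 / k : ℝ)) : ℂ)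

lemma MG_eq {k : ℕ} (hk : 1 ≤ k) {ψ : ℝ → ℝ} (hsupp : ∀ s, ψ s ≠ 0 → 0 < s ∧ s < 1)
    {κ ε V : ℝ} (hκ : 0 < κ) (hV : 1 ≤ V) (p θ : ℝ) :
    MG k ψ κ ε p θ V = k * WI ψ κ ε (k * p + k - 1) θ V := by
  have hkp : (0 : ℝ) < k := by exact_mod_cast hk
  have hV0 : 0 < V := by linarith
  have hH := HH_pos (ε := ε) hκ hV0
  have hsub : Ioi (1 : ℝ) ⊆ Ioi 0 := Ioi_subset_Ioi zero_le_one
  set G : ℝ → ℂ := fun x => (((x ^ p : ℝ) : ℂ) *
    cexp (I * θ * ((x ^ (1 / k : ℝ) : ℝ) : ℂ))) * (Wn ψ κ ε V (x ^ (1 / k : ℝ)) : ℂ) with hG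
  have hzero : ∀ x ∈ Ioi (0 : ℝ) \ Ioi 1, G x = 0 := by
    intro x hx
    have hx0 : (0 : ℝ) < x := hx.1
    have hx1 : x ≤ 1 := not_lt.1 hx.2
    have : ψ ((x ^ (1 / k : ℝ) - V) / HH κ ε V) = 0 := by
      by_contra hne
      have h1 := (hsupp _ hne).1
      have h2 : x ^ (1 / k : ℝ) ≤ 1 := Real.rpow_le_one hx0.le hx1 (by positivity)
      rw [lt_div_iff₀ hH] at h1
      linarith
    rw [hG]; simp only; rw [Wn, this]; simp
  have h1 : MG k ψ κ ε p θ V = ∫ x in Ioi (0 : ℝ), G x :=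
    (setIntegral_eq_of_subset_of_forall_sdiff_eq_zero measurableSet_Ioi hsub hzero).symm
  have h2 := integral_comp_rpow_Ioi_of_pos (g := G) hkp
  rw [h1, ← h2, WI, ← integral_const_mul]
  refine setIntegral_congr_fun measurableSet_Ioi fun v hv => ?_
  have hv0 : (0 : ℝ) < v := hv
  have e1 : (v ^ (k : ℝ)) ^ (1 / k : ℝ) = v := by
    rw [← Real.rpow_mul hv0.le, mul_one_div_cancel hkp.ne', Real.rpow_one]
  have e2 : (k : ℝ) * v ^ ((k : ℝ) - 1) * (v ^ (k : ℝ)) ^ p = k * v ^ ((k : ℝ) * p + k - 1) := by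
    rw [mul_assoc]
    congr 1
    rw [← Real.rpow_mul hv0.le, ← Real.rpow_add hv0]
    congr 1; ring
  simp only [hG, e1, real_smul]
  have e3 : ((((k : ℝ) * v ^ ((k : ℝ) - 1) * (v ^ (k : ℝ)) ^ p : ℝ)) : ℂ) =
      ((k * v ^ ((k : ℝ) * p + k - 1) : ℝ) : ℂ) := by rw [e2]
  rw [ofReal_mul, ofReal_mul (k : ℝ) (v ^ ((k : ℝ) * p + k - 1)), ofReal_natCast] at e3
  rw [ofReal_mul (v ^ ((k : ℝ) * p + k - 1))]
  linear_combination (cexp (I * θ * v) * (Wn ψ κ ε V v : ℂ)) * e3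

/-- the density of the window measure -/
def wdens (k : ℕ) (ψ : ℝ → ℝ) (κ ε V x : ℝ) : ℝ :=
  x ^ pp k * Wn ψ κ ε V (x ^ (1 / k : ℝ)) / (k * (V ^ bt k * HH κ ε V))

/-- the window measure -/
def wmeas (k : ℕ) (ψ : ℝ → ℝ) (κ ε V : ℝ) : Measure ℝ :=
  (volume.restrict (Ioi 1)).withDensity fun x => ENNReal.ofReal (wdens k ψ κ ε V x)

variable {k : ℕ} {ψ : ℝ → ℝ} {κ ε V : ℝ}

lemma wdens_measurable (hψ : Continuous ψ) : Measurable (wdens k ψ κ ε V) := by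
  unfold wdens
  refine Measurable.div_const ?_ _
  exact (measurable_id.pow_const _).mul ((Wn_measurable hψ κ ε V).comp (measurable_id.pow_const _))

lemma wdens_nonneg (h0 : ∀ s, 0 ≤ ψ s) (hκ : 0 < κ) (hV : 0 < V) {x : ℝ} (hx : 0 ≤ x) :
    0 ≤ wdens k ψ κ ε V x := by
  have h1 := Wn_nonneg h0 κ ε V (x ^ (1 / k : ℝ))
  have h2 := HH_pos (ε := ε) hκ hV
  have h3 : 0 < V ^ bt k := Real.rpow_pos_of_pos hV _
  have h4 : 0 ≤ x ^ pp k := Real.rpow_nonneg hx _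
  unfold wdens; positivity

lemma integral_wmeas {E : Type*} [NormedAddCommGroup E] [NormedSpace ℝ E] (hψ : Continuous ψ)
    (h0 : ∀ s, 0 ≤ ψ s) (hκ : 0 < κ) (hV : 0 < V) (g : ℝ → E) :
    ∫ x, g x ∂(wmeas k ψ κ ε V) = ∫ x in Ioi (1 : ℝ), wdens k ψ κ ε V x • g x := by
  unfold wmeas
  rw [integral_withDensity_eq_integral_toReal_smul (wdens_measurable hψ).ennreal_ofReal
    (Eventually.of_forall fun x => ENNReal.ofReal_lt_top)]
  refine setIntegral_congr_fun measurableSet_Ioi fun x hx => ?_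
  have hx0 : (0 : ℝ) ≤ x := le_trans zero_le_one (le_of_lt hx)
  show (ENNReal.ofReal (wdens k ψ κ ε V x)).toReal • g x = _
  rw [ENNReal.toReal_ofReal (wdens_nonneg h0 hκ hV hx0)]

lemma supp_wdens (hsupp : ∀ s, ψ s ≠ 0 → 0 < s ∧ s < 1) (hκ : 0 < κ) (hV : 0 < V) {x : ℝ}
    (hx : wdens k ψ κ ε V x ≠ 0) :
    V < x ^ (1 / k : ℝ) ∧ x ^ (1 / k : ℝ) < V + HH κ ε V := by
  have hH := HH_pos (ε := ε) hκ hV
  have h1 : ψ ((x ^ (1 / k : ℝ) - V) / HH κ ε V) ≠ 0 := by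
    intro h
    apply hx
    rw [wdens, Wn, h]; simp
  obtain ⟨h2, h3⟩ := hsupp _ h1
  rw [lt_div_iff₀ hH, zero_mul] at h2
  rw [div_lt_one hH] at h3
  exact ⟨by linarith, by linarith⟩

lemma ae_wmeas (hψ : Continuous ψ) (hsupp : ∀ s, ψ s ≠ 0 → 0 < s ∧ s < 1)
    (hκ : 0 < κ) (hV : 0 < V) :
    ∀ᵐ x ∂(wmeas k ψ κ ε V), 1 < x ∧ V < x ^ (1 / k : ℝ) ∧ x ^ (1 / k : ℝ) < V + HH κ ε V := by
  unfold wmeas
  rw [ae_withDensity_iff (wdens_measurable hψ).ennreal_ofReal]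
  filter_upwards [ae_restrict_mem measurableSet_Ioi] with x hx hne
  refine ⟨hx, supp_wdens (k := k) (ε := ε) hsupp hκ hV ?_⟩
  intro h
  rw [h, ENNReal.ofReal_zero] at hne
  exact hne rfl

lemma wdens_le (hk : 1 ≤ k) (h0 : ∀ s, 0 ≤ ψ s) (h1 : ∀ s, ψ s ≤ 1)
    (hsupp : ∀ s, ψ s ≠ 0 → 0 < s ∧ s < 1) (hκ : 0 < κ) (hV : 0 < V) {x Y : ℝ} (hx : 0 < x)
    (hxY : wdens k ψ κ ε V x ≠ 0 → x ≤ Y) (hY : 0 ≤ Y) :
    wdens k ψ κ ε V x ≤ Y ^ pp k / (k * (V ^ bt k * HH κ ε V)) := by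
  have hkp : (0 : ℝ) < k := by exact_mod_cast hk
  have h2 := HH_pos (ε := ε) hκ hV
  have h3 : 0 < V ^ bt k := Real.rpow_pos_of_pos hV _
  have hpp : 0 ≤ pp k := by
    have : (1 : ℝ) ≤ k := by exact_mod_cast hk
    unfold pp
    have : 0 ≤ ((k : ℝ) - 1) / (2 * k) := div_nonneg (by linarith) (by linarith)
    linarith
  by_cases h : wdens k ψ κ ε V x = 0
  · rw [h]
    have : 0 ≤ Y ^ pp k := Real.rpow_nonneg hY _
    positivity
  · have h4 := hxY h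
    have h5 := Wn_le_one h0 h1 hsupp (ε := ε) hκ hV (x ^ (1 / k : ℝ))
    have h6 := Wn_nonneg h0 κ ε V (x ^ (1 / k : ℝ))
    unfold wdens
    have h7 : 0 ≤ x ^ pp k := Real.rpow_nonneg hx.le _
    gcongr
    calc x ^ pp k * Wn ψ κ ε V (x ^ (1 / k : ℝ)) ≤ x ^ pp k * 1 := by gcongr
      _ ≤ Y ^ pp k := by rw [mul_one]; exact Real.rpow_le_rpow hx.le h4 hpp

/-- the window measure is finite -/
lemma wmeas_finite (hk : 1 ≤ k) (h0 : ∀ s, 0 ≤ ψ s) (h1 : ∀ s, ψ s ≤ 1)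
    (hsupp : ∀ s, ψ s ≠ 0 → 0 < s ∧ s < 1) (hκ : 0 < κ) (hV : 0 < V) :
    IsFiniteMeasure (wmeas k ψ κ ε V) := by
  have hkp : (0 : ℝ) < k := by exact_mod_cast hk
  have hH := HH_pos (ε := ε) hκ hV
  set Y : ℝ := (V + HH κ ε V) ^ (k : ℝ) with hY
  have hY0 : 0 < Y := by positivity
  have hxY : ∀ x : ℝ, 0 < x → wdens k ψ κ ε V x ≠ 0 → x ≤ Y := by
    intro x hx hne
    have h2 := (supp_wdens (k := k) (ε := ε) hsupp hκ hV hne).2
    have h3 := Real.rpow_le_rpow (Real.rpow_nonneg hx.le _) h2.le hkp.le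
    rwa [← Real.rpow_mul hx.le, one_div_mul_cancel hkp.ne', Real.rpow_one] at h3
  refine ⟨?_⟩
  unfold wmeas
  rw [withDensity_apply _ MeasurableSet.univ, Measure.restrict_univ]
  set M := Y ^ pp k / (k * (V ^ bt k * HH κ ε V)) with hM
  have h4 : ∫⁻ x in Ioi (1 : ℝ), ENNReal.ofReal (wdens k ψ κ ε V x) ≤
      ∫⁻ x in Ioi (1 : ℝ), (Ioc (1 : ℝ) Y).indicator (fun _ => ENNReal.ofReal M) x := by
    refine setLIntegral_mono' measurableSet_Ioi fun x hx => ?_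
    have hx1 : (1 : ℝ) < x := hx
    have hx0 : 0 < x := by linarith
    by_cases h : wdens k ψ κ ε V x = 0
    · rw [h, ENNReal.ofReal_zero]; exact bot_le
    · rw [indicator_of_mem (show x ∈ Ioc 1 Y from ⟨hx1, hxY x hx0 h⟩)]
      exact ENNReal.ofReal_le_ofReal (wdens_le hk h0 h1 hsupp hκ hV hx0 (hxY x hx0) hY0.le)
  refine h4.trans_lt ?_
  rw [lintegral_indicator measurableSet_Ioc, lintegral_const]
  refine ENNReal.mul_lt_top ENNReal.ofReal_lt_top ?_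
  refine lt_of_le_of_lt (Measure.le_iff'.1 (Measure.restrict_mono le_rfl Measure.restrict_le_self) _) ?_
  rw [Measure.restrict_apply_univ, Real.volume_Ioc]
  exact ENNReal.ofReal_lt_top

lemma exp_int (hk : 1 ≤ k) (hψ : Continuous ψ) (h0 : ∀ s, 0 ≤ ψ s)
    (hsupp : ∀ s, ψ s ≠ 0 → 0 < s ∧ s < 1) (hκ : 0 < κ) (hV : 1 ≤ V) (θ : ℝ) :
    ∫ x, cexp (I * θ * ((x ^ (1 / k : ℝ) : ℝ) : ℂ)) ∂(wmeas k ψ κ ε V) =
      WI ψ κ ε (bt k) θ V / ((V ^ bt k * HH κ ε V : ℝ) : ℂ) := by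
  have hkp : (0 : ℝ) < k := by exact_mod_cast hk
  have hkc : (k : ℂ) ≠ 0 := by exact_mod_cast hkp.ne'
  have hV0 : 0 < V := by linarith
  have hH := HH_pos (ε := ε) hκ hV0
  have hVb : 0 < V ^ bt k := Real.rpow_pos_of_pos hV0 _
  have hD : ((V ^ bt k * HH κ ε V : ℝ) : ℂ) ≠ 0 := by exact_mod_cast (by positivity)
  rw [integral_wmeas hψ h0 hκ hV0]
  have h1 : ∫ x in Ioi (1 : ℝ), wdens k ψ κ ε V x • cexp (I * θ * ((x ^ (1 / k : ℝ) : ℝ) : ℂ)) =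
      (1 / (k * ((V ^ bt k * HH κ ε V : ℝ) : ℂ))) * MG k ψ κ ε (pp k) θ V := by
    rw [MG, ← integral_const_mul]
    refine setIntegral_congr_fun measurableSet_Ioi fun x _ => ?_
    rw [wdens, real_smul]
    push_cast
    field_simp
  rw [h1, MG_eq hk hsupp hκ hV, pp_eq hk]
  field_simp

lemma exp_tendsto (hk : 2 ≤ k) (hψ : Continuous ψ) (hc : HasCompactSupport ψ) (h0 : ∀ s, 0 ≤ ψ s)
    (hsupp : ∀ s, ψ s ≠ 0 → 0 < s ∧ s < 1) (hκ : 0 < κ) (hε : 0 < ε) (hε1 : ε < 1) (θ : ℝ) :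
    Tendsto (fun V : ℝ => ∫ x, cexp (I * θ * ((x ^ (1 / k : ℝ) : ℝ) : ℂ)) ∂(wmeas k ψ κ ε V)) atTop
      (𝓝 (if θ = 0 then ((∫ s, ψ s : ℝ) : ℂ) else 0)) := by
  have hkr : (2 : ℝ) ≤ k := by exact_mod_cast hk
  have hbt : 0 ≤ bt k := by rw [bt]; linarith
  refine (WI_tendsto hψ hc h0 hsupp hκ hε hε1 hbt θ).congr' ?_
  filter_upwards [eventually_ge_atTop 1] with V hV
  rw [exp_int (by omega) hψ h0 hsupp hκ hV]

lemma mass_tendsto (hk : 2 ≤ k) (hψ : Continuous ψ) (hc : HasCompactSupport ψ) (h0 : ∀ s, 0 ≤ ψ s)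
    (hsupp : ∀ s, ψ s ≠ 0 → 0 < s ∧ s < 1) (hκ : 0 < κ) (hε : 0 < ε) (hε1 : ε < 1) :
    Tendsto (fun V : ℝ => (wmeas k ψ κ ε V).real univ) atTop (𝓝 (∫ s, ψ s)) := by
  have h := exp_tendsto hk hψ hc h0 hsupp hκ hε hε1 0
  rw [if_pos rfl] at h
  have h2 := (continuous_re.tendsto _).comp h
  rw [ofReal_re] at h2
  refine h2.congr fun V => ?_
  simp only [Function.comp_apply, ofReal_zero, mul_zero, zero_mul, Complex.exp_zero]
  rw [integral_const]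
  simp

/-- the normalised error term -/
def F0 (k : ℕ) (P : Polynomial ℝ) (x : ℝ) : ℝ := Err k P x / x ^ (((k : ℝ) - 1) / (2 * k))

lemma F0_measurable (k : ℕ) (P : Polynomial ℝ) : Measurable (F0 k P) :=
  (measurable_Err k P).div (measurable_id.pow_const _)

lemma F0_bound (k : ℕ) (hk : 1 ≤ k) (P : Polynomial ℝ) : ∃ C : ℝ, 0 ≤ C ∧ ∀ x : ℝ, 1 ≤ x →
    |F0 k P x| ≤ C * x ^ (3 / 2 : ℝ) := by
  obtain ⟨C, hC0, hC⟩ := Err_le k P (by norm_num : (1 : ℝ) < 3 / 2)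
  have hkr : (1 : ℝ) ≤ k := by exact_mod_cast hk
  refine ⟨C, hC0, fun x hx => ?_⟩
  have h1 : (1 : ℝ) ≤ x ^ (((k : ℝ) - 1) / (2 * k)) :=
    Real.one_le_rpow hx (div_nonneg (by linarith) (by linarith))
  rw [F0, abs_div, abs_of_pos (by linarith : 0 < x ^ (((k : ℝ) - 1) / (2 * k)))]
  exact (div_le_self (abs_nonneg _) h1).trans (hC x hx)

/-- a measurable function that is bounded on the window is integrable -/
lemma win_integrable {E : Type*} [NormedAddCommGroup E] (hk : 1 ≤ k) (hψ : Continuous ψ)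
    (h0 : ∀ s, 0 ≤ ψ s) (h1 : ∀ s, ψ s ≤ 1)
    (hsupp : ∀ s, ψ s ≠ 0 → 0 < s ∧ s < 1) (hκ : 0 < κ) (hV : 0 < V) {g : ℝ → E}
    (hg : AEStronglyMeasurable g (wmeas k ψ κ ε V)) {B : ℝ}
    (hB : ∀ x : ℝ, 1 < x → x ≤ (V + HH κ ε V) ^ (k : ℝ) → ‖g x‖ ≤ B) :
    Integrable g (wmeas k ψ κ ε V) := by
  have hkp : (0 : ℝ) < k := by exact_mod_cast hk
  have := wmeas_finite (k := k) (ε := ε) hk h0 h1 hsupp hκ hV
  refine Integrable.of_bound hg B ?_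
  filter_upwards [ae_wmeas (k := k) (ε := ε) hψ hsupp hκ hV] with x hx
  refine hB x hx.1 ?_
  have hx0 : 0 < x := by linarith [hx.1]
  have h3 := Real.rpow_le_rpow (Real.rpow_nonneg hx0.le _) hx.2.2.le hkp.le
  rwa [← Real.rpow_mul hx0.le, one_div_mul_cancel hkp.ne', Real.rpow_one] at h3

lemma F0_integrable (hk : 1 ≤ k) (P : Polynomial ℝ) (hψ : Continuous ψ)
    (h0 : ∀ s, 0 ≤ ψ s) (h1 : ∀ s, ψ s ≤ 1)
    (hsupp : ∀ s, ψ s ≠ 0 → 0 < s ∧ s < 1) (hκ : 0 < κ) (hV : 0 < V) :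
    Integrable (F0 k P) (wmeas k ψ κ ε V) := by
  obtain ⟨C, hC0, hC⟩ := F0_bound k hk P
  refine win_integrable hk hψ h0 h1 hsupp hκ hV (F0_measurable k P).aestronglyMeasurable
    (B := C * ((V + HH κ ε V) ^ (k : ℝ)) ^ (3 / 2 : ℝ)) fun x hx hx2 => ?_
  rw [Real.norm_eq_abs]
  refine (hC x hx.le).trans ?_
  have : 0 < x := by linarith
  gcongr

lemma conv_integrable (hk : 1 ≤ k) (P : Polynomial ℝ) (hψ : Continuous ψ)
    (h0 : ∀ s, 0 ≤ ψ s) (h1 : ∀ s, ψ s ≤ 1)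
    (hsupp : ∀ s, ψ s ≠ 0 → 0 < s ∧ s < 1) (hκ : 0 < κ) (hV : 0 < V) {φ : ℝ → ℝ}
    (hφ : Continuous φ) :
    Integrable (fun x => φ (F0 k P x)) (wmeas k ψ κ ε V) := by
  obtain ⟨C, hC0, hC⟩ := F0_bound k hk P
  set M := C * ((V + HH κ ε V) ^ (k : ℝ)) ^ (3 / 2 : ℝ) with hM
  obtain ⟨B, hB⟩ := (isCompact_Icc (a := -M) (b := M)).exists_bound_of_continuousOn hφ.continuousOn
  refine win_integrable hk hψ h0 h1 hsupp hκ hV
    (hφ.measurable.comp (F0_measurable k P)).aestronglyMeasurable (B := B) fun x hx hx2 => ?_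
  refine hB _ (abs_le.1 ?_)
  refine (hC x hx.le).trans ?_
  have : 0 < x := by linarith
  rw [hM]
  gcongr

lemma F0_coeff_tendsto (hk : 2 ≤ k) (P : Polynomial ℝ) (hψ : Continuous ψ)
    (hc : HasCompactSupport ψ) (h0 : ∀ s, 0 ≤ ψ s) (h1 : ∀ s, ψ s ≤ 1)
    (hsupp : ∀ s, ψ s ≠ 0 → 0 < s ∧ s < 1) (hκ : 0 < κ) (hε : 0 < ε) (hε1 : ε < 1) (θ : ℝ) {L : ℂ}
    (hR : Tendsto (fun V : ℝ => RR k P ψ κ ε ((θ : ℂ) * I) V / ((V ^ bt k * HH κ ε V : ℝ) : ℂ))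
      atTop (𝓝 L)) :
    Tendsto (fun V : ℝ => ∫ x, (F0 k P x : ℂ) * cexp (-(I * θ * ((x ^ (1 / k : ℝ) : ℝ) : ℂ)))
      ∂(wmeas k ψ κ ε V)) atTop (𝓝 (L / k)) := by
  have hk1 : 1 ≤ k := by omega
  have hkp : (0 : ℝ) < k := by exact_mod_cast (by omega : 0 < k)
  have hkr : (2 : ℝ) ≤ k := by exact_mod_cast hk
  have hkc : (k : ℂ) ≠ 0 := by exact_mod_cast hkp.ne'
  set p0 : ℝ := ((k : ℝ) - 1) / (2 * k) with hp0
  have hp0' : 0 < p0 := div_pos (by linarith) (by linarith)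
  -- the constant term is negligible
  set R : ℝ → ℂ := fun V => ∫ x, ((w0 k / x ^ p0 : ℝ) : ℂ) *
    cexp (-(I * θ * ((x ^ (1 / k : ℝ) : ℝ) : ℂ))) ∂(wmeas k ψ κ ε V) with hRdef
  have hexp : ∀ x : ℝ, ‖cexp (-(I * θ * ((x ^ (1 / k : ℝ) : ℝ) : ℂ)))‖ = 1 := by
    intro x
    have e : (-(I * θ * ((x ^ (1 / k : ℝ) : ℝ) : ℂ))) =
        ((-(θ * x ^ (1 / k : ℝ)) : ℝ) : ℂ) * I := by push_cast; ring
    rw [e, Complex.norm_exp_ofReal_mul_I]
  have hexpm : Measurable fun x : ℝ => cexp (-(I * θ * ((x ^ (1 / k : ℝ) : ℝ) : ℂ))) := by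
    fun_prop
  have hRlim : Tendsto R atTop (𝓝 0) := by
    rw [tendsto_zero_iff_norm_tendsto_zero]
    have hb : Tendsto (fun V : ℝ => |w0 k| * V ^ (-(k * p0)) * (wmeas k ψ κ ε V).real univ) atTop
        (𝓝 0) := by
      have h2 := ((tendsto_rpow_neg_atTop (by positivity : 0 < k * p0)).const_mul |w0 k|).mul
        (mass_tendsto hk hψ hc h0 hsupp hκ hε hε1)
      rwa [mul_zero, zero_mul] at h2
    refine squeeze_zero' (Eventually.of_forall fun _ => norm_nonneg _) ?_ hb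
    filter_upwards [eventually_ge_atTop 1] with V hV
    have hV0 : 0 < V := by linarith
    have := wmeas_finite (k := k) (ε := ε) hk1 h0 h1 hsupp hκ hV0
    refine norm_integral_le_of_norm_le_const ?_
    filter_upwards [ae_wmeas (k := k) (ε := ε) hψ hsupp hκ hV0] with x hx
    have hx0 : 0 < x := by linarith [hx.1]
    have hxp : 0 < x ^ p0 := Real.rpow_pos_of_pos hx0 _
    rw [norm_mul, hexp, mul_one, norm_real, Real.norm_eq_abs, abs_div, abs_of_pos hxp, div_eq_mul_inv]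
    gcongr
    rw [Real.rpow_neg hV0.le]
    have h3 : V ^ (k * p0) ≤ x ^ p0 := by
      have h4 : V ^ (k : ℝ) ≤ x := by
        have h5 := Real.rpow_le_rpow hV0.le hx.2.1.le hkp.le
        rwa [← Real.rpow_mul hx0.le, one_div_mul_cancel hkp.ne', Real.rpow_one] at h5
      rw [Real.rpow_mul hV0.le]
      exact Real.rpow_le_rpow (by positivity) h4 hp0'.le
    gcongr
  have hmain : Tendsto (fun V : ℝ => (RR k P ψ κ ε ((θ : ℂ) * I) V /
      ((V ^ bt k * HH κ ε V : ℝ) : ℂ)) / k + R V) atTop (𝓝 (L / k)) := by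
    have := (hR.div_const (k : ℂ)).add hRlim
    rwa [add_zero] at this
  refine hmain.congr' ?_
  filter_upwards [eventually_ge_atTop 1] with V hV
  have hV0 : 0 < V := by linarith
  have hfin := wmeas_finite (k := k) (ε := ε) hk1 h0 h1 hsupp hκ hV0
  have hH := HH_pos (ε := ε) hκ hV0
  have hVb : 0 < V ^ bt k := Real.rpow_pos_of_pos hV0 _
  have hD : ((V ^ bt k * HH κ ε V : ℝ) : ℂ) ≠ 0 := by exact_mod_cast (by positivity)
  -- first part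
  have e1 : (RR k P ψ κ ε ((θ : ℂ) * I) V / ((V ^ bt k * HH κ ε V : ℝ) : ℂ)) / k =
      ∫ x, (((Err k P x - w0 k) / x ^ p0 : ℝ) : ℂ) *
        cexp (-(I * θ * ((x ^ (1 / k : ℝ) : ℝ) : ℂ))) ∂(wmeas k ψ κ ε V) := by
    rw [integral_wmeas hψ h0 hκ hV0, RR, div_div, div_eq_mul_inv, mul_comm, ← integral_const_mul]
    refine setIntegral_congr_fun measurableSet_Ioi fun x hx => ?_
    have hx0 : (0 : ℝ) < x := lt_trans zero_lt_one hx
    have hxp : 0 < x ^ p0 := Real.rpow_pos_of_pos hx0 _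
    have e2 : x ^ pp k = x * x ^ p0 := by
      rw [pp, Real.rpow_add hx0, Real.rpow_one]
    have e3 : ((x ^ p0 : ℝ) : ℂ) ≠ 0 := by exact_mod_cast hxp.ne'
    rw [wdens, real_smul, e2]
    have e4 : (-((θ : ℂ) * I * ((x ^ (1 / k : ℝ) : ℝ) : ℂ))) =
        (-(I * θ * ((x ^ (1 / k : ℝ) : ℝ) : ℂ))) := by ring
    rw [e4]
    push_cast at e3 hD ⊢
    field_simp
  have hi1 : Integrable (fun x => (((Err k P x - w0 k) / x ^ p0 : ℝ) : ℂ) *
        cexp (-(I * θ * ((x ^ (1 / k : ℝ) : ℝ) : ℂ)))) (wmeas k ψ κ ε V) := by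
    obtain ⟨C, hC0, hC⟩ := g_bound k P
    refine win_integrable hk1 hψ h0 h1 hsupp hκ hV0 ?_
      (B := C * ((V + HH κ ε V) ^ (k : ℝ)) ^ (3 / 2 : ℝ)) fun x hx hx2 => ?_
    · refine Measurable.aestronglyMeasurable ?_
      exact (measurable_ofReal.comp (((measurable_Err k P).sub_const _).div
        (measurable_id.pow_const _))).mul hexpm
    · have hx0 : 0 < x := by linarith
      have h3 : (1 : ℝ) ≤ x ^ p0 := Real.one_le_rpow hx.le hp0'.le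
      rw [norm_mul, hexp, mul_one, norm_real, Real.norm_eq_abs, abs_div,
        abs_of_pos (by linarith : 0 < x ^ p0)]
      refine (div_le_self (abs_nonneg _) h3).trans ((hC x hx.le).trans ?_)
      gcongr
  have hi2 : Integrable (fun x => ((w0 k / x ^ p0 : ℝ) : ℂ) *
        cexp (-(I * θ * ((x ^ (1 / k : ℝ) : ℝ) : ℂ)))) (wmeas k ψ κ ε V) := by
    refine win_integrable hk1 hψ h0 h1 hsupp hκ hV0 ?_ (B := |w0 k|) fun x hx hx2 => ?_
    · refine Measurable.aestronglyMeasurable ?_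
      exact (measurable_ofReal.comp (measurable_const.div (measurable_id.pow_const _))).mul hexpm
    · have h3 : (1 : ℝ) ≤ x ^ p0 := Real.one_le_rpow hx.le hp0'.le
      rw [norm_mul, hexp, mul_one, norm_real, Real.norm_eq_abs, abs_div,
        abs_of_pos (by linarith : 0 < x ^ p0)]
      exact div_le_self (abs_nonneg _) h3
  rw [e1, hRdef, ← integral_add hi1 hi2]
  congr 1
  funext x
  rw [F0]
  push_cast
  ring

end

end Pool.Agent.Lib.MP_bc6037_nt
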