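import Mathlib
import Pool.Agent.Lib.MP_bc6037_nt.WinMeasure

set_option autoImplicit false

/-!
The Fourier coefficients of the normalised error term over the windows are those of the limit law.
-/

open Complex Filter Topology Set MeasureTheory UnitAddTorus
open scoped ContDiff ComplexConjugate

namespace Pool.Agent.Lib.MP_bc6037_nt

open DeltaMellin ZetaGrowth

noncomputable section

/-- the basic frequencies -/
def lamS (k : ℕ) (S : Finset ℕ) (q : S) : ℝ := k * ((q : ℕ) : ℝ) ^ (1 / k : ℝ)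

/-- the independence property of the roots -/
def RootIndep (k : ℕ) (S : Finset ℕ) : Prop :=
  (∀ c : S → ℤ, ∑ q : S, (c q : ℝ) * ((q : ℕ) : ℝ) ^ (1 / k : ℝ) = 0 → c = 0) ∧
  ∀ (c : S → ℤ) (m : ℕ), 1 ≤ m → ∑ q : S, (c q : ℝ) * ((q : ℕ) : ℝ) ^ (1 / k : ℝ) =
    (m : ℝ) ^ (1 / k : ℝ) → ∃ (q : S) (a : ℕ), m = (a + 1) ^ k * q ∧ c = Pi.single q ((a : ℤ) + 1)

variable {k : ℕ} {ψ : ℝ → ℝ} {κ ε : ℝ}

lemma sum_lamS (S : Finset ℕ) (c : S → ℤ) :
    2 * Real.pi * ∑ q : S, (c q : ℝ) * lamS k S q =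
      2 * Real.pi * k * ∑ q : S, (c q : ℝ) * ((q : ℕ) : ℝ) ^ (1 / k : ℝ) := by
  have e : (k : ℝ) * ∑ q : S, (c q : ℝ) * ((q : ℕ) : ℝ) ^ (1 / k : ℝ) =
      ∑ q : S, (k : ℝ) * ((c q : ℝ) * ((q : ℕ) : ℝ) ^ (1 / k : ℝ)) := Finset.mul_sum _ _ _
  rw [mul_assoc (2 * Real.pi) (k : ℝ), e]
  congr 1
  refine Finset.sum_congr rfl fun q _ => ?_
  rw [lamS]; ring

lemma single_sum (hk : 1 ≤ k) (S : Finset ℕ) (q : S) (a : ℕ) :
    ∑ r : S, ((Pi.single q ((a : ℤ) + 1) : S → ℤ) r : ℝ) * ((r : ℕ) : ℝ) ^ (1 / k : ℝ) =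
      (((a + 1) ^ k * q : ℕ) : ℝ) ^ (1 / k : ℝ) := by
  have hkp : (0 : ℝ) < k := by exact_mod_cast hk
  rw [Finset.sum_eq_single q]
  · rw [Pi.single_eq_same]
    push_cast
    rw [Real.mul_rpow (by positivity) (by positivity), ← Real.rpow_natCast, ← Real.rpow_mul
      (by positivity), mul_one_div_cancel hkp.ne', Real.rpow_one]
  · intro r _ hr
    rw [Pi.single_eq_of_ne hr]; simp
  · intro h; exact absurd (Finset.mem_univ q) h

/-- coefficients at nonnegative frequencies -/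
lemma coeff_tendsto_nonneg (hk : 2 ≤ k) {P : Polynomial ℝ} {Z : ℂ → ℂ}
    (hZ : DifferentiableOn ℂ Z {s : ℂ | 0 < s.re})
    (hZ' : ∀ s : ℂ, 0 < s.re → s ≠ 1 → Z s = riemannZeta s ^ k / s - Q P s)
    {S : Finset ℕ} (hS : ∀ q ∈ S, 0 < q) (hI : RootIndep k S)
    (hψ : ContDiff ℝ ∞ ψ) (hc : HasCompactSupport ψ) (h0 : ∀ s, 0 ≤ ψ s) (h1 : ∀ s, ψ s ≤ 1)
    (hsupp : ∀ s, ψ s ≠ 0 → 0 < s ∧ s < 1) (hκ : 0 < κ) (hε : 0 < ε) (hε1 : ε < 1)
    (c : S → ℤ) (hc0 : 0 ≤ ∑ q : S, (c q : ℝ) * ((q : ℕ) : ℝ) ^ (1 / k : ℝ)) :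
    Tendsto (fun V : ℝ => ∫ x, (F0 k P x : ℂ) *
      cexp (-(I * ((2 * Real.pi * ∑ q : S, (c q : ℝ) * lamS k S q : ℝ) : ℂ) *
        ((x ^ (1 / k : ℝ) : ℝ) : ℂ))) ∂(wmeas k ψ κ ε V)) atTop
      (𝓝 (((∫ s, ψ s : ℝ) : ℂ) * mFourierCoeff (fun x => ((torusLaw hk hS x : ℝ) : ℂ)) c)) := by
  have hk1 : 1 ≤ k := by omega
  have hkp : (0 : ℝ) < k := by exact_mod_cast (by omega : 0 < k)
  have hkc : (k : ℂ) ≠ 0 := by exact_mod_cast hkp.ne'
  have hpk : 0 < 2 * Real.pi * k := by positivity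
  set s := ∑ q : S, (c q : ℝ) * ((q : ℕ) : ℝ) ^ (1 / k : ℝ) with hs
  have hpos : ∀ (q : S) (a : ℕ), 0 < (a + 1) ^ k * (q : ℕ) := fun q a =>
    Nat.mul_pos (by positivity) (hS q q.2)
  rcases hc0.eq_or_lt with h | h
  · -- zero frequency
    have hczero : c = 0 := hI.1 c h.symm
    have e0 : (2 * Real.pi * ∑ q : S, (c q : ℝ) * lamS k S q) = 0 := by
      rw [sum_lamS, ← hs, ← h, mul_zero]
    have hco : mFourierCoeff (fun x => ((torusLaw hk hS x : ℝ) : ℂ)) c = 0 := by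
      refine coeff_zero hk hS c (fun q a h2 => ?_) (fun q a h2 => ?_)
      · have := congrFun h2 q
        rw [hczero, Pi.single_eq_same, Pi.zero_apply] at this; omega
      · have := congrFun h2 q
        rw [hczero, Pi.neg_apply, Pi.single_eq_same, Pi.zero_apply] at this; omega
    rw [hco, mul_zero]
    have hR := RR_zero_tendsto hk hZ hZ' hψ hc hκ hε
    have h3 := F0_coeff_tendsto hk P hψ.continuous hc h0 h1 hsupp hκ hε hε1 0 (L := 0)
      (by simpa using hR)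
    rw [zero_div] at h3
    rw [e0]
    exact h3
  · by_cases hn : ∃ n : ℕ, 1 ≤ n ∧ s = (n : ℝ) ^ (1 / k : ℝ)
    · obtain ⟨n, hn1, hn2⟩ := hn
      obtain ⟨q, a, hna, hca⟩ := hI.2 c n hn1 hn2
      have e0 : (2 * Real.pi * ∑ q : S, (c q : ℝ) * lamS k S q) = om' k n := by
        rw [sum_lamS, ← hs, hn2, om']
      have hco : mFourierCoeff (fun x => ((torusLaw hk hS x : ℝ) : ℂ)) c = cC k n := by
        rw [hca, coeff_pos, hna]
      have hR := RR_tendsto hk hZ hZ' hn1 hψ hc h0 hsupp hκ hε hε1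
      have h3 := F0_coeff_tendsto hk P hψ.continuous hc h0 h1 hsupp hκ hε hε1 (om' k n) hR
      rw [e0, hco]
      have e1 : Bc k n * ((∫ s, ψ s : ℝ) : ℂ) / k = ((∫ s, ψ s : ℝ) : ℂ) * cC k n := by
        rw [Bc_eq hk1]; field_simp
      rwa [e1] at h3
    · push Not at hn
      have e0 : (2 * Real.pi * ∑ q : S, (c q : ℝ) * lamS k S q) = 2 * Real.pi * k * s := by
        rw [sum_lamS]
      have hco : mFourierCoeff (fun x => ((torusLaw hk hS x : ℝ) : ℂ)) c = 0 := by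
        refine coeff_zero hk hS c (fun q a h2 => ?_) (fun q a h2 => ?_)
        · refine hn ((a + 1) ^ k * q) (hpos q a) ?_
          rw [hs, h2, single_sum hk1]
        · have h3 : s = -(((a + 1) ^ k * q : ℕ) : ℝ) ^ (1 / k : ℝ) := by
            rw [← single_sum hk1 S q a, hs, h2, ← Finset.sum_neg_distrib]
            refine Finset.sum_congr rfl fun r _ => ?_
            rw [Pi.neg_apply]; push_cast; ring
          have h4 : (0 : ℝ) ≤ (((a + 1) ^ k * q : ℕ) : ℝ) ^ (1 / k : ℝ) :=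
            Real.rpow_nonneg (Nat.cast_nonneg _) _
          rw [h3] at h
          linarith
      have hR := RR_other_tendsto hk hZ hZ' (θ := 2 * Real.pi * k * s) (by positivity)
        (fun n hn1 he => hn n hn1 (by
          rw [om'] at he
          exact mul_left_cancel₀ hpk.ne' he)) hψ hc hκ hε
      have h3 := F0_coeff_tendsto hk P hψ.continuous hc h0 h1 hsupp hκ hε hε1 _ hR
      rw [zero_div] at h3
      rw [e0, hco, mul_zero]
      exact h3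

/-- **all coefficients** -/
theorem coeff_tendsto (hk : 2 ≤ k) {P : Polynomial ℝ} {Z : ℂ → ℂ}
    (hZ : DifferentiableOn ℂ Z {s : ℂ | 0 < s.re})
    (hZ' : ∀ s : ℂ, 0 < s.re → s ≠ 1 → Z s = riemannZeta s ^ k / s - Q P s)
    {S : Finset ℕ} (hS : ∀ q ∈ S, 0 < q) (hI : RootIndep k S)
    (hψ : ContDiff ℝ ∞ ψ) (hc : HasCompactSupport ψ) (h0 : ∀ s, 0 ≤ ψ s) (h1 : ∀ s, ψ s ≤ 1)
    (hsupp : ∀ s, ψ s ≠ 0 → 0 < s ∧ s < 1) (hκ : 0 < κ) (hε : 0 < ε) (hε1 : ε < 1)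
    (c : S → ℤ) :
    Tendsto (fun V : ℝ => ∫ x, (F0 k P x : ℂ) *
      cexp (-(I * ((2 * Real.pi * ∑ q : S, (c q : ℝ) * lamS k S q : ℝ) : ℂ) *
        ((x ^ (1 / k : ℝ) : ℝ) : ℂ))) ∂(wmeas k ψ κ ε V)) atTop
      (𝓝 (((∫ s, ψ s : ℝ) : ℂ) * mFourierCoeff (fun x => ((torusLaw hk hS x : ℝ) : ℂ)) c)) := by
  rcases le_total 0 (∑ q : S, (c q : ℝ) * ((q : ℕ) : ℝ) ^ (1 / k : ℝ)) with h | h
  · exact coeff_tendsto_nonneg hk hZ hZ' hS hI hψ hc h0 h1 hsupp hκ hε hε1 c h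
  · have hneg : ∀ f : S → ℝ, ∑ q : S, (((-c) q : ℤ) : ℝ) * f q = -∑ q : S, (c q : ℝ) * f q := by
      intro f
      rw [← Finset.sum_neg_distrib]
      refine Finset.sum_congr rfl fun r _ => ?_
      rw [Pi.neg_apply]; push_cast; ring
    have h2 := coeff_tendsto_nonneg hk hZ hZ' hS hI hψ hc h0 h1 hsupp hκ hε hε1 (-c) (by
      rw [hneg]; linarith)
    rw [coeff_neg] at h2
    have h3 := (continuous_conj.tendsto _).comp h2
    rw [map_mul, conj_conj, conj_ofReal] at h3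
    refine h3.congr fun V => ?_
    simp only [Function.comp_apply]
    rw [← integral_conj]
    congr 1
    funext x
    rw [map_mul, conj_ofReal, ← Complex.exp_conj]
    congr 2
    rw [hneg]
    simp only [map_neg, map_mul, conj_I, conj_ofReal]
    push_cast
    ring

/-- the exponentials have no mass -/
theorem exp_coeff_tendsto (hk : 2 ≤ k) {S : Finset ℕ} (hI : RootIndep k S)
    (hψ : Continuous ψ) (hc : HasCompactSupport ψ) (h0 : ∀ s, 0 ≤ ψ s)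
    (hsupp : ∀ s, ψ s ≠ 0 → 0 < s ∧ s < 1) (hκ : 0 < κ) (hε : 0 < ε) (hε1 : ε < 1)
    (c : S → ℤ) (hc0 : c ≠ 0) :
    Tendsto (fun V : ℝ => ∫ x,
      cexp (I * ((2 * Real.pi * ∑ q : S, (c q : ℝ) * lamS k S q : ℝ) : ℂ) *
        ((x ^ (1 / k : ℝ) : ℝ) : ℂ)) ∂(wmeas k ψ κ ε V)) atTop (𝓝 0) := by
  have hkp : (0 : ℝ) < k := by exact_mod_cast (by omega : 0 < k)
  have h := exp_tendsto hk hψ hc h0 hsupp hκ hε hε1
    (2 * Real.pi * ∑ q : S, (c q : ℝ) * lamS k S q)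
  rwa [if_neg] at h
  intro h2
  rw [sum_lamS] at h2
  have : 2 * Real.pi * k ≠ 0 := by positivity
  exact hc0 (hI.1 c ((mul_eq_zero.1 h2).resolve_left this))

end

end Pool.Agent.Lib.MP_bc6037_nt
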