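import Mathlib
import Pool.Agent.Lib.MP_bc6037_nt.CoeffLimit

set_option autoImplicit false

/-!
Besicovitch's theorem: the `k`-th roots of distinct `k`-free positive integers are linearly
independent over the rationals.
-/

open Polynomial

namespace Pool.Agent.Lib.MP_bc6037_nt

/-- a positive real radical that is irrational has minimal polynomial without trace -/
lemma nextCoeff_radical {β : ℝ} (hβ : 0 < β) {k : ℕ} (hk : 0 < k) (hr : ∃ r : ℚ, β ^ k = r)
    (hirr : ∀ r : ℚ, β ≠ r) : (minpoly ℚ β).nextCoeff = 0 := by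
  classical
  have hex : ∃ d : ℕ, 0 < d ∧ ∃ r : ℚ, β ^ d = r := ⟨k, hk, hr⟩
  set d := Nat.find hex with hd
  obtain ⟨hd0, b, hb⟩ := Nat.find_spec hex
  rw [← hd] at hd0 hb
  have hmin : ∀ e : ℕ, 0 < e → (∃ r : ℚ, β ^ e = r) → d ≤ e := fun e h1 h2 =>
    Nat.find_min' hex ⟨h1, h2⟩
  have hd2 : 2 ≤ d := by
    by_contra h
    have : d = 1 := by omega
    rw [this, pow_one] at hb
    exact hirr b hb
  have hmonic : (X ^ d - C b : ℚ[X]).Monic := monic_X_pow_sub_C b (by omega)
  have hroot : aeval β (X ^ d - C b : ℚ[X]) = 0 := by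
    simp [hb]
  have hint : IsIntegral ℚ β := ⟨X ^ d - C b, hmonic, hroot⟩
  set p := minpoly ℚ β with hp
  have hpm : p.Monic := minpoly.monic hint
  have hdvd : p ∣ (X ^ d - C b) := minpoly.dvd ℚ β hroot
  -- the constant coefficient
  set pc := p.map (algebraMap ℚ ℂ) with hpc
  have hsplit : pc.Splits := IsAlgClosed.splits pc
  have hpcm : pc.Monic := hpm.map _
  have hc0 := hsplit.coeff_zero_eq_prod_roots_of_monic hpcm
  have hroots : ∀ z ∈ pc.roots, ‖z‖ = β := by
    intro z hz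
    have h1 : pc.IsRoot z := (mem_roots'.1 hz).2
    have h2 : pc ∣ (X ^ d - C b : ℚ[X]).map (algebraMap ℚ ℂ) := Polynomial.map_dvd _ hdvd
    have h3 := h1.dvd h2
    rw [IsRoot.def, Polynomial.map_sub, Polynomial.map_pow, map_X, map_C, eval_sub, eval_pow,
      eval_X, eval_C, sub_eq_zero] at h3
    have h4 : ‖z‖ ^ d = β ^ d := by
      rw [← norm_pow, h3, hb]
      have hb0 : (0 : ℝ) < b := by rw [← hb]; positivity
      simp only [eq_ratCast, Complex.norm_ratCast]
      exact_mod_cast abs_of_pos (by exact_mod_cast hb0)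
    exact (pow_left_inj₀ (norm_nonneg _) hβ.le (by omega)).1 h4
  have hcard : Multiset.card pc.roots = p.natDegree := by
    rw [← hsplit.natDegree_eq_card_roots, hpc, natDegree_map]
  have hprod : ‖pc.roots.prod‖ = β ^ p.natDegree := by
    have h5 : ‖pc.roots.prod‖ = (pc.roots.map fun z => ‖z‖).prod := by
      exact map_multiset_prod (normHom : ℂ →*₀ ℝ) pc.roots
    rw [h5, Multiset.map_congr rfl hroots, Multiset.map_const', Multiset.prod_replicate, hcard]
  have hrat : ∃ r : ℚ, β ^ p.natDegree = r := by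
    refine ⟨|p.coeff 0|, ?_⟩
    rw [← hprod]
    have h6 : ‖pc.coeff 0‖ = ‖pc.roots.prod‖ := by
      rw [hc0, norm_mul, norm_pow, norm_neg, norm_one, one_pow, one_mul]
    rw [← h6, hpc, coeff_map]
    simp
  have hdeg0 : 0 < p.natDegree := minpoly.natDegree_pos hint
  have hge := hmin _ hdeg0 hrat
  have heq : p = X ^ d - C b := by
    refine (Polynomial.eq_of_monic_of_dvd_of_natDegree_le hpm hmonic hdvd ?_).symm
    rw [natDegree_X_pow_sub_C]; exact hge
  rw [heq, nextCoeff_of_natDegree_pos (by rw [natDegree_X_pow_sub_C]; omega), natDegree_X_pow_sub_C,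
    coeff_sub, coeff_X_pow, coeff_C, if_neg (by omega), if_neg (by omega), sub_zero]

/-- trace of a radical in a number field inside the reals -/
lemma trace_radical {K : IntermediateField ℚ ℝ} [FiniteDimensional ℚ K] (β : K) (hβ : 0 < (β : ℝ))
    {k : ℕ} (hk : 0 < k) (hr : ∃ r : ℚ, (β : ℝ) ^ k = r) (hirr : ∀ r : ℚ, (β : ℝ) ≠ r) :
    Algebra.trace ℚ K β = 0 := by
  rw [trace_eq_finrank_mul_minpoly_nextCoeff]
  have h1 : minpoly ℚ β = minpoly ℚ (β : ℝ) :=
    (minpoly.algebraMap_eq (A := ℚ) (B := K) (B' := ℝ) (algebraMap K ℝ).injective β).symm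
  rw [h1, nextCoeff_radical hβ hk hr hirr]
  simp

/-- `k`-free -/
def KFree (k q : ℕ) : Prop := 0 < q ∧ ∀ a : ℕ, 1 < a → ¬ a ^ k ∣ q

lemma ratio_irrational {k : ℕ} (hk : 0 < k) {q r : ℕ} (hq : KFree k q) (hr : KFree k r)
    (hne : q ≠ r) (s : ℚ) : (q : ℝ) ^ (1 / k : ℝ) / (r : ℝ) ^ (1 / k : ℝ) ≠ s := by
  intro h
  have hkp : (0 : ℝ) < k := by exact_mod_cast hk
  have hqp : (0 : ℝ) < q := by exact_mod_cast hq.1
  have hrp : (0 : ℝ) < r := by exact_mod_cast hr.1
  have hs0 : (0 : ℝ) < s := by rw [← h]; positivity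
  have hs0' : 0 < s := by exact_mod_cast hs0
  have h1 : (q : ℝ) / r = (s : ℝ) ^ k := by
    rw [← h, div_pow, ← Real.rpow_natCast, ← Real.rpow_natCast, ← Real.rpow_mul hqp.le,
      ← Real.rpow_mul hrp.le, one_div_mul_cancel hkp.ne', Real.rpow_one, Real.rpow_one]
  have h2 : (q : ℚ) / r = s ^ k := by
    apply Rat.cast_injective (α := ℝ)
    push_cast
    exact h1
  have hrq : (r : ℚ) ≠ 0 := by exact_mod_cast hr.1.ne'
  have hnum : ((s.num.natAbs : ℕ) : ℚ) / (s.den : ℚ) = s := by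
    have h3 : ((s.num.natAbs : ℕ) : ℤ) = s.num := Int.natAbs_of_nonneg (Rat.num_nonneg.2 hs0'.le)
    have h4 : ((s.num.natAbs : ℕ) : ℚ) = (s.num : ℚ) := by
      rw [← Int.cast_natCast, h3]
    rw [h4, Rat.num_div_den]
  have hden : (s.den : ℚ) ≠ 0 := by exact_mod_cast s.den_nz
  have h5 : q * s.den ^ k = r * s.num.natAbs ^ k := by
    have h6 : (q : ℚ) * (s.den : ℚ) ^ k = r * ((s.num.natAbs : ℕ) : ℚ) ^ k := by
      rw [← hnum, div_pow] at h2
      field_simp at h2
      linear_combination h2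
    exact_mod_cast h6
  have hcop : Nat.Coprime (s.num.natAbs ^ k) (s.den ^ k) := Nat.Coprime.pow _ _ s.reduced
  have ha : s.num.natAbs ^ k ∣ q := by
    have : s.num.natAbs ^ k ∣ q * s.den ^ k := by rw [h5]; exact dvd_mul_left _ _
    exact hcop.dvd_of_dvd_mul_right this
  have hb : s.den ^ k ∣ r := by
    have : s.den ^ k ∣ r * s.num.natAbs ^ k := by rw [← h5]; exact dvd_mul_left _ _
    exact hcop.symm.dvd_of_dvd_mul_right this
  have ha1 : s.num.natAbs ≤ 1 := by
    by_contra hc; exact hq.2 _ (by omega) ha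
  have hb1 : s.den ≤ 1 := by
    by_contra hc; exact hr.2 _ (by omega) hb
  have hd1 : s.den = 1 := by have := s.den_nz; omega
  have hn1 : s.num.natAbs = 1 := by
    have : s.num.natAbs ≠ 0 := by
      rw [Ne, Int.natAbs_eq_zero, Rat.num_eq_zero]; exact hs0'.ne'
    omega
  rw [hd1, hn1, one_pow, mul_one, mul_one] at h5
  exact hne h5

/-- **Besicovitch**: linear independence -/
theorem besicovitch {k : ℕ} (hk : 0 < k) (S : Finset ℕ) (hS : ∀ q ∈ S, KFree k q) (c : ℕ → ℤ)
    (h : ∑ q ∈ S, (c q : ℝ) * (q : ℝ) ^ (1 / k : ℝ) = 0) : ∀ q ∈ S, c q = 0 := by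
  intro q0 hq0
  have hkp : (0 : ℝ) < k := by exact_mod_cast hk
  have hpos : ∀ q ∈ S, (0 : ℝ) < (q : ℝ) ^ (1 / k : ℝ) := fun q hq =>
    Real.rpow_pos_of_pos (by exact_mod_cast (hS q hq).1) _
  have hq0p := hpos q0 hq0
  set β : ℕ → ℝ := fun q => (q : ℝ) ^ (1 / k : ℝ) / (q0 : ℝ) ^ (1 / k : ℝ) with hβ
  have hβk : ∀ q, β q ^ k = ((q : ℚ) / q0 : ℚ) := by
    intro q
    rw [hβ]
    simp only
    rw [div_pow, ← Real.rpow_natCast, ← Real.rpow_natCast, ← Real.rpow_mul (by positivity),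
      ← Real.rpow_mul (by positivity), one_div_mul_cancel hkp.ne', Real.rpow_one, Real.rpow_one]
    push_cast; rfl
  set K := IntermediateField.adjoin ℚ (β '' (S : Set ℕ)) with hK
  have hfd : FiniteDimensional ℚ K := by
    have hfin : (β '' (S : Set ℕ)).Finite := S.finite_toSet.image _
    have := hfin.to_subtype
    refine IntermediateField.finiteDimensional_adjoin fun x hx => ?_
    obtain ⟨q, hq, rfl⟩ := hx
    refine ⟨X ^ k - C ((q : ℚ) / q0 : ℚ), monic_X_pow_sub_C _ hk.ne', ?_⟩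
    rw [← aeval_def, map_sub, map_pow, aeval_X, aeval_C, hβk]
    exact sub_self _
  have hmem : ∀ q ∈ S, β q ∈ K := fun q hq =>
    IntermediateField.subset_adjoin ℚ _ ⟨q, hq, rfl⟩
  have hrel : ∑ q ∈ S, (c q : ℝ) * β q = 0 := by
    have : ∑ q ∈ S, (c q : ℝ) * β q = (∑ q ∈ S, (c q : ℝ) * (q : ℝ) ^ (1 / k : ℝ)) /
        (q0 : ℝ) ^ (1 / k : ℝ) := by
      rw [Finset.sum_div]
      refine Finset.sum_congr rfl fun q _ => ?_
      rw [hβ]; ring
    rw [this, h, zero_div]
  -- the relation in K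
  set γ : S → K := fun q => ⟨β q, hmem q q.2⟩ with hγ
  have hrelK : ∑ q : S, (c q : ℚ) • γ q = 0 := by
    apply (algebraMap K ℝ).injective
    rw [map_sum, map_zero, ← hrel, ← Finset.sum_coe_sort S]
    refine Finset.sum_congr rfl fun q _ => ?_
    rw [Algebra.smul_def, map_mul]
    congr 1
  have htr := congrArg (Algebra.trace ℚ K) hrelK
  rw [map_sum, map_zero, Finset.sum_eq_single ⟨q0, hq0⟩] at htr
  · have h1 : γ ⟨q0, hq0⟩ = 1 := by
      apply Subtype.ext
      show β q0 = 1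
      exact div_self hq0p.ne'
    rw [map_smul, h1] at htr
    have h2 : Algebra.trace ℚ K 1 = (Module.finrank ℚ K : ℚ) := by
      have := Algebra.trace_algebraMap (R := ℚ) (S := K) 1
      rw [map_one] at this
      rw [this]; simp
    rw [h2, smul_eq_mul] at htr
    have h3 : (Module.finrank ℚ K : ℚ) ≠ 0 := by
      exact_mod_cast (Module.finrank_pos (R := ℚ) (M := K)).ne'
    have h4 := (mul_eq_zero.1 htr).resolve_right h3
    exact_mod_cast h4
  · intro q _ hq
    have hqne : (q : ℕ) ≠ q0 := fun h => hq (Subtype.ext h)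
    rw [map_smul, trace_radical (γ q) (k := k) ?_ hk ⟨_, hβk q⟩ ?_, smul_zero]
    · exact div_pos (hpos q q.2) hq0p
    · exact ratio_irrational hk (hS q q.2) (hS q0 hq0) hqne
  · intro h; exact absurd (Finset.mem_univ _) h

/-- decomposition into a perfect power and a `k`-free part -/
lemma exists_kfree {k m : ℕ} (hk : 0 < k) (hm : 0 < m) :
    ∃ a q : ℕ, 0 < a ∧ KFree k q ∧ m = a ^ k * q := by
  classical
  have hbd : ∀ a, a ^ k ∣ m → a ≤ m := by
    intro a ha
    rcases Nat.eq_zero_or_pos a with h | h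
    · omega
    · exact (Nat.le_self_pow hk.ne' a).trans (Nat.le_of_dvd hm ha)
  set a := Nat.findGreatest (fun a => a ^ k ∣ m) m with ha
  have h1 : a ^ k ∣ m := Nat.findGreatest_spec (P := fun a => a ^ k ∣ m) (m := 1) hm (by simp)
  have ha0 : 0 < a := by
    have : 1 ≤ a := Nat.le_findGreatest hm (by simp)
    omega
  obtain ⟨q, hq⟩ := h1
  refine ⟨a, q, ha0, ⟨Nat.pos_of_ne_zero (by rintro rfl; simp at hq; omega), fun b hb hbq => ?_⟩, hq⟩
  have h2 : (a * b) ^ k ∣ m := by
    rw [mul_pow, hq]; exact Nat.mul_dvd_mul_left _ hbq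
  have h3 : a * b ≤ a := Nat.le_findGreatest (hbd _ h2) h2
  nlinarith

/-- **root independence** for `k`-free sets -/
theorem rootIndep {k : ℕ} (hk : 0 < k) {S : Finset ℕ} (hS : ∀ q ∈ S, KFree k q) :
    RootIndep k S := by
  classical
  have hkp : (0 : ℝ) < k := by exact_mod_cast hk
  have ext : ∀ (c : S → ℤ), ∑ q : S, (c q : ℝ) * ((q : ℕ) : ℝ) ^ (1 / k : ℝ) =
      ∑ q ∈ S, ((if h : q ∈ S then c ⟨q, h⟩ else 0 : ℤ) : ℝ) * (q : ℝ) ^ (1 / k : ℝ) := by
    intro c
    rw [← Finset.sum_coe_sort S]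
    refine Finset.sum_congr rfl fun q _ => ?_
    rw [dif_pos q.2]
  constructor
  · intro c hc
    rw [ext] at hc
    have h1 := besicovitch hk S hS _ hc
    funext q
    have h2 := h1 q q.2
    rwa [dif_pos q.2] at h2
  · intro c m hm hc
    obtain ⟨a, r, ha, hr, hmar⟩ := exists_kfree hk hm
    have hroot : (m : ℝ) ^ (1 / k : ℝ) = a * (r : ℝ) ^ (1 / k : ℝ) := by
      rw [hmar]; push_cast
      rw [Real.mul_rpow (by positivity) (by positivity), ← Real.rpow_natCast, ← Real.rpow_mul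
        (by positivity), mul_one_div_cancel hkp.ne', Real.rpow_one]
    rw [ext, hroot] at hc
    set c' : ℕ → ℤ := fun q => (if h : q ∈ S then c ⟨q, h⟩ else 0) - (if q = r then (a : ℤ) else 0)
      with hc'
    have hS' : ∀ q ∈ insert r S, KFree k q := by
      intro q hq
      rcases Finset.mem_insert.1 hq with h | h
      · rw [h]; exact hr
      · exact hS q h
    have hsum : ∑ q ∈ insert r S, (c' q : ℝ) * (q : ℝ) ^ (1 / k : ℝ) = 0 := by
      have e1 : ∀ q ∈ insert r S, (c' q : ℝ) * (q : ℝ) ^ (1 / k : ℝ) =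
          ((if h : q ∈ S then c ⟨q, h⟩ else 0 : ℤ) : ℝ) * (q : ℝ) ^ (1 / k : ℝ) -
          (if q = r then (a : ℝ) * (q : ℝ) ^ (1 / k : ℝ) else 0) := by
        intro q _
        have e3 : (c' q : ℝ) = ((if h : q ∈ S then c ⟨q, h⟩ else 0 : ℤ) : ℝ) -
            ((if q = r then (a : ℤ) else 0 : ℤ) : ℝ) := by rw [hc']; exact Int.cast_sub _ _
        rw [e3, sub_mul]
        congr 1
        split_ifs
        · simp
        · simp
      rw [Finset.sum_congr rfl e1, Finset.sum_sub_distrib, Finset.sum_ite_eq' (insert r S) r,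
        if_pos (Finset.mem_insert_self _ _)]
      have e2 : ∑ q ∈ insert r S, ((if h : q ∈ S then c ⟨q, h⟩ else 0 : ℤ) : ℝ) *
          (q : ℝ) ^ (1 / k : ℝ) = ∑ q ∈ S, ((if h : q ∈ S then c ⟨q, h⟩ else 0 : ℤ) : ℝ) *
          (q : ℝ) ^ (1 / k : ℝ) := by
        symm
        refine Finset.sum_subset (Finset.subset_insert _ _) fun q _ hq => ?_
        rw [dif_neg hq]; simp
      rw [e2, hc]; ring
    have h1 := besicovitch hk _ hS' c' hsum
    have hrS : r ∈ S := by
      by_contra hrS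
      have h2 := h1 r (Finset.mem_insert_self _ _)
      rw [hc'] at h2
      simp only [dif_neg hrS, if_true] at h2
      omega
    refine ⟨⟨r, hrS⟩, a - 1, ?_, ?_⟩
    · rw [Nat.sub_add_cancel ha]; exact hmar
    · funext q
      have h2 := h1 q (Finset.mem_insert_of_mem q.2)
      rw [hc'] at h2
      simp only [dif_pos q.2] at h2
      by_cases hq : q = ⟨r, hrS⟩
      · subst hq
        rw [Pi.single_eq_same]
        simp only [if_true] at h2
        omega
      · rw [Pi.single_eq_of_ne hq]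
        have hq' : (q : ℕ) ≠ r := fun h => hq (Subtype.ext h)
        rw [if_neg hq'] at h2
        simpa using h2

end Pool.Agent.Lib.MP_bc6037_nt
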