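import Mathlib
import Pool.Agent.Lib.MP_bc6037_nt.LimitLaw

set_option autoImplicit false
set_option linter.unusedSectionVars false

/-!
An abstract principle: if a real function has, with respect to a family of finite measures, the
same Fourier coefficients as an almost periodic function `G(λ w)` at all frequencies of the group
generated by the `λ_i`, then its law dominates the law of `G` in convex order, in the limit.
-/

open Complex Filter Topology Set MeasureTheory UnitAddTorus
open scoped ComplexConjugate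

namespace Pool.Agent.Lib.MP_bc6037_nt

noncomputable section

/-- subgradient inequality with a continuous choice of the slope -/
lemma slope_ineq {φ : ℝ → ℝ} (hφ : ConvexOn ℝ univ φ) {B h ω : ℝ} (hh : 0 < h) (hh1 : h ≤ 1)
    (hω : ∀ u ∈ Icc (-(B + 1)) (B + 1), ∀ v ∈ Icc (-(B + 1)) (B + 1), |u - v| ≤ h →
      |φ u - φ v| ≤ ω) {y : ℝ} (hy : |y| ≤ B) (z : ℝ) :
    φ y + (φ (y + h) - φ y) / h * (z - y) - 2 * ω ≤ φ z := by
  obtain ⟨hy1, hy2⟩ := abs_le.1 hy
  have hyI : y ∈ Icc (-(B + 1)) (B + 1) := ⟨by linarith, by linarith⟩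
  have hyhI : y + h ∈ Icc (-(B + 1)) (B + 1) := ⟨by linarith, by linarith⟩
  have hω1 := hω (y + h) hyhI y hyI (by rw [add_sub_cancel_left, abs_of_pos hh])
  have hω0 : 0 ≤ ω := (abs_nonneg _).trans hω1
  rcases lt_trichotomy z y with hz | hz | hz
  · have h1 := hφ.secant_mono (mem_univ y) (mem_univ z) (mem_univ (y + h)) hz.ne
      (by linarith) (by linarith)
    rw [add_sub_cancel_left] at h1
    have h2 : 0 < y - z := by linarith
    have h3 : (φ z - φ y) / (z - y) * (z - y) = φ z - φ y := by
      have : z - y ≠ 0 := by linarith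
      field_simp
    have h4 : (φ (y + h) - φ y) / h * (z - y) ≤ (φ z - φ y) / (z - y) * (z - y) :=
      mul_le_mul_of_nonpos_right h1 (by linarith)
    linarith
  · subst hz
    simp only [sub_self, mul_zero, add_zero]
    linarith
  · rcases le_or_gt (y + h) z with hz2 | hz2
    · have h1 := hφ.secant_mono (mem_univ y) (mem_univ (y + h)) (mem_univ z) (by linarith)
        hz.ne' hz2
      rw [add_sub_cancel_left] at h1
      have h2 : 0 < z - y := by linarith
      have h3 : (φ z - φ y) / (z - y) * (z - y) = φ z - φ y := by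
        have : z - y ≠ 0 := by linarith
        field_simp
      have h4 : (φ (y + h) - φ y) / h * (z - y) ≤ (φ z - φ y) / (z - y) * (z - y) :=
        mul_le_mul_of_nonneg_right h1 (by linarith)
      linarith
    · have hzI : z ∈ Icc (-(B + 1)) (B + 1) := ⟨by linarith, by linarith⟩
      have h2 : 0 < z - y := by linarith
      have h5 := hω z hzI y hyI (by rw [abs_of_pos h2]; linarith)
      have h6 : (φ (y + h) - φ y) / h * (z - y) ≤ ω := by
        have h7 : (φ (y + h) - φ y) / h * (z - y) ≤ |φ (y + h) - φ y| / h * (z - y) := by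
          gcongr
          exact le_abs_self _
        have h8 : |φ (y + h) - φ y| / h * (z - y) ≤ ω / h * h := by
          gcongr
          linarith
        rw [div_mul_cancel₀ _ hh.ne'] at h8
        linarith
      have := (abs_le.1 h5).1
      linarith

/-- one-sided linear growth of nonconstant convex functions -/
lemma convex_growth {φ : ℝ → ℝ} (hφ : ConvexOn ℝ univ φ) (hφ0 : ∀ y, 0 ≤ φ y)
    (hne : ∃ y1 y2, φ y1 ≠ φ y2) :
    ∃ a b : ℝ, 0 < a ∧ 0 ≤ b ∧ ((∀ y, a * max y 0 - b ≤ φ y) ∨ (∀ y, a * max (-y) 0 - b ≤ φ y)) := by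
  have main : ∀ y1 y2 : ℝ, y1 < y2 → φ y1 ≠ φ y2 → ∃ a b : ℝ, 0 < a ∧ 0 ≤ b ∧
      ((∀ y, a * max y 0 - b ≤ φ y) ∨ (∀ y, a * max (-y) 0 - b ≤ φ y)) := by
    intro y1 y2 h12 hne
    have h0 : 0 < y2 - y1 := by linarith
    rcases lt_or_gt_of_ne hne with h | h
    · refine ⟨(φ y2 - φ y1) / (y2 - y1), (φ y2 - φ y1) / (y2 - y1) * |y2|,
        div_pos (by linarith) h0, by
          have : 0 < (φ y2 - φ y1) / (y2 - y1) := div_pos (by linarith) h0
          positivity, Or.inl fun y => ?_⟩
      set a := (φ y2 - φ y1) / (y2 - y1) with ha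
      have ha0 : 0 < a := div_pos (by linarith) h0
      have habs := le_abs_self y2
      have habs0 := abs_nonneg y2
      rcases le_or_gt y y2 with hy | hy
      · have h1 : max y 0 ≤ |y2| := max_le (hy.trans habs) habs0
        have h2 := hφ0 y
        nlinarith
      · have h1 := hφ.slope_mono_adjacent (mem_univ y1) (mem_univ y) h12 hy
        have h2 : 0 < y - y2 := by linarith
        rw [← ha, le_div_iff₀ h2] at h1
        have h3 := hφ0 y2
        rcases le_total y 0 with h4 | h4
        · rw [max_eq_right h4]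
          have := hφ0 y
          nlinarith
        · rw [max_eq_left h4]
          nlinarith
    · refine ⟨(φ y1 - φ y2) / (y2 - y1), (φ y1 - φ y2) / (y2 - y1) * |y1|,
        div_pos (by linarith) h0, by
          have : 0 < (φ y1 - φ y2) / (y2 - y1) := div_pos (by linarith) h0
          positivity, Or.inr fun y => ?_⟩
      set a := (φ y1 - φ y2) / (y2 - y1) with ha
      have ha0 : 0 < a := div_pos (by linarith) h0
      have habs := neg_abs_le y1
      have habs0 := abs_nonneg y1
      rcases le_or_gt y1 y with hy | hy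
      · have h1 : max (-y) 0 ≤ |y1| := max_le (by linarith) habs0
        have h2 := hφ0 y
        nlinarith
      · have h1 := hφ.slope_mono_adjacent (mem_univ y) (mem_univ y2) hy h12
        have h2 : 0 < y1 - y := by linarith
        have h3 := hφ0 y1
        have h5 : (φ y2 - φ y1) / (y2 - y1) = -a := by rw [ha]; ring
        rw [h5, div_le_iff₀ h2] at h1
        rcases le_total (-y) 0 with h4 | h4
        · rw [max_eq_right h4]
          have := hφ0 y
          nlinarith
        · rw [max_eq_left h4]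
          nlinarith
  obtain ⟨y1, y2, h⟩ := hne
  rcases lt_trichotomy y1 y2 with h1 | h1 | h1
  · exact main y1 y2 h1 h
  · exact absurd (by rw [h1]) h
  · exact main y2 y1 h1 h.symm

section Torus

local instance : MeasureSpace UnitAddCircle := ⟨AddCircle.haarAddCircle⟩
local instance : Measure.IsAddHaarMeasure (volume : Measure UnitAddCircle) :=
  inferInstanceAs (Measure.IsAddHaarMeasure AddCircle.haarAddCircle)
local instance : IsProbabilityMeasure (volume : Measure UnitAddCircle) :=
  inferInstanceAs (IsProbabilityMeasure AddCircle.haarAddCircle)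

variable {I : Type*} [Fintype I] {A T : Type*} [MeasurableSpace A]

/-- the point of the torus -/
def tpt (lam : I → ℝ) (w : A → ℝ) (x : A) : UnitAddTorus I :=
  fun i => ((lam i * w x : ℝ) : UnitAddCircle)

lemma tpt_measurable (lam : I → ℝ) {w : A → ℝ} (hw : Measurable w) : Measurable (tpt lam w) := by
  refine measurable_pi_lambda _ fun i => ?_
  exact AddCircle.measurable_mk'.comp (hw.const_mul _)

lemma mFourier_tpt (lam : I → ℝ) (w : A → ℝ) (c : I → ℤ) (x : A) :
    mFourier c (tpt lam w x) = cexp (2 * Real.pi * Complex.I *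
      ((∑ i, (c i : ℝ) * lam i : ℝ) : ℂ) * w x) := by
  simp only [mFourier, ContinuousMap.coe_mk, tpt, fourier_coe_apply]
  rw [← Complex.exp_sum]
  congr 1
  push_cast
  rw [Finset.mul_sum, Finset.sum_mul]
  refine Finset.sum_congr rfl fun i _ => ?_
  field_simp

lemma comp_integrable {μ : Measure A} [IsFiniteMeasure μ] (lam : I → ℝ) {w : A → ℝ}
    (hw : Measurable w) (H : C(UnitAddTorus I, ℂ)) : Integrable (fun x => H (tpt lam w x)) μ := by
  refine Integrable.of_bound
    (H.continuous.measurable.comp (tpt_measurable lam hw)).aestronglyMeasurable ‖H‖ ?_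
  exact Eventually.of_forall fun x => H.norm_coe_le_norm _

lemma norm_coeff_le (H : C(UnitAddTorus I, ℂ)) (c : I → ℤ) :
    ‖mFourierCoeff (fun x => H x) c‖ ≤ ‖H‖ := by
  unfold mFourierCoeff
  refine (norm_integral_le_of_norm_le_const (C := ‖H‖) (Eventually.of_forall fun x => ?_)).trans ?_
  · rw [norm_smul]
    calc ‖mFourier (-c) x‖ * ‖H x‖ ≤ 1 * ‖H‖ := by
          gcongr
          · exact ((mFourier (-c)).norm_coe_le_norm x).trans (le_of_eq mFourier_norm)
          · exact H.norm_coe_le_norm x
      _ = _ := one_mul _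
  · simp

variable {l : Filter T} {mu : T → Measure A} {w : A → ℝ} {lam : I → ℝ} {m : ℝ}

/-- **Weyl**: means of continuous functions on the torus -/
theorem weyl (hfin : ∀ t, IsFiniteMeasure (mu t)) (hw : Measurable w) (hm0 : 0 < m)
    (hm : Tendsto (fun t => (mu t).real univ) l (𝓝 m))
    (h1 : ∀ c : I → ℤ, c ≠ 0 → Tendsto (fun t => ∫ x, cexp (2 * Real.pi * Complex.I *
      ((∑ i, (c i : ℝ) * lam i : ℝ) : ℂ) * w x) ∂(mu t)) l (𝓝 0)) (H : C(UnitAddTorus I, ℂ)) :
    Tendsto (fun t => ∫ x, H (tpt lam w x) ∂(mu t)) l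
      (𝓝 ((m : ℂ) * mFourierCoeff (fun x => H x) 0)) := by
  classical
  -- trigonometric polynomials
  have hspan : ∀ R ∈ Submodule.span ℂ (range (mFourier (d := I))),
      Tendsto (fun t => ∫ x, R (tpt lam w x) ∂(mu t)) l
      (𝓝 ((m : ℂ) * mFourierCoeff (fun x => R x) 0)) := by
    intro R hR
    induction hR using Submodule.span_induction with
    | mem R hR =>
      obtain ⟨c, rfl⟩ := hR
      rw [coeff_mFourier]
      by_cases hc : c = 0
      · rw [if_pos hc, mul_one, hc]
        have h2 : Tendsto (fun t => (((mu t).real univ : ℝ) : ℂ)) l (𝓝 (m : ℂ)) :=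
          (continuous_ofReal.tendsto _).comp hm
        refine h2.congr fun t => ?_
        have := hfin t
        simp only [mFourier_zero, ContinuousMap.one_apply]
        rw [integral_const]
        simp
      · rw [if_neg hc, mul_zero]
        refine (h1 c hc).congr fun t => ?_
        congr 1
        funext x
        rw [mFourier_tpt]
    | zero =>
      have e : (fun x : UnitAddTorus I => (0 : C(UnitAddTorus I, ℂ)) x) = fun x => (0 : ℂ) * 0 := by
        funext x; simp
      rw [e, coeff_smul (0 : ℂ) (fun _ => 0) 0]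
      simp only [ContinuousMap.zero_apply, integral_zero, zero_mul, mul_zero]
      exact tendsto_const_nhds
    | add R1 R2 _ _ ih1 ih2 =>
      have e : (fun x => (R1 + R2) x) = fun x => R1 x + R2 x := rfl
      rw [e, coeff_add, mul_add]
      refine (ih1.add ih2).congr fun t => ?_
      have := hfin t
      rw [← integral_add (comp_integrable lam hw R1) (comp_integrable lam hw R2)]
      rfl
    | smul a R _ ih =>
      have e : (fun x => (a • R) x) = fun x => a * R x := rfl
      rw [e, coeff_smul, mul_left_comm]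
      refine (ih.const_mul a).congr fun t => ?_
      rw [← integral_const_mul]
      rfl
  -- closure
  rw [Metric.tendsto_nhds]
  intro ε hε
  have hcl : H ∈ (Submodule.span ℂ (range (mFourier (d := I)))).topologicalClosure := by
    rw [span_mFourier_closure_eq_top]; exact Submodule.mem_top
  have hcl' : H ∈ closure (Submodule.span ℂ (range (mFourier (d := I))) : Set C(UnitAddTorus I, ℂ)) :=
    hcl
  rw [Metric.mem_closure_iff] at hcl'
  have hδ : 0 < ε / (4 * (m + 1)) := by positivity
  obtain ⟨R, hR, hRd⟩ := hcl' _ hδ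
  have hR1 := hspan R hR
  rw [Metric.tendsto_nhds] at hR1
  rw [dist_eq_norm] at hRd
  filter_upwards [hR1 (ε / 4) (by positivity), hm.eventually (gt_mem_nhds (lt_add_one m))]
    with t h3 h4
  have := hfin t
  rw [dist_eq_norm] at h3 ⊢
  have h5 : ‖(∫ x, H (tpt lam w x) ∂(mu t)) - ∫ x, R (tpt lam w x) ∂(mu t)‖ ≤ ε / 4 := by
    rw [← integral_sub (comp_integrable lam hw H) (comp_integrable lam hw R)]
    refine (norm_integral_le_of_norm_le_const (C := ε / (4 * (m + 1)))
      (Eventually.of_forall fun x => ?_)).trans ?_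
    · exact ((H - R).norm_coe_le_norm (tpt lam w x)).trans hRd.le
    · calc ε / (4 * (m + 1)) * (mu t).real univ ≤ ε / (4 * (m + 1)) * (m + 1) := by gcongr
        _ = ε / 4 := by field_simp
  have h6 : ‖(m : ℂ) * mFourierCoeff (fun x => R x) 0 - (m : ℂ) * mFourierCoeff (fun x => H x) 0‖ ≤
      ε / 4 := by
    have e : (fun x => (R - H) x) = fun x => R x + (((-1 : ℂ) • H : C(UnitAddTorus I, ℂ))) x := by
      funext x; simp; ring
    have e2 : mFourierCoeff (fun x => (R - H) x) 0 =
        mFourierCoeff (fun x => R x) 0 - mFourierCoeff (fun x => H x) 0 := by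
      rw [e, coeff_add]
      have e3 : (fun x => ((-1 : ℂ) • H : C(UnitAddTorus I, ℂ)) x) = fun x => (-1 : ℂ) * H x := rfl
      rw [e3, coeff_smul]; ring
    rw [← mul_sub, ← e2, norm_mul, norm_real, Real.norm_eq_abs, abs_of_pos hm0]
    have h7 := norm_coeff_le (R - H) 0
    rw [norm_sub_rev] at h7
    calc m * ‖mFourierCoeff (fun x => (R - H) x) 0‖ ≤ (m + 1) * (ε / (4 * (m + 1))) := by
          gcongr
          · linarith
          · exact h7.trans hRd.le
      _ = ε / 4 := by field_simp
  calc ‖(∫ x, H (tpt lam w x) ∂(mu t)) - (m : ℂ) * mFourierCoeff (fun x => H x) 0‖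
      = ‖((∫ x, H (tpt lam w x) ∂(mu t)) - ∫ x, R (tpt lam w x) ∂(mu t)) +
        ((∫ x, R (tpt lam w x) ∂(mu t)) - (m : ℂ) * mFourierCoeff (fun x => R x) 0) +
        ((m : ℂ) * mFourierCoeff (fun x => R x) 0 - (m : ℂ) * mFourierCoeff (fun x => H x) 0)‖ := by
        congr 1; ring
    _ ≤ ε / 4 + ε / 4 + ε / 4 := by
        refine (norm_add_le _ _).trans (add_le_add ((norm_add_le _ _).trans
          (add_le_add h5 h3.le)) h6)
    _ < ε := by linarith

/-- coefficient of a product with a monomial -/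
lemma coeff_mul_mono (G : C(UnitAddTorus I, ℂ)) (c : I → ℤ) :
    mFourierCoeff (fun x => (mFourier c * G) x) 0 = mFourierCoeff (fun x => G x) (-c) := by
  unfold mFourierCoeff
  congr 1
  funext t
  rw [neg_neg, neg_zero, mFourier_zero]
  simp

lemma prod_integrable {μ : Measure A} [IsFiniteMeasure μ] (lam : I → ℝ) {w : A → ℝ}
    (hw : Measurable w) (H : C(UnitAddTorus I, ℂ)) {F : A → ℝ} (hF : Integrable F μ) :
    Integrable (fun x => H (tpt lam w x) * (F x : ℂ)) μ := by
  refine Integrable.bdd_mul (c := ‖H‖) hF.ofReal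
    (H.continuous.measurable.comp (tpt_measurable lam hw)).aestronglyMeasurable ?_
  exact Eventually.of_forall fun x => H.norm_coe_le_norm _

/-- **coupling**: trigonometric polynomials do not see the difference `F - G` -/
theorem coupling (hfin : ∀ t, IsFiniteMeasure (mu t)) (hw : Measurable w) (hm0 : 0 < m)
    (hm : Tendsto (fun t => (mu t).real univ) l (𝓝 m))
    (h1 : ∀ c : I → ℤ, c ≠ 0 → Tendsto (fun t => ∫ x, cexp (2 * Real.pi * Complex.I *
      ((∑ i, (c i : ℝ) * lam i : ℝ) : ℂ) * w x) ∂(mu t)) l (𝓝 0))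
    {F : A → ℝ} (hF : ∀ᶠ t in l, Integrable F (mu t)) (G : C(UnitAddTorus I, ℝ))
    (h2 : ∀ c : I → ℤ, Tendsto (fun t => ∫ x, (F x : ℂ) * cexp (-(2 * Real.pi * Complex.I *
      ((∑ i, (c i : ℝ) * lam i : ℝ) : ℂ) * w x)) ∂(mu t)) l
      (𝓝 ((m : ℂ) * mFourierCoeff (fun x => ((G x : ℝ) : ℂ)) c)))
    {R : C(UnitAddTorus I, ℂ)} (hR : R ∈ Submodule.span ℂ (range (mFourier (d := I)))) :
    Tendsto (fun t => ∫ x, R (tpt lam w x) * (((F x - G (tpt lam w x) : ℝ)) : ℂ) ∂(mu t)) l
      (𝓝 0) := by
  set GC : C(UnitAddTorus I, ℂ) := ⟨fun x => ((G x : ℝ) : ℂ),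
    continuous_ofReal.comp G.continuous⟩ with hGC
  have hi : ∀ (t : T) (hFt : Integrable F (mu t)) (R : C(UnitAddTorus I, ℂ)),
      Integrable (fun x => R (tpt lam w x) * (((F x - G (tpt lam w x) : ℝ)) : ℂ)) (mu t) := by
    intro t hFt R
    have := hfin t
    have e : (fun x => R (tpt lam w x) * (((F x - G (tpt lam w x) : ℝ)) : ℂ)) =
        fun x => R (tpt lam w x) * (F x : ℂ) - (R * GC) (tpt lam w x) := by
      funext x
      simp only [ContinuousMap.mul_apply, hGC, ContinuousMap.coe_mk]
      push_cast; ring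
    rw [e]
    exact (prod_integrable lam hw R hFt).sub (comp_integrable lam hw _)
  induction hR using Submodule.span_induction with
  | mem R hR =>
    obtain ⟨c, rfl⟩ := hR
    have h3 := h2 (-c)
    have h4 := weyl hfin hw hm0 hm h1 (mFourier c * GC)
    rw [coeff_mul_mono] at h4
    have h5 := h3.sub h4
    have e0 : (m : ℂ) * mFourierCoeff (fun x => ((G x : ℝ) : ℂ)) (-c) -
      (m : ℂ) * mFourierCoeff (fun x => GC x) (-c) = 0 := sub_self _
    rw [e0] at h5
    refine h5.congr' ?_
    filter_upwards [hF] with t hFt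
    have := hfin t
    have e1 : ∀ x, (F x : ℂ) * cexp (-(2 * Real.pi * Complex.I *
        ((∑ i, (((-c) i : ℤ) : ℝ) * lam i : ℝ) : ℂ) * w x)) =
        mFourier c (tpt lam w x) * (F x : ℂ) := by
      intro x
      rw [mFourier_tpt, mul_comm]
      congr 2
      simp only [Pi.neg_apply]
      push_cast
      simp only [neg_mul, Finset.sum_neg_distrib]
      ring
    simp only [e1]
    rw [← integral_sub (prod_integrable lam hw (mFourier c) hFt) (comp_integrable lam hw _)]
    congr 1
    funext x
    simp only [ContinuousMap.mul_apply, hGC, ContinuousMap.coe_mk]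
    push_cast; ring
  | zero =>
    simp only [ContinuousMap.zero_apply, zero_mul, integral_zero]
    exact tendsto_const_nhds
  | add R1 R2 _ _ ih1 ih2 =>
    have h3 := ih1.add ih2
    rw [add_zero] at h3
    refine h3.congr' ?_
    filter_upwards [hF] with t hFt
    rw [← integral_add (hi t hFt R1) (hi t hFt R2)]
    congr 1
    funext x
    simp only [ContinuousMap.add_apply]; ring
  | smul a R _ ih =>
    have h3 := ih.const_mul a
    rw [mul_zero] at h3
    refine h3.congr fun t => ?_
    rw [← integral_const_mul]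
    congr 1
    funext x
    simp only [ContinuousMap.smul_apply, smul_eq_mul]; ring

/-- the zeroth coefficient as an integral over the cube -/
lemma coeff_zero_cube (H : C(UnitAddTorus I, ℝ)) :
    mFourierCoeff (fun x => ((H x : ℝ) : ℂ)) 0 =
      ((∫ u in {u : I → ℝ | ∀ i, u i ∈ Ioc (0 : ℝ) 1}, H (fun i => (u i : UnitAddCircle)) : ℝ) : ℂ) := by
  rw [mFourierCoeff_eq_integral _ _ (fun _ => 0), ← integral_complex_ofReal]
  simp only [zero_add, neg_zero, mFourier_zero, ContinuousMap.one_apply, one_smul]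

end Torus

/-- **lower bound in convex order** -/
theorem convex_order {I : Type*} [Fintype I] {A T : Type*} [MeasurableSpace A] {l : Filter T}
    (mu : T → Measure A) (F w : A → ℝ) (hwm : Measurable w)
    (lam : I → ℝ) (G : C(UnitAddTorus I, ℝ)) {m : ℝ} (hm0 : 0 < m)
    (hfin : ∀ t, IsFiniteMeasure (mu t)) (hF : ∀ᶠ t in l, Integrable F (mu t))
    (hm : Tendsto (fun t => (mu t).real univ) l (𝓝 m))
    (h1 : ∀ c : I → ℤ, c ≠ 0 → Tendsto (fun t => ∫ x, cexp (2 * Real.pi * Complex.I *
      ((∑ i, (c i : ℝ) * lam i : ℝ) : ℂ) * w x) ∂(mu t)) l (𝓝 0))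
    (h2 : ∀ c : I → ℤ, Tendsto (fun t => ∫ x, (F x : ℂ) * cexp (-(2 * Real.pi * Complex.I *
      ((∑ i, (c i : ℝ) * lam i : ℝ) : ℂ) * w x)) ∂(mu t)) l
      (𝓝 ((m : ℂ) * mFourierCoeff (fun x => ((G x : ℝ) : ℂ)) c)))
    {φ : ℝ → ℝ} (hφ : ConvexOn ℝ univ φ) (hφ0 : ∀ y, 0 ≤ φ y)
    (hφF : ∀ᶠ t in l, Integrable (fun x => φ (F x)) (mu t)) {c : ℝ}
    (hc : c < m * ∫ u in {u : I → ℝ | ∀ i, u i ∈ Ioc (0 : ℝ) 1},
      φ (G (fun i => (u i : UnitAddCircle)))) :
    ∀ᶠ t in l, c ≤ ∫ x, φ (F x) ∂(mu t) := by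
  have hφc : Continuous φ := continuousOn_univ.1 (hφ.continuousOn isOpen_univ)
  set E := ∫ u in {u : I → ℝ | ∀ i, u i ∈ Ioc (0 : ℝ) 1},
      φ (G (fun i => (u i : UnitAddCircle))) with hE
  -- the mean of φ(G)
  set φG : C(UnitAddTorus I, ℝ) := ⟨fun x => φ (G x), hφc.comp G.continuous⟩ with hφG
  have hmean : Tendsto (fun t => ∫ x, φ (G (tpt lam w x)) ∂(mu t)) l (𝓝 (m * E)) := by
    have h3 := weyl hfin hwm hm0 hm h1 ⟨fun x => ((φG x : ℝ) : ℂ),
      continuous_ofReal.comp φG.continuous⟩
    have h4 := coeff_zero_cube φG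
    have h5 : mFourierCoeff (fun x => (⟨fun x => ((φG x : ℝ) : ℂ),
      continuous_ofReal.comp φG.continuous⟩ : C(UnitAddTorus I, ℂ)) x) 0 = ((E : ℝ) : ℂ) := h4
    rw [h5, ← ofReal_mul] at h3
    have h6 := (continuous_re.tendsto _).comp h3
    rw [ofReal_re] at h6
    refine h6.congr fun t => ?_
    simp only [Function.comp_apply, ContinuousMap.coe_mk, hφG]
    rw [integral_complex_ofReal, ofReal_re]
  by_cases hne : ∃ y1 y2, φ y1 ≠ φ y2
  swap
  · push Not at hne
    filter_upwards [hmean.eventually (lt_mem_nhds hc)] with t ht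
    refine ht.le.trans (le_of_eq ?_)
    congr 1
    funext x
    exact hne _ _
  obtain ⟨a, b, ha, hb, hgrow⟩ := convex_growth hφ hφ0 hne
  set B := ‖G‖ with hB
  have hB0 : 0 ≤ B := norm_nonneg _
  have hGB : ∀ x, |G x| ≤ B := fun x => G.norm_coe_le_norm x
  set δ := (m * E - c) / 4 with hδ
  have hδ0 : 0 < δ := by rw [hδ]; linarith
  -- uniform continuity
  have huc : UniformContinuousOn φ (Icc (-(B + 1)) (B + 1)) :=
    isCompact_Icc.uniformContinuousOn_of_continuous hφc.continuousOn
  set ε2 := δ / (2 * (m + 1)) with hε2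
  have hε20 : 0 < ε2 := by positivity
  obtain ⟨h', hh'0, hh'⟩ := Metric.uniformContinuousOn_iff_le.1 huc ε2 hε20
  set h := min h' 1 with hh
  have hh0 : 0 < h := lt_min hh'0 one_pos
  have hh1 : h ≤ 1 := min_le_right _ _
  have hω : ∀ u ∈ Icc (-(B + 1)) (B + 1), ∀ v ∈ Icc (-(B + 1)) (B + 1), |u - v| ≤ h →
      |φ u - φ v| ≤ ε2 := by
    intro u hu v hv huv
    have := hh' u hu v hv (by rw [Real.dist_eq]; exact huv.trans (min_le_left _ _))
    rwa [Real.dist_eq] at this
  set sl : ℝ → ℝ := fun y => (φ (y + h) - φ y) / h with hsl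
  have hslc : Continuous sl := by
    rw [hsl]
    exact ((hφc.comp (continuous_id.add continuous_const)).sub hφc).div_const _
  set sG : C(UnitAddTorus I, ℂ) := ⟨fun x => ((sl (G x) : ℝ) : ℂ),
    continuous_ofReal.comp (hslc.comp G.continuous)⟩ with hsG
  -- constants
  set g0 : ℝ := ∫ u in {u : I → ℝ | ∀ i, u i ∈ Ioc (0 : ℝ) 1},
      G (fun i => (u i : UnitAddCircle)) with hg0
  set K0 : ℝ := |m * g0| + 1 with hK0
  set K2 : ℝ := K0 + 2 * (|c| + b * (m + 1)) / a with hK2
  have hK20 : 0 ≤ K2 := by positivity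
  set ε1 := δ / (K2 + B * (m + 1) + 1) with hε1
  have hε10 : 0 < ε1 := by positivity
  have hcl : sG ∈ (Submodule.span ℂ (range (mFourier (d := I)))).topologicalClosure := by
    rw [span_mFourier_closure_eq_top]; exact Submodule.mem_top
  have hcl' : sG ∈ closure (Submodule.span ℂ (range (mFourier (d := I))) :
      Set C(UnitAddTorus I, ℂ)) := hcl
  rw [Metric.mem_closure_iff] at hcl'
  obtain ⟨R, hR, hRd⟩ := hcl' _ hε10
  rw [dist_eq_norm] at hRd
  have hD := coupling hfin hwm hm0 hm h1 hF G h2 hR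
  rw [tendsto_zero_iff_norm_tendsto_zero] at hD
  -- mean of F
  have hFm : Tendsto (fun t => ∫ x, F x ∂(mu t)) l (𝓝 (m * g0)) := by
    have h3 := h2 0
    rw [coeff_zero_cube, ← ofReal_mul] at h3
    have h6 := (continuous_re.tendsto _).comp h3
    rw [ofReal_re] at h6
    refine h6.congr fun t => ?_
    simp only [Function.comp_apply, Pi.zero_apply, Int.cast_zero, zero_mul, Finset.sum_const_zero,
      ofReal_zero, mul_zero, neg_zero, Complex.exp_zero, mul_one]
    rw [integral_complex_ofReal, ofReal_re]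
  filter_upwards [hmean.eventually (lt_mem_nhds (by linarith : m * E - δ < m * E)),
    hD.eventually (gt_mem_nhds hδ0), hm.eventually (gt_mem_nhds (lt_add_one m)),
    (hFm.abs).eventually (gt_mem_nhds (lt_add_one |m * g0|)), hF, hφF] with t e1 e2 e3 e4 hFt hφt
  have := hfin t
  set At := ∫ x, |F x| ∂(mu t) with hAt
  have hmass0 : 0 ≤ (mu t).real univ := measureReal_nonneg
  -- growth
  have hlow : a / 2 * (At - K0) - b * (m + 1) ≤ ∫ x, φ (F x) ∂(mu t) := by
    rcases hgrow with hg | hg
    · have h3 : ∫ x, (a / 2 * (|F x| + F x) - b) ∂(mu t) ≤ ∫ x, φ (F x) ∂(mu t) := by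
        refine integral_mono (((hFt.abs.add hFt).const_mul _).sub (integrable_const _)) hφt fun x => ?_
        refine le_trans (le_of_eq ?_) (hg (F x))
        rw [max_def]
        split_ifs with h
        · rw [abs_of_nonpos h]; ring
        · rw [abs_of_pos (not_le.1 h)]; ring
      have k1 : ∫ x, (a / 2 * (|F x| + F x) - b) ∂(mu t) =
          (∫ x, a / 2 * (|F x| + F x) ∂(mu t)) - ∫ x, b ∂(mu t) :=
        integral_sub ((hFt.abs.add hFt).const_mul _) (integrable_const _)
      have k2 : ∫ x, (|F x| + F x) ∂(mu t) = At + ∫ x, F x ∂(mu t) := integral_add hFt.abs hFt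
      rw [k1, integral_const_mul, k2, integral_const] at h3
      refine le_trans ?_ h3
      have h4 := neg_abs_le (∫ x, F x ∂(mu t))
      simp only [smul_eq_mul]
      have h5 : (mu t).real univ * b ≤ b * (m + 1) := by nlinarith
      have h6 : a / 2 * (At - K0) ≤ a / 2 * (At + ∫ x, F x ∂(mu t)) := by
        gcongr
        linarith
      linarith
    · have h3 : ∫ x, (a / 2 * (|F x| - F x) - b) ∂(mu t) ≤ ∫ x, φ (F x) ∂(mu t) := by
        refine integral_mono (((hFt.abs.sub hFt).const_mul _).sub (integrable_const _)) hφt fun x => ?_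
        refine le_trans (le_of_eq ?_) (hg (F x))
        rw [max_def]
        split_ifs with h
        · rw [abs_of_nonneg (by linarith)]; ring
        · rw [abs_of_neg (by linarith [not_le.1 h])]; ring
      have k1 : ∫ x, (a / 2 * (|F x| - F x) - b) ∂(mu t) =
          (∫ x, a / 2 * (|F x| - F x) ∂(mu t)) - ∫ x, b ∂(mu t) :=
        integral_sub ((hFt.abs.sub hFt).const_mul _) (integrable_const _)
      have k2 : ∫ x, (|F x| - F x) ∂(mu t) = At - ∫ x, F x ∂(mu t) := integral_sub hFt.abs hFt
      rw [k1, integral_const_mul, k2, integral_const] at h3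
      refine le_trans ?_ h3
      have h4 := le_abs_self (∫ x, F x ∂(mu t))
      simp only [smul_eq_mul]
      have h5 : (mu t).real univ * b ≤ b * (m + 1) := by nlinarith
      have h6 : a / 2 * (At - K0) ≤ a / 2 * (At - ∫ x, F x ∂(mu t)) := by
        gcongr
        linarith
      linarith
  rcases le_or_gt K2 At with hA | hA
  · refine le_trans ?_ hlow
    have h3 : a / 2 * (K2 - K0) = |c| + b * (m + 1) := by
      rw [hK2]; field_simp; ring
    have h4 : a / 2 * (K2 - K0) ≤ a / 2 * (At - K0) := by gcongr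
    have := le_abs_self c
    linarith
  · -- the coupling estimate
    set D : A → ℂ := fun x => R (tpt lam w x) * (((F x - G (tpt lam w x) : ℝ)) : ℂ) with hDdef
    have hDi : Integrable D (mu t) := by
      have e : D = fun x => R (tpt lam w x) * (F x : ℂ) -
          (R * ⟨fun x => ((G x : ℝ) : ℂ), continuous_ofReal.comp G.continuous⟩ :
            C(UnitAddTorus I, ℂ)) (tpt lam w x) := by
        funext x
        simp only [hDdef, ContinuousMap.mul_apply, ContinuousMap.coe_mk]
        push_cast; ring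
      rw [e]
      exact (prod_integrable lam hwm R hFt).sub (comp_integrable lam hwm _)
    have hGi : Integrable (fun x => φ (G (tpt lam w x))) (mu t) := by
      have := (comp_integrable (μ := mu t) lam hwm (⟨fun x => ((φG x : ℝ) : ℂ),
        continuous_ofReal.comp φG.continuous⟩ : C(UnitAddTorus I, ℂ))).re
      exact this
    have hpt : ∀ x, φ (G (tpt lam w x)) + (D x).re - ε1 * (|F x| + B) - 2 * ε2 ≤ φ (F x) := by
      intro x
      set y := G (tpt lam w x) with hy
      have h3 := slope_ineq hφ hh0 hh1 hω (hGB (tpt lam w x)) (F x)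
      rw [← hy] at h3
      have h4 : (D x).re - ε1 * (|F x| + B) ≤ (φ (y + h) - φ y) / h * (F x - y) := by
        have e5 : (((φ (y + h) - φ y) / h * (F x - y) : ℝ) : ℂ) =
            D x + (sG - R) (tpt lam w x) * ((F x - y : ℝ) : ℂ) := by
          simp only [hDdef, ContinuousMap.sub_apply, hsG, ContinuousMap.coe_mk, hsl, ← hy]
          push_cast; ring
        have e6 := congrArg re e5
        rw [ofReal_re, add_re] at e6
        have h7 : |((sG - R) (tpt lam w x) * ((F x - y : ℝ) : ℂ)).re| ≤ ε1 * (|F x| + B) := by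
          refine (abs_re_le_norm _).trans ?_
          rw [norm_mul, norm_real, Real.norm_eq_abs]
          have h8 : ‖(sG - R) (tpt lam w x)‖ ≤ ε1 :=
            ((sG - R).norm_coe_le_norm _).trans hRd.le
          have h9 : |F x - y| ≤ |F x| + B := (abs_sub _ _).trans (by
            have := hGB (tpt lam w x)
            rw [← hy] at this; linarith)
          gcongr
        have := (abs_le.1 h7).1
        linarith
      linarith
    have hint2 : Integrable (fun x => ε1 * (|F x| + B)) (mu t) :=
      (hFt.abs.add (integrable_const _)).const_mul _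
    have hfinal : ∫ x, (φ (G (tpt lam w x)) + (D x).re - ε1 * (|F x| + B) - 2 * ε2) ∂(mu t) ≤
        ∫ x, φ (F x) ∂(mu t) :=
      integral_mono (((hGi.add hDi.re).sub hint2).sub (integrable_const _)) hφt hpt
    have hcomp : ∫ x, (φ (G (tpt lam w x)) + (D x).re - ε1 * (|F x| + B) - 2 * ε2) ∂(mu t) =
        (∫ x, φ (G (tpt lam w x)) ∂(mu t)) + (∫ x, D x ∂(mu t)).re -
        ε1 * (At + (mu t).real univ * B) - (mu t).real univ * (2 * ε2) := by
      have i1 : ∫ x, (φ (G (tpt lam w x)) + (D x).re - ε1 * (|F x| + B) - 2 * ε2) ∂(mu t) =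
          (∫ x, (φ (G (tpt lam w x)) + (D x).re - ε1 * (|F x| + B)) ∂(mu t)) -
          ∫ x, (2 * ε2) ∂(mu t) := integral_sub ((hGi.add hDi.re).sub hint2) (integrable_const _)
      have i2 : ∫ x, (φ (G (tpt lam w x)) + (D x).re - ε1 * (|F x| + B)) ∂(mu t) =
          (∫ x, (φ (G (tpt lam w x)) + (D x).re) ∂(mu t)) -
          ∫ x, ε1 * (|F x| + B) ∂(mu t) := integral_sub (hGi.add hDi.re) hint2
      have i3 : ∫ x, (φ (G (tpt lam w x)) + (D x).re) ∂(mu t) =
          (∫ x, φ (G (tpt lam w x)) ∂(mu t)) + ∫ x, (D x).re ∂(mu t) := integral_add hGi hDi.re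
      have i4 : ∫ x, (D x).re ∂(mu t) = (∫ x, D x ∂(mu t)).re := integral_re hDi
      have i5 : ∫ x, ε1 * (|F x| + B) ∂(mu t) = ε1 * (At + (mu t).real univ * B) := by
        rw [integral_const_mul, integral_add hFt.abs (integrable_const _), integral_const,
          smul_eq_mul]
      rw [i1, i2, i3, i4, i5, integral_const, smul_eq_mul]
    rw [hcomp] at hfinal
    refine le_trans ?_ hfinal
    have j1 : -δ ≤ (∫ x, D x ∂(mu t)).re := by
      have := neg_abs_le (∫ x, D x ∂(mu t)).re
      have h8 := abs_re_le_norm (∫ x, D x ∂(mu t))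
      linarith [e2.le]
    have j2 : ε1 * (At + (mu t).real univ * B) ≤ δ := by
      have h8 : At + (mu t).real univ * B ≤ K2 + B * (m + 1) + 1 := by nlinarith
      calc ε1 * (At + (mu t).real univ * B) ≤ ε1 * (K2 + B * (m + 1) + 1) := by gcongr
        _ = δ := by rw [hε1]; field_simp
    have j3 : (mu t).real univ * (2 * ε2) ≤ δ := by
      calc (mu t).real univ * (2 * ε2) ≤ (m + 1) * (2 * ε2) := by gcongr
        _ = δ := by rw [hε2]; field_simp
    have j4 : c = m * E - 4 * δ := by rw [hδ]; ring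
    linarith

end

end Pool.Agent.Lib.MP_bc6037_nt
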