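import Mathlib
import Pool.Agent.Lib.MP_bc6037_nt.ConvexOrder
import Pool.Agent.Lib.MP_bc6037_nt.Besicovitch

set_option autoImplicit false

/-!
Lower bound in convex order over short intervals.
-/

open Complex Filter Topology Set MeasureTheory UnitAddTorus
open scoped ContDiff ComplexConjugate

namespace Pool.Agent.Lib.MP_bc6037_nt

open DeltaMellin ZetaGrowth

noncomputable section

variable {k : ℕ} {ψ : ℝ → ℝ} {κ ε : ℝ}

/-- convex-order bound over the smooth windows -/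
theorem window_convex (hk : 2 ≤ k) {P : Polynomial ℝ} {Z : ℂ → ℂ}
    (hZ : DifferentiableOn ℂ Z {s : ℂ | 0 < s.re})
    (hZ' : ∀ s : ℂ, 0 < s.re → s ≠ 1 → Z s = riemannZeta s ^ k / s - Q P s)
    {S : Finset ℕ} (hS : ∀ q ∈ S, 0 < q) (hI : RootIndep k S)
    (hψ : ContDiff ℝ ∞ ψ) (hc : HasCompactSupport ψ) (h0 : ∀ s, 0 ≤ ψ s) (h1 : ∀ s, ψ s ≤ 1)
    (hsupp : ∀ s, ψ s ≠ 0 → 0 < s ∧ s < 1) (hκ : 0 < κ) (hε : 0 < ε) (hε1 : ε < 1)
    (hm : 0 < ∫ s, ψ s) {φ : ℝ → ℝ} (hφ : ConvexOn ℝ univ φ) (hφ0 : ∀ y, 0 ≤ φ y) {c : ℝ}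
    (hcc : c < (∫ s, ψ s) * ∫ u in {u : S → ℝ | ∀ i, u i ∈ Ioc (0 : ℝ) 1},
      φ (∑ q : S, lawTerm k q (u q))) :
    ∀ᶠ V : ℝ in atTop, c ≤ ∫ x, φ (F0 k P x) ∂(wmeas k ψ κ ε V) := by
  have hk1 : 1 ≤ k := by omega
  set mu : ℝ → Measure ℝ := fun V => if 1 ≤ V then wmeas k ψ κ ε V else 0 with hmu
  have hmuV : ∀ V : ℝ, 1 ≤ V → mu V = wmeas k ψ κ ε V := fun V hV => if_pos hV
  have hfin : ∀ V, IsFiniteMeasure (mu V) := by
    intro V
    rw [hmu]; simp only
    split_ifs with hV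
    · exact wmeas_finite hk1 h0 h1 hsupp hκ (by linarith)
    · infer_instance
  have hφc : Continuous φ := by
    have := hφ.continuousOn isOpen_univ
    exact continuousOn_univ.1 this
  have key := convex_order (l := atTop) mu (F0 k P) (fun x => x ^ (1 / k : ℝ))
    (measurable_id.pow_const _) (lamS k S) (torusLaw hk hS) hm hfin
    (by
      filter_upwards [eventually_ge_atTop 1] with V hV
      rw [hmuV V hV]
      exact F0_integrable hk1 P hψ.continuous h0 h1 hsupp hκ (by linarith))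
    (by
      refine (mass_tendsto hk hψ.continuous hc h0 hsupp hκ hε hε1).congr' ?_
      filter_upwards [eventually_ge_atTop 1] with V hV
      rw [hmuV V hV])
    (by
      intro c' hc'
      refine (exp_coeff_tendsto hk hI hψ.continuous hc h0 hsupp hκ hε hε1 c' hc').congr' ?_
      filter_upwards [eventually_ge_atTop 1] with V hV
      rw [hmuV V hV]
      congr 1
      funext x
      congr 1
      push_cast
      ring)
    (by
      intro c'
      refine (coeff_tendsto hk hZ hZ' hS hI hψ hc h0 h1 hsupp hκ hε hε1 c').congr' ?_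
      filter_upwards [eventually_ge_atTop 1] with V hV
      rw [hmuV V hV]
      congr 1
      funext x
      congr 2
      push_cast
      ring)
    hφ hφ0
    (by
      filter_upwards [eventually_ge_atTop 1] with V hV
      rw [hmuV V hV]
      exact conv_integrable hk1 P hψ.continuous h0 h1 hsupp hκ (by linarith) hφc)
    (c := c) (by
      refine hcc.trans_le (le_of_eq ?_)
      congr 2
      funext u
      rw [torusLaw_real])
  filter_upwards [key, eventually_ge_atTop 1] with V h2 hV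
  rwa [hmuV V hV] at h2

/-- **convex-order bound over short intervals** -/
theorem short_convex (hk : 2 ≤ k) {P : Polynomial ℝ} {Z : ℂ → ℂ}
    (hZ : DifferentiableOn ℂ Z {s : ℂ | 0 < s.re})
    (hZ' : ∀ s : ℂ, 0 < s.re → s ≠ 1 → Z s = riemannZeta s ^ k / s - Q P s)
    {S : Finset ℕ} (hS : ∀ q ∈ S, 0 < q) (hI : RootIndep k S) {θ : ℝ}
    (hθ : 1 - 1 / (k : ℝ) < θ) (hθ1 : θ < 1)
    {φ : ℝ → ℝ} (hφ : ConvexOn ℝ univ φ) (hφ0 : ∀ y, 0 ≤ φ y) {c : ℝ}
    (hcc : c < ∫ u in {u : S → ℝ | ∀ i, u i ∈ Ioc (0 : ℝ) 1},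
      φ (∑ q : S, lawTerm k q (u q))) :
    ∀ᶠ X : ℝ in atTop, c * X ^ θ ≤ ∫ x in X..(X + X ^ θ), φ (F0 k P x) := by
  have hk1 : 1 ≤ k := by omega
  have hkp : (0 : ℝ) < k := by exact_mod_cast (by omega : 0 < k)
  have hkr : (2 : ℝ) ≤ k := by exact_mod_cast hk
  have hφc : Continuous φ := continuousOn_univ.1 (hφ.continuousOn isOpen_univ)
  set E := ∫ u in {u : S → ℝ | ∀ i, u i ∈ Ioc (0 : ℝ) 1}, φ (∑ q : S, lawTerm k q (u q)) with hE
  rcases le_or_gt c 0 with hc0 | hc0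
  · filter_upwards [eventually_gt_atTop 0] with X hX
    have h1 : 0 ≤ ∫ y in X..(X + X ^ θ), φ (F0 k P y) := by
      apply intervalIntegral.integral_nonneg
      · have := Real.rpow_pos_of_pos hX θ
        linarith
      · intro u _; exact hφ0 _
    have h2 := Real.rpow_pos_of_pos hX θ
    nlinarith
  have hE0 : 0 < E := hc0.trans hcc
  set ε : ℝ := k * θ - k + 1 with hε
  have hε0 : 0 < ε := by
    have h1 : (k : ℝ) * (1 - 1 / k) < k * θ := by gcongr
    have h2 : (k : ℝ) * (1 - 1 / k) = k - 1 := by field_simp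
    rw [hε]; linarith
  have hε1 : ε < 1 := by rw [hε]; nlinarith
  -- choice of the small parameter
  have hlim : Tendsto (fun η : ℝ => (1 - η) * (1 - η) * ((1 - 5 * η) * E)) (𝓝[>] 0) (𝓝 E) := by
    have h1 : ContinuousAt (fun η : ℝ => (1 - η) * (1 - η) * ((1 - 5 * η) * E)) 0 := by fun_prop
    have h3 := h1.tendsto
    have h2 : (1 - (0 : ℝ)) * (1 - 0) * ((1 - 5 * 0) * E) = E := by ring
    rw [h2] at h3
    exact h3.mono_left nhdsWithin_le_nhds
  obtain ⟨η, hη1, hη2, hη0⟩ : ∃ η : ℝ, c < (1 - η) * (1 - η) * ((1 - 5 * η) * E) ∧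
      η < 1 / 8 ∧ 0 < η := by
    have h1 := hlim.eventually (lt_mem_nhds hcc)
    have h2 : ∀ᶠ η : ℝ in 𝓝[>] 0, η < 1 / 8 :=
      nhdsWithin_le_nhds (Iio_mem_nhds (by norm_num))
    have h3 : ∀ᶠ η : ℝ in 𝓝[>] 0, 0 < η := self_mem_nhdsWithin
    exact (h1.and (h2.and h3)).exists
  obtain ⟨ψ, hψ, hψc, h0, h1, hsupp, hJ⟩ := exists_bump' hη0 (by linarith)
  set κ : ℝ := (1 - η) / k with hκdef
  have hκ : 0 < κ := div_pos (by linarith) hkp
  have hcl : (1 - 5 * η) * E < (∫ s, ψ s) * E := by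
    gcongr
    linarith
  have hB := window_convex hk hZ hZ' hS hI hψ hψc h0 h1 hsupp hκ hε0 hε1 (by linarith) hφ hφ0 hcl
  have hroot : Tendsto (fun X : ℝ => X ^ (1 / k : ℝ)) atTop atTop :=
    tendsto_rpow_atTop (by positivity)
  have hW := window_sub hk hθ1 hη0 (by linarith : η < 1) hsupp
  have hratio : Tendsto (fun X : ℝ => (1 + X ^ (-(1 - θ))) ^ pp k) atTop (𝓝 1) := by
    have h2 : Tendsto (fun X : ℝ => 1 + X ^ (-(1 - θ))) atTop (𝓝 1) := by
      have := (tendsto_rpow_neg_atTop (by linarith : 0 < 1 - θ)).const_add (1 : ℝ)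
      rwa [add_zero] at this
    have h3 := h2.rpow_const (p := pp k) (Or.inl one_ne_zero)
    rwa [Real.one_rpow] at h3
  have hrat2 : ∀ᶠ X : ℝ in atTop, (1 - η) * (1 + X ^ (-(1 - θ))) ^ pp k ≤ 1 := by
    have h2 : Tendsto (fun X : ℝ => (1 - η) * (1 + X ^ (-(1 - θ))) ^ pp k) atTop
      (𝓝 ((1 - η) * 1)) := hratio.const_mul _
    exact h2.eventually (ge_mem_nhds (by linarith))
  obtain ⟨Cg, hCg0, hCg⟩ := F0_bound k hk1 P
  filter_upwards [hroot.eventually hB, hW, hrat2, eventually_ge_atTop 1, hroot.eventually_ge_atTop 1]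
    with X h2 h3 h4 hX hV1
  have hX0 : 0 < X := by linarith
  have hXθ : 0 < X ^ θ := Real.rpow_pos_of_pos hX0 _
  set Y := X + X ^ θ with hY
  have hXY : X ≤ Y := by linarith
  have hY0 : 0 < Y := by linarith
  set V := X ^ (1 / k : ℝ) with hV
  have hV0 : 0 < V := Real.rpow_pos_of_pos hX0 _
  have hexp : V ^ bt k * HH κ ε V = κ * (X ^ pp k * X ^ θ) := by
    rw [hV, exp_one hk θ hX0 κ, pp, Real.rpow_add hX0, Real.rpow_add hX0, Real.rpow_one]
    ring
  have hD0 : 0 < k * (V ^ bt k * HH κ ε V) := by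
    have := HH_pos (ε := ε) hκ hV0
    have : 0 < V ^ bt k := Real.rpow_pos_of_pos hV0 _
    positivity
  set Mx := Y ^ pp k / (k * (V ^ bt k * HH κ ε V)) with hMx
  have hMx0 : 0 ≤ Mx := div_nonneg (Real.rpow_nonneg hY0.le _) hD0.le
  -- the density bound
  have hsupp' : ∀ x : ℝ, 0 < x → wdens k ψ κ ε V x ≠ 0 → X < x ∧ x ≤ Y := by
    intro x hx hne
    refine h3 x hx ?_
    intro h
    apply hne
    rw [wdens, Wn, h]; simp
  have hfinI : volume (Ioc X Y) ≠ ⊤ := by rw [Real.volume_Ioc]; exact ENNReal.ofReal_ne_top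
  have hint : IntegrableOn (fun x => φ (F0 k P x)) (Ioc X Y) := by
    set M := Cg * Y ^ (3 / 2 : ℝ) with hM
    obtain ⟨B, hB⟩ := (isCompact_Icc (a := -M) (b := M)).exists_bound_of_continuousOn
      hφc.continuousOn
    refine Measure.integrableOn_of_bounded (M := B) hfinI
      (hφc.measurable.comp (F0_measurable k P)).aestronglyMeasurable ?_
    filter_upwards [ae_restrict_mem measurableSet_Ioc] with y hy
    refine hB _ (abs_le.1 ?_)
    have hy1 : 1 ≤ y := hX.trans hy.1.le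
    refine (hCg y hy1).trans ?_
    rw [hM]
    have := hy.2
    gcongr
  have h5 : (1 - 5 * η) * E ≤ Mx * ∫ x in Ioc X Y, φ (F0 k P x) := by
    refine h2.trans ?_
    rw [integral_wmeas hψ.continuous h0 hκ hV0]
    have hsub : Ioc X Y ⊆ Ioi (1 : ℝ) := fun x hx => lt_of_le_of_lt hX hx.1
    have hzero : ∀ x ∈ Ioi (1 : ℝ) \ Ioc X Y, wdens k ψ κ ε V x • φ (F0 k P x) = 0 := by
      intro x hx
      have hx1 : (1 : ℝ) < x := hx.1
      have : wdens k ψ κ ε V x = 0 := by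
        by_contra hne
        exact hx.2 (hsupp' x (by linarith) hne)
      rw [this, zero_smul]
    rw [setIntegral_eq_of_subset_of_forall_sdiff_eq_zero measurableSet_Ioi hsub hzero,
      ← integral_const_mul]
    refine integral_mono_of_nonneg ?_ (hint.const_mul _) ?_
    · filter_upwards [ae_restrict_mem measurableSet_Ioc] with x hx
      have hx0 : 0 ≤ x := by linarith [hx.1]
      exact mul_nonneg (wdens_nonneg h0 hκ hV0 hx0) (hφ0 _)
    · filter_upwards [ae_restrict_mem measurableSet_Ioc] with x hx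
      have hx0 : 0 < x := by linarith [hx.1]
      simp only [smul_eq_mul]
      refine mul_le_mul_of_nonneg_right ?_ (hφ0 _)
      exact wdens_le hk1 h0 h1 hsupp hκ hV0 hx0 (fun _ => hx.2) hY0.le
  rw [intervalIntegral.integral_of_le hXY]
  set J := ∫ x in Ioc X Y, φ (F0 k P x) with hJdef
  have hJ0 : 0 ≤ J := setIntegral_nonneg measurableSet_Ioc fun x _ => hφ0 _
  -- size of the density
  have h6 : (1 - η) * (1 - η) * X ^ θ * Mx ≤ 1 := by
    have hXpp : 0 < X ^ pp k := Real.rpow_pos_of_pos hX0 _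
    have e1 : Y = X * (1 + X ^ (-(1 - θ))) := by
      have e7 : X * X ^ (-(1 - θ)) = X ^ θ := by
        nth_rewrite 1 [← Real.rpow_one X]
        rw [← Real.rpow_add hX0]; congr 1; ring
      rw [mul_add, mul_one, e7]
    have ht0 : 0 < X ^ (-(1 - θ)) := Real.rpow_pos_of_pos hX0 _
    have e2 : Y ^ pp k = X ^ pp k * (1 + X ^ (-(1 - θ))) ^ pp k := by
      rw [e1, Real.mul_rpow hX0.le (by positivity)]
    have e3 : (1 - η) * (1 - η) * X ^ θ * Mx = (1 - η) * (1 + X ^ (-(1 - θ))) ^ pp k := by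
      rw [hMx, hexp, e2, hκdef]
      have h7 : 1 - η ≠ 0 := by linarith
      field_simp
    rw [e3]; exact h4
  have h7 : (1 - η) * (1 - η) * X ^ θ * ((1 - 5 * η) * E) ≤ J := by
    have h8 : 0 ≤ (1 - η) * (1 - η) * X ^ θ := by
      have : 0 ≤ 1 - η := by linarith
      positivity
    calc (1 - η) * (1 - η) * X ^ θ * ((1 - 5 * η) * E)
        ≤ (1 - η) * (1 - η) * X ^ θ * (Mx * J) := by gcongr
      _ = ((1 - η) * (1 - η) * X ^ θ * Mx) * J := by ring
      _ ≤ 1 * J := by gcongr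
      _ = J := one_mul J
  calc c * X ^ θ ≤ ((1 - η) * (1 - η) * ((1 - 5 * η) * E)) * X ^ θ := by gcongr
    _ = (1 - η) * (1 - η) * X ^ θ * ((1 - 5 * η) * E) := by ring
    _ ≤ J := h7

end

end Pool.Agent.Lib.MP_bc6037_nt
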