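import Mathlib
import Pool.Agent.Lib.MP_bc6037_nt.RRUniform
import Pool.Agent.Lib.MP_bc6037_nt.ShortConvex

set_option autoImplicit false

/-!
Limits of the Fourier coefficients over windows `[V, V + κ]` when `κ → ∞` and `κ / V → 0`.
-/

open Complex Filter Topology Set MeasureTheory UnitAddTorus
open scoped ContDiff ComplexConjugate

namespace Pool.Agent.Lib.MP_bc6037_nt

open DeltaMellin ZetaGrowth

noncomputable section

/-- the filter `κ → ∞`, `V / κ → ∞` on the pairs `(κ, V)` -/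
def winF : Filter (ℝ × ℝ) := comap (fun p : ℝ × ℝ => (p.1, p.2 / p.1)) (atTop ×ˢ atTop)

lemma winF_tendsto : Tendsto (fun p : ℝ × ℝ => (p.1, p.2 / p.1)) winF (atTop ×ˢ atTop) :=
  tendsto_comap

lemma winF_fst : Tendsto (fun p : ℝ × ℝ => p.1) winF atTop := by
  have h := Tendsto.comp (tendsto_fst (f := (atTop : Filter ℝ)) (g := (atTop : Filter ℝ)))
    winF_tendsto
  exact h

lemma winF_ratio : Tendsto (fun p : ℝ × ℝ => p.2 / p.1) winF atTop := by
  have h := Tendsto.comp (tendsto_snd (f := (atTop : Filter ℝ)) (g := (atTop : Filter ℝ)))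
    winF_tendsto
  exact h

lemma winF_ev : ∀ᶠ p : ℝ × ℝ in winF, 1 ≤ p.1 ∧ p.1 ≤ p.2 := by
  filter_upwards [winF_fst.eventually_ge_atTop 1, winF_ratio.eventually_ge_atTop 1] with p h1 h2
  refine ⟨h1, ?_⟩
  have h3 : 0 < p.1 := by linarith
  rwa [le_div_iff₀ h3, one_mul] at h2

lemma winF_snd : Tendsto (fun p : ℝ × ℝ => p.2) winF atTop := by
  refine tendsto_atTop_mono' _ ?_ winF_fst
  filter_upwards [winF_ev] with p hp
  exact hp.2

lemma eventually_winF {q : ℝ × ℝ → Prop} : (∀ᶠ p in winF, q p) ↔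
    ∃ A : ℝ, ∀ κ V : ℝ, A ≤ κ → A ≤ V / κ → q (κ, V) := by
  constructor
  · intro h
    rw [winF, eventually_comap] at h
    rw [(atTop_basis.prod_self (α := ℝ)).eventually_iff] at h
    obtain ⟨A, _, hA⟩ := h
    refine ⟨A, fun κ V h1 h2 => hA (x := (κ, V / κ)) ⟨h1, h2⟩ (κ, V) rfl⟩
  · rintro ⟨A, hA⟩
    filter_upwards [winF_fst.eventually_ge_atTop A, winF_ratio.eventually_ge_atTop A] with p h1 h2
    exact hA p.1 p.2 h1 h2

/-- gap between the frequencies and a given number -/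
lemma gap_om {k : ℕ} (hk : 1 ≤ k) (θ : ℝ) : ∃ g : ℝ, 0 < g ∧ ∀ n : ℕ, 1 ≤ n → om' k n ≠ θ →
    g * om' k n ≤ |om' k n - θ| := by
  have hkp : (0 : ℝ) < k := by exact_mod_cast hk
  have htend : Tendsto (fun n : ℕ => om' k n) atTop atTop := by
    unfold om'
    refine Tendsto.const_mul_atTop (by positivity) ?_
    exact (tendsto_rpow_atTop (by positivity)).comp tendsto_natCast_atTop_atTop
  obtain ⟨N, hN⟩ := eventually_atTop.1 (htend.eventually_ge_atTop (2 * |θ|))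
  set M := N + 1 with hM
  set G : ℕ → ℝ := fun n => if om' k n = θ then 1 else |om' k n - θ| / om' k n with hG
  have hGpos : ∀ n ∈ Finset.Icc 1 M, 0 < G n := by
    intro n hn
    rw [Finset.mem_Icc] at hn
    rw [hG]; simp only
    split_ifs with h
    · norm_num
    · exact div_pos (abs_pos.2 (sub_ne_zero.2 h)) (om'_pos hk hn.1)
  obtain ⟨n0, hn0, hmin⟩ := Finset.exists_min_image (Finset.Icc 1 M) G
    ⟨1, by rw [Finset.mem_Icc]; omega⟩
  refine ⟨min (G n0) (1 / 2), lt_min (hGpos n0 hn0) (by norm_num), fun n hn hne => ?_⟩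
  have hω := om'_pos hk hn
  rcases le_total n M with h | h
  · have h1 := hmin n (by rw [Finset.mem_Icc]; exact ⟨hn, h⟩)
    have h2 : G n = |om' k n - θ| / om' k n := by rw [hG]; simp only; rw [if_neg hne]
    rw [h2] at h1
    calc min (G n0) (1 / 2) * om' k n ≤ G n0 * om' k n := by gcongr; exact min_le_left _ _
      _ ≤ |om' k n - θ| / om' k n * om' k n := by gcongr
      _ = _ := by field_simp
  · have h1 := hN n (by omega)
    have h2 : om' k n - |θ| ≤ |om' k n - θ| := by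
      have := abs_sub_abs_le_abs_sub (om' k n) θ
      rwa [abs_of_pos hω] at this
    calc min (G n0) (1 / 2) * om' k n ≤ 1 / 2 * om' k n := by gcongr; exact min_le_right _ _
      _ ≤ _ := by linarith

lemma Bc_zero (k : ℕ) : Bc k 0 = 0 := by
  rw [Bc, dk_zero]; simp

lemma Bc_decay {k : ℕ} (hk : 1 ≤ k) : ∃ K : ℝ, 0 ≤ K ∧ ∀ n : ℕ, 1 ≤ n →
    ‖Bc k n‖ * (1 / om' k n) ^ (2 * k) ≤ K * cc k n := by
  have hkp : (0 : ℝ) < k := by exact_mod_cast hk
  refine ⟨√k / (2 * Real.pi) * (1 / (2 * Real.pi * k)) ^ (2 * k), by positivity, fun n hn => ?_⟩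
  have hnp : (0 : ℝ) < n := by exact_mod_cast hn
  have hn1 : (1 : ℝ) ≤ n := by exact_mod_cast hn
  have h1 : (om' k n) ^ (2 * k) = (2 * Real.pi * k) ^ (2 * k) * (n : ℝ) ^ 2 := by
    rw [om', mul_pow]
    congr 1
    rw [← Real.rpow_natCast, ← Real.rpow_mul hnp.le, ← Real.rpow_natCast]
    congr 1
    push_cast; field_simp
  have h2 : (n : ℝ) ^ (-((k + 1) / (2 * k)) : ℝ) ≤ 1 :=
    Real.rpow_le_one_of_one_le_of_nonpos hn1 (by
      rw [neg_nonpos]; positivity)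
  have hdk := dk_nonneg k n
  rw [norm_Bc, one_div_pow, h1, cc]
  have h3 : 0 < (2 * Real.pi * k) ^ (2 * k) := by positivity
  calc √k / (2 * Real.pi) * dk k n * (n : ℝ) ^ (-((k + 1) / (2 * k)) : ℝ) *
        (1 / ((2 * Real.pi * k) ^ (2 * k) * (n : ℝ) ^ 2))
      ≤ √k / (2 * Real.pi) * dk k n * 1 * (1 / ((2 * Real.pi * k) ^ (2 * k) * (n : ℝ) ^ 2)) := by
        gcongr
    _ = _ := by rw [one_div_pow]; field_simp

/-- **the resonance integral up to a bounded multiple of `V^b`** -/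
theorem RR_main {k : ℕ} (hk : 2 ≤ k) {P : Polynomial ℝ} {Z : ℂ → ℂ}
    (hZ : DifferentiableOn ℂ Z {s : ℂ | 0 < s.re})
    (hZ' : ∀ s : ℂ, 0 < s.re → s ≠ 1 → Z s = riemannZeta s ^ k / s - Q P s)
    {ψ : ℝ → ℝ} (hψ : ContDiff ℝ ∞ ψ) (hc : HasCompactSupport ψ)
    (hsupp : ∀ s, ψ s ≠ 0 → 0 < s ∧ s < 1) {θ : ℝ} (hθ : 0 ≤ θ) (m : ℕ)
    (hm : ∀ n : ℕ, 1 ≤ n → om' k n = θ → n = m) (hm' : 1 ≤ m → om' k m = θ) :
    ∃ C : ℝ, 0 ≤ C ∧ ∀ κ V : ℝ, 1 ≤ κ → κ ≤ V →
      ‖RR k P ψ κ 0 ((θ : ℂ) * I) V - Bc k m * WI ψ κ 0 (bt k) 0 V‖ ≤ C * V ^ bt k := by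
  classical
  have hk1 : 1 ≤ k := by omega
  obtain ⟨C, hC0, hC⟩ := RR_series hk hZ hZ' hψ hc θ
  obtain ⟨D, hD0, hD⟩ := WI_decay hψ hsupp (bt k) (2 * k)
  obtain ⟨g, hg0, hg⟩ := gap_om hk1 θ
  obtain ⟨K, hK0, hK⟩ := Bc_decay hk1
  set S := ∑' n, cc k n with hS
  have hS0 : 0 ≤ S := tsum_nonneg (cc_nonneg k)
  refine ⟨C + D * K * ((1 / g) ^ (2 * k) + 1) * S, by positivity, fun κ V hκ hκV => ?_⟩
  have hκ0 : 0 < κ := by linarith
  have hV0 : 0 < V := by linarith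
  have hVb : 0 < V ^ bt k := Real.rpow_pos_of_pos hV0 _
  -- decay of a single window integral
  have hW : ∀ τ g' w : ℝ, 0 < g' → 0 < w → g' * w ≤ |τ| → ‖WI ψ κ 0 (bt k) τ V‖ ≤
      D * V ^ bt k * ((1 / g') ^ (2 * k) * (1 / w) ^ (2 * k)) := by
    intro τ g' w hg' hw h
    have hτ : 0 < |τ| := lt_of_lt_of_le (by positivity) h
    have h1 := hD κ V τ hκ0 hκV (abs_pos.1 hτ)
    refine h1.trans ?_
    have h2 : κ * (1 / (κ * |τ|)) ^ (2 * k) ≤ (1 / g') ^ (2 * k) * (1 / w) ^ (2 * k) := by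
      have h3 : (1 / (κ * |τ|)) ^ (2 * k) = (1 / κ) ^ (2 * k) * (1 / |τ|) ^ (2 * k) := by
        rw [← mul_pow]; congr 1; field_simp
      have h4 : κ * (1 / κ) ^ (2 * k) ≤ 1 := by
        have h5 : (1 / κ) ^ (2 * k) ≤ (1 / κ) ^ 1 := by
          apply pow_le_pow_of_le_one (by positivity) _ (by omega)
          rw [div_le_one hκ0]; exact hκ
        calc κ * (1 / κ) ^ (2 * k) ≤ κ * (1 / κ) ^ 1 := by gcongr
          _ = 1 := by field_simp
      have h6 : (1 / |τ|) ^ (2 * k) ≤ (1 / (g' * w)) ^ (2 * k) := by gcongr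
      calc κ * (1 / (κ * |τ|)) ^ (2 * k) = (κ * (1 / κ) ^ (2 * k)) * (1 / |τ|) ^ (2 * k) := by
            rw [h3]; ring
        _ ≤ 1 * (1 / (g' * w)) ^ (2 * k) := by gcongr
        _ = _ := by rw [one_mul, ← mul_pow]; congr 1; field_simp
    calc D * (V ^ bt k * κ * (1 / (κ * |τ|)) ^ (2 * k)) =
          D * V ^ bt k * (κ * (1 / (κ * |τ|)) ^ (2 * k)) := by ring
      _ ≤ _ := by gcongr
  -- the series with the resonant term removed
  set f : ℕ → ℂ := fun n => Bc k n * WI ψ κ 0 (bt k) (om' k n - θ) V +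
        conj (Bc k n) * WI ψ κ 0 (bt k) (-om' k n - θ) V with hf
  set f' : ℕ → ℂ := fun n => f n - (if n = m then Bc k m * WI ψ κ 0 (bt k) 0 V else 0) with hf'
  have hbd : ∀ n, ‖f' n‖ ≤ (D * K * ((1 / g) ^ (2 * k) + 1) * V ^ bt k) * cc k n := by
    intro n
    rcases Nat.eq_zero_or_pos n with hn | hn
    · subst hn
      have h1 : f 0 = 0 := by rw [hf]; simp only; rw [Bc_zero]; simp
      have h2 : f' 0 = 0 := by
        rw [hf']; simp only; rw [h1]
        split_ifs with h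
        · rw [← h, Bc_zero]; simp
        · simp
      rw [h2, cc_zero]; simp
    have hω := om'_pos hk1 hn
    have hKn := hK n hn
    have hsecond : ‖conj (Bc k n) * WI ψ κ 0 (bt k) (-om' k n - θ) V‖ ≤
        D * V ^ bt k * (K * cc k n) := by
      rw [norm_mul, RCLike.norm_conj]
      have h1 := hW (-om' k n - θ) 1 (om' k n) one_pos hω (by
        rw [abs_of_nonpos (by linarith)]; linarith)
      rw [one_div_one, one_pow, one_mul] at h1
      calc ‖Bc k n‖ * ‖WI ψ κ 0 (bt k) (-om' k n - θ) V‖ ≤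
            ‖Bc k n‖ * (D * V ^ bt k * (1 / om' k n) ^ (2 * k)) := by gcongr
        _ = D * V ^ bt k * (‖Bc k n‖ * (1 / om' k n) ^ (2 * k)) := by ring
        _ ≤ _ := by gcongr
    have hcc := cc_nonneg k n
    by_cases hres : om' k n = θ
    · have hnm := hm n hn hres
      have h1 : f' n = conj (Bc k n) * WI ψ κ 0 (bt k) (-om' k n - θ) V := by
        rw [hf']; simp only
        rw [if_pos hnm, hf]; simp only
        rw [hres, sub_self, hnm]; ring
      rw [h1]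
      refine hsecond.trans ?_
      have h2 : 0 ≤ D * K * (1 / g) ^ (2 * k) * V ^ bt k * cc k n := by positivity
      nlinarith
    · have hnm : n ≠ m := by
        intro h
        exact hres (h ▸ hm' (h ▸ hn))
      have h1 : f' n = f n := by rw [hf']; simp only; rw [if_neg hnm, sub_zero]
      rw [h1, hf]
      simp only
      have hfirst : ‖Bc k n * WI ψ κ 0 (bt k) (om' k n - θ) V‖ ≤
          D * V ^ bt k * (1 / g) ^ (2 * k) * (K * cc k n) := by
        rw [norm_mul]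
        have h2 := hW (om' k n - θ) g (om' k n) hg0 hω (hg n hn hres)
        calc ‖Bc k n‖ * ‖WI ψ κ 0 (bt k) (om' k n - θ) V‖ ≤
              ‖Bc k n‖ * (D * V ^ bt k * ((1 / g) ^ (2 * k) * (1 / om' k n) ^ (2 * k))) := by gcongr
          _ = D * V ^ bt k * (1 / g) ^ (2 * k) * (‖Bc k n‖ * (1 / om' k n) ^ (2 * k)) := by ring
          _ ≤ _ := by gcongr
      refine (norm_add_le _ _).trans ((add_le_add hfirst hsecond).trans (le_of_eq ?_))
      ring
  have hsumf' : Summable f' := Summable.of_norm_bounded ((summable_cc k).mul_left _) hbd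
  have hsumi : HasSum (fun n => if n = m then Bc k m * WI ψ κ 0 (bt k) 0 V else 0)
      (Bc k m * WI ψ κ 0 (bt k) 0 V) := hasSum_ite_eq m _
  have hsumf : Summable f := by
    have := hsumf'.add hsumi.summable
    refine this.congr fun n => ?_
    rw [hf']; simp only; ring
  have hsplit : ∑' n, f' n = ∑' n, f n - Bc k m * WI ψ κ 0 (bt k) 0 V := by
    rw [hf', hsumf.tsum_sub hsumi.summable, hsumi.tsum_eq]
  have htail : ‖∑' n, f' n‖ ≤ (D * K * ((1 / g) ^ (2 * k) + 1) * V ^ bt k) * S := by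
    rw [hS, ← tsum_mul_left]
    exact tsum_of_norm_bounded ((summable_cc k).mul_left _).hasSum hbd
  have hmain := hC κ V hκ hκV
  calc ‖RR k P ψ κ 0 ((θ : ℂ) * I) V - Bc k m * WI ψ κ 0 (bt k) 0 V‖
      = ‖(RR k P ψ κ 0 ((θ : ℂ) * I) V - ∑' n, f n) + ∑' n, f' n‖ := by
        rw [hsplit]; congr 1; ring
    _ ≤ C * V ^ bt k + (D * K * ((1 / g) ^ (2 * k) + 1) * V ^ bt k) * S :=
        (norm_add_le _ _).trans (add_le_add hmain htail)
    _ = _ := by ring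

variable {k : ℕ} {ψ : ℝ → ℝ}

lemma WI_zero_tendsto (hk : 2 ≤ k) (hψ : Continuous ψ) (hc : HasCompactSupport ψ)
    (h0 : ∀ s, 0 ≤ ψ s) (hsupp : ∀ s, ψ s ≠ 0 → 0 < s ∧ s < 1) :
    Tendsto (fun p : ℝ × ℝ => WI ψ p.1 0 (bt k) 0 p.2 / ((p.2 ^ bt k * p.1 : ℝ) : ℂ)) winF
      (𝓝 ((∫ s, ψ s : ℝ) : ℂ)) := by
  have hkr : (2 : ℝ) ≤ k := by exact_mod_cast hk
  have hbt : 0 ≤ bt k := by rw [bt]; linarith
  rw [tendsto_iff_norm_sub_tendsto_zero]
  have hdd : Tendsto (fun p : ℝ × ℝ => dd (bt k) (p.1 / p.2) * ∫ s, ψ s) winF (𝓝 0) := by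
    have h1 : Tendsto (fun p : ℝ × ℝ => p.1 / p.2) winF (𝓝 0) := by
      have := winF_ratio.inv_tendsto_atTop
      refine this.congr fun p => ?_
      simp [inv_div]
    have h3 : ContinuousAt (dd (bt k)) 0 := by
      unfold dd
      refine ContinuousAt.add (ContinuousAt.sub (ContinuousAt.rpow ?_ continuousAt_const ?_)
        continuousAt_const) ?_
      · fun_prop
      · left; norm_num
      · fun_prop
    have h4 : dd (bt k) 0 = 0 := by simp [dd]
    have h5 := (h3.tendsto.comp h1).mul_const (∫ s, ψ s)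
    rw [h4, zero_mul] at h5
    exact h5
  refine squeeze_zero' (Eventually.of_forall fun _ => norm_nonneg _) ?_ hdd
  filter_upwards [winF_ev] with p hp
  exact WI_zero hψ hc h0 hsupp hbt (by linarith [hp.1]) (by linarith [hp.1, hp.2])

/-- limit of the resonance integral -/
theorem RR_limit (hk : 2 ≤ k) {P : Polynomial ℝ} {Z : ℂ → ℂ}
    (hZ : DifferentiableOn ℂ Z {s : ℂ | 0 < s.re})
    (hZ' : ∀ s : ℂ, 0 < s.re → s ≠ 1 → Z s = riemannZeta s ^ k / s - Q P s)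
    (hψ : ContDiff ℝ ∞ ψ) (hc : HasCompactSupport ψ) (h0 : ∀ s, 0 ≤ ψ s)
    (hsupp : ∀ s, ψ s ≠ 0 → 0 < s ∧ s < 1) {θ : ℝ} (hθ : 0 ≤ θ) (m : ℕ)
    (hm : ∀ n : ℕ, 1 ≤ n → om' k n = θ → n = m) (hm' : 1 ≤ m → om' k m = θ) :
    Tendsto (fun p : ℝ × ℝ => RR k P ψ p.1 0 ((θ : ℂ) * I) p.2 / ((p.2 ^ bt k * p.1 : ℝ) : ℂ))
      winF (𝓝 (Bc k m * ((∫ s, ψ s : ℝ) : ℂ))) := by
  obtain ⟨C, hC0, hC⟩ := RR_main hk hZ hZ' hψ hc hsupp hθ m hm hm'
  have h1 := (WI_zero_tendsto hk hψ.continuous hc h0 hsupp).const_mul (Bc k m)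
  have hdiff : Tendsto (fun p : ℝ × ℝ => RR k P ψ p.1 0 ((θ : ℂ) * I) p.2 /
      ((p.2 ^ bt k * p.1 : ℝ) : ℂ) - Bc k m * (WI ψ p.1 0 (bt k) 0 p.2 /
      ((p.2 ^ bt k * p.1 : ℝ) : ℂ))) winF (𝓝 0) := by
    rw [tendsto_zero_iff_norm_tendsto_zero]
    have hz : Tendsto (fun p : ℝ × ℝ => C * (p.1)⁻¹) winF (𝓝 0) := by
      have := winF_fst.inv_tendsto_atTop.const_mul C
      rwa [mul_zero] at this
    refine squeeze_zero' (Eventually.of_forall fun _ => norm_nonneg _) ?_ hz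
    filter_upwards [winF_ev] with p hp
    have hκ : 0 < p.1 := by linarith [hp.1]
    have hV : 0 < p.2 := by linarith [hp.2]
    have hVb : 0 < p.2 ^ bt k := Real.rpow_pos_of_pos hV _
    have e1 : RR k P ψ p.1 0 ((θ : ℂ) * I) p.2 / ((p.2 ^ bt k * p.1 : ℝ) : ℂ) -
        Bc k m * (WI ψ p.1 0 (bt k) 0 p.2 / ((p.2 ^ bt k * p.1 : ℝ) : ℂ)) =
        (RR k P ψ p.1 0 ((θ : ℂ) * I) p.2 - Bc k m * WI ψ p.1 0 (bt k) 0 p.2) /
          ((p.2 ^ bt k * p.1 : ℝ) : ℂ) := by ring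
    rw [e1, norm_div, norm_real, Real.norm_eq_abs, abs_of_pos (by positivity),
      div_le_iff₀ (by positivity)]
    refine (hC p.1 p.2 hp.1 hp.2).trans (le_of_eq ?_)
    field_simp
  have := hdiff.add h1
  rw [zero_add] at this
  refine this.congr fun V => ?_
  ring

end

end Pool.Agent.Lib.MP_bc6037_nt
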