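import Mathlib
import Pool.Agent.Lib.MP_bc6037_nt.FreqLimit

set_option autoImplicit false

/-!
Lower bound in convex order over all windows `[X, X + h]` with `C X^{1-1/k} ≤ h ≤ X`.
-/

open Complex Filter Topology Set MeasureTheory UnitAddTorus
open scoped ContDiff ComplexConjugate

namespace Pool.Agent.Lib.MP_bc6037_nt

open DeltaMellin ZetaGrowth

noncomputable section

variable {k : ℕ} {ψ : ℝ → ℝ}

lemma exp_tendsto' (hk : 2 ≤ k) (hψ : ContDiff ℝ ∞ ψ) (hc : HasCompactSupport ψ)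
    (h0 : ∀ s, 0 ≤ ψ s) (hsupp : ∀ s, ψ s ≠ 0 → 0 < s ∧ s < 1) (θ : ℝ) :
    Tendsto (fun p : ℝ × ℝ => ∫ x, cexp (I * θ * ((x ^ (1 / k : ℝ) : ℝ) : ℂ))
      ∂(wmeas k ψ p.1 0 p.2)) winF (𝓝 (if θ = 0 then ((∫ s, ψ s : ℝ) : ℂ) else 0)) := by
  have hkr : (2 : ℝ) ≤ k := by exact_mod_cast hk
  have hbt : 0 ≤ bt k := by rw [bt]; linarith
  have heq : ∀ᶠ p : ℝ × ℝ in winF, WI ψ p.1 0 (bt k) θ p.2 / ((p.2 ^ bt k * p.1 : ℝ) : ℂ) =
      ∫ x, cexp (I * θ * ((x ^ (1 / k : ℝ) : ℝ) : ℂ)) ∂(wmeas k ψ p.1 0 p.2) := by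
    filter_upwards [winF_ev] with p hp
    rw [exp_int (by omega) hψ.continuous h0 hsupp (by linarith [hp.1]) (by linarith [hp.1, hp.2]),
      HH_zero]
  by_cases hθ : θ = 0
  · subst hθ
    rw [if_pos rfl]
    exact (WI_zero_tendsto hk hψ.continuous hc h0 hsupp).congr' heq
  · rw [if_neg hθ]
    obtain ⟨D, hD0, hD⟩ := WI_decay hψ hsupp (bt k) 1
    refine Tendsto.congr' heq ?_
    rw [tendsto_zero_iff_norm_tendsto_zero]
    have hz : Tendsto (fun p : ℝ × ℝ => D * (1 / |θ|) * (p.1)⁻¹) winF (𝓝 0) := by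
      have := winF_fst.inv_tendsto_atTop.const_mul (D * (1 / |θ|))
      rwa [mul_zero] at this
    refine squeeze_zero' (Eventually.of_forall fun _ => norm_nonneg _) ?_ hz
    filter_upwards [winF_ev] with p hp
    have hκ : 0 < p.1 := by linarith [hp.1]
    have hV : 0 < p.2 := by linarith [hp.2]
    have hVb : 0 < p.2 ^ bt k := Real.rpow_pos_of_pos hV _
    have hθ' : 0 < |θ| := abs_pos.2 hθ
    rw [norm_div, norm_real, Real.norm_eq_abs, abs_of_pos (by positivity),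
      div_le_iff₀ (by positivity)]
    refine (hD p.1 p.2 θ hκ hp.2 hθ).trans (le_of_eq ?_)
    field_simp

lemma mass_tendsto' (hk : 2 ≤ k) (hψ : ContDiff ℝ ∞ ψ) (hc : HasCompactSupport ψ)
    (h0 : ∀ s, 0 ≤ ψ s) (hsupp : ∀ s, ψ s ≠ 0 → 0 < s ∧ s < 1) :
    Tendsto (fun p : ℝ × ℝ => (wmeas k ψ p.1 0 p.2).real univ) winF (𝓝 (∫ s, ψ s)) := by
  have h := exp_tendsto' hk hψ hc h0 hsupp 0
  rw [if_pos rfl] at h
  have h2 := (continuous_re.tendsto _).comp h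
  rw [ofReal_re] at h2
  refine h2.congr fun V => ?_
  simp only [Function.comp_apply, ofReal_zero, mul_zero, zero_mul, Complex.exp_zero]
  rw [integral_const]
  simp

lemma F0_coeff_tendsto' (hk : 2 ≤ k) (P : Polynomial ℝ) (hψ : ContDiff ℝ ∞ ψ)
    (hc : HasCompactSupport ψ) (h0 : ∀ s, 0 ≤ ψ s) (h1 : ∀ s, ψ s ≤ 1)
    (hsupp : ∀ s, ψ s ≠ 0 → 0 < s ∧ s < 1) (θ : ℝ) {L : ℂ}
    (hR : Tendsto (fun p : ℝ × ℝ => RR k P ψ p.1 0 ((θ : ℂ) * I) p.2 /
      ((p.2 ^ bt k * p.1 : ℝ) : ℂ)) winF (𝓝 L)) :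
    Tendsto (fun p : ℝ × ℝ => ∫ x, (F0 k P x : ℂ) * cexp (-(I * θ * ((x ^ (1 / k : ℝ) : ℝ) : ℂ)))
      ∂(wmeas k ψ p.1 0 p.2)) winF (𝓝 (L / k)) := by
  have hk1 : 1 ≤ k := by omega
  have hkp : (0 : ℝ) < k := by exact_mod_cast (by omega : 0 < k)
  have hkr : (2 : ℝ) ≤ k := by exact_mod_cast hk
  have hkc : (k : ℂ) ≠ 0 := by exact_mod_cast hkp.ne'
  set p0 : ℝ := ((k : ℝ) - 1) / (2 * k) with hp0
  have hp0' : 0 < p0 := div_pos (by linarith) (by linarith)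
  -- the constant term is negligible
  set R : ℝ × ℝ → ℂ := fun p => ∫ x, ((w0 k / x ^ p0 : ℝ) : ℂ) *
    cexp (-(I * θ * ((x ^ (1 / k : ℝ) : ℝ) : ℂ))) ∂(wmeas k ψ p.1 0 p.2) with hRdef
  have hexp : ∀ x : ℝ, ‖cexp (-(I * θ * ((x ^ (1 / k : ℝ) : ℝ) : ℂ)))‖ = 1 := by
    intro x
    have e : (-(I * θ * ((x ^ (1 / k : ℝ) : ℝ) : ℂ))) =
        ((-(θ * x ^ (1 / k : ℝ)) : ℝ) : ℂ) * I := by push_cast; ring
    rw [e, Complex.norm_exp_ofReal_mul_I]
  have hexpm : Measurable fun x : ℝ => cexp (-(I * θ * ((x ^ (1 / k : ℝ) : ℝ) : ℂ))) := by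
    fun_prop
  have hRlim : Tendsto R winF (𝓝 0) := by
    rw [tendsto_zero_iff_norm_tendsto_zero]
    have hb : Tendsto (fun p : ℝ × ℝ => |w0 k| * p.2 ^ (-(k * p0)) *
        (wmeas k ψ p.1 0 p.2).real univ) winF (𝓝 0) := by
      have h2 := (((tendsto_rpow_neg_atTop (by positivity : 0 < k * p0)).comp
        winF_snd).const_mul |w0 k|).mul (mass_tendsto' hk hψ hc h0 hsupp)
      rw [mul_zero, zero_mul] at h2
      exact h2
    refine squeeze_zero' (Eventually.of_forall fun _ => norm_nonneg _) ?_ hb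
    filter_upwards [winF_ev] with p hp
    have hκ : 0 < p.1 := by linarith [hp.1]
    have hV0 : 0 < p.2 := by linarith [hp.2]
    have := wmeas_finite (k := k) (ε := 0) hk1 h0 h1 hsupp hκ hV0
    refine norm_integral_le_of_norm_le_const ?_
    filter_upwards [ae_wmeas (k := k) (ε := 0) hψ.continuous hsupp hκ hV0] with x hx
    have hx0 : 0 < x := by linarith [hx.1]
    have hxp : 0 < x ^ p0 := Real.rpow_pos_of_pos hx0 _
    rw [norm_mul, hexp, mul_one, norm_real, Real.norm_eq_abs, abs_div, abs_of_pos hxp, div_eq_mul_inv]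
    gcongr
    rw [Real.rpow_neg hV0.le]
    have h3 : p.2 ^ (k * p0) ≤ x ^ p0 := by
      have h4 : p.2 ^ (k : ℝ) ≤ x := by
        have h5 := Real.rpow_le_rpow hV0.le hx.2.1.le hkp.le
        rwa [← Real.rpow_mul hx0.le, one_div_mul_cancel hkp.ne', Real.rpow_one] at h5
      rw [Real.rpow_mul hV0.le]
      exact Real.rpow_le_rpow (by positivity) h4 hp0'.le
    gcongr
  have hmain : Tendsto (fun p : ℝ × ℝ => (RR k P ψ p.1 0 ((θ : ℂ) * I) p.2 /
      ((p.2 ^ bt k * p.1 : ℝ) : ℂ)) / k + R p) winF (𝓝 (L / k)) := by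
    have := (hR.div_const (k : ℂ)).add hRlim
    rwa [add_zero] at this
  refine hmain.congr' ?_
  filter_upwards [winF_ev] with p hp
  have hκ : 0 < p.1 := by linarith [hp.1]
  have hV0 : 0 < p.2 := by linarith [hp.2]
  have hfin := wmeas_finite (k := k) (ε := 0) hk1 h0 h1 hsupp hκ hV0
  have hVb : 0 < p.2 ^ bt k := Real.rpow_pos_of_pos hV0 _
  have hD : ((p.2 ^ bt k * p.1 : ℝ) : ℂ) ≠ 0 := by exact_mod_cast (by positivity)
  -- first part
  have e1 : (RR k P ψ p.1 0 ((θ : ℂ) * I) p.2 / ((p.2 ^ bt k * p.1 : ℝ) : ℂ)) / k =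
      ∫ x, (((Err k P x - w0 k) / x ^ p0 : ℝ) : ℂ) *
        cexp (-(I * θ * ((x ^ (1 / k : ℝ) : ℝ) : ℂ))) ∂(wmeas k ψ p.1 0 p.2) := by
    rw [integral_wmeas hψ.continuous h0 hκ hV0, RR, div_div, div_eq_mul_inv, mul_comm,
      ← integral_const_mul]
    refine setIntegral_congr_fun measurableSet_Ioi fun x hx => ?_
    have hx0 : (0 : ℝ) < x := lt_trans zero_lt_one hx
    have hxp : 0 < x ^ p0 := Real.rpow_pos_of_pos hx0 _
    have e2 : x ^ pp k = x * x ^ p0 := by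
      rw [pp, Real.rpow_add hx0, Real.rpow_one]
    have e3 : ((x ^ p0 : ℝ) : ℂ) ≠ 0 := by exact_mod_cast hxp.ne'
    rw [wdens, HH_zero, real_smul, e2]
    have e4 : (-((θ : ℂ) * I * ((x ^ (1 / k : ℝ) : ℝ) : ℂ))) =
        (-(I * θ * ((x ^ (1 / k : ℝ) : ℝ) : ℂ))) := by ring
    rw [e4]
    push_cast at e3 hD ⊢
    field_simp
  have hi1 : Integrable (fun x => (((Err k P x - w0 k) / x ^ p0 : ℝ) : ℂ) *
        cexp (-(I * θ * ((x ^ (1 / k : ℝ) : ℝ) : ℂ)))) (wmeas k ψ p.1 0 p.2) := by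
    obtain ⟨C, hC0, hC⟩ := g_bound k P
    refine win_integrable hk1 hψ.continuous h0 h1 hsupp hκ hV0 ?_
      (B := C * ((p.2 + HH p.1 0 p.2) ^ (k : ℝ)) ^ (3 / 2 : ℝ)) fun x hx hx2 => ?_
    · refine Measurable.aestronglyMeasurable ?_
      exact (measurable_ofReal.comp (((measurable_Err k P).sub_const _).div
        (measurable_id.pow_const _))).mul hexpm
    · have hx0 : 0 < x := by linarith
      have h3 : (1 : ℝ) ≤ x ^ p0 := Real.one_le_rpow hx.le hp0'.le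
      rw [norm_mul, hexp, mul_one, norm_real, Real.norm_eq_abs, abs_div,
        abs_of_pos (by linarith : 0 < x ^ p0)]
      refine (div_le_self (abs_nonneg _) h3).trans ((hC x hx.le).trans ?_)
      gcongr
  have hi2 : Integrable (fun x => ((w0 k / x ^ p0 : ℝ) : ℂ) *
        cexp (-(I * θ * ((x ^ (1 / k : ℝ) : ℝ) : ℂ)))) (wmeas k ψ p.1 0 p.2) := by
    refine win_integrable hk1 hψ.continuous h0 h1 hsupp hκ hV0 ?_ (B := |w0 k|) fun x hx hx2 => ?_
    · refine Measurable.aestronglyMeasurable ?_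
      exact (measurable_ofReal.comp (measurable_const.div (measurable_id.pow_const _))).mul hexpm
    · have h3 : (1 : ℝ) ≤ x ^ p0 := Real.one_le_rpow hx.le hp0'.le
      rw [norm_mul, hexp, mul_one, norm_real, Real.norm_eq_abs, abs_div,
        abs_of_pos (by linarith : 0 < x ^ p0)]
      exact div_le_self (abs_nonneg _) h3
  rw [e1, hRdef, ← integral_add hi1 hi2]
  congr 1
  funext x
  rw [F0]
  push_cast
  ring

/-- coefficients at nonnegative frequencies -/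
lemma coeff_tendsto_nonneg' (hk : 2 ≤ k) {P : Polynomial ℝ} {Z : ℂ → ℂ}
    (hZ : DifferentiableOn ℂ Z {s : ℂ | 0 < s.re})
    (hZ' : ∀ s : ℂ, 0 < s.re → s ≠ 1 → Z s = riemannZeta s ^ k / s - Q P s)
    {S : Finset ℕ} (hS : ∀ q ∈ S, 0 < q) (hI : RootIndep k S)
    (hψ : ContDiff ℝ ∞ ψ) (hc : HasCompactSupport ψ) (h0 : ∀ s, 0 ≤ ψ s) (h1 : ∀ s, ψ s ≤ 1)
    (hsupp : ∀ s, ψ s ≠ 0 → 0 < s ∧ s < 1)
    (c : S → ℤ) (hc0 : 0 ≤ ∑ q : S, (c q : ℝ) * ((q : ℕ) : ℝ) ^ (1 / k : ℝ)) :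
    Tendsto (fun p : ℝ × ℝ => ∫ x, (F0 k P x : ℂ) *
      cexp (-(I * ((2 * Real.pi * ∑ q : S, (c q : ℝ) * lamS k S q : ℝ) : ℂ) *
        ((x ^ (1 / k : ℝ) : ℝ) : ℂ))) ∂(wmeas k ψ p.1 0 p.2)) winF
      (𝓝 (((∫ s, ψ s : ℝ) : ℂ) * mFourierCoeff (fun x => ((torusLaw hk hS x : ℝ) : ℂ)) c)) := by
  have hk1 : 1 ≤ k := by omega
  have hkp : (0 : ℝ) < k := by exact_mod_cast (by omega : 0 < k)
  have hkc : (k : ℂ) ≠ 0 := by exact_mod_cast hkp.ne'
  have hpk : 0 < 2 * Real.pi * k := by positivity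
  set s := ∑ q : S, (c q : ℝ) * ((q : ℕ) : ℝ) ^ (1 / k : ℝ) with hs
  have hpos : ∀ (q : S) (a : ℕ), 0 < (a + 1) ^ k * (q : ℕ) := fun q a =>
    Nat.mul_pos (by positivity) (hS q q.2)
  have e0 : (2 * Real.pi * ∑ q : S, (c q : ℝ) * lamS k S q) = 2 * Real.pi * k * s := by
    rw [sum_lamS]
  have hθ0 : 0 ≤ 2 * Real.pi * k * s := by positivity
  by_cases hn : ∃ n : ℕ, 1 ≤ n ∧ s = (n : ℝ) ^ (1 / k : ℝ)
  · obtain ⟨n, hn1, hn2⟩ := hn
    obtain ⟨q, a, hna, hca⟩ := hI.2 c n hn1 hn2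
    have e1 : 2 * Real.pi * k * s = om' k n := by rw [hn2, om']
    have hco : mFourierCoeff (fun x => ((torusLaw hk hS x : ℝ) : ℂ)) c = cC k n := by
      rw [hca, coeff_pos, hna]
    have hR := RR_limit hk hZ hZ' hψ hc h0 hsupp hθ0 n
      (fun m _ hm => om'_inj hk1 (hm.trans e1)) (fun _ => e1.symm)
    have h3 := F0_coeff_tendsto' hk P hψ hc h0 h1 hsupp _ hR
    rw [e0, hco]
    have e2 : Bc k n * ((∫ s, ψ s : ℝ) : ℂ) / k = ((∫ s, ψ s : ℝ) : ℂ) * cC k n := by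
      rw [Bc_eq hk1]; field_simp
    rwa [e2] at h3
  · push Not at hn
    have hR := RR_limit hk hZ hZ' hψ hc h0 hsupp hθ0 0
      (fun m hm1 hm => absurd (mul_left_cancel₀ hpk.ne' (by rw [← hm, om'])) (hn m hm1))
      (fun h => absurd h (by norm_num))
    have h3 := F0_coeff_tendsto' hk P hψ hc h0 h1 hsupp _ hR
    rw [Bc_zero, zero_mul, zero_div] at h3
    have hco : mFourierCoeff (fun x => ((torusLaw hk hS x : ℝ) : ℂ)) c = 0 := by
      refine coeff_zero hk hS c (fun q a h2 => ?_) (fun q a h2 => ?_)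
      · refine hn ((a + 1) ^ k * q) (hpos q a) ?_
        rw [hs, h2, single_sum hk1]
      · have h3 : s = -(((a + 1) ^ k * q : ℕ) : ℝ) ^ (1 / k : ℝ) := by
          rw [← single_sum hk1 S q a, hs, h2, ← Finset.sum_neg_distrib]
          refine Finset.sum_congr rfl fun r _ => ?_
          rw [Pi.neg_apply]; push_cast; ring
        have h4 : (0 : ℝ) < (((a + 1) ^ k * q : ℕ) : ℝ) ^ (1 / k : ℝ) :=
          Real.rpow_pos_of_pos (by exact_mod_cast hpos q a) _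
        rw [h3] at hc0
        linarith
    rw [e0, hco, mul_zero]
    exact h3

/-- **all coefficients** -/
theorem coeff_tendsto' (hk : 2 ≤ k) {P : Polynomial ℝ} {Z : ℂ → ℂ}
    (hZ : DifferentiableOn ℂ Z {s : ℂ | 0 < s.re})
    (hZ' : ∀ s : ℂ, 0 < s.re → s ≠ 1 → Z s = riemannZeta s ^ k / s - Q P s)
    {S : Finset ℕ} (hS : ∀ q ∈ S, 0 < q) (hI : RootIndep k S)
    (hψ : ContDiff ℝ ∞ ψ) (hc : HasCompactSupport ψ) (h0 : ∀ s, 0 ≤ ψ s) (h1 : ∀ s, ψ s ≤ 1)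
    (hsupp : ∀ s, ψ s ≠ 0 → 0 < s ∧ s < 1) (c : S → ℤ) :
    Tendsto (fun p : ℝ × ℝ => ∫ x, (F0 k P x : ℂ) *
      cexp (-(I * ((2 * Real.pi * ∑ q : S, (c q : ℝ) * lamS k S q : ℝ) : ℂ) *
        ((x ^ (1 / k : ℝ) : ℝ) : ℂ))) ∂(wmeas k ψ p.1 0 p.2)) winF
      (𝓝 (((∫ s, ψ s : ℝ) : ℂ) * mFourierCoeff (fun x => ((torusLaw hk hS x : ℝ) : ℂ)) c)) := by
  rcases le_total 0 (∑ q : S, (c q : ℝ) * ((q : ℕ) : ℝ) ^ (1 / k : ℝ)) with h | h
  · exact coeff_tendsto_nonneg' hk hZ hZ' hS hI hψ hc h0 h1 hsupp c h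
  · have hneg : ∀ f : S → ℝ, ∑ q : S, (((-c) q : ℤ) : ℝ) * f q = -∑ q : S, (c q : ℝ) * f q := by
      intro f
      rw [← Finset.sum_neg_distrib]
      refine Finset.sum_congr rfl fun r _ => ?_
      rw [Pi.neg_apply]; push_cast; ring
    have h2 := coeff_tendsto_nonneg' hk hZ hZ' hS hI hψ hc h0 h1 hsupp (-c) (by
      rw [hneg]; linarith)
    rw [coeff_neg] at h2
    have h3 := (continuous_conj.tendsto _).comp h2
    rw [map_mul, conj_conj, conj_ofReal] at h3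
    refine h3.congr fun V => ?_
    simp only [Function.comp_apply]
    rw [← integral_conj]
    congr 1
    funext x
    rw [map_mul, conj_ofReal, ← Complex.exp_conj]
    congr 2
    rw [hneg]
    simp only [map_neg, map_mul, conj_I, conj_ofReal]
    push_cast
    ring

/-- convex-order bound over the smooth windows -/
theorem window_convex' (hk : 2 ≤ k) {P : Polynomial ℝ} {Z : ℂ → ℂ}
    (hZ : DifferentiableOn ℂ Z {s : ℂ | 0 < s.re})
    (hZ' : ∀ s : ℂ, 0 < s.re → s ≠ 1 → Z s = riemannZeta s ^ k / s - Q P s)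
    {S : Finset ℕ} (hS : ∀ q ∈ S, 0 < q) (hI : RootIndep k S)
    (hψ : ContDiff ℝ ∞ ψ) (hc : HasCompactSupport ψ) (h0 : ∀ s, 0 ≤ ψ s) (h1 : ∀ s, ψ s ≤ 1)
    (hsupp : ∀ s, ψ s ≠ 0 → 0 < s ∧ s < 1)
    (hm : 0 < ∫ s, ψ s) {φ : ℝ → ℝ} (hφ : ConvexOn ℝ univ φ) (hφ0 : ∀ y, 0 ≤ φ y) {c : ℝ}
    (hcc : c < (∫ s, ψ s) * ∫ u in {u : S → ℝ | ∀ i, u i ∈ Ioc (0 : ℝ) 1},
      φ (∑ q : S, lawTerm k q (u q))) :
    ∀ᶠ p : ℝ × ℝ in winF, c ≤ ∫ x, φ (F0 k P x) ∂(wmeas k ψ p.1 0 p.2) := by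
  have hk1 : 1 ≤ k := by omega
  have hkp : (0 : ℝ) < k := by exact_mod_cast (by omega : 0 < k)
  have hpk : 0 < 2 * Real.pi * k := by positivity
  set mu : ℝ × ℝ → Measure ℝ := fun p => if 1 ≤ p.1 ∧ p.1 ≤ p.2 then wmeas k ψ p.1 0 p.2 else 0
    with hmu
  have hmuV : ∀ p : ℝ × ℝ, 1 ≤ p.1 ∧ p.1 ≤ p.2 → mu p = wmeas k ψ p.1 0 p.2 := fun p hp => if_pos hp
  have hfin : ∀ p, IsFiniteMeasure (mu p) := by
    intro p
    rw [hmu]; simp only
    split_ifs with hV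
    · exact wmeas_finite hk1 h0 h1 hsupp (by linarith [hV.1]) (by linarith [hV.1, hV.2])
    · infer_instance
  have hφc : Continuous φ := by
    have := hφ.continuousOn isOpen_univ
    exact continuousOn_univ.1 this
  have key := convex_order (l := winF) mu (F0 k P) (fun x => x ^ (1 / k : ℝ))
    (measurable_id.pow_const _) (lamS k S) (torusLaw hk hS) hm hfin
    (by
      filter_upwards [winF_ev] with p hp
      rw [hmuV p hp]
      exact F0_integrable hk1 P hψ.continuous h0 h1 hsupp (by linarith [hp.1])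
        (by linarith [hp.1, hp.2]))
    (by
      refine (mass_tendsto' hk hψ hc h0 hsupp).congr' ?_
      filter_upwards [winF_ev] with p hp
      rw [hmuV p hp])
    (by
      intro c' hc'
      have h5 := exp_tendsto' hk hψ hc h0 hsupp (2 * Real.pi * ∑ q : S, (c' q : ℝ) * lamS k S q)
      rw [if_neg (by
        intro h2
        rw [sum_lamS] at h2
        exact hc' (hI.1 c' ((mul_eq_zero.1 h2).resolve_left hpk.ne')))] at h5
      refine h5.congr' ?_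
      filter_upwards [winF_ev] with p hp
      rw [hmuV p hp]
      congr 1
      funext x
      congr 1
      push_cast
      ring)
    (by
      intro c'
      refine (coeff_tendsto' hk hZ hZ' hS hI hψ hc h0 h1 hsupp c').congr' ?_
      filter_upwards [winF_ev] with p hp
      rw [hmuV p hp]
      congr 1
      funext x
      congr 2
      push_cast
      ring)
    hφ hφ0
    (by
      filter_upwards [winF_ev] with p hp
      rw [hmuV p hp]
      exact conv_integrable hk1 P hψ.continuous h0 h1 hsupp (by linarith [hp.1])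
        (by linarith [hp.1, hp.2]) hφc)
    (c := c) (by
      refine hcc.trans_le (le_of_eq ?_)
      congr 2
      funext u
      rw [torusLaw_real])
  filter_upwards [key, winF_ev] with p h2 hp
  rwa [hmuV p hp] at h2

end

end Pool.Agent.Lib.MP_bc6037_nt
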