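import Mathlib
import Pool.Agent.Lib.MP_bc6037_nt.CritConvex

set_option autoImplicit false

/-!
The convex-order bound over all intervals `[X, X + h]`, `C X^{1-1/k} ≤ h ≤ X`.
-/

open Complex Filter Topology Set MeasureTheory UnitAddTorus
open scoped ContDiff ComplexConjugate

namespace Pool.Agent.Lib.MP_bc6037_nt

open DeltaMellin ZetaGrowth

noncomputable section

variable {k : ℕ}

/-- local integrability of `φ(F0)` -/
lemma conv_local (hk : 1 ≤ k) (P : Polynomial ℝ) {φ : ℝ → ℝ} (hφc : Continuous φ) {X Y : ℝ}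
    (hX : 1 ≤ X) : IntegrableOn (fun x => φ (F0 k P x)) (Ioc X Y) := by
  obtain ⟨Cg, hCg0, hCg⟩ := F0_bound k hk P
  have hfinI : volume (Ioc X Y) ≠ ⊤ := by rw [Real.volume_Ioc]; exact ENNReal.ofReal_ne_top
  set M := Cg * Y ^ (3 / 2 : ℝ) with hM
  obtain ⟨B, hB⟩ := (isCompact_Icc (a := -M) (b := M)).exists_bound_of_continuousOn
    hφc.continuousOn
  refine Measure.integrableOn_of_bounded (M := B) hfinI
    (hφc.measurable.comp (F0_measurable k P)).aestronglyMeasurable ?_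
  filter_upwards [ae_restrict_mem measurableSet_Ioc] with y hy
  refine hB _ (abs_le.1 ?_)
  have hy1 : 1 ≤ y := hX.trans hy.1.le
  refine (hCg y hy1).trans ?_
  rw [hM]
  have := hy.2
  gcongr

/-- elementary: `exp((1-δ)t) ≤ 1 + t` for `0 ≤ t ≤ δ < 1` -/
lemma exp_le_one_add {δ t : ℝ} (hδ : 0 < δ) (hδ1 : δ < 1) (ht0 : 0 ≤ t) (ht : t ≤ δ) :
    Real.exp ((1 - δ) * t) ≤ 1 + t := by
  have h6 := Real.one_sub_le_exp_neg ((1 - δ) * t)
  have h7 : (1 - δ) * t < 1 := by nlinarith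
  have h8 : (0 : ℝ) < 1 - (1 - δ) * t := by linarith
  have h9 : Real.exp ((1 - δ) * t) * (1 - (1 - δ) * t) ≤ 1 := by
    calc Real.exp ((1 - δ) * t) * (1 - (1 - δ) * t) ≤
          Real.exp ((1 - δ) * t) * Real.exp (-((1 - δ) * t)) := by gcongr
      _ = 1 := by rw [← Real.exp_add]; simp
  have h10 : 1 ≤ (1 + t) * (1 - (1 - δ) * t) := by
    have : (1 - δ) * t ≤ δ := by nlinarith
    nlinarith
  exact le_of_mul_le_mul_right (h9.trans h10) h8

/-- **intervals of length at most `η X`** -/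
theorem crit_small (hk : 2 ≤ k) {P : Polynomial ℝ} {Z : ℂ → ℂ}
    (hZ : DifferentiableOn ℂ Z {s : ℂ | 0 < s.re})
    (hZ' : ∀ s : ℂ, 0 < s.re → s ≠ 1 → Z s = riemannZeta s ^ k / s - Q P s)
    {S : Finset ℕ} (hS : ∀ q ∈ S, 0 < q) (hI : RootIndep k S)
    {φ : ℝ → ℝ} (hφ : ConvexOn ℝ univ φ) (hφ0 : ∀ y, 0 ≤ φ y) {c : ℝ} (hc0 : 0 < c)
    (hcc : c < ∫ u in {u : S → ℝ | ∀ i, u i ∈ Ioc (0 : ℝ) 1},
      φ (∑ q : S, lawTerm k q (u q))) :
    ∃ η C X₀ : ℝ, 0 < η ∧ 0 < C ∧ 1 ≤ X₀ ∧ ∀ X : ℝ, X₀ ≤ X → ∀ h : ℝ,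
      C * X ^ (1 - 1 / (k : ℝ)) ≤ h → h ≤ η * X →
      c * h ≤ ∫ x in X..(X + h), φ (F0 k P x) := by
  have hk1 : 1 ≤ k := by omega
  have hkp : (0 : ℝ) < k := by exact_mod_cast (by omega : 0 < k)
  have hkr : (2 : ℝ) ≤ k := by exact_mod_cast hk
  have hφc : Continuous φ := continuousOn_univ.1 (hφ.continuousOn isOpen_univ)
  set E := ∫ u in {u : S → ℝ | ∀ i, u i ∈ Ioc (0 : ℝ) 1}, φ (∑ q : S, lawTerm k q (u q)) with hE
  have hE0 : 0 < E := hc0.trans hcc
  have hpp : 0 ≤ pp k := by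
    unfold pp
    have : 0 ≤ ((k : ℝ) - 1) / (2 * k) := div_nonneg (by linarith) (by linarith)
    linarith
  -- choice of the small parameter
  have hlim : Tendsto (fun δ : ℝ => (1 - δ) * (1 - δ) * ((1 - 5 * δ) * E)) (𝓝[>] 0) (𝓝 E) := by
    have h1 : ContinuousAt (fun δ : ℝ => (1 - δ) * (1 - δ) * ((1 - 5 * δ) * E)) 0 := by fun_prop
    have h3 := h1.tendsto
    have h2 : (1 - (0 : ℝ)) * (1 - 0) * ((1 - 5 * 0) * E) = E := by ring
    rw [h2] at h3
    exact h3.mono_left nhdsWithin_le_nhds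
  obtain ⟨δ, hδ1, hδ2, hδ0⟩ : ∃ δ : ℝ, c < (1 - δ) * (1 - δ) * ((1 - 5 * δ) * E) ∧
      δ < 1 / 8 ∧ 0 < δ := by
    have h1 := hlim.eventually (lt_mem_nhds hcc)
    have h2 : ∀ᶠ δ : ℝ in 𝓝[>] 0, δ < 1 / 8 :=
      nhdsWithin_le_nhds (Iio_mem_nhds (by norm_num))
    have h3 : ∀ᶠ δ : ℝ in 𝓝[>] 0, 0 < δ := self_mem_nhdsWithin
    exact (h1.and (h2.and h3)).exists
  obtain ⟨ψ, hψ, hψc, h0, h1, hsupp, hJ⟩ := exists_bump' hδ0 (by linarith)
  have hcl : (1 - 5 * δ) * E < (∫ s, ψ s) * E := by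
    gcongr
    linarith
  have hB := window_convex' hk hZ hZ' hS hI hψ hψc h0 h1 hsupp (by linarith) hφ hφ0 hcl
  obtain ⟨A, hA⟩ := eventually_winF.1 hB
  -- distortion
  have hdist : ∀ᶠ t : ℝ in 𝓝[>] 0, (1 - δ) * (1 + t) ^ pp k ≤ 1 := by
    have h2 : ContinuousAt (fun t : ℝ => (1 - δ) * (1 + t) ^ pp k) 0 := by
      refine continuousAt_const.mul (ContinuousAt.rpow (by fun_prop) continuousAt_const ?_)
      left; norm_num
    have h3 := h2.tendsto
    simp only [add_zero, Real.one_rpow, mul_one] at h3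
    exact nhdsWithin_le_nhds (h3.eventually (ge_mem_nhds (by linarith)))
  obtain ⟨η₁, hη₁, hη₁0⟩ := (hdist.and self_mem_nhdsWithin).exists
  have hη₁0' : (0 : ℝ) < η₁ := hη₁0
  set A' := max A 1 with hA'
  have hA'1 : 1 ≤ A' := le_max_right _ _
  have hA'A : A ≤ A' := le_max_left _ _
  set η := min (min η₁ δ) (1 / A') with hη
  have hη0 : 0 < η := lt_min (lt_min hη₁0' hδ0) (by positivity)
  have hηδ : η ≤ δ := (min_le_left _ _).trans (min_le_right _ _)
  have hηη : η ≤ η₁ := (min_le_left _ _).trans (min_le_left _ _)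
  have hηA : η ≤ 1 / A' := min_le_right _ _
  set C := 2 * k * A' with hC
  refine ⟨η, C, 1, hη0, by positivity, le_rfl, fun X hX h hh1 hh2 => ?_⟩
  have hX0 : 0 < X := by linarith
  have hXp : 0 < X ^ (1 - 1 / (k : ℝ)) := Real.rpow_pos_of_pos hX0 _
  have hC0 : 0 < C := by positivity
  have hh0 : 0 < h := lt_of_lt_of_le (by positivity) hh1
  set t := h / X with ht
  have ht0 : 0 < t := by positivity
  have htη : t ≤ η := by rw [ht, div_le_iff₀ hX0]; exact hh2
  have hth : X * t = h := by rw [ht]; field_simp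
  set V := X ^ (1 / k : ℝ) with hV
  have hV0 : 0 < V := Real.rpow_pos_of_pos hX0 _
  set κ := V * ((1 - δ) * t / k) with hκ
  have hδ' : 0 < 1 - δ := by linarith
  have hκ0 : 0 < κ := by positivity
  have hVX : V * X ^ (1 - 1 / (k : ℝ)) = X := by
    rw [hV, ← Real.rpow_add hX0]
    rw [show 1 / (k : ℝ) + (1 - 1 / (k : ℝ)) = 1 by ring, Real.rpow_one]
  -- κ is large
  have hκA : A ≤ κ := by
    have h2 : κ * (k * X ^ (1 - 1 / (k : ℝ))) = (1 - δ) * h := by
      rw [hκ]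
      have : V * ((1 - δ) * t / k) * (k * X ^ (1 - 1 / (k : ℝ))) =
          (V * X ^ (1 - 1 / (k : ℝ))) * ((1 - δ) * t) := by field_simp
      rw [this, hVX, ← hth]; ring
    have h3 : A' * (k * X ^ (1 - 1 / (k : ℝ))) ≤ κ * (k * X ^ (1 - 1 / (k : ℝ))) := by
      rw [h2]
      have h4 : (1 / 2 : ℝ) * h ≤ (1 - δ) * h := by
        gcongr; linarith
      refine le_trans ?_ h4
      calc A' * (k * X ^ (1 - 1 / (k : ℝ))) = 1 / 2 * (C * X ^ (1 - 1 / (k : ℝ))) := by
            rw [hC]; ring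
        _ ≤ 1 / 2 * h := by gcongr
    exact hA'A.trans (le_of_mul_le_mul_right h3 (by positivity))
  -- V / κ is large
  have hVκ : A ≤ V / κ := by
    have h2 : V / κ = k / ((1 - δ) * t) := by rw [hκ]; field_simp
    rw [h2, le_div_iff₀ (by positivity)]
    have h3 : (1 - δ) * t ≤ 1 / A' := by
      calc (1 - δ) * t ≤ 1 * η := by gcongr; linarith
        _ ≤ 1 / A' := by rw [one_mul]; exact hηA
    calc A * ((1 - δ) * t) ≤ A' * ((1 - δ) * t) := by gcongr
      _ ≤ A' * (1 / A') := by gcongr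
      _ = 1 := by field_simp
      _ ≤ k := by linarith
  have h2 := hA κ V hκA hVκ
  simp only at h2
  set Y := X + h with hY
  have hXY : X ≤ Y := by linarith
  have hY0 : 0 < Y := by linarith
  -- the window lies in the interval
  have hsupp' : ∀ x : ℝ, 0 < x → wdens k ψ κ 0 V x ≠ 0 → X < x ∧ x ≤ Y := by
    intro x hx hne
    obtain ⟨h5, h6⟩ := supp_wdens (k := k) (ε := 0) hsupp hκ0 hV0 hne
    rw [HH_zero] at h6
    have hkk : (0 : ℝ) < 1 / k := by positivity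
    refine ⟨(Real.rpow_lt_rpow_iff hX0.le hx.le hkk).1 h5, ?_⟩
    have e3 : x ^ (1 / k : ℝ) ≤ V * Real.exp ((1 - δ) * t / k) := by
      have h7 : x ^ (1 / k : ℝ) ≤ V * (1 + (1 - δ) * t / k) := by
        rw [mul_add, mul_one, ← hκ]; exact h6.le
      refine h7.trans ?_
      have := Real.add_one_le_exp ((1 - δ) * t / k)
      gcongr
      linarith
    have e4 : x ≤ X * Real.exp ((1 - δ) * t) := by
      have h8 := Real.rpow_le_rpow (Real.rpow_pos_of_pos hx _).le e3 hkp.le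
      rw [← Real.rpow_mul hx.le, one_div_mul_cancel hkp.ne', Real.rpow_one,
        Real.mul_rpow hV0.le (Real.exp_pos _).le, hV, ← Real.rpow_mul hX0.le,
        one_div_mul_cancel hkp.ne', Real.rpow_one, ← Real.exp_mul] at h8
      have e5 : (1 - δ) * t / k * k = (1 - δ) * t := by field_simp
      rwa [e5] at h8
    have e6 := exp_le_one_add hδ0 (by linarith) ht0.le (htη.trans hηδ)
    calc x ≤ X * Real.exp ((1 - δ) * t) := e4
      _ ≤ X * (1 + t) := by gcongr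
      _ = Y := by rw [mul_add, mul_one, hth]
  have hint := conv_local hk1 P hφc (Y := Y) hX
  have hVb : 0 < V ^ bt k := Real.rpow_pos_of_pos hV0 _
  have hD0 : 0 < k * (V ^ bt k * HH κ 0 V) := by rw [HH_zero]; positivity
  set Mx := Y ^ pp k / (k * (V ^ bt k * HH κ 0 V)) with hMx
  have hMx0 : 0 ≤ Mx := div_nonneg (Real.rpow_nonneg hY0.le _) hD0.le
  have h5 : (1 - 5 * δ) * E ≤ Mx * ∫ x in Ioc X Y, φ (F0 k P x) := by
    refine h2.trans ?_
    rw [integral_wmeas hψ.continuous h0 hκ0 hV0]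
    have hsub : Ioc X Y ⊆ Ioi (1 : ℝ) := fun x hx => lt_of_le_of_lt hX hx.1
    have hzero : ∀ x ∈ Ioi (1 : ℝ) \ Ioc X Y, wdens k ψ κ 0 V x • φ (F0 k P x) = 0 := by
      intro x hx
      have hx1 : (1 : ℝ) < x := hx.1
      have : wdens k ψ κ 0 V x = 0 := by
        by_contra hne
        exact hx.2 (hsupp' x (by linarith) hne)
      rw [this, zero_smul]
    rw [setIntegral_eq_of_subset_of_forall_sdiff_eq_zero measurableSet_Ioi hsub hzero,
      ← integral_const_mul]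
    refine integral_mono_of_nonneg ?_ (hint.const_mul _) ?_
    · filter_upwards [ae_restrict_mem measurableSet_Ioc] with x hx
      have hx0 : 0 ≤ x := by linarith [hx.1]
      exact mul_nonneg (wdens_nonneg h0 hκ0 hV0 hx0) (hφ0 _)
    · filter_upwards [ae_restrict_mem measurableSet_Ioc] with x hx
      have hx0 : 0 < x := by linarith [hx.1]
      simp only [smul_eq_mul]
      refine mul_le_mul_of_nonneg_right ?_ (hφ0 _)
      exact wdens_le hk1 h0 h1 hsupp hκ0 hV0 hx0 (fun _ => hx.2) hY0.le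
  rw [intervalIntegral.integral_of_le hXY]
  set J := ∫ x in Ioc X Y, φ (F0 k P x) with hJdef
  have hJ0 : 0 ≤ J := setIntegral_nonneg measurableSet_Ioc fun x _ => hφ0 _
  -- size of the density
  have h6 : (1 - δ) * (1 - δ) * h * Mx ≤ 1 := by
    have hXpp : 0 < X ^ pp k := Real.rpow_pos_of_pos hX0 _
    have e1 : Y = X * (1 + t) := by rw [mul_add, mul_one, hth]
    have e2 : Y ^ pp k = X ^ pp k * (1 + t) ^ pp k := by
      rw [e1, Real.mul_rpow hX0.le (by positivity)]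
    have e4 : k * (V ^ bt k * HH κ 0 V) = (1 - δ) * h * X ^ pp k := by
      have e5 : V ^ bt k * V = X * X ^ ((pp k) - 1) * X := by
        have hV1 : V ^ bt k * V = V ^ (bt k + 1) := by rw [Real.rpow_add hV0, Real.rpow_one]
        have hX1 : X * X ^ (pp k - 1) * X = X ^ (pp k + 1) := by
          have : X * X ^ (pp k - 1) * X = X ^ (1 : ℝ) * X ^ (pp k - 1) * X ^ (1 : ℝ) := by
            rw [Real.rpow_one]
          rw [this, ← Real.rpow_add hX0, ← Real.rpow_add hX0]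
          congr 1; ring
        rw [hV1, hX1, hV, ← Real.rpow_mul hX0.le]
        congr 1
        rw [pp, bt]; field_simp; ring
      have e7 : X ^ pp k = X * X ^ (pp k - 1) := by
        nth_rewrite 2 [← Real.rpow_one X]
        rw [← Real.rpow_add hX0]; congr 1; ring
      rw [HH_zero, hκ, e7]
      have : (k : ℝ) * (V ^ bt k * (V * ((1 - δ) * t / k))) = (V ^ bt k * V) * ((1 - δ) * t) := by
        field_simp
      rw [this, e5, ← hth]
      ring
    have e3 : (1 - δ) * (1 - δ) * h * Mx = (1 - δ) * (1 + t) ^ pp k := by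
      rw [hMx, e4, e2]
      field_simp
    rw [e3]
    calc (1 - δ) * (1 + t) ^ pp k ≤ (1 - δ) * (1 + η₁) ^ pp k := by
          gcongr
          exact htη.trans hηη
      _ ≤ 1 := hη₁
  have h7 : (1 - δ) * (1 - δ) * h * ((1 - 5 * δ) * E) ≤ J := by
    calc (1 - δ) * (1 - δ) * h * ((1 - 5 * δ) * E)
        ≤ (1 - δ) * (1 - δ) * h * (Mx * J) := by gcongr
      _ = ((1 - δ) * (1 - δ) * h * Mx) * J := by ring
      _ ≤ 1 * J := by gcongr
      _ = J := one_mul J
  calc c * h ≤ ((1 - δ) * (1 - δ) * ((1 - 5 * δ) * E)) * h := by gcongr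
    _ = (1 - δ) * (1 - δ) * h * ((1 - 5 * δ) * E) := by ring
    _ ≤ J := h7

/-- **all intervals of length between `C X^{1-1/k}` and `X`** -/
theorem crit_main (hk : 2 ≤ k) {P : Polynomial ℝ} {Z : ℂ → ℂ}
    (hZ : DifferentiableOn ℂ Z {s : ℂ | 0 < s.re})
    (hZ' : ∀ s : ℂ, 0 < s.re → s ≠ 1 → Z s = riemannZeta s ^ k / s - Q P s)
    {S : Finset ℕ} (hS : ∀ q ∈ S, 0 < q) (hI : RootIndep k S)
    {φ : ℝ → ℝ} (hφ : ConvexOn ℝ univ φ) (hφ0 : ∀ y, 0 ≤ φ y) {c : ℝ}
    (hcc : c < ∫ u in {u : S → ℝ | ∀ i, u i ∈ Ioc (0 : ℝ) 1},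
      φ (∑ q : S, lawTerm k q (u q))) :
    ∃ C X₀ : ℝ, ∀ X : ℝ, X₀ ≤ X → ∀ h : ℝ,
      C * X ^ (1 - 1 / (k : ℝ)) ≤ h → h ≤ X →
      c * h ≤ ∫ x in X..(X + h), φ (F0 k P x) := by
  have hk1 : 1 ≤ k := by omega
  have hkp : (0 : ℝ) < k := by exact_mod_cast (by omega : 0 < k)
  have hkr : (2 : ℝ) ≤ k := by exact_mod_cast hk
  have hφc : Continuous φ := continuousOn_univ.1 (hφ.continuousOn isOpen_univ)
  rcases le_or_gt c 0 with hc0 | hc0
  · refine ⟨0, 1, fun X hX h hh1 hh2 => ?_⟩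
    rw [zero_mul] at hh1
    have h1 : 0 ≤ ∫ y in X..(X + h), φ (F0 k P y) :=
      intervalIntegral.integral_nonneg (by linarith) fun u _ => hφ0 _
    nlinarith
  obtain ⟨η, C, X₁, hη0, hC0, hX₁, hsmall⟩ := crit_small hk hZ hZ' hS hI hφ hφ0 hc0 hcc
  set N : ℕ := ⌈1 / η⌉₊ + 1 with hN
  have hN0 : 0 < N := by omega
  have hNp : (0 : ℝ) < N := by exact_mod_cast hN0
  have hNη : 1 ≤ η * N := by
    have h1 : 1 / η ≤ N := by
      rw [hN]; push_cast
      have := Nat.le_ceil (1 / η)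
      linarith
    rw [div_le_iff₀ hη0] at h1
    linarith
  -- for large X the pieces are long enough
  have hlarge : ∀ᶠ X : ℝ in atTop, C * (2 * X) ^ (1 - 1 / (k : ℝ)) * N ≤ η * X := by
    have h1 : Tendsto (fun X : ℝ => X ^ (1 / (k : ℝ))) atTop atTop :=
      tendsto_rpow_atTop (by positivity)
    filter_upwards [h1.eventually_ge_atTop (C * 2 ^ (1 - 1 / (k : ℝ)) * N / η),
      eventually_gt_atTop 0] with X h2 h3
    rw [div_le_iff₀ hη0] at h2
    have h4 : X = X ^ (1 - 1 / (k : ℝ)) * X ^ (1 / (k : ℝ)) := by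
      rw [← Real.rpow_add h3, sub_add_cancel, Real.rpow_one]
    have h5 : 0 < X ^ (1 - 1 / (k : ℝ)) := Real.rpow_pos_of_pos h3 _
    rw [Real.mul_rpow (by norm_num) h3.le]
    calc C * (2 ^ (1 - 1 / (k : ℝ)) * X ^ (1 - 1 / (k : ℝ))) * N =
          (C * 2 ^ (1 - 1 / (k : ℝ)) * N) * X ^ (1 - 1 / (k : ℝ)) := by ring
      _ ≤ (X ^ (1 / (k : ℝ)) * η) * X ^ (1 - 1 / (k : ℝ)) := by gcongr
      _ = η * (X ^ (1 - 1 / (k : ℝ)) * X ^ (1 / (k : ℝ))) := by ring
      _ = η * X := by rw [← h4]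
  obtain ⟨X₂, hX₂⟩ := eventually_atTop.1 hlarge
  refine ⟨C, max X₁ X₂, fun X hX h hh1 hh2 => ?_⟩
  have hXX₁ : X₁ ≤ X := (le_max_left _ _).trans hX
  have hXX₂ : X₂ ≤ X := (le_max_right _ _).trans hX
  have hX1 : 1 ≤ X := hX₁.trans hXX₁
  have hX0 : 0 < X := by linarith
  rcases le_or_gt h (η * X) with hsm | hbig
  · exact hsmall X hXX₁ h hh1 hsm
  have hh0 : 0 < h := lt_trans (by positivity) hbig
  set a : ℕ → ℝ := fun i => X + i * (h / N) with ha
  have hstep : ∀ i, a (i + 1) = a i + h / N := by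
    intro i; simp only [ha]; push_cast; ring
  have hNpos : 0 < h / N := by positivity
  have haX : ∀ i, X ≤ a i := by
    intro i; simp only [ha]
    have : 0 ≤ (i : ℝ) * (h / N) := by positivity
    linarith
  have ha2 : ∀ i < N, a i ≤ 2 * X := by
    intro i hi
    have hi' : (i : ℝ) ≤ N := by exact_mod_cast hi.le
    have : (i : ℝ) * (h / N) ≤ h := by
      calc (i : ℝ) * (h / N) ≤ N * (h / N) := by gcongr
        _ = h := by field_simp
    simp only [ha]; linarith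
  have hpiece : ∀ i < N, c * (h / N) ≤ ∫ x in (a i)..(a (i + 1)), φ (F0 k P x) := by
    intro i hi
    rw [hstep]
    refine hsmall (a i) (hXX₁.trans (haX i)) (h / N) ?_ ?_
    · have h3 := hX₂ X hXX₂
      have h4 : (a i) ^ (1 - 1 / (k : ℝ)) ≤ (2 * X) ^ (1 - 1 / (k : ℝ)) := by
        apply Real.rpow_le_rpow (by linarith [haX i]) (ha2 i hi)
        have : 1 / (k : ℝ) ≤ 1 := by rw [div_le_iff₀ hkp]; linarith
        linarith
      rw [le_div_iff₀ hNp]
      calc C * (a i) ^ (1 - 1 / (k : ℝ)) * N ≤ C * (2 * X) ^ (1 - 1 / (k : ℝ)) * N := by gcongr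
        _ ≤ η * X := h3
        _ ≤ h := hbig.le
    · rw [div_le_iff₀ hNp]
      calc h ≤ X := hh2
        _ ≤ X * (η * N) := by nlinarith
        _ ≤ a i * (η * N) := by gcongr; exact haX i
        _ = η * a i * N := by ring
  have hii : ∀ i < N, IntervalIntegrable (fun x => φ (F0 k P x)) volume (a i) (a (i + 1)) := by
    intro i _
    rw [intervalIntegrable_iff_integrableOn_Ioc_of_le (by rw [hstep]; linarith)]
    exact conv_local hk1 P hφc (hX1.trans (haX i))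
  have hsum := intervalIntegral.sum_integral_adjacent_intervals hii
  have ha0 : a 0 = X := by simp [ha]
  have haN : a N = X + h := by simp only [ha]; field_simp
  rw [ha0, haN] at hsum
  rw [← hsum]
  calc c * h = ∑ i ∈ Finset.range N, c * (h / N) := by
        rw [Finset.sum_const, Finset.card_range, nsmul_eq_mul]; field_simp
    _ ≤ ∑ i ∈ Finset.range N, ∫ x in (a i)..(a (i + 1)), φ (F0 k P x) :=
        Finset.sum_le_sum fun i hi => hpiece i (Finset.mem_range.1 hi)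

end

end Pool.Agent.Lib.MP_bc6037_nt
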