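import Mathlib
import Pool.Agent.Lib.MP_bc6037_nt.CritMain

set_option autoImplicit false

/-!
Rigidity: on a window the excess of the mean square over the mean square of the limit law bounds
the Kantorovich distance between the distribution on the window and the limit law.
-/

open Filter Topology Set MeasureTheory UnitAddTorus

namespace Pool.Agent.Lib.MP_bc6037_nt.Rigid

open Pool.Agent.Lib.MP_bc6037_nt DeltaMellin ZetaGrowth

noncomputable section

/-! ### Properties of all long windows -/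

/-- property of all long windows -/
def EvW (k : ℕ) (Q : ℝ → ℝ → Prop) : Prop :=
  ∃ C X₀ : ℝ, ∀ X : ℝ, X₀ ≤ X → ∀ h : ℝ, C * X ^ (1 - 1 / (k : ℝ)) ≤ h → h ≤ X → Q X h

lemma EvW.mono {k : ℕ} {Q R : ℝ → ℝ → Prop} (hQ : EvW k Q) (h : ∀ X h, Q X h → R X h) :
    EvW k R := by
  obtain ⟨C, X₀, h1⟩ := hQ
  exact ⟨C, X₀, fun X hX h' hh1 hh2 => h _ _ (h1 X hX h' hh1 hh2)⟩

lemma EvW.and {k : ℕ} {Q R : ℝ → ℝ → Prop} (hQ : EvW k Q) (hR : EvW k R) :
    EvW k (fun X h => Q X h ∧ R X h) := by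
  obtain ⟨C, X₀, h1⟩ := hQ
  obtain ⟨C', X₀', h2⟩ := hR
  refine ⟨max C C', max (max X₀ X₀') 0, fun X hX h hh1 hh2 => ?_⟩
  have hX0 : 0 ≤ X ^ (1 - 1 / (k : ℝ)) := Real.rpow_nonneg (le_trans (le_max_right _ _) hX) _
  exact ⟨h1 X ((le_max_left _ _).trans ((le_max_left _ _).trans hX)) h
      ((mul_le_mul_of_nonneg_right (le_max_left _ _) hX0).trans hh1) hh2,
    h2 X ((le_max_right _ _).trans ((le_max_left _ _).trans hX)) h
      ((mul_le_mul_of_nonneg_right (le_max_right _ _) hX0).trans hh1) hh2⟩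

lemma EvW.pos (k : ℕ) : EvW k (fun X h => 1 ≤ X ∧ 0 < h) := by
  refine ⟨1, 1, fun X hX h hh1 _ => ⟨hX, lt_of_lt_of_le ?_ hh1⟩⟩
  have : 0 < X ^ (1 - 1 / (k : ℝ)) := Real.rpow_pos_of_pos (by linarith) _
  linarith

lemma EvW.finset {k : ℕ} {ι : Type*} (G : Finset ι) {Q : ι → ℝ → ℝ → Prop}
    (h : ∀ i ∈ G, EvW k (Q i)) : EvW k (fun X h => ∀ i ∈ G, Q i X h) := by
  classical
  induction G using Finset.induction_on with
  | empty => exact ⟨0, 0, fun _ _ _ _ _ i hi => by simp at hi⟩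
  | insert a G ha ih =>
    have h1 := (h a (Finset.mem_insert_self _ _)).and
      (ih fun i hi => h i (Finset.mem_insert_of_mem hi))
    refine h1.mono fun X h' hQ i hi => ?_
    rcases Finset.mem_insert.1 hi with rfl | hi
    · exact hQ.1
    · exact hQ.2 i hi

/-! ### The convex envelope of `λ/2 y² - g` -/

/-- supremum of affine functions -/
def env (lam : ℝ) (g : ℝ → ℝ) (y : ℝ) : ℝ := ⨆ z : ℝ, (lam * y * z - lam / 2 * z ^ 2 - g z)

lemma env_term_le {lam M : ℝ} (hlam : 0 < lam) {g : ℝ → ℝ}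
    (hg : ∀ y z, |g y - g z| ≤ M * |y - z|) (y z : ℝ) :
    lam * y * z - lam / 2 * z ^ 2 - g z ≤ lam / 2 * y ^ 2 - g y + M ^ 2 / (2 * lam) := by
  have h1 : g y - g z ≤ M * |y - z| := (le_abs_self _).trans (hg y z)
  have h2 : |y - z| ^ 2 = (y - z) ^ 2 := sq_abs _
  have h3 : M * |y - z| ≤ lam / 2 * |y - z| ^ 2 + M ^ 2 / (2 * lam) := by
    have h4 : 0 ≤ (lam * |y - z| - M) ^ 2 / (2 * lam) := by positivity
    have h5 : (lam * |y - z| - M) ^ 2 / (2 * lam) =
        lam / 2 * |y - z| ^ 2 - M * |y - z| + M ^ 2 / (2 * lam) := by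
      field_simp
      ring
    linarith
  rw [h2] at h3
  nlinarith

lemma env_bdd {lam M : ℝ} (hlam : 0 < lam) {g : ℝ → ℝ}
    (hg : ∀ y z, |g y - g z| ≤ M * |y - z|) (y : ℝ) :
    BddAbove (range fun z : ℝ => lam * y * z - lam / 2 * z ^ 2 - g z) := by
  refine ⟨lam / 2 * y ^ 2 - g y + M ^ 2 / (2 * lam), ?_⟩
  rintro _ ⟨z, rfl⟩
  exact env_term_le hlam hg y z

lemma env_le {lam M : ℝ} (hlam : 0 < lam) {g : ℝ → ℝ}
    (hg : ∀ y z, |g y - g z| ≤ M * |y - z|) (y : ℝ) :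
    env lam g y ≤ lam / 2 * y ^ 2 - g y + M ^ 2 / (2 * lam) :=
  ciSup_le fun z => env_term_le hlam hg y z

lemma le_env {lam M : ℝ} (hlam : 0 < lam) {g : ℝ → ℝ}
    (hg : ∀ y z, |g y - g z| ≤ M * |y - z|) (y : ℝ) :
    lam / 2 * y ^ 2 - g y ≤ env lam g y := by
  refine le_trans (le_of_eq ?_) (le_ciSup (env_bdd hlam hg y) y)
  ring

lemma env_convex {lam M : ℝ} (hlam : 0 < lam) {g : ℝ → ℝ}
    (hg : ∀ y z, |g y - g z| ≤ M * |y - z|) : ConvexOn ℝ univ (env lam g) := by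
  refine ⟨convex_univ, fun x _ y _ a b ha hb hab => ?_⟩
  simp only [smul_eq_mul]
  refine ciSup_le fun z => ?_
  have h1 := le_ciSup (env_bdd hlam hg x) z
  have h2 := le_ciSup (env_bdd hlam hg y) z
  have h3 := mul_le_mul_of_nonneg_left h1 ha
  have h4 := mul_le_mul_of_nonneg_left h2 hb
  have h5 : lam * (a * x + b * y) * z - lam / 2 * z ^ 2 - g z =
      a * (lam * x * z - lam / 2 * z ^ 2 - g z) + b * (lam * y * z - lam / 2 * z ^ 2 - g z) := by
    have hb' : b = 1 - a := by linarith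
    rw [hb']
    ring
  rw [h5]
  exact add_le_add h3 h4

lemma env_lower {lam M : ℝ} (hlam : 0 < lam) {g : ℝ → ℝ}
    (hg : ∀ y z, |g y - g z| ≤ M * |y - z|) (y : ℝ) :
    -(|g 0| + M ^ 2 / (2 * lam)) ≤ env lam g y := by
  have h1 := le_env hlam hg y
  have h2 := env_term_le hlam hg 0 y
  have h3 : -|g 0| ≤ g 0 := neg_abs_le _
  have h4 : g 0 ≤ |g 0| := le_abs_self _
  -- `lam / 2 y² - g y ≥ -g 0 - M² / (2 lam)`
  have h5 : g y - g 0 ≤ M * |y - 0| := (le_abs_self _).trans (hg y 0)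
  rw [sub_zero] at h5
  have h6 : M * |y| ≤ lam / 2 * y ^ 2 + M ^ 2 / (2 * lam) := by
    have h7 : 0 ≤ (lam * |y| - M) ^ 2 / (2 * lam) := by positivity
    have h8 : (lam * |y| - M) ^ 2 / (2 * lam) =
        lam / 2 * |y| ^ 2 - M * |y| + M ^ 2 / (2 * lam) := by
      field_simp
      ring
    rw [sq_abs] at h8
    linarith
  linarith

/-! ### The limit law of a finite set of components -/

/-- expectation of `φ` under the law of the sum of the components in `S` -/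
def EL (k : ℕ) (S : Finset ℕ) (φ : ℝ → ℝ) : ℝ :=
  ∫ u in {u : S → ℝ | ∀ i, u i ∈ Ioc (0 : ℝ) 1}, φ (∑ q : S, lawTerm k q (u q))

variable {k : ℕ}

lemma law_cont (hk : 2 ≤ k) {S : Finset ℕ} (hS : ∀ q ∈ S, 0 < q) :
    Continuous (fun u : S → ℝ => ∑ q : S, lawTerm k q (u q)) := by
  have h : (fun u : S → ℝ => ∑ q : S, lawTerm k q (u q)) =
      fun u : S → ℝ => torusLaw hk hS (fun q => (u q : UnitAddCircle)) := by
    funext u
    exact (torusLaw_real hk hS u).symm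
  rw [h]
  refine (torusLaw hk hS).continuous.comp (continuous_pi fun q => ?_)
  exact (AddCircle.continuous_mk' 1).comp (continuous_apply q)

lemma box_subset {S : Finset ℕ} : {u : S → ℝ | ∀ i, u i ∈ Ioc (0 : ℝ) 1} ⊆
    Set.pi univ fun _ => Icc (0 : ℝ) 1 := fun u hu i _ => Ioc_subset_Icc_self (hu i)

lemma law_integrable (hk : 2 ≤ k) {S : Finset ℕ} (hS : ∀ q ∈ S, 0 < q) {φ : ℝ → ℝ}
    (hφ : Continuous φ) : IntegrableOn (fun u : S → ℝ => φ (∑ q : S, lawTerm k q (u q)))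
      {u : S → ℝ | ∀ i, u i ∈ Ioc (0 : ℝ) 1} :=
  ((hφ.comp (law_cont hk hS)).continuousOn.integrableOn_compact
    (isCompact_univ_pi fun _ => isCompact_Icc)).mono_set box_subset

lemma box_vol (S : Finset ℕ) : (volume {u : S → ℝ | ∀ i, u i ∈ Ioc (0 : ℝ) 1}) = 1 := by
  have h : {u : S → ℝ | ∀ i, u i ∈ Ioc (0 : ℝ) 1} = Set.pi univ fun _ => Ioc (0 : ℝ) 1 := by
    ext u
    simp [Set.mem_pi]
  rw [h, Real.volume_pi_Ioc]
  simp

lemma EL_const (S : Finset ℕ) (c : ℝ) : EL k S (fun _ => c) = c := by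
  unfold EL
  rw [setIntegral_const, measureReal_def, box_vol]
  simp

lemma EL_mono (hk : 2 ≤ k) {S : Finset ℕ} (hS : ∀ q ∈ S, 0 < q) {φ ψ : ℝ → ℝ}
    (hφ : Continuous φ) (hψ : Continuous ψ) (h : ∀ y, φ y ≤ ψ y) : EL k S φ ≤ EL k S ψ := by
  unfold EL
  exact integral_mono (law_integrable hk hS hφ) (law_integrable hk hS hψ) fun u => h _

lemma EL_add (hk : 2 ≤ k) {S : Finset ℕ} (hS : ∀ q ∈ S, 0 < q) {φ ψ : ℝ → ℝ}
    (hφ : Continuous φ) (hψ : Continuous ψ) :
    EL k S (fun y => φ y + ψ y) = EL k S φ + EL k S ψ := by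
  unfold EL
  exact integral_add (law_integrable hk hS hφ) (law_integrable hk hS hψ)

lemma EL_mul (S : Finset ℕ) (c : ℝ) (φ : ℝ → ℝ) :
    EL k S (fun y => c * φ y) = c * EL k S φ := by
  unfold EL
  exact integral_const_mul _ _

/-! ### One-sided bound on windows -/

lemma lip_cont {M : ℝ} {g : ℝ → ℝ} (hg : ∀ y z, |g y - g z| ≤ M * |y - z|) : Continuous g := by
  refine LipschitzWith.continuous (K := (max M 0).toNNReal) (LipschitzWith.of_dist_le_mul ?_)
  intro y z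
  rw [Real.dist_eq, Real.dist_eq, Real.coe_toNNReal _ (le_max_right _ _)]
  exact (hg y z).trans (mul_le_mul_of_nonneg_right (le_max_left _ _) (abs_nonneg _))

lemma ii_comp (hk : 1 ≤ k) (P : Polynomial ℝ) {φ : ℝ → ℝ} (hφc : Continuous φ) {X h : ℝ}
    (hX : 1 ≤ X) (hh : 0 ≤ h) :
    IntervalIntegrable (fun x => φ (F0 k P x)) volume X (X + h) := by
  rw [intervalIntegrable_iff_integrableOn_Ioc_of_le (by linarith)]
  exact conv_local hk P hφc hX

theorem one_sided (hk : 2 ≤ k) {P : Polynomial ℝ} {Z : ℂ → ℂ}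
    (hZ : DifferentiableOn ℂ Z {s : ℂ | 0 < s.re})
    (hZ' : ∀ s : ℂ, 0 < s.re → s ≠ 1 → Z s = riemannZeta s ^ k / s - Q P s)
    {S : Finset ℕ} (hS : ∀ q ∈ S, 0 < q) (hI : RootIndep k S)
    {lam M : ℝ} (hlam : 0 < lam) {g : ℝ → ℝ} (hg : ∀ y z, |g y - g z| ≤ M * |y - z|)
    {ε : ℝ} (hε : 0 < ε) :
    EvW k (fun X h => ∫ x in X..(X + h), g (F0 k P x) ≤ EL k S g * h +
      lam / 2 * ((∫ x in X..(X + h), F0 k P x ^ 2) - EL k S (fun y => y ^ 2) * h) +
      (M ^ 2 / (2 * lam) + ε) * h) := by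
  have hk1 : 1 ≤ k := by omega
  set c0 := |g 0| + M ^ 2 / (2 * lam) with hc0
  have hgc := lip_cont hg
  set φ : ℝ → ℝ := fun y => env lam g y + c0 with hφ
  have hφconv : ConvexOn ℝ univ φ := (env_convex hlam hg).add_const c0
  have hφ0 : ∀ y, 0 ≤ φ y := fun y => by
    have := env_lower hlam hg y
    rw [hφ]
    simp only
    linarith
  have hφc : Continuous φ := continuousOn_univ.1 (hφconv.continuousOn isOpen_univ)
  have hcc : EL k S φ - ε < ∫ u in {u : S → ℝ | ∀ i, u i ∈ Ioc (0 : ℝ) 1},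
      φ (∑ q : S, lawTerm k q (u q)) := by
    have : EL k S φ - ε < EL k S φ := by linarith
    exact this
  have key : EvW k (fun X h => (EL k S φ - ε) * h ≤ ∫ x in X..(X + h), φ (F0 k P x)) :=
    crit_main hk hZ hZ' hS hI hφconv hφ0 hcc
  refine (key.and (EvW.pos k)).mono fun X h hq => ?_
  obtain ⟨h1, hX, hh⟩ := hq
  have hq2 : Continuous fun y : ℝ => y ^ 2 := by fun_prop
  -- upper bound for the window integral
  have h2 : ∫ x in X..(X + h), φ (F0 k P x) ≤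
      ∫ x in X..(X + h), (lam / 2 * F0 k P x ^ 2 - g (F0 k P x) + (M ^ 2 / (2 * lam) + c0)) := by
    refine intervalIntegral.integral_mono_on (by linarith) (ii_comp hk1 P hφc hX hh.le)
      (ii_comp hk1 P (φ := fun y => lam / 2 * y ^ 2 - g y + (M ^ 2 / (2 * lam) + c0))
        (by fun_prop) hX hh.le) fun x _ => ?_
    have := env_le hlam hg (F0 k P x)
    rw [hφ]
    simp only
    linarith
  have i1 := ii_comp hk1 P hq2 hX hh.le
  have i2 := ii_comp hk1 P hgc hX hh.le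
  have h3 : ∫ x in X..(X + h), (lam / 2 * F0 k P x ^ 2 - g (F0 k P x) +
      (M ^ 2 / (2 * lam) + c0)) =
      lam / 2 * (∫ x in X..(X + h), F0 k P x ^ 2) - (∫ x in X..(X + h), g (F0 k P x)) +
      (M ^ 2 / (2 * lam) + c0) * h := by
    rw [intervalIntegral.integral_add ((i1.const_mul (lam / 2)).sub i2)
      intervalIntegrable_const, intervalIntegral.integral_sub (i1.const_mul (lam / 2)) i2,
      intervalIntegral.integral_const_mul, intervalIntegral.integral_const]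
    simp only [smul_eq_mul]
    ring
  -- lower bound for the law
  have h4 : lam / 2 * EL k S (fun y => y ^ 2) - EL k S g + c0 ≤ EL k S φ := by
    have e1 : EL k S (fun y => (lam / 2 * y ^ 2 + (-1) * g y) + c0) =
        lam / 2 * EL k S (fun y => y ^ 2) - EL k S g + c0 := by
      rw [EL_add hk hS (by fun_prop) continuous_const, EL_add hk hS (by fun_prop) (by fun_prop),
        EL_mul, EL_mul, EL_const]
      ring
    rw [← e1]
    refine EL_mono hk hS (by fun_prop) hφc fun y => ?_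
    have := le_env hlam hg y
    rw [hφ]
    simp only
    linarith
  have h5 := mul_le_mul_of_nonneg_right h4 hh.le
  rw [h3] at h2
  nlinarith

/-- two-sided version: the mean square is at most `E Y² + δ²` -/
theorem two_sided (hk : 2 ≤ k) {P : Polynomial ℝ} {Z : ℂ → ℂ}
    (hZ : DifferentiableOn ℂ Z {s : ℂ | 0 < s.re})
    (hZ' : ∀ s : ℂ, 0 < s.re → s ≠ 1 → Z s = riemannZeta s ^ k / s - Q P s)
    {S : Finset ℕ} (hS : ∀ q ∈ S, 0 < q) (hI : RootIndep k S)
    {δ : ℝ} (hδ : 0 < δ) {g : ℝ → ℝ} (hg : ∀ y z, |g y - g z| ≤ |y - z|)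
    {ε : ℝ} (hε : 0 < ε) :
    EvW k (fun X h => (∫ x in X..(X + h), F0 k P x ^ 2) ≤
        (EL k S (fun y => y ^ 2) + δ ^ 2) * h →
      |(∫ x in X..(X + h), g (F0 k P x)) - EL k S g * h| ≤ (δ + ε) * h) := by
  have hg1 : ∀ y z, |g y - g z| ≤ 1 * |y - z| := fun y z => by rw [one_mul]; exact hg y z
  have hg2 : ∀ y z, |-g y - -g z| ≤ 1 * |y - z| := fun y z => by
    rw [one_mul, ← abs_neg]
    have : -(-g y - -g z) = g y - g z := by ring
    rw [this]
    exact hg y z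
  have a1 := one_sided hk hZ hZ' hS hI (lam := 1 / δ) (by positivity) hg1 hε
  have a2 := one_sided hk hZ hZ' hS hI (lam := 1 / δ) (by positivity) (g := fun y => -g y) hg2 hε
  refine ((a1.and a2).and (EvW.pos k)).mono fun X h hq hms => ?_
  obtain ⟨⟨b1, b2⟩, hX, hh⟩ := hq
  have e1 : EL k S (fun y => -g y) = -EL k S g := by
    have := EL_mul (k := k) S (-1) g
    simp only [neg_mul, one_mul] at this
    exact this
  rw [intervalIntegral.integral_neg, e1] at b2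
  have e2 : 1 / δ / 2 * ((∫ x in X..(X + h), F0 k P x ^ 2) - EL k S (fun y => y ^ 2) * h) ≤
      δ / 2 * h := by
    have h1 : (∫ x in X..(X + h), F0 k P x ^ 2) - EL k S (fun y => y ^ 2) * h ≤ δ ^ 2 * h := by
      linarith
    calc 1 / δ / 2 * ((∫ x in X..(X + h), F0 k P x ^ 2) - EL k S (fun y => y ^ 2) * h)
        ≤ 1 / δ / 2 * (δ ^ 2 * h) := mul_le_mul_of_nonneg_left h1 (by positivity)
      _ = δ / 2 * h := by field_simp
  have e3 : (1 : ℝ) ^ 2 / (2 * (1 / δ)) = δ / 2 := by field_simp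
  rw [e3] at b1 b2
  rw [abs_le]
  constructor <;> nlinarith

end

end Pool.Agent.Lib.MP_bc6037_nt.Rigid
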