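import Pool.Agent.Lib.MP_bc6037_nt.DeltaMellin

set_option autoImplicit false

/-!
A mean-square bound with exponent `b < 1` forces the polynomial to be the main-term polynomial,
and gives one-sided mean bounds.
-/

open MeasureTheory Filter Set
open scoped Topology

namespace Pool.Agent.Lib.MP_bc6037_nt.Converse

open DeltaMellin

lemma W_lip (P : Polynomial ℝ) {δ : ℝ} (hδ : 0 < δ) : ∃ C : ℝ, 1 ≤ C ∧ ∀ x y : ℝ, 1 ≤ x → x ≤ y →
    |y * P.eval (Real.log y) - x * P.eval (Real.log x)| ≤ C * y ^ δ * (y - x) := by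
  obtain ⟨C₁, h1, h1'⟩ := poly_log_le P hδ
  obtain ⟨C₂, h2, h2'⟩ := poly_log_le P.derivative hδ
  refine ⟨C₁ + C₂ + 1, by linarith, fun x y hx hxy => ?_⟩
  have hder : ∀ t ∈ Icc x y, HasDerivWithinAt (fun t : ℝ => t * P.eval (Real.log t))
      (1 * P.eval (Real.log t) + t * (P.derivative.eval (Real.log t) * t⁻¹)) (Icc x y) t := by
    intro t ht
    have ht0 : t ≠ 0 := by linarith [ht.1]
    apply HasDerivAt.hasDerivWithinAt
    exact (hasDerivAt_id t).mul ((P.hasDerivAt _).comp t (Real.hasDerivAt_log ht0))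
  have hbd : ∀ t ∈ Ico x y,
      ‖1 * P.eval (Real.log t) + t * (P.derivative.eval (Real.log t) * t⁻¹)‖ ≤
        (C₁ + C₂ + 1) * y ^ δ := by
    intro t ht
    have ht1 : 1 ≤ t := hx.trans ht.1
    have ht0 : t ≠ 0 := by linarith
    have e : 1 * P.eval (Real.log t) + t * (P.derivative.eval (Real.log t) * t⁻¹) =
        P.eval (Real.log t) + P.derivative.eval (Real.log t) := by
      field_simp
    rw [e, Real.norm_eq_abs]
    have h3 : t ^ δ ≤ y ^ δ := Real.rpow_le_rpow (by linarith) ht.2.le hδ.le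
    have h4 : 0 ≤ y ^ δ := Real.rpow_nonneg (by linarith) _
    calc |P.eval (Real.log t) + P.derivative.eval (Real.log t)| ≤
          |P.eval (Real.log t)| + |P.derivative.eval (Real.log t)| := abs_add_le _ _
      _ ≤ C₁ * t ^ δ + C₂ * t ^ δ := add_le_add (h1' t ht1) (h2' t ht1)
      _ ≤ C₁ * y ^ δ + C₂ * y ^ δ :=
          add_le_add (mul_le_mul_of_nonneg_left h3 h1) (mul_le_mul_of_nonneg_left h3 h2)
      _ ≤ (C₁ + C₂ + 1) * y ^ δ := by linarith
  have := norm_image_sub_le_of_norm_deriv_le_segment' hder hbd y (right_mem_Icc.2 hxy)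
  rwa [Real.norm_eq_abs] at this

lemma intervalIntegrable_Err_sq (k : ℕ) (P : Polynomial ℝ) {x y : ℝ} (hx : 1 ≤ x) (hxy : x ≤ y) :
    IntervalIntegrable (fun t => (Err k P t) ^ 2) volume x y := by
  rw [intervalIntegrable_iff_integrableOn_Ioc_of_le hxy]
  obtain ⟨C, hC0, hC⟩ := Err_le k P (by norm_num : (1 : ℝ) < 2)
  have h1 : IntegrableOn (fun _ : ℝ => (C * y ^ (2 : ℝ)) ^ 2) (Ioc x y) :=
    integrableOn_const (by simp)
  refine h1.mono' ((measurable_Err k P).pow_const 2).aestronglyMeasurable ?_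
  filter_upwards [ae_restrict_mem measurableSet_Ioc] with t ht
  rw [norm_pow, Real.norm_eq_abs]
  apply pow_le_pow_left₀ (abs_nonneg _)
  refine (hC t (by linarith [ht.1])).trans (mul_le_mul_of_nonneg_left ?_ hC0)
  exact Real.rpow_le_rpow (by linarith [ht.1]) ht.2 (by norm_num)

/-- Local lower bound for the mean square. -/
lemma local_lower {k : ℕ} {P : Polynomial ℝ} {u v m : ℝ} (hu : 1 ≤ u) (huv : u ≤ v) (hm : 0 ≤ m)
    (h : ∀ t ∈ Icc u v, m ≤ |Err k P t|) :
    (v - u) * m ^ 2 ≤ ∫ t in (1 : ℝ)..v, (Err k P t) ^ 2 := by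
  have h1 : (v - u) * m ^ 2 ≤ ∫ t in u..v, (Err k P t) ^ 2 := by
    have h2 : ∫ _t in u..v, m ^ 2 = (v - u) * m ^ 2 := by simp
    rw [← h2]
    apply intervalIntegral.integral_mono_on huv (by simp) (intervalIntegrable_Err_sq k P hu huv)
    intro t ht
    rw [← sq_abs (Err k P t)]
    exact pow_le_pow_left₀ hm (h t ht) 2
  have h3 : ∫ t in (1 : ℝ)..v, (Err k P t) ^ 2 =
      (∫ t in (1 : ℝ)..u, (Err k P t) ^ 2) + ∫ t in u..v, (Err k P t) ^ 2 :=
    (intervalIntegral.integral_add_adjacent_intervals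
      (intervalIntegrable_Err_sq k P le_rfl hu) (intervalIntegrable_Err_sq k P hu huv)).symm
  have h4 : 0 ≤ ∫ t in (1 : ℝ)..u, (Err k P t) ^ 2 :=
    intervalIntegral.integral_nonneg hu fun t _ => sq_nonneg _
  linarith

/-- A mean-square bound with exponent `b < 1` forces `P` to be the main-term polynomial. -/
theorem isMainPoly_of_mean_square {k : ℕ} {P : Polynomial ℝ} {b C : ℝ} (hb0 : 0 ≤ b) (hb : b < 1)
    (hC : ∀ x : ℝ, 1 ≤ x → ∫ y in (1 : ℝ)..x, (Err k P y) ^ 2 ≤ C * x ^ (1 + 2 * b)) :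
    IsMainPoly k P := by
  unfold IsMainPoly
  rw [Metric.tendsto_nhds]
  intro η₀ hη₀
  set η : ℝ := min η₀ 1 with hη
  have hη0 : 0 < η := lt_min hη₀ one_pos
  have hη1 : η ≤ 1 := min_le_right _ _
  set δ : ℝ := 1 - b with hδ
  have hδ0 : 0 < δ := by rw [hδ]; linarith
  obtain ⟨C₁, hC₁, hW⟩ := W_lip P hδ0
  have hC0 : 0 ≤ C := by
    have := hC 1 le_rfl
    simpa using this
  -- threshold
  have hlim : Tendsto (fun x : ℝ => x ^ (1 - b)) atTop atTop := tendsto_rpow_atTop hδ0
  set L : ℝ := C * 2 ^ (1 + 2 * b) * (8 * C₁ * 2 ^ δ) / η ^ 3 with hL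
  filter_upwards [hlim.eventually_gt_atTop L, eventually_ge_atTop 2] with x hxL hx2
  rw [Real.dist_eq, sub_zero]
  have hx0 : 0 < x := by linarith
  refine lt_of_lt_of_le ?_ (min_le_left η₀ 1)
  by_contra hcon
  rw [not_lt, abs_div, abs_of_pos hx0, le_div_iff₀ hx0] at hcon
  have hcon' : η * x ≤ |Err k P x| := hcon
  -- the width
  set A : ℝ := C₁ * (2 * x) ^ δ with hA
  have hA1 : 1 ≤ A := by
    rw [hA]
    have : 1 ≤ (2 * x) ^ δ := Real.one_le_rpow (by linarith) hδ0.le
    nlinarith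
  have hA0 : 0 < A := by linarith
  set h : ℝ := η * x / (2 * A) with hh
  have hh0 : 0 < h := by positivity
  have hhx : h ≤ x / 2 := by
    rw [hh, div_le_div_iff₀ (by positivity) two_pos]
    nlinarith
  have hAh : A * h = η * x / 2 := by
    rw [hh]; field_simp
  have hkey : h * (η * x / 2) ^ 2 ≤ C * (2 * x) ^ (1 + 2 * b) := by
    rcases le_total 0 (Err k P x) with h0 | h0
    · -- to the right
      rw [abs_of_nonneg h0] at hcon'
      have h1 : ∀ t ∈ Icc x (x + h), η * x / 2 ≤ |Err k P t| := by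
        intro t ht
        have h2 := D_mono k ht.1
        have h3 := hW x t (by linarith) ht.1
        have h4 : C₁ * t ^ δ * (t - x) ≤ A * h := by
          rw [hA]
          have h5 : t ^ δ ≤ (2 * x) ^ δ :=
            Real.rpow_le_rpow (by linarith [ht.1]) (by linarith [ht.2]) hδ0.le
          have h6 : t - x ≤ h := by linarith [ht.2]
          have h7 : 0 ≤ t - x := by linarith [ht.1]
          exact mul_le_mul (mul_le_mul_of_nonneg_left h5 (by linarith)) h6 h7 (by positivity)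
        have h8 := (abs_le.1 h3).2
        refine le_trans ?_ (le_abs_self _)
        unfold Err at hcon' ⊢
        linarith
      have h9 := local_lower (by linarith) (by linarith) (by positivity) h1
      rw [add_sub_cancel_left] at h9
      refine h9.trans ((hC (x + h) (by linarith)).trans ?_)
      apply mul_le_mul_of_nonneg_left _ hC0
      exact Real.rpow_le_rpow (by linarith) (by linarith) (by linarith)
    · -- to the left
      rw [abs_of_nonpos h0] at hcon'
      have h1 : ∀ t ∈ Icc (x - h) x, η * x / 2 ≤ |Err k P t| := by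
        intro t ht
        have h2 := D_mono k ht.2
        have h3 := hW t x (by linarith [ht.1]) ht.2
        have h4 : C₁ * x ^ δ * (x - t) ≤ A * h := by
          rw [hA]
          have h5 : x ^ δ ≤ (2 * x) ^ δ :=
            Real.rpow_le_rpow hx0.le (by linarith) hδ0.le
          have h6 : x - t ≤ h := by linarith [ht.1]
          have h7 : 0 ≤ x - t := by linarith [ht.2]
          exact mul_le_mul (mul_le_mul_of_nonneg_left h5 (by linarith)) h6 h7 (by positivity)
        have h8 := (abs_le.1 h3).2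
        refine le_trans ?_ (neg_le_abs _)
        unfold Err at hcon' ⊢
        linarith
      have h9 := local_lower (by linarith) (by linarith) (by positivity) h1
      rw [sub_sub_cancel] at h9
      refine h9.trans ((hC x (by linarith)).trans ?_)
      apply mul_le_mul_of_nonneg_left _ hC0
      exact Real.rpow_le_rpow (by linarith) (by linarith) (by linarith)
  -- contradiction
  have e1 : h * (η * x / 2) ^ 2 = η ^ 3 * x ^ 3 / (8 * A) := by
    rw [hh]; field_simp; ring
  have e2 : (2 * x) ^ (1 + 2 * b) = 2 ^ (1 + 2 * b) * x ^ (1 + 2 * b) :=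
    Real.mul_rpow two_pos.le hx0.le
  have e3 : (2 * x) ^ δ = 2 ^ δ * x ^ δ := Real.mul_rpow two_pos.le hx0.le
  rw [e1, e2, div_le_iff₀ (by positivity), hA, e3] at hkey
  have e4 : x ^ (3 : ℕ) = x ^ (1 + 2 * b) * x ^ δ * x ^ (1 - b) := by
    rw [← Real.rpow_add hx0, ← Real.rpow_add hx0, ← Real.rpow_natCast, hδ]
    congr 1
    push_cast
    ring
  rw [e4] at hkey
  have hp : 0 < x ^ (1 + 2 * b) * x ^ δ := by positivity
  have h10 : η ^ 3 * x ^ (1 - b) ≤ C * 2 ^ (1 + 2 * b) * (8 * C₁ * 2 ^ δ) := by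
    have h11 : (x ^ (1 + 2 * b) * x ^ δ) * (η ^ 3 * x ^ (1 - b)) ≤
        (x ^ (1 + 2 * b) * x ^ δ) * (C * 2 ^ (1 + 2 * b) * (8 * C₁ * 2 ^ δ)) := by
      nlinarith [hkey]
    exact le_of_mul_le_mul_left h11 hp
  have h12 : x ^ (1 - b) ≤ L := by
    rw [hL, le_div_iff₀ (by positivity)]
    linarith
  linarith

/-- Mean-square bound gives a one-sided mean bound. -/
theorem one_sided_of_mean_square {k : ℕ} {P : Polynomial ℝ} {b C : ℝ}
    (hC : ∀ x : ℝ, 1 ≤ x → ∫ y in (1 : ℝ)..x, (Err k P y) ^ 2 ≤ C * x ^ (1 + 2 * b)) :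
    ∃ C' : ℝ, 0 ≤ C' ∧ ∀ x : ℝ, 1 ≤ x →
      ∫ y in (1 : ℝ)..x, max (1 * Err k P y) 0 ≤ C' * x ^ (1 + b) := by
  have hC0 : 0 ≤ C := by
    have := hC 1 le_rfl
    simpa using this
  refine ⟨(C + 1) / 2, by linarith, fun x hx => ?_⟩
  have hx0 : 0 < x := by linarith
  have hint := intervalIntegrable_Err_sq k P le_rfl hx
  have h1 : ∫ y in (1 : ℝ)..x, max (1 * Err k P y) 0 ≤
      ∫ y in (1 : ℝ)..x, (x ^ (-b) / 2 * (Err k P y) ^ 2 + x ^ b / 2) := by
    apply intervalIntegral.integral_mono_on hx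
    · have h2 : IntervalIntegrable (fun y => (Err k P y) ^ 2 + 1) volume 1 x :=
        hint.add (by simp)
      refine h2.mono_fun' ((measurable_Err k P).const_mul 1 |>.max
        measurable_const).aestronglyMeasurable ?_
      filter_upwards with y
      rw [Real.norm_of_nonneg (le_max_right _ _)]
      apply max_le
      · nlinarith [sq_nonneg (Err k P y - 1)]
      · positivity
    · exact (hint.const_mul _).add (by simp)
    · intro y _
      have hpb : 0 < x ^ b := Real.rpow_pos_of_pos hx0 _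
      have hpn : x ^ (-b) = (x ^ b)⁻¹ := Real.rpow_neg hx0.le b
      apply max_le
      · rw [one_mul, hpn]
        have h3 : 0 ≤ (Err k P y - x ^ b) ^ 2 := sq_nonneg _
        have h4 : (x ^ b)⁻¹ / 2 * (Err k P y) ^ 2 + x ^ b / 2 - Err k P y =
            (x ^ b)⁻¹ / 2 * (Err k P y - x ^ b) ^ 2 := by
          field_simp
          ring
        have h5 : 0 ≤ (x ^ b)⁻¹ / 2 * (Err k P y - x ^ b) ^ 2 := by positivity
        linarith
      · rw [hpn]
        positivity
  refine h1.trans ?_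
  rw [intervalIntegral.integral_add (hint.const_mul _) (by simp),
    intervalIntegral.integral_const_mul, intervalIntegral.integral_const, smul_eq_mul]
  have h6 := hC x hx
  have hpn : 0 ≤ x ^ (-b) / 2 := by positivity
  have h7 : x ^ (-b) / 2 * ∫ y in (1 : ℝ)..x, (Err k P y) ^ 2 ≤ C / 2 * x ^ (1 + b) := by
    refine (mul_le_mul_of_nonneg_left h6 hpn).trans (le_of_eq ?_)
    have e : x ^ (1 + b) = x ^ (-b) * x ^ (1 + 2 * b) := by
      rw [← Real.rpow_add hx0]
      congr 1
      ring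
    rw [e]
    ring
  have h8 : (x - 1) * (x ^ b / 2) ≤ 1 / 2 * x ^ (1 + b) := by
    rw [Real.rpow_add hx0, Real.rpow_one]
    have : 0 ≤ x ^ b := by positivity
    nlinarith
  have e : (C + 1) / 2 * x ^ (1 + b) = C / 2 * x ^ (1 + b) + 1 / 2 * x ^ (1 + b) := by ring
  rw [e]
  linarith

end Pool.Agent.Lib.MP_bc6037_nt.Converse
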