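import Mathlib

set_option autoImplicit false

/-!
Shared definitions for the Piltz divisor problem (MP_bc6037_nt).
`d_k(n)` is the value at `n` of the `k`-th Dirichlet-convolution power of the constant function 1,
exactly as in the frozen statements.
-/

namespace Pool.Agent.Lib.MP_bc6037_nt

/-- `D k x` is the sum of `d_k(n)` over the positive integers `n ≤ x`. -/
noncomputable def D (k : ℕ) (x : ℝ) : ℝ :=
  ∑ n ∈ Finset.Icc 1 ⌊x⌋₊, (((ArithmeticFunction.zeta ^ k : ArithmeticFunction ℕ) n : ℕ) : ℝ)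

/-- `Err k P x` is `D k x - x * P (log x)`. -/
noncomputable def Err (k : ℕ) (P : Polynomial ℝ) (x : ℝ) : ℝ :=
  D k x - x * P.eval (Real.log x)

/-- `P` is the main-term polynomial of `D k`: `D k x - x P(log x) = o(x)`. There is exactly one
such polynomial, the one given by the residue of `ζ(s)^k x^s / s` at `s = 1`. -/
def IsMainPoly (k : ℕ) (P : Polynomial ℝ) : Prop :=
  Filter.Tendsto (fun x : ℝ => Err k P x / x) Filter.atTop (nhds 0)

open Classical in
/-- The main-term polynomial (the unique `P` with `IsMainPoly k P`). -/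
noncomputable def mainPoly (k : ℕ) : Polynomial ℝ :=
  if h : ∃ P : Polynomial ℝ, IsMainPoly k P then h.choose else 0

/-- The error term `Δ_k(x)` of the Piltz divisor problem. -/
noncomputable def Delta (k : ℕ) (x : ℝ) : ℝ := Err k (mainPoly k) x

/-- Pointwise exponent `α_k`. -/
noncomputable def alpha (k : ℕ) : ℝ :=
  sInf {a : ℝ | ∃ C : ℝ, ∀ x : ℝ, 1 ≤ x → |Delta k x| ≤ C * x ^ a}

/-- Mean-square exponent `β_k`. -/
noncomputable def beta (k : ℕ) : ℝ :=
  sInf {b : ℝ | ∃ C : ℝ, ∀ x : ℝ, 1 ≤ x → ∫ y in (1 : ℝ)..x, (Delta k y) ^ 2 ≤ C * x ^ (1 + 2 * b)}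

end Pool.Agent.Lib.MP_bc6037_nt
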