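import Pool.Agent.Lib.MP_bc6037_nt.Defs

set_option autoImplicit false

/-!
Mellin transforms of `D k` and `Err k P`.
-/

open MeasureTheory Complex Filter Set
open scoped Nat Topology

namespace Pool.Agent.Lib.MP_bc6037_nt.DeltaMellin

lemma lseriesHasSum_pow (k : ℕ) {s : ℂ} (hs : 1 < s.re) :
    LSeriesHasSum (fun n => (((ArithmeticFunction.zeta ^ k : ArithmeticFunction ℕ) n : ℕ) : ℂ)) s
      (riemannZeta s ^ k) := by
  induction k with
  | zero =>
    have h0 : (fun n => (((ArithmeticFunction.zeta ^ 0 : ArithmeticFunction ℕ) n : ℕ) : ℂ)) =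
        LSeries.delta := by
      ext n
      rw [pow_zero, ArithmeticFunction.one_apply, LSeries.delta]
      split_ifs <;> simp
    rw [h0, pow_zero, LSeriesHasSum]
    have h1 : LSeries.term LSeries.delta s = fun n => if n = 1 then (1 : ℂ) else 0 := by
      ext n
      exact LSeries.term_delta s n
    rw [h1]
    exact hasSum_ite_eq 1 (1 : ℂ)
  | succ k ih =>
    have h1 : LSeriesHasSum (fun n => ((ArithmeticFunction.zeta n : ℕ) : ℂ)) s (riemannZeta s) := by
      rw [← ArithmeticFunction.LSeries_zeta_eq_riemannZeta hs]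
      exact (ArithmeticFunction.LSeriesSummable_zeta_iff.mpr hs).LSeriesHasSum
    have h2 := ArithmeticFunction.LSeriesHasSum_mul
      (f := ((ArithmeticFunction.zeta ^ k : ArithmeticFunction ℕ) : ArithmeticFunction ℂ))
      (g := ((ArithmeticFunction.zeta : ArithmeticFunction ℕ) : ArithmeticFunction ℂ))
      (s := s) (a := riemannZeta s ^ k) (b := riemannZeta s)
      (by simpa using ih) (by simpa using h1)
    rw [← ArithmeticFunction.natCoe_mul, ← pow_succ] at h2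
    rw [pow_succ (riemannZeta s)]
    simpa using h2

/-- `D k x ≤ C x ^ a` for `x ≥ 1` (any `a > 1`). -/
lemma D_le (k : ℕ) {a : ℝ} (ha : 1 < a) : ∃ C : ℝ, 0 ≤ C ∧ ∀ x : ℝ, 1 ≤ x → D k x ≤ C * x ^ a := by
  set d : ℕ → ℕ := fun n => (ArithmeticFunction.zeta ^ k : ArithmeticFunction ℕ) n with hd
  have h1 := (lseriesHasSum_pow k (s := (a : ℂ)) (by simpa using ha)).summable.norm
  have h2 : ∀ n : ℕ, 1 ≤ n → ‖LSeries.term (fun n => ((d n : ℕ) : ℂ)) (a : ℂ) n‖ =
      (d n : ℝ) / (n : ℝ) ^ a := by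
    intro n hn
    have hn' : n ≠ 0 := by omega
    rw [LSeries.term_of_ne_zero hn', norm_div, Complex.norm_natCast,
      ← Complex.ofReal_natCast, Complex.norm_cpow_eq_rpow_re_of_pos (by positivity)]
    simp
  refine ⟨∑' n, ‖LSeries.term (fun n => ((d n : ℕ) : ℂ)) (a : ℂ) n‖,
    tsum_nonneg fun n => norm_nonneg _, fun x hx => ?_⟩
  have hx0 : 0 < x := by linarith
  have h3 : D k x ≤ ∑ n ∈ Finset.Icc 1 ⌊x⌋₊,
      ‖LSeries.term (fun n => ((d n : ℕ) : ℂ)) (a : ℂ) n‖ * x ^ a := by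
    rw [D]
    apply Finset.sum_le_sum
    intro n hn
    rw [Finset.mem_Icc] at hn
    rw [h2 n hn.1]
    have hn0 : (0 : ℝ) < n := by exact_mod_cast hn.1
    have hnx : (n : ℝ) ≤ x := (Nat.le_floor_iff hx0.le).1 hn.2
    have h4 : (n : ℝ) ^ a ≤ x ^ a := Real.rpow_le_rpow hn0.le hnx (by linarith)
    have h5 : 0 < (n : ℝ) ^ a := Real.rpow_pos_of_pos hn0 a
    rw [div_mul_eq_mul_div, le_div_iff₀ h5]
    exact mul_le_mul_of_nonneg_left h4 (Nat.cast_nonneg _)
  refine h3.trans ?_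
  rw [← Finset.sum_mul]
  apply mul_le_mul_of_nonneg_right _ (Real.rpow_nonneg hx0.le _)
  exact h1.sum_le_tsum _ (fun n _ => norm_nonneg _)

lemma D_nonneg (k : ℕ) (x : ℝ) : 0 ≤ D k x :=
  Finset.sum_nonneg fun _ _ => Nat.cast_nonneg _

lemma D_mono (k : ℕ) : Monotone (D k) := by
  intro x y hxy
  apply Finset.sum_le_sum_of_subset_of_nonneg
  · intro n hn
    rw [Finset.mem_Icc] at hn ⊢
    exact ⟨hn.1, hn.2.trans (Nat.floor_mono hxy)⟩
  · intro i _ _
    exact Nat.cast_nonneg _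

lemma measurable_D (k : ℕ) : Measurable (D k) := (D_mono k).measurable

lemma measurable_Err (k : ℕ) (P : Polynomial ℝ) : Measurable (Err k P) := by
  unfold Err
  apply (measurable_D k).sub
  apply measurable_id.mul
  exact P.continuous.measurable.comp Real.measurable_log

lemma integrableOn_cpow {s : ℂ} {a : ℝ} (hs : a < s.re) {g : ℝ → ℝ}
    (hg : AEStronglyMeasurable g (volume.restrict (Ioi 1))) {C : ℝ}
    (hC : ∀ x : ℝ, 1 < x → |g x| ≤ C * x ^ a) :
    IntegrableOn (fun x : ℝ => (g x : ℂ) * (x : ℂ) ^ (-s - 1)) (Ioi 1) := by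
  have h1 : IntegrableOn (fun x : ℝ => C * x ^ (a - s.re - 1)) (Ioi 1) := by
    apply Integrable.const_mul
    exact integrableOn_Ioi_rpow_of_lt (by linarith) zero_lt_one
  refine h1.mono' ?_ ?_
  · apply (Complex.continuous_ofReal.comp_aestronglyMeasurable hg).mul
    apply Measurable.aestronglyMeasurable
    exact (Complex.measurable_ofReal.pow_const _)
  · filter_upwards [ae_restrict_mem measurableSet_Ioi] with x hx
    have hx1 : (1 : ℝ) < x := hx
    have hx0 : (0 : ℝ) < x := by linarith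
    rw [norm_mul, Complex.norm_real, Real.norm_eq_abs, Complex.norm_cpow_eq_rpow_re_of_pos hx0]
    have e : (-s - 1).re = -s.re - 1 := by simp
    rw [e]
    calc |g x| * x ^ (-s.re - 1) ≤ C * x ^ a * x ^ (-s.re - 1) :=
          mul_le_mul_of_nonneg_right (hC x hx1) (Real.rpow_nonneg hx0.le _)
      _ = C * x ^ (a - s.re - 1) := by
          rw [mul_assoc, ← Real.rpow_add hx0]
          congr 2
          ring

/-- `∫ D k x x^{-s-1} dx = ζ(s)^k/s` for `Re s > 1`. -/
lemma mellin_D (k : ℕ) {s : ℂ} (hs : 1 < s.re) :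
    ∫ x in Ioi (1 : ℝ), ((D k x : ℝ) : ℂ) * (x : ℂ) ^ (-s - 1) = riemannZeta s ^ k / s := by
  set r : ℝ := (1 + s.re) / 2 with hr
  have hr1 : 1 < r := by rw [hr]; linarith
  have hr2 : r < s.re := by rw [hr]; linarith
  obtain ⟨C, hC0, hC⟩ := D_le k hr1
  have hO : (fun n : ℕ => ∑ m ∈ Finset.Icc 1 n,
      (((ArithmeticFunction.zeta ^ k : ArithmeticFunction ℕ) m : ℕ) : ℝ)) =O[atTop]
      fun n : ℕ => (n : ℝ) ^ r := by
    rw [Asymptotics.isBigO_iff]
    refine ⟨C, ?_⟩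
    filter_upwards [eventually_ge_atTop 1] with n hn
    have h1 := hC n (by exact_mod_cast hn)
    rw [D, Nat.floor_natCast] at h1
    rw [Real.norm_of_nonneg (Finset.sum_nonneg fun _ _ => Nat.cast_nonneg _),
      Real.norm_of_nonneg (Real.rpow_nonneg (Nat.cast_nonneg _) _)]
    exact h1
  have h2 := LSeries_eq_mul_integral_of_nonneg
    (fun n => (((ArithmeticFunction.zeta ^ k : ArithmeticFunction ℕ) n : ℕ) : ℝ))
    (by linarith : (0 : ℝ) ≤ r) hr2 hO (fun n => Nat.cast_nonneg _)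
  have h3 : LSeries (fun n => (((((ArithmeticFunction.zeta ^ k : ArithmeticFunction ℕ) n : ℕ) : ℝ))
      : ℂ)) s = riemannZeta s ^ k := by
    have := (lseriesHasSum_pow k hs).LSeries_eq
    rw [← this]
    congr 1
  have hs0 : s ≠ 0 := by
    intro h
    rw [h, Complex.zero_re] at hs
    linarith
  rw [h3] at h2
  rw [h2, mul_div_cancel_left₀ _ hs0]
  apply setIntegral_congr_fun measurableSet_Ioi
  intro x hx
  simp only [D]
  push_cast
  congr 2
  ring

/-- Change of variables `x = e^y`. -/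
lemma integral_Ioi_one {F : Type*} [NormedAddCommGroup F] [NormedSpace ℝ F] (g : ℝ → F) :
    ∫ x in Ioi (1 : ℝ), g x = ∫ y in Ioi (0 : ℝ), Real.exp y • g (Real.exp y) := by
  have h1 : Real.exp '' Ioi 0 = Ioi 1 := by
    ext x
    constructor
    · rintro ⟨y, hy, rfl⟩
      exact Real.one_lt_exp_iff.2 hy
    · intro hx
      have hx' : (1 : ℝ) < x := hx
      exact ⟨Real.log x, Real.log_pos hx', Real.exp_log (by linarith)⟩
  rw [← h1, integral_image_eq_integral_abs_deriv_smul measurableSet_Ioi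
    (fun x _ => (Real.hasDerivAt_exp x).hasDerivWithinAt) Real.exp_injective.injOn]
  simp only [Real.abs_exp]

lemma integrableOn_Ioi_one {F : Type*} [NormedAddCommGroup F] [NormedSpace ℝ F] (g : ℝ → F) :
    IntegrableOn g (Ioi (1 : ℝ)) ↔ IntegrableOn (fun y => Real.exp y • g (Real.exp y)) (Ioi 0) := by
  have h1 : Real.exp '' Ioi 0 = Ioi 1 := by
    ext x
    constructor
    · rintro ⟨y, hy, rfl⟩
      exact Real.one_lt_exp_iff.2 hy
    · intro hx
      have hx' : (1 : ℝ) < x := hx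
      exact ⟨Real.log x, Real.log_pos hx', Real.exp_log (by linarith)⟩
  rw [← h1, integrableOn_image_iff_integrableOn_abs_deriv_smul measurableSet_Ioi
    (fun x _ => (Real.hasDerivAt_exp x).hasDerivWithinAt) Real.exp_injective.injOn]
  simp only [Real.abs_exp]

lemma exp_cpow (y : ℝ) (s : ℂ) : ((Real.exp y : ℝ) : ℂ) ^ s = cexp (s * y) := by
  rw [Complex.cpow_def_of_ne_zero (by exact_mod_cast (Real.exp_pos y).ne'), Complex.ofReal_exp,
    ← Complex.ofReal_exp, ← Complex.ofReal_log (Real.exp_pos y).le, Real.log_exp, mul_comm]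

lemma mem_interior_expSet {z : ℂ} (hz : z.re < 0) :
    z.re ∈ interior (ProbabilityTheory.integrableExpSet (fun y : ℝ => y)
      (volume.restrict (Ioi (0 : ℝ)))) := by
  rw [mem_interior]
  refine ⟨Iio 0, ?_, isOpen_Iio, hz⟩
  intro t ht
  have ht' : t < 0 := ht
  exact integrableOn_exp_mul_Ioi ht' 0

lemma laplace_pow (n : ℕ) : ∀ {z : ℂ}, z.re < 0 →
    ∫ y in Ioi (0 : ℝ), (y : ℂ) ^ n * cexp (z * y) = n ! / (-z) ^ (n + 1) := by
  induction n with
  | zero =>
    intro z hz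
    have := integral_exp_mul_complex_Ioi hz 0
    simp only [pow_zero, one_mul, Nat.factorial_zero, Nat.cast_one, zero_add, pow_one]
    rw [this]
    simp [div_neg, neg_div]
  | succ n ih =>
    intro z hz
    have h1 := ProbabilityTheory.hasDerivAt_integral_pow_mul_exp (mem_interior_expSet hz) n
    have h2 : HasDerivAt (fun z : ℂ => (n ! : ℂ) / (-z) ^ (n + 1))
        ((n + 1)! / (-z) ^ (n + 1 + 1)) z := by
      have hz0 : -z ≠ 0 := by
        intro h
        rw [neg_eq_zero] at h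
        rw [h, Complex.zero_re] at hz
        exact lt_irrefl _ hz
      have h3 : HasDerivAt (fun z : ℂ => (-z) ^ (n + 1)) (((n + 1 : ℕ) : ℂ) * (-z) ^ n * (-1)) z := by
        have := (hasDerivAt_neg z).fun_pow (n + 1)
        simpa using this
      have h4 : HasDerivAt (fun z : ℂ => (n ! : ℂ) / (-z) ^ (n + 1)) _ z :=
        (h3.fun_inv (pow_ne_zero _ hz0)).const_mul (n ! : ℂ)
      refine h4.congr_deriv ?_
      rw [Nat.factorial_succ]
      push_cast
      field_simp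
      ring
    have h3 : (fun z : ℂ => ∫ y in Ioi (0 : ℝ), (y : ℂ) ^ n * cexp (z * y)) =ᶠ[𝓝 z]
        (fun z : ℂ => (n ! : ℂ) / (-z) ^ (n + 1)) := by
      have h5 : {w : ℂ | w.re < 0} ∈ 𝓝 z :=
        (isOpen_lt Complex.continuous_re continuous_const).mem_nhds hz
      filter_upwards [h5] with w hw using ih hw
    have h4 := h2.congr_of_eventuallyEq h3
    exact h1.unique h4

/-- `∫_1^∞ (log x)^j x^{-s} dx = j!/(s-1)^{j+1}`. -/
lemma integral_log_pow (j : ℕ) {s : ℂ} (hs : 1 < s.re) :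
    ∫ x in Ioi (1 : ℝ), ((Real.log x : ℝ) : ℂ) ^ j * (x : ℂ) ^ (-s) = j ! / (s - 1) ^ (j + 1) := by
  rw [integral_Ioi_one]
  have h1 := laplace_pow j (z := -(s - 1)) (by simp; linarith)
  have h2 : ∀ y : ℝ, Real.exp y • (((Real.log (Real.exp y) : ℝ) : ℂ) ^ j *
      ((Real.exp y : ℝ) : ℂ) ^ (-s)) = (y : ℂ) ^ j * cexp (-(s - 1) * y) := by
    intro y
    rw [exp_cpow, Real.log_exp, Complex.real_smul, Complex.ofReal_exp]
    have : cexp (-(s - 1) * y) = cexp y * cexp (-s * y) := by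
      rw [← Complex.exp_add]; congr 1; ring
    rw [this]
    ring
  simp only [h2]
  rw [h1, neg_neg]

/-- The Mellin transform of `x P(log x)`: `Q_P(s) = ∑ p_j j!/(s-1)^{j+1}`. -/
noncomputable def Q (P : Polynomial ℝ) (s : ℂ) : ℂ :=
  ∑ j ∈ P.support, (P.coeff j : ℂ) * (j ! / (s - 1) ^ (j + 1))

lemma log_pow_le (j : ℕ) {δ : ℝ} (hδ : 0 < δ) : ∃ C : ℝ, 0 ≤ C ∧
    ∀ x : ℝ, 1 ≤ x → (Real.log x) ^ j ≤ C * x ^ δ := by
  rcases Nat.eq_zero_or_pos j with hj | hj
  · refine ⟨1, zero_le_one, fun x hx => ?_⟩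
    rw [hj, pow_zero, one_mul]
    exact Real.one_le_rpow hx hδ.le
  · have hj' : (0 : ℝ) < j := by exact_mod_cast hj
    refine ⟨(1 / (δ / j)) ^ j, by positivity, fun x hx => ?_⟩
    have h1 := Real.log_le_rpow_div (by linarith : (0 : ℝ) ≤ x) (by positivity : 0 < δ / j)
    have h2 : (x ^ (δ / j)) ^ j = x ^ δ := by
      rw [← Real.rpow_natCast, ← Real.rpow_mul (by linarith)]
      congr 1
      field_simp
    calc (Real.log x) ^ j ≤ (x ^ (δ / j) / (δ / j)) ^ j :=
          pow_le_pow_left₀ (Real.log_nonneg hx) h1 _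
      _ = (1 / (δ / j)) ^ j * x ^ δ := by
          rw [← h2, ← mul_pow]
          congr 1
          ring

lemma poly_log_le (P : Polynomial ℝ) {δ : ℝ} (hδ : 0 < δ) : ∃ C : ℝ, 0 ≤ C ∧
    ∀ x : ℝ, 1 ≤ x → |P.eval (Real.log x)| ≤ C * x ^ δ := by
  choose c hc0 hc using fun j : ℕ => log_pow_le j hδ
  refine ⟨∑ j ∈ P.support, |P.coeff j| * c j,
    Finset.sum_nonneg fun j _ => mul_nonneg (abs_nonneg _) (hc0 j), fun x hx => ?_⟩
  rw [Polynomial.eval_eq_sum, Polynomial.sum, Finset.sum_mul]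
  refine (Finset.abs_sum_le_sum_abs _ _).trans (Finset.sum_le_sum fun j _ => ?_)
  rw [abs_mul, abs_of_nonneg (pow_nonneg (Real.log_nonneg hx) _), mul_assoc]
  exact mul_le_mul_of_nonneg_left (hc j x hx) (abs_nonneg _)

/-- `|Err k P x| ≤ C x ^ a` for `x ≥ 1` (any `a > 1`). -/
lemma Err_le (k : ℕ) (P : Polynomial ℝ) {a : ℝ} (ha : 1 < a) :
    ∃ C : ℝ, 0 ≤ C ∧ ∀ x : ℝ, 1 ≤ x → |Err k P x| ≤ C * x ^ a := by
  obtain ⟨C₁, h1, h1'⟩ := D_le k ha
  obtain ⟨C₂, h2, h2'⟩ := poly_log_le P (by linarith : (0 : ℝ) < a - 1)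
  refine ⟨C₁ + C₂, by positivity, fun x hx => ?_⟩
  have hx0 : (0 : ℝ) < x := by linarith
  rw [Err, add_mul]
  refine (abs_sub _ _).trans (add_le_add ?_ ?_)
  · rw [abs_of_nonneg (D_nonneg k x)]
    exact h1' x hx
  · rw [abs_mul, abs_of_pos hx0]
    calc x * |P.eval (Real.log x)| ≤ x * (C₂ * x ^ (a - 1)) :=
          mul_le_mul_of_nonneg_left (h2' x hx) hx0.le
      _ = C₂ * x ^ a := by
          rw [Real.rpow_sub_one hx0.ne']
          field_simp

lemma integrableOn_Err (k : ℕ) (P : Polynomial ℝ) {s : ℂ} (hs : 1 < s.re) :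
    IntegrableOn (fun x : ℝ => (Err k P x : ℂ) * (x : ℂ) ^ (-s - 1)) (Ioi 1) := by
  obtain ⟨C, _, hC⟩ := Err_le k P (by linarith : (1 : ℝ) < (1 + s.re) / 2)
  exact integrableOn_cpow (by linarith : (1 + s.re) / 2 < s.re)
    (measurable_Err k P).aestronglyMeasurable (fun x hx => hC x hx.le)

lemma integrableOn_D (k : ℕ) {s : ℂ} (hs : 1 < s.re) :
    IntegrableOn (fun x : ℝ => (D k x : ℂ) * (x : ℂ) ^ (-s - 1)) (Ioi 1) := by
  obtain ⟨C, _, hC⟩ := D_le k (by linarith : (1 : ℝ) < (1 + s.re) / 2)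
  exact integrableOn_cpow (by linarith : (1 + s.re) / 2 < s.re)
    (measurable_D k).aestronglyMeasurable
    (fun x hx => by rw [abs_of_nonneg (D_nonneg k x)]; exact hC x hx.le)

lemma integrableOn_log_pow (j : ℕ) {s : ℂ} (hs : 1 < s.re) :
    IntegrableOn (fun x : ℝ => ((Real.log x : ℝ) : ℂ) ^ j * (x : ℂ) ^ (-s)) (Ioi 1) := by
  obtain ⟨C, _, hC⟩ := log_pow_le j (by linarith : (0 : ℝ) < (s.re - 1) / 2)
  have h1 := integrableOn_cpow (s := s - 1) (a := (s.re - 1) / 2) (g := fun x => (Real.log x) ^ j)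
    (by simp; linarith) (Real.measurable_log.pow_const j).aestronglyMeasurable (C := C)
    (fun x hx => by
      rw [abs_of_nonneg (pow_nonneg (Real.log_nonneg hx.le) _)]; exact hC x hx.le)
  refine h1.congr_fun ?_ measurableSet_Ioi
  intro x _
  simp only
  push_cast
  congr 2
  ring

lemma integral_polylog (P : Polynomial ℝ) {s : ℂ} (hs : 1 < s.re) :
    ∫ x in Ioi (1 : ℝ), ((x * P.eval (Real.log x) : ℝ) : ℂ) * (x : ℂ) ^ (-s - 1) = Q P s := by
  have h1 : ∀ x ∈ Ioi (1 : ℝ), ((x * P.eval (Real.log x) : ℝ) : ℂ) * (x : ℂ) ^ (-s - 1) =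
      ∑ j ∈ P.support, (P.coeff j : ℂ) * (((Real.log x : ℝ) : ℂ) ^ j * (x : ℂ) ^ (-s)) := by
    intro x hx
    have hx1 : (1 : ℝ) < x := hx
    have hx0 : (x : ℂ) ≠ 0 := by
      have : x ≠ 0 := by linarith
      exact_mod_cast this
    rw [Polynomial.eval_eq_sum, Polynomial.sum, Complex.cpow_sub _ _ hx0, Complex.cpow_one]
    push_cast
    rw [Finset.mul_sum, Finset.sum_mul]
    apply Finset.sum_congr rfl
    intro j _
    field_simp
  rw [setIntegral_congr_fun measurableSet_Ioi h1, integral_finsetSum]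
  · unfold Q
    apply Finset.sum_congr rfl
    intro j _
    rw [integral_const_mul, integral_log_pow j hs]
  · intro j _
    exact (integrableOn_log_pow j hs).const_mul _

/-- `∫ Err k P x x^{-s-1} dx = ζ(s)^k/s - Q_P(s)` for `Re s > 1`. -/
lemma mellin_Err (k : ℕ) (P : Polynomial ℝ) {s : ℂ} (hs : 1 < s.re) :
    ∫ x in Ioi (1 : ℝ), (Err k P x : ℂ) * (x : ℂ) ^ (-s - 1) = riemannZeta s ^ k / s - Q P s := by
  have h1 : ∀ x ∈ Ioi (1 : ℝ), (Err k P x : ℂ) * (x : ℂ) ^ (-s - 1) =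
      (D k x : ℂ) * (x : ℂ) ^ (-s - 1) -
      ((x * P.eval (Real.log x) : ℝ) : ℂ) * (x : ℂ) ^ (-s - 1) := by
    intro x _
    rw [Err]
    push_cast
    ring
  have hi : IntegrableOn (fun x : ℝ => ((x * P.eval (Real.log x) : ℝ) : ℂ) *
      (x : ℂ) ^ (-s - 1)) (Ioi 1) := by
    refine ((integrableOn_D k hs).sub (integrableOn_Err k P hs)).congr_fun ?_ measurableSet_Ioi
    intro x _
    simp only [Pi.sub_apply, Err]
    push_cast
    ring
  rw [setIntegral_congr_fun measurableSet_Ioi h1, integral_sub (integrableOn_D k hs) hi,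
    mellin_D k hs, integral_polylog P hs]

end Pool.Agent.Lib.MP_bc6037_nt.DeltaMellin
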