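import Mathlib
import Pool.Agent.Lib.MP_bc6037_nt.Rigid

set_option autoImplicit false

/-!
The second moment of the limit law: the finite sections exhaust Tong's constant
`V = ∑ d_k(n)² n^{-1-1/k} / (2 π² k)`.
-/

open Filter Topology Set MeasureTheory UnitAddTorus

namespace Pool.Agent.Lib.MP_bc6037_nt.Rigid

open Pool.Agent.Lib.MP_bc6037_nt DeltaMellin ZetaGrowth

noncomputable section

variable {k : ℕ}

/-- the `n`-th term of Tong's constant -/
def vterm (k n : ℕ) : ℝ := dk k n ^ 2 / (2 * Real.pi ^ 2 * k * (n : ℝ) ^ (1 + 1 / (k : ℝ)))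

lemma vterm_nonneg (k n : ℕ) : 0 ≤ vterm k n := by
  unfold vterm
  positivity

lemma vterm_zero (hk : 1 ≤ k) : vterm k 0 = 0 := by
  unfold vterm
  have h : ((0 : ℕ) : ℝ) ^ (1 + 1 / (k : ℝ)) = 0 := by
    rw [Nat.cast_zero, Real.zero_rpow]
    positivity
  rw [h, mul_zero, div_zero]

lemma amp_sq (hk : 1 ≤ k) (n : ℕ) : amp k n ^ 2 / 2 = vterm k n := by
  have hkp : (0 : ℝ) < k := by exact_mod_cast hk
  have h1 : √(k : ℝ) ^ 2 = k := Real.sq_sqrt hkp.le
  rcases Nat.eq_zero_or_pos n with rfl | hn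
  · rw [vterm_zero hk]
    have h2 : ((0 : ℕ) : ℝ) ^ (-((k + 1) / (2 * k)) : ℝ) = 0 := by
      rw [Nat.cast_zero, Real.zero_rpow]
      have : (0 : ℝ) < (k + 1) / (2 * k) := by positivity
      linarith
    unfold amp
    rw [h2]
    simp
  · have hnp : (0 : ℝ) < n := by exact_mod_cast hn
    have h2 : ((n : ℝ) ^ (-((k + 1) / (2 * k)) : ℝ)) ^ 2 = ((n : ℝ) ^ (1 + 1 / (k : ℝ)))⁻¹ := by
      rw [← Real.rpow_natCast, ← Real.rpow_mul hnp.le, ← Real.rpow_neg hnp.le]
      congr 1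
      field_simp
      push_cast
      ring
    unfold amp vterm
    rw [mul_pow, mul_pow, h2, inv_pow, mul_pow, h1]
    field_simp

lemma vterm_summable (hk : 1 ≤ k) : Summable (vterm k) := by
  have hkp : (0 : ℝ) < k := by exact_mod_cast hk
  obtain ⟨C, hC1, hC⟩ := dk_le_rpow k (η := 1 / (4 * k)) (by positivity)
  have hs : Summable fun n : ℕ => C ^ 2 / (2 * Real.pi ^ 2 * k) *
      (1 / (n : ℝ) ^ (1 + 1 / (2 * (k : ℝ)))) :=
    (Real.summable_one_div_nat_rpow.2 (by
      have : (0 : ℝ) < 1 / (2 * k) := by positivity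
      linarith)).mul_left _
  refine Summable.of_nonneg_of_le (fun n => vterm_nonneg k n) (fun n => ?_) hs
  rcases Nat.eq_zero_or_pos n with rfl | hn
  · rw [vterm_zero hk]
    positivity
  · have hnp : (0 : ℝ) < n := by exact_mod_cast hn
    have h1 := hC n hn.ne'
    have h2 : dk k n ^ 2 ≤ C ^ 2 * (n : ℝ) ^ (1 / (2 * (k : ℝ))) := by
      have h3 : (C * (n : ℝ) ^ (1 / (4 * k) : ℝ)) ^ 2 = C ^ 2 * (n : ℝ) ^ (1 / (2 * (k : ℝ))) := by
        rw [mul_pow, ← Real.rpow_natCast ((n : ℝ) ^ (1 / (4 * k) : ℝ)), ← Real.rpow_mul hnp.le]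
        congr 2
        field_simp
        push_cast
        norm_num
      rw [← h3]
      exact pow_le_pow_left₀ (dk_nonneg k n) h1 2
    have h4 : (n : ℝ) ^ (1 + 1 / (k : ℝ)) =
        (n : ℝ) ^ (1 / (2 * (k : ℝ))) * (n : ℝ) ^ (1 + 1 / (2 * (k : ℝ))) := by
      rw [← Real.rpow_add hnp]
      congr 1
      field_simp
      ring
    unfold vterm
    rw [h4]
    have hp1 : 0 < (n : ℝ) ^ (1 / (2 * (k : ℝ))) := Real.rpow_pos_of_pos hnp _
    have hp2 : 0 < (n : ℝ) ^ (1 + 1 / (2 * (k : ℝ))) := Real.rpow_pos_of_pos hnp _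
    calc dk k n ^ 2 / (2 * Real.pi ^ 2 * k * ((n : ℝ) ^ (1 / (2 * (k : ℝ))) *
          (n : ℝ) ^ (1 + 1 / (2 * (k : ℝ)))))
        ≤ C ^ 2 * (n : ℝ) ^ (1 / (2 * (k : ℝ))) / (2 * Real.pi ^ 2 * k *
          ((n : ℝ) ^ (1 / (2 * (k : ℝ))) * (n : ℝ) ^ (1 + 1 / (2 * (k : ℝ))))) := by
          gcongr
      _ = _ := by
          field_simp

attribute [local instance 2000] instMeasureSpaceUnitAddCircle
  instIsAddHaarMeasureUnitAddCircleVolume instIsProbabilityMeasureUnitAddCircleVolume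

/-- the second moment of a finite section is at least the sum over any set of its modes -/
lemma EL_sq_ge (hk : 2 ≤ k) {S : Finset ℕ} (hS : ∀ q ∈ S, 0 < q) (W : Finset (S × ℕ)) :
    ∑ p ∈ W, vterm k ((p.2 + 1) ^ k * p.1) ≤ EL k S (fun y => y ^ 2) := by
  classical
  set H := torusLaw hk hS with hH
  -- the expectation as an integral over the torus
  let H2 : C(UnitAddTorus S, ℝ) := H * H
  have h1 : EL k S (fun y => y ^ 2) = ∫ x : UnitAddTorus S, (H x) ^ 2 := by
    have h2 := coeff_zero_cube (I := S) H2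
    have h3 : mFourierCoeff (fun x => ((H2 x : ℝ) : ℂ)) 0 =
        ((∫ x : UnitAddTorus S, (H x) ^ 2 : ℝ) : ℂ) := by
      unfold mFourierCoeff
      rw [← integral_complex_ofReal]
      refine integral_congr_ae (Eventually.of_forall fun x => ?_)
      simp only [neg_zero, mFourier_zero, ContinuousMap.one_apply, one_smul]
      show ((H x * H x : ℝ) : ℂ) = ((H x ^ 2 : ℝ) : ℂ)
      rw [pow_two]
    rw [h3] at h2
    have h4 : (∫ x : UnitAddTorus S, (H x) ^ 2) =
        ∫ u in {u : S → ℝ | ∀ i, u i ∈ Ioc (0 : ℝ) 1}, H2 (fun i => (u i : UnitAddCircle)) := by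
      exact_mod_cast h2
    rw [h4]
    unfold EL
    refine integral_congr_ae (Eventually.of_forall fun u => ?_)
    show (∑ q : S, lawTerm k q (u q)) ^ 2 = H (fun i => (u i : UnitAddCircle)) *
      H (fun i => (u i : UnitAddCircle))
    rw [hH, torusLaw_real, pow_two]
  -- Parseval
  let Hc : C(UnitAddTorus S, ℂ) := ⟨fun x => ((H x : ℝ) : ℂ), by
    exact Complex.continuous_ofReal.comp H.continuous⟩
  have hP := hasSum_sq_mFourierCoeff (d := S) (ContinuousMap.toLp 2 volume ℂ Hc)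
  have h5 : (∫ t, ‖(Hc.toLp (E := ℂ) 2 volume ℂ) t‖ ^ 2) = ∫ x : UnitAddTorus S, (H x) ^ 2 := by
    refine integral_congr_ae ?_
    filter_upwards [ContinuousMap.coeFn_toLp (p := 2) (𝕜 := ℂ) volume Hc] with x hx
    rw [hx]
    show ‖((H x : ℝ) : ℂ)‖ ^ 2 = _
    rw [Complex.norm_real, Real.norm_eq_abs, sq_abs]
  rw [h5] at hP
  simp only [mFourierCoeff_toLp] at hP
  -- the modes
  let f : S × ℕ → S → ℤ := fun p => Pi.single p.1 ((p.2 : ℤ) + 1)
  have hfinj : Function.Injective f := by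
    intro p p' he
    have e1 := congrFun he p.1
    simp only [f] at e1
    rw [Pi.single_eq_same] at e1
    by_cases hp : p.1 = p'.1
    · rw [hp, Pi.single_eq_same] at e1
      exact Prod.ext hp (by omega)
    · rw [Pi.single_eq_of_ne hp] at e1
      omega
  have hneg : ∀ p p' : S × ℕ, f p ≠ -f p' := by
    intro p p' he
    have e1 := congrFun he p.1
    simp only [f, Pi.neg_apply] at e1
    rw [Pi.single_eq_same] at e1
    by_cases hp : p.1 = p'.1
    · rw [hp, Pi.single_eq_same] at e1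
      omega
    · rw [Pi.single_eq_of_ne hp] at e1
      omega
  have hc1 : ∀ p : S × ℕ, ‖mFourierCoeff (Hc : UnitAddTorus S → ℂ) (f p)‖ ^ 2 =
      vterm k ((p.2 + 1) ^ k * p.1) / 2 := by
    intro p
    have h6 := coeff_pos hk hS p.1 p.2
    have h7 : mFourierCoeff (Hc : UnitAddTorus S → ℂ) (f p) = cC k ((p.2 + 1) ^ k * p.1) := h6
    rw [h7, norm_cC, ← amp_sq (by omega)]
    ring
  have hc2 : ∀ p : S × ℕ, ‖mFourierCoeff (Hc : UnitAddTorus S → ℂ) (-f p)‖ ^ 2 =
      vterm k ((p.2 + 1) ^ k * p.1) / 2 := by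
    intro p
    rw [← hc1 p]
    have h8 : mFourierCoeff (Hc : UnitAddTorus S → ℂ) (-f p) =
        (starRingEnd ℂ) (mFourierCoeff (Hc : UnitAddTorus S → ℂ) (f p)) :=
      coeff_neg (fun x => H x) (f p)
    rw [h8, RCLike.norm_conj]
  -- the finite sum
  set U : Finset (S → ℤ) := W.image f ∪ W.image (fun p => -f p) with hU
  have h9 := sum_le_hasSum U (fun c _ => sq_nonneg (‖mFourierCoeff (Hc : UnitAddTorus S → ℂ) c‖)) hP
  rw [h1]
  refine le_trans (le_of_eq ?_) h9
  have hdis : Disjoint (W.image f) (W.image fun p => -f p) := by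
    rw [Finset.disjoint_left]
    intro c hc hc'
    obtain ⟨p, _, rfl⟩ := Finset.mem_image.1 hc
    obtain ⟨p', _, he⟩ := Finset.mem_image.1 hc'
    exact hneg p p' he.symm
  rw [hU, Finset.sum_union hdis, Finset.sum_image fun p _ p' _ h => hfinj h,
    Finset.sum_image fun p _ p' _ h => hfinj (neg_injective h), ← Finset.sum_add_distrib]
  refine Finset.sum_congr rfl fun p _ => ?_
  rw [hc1, hc2]
  ring

/-- every positive integer is a `k`-th power times a `k`-free number -/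
lemma exists_kfree (hk : 1 ≤ k) (n : ℕ) (hn : 0 < n) : ∃ a q : ℕ, 0 < q ∧
    (∀ b : ℕ, 1 < b → ¬ b ^ k ∣ q) ∧ n = (a + 1) ^ k * q := by
  induction n using Nat.strong_induction_on with
  | _ n ih =>
    by_cases h : ∀ b : ℕ, 1 < b → ¬ b ^ k ∣ n
    · exact ⟨0, n, hn, h, by simp⟩
    · push Not at h
      obtain ⟨b, hb, m, hm⟩ := h
      have hm0 : 0 < m := by
        rcases Nat.eq_zero_or_pos m with rfl | h0
        · simp at hm; omega
        · exact h0
      have hbk : 1 < b ^ k := Nat.one_lt_pow (by omega) hb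
      have hlt : m < n := by
        rw [hm]
        nlinarith
      obtain ⟨a, q, hq, hq2, he⟩ := ih m hlt hm0
      refine ⟨b * (a + 1) - 1, q, hq, hq2, ?_⟩
      have h1 : b * (a + 1) - 1 + 1 = b * (a + 1) := by
        have : 0 < b * (a + 1) := by positivity
        omega
      rw [h1, hm, he, mul_pow]
      ring

/-- the finite sections exhaust the constant -/
theorem EL_sq_tendsto (hk : 2 ≤ k) {c : ℝ} (hc : c < ∑' n, vterm k n) :
    ∃ S₀ : Finset ℕ, (∀ q ∈ S₀, 0 < q ∧ ∀ a : ℕ, 1 < a → ¬ a ^ k ∣ q) ∧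
      ∀ S : Finset ℕ, S₀ ⊆ S → (∀ q ∈ S, 0 < q) → c < EL k S (fun y => y ^ 2) := by
  classical
  have hk1 : 1 ≤ k := by omega
  have h1 := (vterm_summable hk1).hasSum
  have h2 : ∀ᶠ F : Finset ℕ in atTop, c < ∑ n ∈ F, vterm k n := h1.eventually (lt_mem_nhds hc)
  obtain ⟨F, hF⟩ := h2.exists
  -- remove 0
  set F' := F.filter fun n => 0 < n with hF'
  have hFF : ∑ n ∈ F, vterm k n = ∑ n ∈ F', vterm k n := by
    rw [hF', Finset.sum_filter]
    refine Finset.sum_congr rfl fun n _ => ?_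
    by_cases hn : 0 < n
    · rw [if_pos hn]
    · rw [if_neg hn]
      have : n = 0 := by omega
      rw [this, vterm_zero hk1]
  choose! a q hq0 hqf hnq using exists_kfree hk1
  refine ⟨F'.image q, ?_, ?_⟩
  · intro r hr
    obtain ⟨n, hn, rfl⟩ := Finset.mem_image.1 hr
    have hn0 := (Finset.mem_filter.1 hn).2
    exact ⟨hq0 n hn0, hqf n hn0⟩
  · intro S hS0 hS
    have hmem : ∀ n ∈ F', q n ∈ S := fun n hn => hS0 (Finset.mem_image_of_mem q hn)
    -- the modes
    let m : F' → S × ℕ := fun n => (⟨q n, hmem n n.2⟩, a n)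
    have hval : ∀ n : F', (((m n).2 + 1) ^ k * ((m n).1 : ℕ)) = n := by
      intro n
      exact (hnq n (Finset.mem_filter.1 n.2).2).symm
    have hinj : Function.Injective m := by
      intro n n' he
      apply Subtype.ext
      rw [← hval n, ← hval n', he]
    have h3 := EL_sq_ge hk hS (Finset.univ.image m)
    rw [Finset.sum_image fun _ _ _ _ h => hinj h] at h3
    have h4 : ∑ n : F', vterm k (((m n).2 + 1) ^ k * ((m n).1 : ℕ)) = ∑ n ∈ F', vterm k n := by
      rw [← Finset.sum_coe_sort F' (fun n => vterm k n)]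
      refine Finset.sum_congr rfl fun n _ => ?_
      rw [hval n]
    rw [h4, ← hFF] at h3
    exact hF.trans_le h3

end

end Pool.Agent.Lib.MP_bc6037_nt.Rigid
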