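import Mathlib
import Pool.Agent.Lib.MP_bc6037_nt.RigidConst

set_option autoImplicit false

/-!
The finite sections of the limit law are unbounded: large values of both signs on every window.
-/

open Filter Topology Set MeasureTheory UnitAddTorus

namespace Pool.Agent.Lib.MP_bc6037_nt.Rigid

open Pool.Agent.Lib.MP_bc6037_nt DeltaMellin ZetaGrowth

noncomputable section

variable {k : ℕ}

attribute [local instance 2000] instMeasureSpaceUnitAddCircle
  instIsAddHaarMeasureUnitAddCircleVolume instIsProbabilityMeasureUnitAddCircleVolume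

/-- the expectation as an integral over the torus -/
lemma EL_torus (hk : 2 ≤ k) {S : Finset ℕ} (hS : ∀ q ∈ S, 0 < q) {φ : ℝ → ℝ}
    (hφ : Continuous φ) : EL k S φ = ∫ x : UnitAddTorus S, φ (torusLaw hk hS x) := by
  set H := torusLaw hk hS with hH
  let H2 : C(UnitAddTorus S, ℝ) := ⟨fun x => φ (H x), hφ.comp H.continuous⟩
  have h2 := coeff_zero_cube (I := S) H2
  have h3 : mFourierCoeff (fun x => ((H2 x : ℝ) : ℂ)) 0 =
      ((∫ x : UnitAddTorus S, φ (H x) : ℝ) : ℂ) := by
    unfold mFourierCoeff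
    rw [← integral_complex_ofReal]
    refine integral_congr_ae (Eventually.of_forall fun x => ?_)
    simp only [neg_zero, mFourier_zero, ContinuousMap.one_apply, one_smul]
    show ((φ (H x) : ℝ) : ℂ) = ((φ (H x) : ℝ) : ℂ)
    rfl
  rw [h3] at h2
  have h4 : (∫ x : UnitAddTorus S, φ (H x)) =
      ∫ u in {u : S → ℝ | ∀ i, u i ∈ Ioc (0 : ℝ) 1}, H2 (fun i => (u i : UnitAddCircle)) := by
    exact_mod_cast h2
  rw [h4]
  unfold EL
  refine integral_congr_ae (Eventually.of_forall fun u => ?_)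
  show φ (∑ q : S, lawTerm k q (u q)) = φ (H (fun i => (u i : UnitAddCircle)))
  rw [hH, torusLaw_real]

lemma integral_torusLaw (hk : 2 ≤ k) {S : Finset ℕ} (hS : ∀ q ∈ S, 0 < q) :
    ∫ x : UnitAddTorus S, torusLaw hk hS x = 0 := by
  have h1 := coeff_zero hk hS 0 (fun q a h => by
      have := congrFun h q
      rw [Pi.single_eq_same, Pi.zero_apply] at this
      omega) (fun q a h => by
      have := congrFun h q
      rw [Pi.neg_apply, Pi.single_eq_same, Pi.zero_apply] at this
      omega)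
  have h3 : mFourierCoeff (fun x => ((torusLaw hk hS x : ℝ) : ℂ)) 0 =
      ((∫ x : UnitAddTorus S, torusLaw hk hS x : ℝ) : ℂ) := by
    unfold mFourierCoeff
    rw [← integral_complex_ofReal]
    refine integral_congr_ae (Eventually.of_forall fun x => ?_)
    simp only [neg_zero, mFourier_zero, ContinuousMap.one_apply, one_smul]
  rw [h3] at h1
  exact_mod_cast h1

lemma coeff_norm_le {d : Type*} [Fintype d] (f : C(UnitAddTorus d, ℝ)) (c : d → ℤ) :
    ‖mFourierCoeff (fun x => ((f x : ℝ) : ℂ)) c‖ ≤ ∫ x : UnitAddTorus d, |f x| := by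
  unfold mFourierCoeff
  refine (norm_integral_le_integral_norm _).trans ?_
  have hi : Integrable (fun x => |f x|) :=
    f.continuous.abs.integrable_of_hasCompactSupport (HasCompactSupport.of_compactSpace _)
  refine integral_mono_of_nonneg (Eventually.of_forall fun x => norm_nonneg _) hi
    (Eventually.of_forall fun x => ?_)
  have h2 : ‖mFourier (-c) x‖ ≤ 1 := by
    have h3 := (mFourier (-c)).norm_coe_le_norm x
    rwa [mFourier_norm] at h3
  have h4 : ‖mFourier (-c) x • ((f x : ℝ) : ℂ)‖ = ‖mFourier (-c) x‖ * |f x| := by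
    rw [norm_smul, Complex.norm_real, Real.norm_eq_abs]
  show ‖mFourier (-c) x • ((f x : ℝ) : ℂ)‖ ≤ |f x|
  rw [h4]
  exact mul_le_of_le_one_left (abs_nonneg _) h2

lemma amp_le_integral (hk : 2 ≤ k) {S : Finset ℕ} (hS : ∀ q ∈ S, 0 < q) (q : S) :
    amp k q / 2 ≤ ∫ x : UnitAddTorus S, |torusLaw hk hS x| := by
  classical
  have h1 := coeff_pos hk hS q 0
  rw [zero_add, one_pow, one_mul] at h1
  rw [← norm_cC, ← h1]
  exact coeff_norm_le (torusLaw hk hS) _

lemma exists_big (hk : 2 ≤ k) {S : Finset ℕ} (hS : ∀ q ∈ S, 0 < q) (q : S)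
    (hq : 0 < amp k q) : (∃ x, amp k q / 8 < torusLaw hk hS x) ∧
      ∃ x, torusLaw hk hS x < -(amp k q / 8) := by
  have h1 := amp_le_integral hk hS q
  have h0 := integral_torusLaw hk hS
  have hi : Integrable (fun x => torusLaw hk hS x) :=
    (torusLaw hk hS).continuous.integrable_of_hasCompactSupport
      (HasCompactSupport.of_compactSpace _)
  have hia : Integrable (fun x => |torusLaw hk hS x|) := hi.abs
  constructor
  · by_contra hcon
    push Not at hcon
    have h2 : ∫ x : UnitAddTorus S, |torusLaw hk hS x| ≤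
        ∫ x : UnitAddTorus S, (2 * (amp k q / 8) - torusLaw hk hS x) := by
      refine integral_mono hia ((integrable_const _).sub hi) fun x => ?_
      have := hcon x
      simp only
      rw [abs_le]
      constructor <;> linarith
    rw [integral_sub (integrable_const _) hi, h0, integral_const] at h2
    simp only [probReal_univ, smul_eq_mul, one_mul] at h2
    linarith
  · by_contra hcon
    push Not at hcon
    have h2 : ∫ x : UnitAddTorus S, |torusLaw hk hS x| ≤
        ∫ x : UnitAddTorus S, (2 * (amp k q / 8) + torusLaw hk hS x) := by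
      refine integral_mono hia ((integrable_const _).add hi) fun x => ?_
      have := hcon x
      simp only
      rw [abs_le]
      constructor <;> linarith
    rw [integral_add (integrable_const _) hi, h0, integral_const] at h2
    simp only [probReal_univ, smul_eq_mul, one_mul] at h2
    linarith

/-- large values of one component -/
lemma exists_big' (hk : 2 ≤ k) {q : ℕ} (hq0 : 0 < q) (hq : 0 < amp k q) :
    (∃ u : ℝ, amp k q / 8 < lawTerm k q u) ∧ ∃ u : ℝ, lawTerm k q u < -(amp k q / 8) := by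
  have hS : ∀ r ∈ ({q} : Finset ℕ), 0 < r := fun r hr => by
    rw [Finset.mem_singleton] at hr
    rw [hr]; exact hq0
  obtain ⟨⟨x, hx⟩, ⟨y, hy⟩⟩ := exists_big hk hS ⟨q, Finset.mem_singleton_self q⟩ hq
  have key : ∀ x : UnitAddTorus ({q} : Finset ℕ), ∃ u : ℝ,
      torusLaw hk hS x = lawTerm k q u := by
    intro x
    have h1 : ∀ i, ∃ u : ℝ, (u : UnitAddCircle) = x i := fun i => QuotientAddGroup.mk_surjective _
    choose u hu using h1
    refine ⟨u ⟨q, Finset.mem_singleton_self q⟩, ?_⟩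
    have h2 := torusLaw_real hk hS u
    have h3 : (fun r => (u r : UnitAddCircle)) = x := funext hu
    rw [h3] at h2
    rw [h2, Fintype.sum_eq_single ⟨q, Finset.mem_singleton_self q⟩]
    intro r hr
    exact absurd (Subtype.ext (Finset.mem_singleton.1 r.2)) hr
  obtain ⟨u, hu⟩ := key x
  obtain ⟨v, hv⟩ := key y
  rw [hu] at hx
  rw [hv] at hy
  exact ⟨⟨u, hx⟩, ⟨v, hy⟩⟩

lemma one_le_zpow_apply (j : ℕ) {n : ℕ} (hn : 0 < n) :
    1 ≤ (ArithmeticFunction.zeta ^ (j + 1) : ArithmeticFunction ℕ) n := by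
  have h1 : ∀ i : ℕ, (ArithmeticFunction.zeta ^ i : ArithmeticFunction ℕ) 1 = 1 := by
    intro i
    induction i with
    | zero => simp
    | succ i ih => rw [pow_succ, ArithmeticFunction.mul_apply]; simp [ih]
  rw [pow_succ, ArithmeticFunction.mul_apply]
  refine le_trans ?_ (Finset.single_le_sum (f := fun x : ℕ × ℕ =>
    (ArithmeticFunction.zeta ^ j : ArithmeticFunction ℕ) x.1 * ArithmeticFunction.zeta x.2)
    (fun _ _ => Nat.zero_le _) (a := (1, n)) ?_)
  · simp only
    rw [h1 j, ArithmeticFunction.zeta_apply_ne hn.ne']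
  · rw [Nat.mem_divisorsAntidiagonal]
    exact ⟨one_mul n, hn.ne'⟩

lemma one_le_dk (hk : 1 ≤ k) {n : ℕ} (hn : 0 < n) : 1 ≤ dk k n := by
  obtain ⟨j, rfl⟩ : ∃ j, k = j + 1 := ⟨k - 1, by omega⟩
  unfold dk
  exact_mod_cast one_le_zpow_apply j hn

lemma amp_ge (hk : 1 ≤ k) {n : ℕ} (hn : 0 < n) :
    (Real.pi * √k)⁻¹ * (1 / (n : ℝ)) ≤ amp k n := by
  have hkp : (1 : ℝ) ≤ k := by exact_mod_cast hk
  have hnp : (1 : ℝ) ≤ n := by exact_mod_cast hn
  have h1 := one_le_dk hk hn
  have h2 : 1 / (n : ℝ) ≤ (n : ℝ) ^ (-((k + 1) / (2 * k)) : ℝ) := by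
    rw [one_div, ← Real.rpow_neg_one]
    apply Real.rpow_le_rpow_of_exponent_le hnp
    rw [neg_le_neg_iff, div_le_one (by positivity)]
    linarith
  have h3 : 0 ≤ (Real.pi * √(k : ℝ))⁻¹ := by positivity
  unfold amp
  calc (Real.pi * √(k : ℝ))⁻¹ * (1 / (n : ℝ)) = (Real.pi * √(k : ℝ))⁻¹ * 1 * (1 / (n : ℝ)) := by ring
    _ ≤ (Real.pi * √(k : ℝ))⁻¹ * dk k n * (n : ℝ) ^ (-((k + 1) / (2 * k)) : ℝ) := by
        gcongr

/-- a set of primes whose components have a large sum -/
lemma exists_section (hk : 2 ≤ k) (A : ℝ) : ∃ S : Finset ℕ,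
    (∀ q ∈ S, 0 < q ∧ ∀ a : ℕ, 1 < a → ¬ a ^ k ∣ q) ∧ A < ∑ q : S, amp k q / 8 := by
  classical
  have hk1 : 1 ≤ k := by omega
  have hkp : (0 : ℝ) < k := by exact_mod_cast hk1
  set c := (Real.pi * √(k : ℝ))⁻¹ / 8 with hc
  have hc0 : 0 < c := by positivity
  have h1 : ∃ F : Finset ℕ, A / c <
      ∑ n ∈ F, Set.indicator {p : ℕ | p.Prime} (fun n : ℕ => (1 : ℝ) / n) n := by
    by_contra hcon
    push Not at hcon
    exact not_summable_one_div_on_primes (summable_of_sum_le (c := A / c)
      (fun p => Set.indicator_nonneg (fun _ _ => by positivity) _) hcon)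
  obtain ⟨F, hF⟩ := h1
  rw [div_lt_iff₀ hc0] at hF
  refine ⟨F.filter Nat.Prime, ?_, ?_⟩
  · intro q hq
    have hp := (Finset.mem_filter.1 hq).2
    refine ⟨hp.pos, fun a ha hd => ?_⟩
    have h2 : a ^ 2 ∣ q := (pow_dvd_pow a hk).trans hd
    have h3 : a ∣ q := (dvd_pow_self a (by norm_num)).trans h2
    have h4 := (Nat.dvd_prime hp).1 h3
    rcases h4 with h4 | h4
    · omega
    · have h5 : a ^ 2 ≤ q := Nat.le_of_dvd hp.pos h2
      rw [← h4] at h5
      nlinarith
  · rw [Finset.sum_coe_sort (F.filter Nat.Prime) (fun q => amp k q / 8), Finset.sum_filter]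
    refine hF.trans_le ?_
    rw [Finset.sum_mul]
    refine Finset.sum_le_sum fun p _ => ?_
    by_cases hp : p.Prime
    · have h2 := amp_ge hk1 hp.pos
      rw [if_pos hp, Set.indicator_of_mem (show p ∈ {p : ℕ | p.Prime} from hp), hc]
      have h3 : 1 / (p : ℝ) * ((Real.pi * √(k : ℝ))⁻¹ / 8) =
          (Real.pi * √(k : ℝ))⁻¹ * (1 / (p : ℝ)) / 8 := by ring
      rw [h3]
      linarith
    · rw [if_neg hp, Set.indicator_of_notMem (show p ∉ {p : ℕ | p.Prime} from hp), zero_mul]

/-- the means of `(Y - A)_+` and `(-Y - A)_+` are positive for a suitable section -/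
lemma exists_pos_section (hk : 2 ≤ k) (A : ℝ) : ∃ S : Finset ℕ,
    (∀ q ∈ S, 0 < q ∧ ∀ a : ℕ, 1 < a → ¬ a ^ k ∣ q) ∧
    0 < EL k S (fun y => max (y - A) 0) ∧ 0 < EL k S (fun y => max (-y - A) 0) := by
  obtain ⟨S, hS, hA⟩ := exists_section hk A
  have hSp : ∀ q ∈ S, 0 < q := fun q hq => (hS q hq).1
  have hpos : ∀ q : S, 0 < amp k q := fun q => by
    have h1 := amp_ge (k := k) (by omega) (hSp q q.2)
    have h2 : (0 : ℝ) < q := by exact_mod_cast hSp q q.2
    have h3 : (0 : ℝ) < k := by exact_mod_cast (by omega : 0 < k)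
    exact lt_of_lt_of_le (by positivity) h1
  choose u hu using fun q : S => (exists_big' hk (hSp q q.2) (hpos q)).1
  choose v hv using fun q : S => (exists_big' hk (hSp q q.2) (hpos q)).2
  have hc1 : Continuous fun y : ℝ => max (y - A) 0 := by fun_prop
  have hc2 : Continuous fun y : ℝ => max (-y - A) 0 := by fun_prop
  refine ⟨S, hS, ?_, ?_⟩
  · rw [EL_torus hk hSp hc1]
    refine Continuous.integral_pos_of_hasCompactSupport_nonneg_nonzero
      (f := fun x => max (torusLaw hk hSp x - A) 0) (x := fun q => (u q : UnitAddCircle))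
      (hc1.comp (torusLaw hk hSp).continuous) (HasCompactSupport.of_compactSpace _)
      (fun x => le_max_right _ _) ?_
    rw [torusLaw_real]
    have h1 : A < ∑ q : S, lawTerm k q (u q) := hA.trans_le (Finset.sum_le_sum fun q _ => (hu q).le)
    have h2 : 0 < max (∑ q : S, lawTerm k q (u q) - A) 0 := lt_max_of_lt_left (by linarith)
    exact h2.ne'
  · rw [EL_torus hk hSp hc2]
    refine Continuous.integral_pos_of_hasCompactSupport_nonneg_nonzero
      (f := fun x => max (-torusLaw hk hSp x - A) 0) (x := fun q => (v q : UnitAddCircle))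
      (hc2.comp (torusLaw hk hSp).continuous) (HasCompactSupport.of_compactSpace _)
      (fun x => le_max_right _ _) ?_
    rw [torusLaw_real]
    have h1 : ∑ q : S, lawTerm k q (v q) ≤ ∑ q : S, -(amp k q / 8) :=
      Finset.sum_le_sum fun q _ => (hv q).le
    rw [Finset.sum_neg_distrib] at h1
    have h2 : 0 < max (-∑ q : S, lawTerm k q (v q) - A) 0 := lt_max_of_lt_left (by linarith)
    exact h2.ne'

lemma convex_pos (A : ℝ) : ConvexOn ℝ univ (fun y : ℝ => max (y - A) 0) := by
  refine ⟨convex_univ, fun x _ y _ a b ha hb hab => ?_⟩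
  simp only [smul_eq_mul]
  have h1 := mul_le_mul_of_nonneg_left (le_max_left (x - A) 0) ha
  have h2 := mul_le_mul_of_nonneg_left (le_max_left (y - A) 0) hb
  have h3 := mul_nonneg ha (le_max_right (x - A) 0)
  have h4 := mul_nonneg hb (le_max_right (y - A) 0)
  have hb' : b = 1 - a := by linarith
  refine max_le ?_ (by linarith)
  have h5 : a * x + b * y - A = a * (x - A) + b * (y - A) := by rw [hb']; ring
  rw [h5]
  exact add_le_add h1 h2

lemma convex_neg (A : ℝ) : ConvexOn ℝ univ (fun y : ℝ => max (-y - A) 0) := by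
  refine ⟨convex_univ, fun x _ y _ a b ha hb hab => ?_⟩
  simp only [smul_eq_mul]
  have h1 := mul_le_mul_of_nonneg_left (le_max_left (-x - A) 0) ha
  have h2 := mul_le_mul_of_nonneg_left (le_max_left (-y - A) 0) hb
  have h3 := mul_nonneg ha (le_max_right (-x - A) 0)
  have h4 := mul_nonneg hb (le_max_right (-y - A) 0)
  have hb' : b = 1 - a := by linarith
  refine max_le ?_ (by linarith)
  have h5 : -(a * x + b * y) - A = a * (-x - A) + b * (-y - A) := by rw [hb']; ring
  rw [h5]
  exact add_le_add h1 h2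

/-- **values beyond every level, of both signs, on every window** -/
theorem big_main (hk : 2 ≤ k) {P : Polynomial ℝ} {Z : ℂ → ℂ}
    (hZ : DifferentiableOn ℂ Z {s : ℂ | 0 < s.re})
    (hZ' : ∀ s : ℂ, 0 < s.re → s ≠ 1 → Z s = riemannZeta s ^ k / s - Q P s) (A : ℝ) :
    ∃ c : ℝ, 0 < c ∧ EvW k (fun X h =>
      c * h ≤ (∫ x in X..(X + h), max (F0 k P x - A) 0) ∧
      c * h ≤ ∫ x in X..(X + h), max (-F0 k P x - A) 0) := by
  obtain ⟨S, hS, h1, h2⟩ := exists_pos_section hk A
  have hSp : ∀ q ∈ S, 0 < q := fun q hq => (hS q hq).1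
  have hI := rootIndep (by omega) hS
  set c := min (EL k S (fun y => max (y - A) 0)) (EL k S (fun y => max (-y - A) 0)) / 2 with hc
  have hc0 : 0 < c := by
    rw [hc]
    exact half_pos (lt_min h1 h2)
  have hc1 : c < EL k S (fun y => max (y - A) 0) := by
    have := min_le_left (EL k S (fun y => max (y - A) 0)) (EL k S (fun y => max (-y - A) 0))
    linarith
  have hc2 : c < EL k S (fun y => max (-y - A) 0) := by
    have := min_le_right (EL k S (fun y => max (y - A) 0)) (EL k S (fun y => max (-y - A) 0))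
    linarith
  refine ⟨c, hc0, EvW.and ?_ ?_⟩
  · exact crit_main hk hZ hZ' hSp hI (convex_pos A) (fun y => le_max_right _ _) hc1
  · exact crit_main hk hZ hZ' hSp hI (convex_neg A) (fun y => le_max_right _ _) hc2

end

end Pool.Agent.Lib.MP_bc6037_nt.Rigid
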