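import Mathlib
import Pool.Agent.Lib.MP_bc6037_nt.AbsMain
import Pool.Agent.Lib.MP_bc6037_nt.RigidConst

set_option autoImplicit false

/-!
The convex-order bound for `Δ + G`, `G` a continuous function of the phases; equidistribution of
the phases on all long windows; mean-square approximation.
-/

open Complex Filter Topology Set MeasureTheory UnitAddTorus
open scoped ContDiff ComplexConjugate

namespace Pool.Agent.Lib.MP_bc6037_nt.Rigid

open Pool.Agent.Lib.MP_bc6037_nt DeltaMellin ZetaGrowth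

noncomputable section

variable {k : ℕ}

/-- the phases `k (q x)^(1/k)` mod 1, `q ∈ S` -/
def ph (k : ℕ) (S : Finset ℕ) (x : ℝ) : UnitAddTorus S :=
  tpt (lamS k S) (fun x : ℝ => x ^ (1 / k : ℝ)) x

lemma ph_meas (k : ℕ) (S : Finset ℕ) : Measurable (ph k S) :=
  tpt_measurable _ (measurable_id.pow_const _)

section Data

variable {ψ : ℝ → ℝ}

/-- the measures, cut to admissible parameters -/
def muF (k : ℕ) (ψ : ℝ → ℝ) (p : ℝ × ℝ) : Measure ℝ :=
  if 1 ≤ p.1 ∧ p.1 ≤ p.2 then wmeas k ψ p.1 0 p.2 else 0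

lemma muF_eq (k : ℕ) (ψ : ℝ → ℝ) : ∀ᶠ p : ℝ × ℝ in winF, muF k ψ p = wmeas k ψ p.1 0 p.2 := by
  filter_upwards [winF_ev] with p hp
  exact if_pos hp

lemma muF_fin (hk1 : 1 ≤ k) (h0 : ∀ s, 0 ≤ ψ s) (h1 : ∀ s, ψ s ≤ 1)
    (hsupp : ∀ s, ψ s ≠ 0 → 0 < s ∧ s < 1) (p : ℝ × ℝ) : IsFiniteMeasure (muF k ψ p) := by
  unfold muF
  split_ifs with hV
  · exact wmeas_finite hk1 h0 h1 hsupp (by linarith [hV.1]) (by linarith [hV.1, hV.2])
  · infer_instance

lemma muF_mass (hk : 2 ≤ k) (hψ : ContDiff ℝ ∞ ψ) (hc : HasCompactSupport ψ)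
    (h0 : ∀ s, 0 ≤ ψ s) (hsupp : ∀ s, ψ s ≠ 0 → 0 < s ∧ s < 1) :
    Tendsto (fun p => (muF k ψ p).real univ) winF (𝓝 (∫ s, ψ s)) := by
  refine (mass_tendsto' hk hψ hc h0 hsupp).congr' ?_
  filter_upwards [muF_eq k ψ] with p hp
  rw [hp]

lemma muF_exp (hk : 2 ≤ k) {S : Finset ℕ} (hI : RootIndep k S)
    (hψ : ContDiff ℝ ∞ ψ) (hc : HasCompactSupport ψ)
    (h0 : ∀ s, 0 ≤ ψ s) (hsupp : ∀ s, ψ s ≠ 0 → 0 < s ∧ s < 1) (c : S → ℤ) (hc' : c ≠ 0) :
    Tendsto (fun p => ∫ x, cexp (2 * Real.pi * Complex.I *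
      ((∑ i, (c i : ℝ) * lamS k S i : ℝ) : ℂ) * ((x ^ (1 / k : ℝ) : ℝ) : ℂ)) ∂(muF k ψ p))
      winF (𝓝 0) := by
  have hkp : (0 : ℝ) < k := by exact_mod_cast (by omega : 0 < k)
  have hpk : 0 < 2 * Real.pi * k := by positivity
  have h5 := exp_tendsto' hk hψ hc h0 hsupp (2 * Real.pi * ∑ q : S, (c q : ℝ) * lamS k S q)
  rw [if_neg (by
    intro h2
    rw [sum_lamS] at h2
    exact hc' (hI.1 c ((mul_eq_zero.1 h2).resolve_left hpk.ne')))] at h5
  refine h5.congr' ?_
  filter_upwards [muF_eq k ψ] with p hp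
  rw [hp]
  congr 1
  funext x
  congr 1
  push_cast
  ring

/-- Weyl on the smooth windows -/
lemma muF_weyl (hk : 2 ≤ k) {S : Finset ℕ} (hI : RootIndep k S)
    (hψ : ContDiff ℝ ∞ ψ) (hc : HasCompactSupport ψ)
    (h0 : ∀ s, 0 ≤ ψ s) (h1 : ∀ s, ψ s ≤ 1) (hsupp : ∀ s, ψ s ≠ 0 → 0 < s ∧ s < 1)
    (hm : 0 < ∫ s, ψ s) (H : C(UnitAddTorus S, ℂ)) :
    Tendsto (fun p => ∫ x, H (ph k S x) ∂(muF k ψ p)) winF
      (𝓝 (((∫ s, ψ s : ℝ) : ℂ) * mFourierCoeff (fun x => H x) 0)) :=
  weyl (muF_fin (by omega) h0 h1 hsupp) (measurable_id.pow_const _) hm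
    (muF_mass hk hψ hc h0 hsupp) (muF_exp hk hI hψ hc h0 hsupp) H

end Data

/-- bound for a continuous function on the torus -/
lemma loc_int (hk : 1 ≤ k) (P : Polynomial ℝ) {S : Finset ℕ} (G : C(UnitAddTorus S, ℝ))
    {φ : ℝ → ℝ} (hφ : Continuous φ) (X Y : ℝ) (hX : 1 ≤ X) :
    IntegrableOn (fun x => φ (F0 k P x + G (ph k S x))) (Ioc X Y) := by
  obtain ⟨Cg, hCg0, hCg⟩ := F0_bound k hk P
  have hfinI : volume (Ioc X Y) ≠ ⊤ := by rw [Real.volume_Ioc]; exact ENNReal.ofReal_ne_top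
  set M := Cg * Y ^ (3 / 2 : ℝ) + ‖G‖ with hM
  obtain ⟨B, hB⟩ := (isCompact_Icc (a := -M) (b := M)).exists_bound_of_continuousOn
    hφ.continuousOn
  refine Measure.integrableOn_of_bounded (M := B) hfinI
    (hφ.measurable.comp ((F0_measurable k P).add
      (G.continuous.measurable.comp (ph_meas k S)))).aestronglyMeasurable ?_
  filter_upwards [ae_restrict_mem measurableSet_Ioc] with y hy
  refine hB _ (abs_le.1 ?_)
  have hy1 : 1 ≤ y := hX.trans hy.1.le
  have h2 : |G (ph k S y)| ≤ ‖G‖ := G.norm_coe_le_norm _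
  refine (abs_add_le _ _).trans (add_le_add ((hCg y hy1).trans ?_) h2)
  have := hy.2
  gcongr

attribute [local instance 2000] instMeasureSpaceUnitAddCircle
  instIsAddHaarMeasureUnitAddCircleVolume instIsProbabilityMeasureUnitAddCircleVolume

lemma coeff_zero_real {S : Finset ℕ} (H : C(UnitAddTorus S, ℝ)) :
    mFourierCoeff (fun x => ((H x : ℝ) : ℂ)) 0 = ((∫ x : UnitAddTorus S, H x : ℝ) : ℂ) := by
  unfold mFourierCoeff
  rw [← integral_complex_ofReal]
  refine integral_congr_ae (Eventually.of_forall fun x => ?_)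
  simp only [neg_zero, mFourier_zero, ContinuousMap.one_apply, one_smul]

/-- the convex-order bound for `Δ + G(phases)` over the smooth windows -/
theorem twist_win (hk : 2 ≤ k) {P : Polynomial ℝ} {Z : ℂ → ℂ}
    (hZ : DifferentiableOn ℂ Z {s : ℂ | 0 < s.re})
    (hZ' : ∀ s : ℂ, 0 < s.re → s ≠ 1 → Z s = riemannZeta s ^ k / s - Q P s)
    {S : Finset ℕ} (hS : ∀ q ∈ S, 0 < q) (hI : RootIndep k S) (G : C(UnitAddTorus S, ℝ))
    {φ : ℝ → ℝ} (hφ : ConvexOn ℝ univ φ) (hφ0 : ∀ y, 0 ≤ φ y) :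
    WinBound k (fun x => φ (F0 k P x + G (ph k S x)))
      (∫ x : UnitAddTorus S, φ (torusLaw hk hS x + G x)) := by
  intro ψ hψ hc h0 h1 hsupp hm c hcc
  have hk1 : 1 ≤ k := by omega
  have hφc : Continuous φ := continuousOn_univ.1 (hφ.continuousOn isOpen_univ)
  have hfin := muF_fin (k := k) hk1 h0 h1 hsupp
  have hw : Measurable (fun x : ℝ => x ^ (1 / k : ℝ)) := measurable_id.pow_const _
  have hFi : ∀ᶠ p : ℝ × ℝ in winF, Integrable (F0 k P) (muF k ψ p) := by
    filter_upwards [winF_ev, muF_eq k ψ] with p hp hp2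
    rw [hp2]
    exact F0_integrable hk1 P hψ.continuous h0 h1 hsupp (by linarith [hp.1])
      (by linarith [hp.1, hp.2])
  let Gc : C(UnitAddTorus S, ℂ) := ⟨fun x => ((G x : ℝ) : ℂ),
    Complex.continuous_ofReal.comp G.continuous⟩
  have hGi : ∀ p, Integrable (fun x => G (ph k S x)) (muF k ψ p) := by
    intro p
    have := hfin p
    have h2 := (comp_integrable (μ := muF k ψ p) (lamS k S) hw Gc).re
    exact h2
  set TG : C(UnitAddTorus S, ℝ) := torusLaw hk hS + G with hTG
  have key := convex_order (l := winF) (muF k ψ) (fun x => F0 k P x + G (ph k S x))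
    (fun x => x ^ (1 / k : ℝ)) hw (lamS k S) TG hm hfin
    (by
      filter_upwards [hFi] with p hp
      exact hp.add (hGi p))
    (muF_mass hk hψ hc h0 hsupp)
    (muF_exp hk hI hψ hc h0 hsupp)
    (by
      intro c'
      -- the part of the error term
      have a1 : Tendsto (fun p => ∫ x, (F0 k P x : ℂ) * cexp (-(2 * Real.pi * Complex.I *
          ((∑ i, (c' i : ℝ) * lamS k S i : ℝ) : ℂ) * ((x ^ (1 / k : ℝ) : ℝ) : ℂ))) ∂(muF k ψ p))
          winF (𝓝 (((∫ s, ψ s : ℝ) : ℂ) *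
            mFourierCoeff (fun x => ((torusLaw hk hS x : ℝ) : ℂ)) c')) := by
        refine (coeff_tendsto' hk hZ hZ' hS hI hψ hc h0 h1 hsupp c').congr' ?_
        filter_upwards [muF_eq k ψ] with p hp
        rw [hp]
        congr 1
        funext x
        congr 2
        push_cast
        ring
      -- the part of `G`
      have a2 := muF_weyl hk hI hψ hc h0 h1 hsupp hm (mFourier (-c') * Gc)
      rw [coeff_mul_mono, neg_neg] at a2
      have a3 : mFourierCoeff (fun x => ((TG x : ℝ) : ℂ)) c' =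
          mFourierCoeff (fun x => ((torusLaw hk hS x : ℝ) : ℂ)) c' +
          mFourierCoeff (fun x => Gc x) c' := by
        let Tc : C(UnitAddTorus S, ℂ) := ⟨fun x => ((torusLaw hk hS x : ℝ) : ℂ),
          Complex.continuous_ofReal.comp (torusLaw hk hS).continuous⟩
        have h2 := coeff_add Tc Gc c'
        have h3 : (fun x => ((TG x : ℝ) : ℂ)) = fun x => Tc x + Gc x := by
          funext x
          show ((torusLaw hk hS x + G x : ℝ) : ℂ) = ((torusLaw hk hS x : ℝ) : ℂ) + ((G x : ℝ) : ℂ)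
          push_cast
          ring
        rw [h3]
        exact h2
      rw [a3, mul_add]
      refine (a1.add a2).congr' ?_
      filter_upwards [hFi] with p hp
      have := hfin p
      have b1 : Integrable (fun x => (F0 k P x : ℂ) * cexp (-(2 * Real.pi * Complex.I *
          ((∑ i, (c' i : ℝ) * lamS k S i : ℝ) : ℂ) * ((x ^ (1 / k : ℝ) : ℝ) : ℂ))))
          (muF k ψ p) := by
        have b2 := prod_integrable (μ := muF k ψ p) (lamS k S) hw (mFourier (-c')) hp
        refine b2.congr (Eventually.of_forall fun x => ?_)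
        simp only
        rw [mFourier_tpt, mul_comm]
        congr 2
        simp only [Pi.neg_apply]
        push_cast
        simp only [neg_mul, Finset.sum_neg_distrib, mul_neg]
      have b3 : Integrable (fun x => (mFourier (-c') * Gc) (ph k S x)) (muF k ψ p) :=
        comp_integrable (μ := muF k ψ p) (lamS k S) hw (mFourier (-c') * Gc)
      rw [← integral_add b1 b3]
      congr 1
      funext x
      have b4 : (mFourier (-c') * Gc) (ph k S x) = cexp (-(2 * Real.pi * Complex.I *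
          ((∑ i, (c' i : ℝ) * lamS k S i : ℝ) : ℂ) * ((x ^ (1 / k : ℝ) : ℝ) : ℂ))) *
          ((G (ph k S x) : ℝ) : ℂ) := by
        rw [ContinuousMap.mul_apply]
        unfold ph
        rw [mFourier_tpt]
        congr 2
        simp only [Pi.neg_apply]
        push_cast
        simp only [neg_mul, Finset.sum_neg_distrib, mul_neg]
      rw [b4]
      push_cast
      ring)
    hφ hφ0
    (by
      filter_upwards [winF_ev, muF_eq k ψ] with p hp hp2
      rw [hp2]
      obtain ⟨C, hC0, hC⟩ := F0_bound k hk1 P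
      set M := C * ((p.2 + HH p.1 0 p.2) ^ (k : ℝ)) ^ (3 / 2 : ℝ) + ‖G‖ with hM
      obtain ⟨B, hB⟩ := (isCompact_Icc (a := -M) (b := M)).exists_bound_of_continuousOn
        hφc.continuousOn
      refine win_integrable hk1 hψ.continuous h0 h1 hsupp (by linarith [hp.1])
        (by linarith [hp.1, hp.2])
        (hφc.measurable.comp ((F0_measurable k P).add
          (G.continuous.measurable.comp (ph_meas k S)))).aestronglyMeasurable (B := B)
        fun x hx hx2 => ?_
      refine hB _ (abs_le.1 ?_)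
      have h2 : |G (ph k S x)| ≤ ‖G‖ := G.norm_coe_le_norm _
      refine (abs_add_le _ _).trans (add_le_add ((hC x hx.le).trans ?_) h2)
      have : 0 < x := by linarith
      gcongr)
    (c := c) (by
      refine hcc.trans_le (le_of_eq ?_)
      congr 1
      let H : C(UnitAddTorus S, ℝ) := ⟨fun x => φ (TG x), hφc.comp TG.continuous⟩
      have h2 := coeff_zero_cube (I := S) H
      have h3 := coeff_zero_real H
      rw [h3] at h2
      exact_mod_cast h2)
  filter_upwards [key, muF_eq k ψ] with p h2 hp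
  rwa [hp] at h2

/-- equidistribution over the smooth windows -/
theorem equi_win (hk : 2 ≤ k) {S : Finset ℕ} (hI : RootIndep k S) (H : C(UnitAddTorus S, ℝ)) :
    WinBound k (fun x => H (ph k S x)) (∫ x : UnitAddTorus S, H x) := by
  intro ψ hψ hc h0 h1 hsupp hm c hcc
  let Hc : C(UnitAddTorus S, ℂ) := ⟨fun x => ((H x : ℝ) : ℂ),
    Complex.continuous_ofReal.comp H.continuous⟩
  have a2 := muF_weyl hk hI hψ hc h0 h1 hsupp hm Hc
  have a3 : mFourierCoeff (fun x => Hc x) 0 = ((∫ x : UnitAddTorus S, H x : ℝ) : ℂ) :=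
    coeff_zero_real H
  rw [a3, ← ofReal_mul] at a2
  have a4 := (continuous_re.tendsto _).comp a2
  rw [ofReal_re] at a4
  filter_upwards [a4.eventually (lt_mem_nhds hcc), muF_eq k ψ] with p hp hp2
  simp only [Function.comp_apply] at hp
  have a5 : (∫ x, Hc (ph k S x) ∂(muF k ψ p)) =
      ((∫ x, H (ph k S x) ∂(muF k ψ p) : ℝ) : ℂ) := by
    rw [← integral_complex_ofReal]
    rfl
  rw [a5, ofReal_re, hp2] at hp
  exact hp.le

/-- the convex-order bound for `Δ + G(phases)` on all long windows -/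
theorem twist_main (hk : 2 ≤ k) {P : Polynomial ℝ} {Z : ℂ → ℂ}
    (hZ : DifferentiableOn ℂ Z {s : ℂ | 0 < s.re})
    (hZ' : ∀ s : ℂ, 0 < s.re → s ≠ 1 → Z s = riemannZeta s ^ k / s - Q P s)
    {S : Finset ℕ} (hS : ∀ q ∈ S, 0 < q) (hI : RootIndep k S) (G : C(UnitAddTorus S, ℝ))
    {φ : ℝ → ℝ} (hφ : ConvexOn ℝ univ φ) (hφ0 : ∀ y, 0 ≤ φ y) {c : ℝ}
    (hcc : c < ∫ x : UnitAddTorus S, φ (torusLaw hk hS x + G x)) :
    EvW k (fun X h => c * h ≤ ∫ x in X..(X + h), φ (F0 k P x + G (ph k S x))) :=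
  abs_main hk (fun _ => hφ0 _) (fun X Y hX => loc_int (by omega) P G
    (continuousOn_univ.1 (hφ.continuousOn isOpen_univ)) X Y hX)
    (twist_win hk hZ hZ' hS hI G hφ hφ0) hcc

lemma ph_int {S : Finset ℕ} (H : C(UnitAddTorus S, ℝ)) (X Y : ℝ) :
    IntegrableOn (fun x => H (ph k S x)) (Ioc X Y) := by
  have hfinI : volume (Ioc X Y) ≠ ⊤ := by rw [Real.volume_Ioc]; exact ENNReal.ofReal_ne_top
  refine Measure.integrableOn_of_bounded (M := ‖H‖) hfinI
    (H.continuous.measurable.comp (ph_meas k S)).aestronglyMeasurable ?_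
  exact Eventually.of_forall fun x => H.norm_coe_le_norm _

/-- equidistribution of the phases on all long windows -/
theorem equi_main (hk : 2 ≤ k) {S : Finset ℕ} (hI : RootIndep k S) (H : C(UnitAddTorus S, ℝ))
    {ε : ℝ} (hε : 0 < ε) :
    EvW k (fun X h => |(∫ x in X..(X + h), H (ph k S x)) -
      (∫ x : UnitAddTorus S, H x) * h| ≤ ε * h) := by
  have hint : ∀ H' : C(UnitAddTorus S, ℝ), Integrable (fun x => H' x) := fun H' =>
    H'.continuous.integrable_of_hasCompactSupport (HasCompactSupport.of_compactSpace _)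
  -- lower bound for a nonnegative function
  have low : ∀ H' : C(UnitAddTorus S, ℝ), (∀ x, 0 ≤ H' x) →
      EvW k (fun X h => ((∫ x : UnitAddTorus S, H' x) - ε) * h ≤
        ∫ x in X..(X + h), H' (ph k S x)) := fun H' hH' =>
    abs_main hk (fun _ => hH' _) (fun X Y _ => ph_int H' X Y) (equi_win hk hI H') (by linarith)
  let K : C(UnitAddTorus S, ℝ) := ContinuousMap.const _ ‖H‖
  have b1 := low (K + H) fun x => by
    have := (abs_le.1 (show |H x| ≤ ‖H‖ from H.norm_coe_le_norm x)).1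
    show 0 ≤ ‖H‖ + H x
    linarith
  have b2 := low (K - H) fun x => by
    have := (abs_le.1 (show |H x| ≤ ‖H‖ from H.norm_coe_le_norm x)).2
    show 0 ≤ ‖H‖ - H x
    linarith
  refine ((b1.and b2).and (EvW.pos k)).mono fun X h hq => ?_
  obtain ⟨⟨c1, c2⟩, hX, hh⟩ := hq
  have i1 : IntervalIntegrable (fun x => H (ph k S x)) volume X (X + h) := by
    rw [intervalIntegrable_iff_integrableOn_Ioc_of_le (by linarith)]
    exact ph_int H X (X + h)
  have e1 : (∫ x in X..(X + h), (K + H) (ph k S x)) =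
      ‖H‖ * h + ∫ x in X..(X + h), H (ph k S x) := by
    show (∫ x in X..(X + h), (‖H‖ + H (ph k S x))) = _
    rw [intervalIntegral.integral_add intervalIntegrable_const i1,
      intervalIntegral.integral_const]
    simp only [smul_eq_mul]
    ring
  have e2 : (∫ x in X..(X + h), (K - H) (ph k S x)) =
      ‖H‖ * h - ∫ x in X..(X + h), H (ph k S x) := by
    show (∫ x in X..(X + h), (‖H‖ - H (ph k S x))) = _
    rw [intervalIntegral.integral_sub intervalIntegrable_const i1,
      intervalIntegral.integral_const]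
    simp only [smul_eq_mul]
    ring
  have e3 : (∫ x : UnitAddTorus S, (K + H) x) = ‖H‖ + ∫ x : UnitAddTorus S, H x := by
    show (∫ x : UnitAddTorus S, (‖H‖ + H x)) = _
    rw [integral_add (integrable_const _) (hint H), integral_const]
    simp
  have e4 : (∫ x : UnitAddTorus S, (K - H) x) = ‖H‖ - ∫ x : UnitAddTorus S, H x := by
    show (∫ x : UnitAddTorus S, (‖H‖ - H x)) = _
    rw [integral_sub (integrable_const _) (hint H), integral_const]
    simp
  rw [e1, e3] at c1
  rw [e2, e4] at c2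
  rw [abs_le]
  constructor <;> nlinarith

end

end Pool.Agent.Lib.MP_bc6037_nt.Rigid
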