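import Mathlib
import Pool.Agent.Lib.MP_bc6037_nt.Twist
import Pool.Agent.Lib.MP_bc6037_nt.RigidBig

set_option autoImplicit false

/-!
Mean square of the difference between the error term and a finite section of its Voronoi
expansion, on all long windows with bounded mean square.
-/

open Complex Filter Topology Set MeasureTheory UnitAddTorus
open scoped ContDiff ComplexConjugate

namespace Pool.Agent.Lib.MP_bc6037_nt.Rigid

open Pool.Agent.Lib.MP_bc6037_nt DeltaMellin ZetaGrowth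

noncomputable section

variable {k : ℕ}

/-- the section of the Voronoi expansion that belongs to `S` -/
def sec (k : ℕ) (S : Finset ℕ) (x : ℝ) : ℝ :=
  ∑ q ∈ S, lawTerm k q (k * ((q : ℝ) ^ (1 / k : ℝ) * x ^ (1 / k : ℝ)))

lemma sec_eq (hk : 2 ≤ k) {S : Finset ℕ} (hS : ∀ q ∈ S, 0 < q) (x : ℝ) :
    sec k S x = torusLaw hk hS (ph k S x) := by
  have h1 := torusLaw_real hk hS (fun q : S => lamS k S q * x ^ (1 / k : ℝ))
  have h2 : ph k S x = fun q : S => ((lamS k S q * x ^ (1 / k : ℝ) : ℝ) : UnitAddCircle) := rfl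
  rw [h2, h1]
  unfold sec
  rw [← Finset.sum_coe_sort S (fun q => lawTerm k q (k * ((q : ℝ) ^ (1 / k : ℝ) *
    x ^ (1 / k : ℝ))))]
  refine Finset.sum_congr rfl fun q _ => ?_
  congr 1
  unfold lamS
  ring

attribute [local instance 2000] instMeasureSpaceUnitAddCircle
  instIsAddHaarMeasureUnitAddCircleVolume instIsProbabilityMeasureUnitAddCircleVolume

/-- **Pythagoras** on all long windows with bounded mean square -/
theorem pythagoras (hk : 2 ≤ k) {P : Polynomial ℝ} {Z : ℂ → ℂ}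
    (hZ : DifferentiableOn ℂ Z {s : ℂ | 0 < s.re})
    (hZ' : ∀ s : ℂ, 0 < s.re → s ≠ 1 → Z s = riemannZeta s ^ k / s - Q P s)
    {S : Finset ℕ} (hS : ∀ q ∈ S, 0 < q) (hI : RootIndep k S) (B : ℝ) {ε : ℝ} (hε : 0 < ε) :
    EvW k (fun X h => (∫ x in X..(X + h), F0 k P x ^ 2) ≤ B * h →
      |(∫ x in X..(X + h), (F0 k P x - sec k S x) ^ 2) -
        ((∫ x in X..(X + h), F0 k P x ^ 2) - EL k S (fun y => y ^ 2) * h)| ≤ ε * h) := by
  have hk1 : 1 ≤ k := by omega
  have hq2 : Continuous fun y : ℝ => y ^ 2 := by fun_prop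
  set T := torusLaw hk hS with hT
  set v := EL k S (fun y => y ^ 2) with hv
  have hvT : v = ∫ x : UnitAddTorus S, T x ^ 2 := EL_torus hk hS hq2
  -- parameters
  set t := 4 * (|B| + |v| + 1) / ε with ht
  have ht0 : 0 < t := by positivity
  set η := min (ε / 4) (t * ε / (2 * (1 + t ^ 2))) with hη
  have hη0 : 0 < η := lt_min (by positivity) (by positivity)
  have hη1 : η ≤ ε / 4 := min_le_left _ _
  have hη2 : (1 + t ^ 2) * η ≤ t * ε / 2 := by
    have h1 : η ≤ t * ε / (2 * (1 + t ^ 2)) := min_le_right _ _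
    calc (1 + t ^ 2) * η ≤ (1 + t ^ 2) * (t * ε / (2 * (1 + t ^ 2))) :=
          mul_le_mul_of_nonneg_left h1 (by positivity)
      _ = t * ε / 2 := by field_simp
  have ht1 : |B| + |v| ≤ t * ε / 4 := by
    rw [ht]
    have : 4 * (|B| + |v| + 1) / ε * ε / 4 = |B| + |v| + 1 := by field_simp
    rw [this]
    linarith
  -- convexity of the square
  have hsq : ConvexOn ℝ univ (fun y : ℝ => y ^ 2) := even_two.convexOn_pow
  have hTi : ∀ a : ℝ, (∫ x : UnitAddTorus S, (T x + (a • T) x) ^ 2) = (1 + a) ^ 2 * v := by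
    intro a
    rw [hvT, ← integral_const_mul]
    refine integral_congr_ae (Eventually.of_forall fun x => ?_)
    show (T x + a * T x) ^ 2 = (1 + a) ^ 2 * T x ^ 2
    ring
  have tw : ∀ a : ℝ, EvW k (fun X h => ((1 + a) ^ 2 * v - η) * h ≤
      ∫ x in X..(X + h), (F0 k P x + (a • T) (ph k S x)) ^ 2) := by
    intro a
    have h1 := twist_main hk hZ hZ' hS hI (a • T) hsq (fun y => sq_nonneg y)
      (c := (1 + a) ^ 2 * v - η) (by
        rw [← hT, hTi a]
        linarith)
    exact h1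
  have eq := equi_main hk hI (T * T) hη0
  have hTT : (∫ x : UnitAddTorus S, (T * T) x) = v := by
    rw [hvT]
    refine integral_congr_ae (Eventually.of_forall fun x => ?_)
    show T x * T x = T x ^ 2
    ring
  rw [hTT] at eq
  refine ((((tw t).and (tw (-t))).and eq).and (EvW.pos k)).mono fun X h hq hms => ?_
  obtain ⟨⟨⟨w1, w2⟩, w3⟩, hX, hh⟩ := hq
  -- integrals
  have iy : IntervalIntegrable (fun x => F0 k P x ^ 2) volume X (X + h) :=
    ii_comp hk1 P hq2 hX hh.le
  have ic : ∀ {f : ℝ → ℝ}, IntegrableOn f (Ioc X (X + h)) →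
      IntervalIntegrable f volume X (X + h) := by
    intro f hf
    rw [intervalIntegrable_iff_integrableOn_Ioc_of_le (by linarith)]
    exact hf
  have ig : IntervalIntegrable (fun x => T (ph k S x) ^ 2) volume X (X + h) := by
    refine ic ?_
    have h1 := ph_int (k := k) (T * T) X (X + h)
    refine h1.congr (Eventually.of_forall fun x => ?_)
    show T (ph k S x) * T (ph k S x) = T (ph k S x) ^ 2
    ring
  have iyg : IntervalIntegrable (fun x => F0 k P x * T (ph k S x)) volume X (X + h) := by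
    have h1 : IntegrableOn (fun x => (F0 k P x + T (ph k S x)) ^ 2) (Ioc X (X + h)) :=
      loc_int hk1 P T hq2 X (X + h) hX
    have h2 := ((ic h1).sub iy).sub ig
    have h3 := h2.const_mul (1 / 2)
    refine h3.congr ?_
    intro x _
    simp only
    ring
  set Iy := ∫ x in X..(X + h), F0 k P x ^ 2 with hIy
  set Ig := ∫ x in X..(X + h), T (ph k S x) ^ 2 with hIg
  set Iyg := ∫ x in X..(X + h), F0 k P x * T (ph k S x) with hIyg
  have expand : ∀ a : ℝ, (∫ x in X..(X + h), (F0 k P x + (a • T) (ph k S x)) ^ 2) =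
      Iy + 2 * a * Iyg + a ^ 2 * Ig := by
    intro a
    have e1 : (fun x => (F0 k P x + (a • T) (ph k S x)) ^ 2) = fun x =>
        (F0 k P x ^ 2 + 2 * a * (F0 k P x * T (ph k S x))) + a ^ 2 * T (ph k S x) ^ 2 := by
      funext x
      show (F0 k P x + a * T (ph k S x)) ^ 2 = _
      ring
    rw [e1, intervalIntegral.integral_add (iy.add (iyg.const_mul _)) (ig.const_mul _),
      intervalIntegral.integral_add iy (iyg.const_mul _), intervalIntegral.integral_const_mul,
      intervalIntegral.integral_const_mul]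
  have hgoal : (∫ x in X..(X + h), (F0 k P x - sec k S x) ^ 2) = Iy - 2 * Iyg + Ig := by
    have e2 := expand (-1)
    have e3 : (fun x => (F0 k P x - sec k S x) ^ 2) = fun x =>
        (F0 k P x + ((-1 : ℝ) • T) (ph k S x)) ^ 2 := by
      funext x
      rw [sec_eq hk hS]
      show (F0 k P x - T (ph k S x)) ^ 2 = (F0 k P x + (-1) * T (ph k S x)) ^ 2
      ring
    rw [e3, e2]
    ring
  have hTT2 : (∫ x in X..(X + h), (T * T) (ph k S x)) = Ig := by
    rw [hIg]
    congr 1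
    funext x
    show T (ph k S x) * T (ph k S x) = T (ph k S x) ^ 2
    ring
  rw [hTT2] at w3
  rw [expand] at w1 w2
  rw [hgoal]
  have w3' := abs_le.1 w3
  -- bounds for the correlation
  have hB : Iy ≤ |B| * h := hms.trans (mul_le_mul_of_nonneg_right (le_abs_self B) hh.le)
  have hvh : -(|v| * h) ≤ v * h := by
    have := mul_le_mul_of_nonneg_right (neg_abs_le v) hh.le
    linarith
  have hvh' : v * h ≤ |v| * h := mul_le_mul_of_nonneg_right (le_abs_self v) hh.le
  have hth : (|B| + |v|) * h ≤ t * ε / 4 * h := mul_le_mul_of_nonneg_right ht1 hh.le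
  have hηh : (1 + t ^ 2) * η * h ≤ t * ε / 2 * h := mul_le_mul_of_nonneg_right hη2 hh.le
  have hIg2 : t ^ 2 * Ig ≤ t ^ 2 * (v * h + η * h) :=
    mul_le_mul_of_nonneg_left (by linarith [w3'.2]) (by positivity)
  have lo : (v - 3 * ε / 8) * h ≤ Iyg := by
    have h1 : ((1 + t) ^ 2 * v - η) * h ≤ |B| * h + 2 * t * Iyg + t ^ 2 * (v * h + η * h) := by
      linarith
    have h2 : 2 * t * ((v - 3 * ε / 8) * h) ≤ 2 * t * Iyg := by
      nlinarith
    exact le_of_mul_le_mul_left h2 (by positivity)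
  have up : Iyg ≤ (v + 3 * ε / 8) * h := by
    have h1 : ((1 + -t) ^ 2 * v - η) * h ≤ |B| * h - 2 * t * Iyg + t ^ 2 * (v * h + η * h) := by
      have h3 : (-t) ^ 2 * Ig = t ^ 2 * Ig := by ring
      linarith
    have h2 : 2 * t * Iyg ≤ 2 * t * ((v + 3 * ε / 8) * h) := by
      nlinarith
    exact le_of_mul_le_mul_left h2 (by positivity)
  have hηh2 : η * h ≤ ε / 4 * h := mul_le_mul_of_nonneg_right hη1 hh.le
  rw [abs_le]
  constructor <;> nlinarith [w3'.1, w3'.2]

/-- mean-square approximation when the mean square on the window is nearly sharp -/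
theorem l2_main (hk : 2 ≤ k) {P : Polynomial ℝ} {Z : ℂ → ℂ}
    (hZ : DifferentiableOn ℂ Z {s : ℂ | 0 < s.re})
    (hZ' : ∀ s : ℂ, 0 < s.re → s ≠ 1 → Z s = riemannZeta s ^ k / s - Q P s)
    {δ ε : ℝ} (hδ : 0 ≤ δ) (hε : δ < ε) :
    ∃ S₀ : Finset ℕ, (∀ q ∈ S₀, 0 < q ∧ ∀ a : ℕ, 1 < a → ¬ a ^ k ∣ q) ∧
      ∀ S : Finset ℕ, S₀ ⊆ S → (∀ q ∈ S, 0 < q ∧ ∀ a : ℕ, 1 < a → ¬ a ^ k ∣ q) →
      EvW k (fun X h => (∫ x in X..(X + h), F0 k P x ^ 2) ≤ ((∑' n, vterm k n) + δ ^ 2) * h →
        (∫ x in X..(X + h), (F0 k P x - sec k S x) ^ 2) ≤ ε ^ 2 * h) := by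
  set η := (ε ^ 2 - δ ^ 2) / 2 with hη
  have hη0 : 0 < η := by
    rw [hη]
    have : δ ^ 2 < ε ^ 2 := by nlinarith
    linarith
  obtain ⟨S₀, hS₀, hS₁⟩ := EL_sq_tendsto hk (c := (∑' n, vterm k n) - η) (by linarith)
  refine ⟨S₀, hS₀, fun S hSS hS => ?_⟩
  have hSp : ∀ q ∈ S, 0 < q := fun q hq => (hS q hq).1
  have h4 := hS₁ S hSS hSp
  refine ((pythagoras hk hZ hZ' hSp (rootIndep (by omega) hS) ((∑' n, vterm k n) + δ ^ 2)
    hη0).and (EvW.pos k)).mono fun X h hq hms => ?_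
  obtain ⟨hq, hX, hh⟩ := hq
  have h5 := (abs_le.1 (hq hms)).2
  have h6 : ((∑' n, vterm k n) - η) * h ≤ EL k S (fun y => y ^ 2) * h :=
    mul_le_mul_of_nonneg_right h4.le hh.le
  have h7 : ε ^ 2 * h = (δ ^ 2 + 2 * η) * h := by
    rw [hη]
    ring
  rw [h7]
  nlinarith

end

end Pool.Agent.Lib.MP_bc6037_nt.Rigid
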