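import Mathlib

set_option autoImplicit false

/-!
A finite net of the 1-Lipschitz functions vanishing at `0`, on `[-N, N]`.
-/

open Set

namespace Pool.Agent.Lib.MP_bc6037_nt.Rigid

noncomputable section

/-- the net: `min_j (s (a_j + 1) + |y - j s|)`, `j` in a finite set of integers -/
def netF {ι : Type*} [Fintype ι] (s : ℝ) (c : ι → ℝ) (a : ι → ℤ) (y : ℝ) : ℝ :=
  ⨅ j : ι, (s * (a j + 1) + |y - c j|)

lemma netF_bdd {ι : Type*} [Fintype ι] (s : ℝ) (c : ι → ℝ) (a : ι → ℤ) (y : ℝ) :
    BddBelow (range fun j : ι => s * ((a j : ℝ) + 1) + |y - c j|) :=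
  (Set.finite_range _).bddBelow

lemma netF_lip {ι : Type*} [Fintype ι] [Nonempty ι] (s : ℝ) (c : ι → ℝ) (a : ι → ℤ) (y z : ℝ) :
    |netF s c a y - netF s c a z| ≤ |y - z| := by
  have h : ∀ y z : ℝ, netF s c a y ≤ netF s c a z + |y - z| := by
    intro y z
    have h1 : netF s c a y - |y - z| ≤ netF s c a z := by
      refine le_ciInf fun j => ?_
      have h2 : netF s c a y ≤ s * ((a j : ℝ) + 1) + |y - c j| := ciInf_le (netF_bdd s c a y) j
      have h3 : |y - c j| ≤ |y - z| + |z - c j| := by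
        have := abs_add_le (y - z) (z - c j)
        rwa [sub_add_sub_cancel] at this
      linarith
    linarith
  rw [abs_le]
  have h1 := h y z
  have h2 := h z y
  rw [abs_sub_comm z y] at h2
  constructor <;> linarith

/-- the net property -/
theorem lip_net {N s : ℝ} (hs : 0 < s) (hN : 0 ≤ N) :
    ∃ G : Finset (ℝ → ℝ), (∀ g' ∈ G, ∀ y z, |g' y - g' z| ≤ |y - z|) ∧
      ∀ g : ℝ → ℝ, (∀ y z, |g y - g z| ≤ |y - z|) → g 0 = 0 →
        ∃ g' ∈ G, ∀ y, |y| ≤ N → |g y - g' y| ≤ 3 * s := by
  classical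
  obtain ⟨J, hJ⟩ := exists_nat_ge (N / s)
  have hJN : N ≤ J * s := by rwa [div_le_iff₀ hs] at hJ
  -- indices
  let ι := Fin (2 * J + 1)
  let c : ι → ℝ := fun j => ((j : ℕ) : ℝ) * s - J * s
  haveI : Nonempty ι := ⟨0⟩
  let A : Finset (ι → ℤ) := Fintype.piFinset fun _ => Finset.Icc (-(J : ℤ) - 1) J
  refine ⟨A.image (netF s c), ?_, ?_⟩
  · intro g' hg'
    obtain ⟨a, _, rfl⟩ := Finset.mem_image.1 hg'
    exact netF_lip s c a
  · intro g hg h0
    let a : ι → ℤ := fun j => ⌊g (c j) / s⌋
    have ha : a ∈ A := by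
      rw [Fintype.mem_piFinset]
      intro j
      have h1 : |g (c j)| ≤ J * s := by
        have h2 := hg (c j) 0
        rw [h0, sub_zero, sub_zero] at h2
        refine h2.trans ?_
        have h3 : ((j : ℕ) : ℝ) ≤ 2 * J := by
          have := j.2
          exact_mod_cast Nat.lt_succ_iff.1 this
        have h4 : (0 : ℝ) ≤ ((j : ℕ) : ℝ) := Nat.cast_nonneg _
        rw [abs_le]
        constructor
        · show -(J * s) ≤ ((j : ℕ) : ℝ) * s - J * s
          nlinarith
        · show ((j : ℕ) : ℝ) * s - J * s ≤ J * s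
          nlinarith
      rw [abs_le] at h1
      rw [Finset.mem_Icc]
      constructor
      · show -(J : ℤ) - 1 ≤ ⌊g (c j) / s⌋
        rw [Int.le_floor]
        push_cast
        rw [le_div_iff₀ hs]
        nlinarith
      · show ⌊g (c j) / s⌋ ≤ (J : ℤ)
        have : (⌊g (c j) / s⌋ : ℝ) ≤ (J : ℝ) := by
          refine (Int.floor_le _).trans ?_
          rw [div_le_iff₀ hs]
          exact h1.2
        exact_mod_cast this
    refine ⟨netF s c a, Finset.mem_image_of_mem _ ha, fun y hy => ?_⟩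
    have hfl : ∀ j, s * (a j : ℝ) ≤ g (c j) ∧ g (c j) ≤ s * ((a j : ℝ) + 1) := by
      intro j
      have h1 := Int.floor_le (g (c j) / s)
      have h2 := (Int.lt_floor_add_one (g (c j) / s)).le
      constructor
      · rw [le_div_iff₀ hs] at h1
        show s * ((⌊g (c j) / s⌋ : ℤ) : ℝ) ≤ _
        linarith
      · rw [div_le_iff₀ hs] at h2
        show _ ≤ s * (((⌊g (c j) / s⌋ : ℤ) : ℝ) + 1)
        linarith
    have hlow : g y ≤ netF s c a y := by
      refine le_ciInf fun j => ?_
      have h1 := (le_abs_self _).trans (hg y (c j))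
      have := (hfl j).2
      linarith
    -- the nearest grid point
    have hup : netF s c a y ≤ g y + 3 * s := by
      have hy' := abs_le.1 hy
      have hnn : 0 ≤ (y + J * s) / s := div_nonneg (by linarith) hs.le
      set m := ⌊(y + J * s) / s⌋₊ with hm
      have hm1 : (m : ℝ) ≤ (y + J * s) / s := Nat.floor_le hnn
      have hm2 : (y + J * s) / s < m + 1 := Nat.lt_floor_add_one _
      rw [le_div_iff₀ hs] at hm1
      rw [div_lt_iff₀ hs] at hm2
      have hmJ : m < 2 * J + 1 := by
        have : (m : ℝ) ≤ 2 * J := by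
          have h1 : (m : ℝ) * s ≤ (2 * J) * s := by linarith
          exact le_of_mul_le_mul_right h1 hs
        have : m ≤ 2 * J := by exact_mod_cast this
        omega
      let j : ι := ⟨m, hmJ⟩
      have hcj : |y - c j| ≤ s := by
        show |y - ((m : ℝ) * s - J * s)| ≤ s
        rw [abs_le]
        constructor <;> nlinarith
      have h1 : netF s c a y ≤ s * ((a j : ℝ) + 1) + |y - c j| := ciInf_le (netF_bdd s c a y) j
      have h2 := (hfl j).1
      have h3 : g (c j) - g y ≤ |c j - y| := (le_abs_self _).trans (hg _ _)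
      rw [abs_sub_comm] at h3
      nlinarith
    rw [abs_le]
    constructor <;> linarith

end

end Pool.Agent.Lib.MP_bc6037_nt.Rigid
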