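import Mathlib
import Pool.Agent.Lib.MP_bc6037_nt.RigidNet
import Pool.Agent.Lib.MP_bc6037_nt.RigidConst

set_option autoImplicit false

/-!
The uniform Kantorovich bound in terms of Tong's constant.
-/

open Filter Topology Set MeasureTheory UnitAddTorus

namespace Pool.Agent.Lib.MP_bc6037_nt.Rigid

open Pool.Agent.Lib.MP_bc6037_nt DeltaMellin ZetaGrowth

noncomputable section

variable {k : ℕ}

lemma sq_bound {N s : ℝ} (hN : 0 < N) (hs : 0 ≤ s) {g g' : ℝ → ℝ}
    (hg : ∀ y z, |g y - g z| ≤ |y - z|) (hg' : ∀ y z, |g' y - g' z| ≤ |y - z|) (h0 : g 0 = 0)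
    (h : ∀ y, |y| ≤ N → |g y - g' y| ≤ s) (y : ℝ) :
    |g y - g' y| ≤ s + 2 / N * y ^ 2 := by
  by_cases hy : |y| ≤ N
  · have : 0 ≤ 2 / N * y ^ 2 := by positivity
    linarith [h y hy]
  · push Not at hy
    have h1 := hg y 0
    have h2 := hg' y 0
    have h3 := h 0 (by rw [abs_zero]; exact hN.le)
    rw [h0, sub_zero, sub_zero] at h1
    rw [sub_zero] at h2
    rw [h0, zero_sub, abs_neg] at h3
    have h4 : |g y - g' y| ≤ |g y| + |g' y| := abs_sub _ _
    have h5 : |g' y| ≤ |g' y - g' 0| + |g' 0| := by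
      have := abs_add_le (g' y - g' 0) (g' 0)
      rwa [sub_add_cancel] at this
    have h6 : |y| ≤ 1 / N * y ^ 2 := by
      rw [← sq_abs y, one_div, inv_mul_eq_div, le_div_iff₀ hN, pow_two]
      exact mul_le_mul_of_nonneg_left hy.le (abs_nonneg _)
    have h7 : 2 / N * y ^ 2 = 2 * (1 / N * y ^ 2) := by ring
    rw [h7]
    linarith

/-- uniform version over all 1-Lipschitz functions -/
theorem uniform (hk : 2 ≤ k) {P : Polynomial ℝ} {Z : ℂ → ℂ}
    (hZ : DifferentiableOn ℂ Z {s : ℂ | 0 < s.re})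
    (hZ' : ∀ s : ℂ, 0 < s.re → s ≠ 1 → Z s = riemannZeta s ^ k / s - Q P s)
    {S : Finset ℕ} (hS : ∀ q ∈ S, 0 < q) (hI : RootIndep k S)
    {δ : ℝ} (hδ : 0 < δ) {ε : ℝ} (hε : 0 < ε) :
    EvW k (fun X h => (∫ x in X..(X + h), F0 k P x ^ 2) ≤
        (EL k S (fun y => y ^ 2) + δ ^ 2) * h →
      ∀ g : ℝ → ℝ, (∀ y z, |g y - g z| ≤ |y - z|) →
      |(∫ x in X..(X + h), g (F0 k P x)) - EL k S g * h| ≤ (δ + ε) * h) := by
  have hk1 : 1 ≤ k := by omega
  have hq2 : Continuous fun y : ℝ => y ^ 2 := by fun_prop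
  set V := EL k S (fun y => y ^ 2) with hV
  have hV0 : 0 ≤ V := by
    have h1 := EL_mono hk hS (φ := fun _ => 0) continuous_const hq2 fun y => sq_nonneg y
    rw [EL_const] at h1
    exact h1
  set N := 1 + 8 * (2 * V + δ ^ 2) / ε with hNdef
  have hN : 0 < N := by positivity
  have hN1 : 2 / N * (2 * V + δ ^ 2) ≤ ε / 4 := by
    rw [div_mul_eq_mul_div, div_le_iff₀ hN, hNdef]
    have : ε / 4 * (1 + 8 * (2 * V + δ ^ 2) / ε) = ε / 4 + 2 * (2 * V + δ ^ 2) := by
      field_simp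
      ring
    rw [this]
    linarith
  obtain ⟨G, hG, hnet⟩ := lip_net (s := ε / 24) (N := N) (by positivity) hN.le
  have hfin := EvW.finset G (Q := fun g' X h => (∫ x in X..(X + h), F0 k P x ^ 2) ≤
        (V + δ ^ 2) * h →
      |(∫ x in X..(X + h), g' (F0 k P x)) - EL k S g' * h| ≤ (δ + ε / 4) * h)
    fun g' hg' => two_sided hk hZ hZ' hS hI hδ (hG g' hg') (by positivity)
  refine (hfin.and (EvW.pos k)).mono fun X h hq hms g hg => ?_
  obtain ⟨hq, hX, hh⟩ := hq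
  set g0 : ℝ → ℝ := fun y => g y - g 0 with hg0
  have hg0l : ∀ y z, |g0 y - g0 z| ≤ |y - z| := fun y z => by
    have : g0 y - g0 z = g y - g z := by rw [hg0]; ring
    rw [this]
    exact hg y z
  obtain ⟨g', hg'G, hgg⟩ := hnet g0 hg0l (by rw [hg0]; simp)
  have hg'l := hG g' hg'G
  have hb := sq_bound hN (s := 3 * (ε / 24)) (by positivity) hg0l hg'l (by rw [hg0]; simp) hgg
  have toM : ∀ {f : ℝ → ℝ}, (∀ y z, |f y - f z| ≤ |y - z|) → Continuous f := fun {f} hf =>
    lip_cont (M := 1) fun y z => by rw [one_mul]; exact hf y z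
  have cg := toM hg
  have cg0 := toM hg0l
  have cg' := toM hg'l
  have i1 := ii_comp hk1 P hq2 hX hh.le
  have i2 := ii_comp hk1 P cg0 hX hh.le
  have i3 := ii_comp hk1 P cg' hX hh.le
  have i4 := ii_comp hk1 P (φ := fun y => 3 * (ε / 24) + 2 / N * y ^ 2) (by fun_prop) hX hh.le
  -- the window integrals
  have w1 : |(∫ x in X..(X + h), g0 (F0 k P x)) - ∫ x in X..(X + h), g' (F0 k P x)| ≤
      3 * (ε / 24) * h + 2 / N * ∫ x in X..(X + h), F0 k P x ^ 2 := by
    rw [← intervalIntegral.integral_sub i2 i3]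
    refine (intervalIntegral.abs_integral_le_integral_abs (by linarith)).trans ?_
    have e1 : 3 * (ε / 24) * h + 2 / N * ∫ x in X..(X + h), F0 k P x ^ 2 =
        ∫ x in X..(X + h), (3 * (ε / 24) + 2 / N * F0 k P x ^ 2) := by
      rw [intervalIntegral.integral_add intervalIntegrable_const (i1.const_mul _),
        intervalIntegral.integral_const, intervalIntegral.integral_const_mul]
      simp only [smul_eq_mul]
      ring
    rw [e1]
    exact intervalIntegral.integral_mono_on (by linarith) (i2.sub i3).abs i4 fun x _ => hb _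
  -- the law
  have w2 : |EL k S g0 - EL k S g'| ≤ 3 * (ε / 24) + 2 / N * V := by
    have e2 : EL k S (fun y => 3 * (ε / 24) + 2 / N * y ^ 2) = 3 * (ε / 24) + 2 / N * V := by
      rw [EL_add hk hS continuous_const (by fun_prop), EL_const, EL_mul]
    have e3 : EL k S (fun y => g' y + (3 * (ε / 24) + 2 / N * y ^ 2)) =
        EL k S g' + (3 * (ε / 24) + 2 / N * V) := by
      rw [EL_add hk hS cg' (by fun_prop), e2]
    have e4 : EL k S (fun y => g0 y + (3 * (ε / 24) + 2 / N * y ^ 2)) =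
        EL k S g0 + (3 * (ε / 24) + 2 / N * V) := by
      rw [EL_add hk hS cg0 (by fun_prop), e2]
    have m1 := EL_mono hk hS (φ := g0) (ψ := fun y => g' y + (3 * (ε / 24) + 2 / N * y ^ 2))
      cg0 (by fun_prop) fun y => by have := (abs_le.1 (hb y)).2; linarith
    have m2 := EL_mono hk hS (φ := g') (ψ := fun y => g0 y + (3 * (ε / 24) + 2 / N * y ^ 2))
      cg' (by fun_prop) fun y => by have := (abs_le.1 (hb y)).1; linarith
    rw [e3] at m1
    rw [e4] at m2
    rw [abs_le]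
    constructor <;> linarith
  have w3 := hq g' hg'G hms
  -- back to `g`
  have w4 : (∫ x in X..(X + h), g (F0 k P x)) = (∫ x in X..(X + h), g0 (F0 k P x)) + g 0 * h := by
    have : (fun x => g (F0 k P x)) = fun x => g0 (F0 k P x) + g 0 := by
      funext x
      rw [hg0]
      ring
    rw [this, intervalIntegral.integral_add i2 intervalIntegrable_const,
      intervalIntegral.integral_const]
    simp only [smul_eq_mul]
    ring
  have w5 : EL k S g = EL k S g0 + g 0 := by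
    have : g = fun y => g0 y + g 0 := by
      funext y
      rw [hg0]
      ring
    rw [this, EL_add hk hS cg0 continuous_const, EL_const]
    simp [hg0]
  have w6 : (∫ x in X..(X + h), g (F0 k P x)) - EL k S g * h =
      (∫ x in X..(X + h), g0 (F0 k P x)) - EL k S g0 * h := by
    rw [w4, w5]
    ring
  rw [w6]
  have hms2 : 2 / N * (∫ x in X..(X + h), F0 k P x ^ 2) ≤ 2 / N * ((V + δ ^ 2) * h) :=
    mul_le_mul_of_nonneg_left hms (by positivity)
  have w7 : 2 / N * ((V + δ ^ 2) * h) + 2 / N * V * h ≤ ε / 4 * h := by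
    have := mul_le_mul_of_nonneg_right hN1 hh.le
    nlinarith
  have w8 := mul_le_mul_of_nonneg_right w2 hh.le
  have w9 : |EL k S g0 * h - EL k S g' * h| ≤ (3 * (ε / 24) + 2 / N * V) * h := by
    rw [← sub_mul, abs_mul, abs_of_pos hh]
    exact w8
  rw [abs_le] at w1 w3 w9 ⊢
  constructor <;> nlinarith

/-- **rigidity**: the mean square on a window controls the Kantorovich distance to the law -/
theorem rigid_main (hk : 2 ≤ k) {P : Polynomial ℝ} {Z : ℂ → ℂ}
    (hZ : DifferentiableOn ℂ Z {s : ℂ | 0 < s.re})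
    (hZ' : ∀ s : ℂ, 0 < s.re → s ≠ 1 → Z s = riemannZeta s ^ k / s - Q P s)
    {δ ε : ℝ} (hδ : 0 ≤ δ) (hε : δ < ε) :
    ∃ S₀ : Finset ℕ, (∀ q ∈ S₀, 0 < q ∧ ∀ a : ℕ, 1 < a → ¬ a ^ k ∣ q) ∧
      ∀ S : Finset ℕ, S₀ ⊆ S → (∀ q ∈ S, 0 < q ∧ ∀ a : ℕ, 1 < a → ¬ a ^ k ∣ q) →
      EvW k (fun X h => (∫ x in X..(X + h), F0 k P x ^ 2) ≤ ((∑' n, vterm k n) + δ ^ 2) * h →
        ∀ g : ℝ → ℝ, (∀ y z, |g y - g z| ≤ |y - z|) →
        |(∫ x in X..(X + h), g (F0 k P x)) - EL k S g * h| ≤ ε * h) := by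
  set δ₁ := (δ + ε) / 2 with hδ₁
  have h1 : δ < δ₁ := by rw [hδ₁]; linarith
  have h2 : 0 < δ₁ := by linarith
  have h3 : δ ^ 2 < δ₁ ^ 2 := by nlinarith
  obtain ⟨S₀, hS₀, hS₁⟩ := EL_sq_tendsto hk (c := (∑' n, vterm k n) - (δ₁ ^ 2 - δ ^ 2))
    (by linarith)
  refine ⟨S₀, hS₀, fun S hSS hS => ?_⟩
  have hSp : ∀ q ∈ S, 0 < q := fun q hq => (hS q hq).1
  have h4 := hS₁ S hSS hSp
  refine ((uniform hk hZ hZ' hSp (rootIndep (by omega) hS) h2
    (ε := (ε - δ) / 2) (by linarith)).and (EvW.pos k)).mono fun X h hq hms g hg => ?_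
  obtain ⟨hq, hX, hh⟩ := hq
  have h5 := hq (hms.trans (mul_le_mul_of_nonneg_right (by linarith) hh.le)) g hg
  have h6 : δ₁ + (ε - δ) / 2 = ε := by rw [hδ₁]; ring
  rwa [h6] at h5

end

end Pool.Agent.Lib.MP_bc6037_nt.Rigid
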