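import Mathlib
import Pool.Agent.Lib.MP_bc6037_nt.L2
import Pool.Agent.Lib.MP_bc6037_nt.RigidMain

set_option autoImplicit false

/-!
The second moments of the finite sections are at most Tong's constant; final forms.
-/

open Complex Filter Topology Set MeasureTheory UnitAddTorus
open scoped ContDiff ComplexConjugate

namespace Pool.Agent.Lib.MP_bc6037_nt.Rigid

open Pool.Agent.Lib.MP_bc6037_nt DeltaMellin ZetaGrowth

noncomputable section

variable {k : ℕ}

attribute [local instance 2000] instMeasureSpaceUnitAddCircle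
  instIsAddHaarMeasureUnitAddCircleVolume instIsProbabilityMeasureUnitAddCircleVolume

/-- the second moment of a finite section is at most the constant -/
theorem EL_sq_le (hk : 2 ≤ k) {S : Finset ℕ} (hS : ∀ q ∈ S, 0 < q) (hI : RootIndep k S) :
    EL k S (fun y => y ^ 2) ≤ ∑' n, vterm k n := by
  classical
  have hk1 : 1 ≤ k := by omega
  have hkp : (0 : ℝ) < k := by exact_mod_cast hk1
  have hq2 : Continuous fun y : ℝ => y ^ 2 := by fun_prop
  set H := torusLaw hk hS with hH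
  rw [EL_torus hk hS hq2]
  let Hc : C(UnitAddTorus S, ℂ) := ⟨fun x => ((H x : ℝ) : ℂ), by
    exact Complex.continuous_ofReal.comp H.continuous⟩
  have hP := hasSum_sq_mFourierCoeff (d := S) (ContinuousMap.toLp 2 volume ℂ Hc)
  have h5 : (∫ t, ‖(ContinuousMap.toLp 2 volume ℂ Hc) t‖ ^ 2) =
      ∫ x : UnitAddTorus S, (H x) ^ 2 := by
    refine integral_congr_ae ?_
    filter_upwards [ContinuousMap.coeFn_toLp (p := 2) (𝕜 := ℂ) volume Hc] with x hx
    rw [hx]
    show ‖((H x : ℝ) : ℂ)‖ ^ 2 = _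
    rw [Complex.norm_real, Real.norm_eq_abs, sq_abs]
  rw [h5] at hP
  simp only [mFourierCoeff_toLp] at hP
  -- the modes
  let f : S × ℕ → S → ℤ := fun p => Pi.single p.1 ((p.2 : ℤ) + 1)
  let N : S × ℕ → ℕ := fun p => (p.2 + 1) ^ k * p.1
  have hpos : ∀ p : S × ℕ, 0 < N p := fun p => Nat.mul_pos (by positivity) (hS p.1 p.1.2)
  have hroot : ∀ p : S × ℕ, ∑ q : S, (f p q : ℝ) * ((q : ℕ) : ℝ) ^ (1 / k : ℝ) =
      ((N p : ℕ) : ℝ) ^ (1 / k : ℝ) := fun p => single_sum hk1 S p.1 p.2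
  have hNf : ∀ p p' : S × ℕ, N p = N p' → f p = f p' := by
    intro p p' he
    have h1 := hroot p
    have h2 := hroot p'
    rw [he, ← h2] at h1
    have h3 := hI.1 (f p - f p') (by
      have : ∀ q : S, (((f p - f p') q : ℤ) : ℝ) * ((q : ℕ) : ℝ) ^ (1 / k : ℝ) =
          (f p q : ℝ) * ((q : ℕ) : ℝ) ^ (1 / k : ℝ) -
          (f p' q : ℝ) * ((q : ℕ) : ℝ) ^ (1 / k : ℝ) := by
        intro q
        rw [Pi.sub_apply]
        push_cast
        ring
      rw [Finset.sum_congr rfl fun q _ => this q, Finset.sum_sub_distrib, h1, sub_self])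
    exact sub_eq_zero.1 h3
  have hc1 : ∀ p : S × ℕ, ‖mFourierCoeff (Hc : UnitAddTorus S → ℂ) (f p)‖ ^ 2 =
      vterm k (N p) / 2 := by
    intro p
    have h6 := coeff_pos hk hS p.1 p.2
    have h7 : mFourierCoeff (Hc : UnitAddTorus S → ℂ) (f p) = cC k ((p.2 + 1) ^ k * p.1) := h6
    rw [h7, norm_cC, ← amp_sq (by omega)]
    show (amp k (N p) / 2) ^ 2 = _
    ring
  have hc2 : ∀ p : S × ℕ, ‖mFourierCoeff (Hc : UnitAddTorus S → ℂ) (-f p)‖ ^ 2 =
      vterm k (N p) / 2 := by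
    intro p
    rw [← hc1 p]
    have h8 : mFourierCoeff (Hc : UnitAddTorus S → ℂ) (-f p) =
        (starRingEnd ℂ) (mFourierCoeff (Hc : UnitAddTorus S → ℂ) (f p)) :=
      coeff_neg (fun x => H x) (f p)
    rw [h8, RCLike.norm_conj]
  -- partial sums over one sign
  have part : ∀ (U : Finset (S → ℤ)) (g : S × ℕ → S → ℤ),
      (∀ p p', N p = N p' → g p = g p') →
      (∀ p : S × ℕ, ‖mFourierCoeff (Hc : UnitAddTorus S → ℂ) (g p)‖ ^ 2 = vterm k (N p) / 2) →
      ∑ c ∈ U.filter (fun c => ∃ p, c = g p), ‖mFourierCoeff (Hc : UnitAddTorus S → ℂ) c‖ ^ 2 ≤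
        (∑' n, vterm k n) / 2 := by
    intro U g hg hgc
    have h1 : ∀ c ∈ U.filter (fun c => ∃ p, c = g p), ∃ p, c = g p := fun c hc =>
      (Finset.mem_filter.1 hc).2
    rcases isEmpty_or_nonempty (S × ℕ) with hemp | hne
    · have h0 : U.filter (fun c => ∃ p, c = g p) = ∅ := by
        rw [Finset.filter_eq_empty_iff]
        rintro c _ ⟨p, _⟩
        exact hemp.elim p
      rw [h0, Finset.sum_empty]
      exact div_nonneg (tsum_nonneg fun n => vterm_nonneg k n) (by norm_num)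
    choose! m hm using h1
    have h2 : ∑ c ∈ U.filter (fun c => ∃ p, c = g p),
        ‖mFourierCoeff (Hc : UnitAddTorus S → ℂ) c‖ ^ 2 =
        ∑ c ∈ U.filter (fun c => ∃ p, c = g p), vterm k (N (m c)) / 2 := by
      refine Finset.sum_congr rfl fun c hc => ?_
      have h3 := hm c hc
      calc ‖mFourierCoeff (Hc : UnitAddTorus S → ℂ) c‖ ^ 2 =
          ‖mFourierCoeff (Hc : UnitAddTorus S → ℂ) (g (m c))‖ ^ 2 := by rw [← h3]
        _ = _ := hgc (m c)
    have h4 : Set.InjOn (fun c => N (m c))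
        ((U.filter fun c => ∃ p, c = g p : Finset (S → ℤ)) : Set (S → ℤ)) := by
      intro c hc c' hc' he
      have e1 := hm c hc
      have e2 := hm c' hc'
      rw [e1, e2]
      exact hg _ _ he
    rw [h2, ← Finset.sum_div, ← Finset.sum_image (f := fun n => vterm k n) h4]
    refine div_le_div_of_nonneg_right ?_ (by norm_num)
    exact (vterm_summable hk1).sum_le_tsum _ fun n _ => vterm_nonneg k n
  refine hasSum_le_of_sum_le hP fun U => ?_
  have hA := part U f hNf hc1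
  have hB := part U (fun p => -f p) (fun p p' he => by rw [hNf p p' he]) hc2
  have hsplit : ∑ c ∈ U, ‖mFourierCoeff (Hc : UnitAddTorus S → ℂ) c‖ ^ 2 ≤
      ∑ c ∈ U.filter (fun c => ∃ p, c = f p), ‖mFourierCoeff (Hc : UnitAddTorus S → ℂ) c‖ ^ 2 +
      ∑ c ∈ U.filter (fun c => ∃ p, c = -f p),
        ‖mFourierCoeff (Hc : UnitAddTorus S → ℂ) c‖ ^ 2 := by
    rw [Finset.sum_filter, Finset.sum_filter, ← Finset.sum_add_distrib]
    refine Finset.sum_le_sum fun c _ => ?_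
    have h0 : 0 ≤ ‖mFourierCoeff (Hc : UnitAddTorus S → ℂ) c‖ ^ 2 := sq_nonneg _
    by_cases h1 : ∃ p, c = f p
    · rw [if_pos h1]
      split_ifs <;> linarith
    · rw [if_neg h1]
      by_cases h2 : ∃ p, c = -f p
      · rw [if_pos h2]
        linarith
      · rw [if_neg h2]
        push Not at h1 h2
        have h3 : mFourierCoeff (Hc : UnitAddTorus S → ℂ) c = 0 :=
          coeff_zero hk hS c (fun q a => h1 (q, a)) (fun q a => h2 (q, a))
        rw [h3]
        simp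
  have h9 : (∑' n, vterm k n) = (∑' n, vterm k n) / 2 + (∑' n, vterm k n) / 2 := by ring
  rw [h9]
  exact hsplit.trans (add_le_add hA hB)

/-- uniform Kantorovich bound, `δ = 0` allowed -/
theorem uniform' (hk : 2 ≤ k) {P : Polynomial ℝ} {Z : ℂ → ℂ}
    (hZ : DifferentiableOn ℂ Z {s : ℂ | 0 < s.re})
    (hZ' : ∀ s : ℂ, 0 < s.re → s ≠ 1 → Z s = riemannZeta s ^ k / s - Q P s)
    {S : Finset ℕ} (hS : ∀ q ∈ S, 0 < q) (hI : RootIndep k S)
    {δ : ℝ} (hδ : 0 ≤ δ) {ε : ℝ} (hε : δ < ε) :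
    EvW k (fun X h => (∫ x in X..(X + h), F0 k P x ^ 2) ≤
        (EL k S (fun y => y ^ 2) + δ ^ 2) * h →
      ∀ g : ℝ → ℝ, (∀ y z, |g y - g z| ≤ |y - z|) →
      |(∫ x in X..(X + h), g (F0 k P x)) - EL k S g * h| ≤ ε * h) := by
  set δ₁ := (δ + ε) / 2 with hδ₁
  have h1 : δ < δ₁ := by rw [hδ₁]; linarith
  have h2 : 0 < δ₁ := by linarith
  have h3 : δ ^ 2 ≤ δ₁ ^ 2 := by nlinarith
  refine ((uniform hk hZ hZ' hS hI h2 (ε := (ε - δ) / 2) (by linarith)).and
    (EvW.pos k)).mono fun X h hq hms g hg => ?_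
  obtain ⟨hq, hX, hh⟩ := hq
  have h5 := hq (hms.trans (mul_le_mul_of_nonneg_right (by linarith) hh.le)) g hg
  have h6 : δ₁ + (ε - δ) / 2 = ε := by rw [hδ₁]; ring
  rwa [h6] at h5

/-- the twisted expectation as an integral over the cube -/
lemma cube_torus (hk : 2 ≤ k) {S : Finset ℕ} (hS : ∀ q ∈ S, 0 < q) (G : C(UnitAddTorus S, ℝ))
    {φ : ℝ → ℝ} (hφ : Continuous φ) :
    (∫ u in {u : S → ℝ | ∀ i, u i ∈ Ioc (0 : ℝ) 1},
      φ (∑ q : S, lawTerm k q (u q) + G (fun q => (u q : UnitAddCircle)))) =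
      ∫ x : UnitAddTorus S, φ (torusLaw hk hS x + G x) := by
  let H2 : C(UnitAddTorus S, ℝ) := ⟨fun x => φ (torusLaw hk hS x + G x),
    hφ.comp ((torusLaw hk hS).continuous.add G.continuous)⟩
  have h2 := coeff_zero_cube (I := S) H2
  have h3 := coeff_zero_real H2
  rw [h3] at h2
  have h4 : (∫ x : UnitAddTorus S, H2 x) =
      ∫ u in {u : S → ℝ | ∀ i, u i ∈ Ioc (0 : ℝ) 1}, H2 (fun i => (u i : UnitAddCircle)) := by
    exact_mod_cast h2
  have h5 : (∫ x : UnitAddTorus S, H2 x) =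
      ∫ x : UnitAddTorus S, φ (torusLaw hk hS x + G x) := rfl
  rw [← h5, h4]
  refine integral_congr_ae (Eventually.of_forall fun u => ?_)
  show φ (∑ q : S, lawTerm k q (u q) + G (fun q => (u q : UnitAddCircle))) =
    φ (torusLaw hk hS (fun i => (u i : UnitAddCircle)) + G (fun i => (u i : UnitAddCircle)))
  rw [torusLaw_real]

/-- the convex-order bound for `Δ + G(phases)`, cube form -/
theorem twist_cube (hk : 2 ≤ k) {P : Polynomial ℝ} {Z : ℂ → ℂ}
    (hZ : DifferentiableOn ℂ Z {s : ℂ | 0 < s.re})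
    (hZ' : ∀ s : ℂ, 0 < s.re → s ≠ 1 → Z s = riemannZeta s ^ k / s - Q P s)
    {S : Finset ℕ} (hS : ∀ q ∈ S, 0 < q) (hI : RootIndep k S) (G : C(UnitAddTorus S, ℝ))
    {φ : ℝ → ℝ} (hφ : ConvexOn ℝ univ φ) (hφ0 : ∀ y, 0 ≤ φ y) {c : ℝ}
    (hcc : c < ∫ u in {u : S → ℝ | ∀ i, u i ∈ Ioc (0 : ℝ) 1},
      φ (∑ q : S, lawTerm k q (u q) + G (fun q => (u q : UnitAddCircle)))) :
    EvW k (fun X h => c * h ≤ ∫ x in X..(X + h), φ (F0 k P x +
      G (fun q : S => ((k * (((q : ℕ) : ℝ) ^ (1 / k : ℝ) * x ^ (1 / k : ℝ)) : ℝ) :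
        UnitAddCircle)))) := by
  have hφc : Continuous φ := continuousOn_univ.1 (hφ.continuousOn isOpen_univ)
  rw [cube_torus hk hS G hφc] at hcc
  refine (twist_main hk hZ hZ' hS hI G hφ hφ0 hcc).mono fun X h hq => hq.trans (le_of_eq ?_)
  congr 1
  funext x
  congr 2
  have : ph k S x = fun q : S => ((k * (((q : ℕ) : ℝ) ^ (1 / k : ℝ) * x ^ (1 / k : ℝ)) : ℝ) :
      UnitAddCircle) := by
    funext q
    show ((lamS k S q * x ^ (1 / k : ℝ) : ℝ) : UnitAddCircle) = _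
    congr 1
    unfold lamS
    ring
  rw [this]

end

end Pool.Agent.Lib.MP_bc6037_nt.Rigid
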