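import Mathlib
import Pool.Agent.Lib.MP_bc6037_nt.RigidTop

set_option autoImplicit false

/-!
The excess of the mean square over Tong's constant: distance to the Voronoi expansion and to the
limit law.
-/

open Complex Filter Topology Set MeasureTheory UnitAddTorus
open scoped ContDiff ComplexConjugate

namespace Pool.Agent.Lib.MP_bc6037_nt.Rigid

open Pool.Agent.Lib.MP_bc6037_nt DeltaMellin ZetaGrowth

noncomputable section

variable {k : ℕ}

attribute [local instance 2000] instMeasureSpaceUnitAddCircle
  instIsAddHaarMeasureUnitAddCircleVolume instIsProbabilityMeasureUnitAddCircleVolume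

lemma lip_cont1 {f : ℝ → ℝ} (hf : ∀ y z, |f y - f z| ≤ |y - z|) : Continuous f :=
  lip_cont (M := 1) fun y z => by rw [one_mul]; exact hf y z

/-- the distribution of the sections, uniformly over all 1-Lipschitz functions -/
theorem sec_uniform (hk : 2 ≤ k) {S : Finset ℕ} (hS : ∀ q ∈ S, 0 < q) (hI : RootIndep k S)
    {ε : ℝ} (hε : 0 < ε) :
    EvW k (fun X h => ∀ g : ℝ → ℝ, (∀ y z, |g y - g z| ≤ |y - z|) →
      |(∫ x in X..(X + h), g (sec k S x)) - EL k S g * h| ≤ ε * h) := by
  set T := torusLaw hk hS with hT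
  set N := ‖T‖ with hN
  have hN0 : 0 ≤ N := norm_nonneg _
  have hTN : ∀ x, |T x| ≤ N := fun x => T.norm_coe_le_norm x
  obtain ⟨G, hG, hnet⟩ := lip_net (s := ε / 24) (N := N) (by positivity) hN0
  -- composition of a net function with `T`
  have hcomp : ∀ g' ∈ G, EvW k (fun X h =>
      |(∫ x in X..(X + h), g' (T (ph k S x))) - EL k S g' * h| ≤ ε / 4 * h) := by
    intro g' hg'
    have cg' := lip_cont1 (hG g' hg')
    let H : C(UnitAddTorus S, ℝ) := ⟨fun x => g' (T x), cg'.comp T.continuous⟩
    have h1 := equi_main hk hI H (ε := ε / 4) (by positivity)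
    have h2 : (∫ x : UnitAddTorus S, H x) = EL k S g' := (EL_torus hk hS cg').symm
    rw [h2] at h1
    exact h1
  refine ((EvW.finset G hcomp).and (EvW.pos k)).mono fun X h hq g hg => ?_
  obtain ⟨hq, hX, hh⟩ := hq
  set g0 : ℝ → ℝ := fun y => g y - g 0 with hg0
  have hg0l : ∀ y z, |g0 y - g0 z| ≤ |y - z| := fun y z => by
    have : g0 y - g0 z = g y - g z := by rw [hg0]; ring
    rw [this]
    exact hg y z
  obtain ⟨g', hg'G, hgg⟩ := hnet g0 hg0l (by rw [hg0]; simp)
  have cg0 := lip_cont1 hg0l
  have cg' := lip_cont1 (hG g' hg'G)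
  have cg := lip_cont1 hg
  have ic : ∀ {f : ℝ → ℝ}, Continuous f →
      IntervalIntegrable (fun x => f (T (ph k S x))) volume X (X + h) := by
    intro f hf
    rw [intervalIntegrable_iff_integrableOn_Ioc_of_le (by linarith)]
    exact ph_int (k := k) (⟨fun x => f (T x), hf.comp T.continuous⟩ : C(UnitAddTorus S, ℝ)) X
      (X + h)
  -- window side
  have w1 : |(∫ x in X..(X + h), g0 (T (ph k S x))) - ∫ x in X..(X + h), g' (T (ph k S x))| ≤
      3 * (ε / 24) * h := by
    rw [← intervalIntegral.integral_sub (ic cg0) (ic cg')]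
    refine (intervalIntegral.abs_integral_le_integral_abs (by linarith)).trans ?_
    have e1 : 3 * (ε / 24) * h = ∫ _x in X..(X + h), 3 * (ε / 24) := by
      rw [intervalIntegral.integral_const]
      simp only [smul_eq_mul]
      ring
    rw [e1]
    exact intervalIntegral.integral_mono_on (by linarith) ((ic cg0).sub (ic cg')).abs
      intervalIntegrable_const fun x _ => hgg _ (hTN _)
  -- law side
  have w2 : |EL k S g0 - EL k S g'| ≤ 3 * (ε / 24) := by
    rw [EL_torus hk hS cg0, EL_torus hk hS cg']
    have hint : ∀ {f : ℝ → ℝ}, Continuous f →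
        Integrable (fun x : UnitAddTorus S => f (T x)) := fun {f} hf =>
      (hf.comp T.continuous).integrable_of_hasCompactSupport (HasCompactSupport.of_compactSpace _)
    rw [← integral_sub (hint cg0) (hint cg')]
    refine (abs_integral_le_integral_abs).trans ?_
    have e2 : (3 * (ε / 24) : ℝ) = ∫ _x : UnitAddTorus S, 3 * (ε / 24) := by
      rw [integral_const]
      simp
    rw [e2]
    exact integral_mono ((hint cg0).sub (hint cg')).abs (integrable_const _) fun x => hgg _ (hTN x)
  have w3 := hq g' hg'G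
  have w4 : (∫ x in X..(X + h), g (sec k S x)) =
      (∫ x in X..(X + h), g0 (T (ph k S x))) + g 0 * h := by
    have : (fun x => g (sec k S x)) = fun x => g0 (T (ph k S x)) + g 0 := by
      funext x
      rw [sec_eq hk hS, hg0]
      ring
    rw [this, intervalIntegral.integral_add (ic cg0) intervalIntegrable_const,
      intervalIntegral.integral_const]
    simp only [smul_eq_mul]
    ring
  have w5 : EL k S g = EL k S g0 + g 0 := by
    have : g = fun y => g0 y + g 0 := by
      funext y
      rw [hg0]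
      ring
    rw [this, EL_add hk hS cg0 continuous_const, EL_const]
    simp [hg0]
  have w6 : (∫ x in X..(X + h), g (sec k S x)) - EL k S g * h =
      (∫ x in X..(X + h), g0 (T (ph k S x))) - EL k S g0 * h := by
    rw [w4, w5]
    ring
  rw [w6]
  have w9 : |EL k S g0 * h - EL k S g' * h| ≤ 3 * (ε / 24) * h := by
    rw [← sub_mul, abs_mul, abs_of_pos hh]
    exact mul_le_mul_of_nonneg_right w2 hh.le
  rw [abs_le] at w1 w3 w9 ⊢
  constructor <;> nlinarith

/-- the excess over Tong's constant -/
theorem excess_main (hk : 2 ≤ k) {P : Polynomial ℝ} {Z : ℂ → ℂ}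
    (hZ : DifferentiableOn ℂ Z {s : ℂ | 0 < s.re})
    (hZ' : ∀ s : ℂ, 0 < s.re → s ≠ 1 → Z s = riemannZeta s ^ k / s - Q P s)
    (B : ℝ) {ε : ℝ} (hε : 0 < ε) :
    ∃ S₀ : Finset ℕ, (∀ q ∈ S₀, 0 < q ∧ ∀ a : ℕ, 1 < a → ¬ a ^ k ∣ q) ∧
      ∀ S : Finset ℕ, S₀ ⊆ S → (∀ q ∈ S, 0 < q ∧ ∀ a : ℕ, 1 < a → ¬ a ^ k ∣ q) →
      EvW k (fun X h => (∫ x in X..(X + h), F0 k P x ^ 2) ≤ B * h →
        |(∫ x in X..(X + h), (F0 k P x - sec k S x) ^ 2) -
          ((∫ x in X..(X + h), F0 k P x ^ 2) - (∑' n, vterm k n) * h)| ≤ ε * h ∧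
        ∀ g : ℝ → ℝ, (∀ y z, |g y - g z| ≤ |y - z|) →
        |(∫ x in X..(X + h), g (F0 k P x)) - EL k S g * h| ≤
          (√(max ((∫ x in X..(X + h), F0 k P x ^ 2) / h - ∑' n, vterm k n) 0) + ε) * h) := by
  have hk1 : 1 ≤ k := by omega
  set V := ∑' n, vterm k n with hV
  set η := min (ε / 2) (ε ^ 2 / 32) with hη
  have hη0 : 0 < η := lt_min (by positivity) (by positivity)
  have hη1 : η ≤ ε / 2 := min_le_left _ _
  have hη2 : η ≤ ε ^ 2 / 32 := min_le_right _ _
  obtain ⟨S₀, hS₀, hS₁⟩ := EL_sq_tendsto hk (c := V - η) (by linarith)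
  refine ⟨S₀, hS₀, fun S hSS hS => ?_⟩
  have hSp : ∀ q ∈ S, 0 < q := fun q hq => (hS q hq).1
  have hI := rootIndep (by omega : 0 < k) hS
  have v1 := hS₁ S hSS hSp
  have v2 := EL_sq_le hk hSp hI
  set v := EL k S (fun y => y ^ 2) with hv
  refine (((pythagoras hk hZ hZ' hSp hI B hη0).and
    (sec_uniform hk hSp hI (ε := ε / 2) (by positivity))).and (EvW.pos k)).mono
    fun X h hq hms => ?_
  obtain ⟨⟨h1, h2⟩, hX, hh⟩ := hq
  have p1 := abs_le.1 (h1 hms)
  set Iy := ∫ x in X..(X + h), F0 k P x ^ 2 with hIy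
  set Id := ∫ x in X..(X + h), (F0 k P x - sec k S x) ^ 2 with hId
  have v1h := mul_le_mul_of_nonneg_right v1.le hh.le
  have v2h := mul_le_mul_of_nonneg_right v2 hh.le
  have hηh := mul_le_mul_of_nonneg_right hη1 hh.le
  refine ⟨?_, fun g hg => ?_⟩
  · rw [abs_le]
    constructor <;> nlinarith [p1.1, p1.2]
  · -- Cauchy-Schwarz
    set e := max (Iy / h - V) 0 with he
    have he0 : 0 ≤ e := le_max_right _ _
    have he1 : Iy - V * h ≤ e * h := by
      have h3 := mul_le_mul_of_nonneg_right (le_max_left (Iy / h - V) 0) hh.le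
      have h4 : (Iy / h - V) * h = Iy - V * h := by field_simp
      linarith
    have hd : Id ≤ (e + 2 * η) * h := by
      nlinarith [p1.2]
    set r := √e + ε / 4 with hr
    have hr0 : 0 < r := by
      have := Real.sqrt_nonneg e
      positivity
    have hr2 : e + 2 * η ≤ r ^ 2 := by
      have h5 : √e ^ 2 = e := Real.sq_sqrt he0
      have h6 := Real.sqrt_nonneg e
      rw [hr]
      nlinarith
    have hT := sec_eq hk hSp
    -- integrability
    have cg := lip_cont1 hg
    have iy := ii_comp hk1 P cg hX hh.le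
    have isec : ∀ {f : ℝ → ℝ}, Continuous f →
        IntervalIntegrable (fun x => f (sec k S x)) volume X (X + h) := by
      intro f hf
      rw [intervalIntegrable_iff_integrableOn_Ioc_of_le (by linarith)]
      simp only [hT]
      exact ph_int (k := k) (⟨fun x => f (torusLaw hk hSp x),
        hf.comp (torusLaw hk hSp).continuous⟩ : C(UnitAddTorus S, ℝ)) X (X + h)
    have idiff : ∀ {f : ℝ → ℝ}, Continuous f →
        IntervalIntegrable (fun x => f (F0 k P x - sec k S x)) volume X (X + h) := by
      intro f hf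
      rw [intervalIntegrable_iff_integrableOn_Ioc_of_le (by linarith)]
      have h3 := loc_int (φ := f) hk1 P (-torusLaw hk hSp) hf X (X + h) hX
      refine h3.congr (Eventually.of_forall fun x => ?_)
      show f (F0 k P x + -(torusLaw hk hSp (ph k S x))) = f (F0 k P x - sec k S x)
      rw [hT, sub_eq_add_neg]
    have i2 : IntervalIntegrable (fun x => (F0 k P x - sec k S x) ^ 2) volume X (X + h) :=
      idiff (f := fun y => y ^ 2) (by fun_prop)
    have i1 : IntervalIntegrable (fun x => |F0 k P x - sec k S x|) volume X (X + h) :=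
      idiff (f := fun y => |y|) (by fun_prop)
    have c1 : (∫ x in X..(X + h), |F0 k P x - sec k S x|) ≤ r * h := by
      have h3 : (∫ x in X..(X + h), |F0 k P x - sec k S x|) ≤
          ∫ x in X..(X + h), (1 / (2 * r) * (F0 k P x - sec k S x) ^ 2 + r / 2) := by
        refine intervalIntegral.integral_mono_on (by linarith) i1
          ((i2.const_mul _).add intervalIntegrable_const) fun x _ => ?_
        set z := F0 k P x - sec k S x
        have h4 : 0 ≤ (|z| - r) ^ 2 / (2 * r) := by positivity
        have h5 : (|z| - r) ^ 2 / (2 * r) = 1 / (2 * r) * z ^ 2 + r / 2 - |z| := by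
          rw [← sq_abs z]
          field_simp
          ring
        linarith
      refine h3.trans ?_
      rw [intervalIntegral.integral_add (i2.const_mul _) intervalIntegrable_const,
        intervalIntegral.integral_const_mul, intervalIntegral.integral_const]
      simp only [smul_eq_mul]
      have h6 : 1 / (2 * r) * Id ≤ 1 / (2 * r) * (r ^ 2 * h) := by
        refine mul_le_mul_of_nonneg_left (hd.trans ?_) (by positivity)
        exact mul_le_mul_of_nonneg_right hr2 hh.le
      have h7 : 1 / (2 * r) * (r ^ 2 * h) = r / 2 * h := by field_simp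
      have h8 : (X + h - X) * (r / 2) = r / 2 * h := by ring
      rw [h8]
      linarith
    have c2 : |(∫ x in X..(X + h), g (F0 k P x)) - ∫ x in X..(X + h), g (sec k S x)| ≤ r * h := by
      rw [← intervalIntegral.integral_sub iy (isec cg)]
      refine (intervalIntegral.abs_integral_le_integral_abs (by linarith)).trans
        (le_trans ?_ c1)
      exact intervalIntegral.integral_mono_on (by linarith) (iy.sub (isec cg)).abs i1
        fun x _ => hg _ _
    have c3 := h2 g hg
    rw [hr] at c2
    rw [abs_le] at c2 c3 ⊢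
    constructor <;> nlinarith

end

end Pool.Agent.Lib.MP_bc6037_nt.Rigid
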