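import Pool.Agent.Lib.MP_bc6037_nt.DeltaMellin
import Pool.Agent.Lib.MP_bc6037_nt.ZetaGrowth

set_option autoImplicit false

/-!
The main-term polynomial: analytic continuation of `ζ(s)^k/s - Q_P(s)` to `Re s > 0`.
-/

open MeasureTheory Complex Filter Set
open scoped Nat Topology

namespace Pool.Agent.Lib.MP_bc6037_nt.MainPoly

open ZetaGrowth DeltaMellin

lemma Q_eq_range (P : Polynomial ℝ) (s : ℂ) {N : ℕ} (hN : P.natDegree < N) :
    Q P s = ∑ j ∈ Finset.range N, (P.coeff j : ℂ) * (j ! / (s - 1) ^ (j + 1)) := by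
  unfold Q
  apply Finset.sum_subset
  · intro j hj
    rw [Finset.mem_range]
    exact lt_of_le_of_lt (Polynomial.le_natDegree_of_mem_supp j hj) hN
  · intro j _ hj
    rw [Polynomial.notMem_support_iff] at hj
    rw [hj]
    simp

lemma Q_sub (P₁ P₂ : Polynomial ℝ) (s : ℂ) : Q (P₁ - P₂) s = Q P₁ s - Q P₂ s := by
  set N := max (max P₁.natDegree P₂.natDegree) (P₁ - P₂).natDegree + 1 with hN
  rw [Q_eq_range P₁ s (N := N) (by omega), Q_eq_range P₂ s (N := N) (by omega),
    Q_eq_range (P₁ - P₂) s (N := N) (by omega), ← Finset.sum_sub_distrib]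
  apply Finset.sum_congr rfl
  intro j _
  rw [Polynomial.coeff_sub]
  push_cast
  ring

lemma differentiableAt_Q (P : Polynomial ℝ) {s : ℂ} (hs : s ≠ 1) : DifferentiableAt ℂ (Q P) s := by
  unfold Q
  have h : s - 1 ≠ 0 := sub_ne_zero.2 hs
  apply DifferentiableAt.fun_sum
  intro j _
  apply DifferentiableAt.const_mul
  exact (differentiableAt_const _).div ((differentiableAt_id.sub_const 1).pow _) (pow_ne_zero _ h)

/-- Iterated difference quotients at `1`. -/
noncomputable def R (f : ℂ → ℂ) : ℕ → ℂ → ℂ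
  | 0 => f
  | (m + 1) => dslope (R f m) 1

lemma R_expand (f : ℂ → ℂ) (k : ℕ) (s : ℂ) :
    f s = ∑ m ∈ Finset.range k, R f m 1 * (s - 1) ^ m + (s - 1) ^ k * R f k s := by
  induction k with
  | zero => simp [R]
  | succ k ih =>
    rw [Finset.sum_range_succ, ih]
    have h := sub_smul_dslope (R f k) 1 s
    rw [smul_eq_mul] at h
    have h' : R f (k + 1) s = dslope (R f k) 1 s := rfl
    rw [h', pow_succ, mul_assoc ((s - 1) ^ k), h]
    ring

lemma R_differentiableOn {f : ℂ → ℂ} {U : Set ℂ} (hU : U ∈ 𝓝 (1 : ℂ)) (hf : DifferentiableOn ℂ f U)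
    (m : ℕ) : DifferentiableOn ℂ (R f m) U := by
  induction m with
  | zero => exact hf
  | succ m ih => exact (Complex.differentiableOn_dslope hU).2 ih

lemma R_real {f : ℂ → ℂ} (hf : DifferentiableOn ℂ f {s : ℂ | 0 < s.re})
    (hr : ∀ x : ℝ, 0 < x → (f x).im = 0) (m : ℕ) : ∀ x : ℝ, 0 < x → (R f m x).im = 0 := by
  have hopen : IsOpen {s : ℂ | 0 < s.re} := isOpen_lt continuous_const Complex.continuous_re
  have hU : {s : ℂ | 0 < s.re} ∈ 𝓝 (1 : ℂ) := hopen.mem_nhds (by simp)
  induction m with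
  | zero => exact hr
  | succ m ih =>
    have key : ∀ x : ℝ, 0 < x → x ≠ 1 → (R f (m + 1) x).im = 0 := by
      intro x hx hx1
      have hx1' : (x : ℂ) ≠ 1 := by exact_mod_cast hx1
      have h1 : R f (m + 1) x = (R f m x - R f m 1) / ((x : ℂ) - 1) := by
        show dslope (R f m) 1 x = _
        rw [dslope_of_ne _ hx1', slope_def_field]
      rw [h1]
      have h2 : (x : ℂ) - 1 = ((x - 1 : ℝ) : ℂ) := by push_cast; rfl
      have h3 := ih x hx
      have h4 := ih 1 one_pos
      rw [Complex.ofReal_one] at h4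
      rw [h2, Complex.div_ofReal_im, Complex.sub_im, h3, h4]
      simp
    intro x hx
    by_cases hx1 : x = 1
    · subst hx1
      have hc : ContinuousAt (fun x : ℝ => (R f (m + 1) (x : ℂ)).im) 1 := by
        have h5 : ContinuousAt (R f (m + 1)) ((1 : ℝ) : ℂ) := by
          rw [Complex.ofReal_one]
          exact ((R_differentiableOn hU hf (m + 1)).differentiableAt hU).continuousAt
        exact Complex.continuous_im.continuousAt.comp
          (ContinuousAt.comp (x := (1 : ℝ)) h5 Complex.continuous_ofReal.continuousAt)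
      have h6 : Tendsto (fun x : ℝ => (R f (m + 1) (x : ℂ)).im) (𝓝[≠] 1)
          (𝓝 ((R f (m + 1) ((1 : ℝ) : ℂ)).im)) := hc.tendsto.mono_left nhdsWithin_le_nhds
      have h7 : Tendsto (fun x : ℝ => (R f (m + 1) (x : ℂ)).im) (𝓝[≠] 1) (𝓝 0) := by
        apply tendsto_const_nhds.congr'
        have : ∀ᶠ x : ℝ in 𝓝[≠] 1, 0 < x :=
          (nhdsWithin_le_nhds) (lt_mem_nhds one_pos)
        filter_upwards [this, self_mem_nhdsWithin] with x hx hx'
        exact (key x hx hx').symm
      exact tendsto_nhds_unique h6 h7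
    · exact key x hx hx1

lemma zeta_real (x : ℝ) : (riemannZeta x).im = 0 := by
  have h := riemannZeta_conj (x : ℂ)
  rw [Complex.conj_ofReal] at h
  have h2 := congrArg Complex.im h
  rw [Complex.conj_im] at h2
  linarith

lemma H_real (x : ℝ) : (H x).im = 0 := by
  by_cases hx : (x : ℂ) = 1
  · rw [hx, H_one]; simp
  · rw [H_of_ne hx, Complex.mul_im]
    simp [zeta_real x]

/-- Principal part of `ζ^k/s` at `1`. -/
theorem exists_main (k : ℕ) : ∃ P : Polynomial ℝ, ∃ Z : ℂ → ℂ,
    DifferentiableOn ℂ Z {s : ℂ | 0 < s.re} ∧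
    ∀ s : ℂ, 0 < s.re → s ≠ 1 → Z s = riemannZeta s ^ k / s - Q P s := by
  have hopen : IsOpen {s : ℂ | 0 < s.re} := isOpen_lt continuous_const Complex.continuous_re
  have hU : {s : ℂ | 0 < s.re} ∈ 𝓝 (1 : ℂ) := hopen.mem_nhds (by simp)
  set f : ℂ → ℂ := fun s => H s ^ k / s with hf
  have hne : ∀ s : ℂ, 0 < s.re → s ≠ 0 := by
    intro s hs h
    rw [h, Complex.zero_re] at hs
    exact lt_irrefl _ hs
  have hfd : DifferentiableOn ℂ f {s : ℂ | 0 < s.re} := by
    intro s hs
    exact ((differentiable_H s).pow k |>.div differentiableAt_id (hne s hs)).differentiableWithinAt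
  have hfr : ∀ x : ℝ, 0 < x → (f x).im = 0 := by
    intro x hx
    simp only [hf]
    rw [Complex.div_ofReal_im]
    have h1 : H x = ((H x).re : ℂ) := by
      apply Complex.ext
      · simp
      · simp [H_real x]
    rw [h1, ← Complex.ofReal_pow, Complex.ofReal_im, zero_div]
  set c : ℕ → ℝ := fun m => (R f m 1).re with hc
  have hc' : ∀ m, R f m 1 = (c m : ℂ) := by
    intro m
    have := R_real hfd hfr m 1 one_pos
    rw [Complex.ofReal_one] at this
    apply Complex.ext
    · simp [hc]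
    · simp [this]
  set P : Polynomial ℝ := ∑ j ∈ Finset.range k, Polynomial.monomial j (c (k - 1 - j) / j !) with hP
  have hPc : ∀ j, j < k → P.coeff j = c (k - 1 - j) / j ! := by
    intro j hj
    rw [hP, Polynomial.finsetSum_coeff]
    simp only [Polynomial.coeff_monomial]
    rw [Finset.sum_ite_eq' (Finset.range k) j]
    simp [hj]
  have hPc' : ∀ j, k ≤ j → P.coeff j = 0 := by
    intro j hj
    rw [hP, Polynomial.finsetSum_coeff]
    simp only [Polynomial.coeff_monomial]
    rw [Finset.sum_ite_eq' (Finset.range k) j]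
    simp [hj]
  refine ⟨P, R f k, R_differentiableOn hU hfd k, ?_⟩
  intro s hs hs1
  have hs1' : s - 1 ≠ 0 := sub_ne_zero.2 hs1
  have hQ : Q P s = ∑ j ∈ Finset.range k, (P.coeff j : ℂ) * (j ! / (s - 1) ^ (j + 1)) := by
    unfold Q
    apply Finset.sum_subset
    · intro j hj
      rw [Finset.mem_range]
      by_contra h
      exact (Polynomial.mem_support_iff.1 hj) (hPc' j (not_lt.1 h))
    · intro j _ hj
      rw [Polynomial.notMem_support_iff] at hj
      rw [hj]
      simp
  have hexp := R_expand f k s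
  have hfs : f s = (s - 1) ^ k * (riemannZeta s ^ k / s) := by
    simp only [hf]
    rw [H_of_ne hs1, mul_pow, mul_div_assoc]
  have hQ2 : (s - 1) ^ k * Q P s = ∑ m ∈ Finset.range k, R f m 1 * (s - 1) ^ m := by
    rw [hQ, Finset.mul_sum, ← Finset.sum_range_reflect (fun m => R f m 1 * (s - 1) ^ m)]
    apply Finset.sum_congr rfl
    intro j hj
    rw [Finset.mem_range] at hj
    rw [hPc j hj, hc' (k - 1 - j)]
    have h2 : (s - 1) ^ k = (s - 1) ^ (k - 1 - j) * (s - 1) ^ (j + 1) := by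
      rw [← pow_add]; congr 1; omega
    rw [h2]
    have h3 : ((j ! : ℕ) : ℂ) ≠ 0 := by exact_mod_cast Nat.factorial_ne_zero j
    push_cast
    field_simp
  rw [hfs, ← hQ2, ← mul_add] at hexp
  have := mul_left_cancel₀ (pow_ne_zero k hs1') hexp
  rw [this]
  ring

/-- If `Err k P x = o(x)`, then `δ ∫ Err k P x x^{-2-δ} dx → 0` as `δ → 0+`. -/
lemma tendsto_mellin_Err {k : ℕ} {P : Polynomial ℝ} (h : IsMainPoly k P) :
    Tendsto (fun δ : ℝ => (δ : ℂ) * (riemannZeta (1 + δ) ^ k / (1 + δ) - Q P (1 + δ)))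
      (𝓝[>] 0) (𝓝 0) := by
  rw [Metric.tendsto_nhds]
  intro ε hε
  -- the bound `|Err| ≤ (ε/2) x + B`
  have h1 : ∀ᶠ x : ℝ in atTop, |Err k P x / x| < ε / 2 := by
    have := (Metric.tendsto_nhds.1 h) (ε / 2) (by linarith)
    filter_upwards [this] with x hx
    rwa [Real.dist_eq, sub_zero] at hx
  obtain ⟨X₀, hX₀⟩ := (h1.and (eventually_ge_atTop 1)).exists_forall_of_atTop
  obtain ⟨C, hC0, hC⟩ := Err_le k P (by norm_num : (1 : ℝ) < 2)
  set X₁ : ℝ := max X₀ 1 with hX₁
  set B : ℝ := C * X₁ ^ (2 : ℝ) with hB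
  have hB0 : 0 ≤ B := by positivity
  have hbd : ∀ x : ℝ, 1 < x → |Err k P x| ≤ ε / 2 * x + B := by
    intro x hx
    have hx0 : 0 < x := by linarith
    rcases le_or_gt X₀ x with h2 | h2
    · have h3 := (hX₀ x h2).1
      rw [abs_div, abs_of_pos hx0, div_lt_iff₀ hx0] at h3
      linarith
    · have h3 := hC x hx.le
      have h4 : x ^ (2 : ℝ) ≤ X₁ ^ (2 : ℝ) := by
        apply Real.rpow_le_rpow hx0.le _ (by norm_num)
        exact h2.le.trans (le_max_left _ _)
      have h5 : C * x ^ (2 : ℝ) ≤ B := mul_le_mul_of_nonneg_left h4 hC0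
      have : 0 ≤ ε / 2 * x := by positivity
      linarith
  -- the integral
  have hmain : ∀ δ : ℝ, 0 < δ →
      ‖(δ : ℂ) * (riemannZeta (1 + δ) ^ k / (1 + δ) - Q P (1 + δ))‖ ≤ ε / 2 + B * δ := by
    intro δ hδ
    have hre : 1 < (1 + (δ : ℂ)).re := by simpa using hδ
    rw [← mellin_Err k P hre, norm_mul, Complex.norm_real, Real.norm_of_nonneg hδ.le]
    have hint1 : IntegrableOn (fun x : ℝ => ε / 2 * x ^ (-(1 + δ))) (Ioi 1) :=
      (integrableOn_Ioi_rpow_of_lt (by linarith) zero_lt_one).const_mul _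
    have hint2 : IntegrableOn (fun x : ℝ => B * x ^ (-(2 + δ))) (Ioi 1) :=
      (integrableOn_Ioi_rpow_of_lt (by linarith) zero_lt_one).const_mul _
    have h6 : ‖∫ x in Ioi (1 : ℝ), (Err k P x : ℂ) * (x : ℂ) ^ (-(1 + (δ : ℂ)) - 1)‖ ≤
        ∫ x in Ioi (1 : ℝ), (ε / 2 * x ^ (-(1 + δ)) + B * x ^ (-(2 + δ))) := by
      apply norm_integral_le_of_norm_le (hint1.add hint2)
      filter_upwards [ae_restrict_mem measurableSet_Ioi] with x hx
      have hx1 : (1 : ℝ) < x := hx
      have hx0 : 0 < x := by linarith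
      rw [norm_mul, Complex.norm_real, Real.norm_eq_abs,
        Complex.norm_cpow_eq_rpow_re_of_pos hx0]
      have e : (-(1 + (δ : ℂ)) - 1).re = -(2 + δ) := by simp; ring
      rw [e]
      calc |Err k P x| * x ^ (-(2 + δ)) ≤ (ε / 2 * x + B) * x ^ (-(2 + δ)) :=
            mul_le_mul_of_nonneg_right (hbd x hx1) (Real.rpow_nonneg hx0.le _)
        _ = ε / 2 * x ^ (-(1 + δ)) + B * x ^ (-(2 + δ)) := by
            have : x ^ (-(1 + δ)) = x * x ^ (-(2 + δ)) := by
              rw [← Real.rpow_one_add' hx0.le (by linarith)]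
              congr 1
              ring
            rw [this]
            ring
    have h7 : ∫ x in Ioi (1 : ℝ), (ε / 2 * x ^ (-(1 + δ)) + B * x ^ (-(2 + δ))) =
        ε / 2 * (1 / δ) + B * (1 / (1 + δ)) := by
      rw [integral_add hint1 hint2, integral_const_mul, integral_const_mul,
        integral_Ioi_rpow_of_lt (by linarith) zero_lt_one,
        integral_Ioi_rpow_of_lt (by linarith) zero_lt_one, Real.one_rpow, Real.one_rpow]
      have e1 : -(1 + δ) + 1 = -δ := by ring
      have e2 : -(2 + δ) + 1 = -(1 + δ) := by ring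
      rw [e1, e2, neg_div_neg_eq, neg_div_neg_eq]
    rw [h7] at h6
    calc δ * ‖∫ x in Ioi (1 : ℝ), (Err k P x : ℂ) * (x : ℂ) ^ (-(1 + (δ : ℂ)) - 1)‖
        ≤ δ * (ε / 2 * (1 / δ) + B * (1 / (1 + δ))) := mul_le_mul_of_nonneg_left h6 hδ.le
      _ = ε / 2 + B * δ * (1 / (1 + δ)) := by field_simp
      _ ≤ ε / 2 + B * δ := by
          have : 1 / (1 + δ) ≤ 1 := by
            rw [div_le_one (by linarith)]; linarith
          have h8 : 0 ≤ B * δ := by positivity
          nlinarith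
  have h9 : ∀ᶠ δ : ℝ in 𝓝[>] 0, B * δ < ε / 2 := by
    have h10 : Tendsto (fun δ : ℝ => B * δ) (𝓝[>] 0) (𝓝 (B * 0)) :=
      (continuous_const.mul continuous_id).continuousAt.tendsto.mono_left nhdsWithin_le_nhds
    rw [mul_zero] at h10
    exact h10.eventually (gt_mem_nhds (by linarith))
  filter_upwards [h9, self_mem_nhdsWithin] with δ h10 hδ
  rw [dist_zero_right]
  have := hmain δ hδ
  linarith

/-- For the main polynomial, `ζ(s)^k/s - Q_P(s)` continues holomorphically to `Re s > 0`. -/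
theorem IsMainPoly.continuation {k : ℕ} {P : Polynomial ℝ} (h : IsMainPoly k P) : ∃ Z : ℂ → ℂ,
    DifferentiableOn ℂ Z {s : ℂ | 0 < s.re} ∧
    ∀ s : ℂ, 0 < s.re → s ≠ 1 → Z s = riemannZeta s ^ k / s - Q P s := by
  have hopen : IsOpen {s : ℂ | 0 < s.re} := isOpen_lt continuous_const Complex.continuous_re
  have hU : {s : ℂ | 0 < s.re} ∈ 𝓝 (1 : ℂ) := hopen.mem_nhds (by simp)
  obtain ⟨P₀, Z, hZ, hZ'⟩ := exists_main k
  suffices hPP : P - P₀ = 0 by
    rw [sub_eq_zero] at hPP
    rw [hPP]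
    exact ⟨Z, hZ, hZ'⟩
  -- `δ Q_{P₀ - P}(1+δ) → 0`
  have h1 := tendsto_mellin_Err h
  have h2 : Tendsto (fun δ : ℝ => (δ : ℂ) * Z (1 + δ)) (𝓝[>] 0) (𝓝 0) := by
    have h3 : ContinuousAt Z (1 + ((0 : ℝ) : ℂ)) := by
      rw [Complex.ofReal_zero, add_zero]
      exact (hZ.differentiableAt hU).continuousAt
    have h4 : ContinuousAt (fun δ : ℝ => (δ : ℂ) * Z (1 + δ)) 0 := by
      apply Complex.continuous_ofReal.continuousAt.mul
      exact ContinuousAt.comp (x := (0 : ℝ)) h3
        (continuous_const.add Complex.continuous_ofReal).continuousAt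
    have h5 := h4.tendsto.mono_left (nhdsWithin_le_nhds (s := Ioi 0))
    simpa using h5
  have h3 : Tendsto (fun δ : ℝ => (δ : ℂ) * Q (P - P₀) (1 + δ)) (𝓝[>] 0) (𝓝 0) := by
    have h4 := h2.sub h1
    rw [sub_zero] at h4
    apply h4.congr'
    filter_upwards [self_mem_nhdsWithin] with δ hδ
    have hδ' : (0 : ℝ) < δ := hδ
    have hne : (1 : ℂ) + δ ≠ 1 := by
      intro h5
      rw [add_eq_left] at h5
      exact hδ'.ne' (by exact_mod_cast h5)
    rw [hZ' (1 + δ) (by simp; linarith) hne, Q_sub]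
    ring
  -- translate into a polynomial in `1/δ`
  set W : Polynomial ℝ := P - P₀ with hW
  set V : Polynomial ℝ := ∑ j ∈ Finset.range (W.natDegree + 1),
    Polynomial.monomial j (W.coeff j * j !) with hV
  have hVc : ∀ j, j < W.natDegree + 1 → V.coeff j = W.coeff j * j ! := by
    intro j hj
    rw [hV, Polynomial.finsetSum_coeff]
    simp only [Polynomial.coeff_monomial]
    rw [Finset.sum_ite_eq' (Finset.range _) j]
    simp [hj]
  have hVe : ∀ u : ℝ, V.eval u = ∑ j ∈ Finset.range (W.natDegree + 1), W.coeff j * j ! * u ^ j := by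
    intro u
    rw [hV, Polynomial.eval_finsetSum]
    simp only [Polynomial.eval_monomial]
  have h4 : Tendsto (fun u : ℝ => V.eval u) atTop (𝓝 0) := by
    have h5 : Tendsto (fun u : ℝ => ((u⁻¹ : ℝ) : ℂ) * Q W (1 + ((u⁻¹ : ℝ) : ℂ))) atTop (𝓝 0) :=
      h3.comp tendsto_inv_atTop_nhdsGT_zero
    have h6 : Tendsto (fun u : ℝ => ((V.eval u : ℝ) : ℂ)) atTop (𝓝 0) := by
      apply h5.congr'
      filter_upwards [eventually_gt_atTop 0] with u hu
      rw [Q_eq_range W _ (Nat.lt_succ_self _), hVe, Finset.mul_sum]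
      push_cast
      apply Finset.sum_congr rfl
      intro j _
      have hu' : (u : ℂ) ≠ 0 := by exact_mod_cast hu.ne'
      rw [add_sub_cancel_left, inv_pow, pow_succ]
      field_simp
    have h7 := (Complex.continuous_re.tendsto 0).comp h6
    rw [Complex.zero_re] at h7
    refine h7.congr fun u => ?_
    simp
  have h5 := (Polynomial.tendsto_nhds_iff (P := V) (c := 0)).1 h4
  have h6 : V = 0 := Polynomial.leadingCoeff_eq_zero.1 h5.1
  ext j
  rw [Polynomial.coeff_zero]
  by_cases hj : j < W.natDegree + 1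
  · have h7 := hVc j hj
    rw [h6, Polynomial.coeff_zero] at h7
    have h8 : ((j ! : ℕ) : ℝ) ≠ 0 := by exact_mod_cast Nat.factorial_ne_zero j
    exact (mul_eq_zero.1 h7.symm).resolve_right h8
  · exact Polynomial.coeff_eq_zero_of_natDegree_lt (by omega)

end Pool.Agent.Lib.MP_bc6037_nt.MainPoly
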