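import Pool.Agent.Lib.MP_bc6037_nt.Smooth
import Pool.Agent.Lib.MP_bc6037_nt.MainPoly

set_option autoImplicit false

open MeasureTheory Complex Filter Set
open scoped Topology Nat

namespace Pool.Agent.Lib.MP_bc6037_nt.Perron

open ZetaGrowth DeltaMellin MainPoly

/-! ### Growth of the continued transform -/

lemma norm_Q_le (P : Polynomial ℝ) : ∃ C : ℝ, 0 ≤ C ∧ ∀ s : ℂ, 1 ≤ |s.im| → ‖Q P s‖ ≤ C / |s.im| := by
  refine ⟨∑ j ∈ P.support, |P.coeff j| * j !, Finset.sum_nonneg fun j _ => by positivity, ?_⟩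
  intro s hs
  have hpos : 0 < |s.im| := by linarith
  unfold Q
  rw [Finset.sum_div]
  refine (norm_sum_le _ _).trans (Finset.sum_le_sum fun j _ => ?_)
  rw [norm_mul, norm_div, norm_pow, Complex.norm_real, Complex.norm_natCast, Real.norm_eq_abs,
    mul_div_assoc]
  apply mul_le_mul_of_nonneg_left _ (abs_nonneg _)
  apply div_le_div_of_nonneg_left (by positivity) hpos
  have h1 : |s.im| ≤ ‖s - 1‖ := by
    have := Complex.abs_im_le_norm (s - 1)
    simpa using this
  calc |s.im| = |s.im| ^ 1 := (pow_one _).symm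
    _ ≤ |s.im| ^ (j + 1) := pow_le_pow_right₀ hs (by omega)
    _ ≤ ‖s - 1‖ ^ (j + 1) := pow_le_pow_left₀ hpos.le h1 _

lemma norm_zeta_le {σ₀ : ℝ} (h0 : 0 < σ₀) : ∃ C : ℝ, 0 ≤ C ∧ ∀ s : ℂ, σ₀ ≤ s.re → s.re ≤ 2 →
    1 ≤ |s.im| → ‖riemannZeta s‖ ≤ C * |s.im| := by
  refine ⟨3 + 9 / σ₀, by positivity, fun s hs0 hs2 ht => ?_⟩
  have hre : 0 < s.re := by linarith
  have hpos : 0 < |s.im| := by linarith
  have hs1 : s ≠ 1 := by
    intro h
    rw [h] at ht
    simp at ht
    linarith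
  have h1 : |s.im| ≤ ‖s - 1‖ := by
    have := Complex.abs_im_le_norm (s - 1)
    simpa using this
  have h2 : ‖s‖ ≤ 3 * |s.im| := by
    have := Complex.norm_le_abs_re_add_abs_im s
    rw [abs_of_pos hre] at this
    linarith
  have h3 : ‖s - 1‖ ≤ 3 * |s.im| := by
    have := Complex.norm_le_abs_re_add_abs_im (s - 1)
    have e1 : |(s - 1).re| ≤ 1 := by
      rw [Complex.sub_re, Complex.one_re, abs_le]
      constructor <;> linarith
    have e2 : (s - 1).im = s.im := by simp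
    rw [e2] at this
    linarith
  have h4 := norm_H_le hre
  rw [H_of_ne hs1, norm_mul] at h4
  have h5 : ‖s‖ * ‖s - 1‖ / s.re ≤ (9 / σ₀) * |s.im| ^ 2 := by
    rw [div_le_iff₀ hre]
    have h6 : ‖s‖ * ‖s - 1‖ ≤ (3 * |s.im|) * (3 * |s.im|) := by gcongr
    have h7 : (9 : ℝ) ≤ 9 / σ₀ * s.re := by
      rw [div_mul_eq_mul_div, le_div_iff₀ h0]
      nlinarith
    nlinarith [sq_nonneg |s.im|]
  have h8 : |s.im| * ‖riemannZeta s‖ ≤ |s.im| * ((3 + 9 / σ₀) * |s.im|) := by
    calc |s.im| * ‖riemannZeta s‖ ≤ ‖s - 1‖ * ‖riemannZeta s‖ := by gcongr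
      _ ≤ ‖s‖ + ‖s‖ * ‖s - 1‖ / s.re := h4
      _ ≤ 3 * |s.im| + (9 / σ₀) * |s.im| ^ 2 := by linarith
      _ ≤ 3 * |s.im| ^ 2 + (9 / σ₀) * |s.im| ^ 2 := by
          have : |s.im| ≤ |s.im| ^ 2 := by nlinarith
          linarith
      _ = _ := by ring
  exact le_of_mul_le_mul_left h8 hpos

/-- Boundedness on a compact box. -/
lemma bounded_box {Z : ℂ → ℂ} (hZ : DifferentiableOn ℂ Z {s : ℂ | 0 < s.re}) {σ₀ : ℝ}
    (h0 : 0 < σ₀) : ∃ C : ℝ, 0 ≤ C ∧ ∀ s : ℂ, σ₀ ≤ s.re → s.re ≤ 2 → |s.im| ≤ 1 → ‖Z s‖ ≤ C := by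
  have hK : IsCompact (Icc σ₀ 2 ×ℂ Icc (-1 : ℝ) 1) := isCompact_Icc.reProdIm isCompact_Icc
  have hc : ContinuousOn Z (Icc σ₀ 2 ×ℂ Icc (-1 : ℝ) 1) := by
    apply hZ.continuousOn.mono
    intro s hs
    rw [mem_reProdIm] at hs
    exact lt_of_lt_of_le h0 hs.1.1
  obtain ⟨C, hC⟩ := hK.exists_bound_of_continuousOn hc
  refine ⟨max C 0, le_max_right _ _, fun s h1 h2 h3 => ?_⟩
  refine (hC s ?_).trans (le_max_left _ _)
  rw [mem_reProdIm]
  exact ⟨⟨h1, h2⟩, abs_le.mp h3⟩

lemma one_add_rpow_ge {a t : ℝ} (ht : |t| ≤ 1) : min 1 (2 ^ a) ≤ (1 + |t|) ^ a := by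
  have h1 : 1 ≤ 1 + |t| := by linarith [abs_nonneg t]
  rcases le_total 0 a with ha | ha
  · exact (min_le_left _ _).trans (Real.one_le_rpow h1 ha)
  · refine (min_le_right _ _).trans ?_
    exact Real.rpow_le_rpow_of_nonpos (by linarith) (by linarith) ha

lemma two_rpow_le {a t : ℝ} (ht : 1 ≤ |t|) : |t| ^ a ≤ max 1 (2 ^ (-a)) * (1 + |t|) ^ a := by
  have hpos : 0 < |t| := by linarith
  rcases le_total 0 a with ha | ha
  · calc |t| ^ a ≤ (1 + |t|) ^ a := Real.rpow_le_rpow hpos.le (by linarith) ha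
      _ = 1 * (1 + |t|) ^ a := (one_mul _).symm
      _ ≤ _ := by
        apply mul_le_mul_of_nonneg_right (le_max_left _ _) (by positivity)
  · have h1 : ((1 + |t|) / 2) ≤ |t| := by linarith
    calc |t| ^ a ≤ ((1 + |t|) / 2) ^ a := Real.rpow_le_rpow_of_nonpos (by linarith) h1 ha
      _ = 2 ^ (-a) * (1 + |t|) ^ a := by
          rw [Real.div_rpow (by linarith) (by norm_num), Real.rpow_neg (by norm_num)]
          ring
      _ ≤ _ := by
        apply mul_le_mul_of_nonneg_right (le_max_right _ _) (by positivity)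

/-- Polynomial growth of the continued transform in a strip. -/
lemma Z_strip {j : ℕ} {P : Polynomial ℝ} {Z : ℂ → ℂ}
    (hZ : DifferentiableOn ℂ Z {s : ℂ | 0 < s.re})
    (hZe : ∀ s : ℂ, 0 < s.re → s ≠ 1 → Z s = riemannZeta s ^ j / s - Q P s)
    {σ₀ : ℝ} (h0 : 0 < σ₀) : ∃ C : ℝ, 0 ≤ C ∧ ∀ s : ℂ, σ₀ ≤ s.re → s.re ≤ 2 →
      ‖Z s‖ ≤ C * (1 + |s.im|) ^ (j : ℝ) := by
  obtain ⟨C1, hC1, h1⟩ := norm_zeta_le h0
  obtain ⟨C2, hC2, h2⟩ := norm_Q_le P
  obtain ⟨C3, hC3, h3⟩ := bounded_box hZ h0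
  refine ⟨C1 ^ j + C2 + C3, by positivity, fun s hs0 hs2 => ?_⟩
  have hone : (1 : ℝ) ≤ (1 + |s.im|) ^ (j : ℝ) :=
    Real.one_le_rpow (by linarith [abs_nonneg s.im]) (by positivity)
  rcases le_total |s.im| 1 with ht | ht
  · calc ‖Z s‖ ≤ C3 := h3 s hs0 hs2 ht
      _ ≤ (C1 ^ j + C2 + C3) * 1 := by
        have : 0 ≤ C1 ^ j := by positivity
        linarith
      _ ≤ _ := by
        apply mul_le_mul_of_nonneg_left hone (by positivity)
  · have hs1 : s ≠ 1 := by
      intro h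
      rw [h] at ht
      simp at ht
      linarith
    have hpos : 0 < |s.im| := by linarith
    rw [hZe s (by linarith) hs1]
    have e1 : ‖riemannZeta s ^ j / s‖ ≤ C1 ^ j * (1 + |s.im|) ^ (j : ℝ) := by
      rw [norm_div, norm_pow]
      have hns : 1 ≤ ‖s‖ := ht.trans (Complex.abs_im_le_norm s)
      calc ‖riemannZeta s‖ ^ j / ‖s‖ ≤ ‖riemannZeta s‖ ^ j := div_le_self (by positivity) hns
        _ ≤ (C1 * |s.im|) ^ j := pow_le_pow_left₀ (norm_nonneg _) (h1 s hs0 hs2 ht) j
        _ = C1 ^ j * |s.im| ^ j := mul_pow _ _ _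
        _ ≤ C1 ^ j * (1 + |s.im|) ^ (j : ℝ) := by
          rw [Real.rpow_natCast]
          gcongr
          linarith
    have e2 : ‖Q P s‖ ≤ C2 * (1 + |s.im|) ^ (j : ℝ) := by
      calc ‖Q P s‖ ≤ C2 / |s.im| := h2 s ht
        _ ≤ C2 := div_le_self hC2 ht
        _ = C2 * 1 := (mul_one _).symm
        _ ≤ _ := mul_le_mul_of_nonneg_left hone hC2
    calc ‖riemannZeta s ^ j / s - Q P s‖ ≤ ‖riemannZeta s ^ j / s‖ + ‖Q P s‖ := norm_sub_le _ _
      _ ≤ C1 ^ j * (1 + |s.im|) ^ (j : ℝ) + C2 * (1 + |s.im|) ^ (j : ℝ) := add_le_add e1 e2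
      _ ≤ _ := by
        have : 0 ≤ C3 * (1 + |s.im|) ^ (j : ℝ) := by positivity
        linarith

/-- Growth on a single line from a bound for `ζ` there. -/
lemma Z_line {j : ℕ} {P : Polynomial ℝ} {Z : ℂ → ℂ}
    (hZ : DifferentiableOn ℂ Z {s : ℂ | 0 < s.re})
    (hZe : ∀ s : ℂ, 0 < s.re → s ≠ 1 → Z s = riemannZeta s ^ j / s - Q P s)
    {σ₀ m : ℝ} (h0 : 0 < σ₀) (h2' : σ₀ ≤ 2) (hm : 0 ≤ m)
    (hz : ∃ C : ℝ, ∀ t : ℝ, 1 ≤ |t| → ‖riemannZeta (σ₀ + t * I)‖ ^ j ≤ C * |t| ^ m) :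
    ∃ C : ℝ, 0 ≤ C ∧ ∀ t : ℝ, ‖Z (σ₀ + t * I)‖ ≤ C * (1 + |t|) ^ (m - 1) := by
  obtain ⟨C1, h1⟩ := hz
  have hC1 : 0 ≤ C1 := by
    have := h1 1 (by simp)
    simp at this
    exact le_trans (by positivity) this
  obtain ⟨C2, hC2, h2⟩ := norm_Q_le P
  obtain ⟨C3, hC3, h3⟩ := bounded_box hZ h0
  set c : ℝ := min 1 (2 ^ (m - 1)) with hc
  have hcpos : 0 < c := lt_min one_pos (by positivity)
  set d : ℝ := max 1 (2 ^ (-(m - 1))) with hd
  have hdpos : 0 < d := lt_of_lt_of_le one_pos (le_max_left _ _)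
  refine ⟨C3 / c + (C1 + C2) * d, by positivity, fun t => ?_⟩
  have hre : ((σ₀ : ℂ) + t * I).re = σ₀ := by simp
  have him : ((σ₀ : ℂ) + t * I).im = t := by simp
  rcases le_total |t| 1 with ht | ht
  · have e1 := h3 (σ₀ + t * I) (by rw [hre]) (by rw [hre]; exact h2') (by rw [him]; exact ht)
    have e2 := one_add_rpow_ge (a := m - 1) ht
    rw [← hc] at e2
    calc ‖Z (σ₀ + t * I)‖ ≤ C3 := e1
      _ = C3 / c * c := by field_simp
      _ ≤ C3 / c * (1 + |t|) ^ (m - 1) := by gcongr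
      _ ≤ _ := by
        have : 0 ≤ (C1 + C2) * d * (1 + |t|) ^ (m - 1) := by positivity
        linarith
  · have hpos : 0 < |t| := by linarith
    have hs1 : (σ₀ : ℂ) + t * I ≠ 1 := by
      intro h
      have : ((σ₀ : ℂ) + t * I).im = 0 := by rw [h]; simp
      rw [him] at this
      rw [this] at hpos
      simp at hpos
    rw [hZe _ (by rw [hre]; exact h0) hs1]
    have hns : |t| ≤ ‖(σ₀ : ℂ) + t * I‖ := by
      have := Complex.abs_im_le_norm ((σ₀ : ℂ) + t * I)
      rwa [him] at this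
    have e0 : |t| ^ (m - 1) = |t| ^ m / |t| := by
      rw [Real.rpow_sub_one hpos.ne']
    have e1 : ‖riemannZeta (σ₀ + t * I) ^ j / (σ₀ + t * I)‖ ≤ C1 * |t| ^ (m - 1) := by
      rw [norm_div, norm_pow, e0, ← mul_div_assoc]
      have := h1 t ht
      calc _ ≤ (C1 * |t| ^ m) / ‖(σ₀ : ℂ) + t * I‖ := by gcongr
        _ ≤ _ := by gcongr
    have e2 : ‖Q P (σ₀ + t * I)‖ ≤ C2 * |t| ^ (m - 1) := by
      have := h2 (σ₀ + t * I) (by rw [him]; exact ht)
      rw [him] at this
      rw [e0, ← mul_div_assoc]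
      refine this.trans ?_
      have h5 : 1 ≤ |t| ^ m := Real.one_le_rpow ht hm
      gcongr
      nlinarith
    have e3 := two_rpow_le (a := m - 1) ht
    rw [← hd] at e3
    calc ‖riemannZeta (σ₀ + t * I) ^ j / (σ₀ + t * I) - Q P (σ₀ + t * I)‖
        ≤ C1 * |t| ^ (m - 1) + C2 * |t| ^ (m - 1) := (norm_sub_le _ _).trans (add_le_add e1 e2)
      _ = (C1 + C2) * |t| ^ (m - 1) := by ring
      _ ≤ (C1 + C2) * (d * (1 + |t|) ^ (m - 1)) := by gcongr
      _ ≤ _ := by
        have : 0 ≤ C3 / c * (1 + |t|) ^ (m - 1) := by positivity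
        linarith

/-! ### The smoothed error term -/

/-- The error term in the logarithmic variable, cut off to `(0, ∞)`. -/
noncomputable def fE (j : ℕ) (P : Polynomial ℝ) : ℝ → ℝ :=
  (Ioi (0 : ℝ)).indicator (fun y => Err j P (Real.exp y))

lemma fE_integrable (j : ℕ) (P : Polynomial ℝ) :
    Integrable (fun y => fE j P y * Real.exp (-2 * y)) := by
  obtain ⟨C, hC0, hC⟩ := Err_le j P (by norm_num : (1 : ℝ) < 3 / 2)
  have h1 : IntegrableOn (fun y : ℝ => C * Real.exp (-(1/2) * y)) (Ioi 0) :=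
    (integrableOn_exp_mul_Ioi (by norm_num : (-(1/2) : ℝ) < 0) 0).const_mul C
  have h2 : IntegrableOn (fun y : ℝ => Err j P (Real.exp y) * Real.exp (-2 * y)) (Ioi 0) := by
    refine h1.mono' ?_ ?_
    · exact (((measurable_Err j P).comp Real.measurable_exp).mul (by fun_prop)).aestronglyMeasurable
    · filter_upwards [ae_restrict_mem measurableSet_Ioi] with y hy
      have hy0 : (0 : ℝ) < y := hy
      have := hC (Real.exp y) (Real.one_le_exp hy0.le)
      rw [norm_mul, Real.norm_eq_abs, Real.norm_eq_abs, abs_of_pos (Real.exp_pos (-2 * y))]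
      calc |Err j P (Real.exp y)| * Real.exp (-2 * y)
          ≤ C * Real.exp y ^ (3 / 2 : ℝ) * Real.exp (-2 * y) := by gcongr
        _ = C * Real.exp (-(1/2) * y) := by
          rw [← Real.exp_mul, mul_assoc, ← Real.exp_add]
          congr 2
          ring
  have h3 : (fun y => fE j P y * Real.exp (-2 * y)) =
      (Ioi (0 : ℝ)).indicator (fun y => Err j P (Real.exp y) * Real.exp (-2 * y)) := by
    funext y
    unfold fE
    by_cases hy : y ∈ Ioi (0 : ℝ)
    · rw [indicator_of_mem hy, indicator_of_mem hy]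
    · rw [indicator_of_notMem hy, indicator_of_notMem hy, zero_mul]
  rw [h3, integrable_indicator_iff measurableSet_Ioi]
  exact h2

lemma fE_laplace {j : ℕ} {P : Polynomial ℝ} {Z : ℂ → ℂ}
    (hZe : ∀ s : ℂ, 0 < s.re → s ≠ 1 → Z s = riemannZeta s ^ j / s - Q P s) (t : ℝ) :
    ∫ y, (fE j P y : ℂ) * cexp (-(2 + t * I) * y) = Z (2 + t * I) := by
  have hre : ((2 : ℂ) + t * I).re = 2 := by simp
  have hs1 : (2 : ℂ) + t * I ≠ 1 := by
    intro h
    rw [h] at hre
    norm_num at hre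
  rw [hZe _ (by rw [hre]; norm_num) hs1, ← mellin_Err j P (by rw [hre]; norm_num),
    integral_Ioi_one, ← integral_indicator measurableSet_Ioi]
  congr 1
  funext y
  unfold fE
  by_cases hy : y ∈ Ioi (0 : ℝ)
  · rw [indicator_of_mem hy, indicator_of_mem hy, exp_cpow, Complex.real_smul, Complex.ofReal_exp]
    have : cexp (-(2 + t * I) * y) = cexp y * cexp ((-(2 + t * I) - 1) * y) := by
      rw [← Complex.exp_add]; congr 1; ring
    rw [this]
    ring
  · rw [indicator_of_notMem hy, indicator_of_notMem hy]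
    simp

/-- Bound for the smoothed error term. -/
theorem smooth_bound {j : ℕ} {P : Polynomial ℝ} {Z : ℂ → ℂ}
    (hZ : DifferentiableOn ℂ Z {s : ℂ | 0 < s.re})
    (hZe : ∀ s : ℂ, 0 < s.re → s ≠ 1 → Z s = riemannZeta s ^ j / s - Q P s)
    {σ₀ m : ℝ} (h0 : 0 < σ₀) (h2' : σ₀ ≤ 2) (hm : 0 ≤ m)
    (hz : ∃ C : ℝ, ∀ t : ℝ, 1 ≤ |t| → ‖riemannZeta (σ₀ + t * I)‖ ^ j ≤ C * |t| ^ m)
    {ε : ℝ} (hε : 0 < ε) :
    ∃ C : ℝ, 0 ≤ C ∧ ∀ δ : ℝ, 0 < δ → δ ≤ 1 → ∀ y : ℝ,
      |smooth δ (fE j P) y| ≤ C * δ ^ (-(m + ε)) * Real.exp (σ₀ * y) := by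
  obtain ⟨C1, hC1, h1⟩ := Z_line hZ hZe h0 h2' hm hz
  obtain ⟨C2, hC2, h2⟩ := Z_strip hZ hZe h0
  obtain ⟨C3, hC3, h3⟩ := KK_decay' (m + ε) (by linarith)
  obtain ⟨C4, hC4, h4⟩ := KK_decay' ((j : ℝ) + 2) (by positivity)
  set J : ℝ := ∫ t : ℝ, (1 + |t|) ^ (-(1 + ε)) with hJ
  have hJi : Integrable (fun t : ℝ => (1 + |t|) ^ (-(1 + ε))) := by
    have := integrable_one_add_norm (E := ℝ) (μ := volume) (r := 1 + ε) (by simp; linarith)
    simpa using this
  have hJ0 : 0 ≤ J := integral_nonneg (fun t => by positivity)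
  refine ⟨C1 * C3 * J, by positivity, fun δ hδ hδ1 y => ?_⟩
  have hsm := smooth_eq hδ hδ1 (fE_integrable j P) (fE_laplace hZe) y
  have hshift := shift_line (G := fun s => Z s * KK (δ * s) * cexp (s * y)) (a := σ₀) (b := 2)
    h2' (U := {s : ℂ | 0 < s.re}) (fun s hs _ => lt_of_lt_of_le h0 hs) ?_
    (isOpen_lt continuous_const Complex.continuous_re)
    (C := C2 * (C4 * δ ^ (-((j : ℝ) + 2))) * Real.exp (2 * |y|)) ?_
  · have e1 : ∫ t : ℝ, Z (2 + t * I) * KK (δ * (2 + t * I)) * cexp ((2 + t * I) * y) =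
        ∫ t : ℝ, Z (σ₀ + t * I) * KK (δ * (σ₀ + t * I)) * cexp ((σ₀ + t * I) * y) := by
      have := hshift.symm
      simpa using this
    rw [e1] at hsm
    have hn : |smooth δ (fE j P) y| = ‖((smooth δ (fE j P) y : ℝ) : ℂ)‖ := by
      rw [Complex.norm_real, Real.norm_eq_abs]
    rw [hn, hsm, norm_mul]
    have hpi : ‖(1 / (2 * (Real.pi : ℂ)))‖ ≤ 1 := by
      have h2n : ‖(2 : ℂ)‖ = 2 := by simp
      rw [norm_div, norm_one, norm_mul, Complex.norm_real, Real.norm_eq_abs,
        abs_of_pos Real.pi_pos, h2n]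
      rw [div_le_one (by positivity)]
      have := Real.pi_gt_three
      linarith
    have hint : ‖∫ t : ℝ, Z (σ₀ + t * I) * KK (δ * (σ₀ + t * I)) * cexp ((σ₀ + t * I) * y)‖ ≤
        ∫ t : ℝ, (C1 * C3 * δ ^ (-(m + ε)) * Real.exp (σ₀ * y)) * (1 + |t|) ^ (-(1 + ε)) := by
      apply norm_integral_le_of_norm_le (hJi.const_mul _)
      refine ae_of_all _ (fun t => ?_)
      have hre : ((σ₀ : ℂ) + t * I).re = σ₀ := by simp
      have him : ((σ₀ : ℂ) + t * I).im = t := by simp
      have a1 := h1 t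
      have a2 := h3 δ hδ hδ1 (σ₀ + t * I) (by rw [hre]; exact h0.le) (by rw [hre]; exact h2')
      rw [him, Real.mul_rpow hδ.le (by positivity)] at a2
      have a3 : ‖cexp (((σ₀ : ℂ) + t * I) * y)‖ = Real.exp (σ₀ * y) := by
        rw [Complex.norm_exp]
        congr 1
        simp
      rw [norm_mul, norm_mul, a3]
      have a4 : (1 + |t|) ^ (m - 1) * (1 + |t|) ^ (-(m + ε)) = (1 + |t|) ^ (-(1 + ε)) := by
        rw [← Real.rpow_add (by positivity)]
        congr 1
        ring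
      calc ‖Z (σ₀ + t * I)‖ * ‖KK (δ * (σ₀ + t * I))‖ * Real.exp (σ₀ * y)
          ≤ (C1 * (1 + |t|) ^ (m - 1)) * (C3 * (δ ^ (-(m + ε)) * (1 + |t|) ^ (-(m + ε)))) *
            Real.exp (σ₀ * y) := by gcongr
        _ = (C1 * C3 * δ ^ (-(m + ε)) * Real.exp (σ₀ * y)) *
            ((1 + |t|) ^ (m - 1) * (1 + |t|) ^ (-(m + ε))) := by ring
        _ = _ := by rw [a4]
    rw [integral_const_mul, ← hJ] at hint
    calc _ ≤ 1 * (C1 * C3 * δ ^ (-(m + ε)) * Real.exp (σ₀ * y) * J) := by gcongr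
      _ = _ := by ring
  · apply DifferentiableOn.mul
    · apply hZ.mul
      exact (KK_differentiable.comp ((differentiable_const _).mul differentiable_id)).differentiableOn
    · exact (by fun_prop : Differentiable ℂ (fun s : ℂ => cexp (s * y))).differentiableOn
  · intro s hs0 hs2
    have a1 := h2 s hs0 hs2
    have a2 := h4 δ hδ hδ1 s (h0.le.trans hs0) hs2
    rw [Real.mul_rpow hδ.le (by positivity)] at a2
    have a3 : ‖cexp (s * y)‖ ≤ Real.exp (2 * |y|) := by
      rw [Complex.norm_exp]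
      apply Real.exp_le_exp.mpr
      have : (s * (y : ℂ)).re = s.re * y := by simp
      rw [this]
      calc s.re * y ≤ |s.re * y| := le_abs_self _
        _ = |s.re| * |y| := abs_mul _ _
        _ ≤ 2 * |y| := by
          apply mul_le_mul_of_nonneg_right _ (abs_nonneg _)
          rw [abs_of_nonneg (by linarith)]
          exact hs2
    have a4 : (1 + |s.im|) ^ (j : ℝ) * (1 + |s.im|) ^ (-((j : ℝ) + 2)) =
        (1 + |s.im|) ^ (-2 : ℝ) := by
      rw [← Real.rpow_add (by positivity)]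
      congr 1
      ring
    rw [norm_mul, norm_mul]
    calc ‖Z s‖ * ‖KK (δ * s)‖ * ‖cexp (s * y)‖
        ≤ (C2 * (1 + |s.im|) ^ (j : ℝ)) *
          (C4 * (δ ^ (-((j : ℝ) + 2)) * (1 + |s.im|) ^ (-((j : ℝ) + 2)))) *
          Real.exp (2 * |y|) := by gcongr
      _ = C2 * (C4 * δ ^ (-((j : ℝ) + 2))) * Real.exp (2 * |y|) *
          ((1 + |s.im|) ^ (j : ℝ) * (1 + |s.im|) ^ (-((j : ℝ) + 2))) := by ring
      _ = _ := by rw [a4]

/-! ### From the smoothed to the original error term -/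

lemma poly_exp_le (P : Polynomial ℝ) {ε : ℝ} (hε : 0 < ε) : ∃ C : ℝ, 0 ≤ C ∧
    ∀ y : ℝ, 0 ≤ y → |P.eval y| ≤ C * Real.exp (ε * y) := by
  obtain ⟨C, hC0, hC⟩ := poly_log_le P hε
  refine ⟨C, hC0, fun y hy => ?_⟩
  have := hC (Real.exp y) (Real.one_le_exp hy)
  rw [Real.log_exp, ← Real.exp_mul, mul_comm y ε] at this
  exact this

/-- Variation of the main term in the logarithmic variable. -/
lemma main_variation (P : Polynomial ℝ) {ε : ℝ} (hε : 0 < ε) : ∃ L : ℝ, 0 ≤ L ∧
    ∀ a b : ℝ, 0 ≤ a → a ≤ b → b ≤ a + 1 →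
      |Real.exp b * P.eval b - Real.exp a * P.eval a| ≤ L * (b - a) * Real.exp ((1 + ε) * b) := by
  obtain ⟨C1, hC1, h1⟩ := poly_exp_le P hε
  obtain ⟨C2, hC2, h2⟩ := poly_exp_le P.derivative hε
  refine ⟨C1 + C2, by positivity, fun a b ha hab _ => ?_⟩
  have hd : ∀ x ∈ Icc a b, HasDerivWithinAt (fun y => Real.exp y * P.eval y)
      (Real.exp x * P.eval x + Real.exp x * P.derivative.eval x) (Icc a b) x := by
    intro x _
    exact ((Real.hasDerivAt_exp x).mul (P.hasDerivAt x)).hasDerivWithinAt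
  have hb : ∀ x ∈ Icc a b, ‖Real.exp x * P.eval x + Real.exp x * P.derivative.eval x‖ ≤
      (C1 + C2) * Real.exp ((1 + ε) * b) := by
    intro x hx
    have hx0 : 0 ≤ x := ha.trans hx.1
    have e1 := h1 x hx0
    have e2 := h2 x hx0
    have e3 : Real.exp x * Real.exp (ε * x) ≤ Real.exp ((1 + ε) * b) := by
      rw [← Real.exp_add]
      apply Real.exp_le_exp.mpr
      nlinarith [hx.2]
    rw [← mul_add, Real.norm_eq_abs, abs_mul, abs_of_pos (Real.exp_pos x)]
    calc Real.exp x * |P.eval x + P.derivative.eval x|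
        ≤ Real.exp x * (|P.eval x| + |P.derivative.eval x|) := by
          gcongr
          exact abs_add_le _ _
      _ ≤ Real.exp x * (C1 * Real.exp (ε * x) + C2 * Real.exp (ε * x)) := by gcongr
      _ = (C1 + C2) * (Real.exp x * Real.exp (ε * x)) := by ring
      _ ≤ _ := by gcongr
  have := Convex.norm_image_sub_le_of_norm_hasDerivWithin_le hd hb (convex_Icc a b)
    (left_mem_Icc.mpr hab) (right_mem_Icc.mpr hab)
  rw [Real.norm_eq_abs, Real.norm_eq_abs, abs_of_nonneg (by linarith : 0 ≤ b - a)] at this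
  linarith

/-- Integrability of the product with the kernel. -/
lemma integrable_mul_kd {g : ℝ → ℝ} (hg : Measurable g) {δ B : ℝ} (hδ : 0 < δ)
    (hb : ∀ v ∈ Icc (-δ) 0, |g v| ≤ B) : Integrable (fun v => g v * kd δ v) := by
  have h1 : Integrable (fun v => B * kd δ v) :=
    ((kd_continuous δ).integrable_of_hasCompactSupport (kd_compact hδ)).const_mul B
  refine h1.mono' (hg.mul (kd_continuous δ).measurable).aestronglyMeasurable
    (ae_of_all _ (fun v => ?_))
  rw [norm_mul, Real.norm_eq_abs, Real.norm_eq_abs, abs_of_nonneg (kd_nonneg hδ v)]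
  by_cases hv : v ∈ Icc (-δ) 0
  · exact mul_le_mul_of_nonneg_right (hb v hv) (kd_nonneg hδ v)
  · rw [kd_eq_zero hδ hv]; simp

lemma measurable_fE (j : ℕ) (P : Polynomial ℝ) : Measurable (fE j P) :=
  ((measurable_Err j P).comp Real.measurable_exp).indicator measurableSet_Ioi

lemma fE_bound (j : ℕ) (P : Polynomial ℝ) : ∃ C : ℝ, 0 ≤ C ∧ ∀ y : ℝ,
    |fE j P y| ≤ C * Real.exp (2 * |y|) := by
  obtain ⟨C, hC0, hC⟩ := Err_le j P (by norm_num : (1 : ℝ) < 2)
  refine ⟨C, hC0, fun y => ?_⟩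
  unfold fE
  by_cases hy : y ∈ Ioi (0 : ℝ)
  · have hy0 : (0 : ℝ) < y := hy
    rw [indicator_of_mem hy]
    refine (hC _ (Real.one_le_exp hy0.le)).trans ?_
    rw [← Real.exp_mul, abs_of_pos hy0, mul_comm y 2]
  · rw [indicator_of_notMem hy, abs_zero]
    positivity

/-- `D` is monotone, so the error term is almost monotone. -/
lemma fE_diff (j : ℕ) (P : Polynomial ℝ) {ε : ℝ} (hε : 0 < ε) : ∃ L : ℝ, 0 ≤ L ∧
    ∀ a b : ℝ, 0 < a → a ≤ b → b ≤ a + 1 →
      fE j P a - fE j P b ≤ L * (b - a) * Real.exp ((1 + ε) * b) := by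
  obtain ⟨L, hL, h⟩ := main_variation P hε
  refine ⟨L, hL, fun a b ha hab hb => ?_⟩
  have h1 := h a b ha.le hab hb
  have e1 : fE j P a = D j (Real.exp a) - Real.exp a * P.eval a := by
    unfold fE
    rw [indicator_of_mem (show a ∈ Ioi (0 : ℝ) from ha), Err, Real.log_exp]
  have e2 : fE j P b = D j (Real.exp b) - Real.exp b * P.eval b := by
    unfold fE
    rw [indicator_of_mem (show b ∈ Ioi (0 : ℝ) from lt_of_lt_of_le ha hab), Err, Real.log_exp]
  have h2 := D_mono j (Real.exp_le_exp.mpr hab)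
  have h3 := le_abs_self (Real.exp b * P.eval b - Real.exp a * P.eval a)
  rw [e1, e2]
  linarith

/-- **Perron-type bound.** If `|ζ(σ₀ + it)|^j ≪ |t|^m`, then the error term of `D j` is
`O(x^{1 - (1-σ₀)/(1+m) + ε})`. -/
theorem perron_bound {j : ℕ} {P : Polynomial ℝ} {Z : ℂ → ℂ}
    (hZ : DifferentiableOn ℂ Z {s : ℂ | 0 < s.re})
    (hZe : ∀ s : ℂ, 0 < s.re → s ≠ 1 → Z s = riemannZeta s ^ j / s - Q P s)
    {σ₀ m : ℝ} (h0 : 0 < σ₀) (h1' : σ₀ < 1) (hm : 0 ≤ m)
    (hz : ∃ C : ℝ, ∀ t : ℝ, 1 ≤ |t| → ‖riemannZeta (σ₀ + t * I)‖ ^ j ≤ C * |t| ^ m)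
    {ε : ℝ} (hε : 0 < ε) :
    ∃ C : ℝ, ∀ x : ℝ, 1 ≤ x → |Err j P x| ≤ C * x ^ (1 - (1 - σ₀) / (1 + m) + ε) := by
  obtain ⟨C1, hC1, h1⟩ := smooth_bound hZ hZe h0 (by linarith) hm hz hε
  obtain ⟨L, hL, h2⟩ := fE_diff j P hε
  obtain ⟨C3, hC3, h3⟩ := fE_bound j P
  set κ : ℝ := (1 - σ₀) / (1 + m) with hκ
  have hm1 : 0 < 1 + m := by linarith
  have hκ0 : 0 < κ := div_pos (by linarith) hm1
  have hκ1 : κ ≤ 1 := by
    rw [hκ, div_le_one hm1]
    linarith
  have hκm : σ₀ + κ * m = 1 - κ := by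
    rw [hκ]
    field_simp
    ring
  set e : ℝ := 1 - κ + ε with he
  have he0 : 0 < e := by rw [he]; linarith
  -- bound in the logarithmic variable for y > 1
  have hlog : ∀ y : ℝ, 1 < y → |fE j P y| ≤
      (C1 + L * Real.exp (1 + ε)) * Real.exp (e * y) := by
    intro y hy
    set δ : ℝ := Real.exp (-(κ * y)) with hδ
    have hδ0 : 0 < δ := Real.exp_pos _
    have hδ1 : δ ≤ 1 := by
      rw [hδ, Real.exp_le_one_iff]
      nlinarith
    have hδm : δ ^ (-(m + ε)) * Real.exp (σ₀ * y) ≤ Real.exp (e * y) := by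
      rw [hδ, ← Real.exp_mul, ← Real.exp_add]
      apply Real.exp_le_exp.mpr
      have : -(κ * y) * -(m + ε) + σ₀ * y = (σ₀ + κ * m) * y + κ * ε * y := by ring
      rw [this, hκm, he]
      have : κ * ε ≤ ε := by nlinarith
      nlinarith
    have hδL : L * δ * Real.exp ((1 + ε) * y) = L * Real.exp (e * y) := by
      rw [hδ, mul_assoc, ← Real.exp_add]
      congr 2
      rw [he]
      ring
    have hsm1 := h1 δ hδ0 hδ1 y
    have hsm2 := h1 δ hδ0 hδ1 (y - δ)
    have hsm1' : |smooth δ (fE j P) y| ≤ C1 * Real.exp (e * y) := by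
      calc _ ≤ C1 * δ ^ (-(m + ε)) * Real.exp (σ₀ * y) := hsm1
        _ = C1 * (δ ^ (-(m + ε)) * Real.exp (σ₀ * y)) := by ring
        _ ≤ _ := by gcongr
    have hsm2' : |smooth δ (fE j P) (y - δ)| ≤ C1 * Real.exp (e * y) := by
      calc _ ≤ C1 * δ ^ (-(m + ε)) * Real.exp (σ₀ * (y - δ)) := hsm2
        _ ≤ C1 * δ ^ (-(m + ε)) * Real.exp (σ₀ * y) := by
          gcongr
          linarith
        _ = C1 * (δ ^ (-(m + ε)) * Real.exp (σ₀ * y)) := by ring
        _ ≤ _ := by gcongr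
    have hmeas : ∀ z : ℝ, Measurable (fun v => fE j P (z - v)) := fun z =>
      (measurable_fE j P).comp (measurable_const.sub measurable_id)
    have hint : ∀ z : ℝ, Integrable (fun v => fE j P (z - v) * kd δ v) := by
      intro z
      apply integrable_mul_kd (hmeas z) hδ0 (B := C3 * Real.exp (2 * (|z| + 1)))
      intro v hv
      refine (h3 _).trans ?_
      gcongr
      calc |z - v| ≤ |z| + |v| := abs_sub _ _
        _ ≤ |z| + 1 := by
          have : |v| ≤ 1 := by
            rw [abs_le]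
            constructor <;> linarith [hv.1, hv.2]
          linarith
    have hki : Integrable (kd δ) :=
      (kd_continuous δ).integrable_of_hasCompactSupport (kd_compact hδ0)
    -- upper bound
    have hup : fE j P y - smooth δ (fE j P) y ≤ L * Real.exp (e * y + (1 + ε)) := by
      have e1 : fE j P y - smooth δ (fE j P) y =
          ∫ v, (fE j P y - fE j P (y - v)) * kd δ v := by
        have e2 : (fun v => (fE j P y - fE j P (y - v)) * kd δ v) =
            fun v => fE j P y * kd δ v - fE j P (y - v) * kd δ v := by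
          funext v; ring
        rw [e2, integral_sub (hki.const_mul _) (hint y), integral_const_mul, kd_integral hδ0,
          mul_one, smooth]
      rw [e1]
      calc ∫ v, (fE j P y - fE j P (y - v)) * kd δ v
          ≤ ∫ v, (L * Real.exp (e * y + (1 + ε))) * kd δ v := by
            apply integral_mono
            · have e2 : (fun v => (fE j P y - fE j P (y - v)) * kd δ v) =
                  fun v => fE j P y * kd δ v - fE j P (y - v) * kd δ v := by
                funext v; ring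
              rw [e2]
              exact (hki.const_mul _).sub (hint y)
            · exact hki.const_mul _
            · intro v
              simp only
              by_cases hv : v ∈ Icc (-δ) 0
              · apply mul_le_mul_of_nonneg_right _ (kd_nonneg hδ0 v)
                have := h2 y (y - v) (by linarith) (by linarith [hv.2]) (by linarith [hv.1])
                refine this.trans ?_
                have hv1 : y - v - y ≤ δ := by linarith [hv.1]
                calc L * (y - v - y) * Real.exp ((1 + ε) * (y - v))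
                    ≤ L * δ * Real.exp ((1 + ε) * (y + 1)) := by
                      gcongr
                      linarith [hv.1]
                  _ = (L * δ * Real.exp ((1 + ε) * y)) * Real.exp (1 + ε) := by
                      have e5 : Real.exp ((1 + ε) * (y + 1)) =
                          Real.exp ((1 + ε) * y) * Real.exp (1 + ε) := by
                        rw [← Real.exp_add]; congr 1; ring
                      rw [e5]; ring
                  _ = (L * Real.exp (e * y)) * Real.exp (1 + ε) := by rw [hδL]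
                  _ = _ := by rw [mul_assoc, ← Real.exp_add]
              · rw [kd_eq_zero hδ0 hv]; simp
        _ = _ := by rw [integral_const_mul, kd_integral hδ0, mul_one]
    have hlow : smooth δ (fE j P) (y - δ) - fE j P y ≤ L * Real.exp (e * y + (1 + ε)) := by
      have e1 : smooth δ (fE j P) (y - δ) - fE j P y =
          ∫ v, (fE j P (y - δ - v) - fE j P y) * kd δ v := by
        have e2 : (fun v => (fE j P (y - δ - v) - fE j P y) * kd δ v) =
            fun v => fE j P (y - δ - v) * kd δ v - fE j P y * kd δ v := by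
          funext v; ring
        rw [e2, integral_sub (hint _) (hki.const_mul _), integral_const_mul, kd_integral hδ0,
          mul_one, smooth]
      rw [e1]
      calc ∫ v, (fE j P (y - δ - v) - fE j P y) * kd δ v
          ≤ ∫ v, (L * Real.exp (e * y + (1 + ε))) * kd δ v := by
            apply integral_mono
            · have e2 : (fun v => (fE j P (y - δ - v) - fE j P y) * kd δ v) =
                  fun v => fE j P (y - δ - v) * kd δ v - fE j P y * kd δ v := by
                funext v; ring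
              rw [e2]
              exact (hint _).sub (hki.const_mul _)
            · exact hki.const_mul _
            · intro v
              simp only
              by_cases hv : v ∈ Icc (-δ) 0
              · apply mul_le_mul_of_nonneg_right _ (kd_nonneg hδ0 v)
                have := h2 (y - δ - v) y (by linarith [hv.2]) (by linarith [hv.1])
                  (by linarith [hv.2])
                refine this.trans ?_
                have hv1 : y - (y - δ - v) ≤ δ := by linarith [hv.2]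
                have hv2 : 0 ≤ y - (y - δ - v) := by linarith [hv.1]
                calc L * (y - (y - δ - v)) * Real.exp ((1 + ε) * y)
                    ≤ L * δ * Real.exp ((1 + ε) * y) := by gcongr
                  _ = L * Real.exp (e * y) := hδL
                  _ ≤ _ := by
                      gcongr
                      linarith
              · rw [kd_eq_zero hδ0 hv]; simp
        _ = _ := by rw [integral_const_mul, kd_integral hδ0, mul_one]
    rw [Real.exp_add] at hup hlow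
    rw [abs_le] at hsm1' hsm2' ⊢
    constructor
    · linarith [hsm2'.1]
    · linarith [hsm1'.2]
  obtain ⟨C5, hC5, h5⟩ := Err_le j P (by norm_num : (1 : ℝ) < 2)
  refine ⟨(C1 + L * Real.exp (1 + ε)) + C5 * Real.exp 2, fun x hx => ?_⟩
  have hx0 : 0 < x := by linarith
  have hxe : 1 ≤ x ^ e := Real.one_le_rpow hx he0.le
  rcases le_or_gt (Real.log x) 1 with hy | hy
  · have hx1 : x ≤ Real.exp 1 := (Real.log_le_iff_le_exp hx0).mp hy
    calc |Err j P x| ≤ C5 * x ^ (2 : ℝ) := h5 x hx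
      _ ≤ C5 * (Real.exp 1) ^ (2 : ℝ) := by gcongr
      _ = C5 * Real.exp 2 * 1 := by rw [← Real.exp_mul]; norm_num
      _ ≤ C5 * Real.exp 2 * x ^ e := by gcongr
      _ ≤ _ := by
        have : 0 ≤ (C1 + L * Real.exp (1 + ε)) * x ^ e := by positivity
        linarith
  · have h6 := hlog (Real.log x) hy
    have h7 : fE j P (Real.log x) = Err j P x := by
      unfold fE
      rw [indicator_of_mem (show Real.log x ∈ Ioi (0 : ℝ) by
        show 0 < Real.log x; linarith), Real.exp_log hx0]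
    have h8 : Real.exp (e * Real.log x) = x ^ e := by
      rw [Real.rpow_def_of_pos hx0, mul_comm]
    rw [h7, h8] at h6
    refine h6.trans ?_
    have : 0 ≤ C5 * Real.exp 2 * x ^ e := by positivity
    linarith

end Pool.Agent.Lib.MP_bc6037_nt.Perron
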