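import Pool.Agent.Lib.MP_bc6037_nt.RecDown
import Pool.Agent.Lib.MP_bc6037_nt.ShortMain

set_option autoImplicit false

/-!
Convexity of `beta` in `1/k` and its consequences.
-/

open MeasureTheory Filter Set
open scoped Topology

namespace Pool.Agent.Lib.MP_bc6037_nt.Rec

open ZetaGrowth DeltaMellin MainPoly OneSided Exponents Limit

/-- **Convexity in `1/k`.** -/
theorem beta_convex {i j k : ℕ} (hi : 1 ≤ i) (hj : 1 ≤ j) (hk : 1 ≤ k) {t : ℝ}
    (ht0 : 0 ≤ t) (ht1 : t ≤ 1) (ht : 1 / (j : ℝ) = (1 - t) * (1 / i) + t * (1 / k)) :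
    beta j ≤ (1 - t) * beta i + t * beta k := by
  apply beta_le_of_fin
  · have h1 := beta_nonneg i
    have h2 := beta_nonneg k
    have h3 : 0 ≤ 1 - t := by linarith
    positivity
  · intro σ hσ
    set δ := σ - ((1 - t) * beta i + t * beta k) with hδ
    have hδ0 : 0 < δ := by rw [hδ]; linarith
    have h1 := fin_of_beta hi (σ := beta i + δ) (by linarith)
    have h2 := fin_of_beta hk (σ := beta k + δ) (by linarith)
    have h3 := Fin.interp hi hj hk (θ := t) (by linarith [beta_nonneg i])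
      (by linarith [beta_nonneg k]) ht0 ht1 ht h1 h2
    have e : (1 - t) * (beta i + δ) + t * (beta k + δ) = σ := by
      rw [hδ]; ring
    rwa [e] at h3

lemma D_one {x : ℝ} : D 1 x = ⌊x⌋₊ := by
  unfold D
  rw [pow_one]
  have h1 : ∀ n ∈ Finset.Icc 1 ⌊x⌋₊, (((ArithmeticFunction.zeta : ArithmeticFunction ℕ) n : ℕ) : ℝ) = 1 := by
    intro n hn
    rw [Finset.mem_Icc] at hn
    rw [ArithmeticFunction.zeta_apply, if_neg (by omega)]
    simp
  rw [Finset.sum_congr rfl h1]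
  simp

lemma beta_one : beta 1 = 0 := by
  have hE : ∀ x : ℝ, 1 ≤ x → |Err 1 (Polynomial.C 1) x| ≤ 1 * x ^ (0 : ℝ) := by
    intro x hx
    rw [Err, D_one, Polynomial.eval_C, mul_one, Real.rpow_zero, mul_one, abs_le]
    have h1 := Nat.floor_le (by linarith : (0 : ℝ) ≤ x)
    have h2 := Nat.lt_floor_add_one x
    constructor <;> linarith
  have h1 : IsMainPoly 1 (Polynomial.C 1) := isMainPoly_of_bound (by norm_num) hE
  have h2 : mainPoly 1 = Polynomial.C 1 := isMainPoly_unique (mainPoly_spec 1) h1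
  have h3 : alpha 1 ≤ 0 := by
    apply csInf_le (alpha_set_bdd 1)
    refine ⟨1, fun x hx => ?_⟩
    rw [Delta, h2]
    exact hE x hx
  exact le_antisymm ((beta_le_alpha 1).trans h3) (beta_nonneg 1)

/-- The known lower bound. -/
lemma beta_ge {k : ℕ} (hk : 2 ≤ k) : ((k : ℝ) - 1) / (2 * k) ≤ beta k := by
  obtain ⟨Z, hZ, hZ', _⟩ := mainPoly_data k
  have hkp : (0 : ℝ) < k := by exact_mod_cast (by omega : 0 < k)
  apply le_csInf (beta_set_nonempty k)
  rintro b ⟨C, hC⟩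
  by_contra hcon
  rw [not_le] at hcon
  have hb0 := beta_set_nonneg hC
  have hcon2 : 2 * b < 1 - 1 / k := by
    have e : ((k : ℝ) - 1) / (2 * k) = (1 - 1 / k) / 2 := by field_simp
    rw [e] at hcon
    linarith
  have hk1 : 0 < 1 / (k : ℝ) := by positivity
  -- choose `θ < 1` with `θ + 1 - 1/k > 1 + 2b` and `θ > 1 - 1/k`
  obtain ⟨θ, hθ1, hθ2⟩ : ∃ θ : ℝ, max (1 - 1 / (k : ℝ)) (2 * b + 1 / k) < θ ∧ θ < 1 :=
    exists_between (max_lt (by linarith) (by linarith))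
  have hθa : 1 - 1 / (k : ℝ) < θ := (le_max_left _ _).trans_lt hθ1
  have hθb : 2 * b + 1 / k < θ := (le_max_right _ _).trans_lt hθ1
  set S := (∑ n ∈ Finset.Icc 1 1, (dk k n) ^ 2 / (n : ℝ) ^ (1 + 1 / (k : ℝ))) /
      (2 * k * Real.pi ^ 2) with hS
  have hS0 : 0 < S := by
    rw [hS]
    apply div_pos _ (by positivity)
    simp [dk_one]
  have hev := short_square hk hZ hZ' hθa hθ2 1 (c := S / 2) (by rw [← hS]; linarith)
  have hlim : Tendsto (fun X : ℝ => S / 2 * X ^ (θ - 2 * b - 1 / k)) atTop atTop :=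
    (tendsto_rpow_atTop (by linarith)).const_mul_atTop (by linarith)
  have hC' : 0 ≤ |C| := abs_nonneg C
  obtain ⟨X, h1, h2, h3⟩ := (hev.and ((eventually_ge_atTop (1 : ℝ)).and
    (hlim.eventually_gt_atTop (|C| * 2 ^ (1 + 2 * b))))).exists
  have hX0 : 0 < X := by linarith
  have hXθ : X ^ θ ≤ X := by
    calc X ^ θ ≤ X ^ (1 : ℝ) := Real.rpow_le_rpow_of_exponent_le h2 hθ2.le
      _ = X := Real.rpow_one X
  have hXθ0 : 0 < X ^ θ := Real.rpow_pos_of_pos hX0 _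
  have h4 : ∫ y in X..(X + X ^ θ), (Err k (mainPoly k) y) ^ 2 ≤
      ∫ y in (1 : ℝ)..(X + X ^ θ), (Err k (mainPoly k) y) ^ 2 := by
    apply intervalIntegral.integral_mono_interval h2 (by linarith) le_rfl
    · exact ae_of_all _ fun _ => sq_nonneg _
    · exact intervalIntegrable_Delta_sq k (by linarith)
  have h5 := hC (X + X ^ θ) (by linarith)
  have h6 : (X + X ^ θ) ^ (1 + 2 * b) ≤ 2 ^ (1 + 2 * b) * X ^ (1 + 2 * b) := by
    rw [← Real.mul_rpow (by norm_num) hX0.le]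
    apply Real.rpow_le_rpow (by linarith) (by linarith) (by linarith)
  have h7 : S / 2 * X ^ (θ + 1 - 1 / (k : ℝ)) ≤ |C| * 2 ^ (1 + 2 * b) * X ^ (1 + 2 * b) := by
    calc _ ≤ _ := h1
      _ ≤ _ := h4
      _ ≤ C * (X + X ^ θ) ^ (1 + 2 * b) := h5
      _ ≤ |C| * (X + X ^ θ) ^ (1 + 2 * b) := by
          apply mul_le_mul_of_nonneg_right (le_abs_self C)
          exact Real.rpow_nonneg (by linarith) _
      _ ≤ |C| * (2 ^ (1 + 2 * b) * X ^ (1 + 2 * b)) := by gcongr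
      _ = _ := by ring
  have h8 : X ^ (θ + 1 - 1 / (k : ℝ)) = X ^ (θ - 2 * b - 1 / k) * X ^ (1 + 2 * b) := by
    rw [← Real.rpow_add hX0]
    congr 1
    ring
  rw [h8, ← mul_assoc] at h7
  have h9 := le_of_mul_le_mul_right h7 (Real.rpow_pos_of_pos hX0 _)
  linarith

lemma beta_tendsto : Tendsto beta atTop (𝓝 lindelofAbscissa) :=
  tendsto_of_squeeze meanExp_le_beta beta_le_alpha

/-- The bound by the Lindelof abscissa. -/
theorem beta_le_lindelof {i k : ℕ} (hi : 1 ≤ i) (hik : i ≤ k) :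
    beta k ≤ (i / k : ℝ) * beta i + (1 - (i / k : ℝ)) * lindelofAbscissa := by
  have hi0 : (0 : ℝ) < i := by exact_mod_cast hi
  have hk0 : (0 : ℝ) < k := by exact_mod_cast hi.trans hik
  have hikr : (i : ℝ) ≤ k := by exact_mod_cast hik
  -- `t_m` for `m ≥ k`: `1/k = (1 - t)/i + t/m`
  have hlim1 : Tendsto (fun m : ℕ => (1 / (i : ℝ) - 1 / k) / (1 / i - 1 / m)) atTop
      (𝓝 ((1 / (i : ℝ) - 1 / k) / (1 / i - 0))) := by
    apply Tendsto.div tendsto_const_nhds (tendsto_const_nhds.sub tendsto_one_div_atTop_nhds_zero_nat)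
    simp only [sub_zero]
    positivity
  have e0 : (1 / (i : ℝ) - 1 / k) / (1 / i - 0) = 1 - i / k := by
    field_simp
    ring
  rw [e0] at hlim1
  have hlim2 : Tendsto (fun m : ℕ => (1 - (1 / (i : ℝ) - 1 / k) / (1 / i - 1 / m)) * beta i +
      (1 / (i : ℝ) - 1 / k) / (1 / i - 1 / m) * beta m) atTop
      (𝓝 ((1 - (1 - (i / k : ℝ))) * beta i + (1 - (i / k : ℝ)) * lindelofAbscissa)) :=
    ((tendsto_const_nhds.sub hlim1).mul tendsto_const_nhds).add (hlim1.mul beta_tendsto)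
  have e1 : (1 - (1 - (i / k : ℝ))) = i / k := by ring
  rw [e1] at hlim2
  apply ge_of_tendsto hlim2
  filter_upwards [eventually_gt_atTop k] with m hm
  have hm0 : (0 : ℝ) < m := by exact_mod_cast ((hi.trans hik).trans hm.le)
  have hkm : (k : ℝ) < m := by exact_mod_cast hm
  have q1 : 1 / (m : ℝ) < 1 / k := one_div_lt_one_div_of_lt hk0 hkm
  have q2 : 1 / (k : ℝ) ≤ 1 / i := one_div_le_one_div_of_le hi0 hikr
  have hd : 0 < 1 / (i : ℝ) - 1 / m := by linarith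
  apply beta_convex hi (hi.trans hik) (by omega : 1 ≤ m)
  · exact div_nonneg (by linarith) hd.le
  · rw [div_le_one hd]; linarith
  · have hd' := hd.ne'
    have : (1 - (1 / (i : ℝ) - 1 / k) / (1 / i - 1 / m)) * (1 / i) +
        (1 / (i : ℝ) - 1 / k) / (1 / i - 1 / m) * (1 / m) =
        1 / i - (1 / (i : ℝ) - 1 / k) / (1 / i - 1 / m) * (1 / i - 1 / m) := by ring
    rw [this, div_mul_cancel₀ _ hd']
    ring

/-- Monotonicity of `β_k / (1 - 1/k)`. -/
theorem beta_ratio_mono {j k : ℕ} (hj : 2 ≤ j) (hjk : j ≤ k) :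
    beta j / (1 - 1 / (j : ℝ)) ≤ beta k / (1 - 1 / (k : ℝ)) := by
  have hj0 : (2 : ℝ) ≤ j := by exact_mod_cast hj
  have hjkr : (j : ℝ) ≤ k := by exact_mod_cast hjk
  have hk0 : (2 : ℝ) ≤ k := hj0.trans hjkr
  have q1 : 1 / (j : ℝ) ≤ 1 / 2 := one_div_le_one_div_of_le (by norm_num) hj0
  have q2 : 1 / (k : ℝ) ≤ 1 / j := one_div_le_one_div_of_le (by linarith) hjkr
  have hdj : 0 < 1 - 1 / (j : ℝ) := by linarith
  have hdk : 0 < 1 - 1 / (k : ℝ) := by linarith
  have h1 := beta_convex (i := 1) (j := j) (k := k) le_rfl (by omega) (by omega)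
    (t := (1 - 1 / (j : ℝ)) / (1 - 1 / k)) (div_nonneg hdj.le hdk.le)
    ((div_le_one hdk).2 (by linarith)) (by
      have : (1 - (1 - 1 / (j : ℝ)) / (1 - 1 / k)) * (1 / ((1 : ℕ) : ℝ)) +
          (1 - 1 / (j : ℝ)) / (1 - 1 / k) * (1 / k) =
          1 - (1 - 1 / (j : ℝ)) / (1 - 1 / k) * (1 - 1 / k) := by
        push_cast; ring
      rw [this, div_mul_cancel₀ _ hdk.ne']
      ring)
  rw [beta_one, mul_zero, zero_add] at h1
  rw [div_le_iff₀ hdj]
  refine h1.trans (le_of_eq ?_)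
  ring

end Pool.Agent.Lib.MP_bc6037_nt.Rec
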