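import Pool.Agent.Lib.MP_bc6037_nt.OneSided
import Pool.Agent.Lib.MP_bc6037_nt.ZetaPL

set_option autoImplicit false

/-!
Growth of `ζ` from convergence of the Mellin transform of `Err k P`, and the Lindelöf-type
consequences on the left of the critical line.
-/

open MeasureTheory Complex Filter Set
open scoped Nat Topology

namespace Pool.Agent.Lib.MP_bc6037_nt.Growth

open ZetaGrowth DeltaMellin MainPoly OneSided

/-- `‖Q P s‖ ≤ B/|Im s|` for `|Im s| ≥ 1`. -/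
lemma norm_Q_le (P : Polynomial ℝ) : ∃ B : ℝ, 0 ≤ B ∧ ∀ s : ℂ, 1 ≤ |s.im| →
    ‖Q P s‖ ≤ B / |s.im| := by
  refine ⟨∑ j ∈ P.support, |P.coeff j| * j !, Finset.sum_nonneg fun j _ => by positivity, ?_⟩
  intro s hs
  have h0 : 0 < |s.im| := by linarith
  have h1 : |s.im| ≤ ‖s - 1‖ := by
    have := Complex.abs_im_le_norm (s - 1)
    simpa using this
  unfold Q
  rw [Finset.sum_div]
  refine (norm_sum_le _ _).trans (Finset.sum_le_sum fun j _ => ?_)
  rw [norm_mul, norm_div, norm_pow, Complex.norm_real, Real.norm_eq_abs, Complex.norm_natCast,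
    mul_div_assoc]
  apply mul_le_mul_of_nonneg_left _ (abs_nonneg _)
  apply div_le_div_of_nonneg_left (Nat.cast_nonneg _) h0
  calc |s.im| ≤ ‖s - 1‖ := h1
    _ = ‖s - 1‖ ^ 1 := (pow_one _).symm
    _ ≤ ‖s - 1‖ ^ (j + 1) := pow_le_pow_right₀ (hs.trans h1) (by omega)

lemma norm_M_le {g : ℝ → ℝ} {σ : ℝ} (h : Conv g σ) {s : ℂ} (hs : σ ≤ s.re) :
    ‖M g s‖ ≤ ∫ x in Ioi (1 : ℝ), ‖g x * x ^ (-σ - 1)‖ := by
  unfold M
  apply norm_integral_le_of_norm_le h.norm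
  filter_upwards [ae_restrict_mem measurableSet_Ioi] with x hx
  have hx1 : (1 : ℝ) < x := hx
  have hx0 : (0 : ℝ) < x := by linarith
  rw [norm_mul, norm_mul, Complex.norm_real, Complex.norm_cpow_eq_rpow_re_of_pos hx0]
  apply mul_le_mul_of_nonneg_left _ (norm_nonneg _)
  rw [Real.norm_of_nonneg (Real.rpow_nonneg hx0.le _)]
  apply Real.rpow_le_rpow_of_exponent_le hx1.le
  simp
  linarith

/-- `|ζ(s)|^k ≤ C |s|` for `Re s ≥ σ₁`, `|Im s| ≥ 1`. -/
theorem zeta_pow_le {k : ℕ} {P : Polynomial ℝ} {Z : ℂ → ℂ}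
    (hZ : DifferentiableOn ℂ Z {s : ℂ | 0 < s.re})
    (hZ' : ∀ s : ℂ, 0 < s.re → s ≠ 1 → Z s = riemannZeta s ^ k / s - Q P s)
    {a : ℝ} (ha : 0 ≤ a) (hconv : ∀ σ, a < σ → Conv (Err k P) σ) {σ₁ : ℝ} (hσ₁ : a < σ₁) :
    ∃ C : ℝ, 0 ≤ C ∧ ∀ s : ℂ, σ₁ ≤ s.re → 1 ≤ |s.im| → ‖riemannZeta s‖ ^ k ≤ C * ‖s‖ := by
  obtain ⟨B, hB0, hB⟩ := norm_Q_le P
  refine ⟨(∫ x in Ioi (1 : ℝ), ‖Err k P x * x ^ (-σ₁ - 1)‖) + B, ?_, ?_⟩
  · have : 0 ≤ ∫ x in Ioi (1 : ℝ), ‖Err k P x * x ^ (-σ₁ - 1)‖ :=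
      integral_nonneg fun x => norm_nonneg _
    linarith
  · intro s hs hs'
    have hsa : a < s.re := by linarith
    have hs0 : 0 < s.re := by linarith
    have hs1 : s ≠ 1 := by
      intro h
      rw [h, Complex.one_im, abs_zero] at hs'
      linarith
    have hsne : s ≠ 0 := by
      intro h
      rw [h, Complex.zero_re] at hs0
      exact lt_irrefl _ hs0
    have h1 := M_eq_Z hZ hZ' ha hconv hsa
    have h2 := norm_M_le (hconv σ₁ hσ₁) hs
    have h3 : riemannZeta s ^ k / s = M (Err k P) s + Q P s := by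
      rw [h1, hZ' s hs0 hs1]; ring
    have h4 : ‖riemannZeta s ^ k / s‖ ≤
        (∫ x in Ioi (1 : ℝ), ‖Err k P x * x ^ (-σ₁ - 1)‖) + B := by
      rw [h3]
      refine (norm_add_le _ _).trans (add_le_add h2 ?_)
      refine (hB s hs').trans ?_
      exact div_le_self hB0 hs'
    rw [norm_div, norm_pow, div_le_iff₀ (norm_pos_iff.2 hsne)] at h4
    exact h4

lemma norm_zeta_two {s : ℂ} (hs : 2 ≤ s.re) :
    ‖riemannZeta s‖ ≤ ∑' n : ℕ, 1 / (n : ℝ) ^ (2 : ℝ) := by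
  have hs1 : 1 < s.re := by linarith
  rw [zeta_eq_tsum_one_div_nat_cpow hs1]
  have hsum : Summable fun n : ℕ => 1 / (n : ℝ) ^ (2 : ℝ) :=
    Real.summable_one_div_nat_rpow.2 (by norm_num)
  apply tsum_of_norm_bounded hsum.hasSum
  intro n
  rcases Nat.eq_zero_or_pos n with h | h
  · subst h
    have : s ≠ 0 := by
      intro h
      rw [h, Complex.zero_re] at hs
      linarith
    rw [Nat.cast_zero, Complex.zero_cpow this, div_zero, norm_zero, Nat.cast_zero]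
    positivity
  · have hn : (0 : ℝ) < n := by exact_mod_cast h
    have hn1 : (1 : ℝ) ≤ n := by exact_mod_cast h
    rw [norm_div, norm_one, ← Complex.ofReal_natCast, Complex.norm_cpow_eq_rpow_re_of_pos hn]
    apply one_div_le_one_div_of_le (Real.rpow_pos_of_pos hn _)
    exact Real.rpow_le_rpow_of_exponent_le hn1 hs

/-- `ζ(s) ≪ |t|^{1/k}` for `Re s ≥ σ₁`, `|Im s| ≥ 1`. -/
theorem zeta_le {k : ℕ} (hk : 1 ≤ k) {P : Polynomial ℝ} {Z : ℂ → ℂ}
    (hZ : DifferentiableOn ℂ Z {s : ℂ | 0 < s.re})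
    (hZ' : ∀ s : ℂ, 0 < s.re → s ≠ 1 → Z s = riemannZeta s ^ k / s - Q P s)
    {a : ℝ} (ha : 0 ≤ a) (hconv : ∀ σ, a < σ → Conv (Err k P) σ) {σ₁ : ℝ} (hσ₁ : a < σ₁) :
    ∃ C : ℝ, 0 ≤ C ∧ ∀ s : ℂ, σ₁ ≤ s.re → 1 ≤ |s.im| →
      ‖riemannZeta s‖ ≤ C * (1 + |s.im|) ^ (1 / k : ℝ) := by
  obtain ⟨C, hC0, hC⟩ := zeta_pow_le hZ hZ' ha hconv hσ₁
  have hk0 : (0 : ℝ) < k := by exact_mod_cast hk
  set B : ℝ := ∑' n : ℕ, 1 / (n : ℝ) ^ (2 : ℝ) with hB
  have hB0 : 0 ≤ B := tsum_nonneg fun n => by positivity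
  refine ⟨(C * 2) ^ (1 / k : ℝ) + B, by positivity, ?_⟩
  intro s hs hs'
  have h1 : 1 ≤ (1 + |s.im|) ^ (1 / k : ℝ) :=
    Real.one_le_rpow (by linarith) (by positivity)
  rw [add_mul]
  rcases le_or_gt s.re 2 with h | h
  · have h2 := hC s hs hs'
    have h3 : ‖s‖ ≤ 2 * (1 + |s.im|) := by
      refine (Complex.norm_le_abs_re_add_abs_im s).trans ?_
      rw [abs_of_pos (by linarith : 0 < s.re)]
      linarith
    have h4 : ‖riemannZeta s‖ = (‖riemannZeta s‖ ^ k) ^ (1 / k : ℝ) := by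
      rw [← Real.rpow_natCast, ← Real.rpow_mul (norm_nonneg _), mul_one_div_cancel hk0.ne',
        Real.rpow_one]
    have h5 : ‖riemannZeta s‖ ≤ (C * 2) ^ (1 / k : ℝ) * (1 + |s.im|) ^ (1 / k : ℝ) := by
      rw [h4, ← Real.mul_rpow (by positivity) (by positivity)]
      apply Real.rpow_le_rpow (by positivity) _ (by positivity)
      refine h2.trans ?_
      rw [mul_assoc]
      exact mul_le_mul_of_nonneg_left h3 hC0
    have : 0 ≤ B * (1 + |s.im|) ^ (1 / k : ℝ) := by positivity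
    linarith
  · have h2 := norm_zeta_two h.le
    have h3 : B ≤ B * (1 + |s.im|) ^ (1 / k : ℝ) := le_mul_of_one_le_right hB0 h1
    have : 0 ≤ (C * 2) ^ (1 / k : ℝ) * (1 + |s.im|) ^ (1 / k : ℝ) := by positivity
    linarith

/-- Lindelöf-type bound strictly to the right of the critical line. -/
def LH : Prop := ∀ η : ℝ, 0 < η → ∀ δ : ℝ, 0 < δ → ∃ C : ℝ, ∀ s : ℂ, 1 / 2 + η ≤ s.re →
  1 ≤ |s.im| → ‖riemannZeta s‖ ≤ C * (1 + |s.im|) ^ δ

/-- One-sided mean bounds for infinitely many `k` give `LH`. -/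
theorem lh_of_one_sided
    (h : ∀ ε : ℝ, 0 < ε → ∀ K : ℕ, ∃ k : ℕ, K ≤ k ∧ ∃ P : Polynomial ℝ, IsMainPoly k P ∧
      ∃ τ : ℝ, (τ = 1 ∨ τ = -1) ∧ ∃ C : ℝ, ∀ x : ℝ, 1 ≤ x →
        ∫ y in (1 : ℝ)..x, max (τ * Err k P y) 0 ≤ C * x ^ (3 / 2 + ε)) : LH := by
  intro η hη δ hδ
  obtain ⟨K, hK⟩ := exists_nat_gt (1 / δ)
  obtain ⟨k, hk, P, hP, τ, hτ, C, hC⟩ := h (η / 2) (by positivity) (max K 1)
  have hk1 : 1 ≤ k := (le_max_right _ _).trans hk
  have hkK : K ≤ k := (le_max_left _ _).trans hk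
  obtain ⟨Z, hZ, hZ'⟩ := IsMainPoly.continuation hP
  have hconv : ∀ σ, 1 / 2 + η / 2 < σ → Conv (Err k P) σ := by
    intro σ hσ
    refine conv_of_one_sided hZ hZ' hτ (a := 1 / 2 + η / 2) (C := C) (by positivity) ?_ hσ
    intro x hx
    have := hC x hx
    have e : (3 / 2 + η / 2 : ℝ) = 1 + (1 / 2 + η / 2) := by ring
    rwa [e] at this
  obtain ⟨C', hC'0, hC'⟩ := zeta_le hk1 hZ hZ' (a := 1 / 2 + η / 2) (by positivity) hconv
    (σ₁ := 1 / 2 + η) (by linarith)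
  refine ⟨C', fun s hs hs' => (hC' s hs hs').trans ?_⟩
  apply mul_le_mul_of_nonneg_left _ hC'0
  apply Real.rpow_le_rpow_of_exponent_le (by linarith)
  have hk0 : (0 : ℝ) < k := by exact_mod_cast hk1
  have hKk : (K : ℝ) ≤ k := by exact_mod_cast hkK
  rw [div_le_iff₀ hk0]
  rw [div_lt_iff₀ hδ] at hK
  nlinarith

/-- `LH` bounds `H` on a line `Re s = 1/2 + η`. -/
lemma H_line_of_LH (hLH : LH) {η δ : ℝ} (hη : 0 < η) (hη1 : η < 1 / 2) (hδ : 0 < δ) :
    ∃ C : ℝ, ∀ s : ℂ, s.re = 1 / 2 + η → ‖H s‖ ≤ C * (1 + |s.im|) ^ (1 + δ) := by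
  obtain ⟨C, hC⟩ := hLH η hη δ hδ
  have hK : IsCompact ((fun t : ℝ => (((1 / 2 + η : ℝ) : ℂ) + t * I : ℂ)) '' Icc (-1) 1) :=
    isCompact_Icc.image (by fun_prop)
  obtain ⟨B, hB⟩ := hK.exists_bound_of_continuousOn differentiable_H.continuous.continuousOn
  refine ⟨max C B, fun s hs => ?_⟩
  have hp : 0 ≤ (1 + |s.im|) ^ (1 + δ) := by positivity
  have hp1 : 1 ≤ (1 + |s.im|) ^ (1 + δ) := Real.one_le_rpow (by linarith [abs_nonneg s.im])
    (by linarith)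
  rcases le_or_gt 1 |s.im| with h | h
  · have hs1 : s ≠ 1 := by
      intro h'
      rw [h', Complex.one_im, abs_zero] at h
      linarith
    have h1 := hC s hs.ge h
    have h2 : ‖s - 1‖ ≤ 1 + |s.im| := by
      refine (Complex.norm_le_abs_re_add_abs_im _).trans ?_
      have e1 : (s - 1).re = η - 1 / 2 := by simp [hs]; ring
      have e2 : (s - 1).im = s.im := by simp
      rw [e1, e2]
      have : |η - 1 / 2| ≤ 1 := abs_le.2 ⟨by linarith, by linarith⟩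
      linarith
    rw [H_of_ne hs1, norm_mul]
    calc ‖s - 1‖ * ‖riemannZeta s‖ ≤ (1 + |s.im|) * (C * (1 + |s.im|) ^ δ) :=
          mul_le_mul h2 h1 (norm_nonneg _) (by positivity)
      _ = C * (1 + |s.im|) ^ (1 + δ) := by
          rw [Real.rpow_add (by positivity), Real.rpow_one]; ring
      _ ≤ max C B * (1 + |s.im|) ^ (1 + δ) := mul_le_mul_of_nonneg_right (le_max_left _ _) hp
  · have h3 : ‖H s‖ ≤ B := by
      apply hB
      refine ⟨s.im, ⟨by linarith [neg_abs_le s.im], by linarith [le_abs_self s.im]⟩, ?_⟩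
      simp only
      rw [← hs]
      exact Complex.re_add_im s
    have hB0 : 0 ≤ B := (norm_nonneg _).trans h3
    calc ‖H s‖ ≤ B := h3
      _ ≤ B * (1 + |s.im|) ^ (1 + δ) := le_mul_of_one_le_right hB0 hp1
      _ ≤ max C B * (1 + |s.im|) ^ (1 + δ) := mul_le_mul_of_nonneg_right (le_max_right _ _) hp

/-- Under `LH`, `ζ(s) ≪ |t|^q` uniformly for `Re s ≥ c`, for some `q < q₀`, provided
`1/2 - c < q₀`. -/
theorem zeta_left (hLH : LH) {c q₀ : ℝ} (hc : -1 < c) (hq₀ : 0 < q₀) (hcq : 1 / 2 - c < q₀) :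
    ∃ q : ℝ, 0 < q ∧ q < q₀ ∧ ∃ C : ℝ, 0 ≤ C ∧ ∀ s : ℂ, c ≤ s.re → 1 ≤ |s.im| →
      ‖riemannZeta s‖ ≤ C * (1 + |s.im|) ^ q := by
  -- choose `δ`
  have hcont : ContinuousAt (fun δ : ℝ => 5 / 2 + (1 + δ - 5 / 2) / (1 / 2 + δ - (-1)) * (c - (-1))) 0 := by
    apply ContinuousAt.add continuousAt_const
    apply ContinuousAt.mul _ continuousAt_const
    apply ContinuousAt.div (by fun_prop) (by fun_prop)
    norm_num
  have hval : (5 / 2 + (1 + (0 : ℝ) - 5 / 2) / (1 / 2 + 0 - (-1)) * (c - (-1))) < 1 + q₀ := by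
    norm_num
    linarith
  have h1 : ∀ᶠ δ : ℝ in 𝓝[>] 0,
      5 / 2 + (1 + δ - 5 / 2) / (1 / 2 + δ - (-1)) * (c - (-1)) < 1 + q₀ :=
    (hcont.tendsto.mono_left nhdsWithin_le_nhds).eventually (gt_mem_nhds hval)
  have h2 : ∀ᶠ δ : ℝ in 𝓝[>] 0, δ < min q₀ (1 / 2) :=
    nhdsWithin_le_nhds (gt_mem_nhds (by positivity))
  obtain ⟨δ, h3, h4, hδ⟩ := (h1.and (h2.and self_mem_nhdsWithin)).exists
  have hδ0 : 0 < δ := hδ
  have hδq : δ < q₀ := h4.trans_le (min_le_left _ _)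
  have hδ2 : δ < 1 / 2 := h4.trans_le (min_le_right _ _)
  obtain ⟨C₁, hC₁⟩ := H_line_of_LH hLH hδ0 hδ2 hδ0
  obtain ⟨C₂, hC₂⟩ := H_interp (σ₁ := 1 / 2 + δ) (a₁ := 1 + δ) (by linarith) (by linarith)
    (by linarith) hC₁
  obtain ⟨C₃, hC₃⟩ := hLH δ hδ0 δ hδ0
  set κ : ℝ := (1 + δ - 5 / 2) / (1 / 2 + δ - (-1)) with hκ
  have hκ0 : κ ≤ 0 := by
    rw [hκ]
    apply div_nonpos_of_nonpos_of_nonneg <;> linarith
  set E : ℝ := 5 / 2 + κ * (c - (-1)) with hE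
  set q : ℝ := max (E - 1) δ with hq
  have hq0 : 0 < q := hδ0.trans_le (le_max_right _ _)
  have hqq : q < q₀ := max_lt (by linarith) hδq
  refine ⟨q, hq0, hqq, 2 * |C₂| + |C₃|, by positivity, ?_⟩
  intro s hs hs'
  have ht : 1 ≤ 1 + |s.im| := by linarith
  have hp : 0 ≤ (1 + |s.im|) ^ q := by positivity
  rw [add_mul]
  rcases le_or_gt s.re (1 / 2 + δ) with h | h
  · have hs1 : s ≠ 1 := by
      intro h'
      rw [h', Complex.one_im, abs_zero] at hs'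
      linarith
    have h5 := hC₂ s (by linarith) h
    have h6 : (1 + |s.im|) ^ (5 / 2 + κ * (s.re - (-1))) ≤ (1 + |s.im|) ^ (1 + q) := by
      apply Real.rpow_le_rpow_of_exponent_le ht
      have h7 : κ * (s.re - (-1)) ≤ κ * (c - (-1)) :=
        mul_le_mul_of_nonpos_left (by linarith) hκ0
      have h8 : E - 1 ≤ q := le_max_left _ _
      linarith
    have h7 : ‖H s‖ ≤ |C₂| * (1 + |s.im|) ^ (1 + q) := by
      refine h5.trans ?_
      refine (mul_le_mul_of_nonneg_right (le_abs_self C₂) (by positivity)).trans ?_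
      exact mul_le_mul_of_nonneg_left h6 (abs_nonneg _)
    rw [H_of_ne hs1, norm_mul] at h7
    have h8 : |s.im| ≤ ‖s - 1‖ := by
      have := Complex.abs_im_le_norm (s - 1)
      simpa using this
    have h9 : |s.im| * ‖riemannZeta s‖ ≤ |C₂| * ((1 + |s.im|) * (1 + |s.im|) ^ q) := by
      rw [Real.rpow_add (by positivity), Real.rpow_one] at h7
      exact (mul_le_mul_of_nonneg_right h8 (norm_nonneg _)).trans h7
    have h10 : |s.im| * ‖riemannZeta s‖ ≤ |s.im| * (2 * |C₂| * (1 + |s.im|) ^ q) := by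
      refine h9.trans ?_
      have h11 : 1 + |s.im| ≤ 2 * |s.im| := by linarith
      have h12 : 0 ≤ |C₂| * (1 + |s.im|) ^ q := by positivity
      nlinarith
    have h11 := le_of_mul_le_mul_left h10 (by linarith)
    have h12 : 0 ≤ |C₃| * (1 + |s.im|) ^ q := by positivity
    linarith
  · have h5 := hC₃ s h.le hs'
    have h6 : (1 + |s.im|) ^ δ ≤ (1 + |s.im|) ^ q :=
      Real.rpow_le_rpow_of_exponent_le ht (le_max_right _ _)
    have h7 : ‖riemannZeta s‖ ≤ |C₃| * (1 + |s.im|) ^ q := by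
      refine h5.trans ?_
      refine (mul_le_mul_of_nonneg_right (le_abs_self C₃) (by positivity)).trans ?_
      exact mul_le_mul_of_nonneg_left h6 (abs_nonneg _)
    have h12 : 0 ≤ 2 * |C₂| * (1 + |s.im|) ^ q := by positivity
    linarith

/-- Decay of `Z_k` in `Re s ≥ c`. -/
theorem Z_decay {k : ℕ} {P : Polynomial ℝ} {Z : ℂ → ℂ}
    (hZ : DifferentiableOn ℂ Z {s : ℂ | 0 < s.re})
    (hZ' : ∀ s : ℂ, 0 < s.re → s ≠ 1 → Z s = riemannZeta s ^ k / s - Q P s)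
    {c q C : ℝ} (hc : 0 < c) (hq : 0 < q) (hC0 : 0 ≤ C)
    (hC : ∀ s : ℂ, c ≤ s.re → 1 ≤ |s.im| → ‖riemannZeta s‖ ≤ C * (1 + |s.im|) ^ q) :
    ∃ B : ℝ, 0 ≤ B ∧ ∀ s : ℂ, c ≤ s.re → ‖Z s‖ ≤ B * (1 + |s.im|) ^ (k * q - 1) := by
  obtain ⟨B₁, hB₁0, hB₁⟩ := norm_Q_le P
  -- compact part
  have hK : IsCompact (Icc c (max c 2) ×ℂ Icc (-1 : ℝ) 1) := isCompact_Icc.reProdIm isCompact_Icc
  obtain ⟨B₂, hB₂⟩ := hK.exists_bound_of_continuousOn (f := Z)
    (hZ.continuousOn.mono (by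
      intro s hs
      rw [Complex.mem_reProdIm] at hs
      exact lt_of_lt_of_le hc hs.1.1))
  -- right part
  set T : ℝ := ∑' n : ℕ, 1 / (n : ℝ) ^ (2 : ℝ) with hT
  have hT0 : 0 ≤ T := tsum_nonneg fun n => by positivity
  set B₃ : ℝ := T ^ k + ∑ j ∈ P.support, |P.coeff j| * j ! with hB₃
  have hB₃0 : 0 ≤ B₃ := add_nonneg (by positivity) (Finset.sum_nonneg fun j _ => by positivity)
  have hB₃' : ∀ s : ℂ, 2 ≤ s.re → ‖Z s‖ ≤ B₃ := by
    intro s hs
    have hs1 : s ≠ 1 := by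
      intro h
      rw [h, Complex.one_re] at hs
      linarith
    rw [hZ' s (by linarith) hs1]
    refine (norm_sub_le _ _).trans (add_le_add ?_ ?_)
    · rw [norm_div, norm_pow]
      have h1 : 1 ≤ ‖s‖ := by
        have := Complex.re_le_norm s
        linarith
      refine (div_le_self (by positivity) h1).trans ?_
      exact pow_le_pow_left₀ (norm_nonneg _) (norm_zeta_two hs) k
    · unfold Q
      refine (norm_sum_le _ _).trans (Finset.sum_le_sum fun j _ => ?_)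
      rw [norm_mul, norm_div, norm_pow, Complex.norm_real, Real.norm_eq_abs, Complex.norm_natCast]
      apply mul_le_mul_of_nonneg_left _ (abs_nonneg _)
      apply div_le_self (Nat.cast_nonneg _)
      apply one_le_pow₀
      have := Complex.re_le_norm (s - 1)
      simp at this
      linarith
  have hsmall : ∀ s : ℂ, c ≤ s.re → |s.im| ≤ 1 → ‖Z s‖ ≤ max B₂ B₃ := by
    intro s hs hs'
    rcases le_or_gt 2 s.re with h | h
    · exact (hB₃' s h).trans (le_max_right _ _)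
    · refine (hB₂ s ?_).trans (le_max_left _ _)
      rw [Complex.mem_reProdIm]
      exact ⟨⟨hs, h.le.trans (le_max_right _ _)⟩, abs_le.1 hs'⟩
  set m : ℝ := max B₂ B₃ with hm
  have hm0 : 0 ≤ m := hB₃0.trans (le_max_right _ _)
  have hkq : 0 ≤ k * q := by positivity
  refine ⟨2 * m + 2 * (C ^ k + B₁), by positivity, ?_⟩
  intro s hs
  have hpos : 0 < 1 + |s.im| := by positivity
  have hp : 0 ≤ (1 + |s.im|) ^ (k * q - 1) := by positivity
  have hpe : (1 + |s.im|) ^ (k * q - 1) = (1 + |s.im|) ^ (k * q) / (1 + |s.im|) :=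
    Real.rpow_sub_one hpos.ne' _
  have hone : 1 ≤ (1 + |s.im|) ^ (k * q) :=
    Real.one_le_rpow (by linarith [abs_nonneg s.im]) hkq
  rcases le_or_gt 1 |s.im| with h | h
  · have hs0 : 0 < s.re := by linarith
    have hs1 : s ≠ 1 := by
      intro h'
      rw [h', Complex.one_im, abs_zero] at h
      linarith
    have ht0 : 0 < |s.im| := by linarith
    have h1 : ‖Z s‖ ≤ (C ^ k * (1 + |s.im|) ^ (k * q) + B₁ * (1 + |s.im|) ^ (k * q)) / |s.im| := by
      rw [hZ' s hs0 hs1, add_div]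
      refine (norm_sub_le _ _).trans (add_le_add ?_ ?_)
      · rw [norm_div, norm_pow]
        have h2 : ‖riemannZeta s‖ ^ k ≤ C ^ k * (1 + |s.im|) ^ (k * q) := by
          refine (pow_le_pow_left₀ (norm_nonneg _) (hC s hs h) k).trans (le_of_eq ?_)
          rw [mul_pow]
          congr 1
          rw [← Real.rpow_natCast, ← Real.rpow_mul (by positivity)]
          congr 1
          ring
        have h3 : |s.im| ≤ ‖s‖ := Complex.abs_im_le_norm s
        exact div_le_div₀ (by positivity) h2 ht0 h3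
      · refine (hB₁ s h).trans ?_
        apply div_le_div_of_nonneg_right _ ht0.le
        exact le_mul_of_one_le_right hB₁0 hone
    have h4 : 1 / |s.im| ≤ 2 / (1 + |s.im|) := by
      rw [div_le_div_iff₀ ht0 hpos]
      linarith
    have h5 : ‖Z s‖ ≤ 2 * (C ^ k + B₁) * (1 + |s.im|) ^ (k * q - 1) := by
      rw [hpe]
      calc ‖Z s‖ ≤ (C ^ k * (1 + |s.im|) ^ (k * q) + B₁ * (1 + |s.im|) ^ (k * q)) / |s.im| := h1
        _ = (C ^ k + B₁) * (1 + |s.im|) ^ (k * q) * (1 / |s.im|) := by ring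
        _ ≤ (C ^ k + B₁) * (1 + |s.im|) ^ (k * q) * (2 / (1 + |s.im|)) :=
            mul_le_mul_of_nonneg_left h4 (by positivity)
        _ = 2 * (C ^ k + B₁) * ((1 + |s.im|) ^ (k * q) / (1 + |s.im|)) := by ring
    have h6 : 0 ≤ 2 * m * (1 + |s.im|) ^ (k * q - 1) := by positivity
    rw [add_mul]
    linarith
  · have h1 := hsmall s hs h.le
    have h2 : 1 / 2 ≤ (1 + |s.im|) ^ (k * q - 1) := by
      rw [hpe, div_le_div_iff₀ (by norm_num) hpos]
      nlinarith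
    have h3 : m ≤ 2 * m * (1 + |s.im|) ^ (k * q - 1) := by nlinarith
    have h4 : 0 ≤ 2 * (C ^ k + B₁) * (1 + |s.im|) ^ (k * q - 1) := by positivity
    rw [add_mul]
    linarith

end Pool.Agent.Lib.MP_bc6037_nt.Growth
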