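import Mathlib

set_option autoImplicit false

/-!
Landau's lemma for Laplace integrals of nonnegative measures.

If `μ` is a measure and `X ≥ 0`, the integral `∫ exp (-s X) dμ` converges for large `s` and agrees
there with a function holomorphic on `Re s > σ₀`, then it converges for all real `s > σ₀`.
-/

open MeasureTheory ProbabilityTheory Complex Filter Set
open scoped Nat ENNReal

namespace Pool.Agent.Lib.MP_bc6037_nt.Landau

variable {Ω : Type*} {m : MeasurableSpace Ω}

lemma integrable_exp_of_le {μ : Measure Ω} {X : Ω → ℝ} (hX : AEMeasurable X μ)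
    (hX0 : ∀ᵐ ω ∂μ, 0 ≤ X ω) {σ₁ σ : ℝ} (h : σ₁ ≤ σ)
    (hint : Integrable (fun ω => Real.exp (-σ₁ * X ω)) μ) :
    Integrable (fun ω => Real.exp (-σ * X ω)) μ := by
  refine hint.mono (by fun_prop) ?_
  filter_upwards [hX0] with ω hω
  rw [Real.norm_eq_abs, Real.norm_eq_abs, abs_of_pos (Real.exp_pos _), abs_of_pos (Real.exp_pos _)]
  apply Real.exp_le_exp.2
  nlinarith

/-- **Landau's lemma.** -/
theorem landau {μ : Measure Ω} {X : Ω → ℝ} (hX : AEMeasurable X μ) (hX0 : ∀ᵐ ω ∂μ, 0 ≤ X ω)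
    {σ₀ σ₁ : ℝ} {G : ℂ → ℂ}
    (hint : Integrable (fun ω => Real.exp (-σ₁ * X ω)) μ)
    (hG : DifferentiableOn ℂ G {s : ℂ | σ₀ < s.re})
    (hGF : ∀ s : ℂ, σ₁ < s.re → ∫ ω, cexp (-s * X ω) ∂μ = G s) (σ : ℝ) (hσ : σ₀ < σ) :
    Integrable (fun ω => Real.exp (-σ * X ω)) μ := by
  rcases le_or_gt σ₁ σ with h1 | h1
  · exact integrable_exp_of_le hX hX0 h1 hint
  set c : ℝ := σ₁ + 1 with hc
  have hcσ : 0 < c - σ := by rw [hc]; linarith
  -- the Laplace transform as a complex moment generating function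
  have hF : ∀ s : ℂ, σ₁ < s.re → complexMGF (-X) μ s = G s := by
    intro s hs
    rw [← hGF s hs, complexMGF]
    congr 1
    ext ω
    simp
  have hmem : (c : ℂ).re ∈ interior (integrableExpSet (-X) μ) := by
    rw [Complex.ofReal_re, mem_interior]
    refine ⟨Ioi σ₁, ?_, isOpen_Ioi, ?_⟩
    · intro t ht
      have ht' : σ₁ < t := ht
      show Integrable _ _
      have := integrable_exp_of_le hX hX0 ht'.le hint
      refine this.congr (ae_of_all _ fun ω => ?_)
      simp
    · show σ₁ < c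
      rw [hc]; linarith
  have hderiv : ∀ n : ℕ, iteratedDeriv n G c =
      ∫ ω, ((-X) ω : ℂ) ^ n * cexp (c * (-X) ω) ∂μ := by
    intro n
    rw [← iteratedDeriv_complexMGF hmem n]
    apply Filter.EventuallyEq.iteratedDeriv_eq
    have : {s : ℂ | σ₁ < s.re} ∈ nhds (c : ℂ) := by
      apply (isOpen_lt continuous_const Complex.continuous_re).mem_nhds
      show σ₁ < (c : ℂ).re
      rw [Complex.ofReal_re, hc]; linarith
    filter_upwards [this] with s hs
    exact (hF s hs).symm
  -- the real terms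
  set f : ℕ → Ω → ℝ := fun n ω => ((c - σ) * X ω) ^ n / n ! * Real.exp (-c * X ω) with hf
  have hfint : ∀ n, Integrable (f n) μ := by
    intro n
    have h2 := integrable_pow_mul_cexp_of_re_mem_interior_integrableExpSet hmem n
    have h3 : Integrable (fun ω => ((c - σ) ^ n / n !) * (((X ω) ^ n) * Real.exp (-c * X ω))) μ := by
      refine Integrable.const_mul ?_ _
      have h4 := h2.norm
      refine (h4.mono (by fun_prop) ?_)
      filter_upwards with ω
      simp [Complex.norm_exp]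
    refine h3.congr (ae_of_all _ fun ω => ?_)
    simp only [hf, mul_pow]
    ring
  have hfnn : ∀ n, ∀ᵐ ω ∂μ, 0 ≤ f n ω := by
    intro n
    filter_upwards [hX0] with ω hω
    simp only [hf]
    positivity
  have hterm : ∀ n : ℕ, ((n ! : ℂ)⁻¹ • ((σ : ℂ) - c) ^ n • iteratedDeriv n G c) =
      ((∫ ω, f n ω ∂μ : ℝ) : ℂ) := by
    intro n
    rw [hderiv n, ← integral_complex_ofReal, smul_eq_mul, smul_eq_mul, ← mul_assoc,
      ← integral_const_mul]
    congr 1
    ext ω
    simp only [hf, Pi.neg_apply]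
    push_cast
    have : cexp (c * -(X ω : ℂ)) = cexp (-c * X ω) := by congr 1; ring
    rw [this]
    have e : ((σ : ℂ) - c) ^ n * (-(X ω : ℂ)) ^ n = (((c : ℂ) - σ) * X ω) ^ n := by
      rw [← mul_pow]; congr 1; ring
    rw [← e]
    field_simp
  have hball : DifferentiableOn ℂ G (Metric.ball (c : ℂ) (c - σ₀)) := by
    refine hG.mono ?_
    intro s hs
    rw [Metric.mem_ball, dist_comm, dist_eq_norm] at hs
    have h5 := (Complex.re_le_norm ((c : ℂ) - s)).trans_lt hs
    simp only [Complex.sub_re, Complex.ofReal_re] at h5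
    show σ₀ < s.re
    linarith
  have hmemb : (σ : ℂ) ∈ Metric.ball (c : ℂ) (c - σ₀) := by
    rw [Metric.mem_ball, dist_eq_norm, ← Complex.ofReal_sub, Complex.norm_real, Real.norm_eq_abs,
      abs_sub_comm, abs_of_pos hcσ]
    linarith
  have hsum := Complex.hasSum_taylorSeries_on_ball hball hmemb
  have hsum' : Summable (fun n => ∫ ω, f n ω ∂μ) := by
    have h6 : Summable (fun n => ((∫ ω, f n ω ∂μ : ℝ) : ℂ)) := by
      refine hsum.summable.congr ?_
      intro n
      rw [← hterm n]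
    exact_mod_cast h6
  -- Tonelli
  have hlin : ∫⁻ ω, ENNReal.ofReal (Real.exp (-σ * X ω)) ∂μ =
      ∑' n, ENNReal.ofReal (∫ ω, f n ω ∂μ) := by
    have h7 : ∀ᵐ ω ∂μ, ENNReal.ofReal (Real.exp (-σ * X ω)) = ∑' n, ENNReal.ofReal (f n ω) := by
      filter_upwards [hX0] with ω hω
      have h8 : HasSum (fun n => f n ω) (Real.exp (-σ * X ω)) := by
        have h9 := NormedSpace.expSeries_div_hasSum_exp ((c - σ) * X ω)
        rw [← Real.exp_eq_exp_ℝ] at h9
        have h10 := h9.mul_right (Real.exp (-c * X ω))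
        rw [← Real.exp_add] at h10
        have : (c - σ) * X ω + -c * X ω = -σ * X ω := by ring
        rw [this] at h10
        exact h10
      have h11 : ∀ n, 0 ≤ f n ω := by
        intro n
        simp only [hf]
        positivity
      rw [← h8.tsum_eq, ENNReal.ofReal_tsum_of_nonneg h11 h8.summable]
    rw [lintegral_congr_ae h7, lintegral_tsum]
    · congr 1
      ext n
      rw [ofReal_integral_eq_lintegral_ofReal (hfint n) (hfnn n)]
    · intro n
      exact (hfint n).1.aemeasurable.ennreal_ofReal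
  refine ⟨by fun_prop, ?_⟩
  rw [hasFiniteIntegral_iff_ofReal (ae_of_all _ fun ω => (Real.exp_pos _).le), hlin]
  have h12 : ∀ n, 0 ≤ ∫ ω, f n ω ∂μ := fun n => integral_nonneg_of_ae (hfnn n)
  rw [← ENNReal.ofReal_tsum_of_nonneg h12 hsum']
  exact ENNReal.ofReal_lt_top

lemma exp_log_eq {x : ℝ} (hx : 0 < x) (s : ℂ) :
    ((x⁻¹ : ℝ) : ℂ) * cexp (-s * (Real.log x : ℂ)) = (x : ℂ) ^ (-s - 1) := by
  have hx' : (x : ℂ) ≠ 0 := by exact_mod_cast hx.ne'
  rw [Complex.cpow_sub _ _ hx', Complex.cpow_one, Complex.cpow_def_of_ne_zero hx',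
    ← Complex.ofReal_log hx.le]
  push_cast
  rw [mul_comm (-s), div_eq_mul_inv, mul_comm]

lemma exp_log_eq_real {x : ℝ} (hx : 0 < x) (σ : ℝ) :
    x⁻¹ * Real.exp (-σ * Real.log x) = x ^ (-σ - 1) := by
  rw [Real.rpow_sub_one hx.ne', Real.rpow_def_of_pos hx, mul_comm (-σ), div_eq_mul_inv, mul_comm]

/-- **Landau's lemma**, Mellin form, for a nonnegative function on `(1, ∞)`. -/
theorem landau_mellin {g : ℝ → ℝ} (hg : AEStronglyMeasurable g (volume.restrict (Ioi 1)))
    (hg0 : ∀ x, 1 < x → 0 ≤ g x) {σ₀ σ₁ : ℝ} {G : ℂ → ℂ}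
    (hint : IntegrableOn (fun x => g x * x ^ (-σ₁ - 1)) (Ioi 1))
    (hG : DifferentiableOn ℂ G {s : ℂ | σ₀ < s.re})
    (hGF : ∀ s : ℂ, σ₁ < s.re → ∫ x in Ioi (1 : ℝ), (g x : ℂ) * (x : ℂ) ^ (-s - 1) = G s)
    (σ : ℝ) (hσ : σ₀ < σ) : IntegrableOn (fun x => g x * x ^ (-σ - 1)) (Ioi 1) := by
  set f : ℝ → NNReal := fun x => (g x * x⁻¹).toNNReal with hf
  have hfm : AEMeasurable f (volume.restrict (Ioi 1)) := by
    apply AEMeasurable.real_toNNReal
    exact (hg.aemeasurable).mul (measurable_inv.aemeasurable)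
  set ν : Measure ℝ := (volume.restrict (Ioi 1)).withDensity (fun x => (f x : ENNReal)) with hν
  have hfx : ∀ x, 1 < x → (f x : ℝ) = g x * x⁻¹ := by
    intro x hx
    have : 0 ≤ g x * x⁻¹ := mul_nonneg (hg0 x hx) (inv_nonneg.2 (by linarith))
    simp only [hf]
    rw [Real.coe_toNNReal _ this]
  have key : ∀ τ : ℝ, Integrable (fun x => Real.exp (-τ * Real.log x)) ν ↔
      IntegrableOn (fun x => g x * x ^ (-τ - 1)) (Ioi 1) := by
    intro τ
    rw [hν, integrable_withDensity_iff_integrable_smul₀ hfm]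
    apply integrable_congr
    filter_upwards [ae_restrict_mem measurableSet_Ioi] with x hx
    have hx1 : (1 : ℝ) < x := hx
    have hx0 : (0 : ℝ) < x := by linarith
    rw [NNReal.smul_def, hfx x hx1, smul_eq_mul, mul_assoc, exp_log_eq_real hx0]
  have hX0 : ∀ᵐ x ∂ν, 0 ≤ Real.log x := by
    rw [hν]
    apply (withDensity_absolutelyContinuous _ _).ae_le
    filter_upwards [ae_restrict_mem measurableSet_Ioi] with x hx
    exact Real.log_nonneg (le_of_lt hx)
  rw [← key]
  refine landau (X := Real.log) (σ₁ := σ₁) (G := G) Real.measurable_log.aemeasurable hX0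
    ((key σ₁).2 hint) hG ?_ σ hσ
  intro s hs
  rw [← hGF s hs, hν, integral_withDensity_eq_integral_smul₀ hfm]
  apply integral_congr_ae
  filter_upwards [ae_restrict_mem measurableSet_Ioi] with x hx
  have hx1 : (1 : ℝ) < x := hx
  have hx0 : (0 : ℝ) < x := by linarith
  rw [← exp_log_eq hx0, NNReal.smul_def, hfx x hx1, Complex.real_smul]
  push_cast
  ring

end Pool.Agent.Lib.MP_bc6037_nt.Landau
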