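import Pool.Agent.Lib.MP_bc6037_nt.Exponents
import Pool.Agent.Lib.MP_bc6037_nt.Growth
import Pool.Agent.Lib.MP_bc6037_nt.Converse

set_option autoImplicit false

open MeasureTheory Complex Filter Set
open scoped Topology Nat

namespace Pool.Agent.Lib.MP_bc6037_nt.Limit

open ZetaGrowth DeltaMellin MainPoly Exponents OneSided Growth

/-- `meanExp g` is the infimum of the reals `a ≥ 0` such that `∫_1^x g ≪ x^(1+a)`. -/
noncomputable def meanExp (g : ℝ → ℝ) : ℝ :=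
  sInf {a : ℝ | 0 ≤ a ∧ ∃ C : ℝ, ∀ x : ℝ, 1 ≤ x → ∫ y in (1 : ℝ)..x, g y ≤ C * x ^ (1 + a)}

/-- The Lindelof abscissa: the infimum of the `σ > 0` such that `ζ(σ+it) = O(|t|^ε)` for every
`ε > 0`. -/
noncomputable def lindelofAbscissa : ℝ :=
  sInf {σ : ℝ | 0 < σ ∧ ∀ ε : ℝ, 0 < ε → ∃ C : ℝ, ∀ t : ℝ, 1 ≤ |t| →
    ‖riemannZeta (σ + t * I)‖ ≤ C * |t| ^ ε}

lemma measurable_Delta (k : ℕ) : Measurable (Delta k) := measurable_Err k _

lemma locInt_Delta (k : ℕ) (X : ℝ) : IntegrableOn (Delta k) (Ioc 1 X) := locInt_Err k _ X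

/-! ### The three mean exponents coincide -/

/-- A one-sided mean bound with exponent `a ≥ 0` gives a bound for `|Delta|` with any exponent
`> a`. -/
lemma abs_of_one_sided {k : ℕ} {τ : ℝ} (hτ : τ = 1 ∨ τ = -1) {a C : ℝ} (ha : 0 ≤ a)
    (hC : ∀ x : ℝ, 1 ≤ x → ∫ y in (1 : ℝ)..x, max (τ * Delta k y) 0 ≤ C * x ^ (1 + a))
    {a' : ℝ} (ha' : a < a') :
    ∃ C' : ℝ, ∀ x : ℝ, 1 ≤ x → ∫ y in (1 : ℝ)..x, |Delta k y| ≤ C' * x ^ (1 + a') := by
  obtain ⟨Z, hZ, hZ', _⟩ := mainPoly_data k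
  have h1 : Conv (Err k (mainPoly k)) a' := conv_of_one_sided hZ hZ' hτ ha hC ha'
  have h2 : Conv (fun y => |Delta k y|) a' := by
    unfold Conv at h1 ⊢
    have h3 : IntegrableOn (fun x => ‖Err k (mainPoly k) x * x ^ (-a' - 1)‖) (Ioi 1) := h1.norm
    refine h3.congr_fun ?_ measurableSet_Ioi
    intro x hx
    have hx0 : (0 : ℝ) < x := lt_trans zero_lt_one hx
    simp only [norm_mul, Real.norm_eq_abs, Delta]
    rw [abs_of_nonneg (Real.rpow_nonneg hx0.le _)]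
  exact mean_of_conv (fun x _ => abs_nonneg _) (fun X => (locInt_Delta k X).abs) (by linarith) h2

lemma meanExp_set_bdd (g : ℝ → ℝ) : BddBelow {a : ℝ | 0 ≤ a ∧ ∃ C : ℝ, ∀ x : ℝ, 1 ≤ x →
    ∫ y in (1 : ℝ)..x, g y ≤ C * x ^ (1 + a)} := ⟨0, fun _ h => h.1⟩

lemma meanExp_nonneg (g : ℝ → ℝ) : 0 ≤ meanExp g := Real.sInf_nonneg fun _ h => h.1

lemma intervalIntegrable_of_locInt {g : ℝ → ℝ} (h : ∀ X, IntegrableOn g (Ioc 1 X)) {x : ℝ}
    (hx : 1 ≤ x) : IntervalIntegrable g volume 1 x := by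
  rw [intervalIntegrable_iff_integrableOn_Ioc_of_le hx]
  exact h x

/-- monotonicity of `meanExp`, when the larger function has a finite exponent. -/
lemma meanExp_mono {f g : ℝ → ℝ} (hf : ∀ X, IntegrableOn f (Ioc 1 X))
    (hg : ∀ X, IntegrableOn g (Ioc 1 X)) (hfg : ∀ x, f x ≤ g x)
    (hne : {a : ℝ | 0 ≤ a ∧ ∃ C : ℝ, ∀ x : ℝ, 1 ≤ x →
      ∫ y in (1 : ℝ)..x, g y ≤ C * x ^ (1 + a)}.Nonempty) : meanExp f ≤ meanExp g := by
  apply csInf_le_csInf (meanExp_set_bdd f) hne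
  rintro a ⟨ha, C, hC⟩
  refine ⟨ha, C, fun x hx => le_trans ?_ (hC x hx)⟩
  exact intervalIntegral.integral_mono_on hx (intervalIntegrable_of_locInt hf hx)
    (intervalIntegrable_of_locInt hg hx) (fun y _ => hfg y)

lemma pointwise_to_mean {k : ℕ} {a C : ℝ} (ha : 0 ≤ a)
    (h : ∀ x : ℝ, 1 ≤ x → |Delta k x| ≤ C * x ^ a) :
    ∀ x : ℝ, 1 ≤ x → ∫ y in (1 : ℝ)..x, |Delta k y| ≤ C * x ^ (1 + a) := by
  intro x hx
  have hC : 0 ≤ C := by
    have h1 := h 1 le_rfl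
    rw [Real.one_rpow, mul_one] at h1
    exact (abs_nonneg _).trans h1
  have hx0 : (0 : ℝ) < x := by linarith
  calc ∫ y in (1 : ℝ)..x, |Delta k y| ≤ ∫ _y in (1 : ℝ)..x, C * x ^ a := by
        apply intervalIntegral.integral_mono_on hx
          (intervalIntegrable_of_locInt (fun X => (locInt_Delta k X).abs) hx)
          intervalIntegrable_const
        intro y hy
        refine (h y hy.1).trans (mul_le_mul_of_nonneg_left ?_ hC)
        exact Real.rpow_le_rpow (by linarith [hy.1]) hy.2 ha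
    _ = (x - 1) * (C * x ^ a) := by rw [intervalIntegral.integral_const, smul_eq_mul]
    _ ≤ x * (C * x ^ a) := by
        apply mul_le_mul_of_nonneg_right (by linarith) (by positivity)
    _ = C * x ^ (1 + a) := by
        rw [Real.rpow_add hx0, Real.rpow_one]; ring

/-- `a < 1` in the set of exponents of `|Delta k|`. -/
lemma exists_abs_mean (k : ℕ) : ∃ a : ℝ, 0 ≤ a ∧ a < 1 ∧ ∃ C : ℝ, ∀ x : ℝ, 1 ≤ x →
    ∫ y in (1 : ℝ)..x, |Delta k y| ≤ C * x ^ (1 + a) := by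
  obtain ⟨Z, hZ, hZ', a, ha, C, hC⟩ := mainPoly_data k
  have hC0 : 0 ≤ C := by
    have h1 := hC 1 le_rfl
    rw [Real.one_rpow, mul_one] at h1
    exact (abs_nonneg _).trans h1
  refine ⟨max a 0, le_max_right _ _, max_lt ha one_pos, C, ?_⟩
  apply pointwise_to_mean (le_max_right _ _)
  intro x hx
  exact (hC x hx).trans (mul_le_mul_of_nonneg_left
    (Real.rpow_le_rpow_of_exponent_le hx (le_max_left _ _)) hC0)

lemma abs_set_nonempty (k : ℕ) : {a : ℝ | 0 ≤ a ∧ ∃ C : ℝ, ∀ x : ℝ, 1 ≤ x →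
    ∫ y in (1 : ℝ)..x, |Delta k y| ≤ C * x ^ (1 + a)}.Nonempty := by
  obtain ⟨a, h0, _, C, hC⟩ := exists_abs_mean k
  exact ⟨a, h0, C, hC⟩

theorem meanExp_one_sided (k : ℕ) {τ : ℝ} (hτ : τ = 1 ∨ τ = -1) :
    meanExp (fun y => max (τ * Delta k y) 0) = meanExp (fun y => |Delta k y|) := by
  have hle : ∀ y, max (τ * Delta k y) 0 ≤ |Delta k y| := by
    intro y
    apply max_le _ (abs_nonneg _)
    rcases hτ with rfl | rfl
    · rw [one_mul]; exact le_abs_self _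
    · rw [neg_one_mul]; exact neg_le_abs _
  have hint : ∀ X, IntegrableOn (fun y => max (τ * Delta k y) 0) (Ioc 1 X) := by
    intro X
    exact Integrable.pos_part ((locInt_Delta k X).const_mul τ)
  have hintA : ∀ X, IntegrableOn (fun y => |Delta k y|) (Ioc 1 X) :=
    fun X => (locInt_Delta k X).abs
  apply le_antisymm
  · exact meanExp_mono hint hintA hle (abs_set_nonempty k)
  · -- the other inequality
    have hne : {a : ℝ | 0 ≤ a ∧ ∃ C : ℝ, ∀ x : ℝ, 1 ≤ x →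
        ∫ y in (1 : ℝ)..x, max (τ * Delta k y) 0 ≤ C * x ^ (1 + a)}.Nonempty := by
      obtain ⟨a, h0, C, hC⟩ := abs_set_nonempty k
      refine ⟨a, h0, C, fun x hx => le_trans ?_ (hC x hx)⟩
      exact intervalIntegral.integral_mono_on hx (intervalIntegrable_of_locInt hint hx)
        (intervalIntegrable_of_locInt hintA hx) (fun y _ => hle y)
    apply le_csInf hne
    rintro a ⟨ha, C, hC⟩
    apply le_of_forall_pos_le_add
    intro ε hε
    apply csInf_le (meanExp_set_bdd _)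
    exact ⟨by linarith, abs_of_one_sided hτ ha hC (by linarith)⟩

/-! ### Growth of zeta from the mean exponent, and the main inequality -/

/-- For `σ > meanExp |Delta k|`, `|ζ(σ+it)|^k ≤ C |t|`. -/
lemma zeta_of_meanExp {k : ℕ} {σ : ℝ} (hσ : meanExp (fun y => |Delta k y|) < σ) :
    ∃ C : ℝ, 0 ≤ C ∧ ∀ t : ℝ, 1 ≤ |t| → ‖riemannZeta (σ + t * I)‖ ^ k ≤ C * |t| := by
  obtain ⟨Z, hZ, hZ', _⟩ := mainPoly_data k
  obtain ⟨a, ⟨ha, C, hC⟩, haσ⟩ := exists_lt_of_csInf_lt (abs_set_nonempty k) hσ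
  have hconv : ∀ τ, a < τ → Conv (Err k (mainPoly k)) τ := by
    intro τ hτ
    refine conv_of_one_sided hZ hZ' (Or.inl rfl) ha (C := C) ?_ hτ
    intro x hx
    refine le_trans ?_ (hC x hx)
    refine intervalIntegral.integral_mono_on hx (intervalIntegrable_of_locInt ?_ hx)
        (intervalIntegrable_of_locInt (fun X => (locInt_Delta k X).abs) hx) (fun y _ => ?_)
    · intro X
      exact Integrable.pos_part ((locInt_Delta k X).const_mul 1)
    · rw [one_mul]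
      exact max_le (le_abs_self _) (abs_nonneg _)
  obtain ⟨C', hC'0, hC'⟩ := zeta_pow_le hZ hZ' ha hconv haσ
  refine ⟨C' * (1 + |σ|), by positivity, fun t ht => ?_⟩
  have h1 := hC' (σ + t * I) (by simp) (by simpa using ht)
  refine h1.trans ?_
  rw [mul_assoc]
  apply mul_le_mul_of_nonneg_left _ hC'0
  calc ‖(σ : ℂ) + t * I‖ ≤ ‖(σ : ℂ)‖ + ‖(t : ℂ) * I‖ := norm_add_le _ _
    _ = |σ| + |t| := by simp
    _ ≤ (1 + |σ|) * |t| := by nlinarith [abs_nonneg σ]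

/-- Nonnegativity of exponents: if `|Delta k|` has mean exponent bound `a < 0` we get a
contradiction (for every `k`). -/
lemma no_negative {k : ℕ} {a C : ℝ} (ha : a < 0)
    (hC : ∀ x : ℝ, 1 ≤ x → ∫ y in (1 : ℝ)..x, |Delta k y| ≤ C * x ^ (1 + a)) : False := by
  obtain ⟨Z, hZ, hZ', _⟩ := mainPoly_data k
  have hm : Measurable (fun y => |Delta k y|) := (measurable_Delta k).abs
  have h0 : Conv (fun y => |Delta k y|) 0 :=
    conv_of_mean hm (fun x _ => abs_nonneg _) (fun X => (locInt_Delta k X).abs) hC ha (by norm_num)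
  have h1 : Conv (Err k (mainPoly k)) 0 := by
    unfold Conv at h0 ⊢
    refine Integrable.mono' h0
      ((measurable_Delta k).mul (measurable_id.pow_const _)).aestronglyMeasurable ?_
    filter_upwards [ae_restrict_mem measurableSet_Ioi] with x hx
    have hx0 : (0 : ℝ) < x := lt_trans zero_lt_one hx
    rw [norm_mul, Real.norm_eq_abs, Real.norm_of_nonneg (Real.rpow_nonneg hx0.le _)]
    rfl
  have hconv : ∀ σ, (0 : ℝ) < σ → Conv (Err k (mainPoly k)) σ := fun σ hσ => h1.mono hσ.le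
  set B : ℝ := ∫ x in Ioi (1 : ℝ), ‖Err k (mainPoly k) x * x ^ (-(0 : ℝ) - 1)‖ with hB
  have hbd : ∀ σ : ℝ, 0 < σ → ‖Z σ‖ ≤ B := by
    intro σ hσ
    rw [← M_eq_Z hZ hZ' le_rfl hconv (s := (σ : ℂ)) (by simpa using hσ)]
    exact norm_M_le h1 (by simpa using hσ.le)
  -- `σ Z(σ) → 0`
  have h2 : Tendsto (fun σ : ℝ => (σ : ℂ) * Z σ) (𝓝[>] 0) (𝓝 0) := by
    apply squeeze_zero_norm' (a := fun σ : ℝ => σ * B)
    · filter_upwards [self_mem_nhdsWithin] with σ hσ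
      have hσ' : (0 : ℝ) < σ := hσ
      rw [norm_mul, Complex.norm_real, Real.norm_of_nonneg hσ'.le]
      exact mul_le_mul_of_nonneg_left (hbd σ hσ') hσ'.le
    · have h3 : Tendsto (fun σ : ℝ => σ * B) (𝓝 0) (𝓝 (0 * B)) :=
        (continuous_id.mul continuous_const).tendsto 0
      rw [zero_mul] at h3
      exact h3.mono_left nhdsWithin_le_nhds
  have h4 : Tendsto (fun σ : ℝ => riemannZeta σ ^ k - (σ : ℂ) * Q (mainPoly k) σ) (𝓝[>] 0)
      (𝓝 ((-1 / 2 : ℂ) ^ k)) := by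
    have hc : Tendsto (fun σ : ℝ => (σ : ℂ)) (𝓝[>] 0) (𝓝 0) := by
      have := (Complex.continuous_ofReal.tendsto (0 : ℝ)).mono_left
        (nhdsWithin_le_nhds (s := Ioi (0 : ℝ)))
      simpa using this
    have h5 : Tendsto (fun s : ℂ => riemannZeta s ^ k - s * Q (mainPoly k) s) (𝓝 0)
        (𝓝 (riemannZeta 0 ^ k - 0 * Q (mainPoly k) 0)) := by
      have c1 : ContinuousAt riemannZeta 0 :=
        (differentiableAt_riemannZeta (by norm_num)).continuousAt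
      have c2 : ContinuousAt (Q (mainPoly k)) 0 :=
        (differentiableAt_Q _ (by norm_num)).continuousAt
      exact ((c1.pow k).sub (continuousAt_id.mul c2)).tendsto
    rw [zero_mul, sub_zero, riemannZeta_zero] at h5
    exact h5.comp hc
  have h6 : Tendsto (fun σ : ℝ => (σ : ℂ) * Z σ) (𝓝[>] 0) (𝓝 ((-1 / 2 : ℂ) ^ k)) := by
    apply h4.congr'
    have h7 : ∀ᶠ σ : ℝ in 𝓝[>] 0, σ < 1 :=
      nhdsWithin_le_nhds (gt_mem_nhds one_pos)
    filter_upwards [self_mem_nhdsWithin, h7] with σ hσ hσ1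
    have hσ' : (0 : ℝ) < σ := hσ
    have hne : (σ : ℂ) ≠ 0 := by exact_mod_cast hσ'.ne'
    rw [hZ' σ (by simpa using hσ') (by exact_mod_cast hσ1.ne)]
    field_simp
  have h8 := tendsto_nhds_unique h2 h6
  have h9 : ((-1 / 2 : ℂ) ^ k) ≠ 0 := pow_ne_zero _ (by norm_num)
  exact h9 h8.symm

/-! ### Comparison with `beta` and `alpha` -/

lemma intervalIntegrable_Delta_sq (k : ℕ) {x : ℝ} (hx : 1 ≤ x) :
    IntervalIntegrable (fun t => (Delta k t) ^ 2) volume 1 x :=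
  Converse.intervalIntegrable_Err_sq k _ le_rfl hx

/-- From a mean-square bound to a mean bound. -/
lemma abs_of_sq {k : ℕ} {b C : ℝ}
    (hC : ∀ x : ℝ, 1 ≤ x → ∫ y in (1 : ℝ)..x, (Delta k y) ^ 2 ≤ C * x ^ (1 + 2 * b)) :
    ∃ C' : ℝ, ∀ x : ℝ, 1 ≤ x → ∫ y in (1 : ℝ)..x, |Delta k y| ≤ C' * x ^ (1 + b) := by
  refine ⟨(C + 1) / 2, fun x hx => ?_⟩
  have hx0 : 0 < x := by linarith
  have hint := intervalIntegrable_Delta_sq k hx
  have h1 : ∫ y in (1 : ℝ)..x, |Delta k y| ≤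
      ∫ y in (1 : ℝ)..x, (x ^ (-b) / 2 * (Delta k y) ^ 2 + x ^ b / 2) := by
    apply intervalIntegral.integral_mono_on hx
      (intervalIntegrable_of_locInt (fun X => (locInt_Delta k X).abs) hx)
      ((hint.const_mul _).add (by simp))
    intro y _
    have hpb : 0 < x ^ b := Real.rpow_pos_of_pos hx0 _
    have hpn : x ^ (-b) = (x ^ b)⁻¹ := Real.rpow_neg hx0.le b
    rw [hpn, ← sq_abs (Delta k y)]
    have h4 : (x ^ b)⁻¹ / 2 * |Delta k y| ^ 2 + x ^ b / 2 - |Delta k y| =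
        (x ^ b)⁻¹ / 2 * (|Delta k y| - x ^ b) ^ 2 := by
      field_simp
      ring
    have h5 : 0 ≤ (x ^ b)⁻¹ / 2 * (|Delta k y| - x ^ b) ^ 2 := by positivity
    linarith
  refine h1.trans ?_
  rw [intervalIntegral.integral_add (hint.const_mul _) (by simp),
    intervalIntegral.integral_const_mul, intervalIntegral.integral_const, smul_eq_mul]
  have h6 := hC x hx
  have hpn : 0 ≤ x ^ (-b) / 2 := by positivity
  have h7 : x ^ (-b) / 2 * ∫ y in (1 : ℝ)..x, (Delta k y) ^ 2 ≤ C / 2 * x ^ (1 + b) := by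
    refine (mul_le_mul_of_nonneg_left h6 hpn).trans (le_of_eq ?_)
    have e : x ^ (1 + b) = x ^ (-b) * x ^ (1 + 2 * b) := by
      rw [← Real.rpow_add hx0]
      congr 1
      ring
    rw [e]
    ring
  have h8 : (x - 1) * (x ^ b / 2) ≤ 1 / 2 * x ^ (1 + b) := by
    rw [Real.rpow_add hx0, Real.rpow_one]
    have : 0 ≤ x ^ b := by positivity
    nlinarith
  have e : (C + 1) / 2 * x ^ (1 + b) = C / 2 * x ^ (1 + b) + 1 / 2 * x ^ (1 + b) := by ring
  rw [e]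
  linarith

/-- From a pointwise bound to a mean-square bound. -/
lemma sq_of_pointwise {k : ℕ} {a C : ℝ} (ha : 0 ≤ a)
    (h : ∀ x : ℝ, 1 ≤ x → |Delta k x| ≤ C * x ^ a) :
    ∀ x : ℝ, 1 ≤ x → ∫ y in (1 : ℝ)..x, (Delta k y) ^ 2 ≤ C ^ 2 * x ^ (1 + 2 * a) := by
  intro x hx
  have hC : 0 ≤ C := by
    have h1 := h 1 le_rfl
    rw [Real.one_rpow, mul_one] at h1
    exact (abs_nonneg _).trans h1
  have hx0 : (0 : ℝ) < x := by linarith
  calc ∫ y in (1 : ℝ)..x, (Delta k y) ^ 2 ≤ ∫ _y in (1 : ℝ)..x, (C * x ^ a) ^ 2 := by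
        apply intervalIntegral.integral_mono_on hx (intervalIntegrable_Delta_sq k hx)
          intervalIntegrable_const
        intro y hy
        rw [← sq_abs]
        apply pow_le_pow_left₀ (abs_nonneg _)
        refine (h y hy.1).trans (mul_le_mul_of_nonneg_left ?_ hC)
        exact Real.rpow_le_rpow (by linarith [hy.1]) hy.2 ha
    _ = (x - 1) * (C * x ^ a) ^ 2 := by rw [intervalIntegral.integral_const, smul_eq_mul]
    _ ≤ x * (C * x ^ a) ^ 2 := by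
        apply mul_le_mul_of_nonneg_right (by linarith) (by positivity)
    _ = C ^ 2 * x ^ (1 + 2 * a) := by
        rw [Real.rpow_add hx0, Real.rpow_one, two_mul, Real.rpow_add hx0]; ring

/-! ### The sets defining `alpha` and `beta` -/

lemma alpha_set_nonneg {k : ℕ} {a C : ℝ} (h : ∀ x : ℝ, 1 ≤ x → |Delta k x| ≤ C * x ^ a) :
    0 ≤ a := by
  by_contra hneg
  rw [not_le] at hneg
  -- a < 0: then the bound `C x^{a'}`, with `a' = max a (-1/2)`, and integrate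
  have hC : 0 ≤ C := by
    have h1 := h 1 le_rfl
    rw [Real.one_rpow, mul_one] at h1
    exact (abs_nonneg _).trans h1
  set a' : ℝ := max a (-1 / 2) with ha'
  have h1 : a' < 0 := max_lt hneg (by norm_num)
  have h2 : -1 / 2 ≤ a' := le_max_right _ _
  refine no_negative (k := k) (C := C / (1 + a')) h1 ?_
  intro x hx
  have hx0 : (0 : ℝ) < x := by linarith
  calc ∫ y in (1 : ℝ)..x, |Delta k y| ≤ ∫ y in (1 : ℝ)..x, C * y ^ a' := by
        apply intervalIntegral.integral_mono_on hx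
          (intervalIntegrable_of_locInt (fun X => (locInt_Delta k X).abs) hx)
        · exact (intervalIntegral.intervalIntegrable_rpow' (by linarith)).const_mul _
        · intro y hy
          refine (h y hy.1).trans (mul_le_mul_of_nonneg_left ?_ hC)
          exact Real.rpow_le_rpow_of_exponent_le hy.1 (le_max_left _ _)
    _ = C * ((x ^ (a' + 1) - 1 ^ (a' + 1)) / (a' + 1)) := by
        rw [intervalIntegral.integral_const_mul, integral_rpow (Or.inl (by linarith))]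
    _ ≤ C / (1 + a') * x ^ (1 + a') := by
        rw [Real.one_rpow, add_comm a' 1]
        have h3 : 0 < 1 + a' := by linarith
        have h4 : C * ((x ^ (1 + a') - 1) / (1 + a')) = C / (1 + a') * (x ^ (1 + a') - 1) := by
          field_simp
        rw [h4]
        apply mul_le_mul_of_nonneg_left (by linarith) (by positivity)

lemma beta_set_nonneg {k : ℕ} {b C : ℝ}
    (hC : ∀ x : ℝ, 1 ≤ x → ∫ y in (1 : ℝ)..x, (Delta k y) ^ 2 ≤ C * x ^ (1 + 2 * b)) : 0 ≤ b := by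
  by_contra hneg
  rw [not_le] at hneg
  obtain ⟨C', hC'⟩ := abs_of_sq hC
  exact no_negative hneg hC'

lemma alpha_set_bdd (k : ℕ) :
    BddBelow {a : ℝ | ∃ C : ℝ, ∀ x : ℝ, 1 ≤ x → |Delta k x| ≤ C * x ^ a} :=
  ⟨0, fun _ ⟨_, h⟩ => alpha_set_nonneg h⟩

lemma beta_set_bdd (k : ℕ) : BddBelow {b : ℝ | ∃ C : ℝ, ∀ x : ℝ, 1 ≤ x →
    ∫ y in (1 : ℝ)..x, (Delta k y) ^ 2 ≤ C * x ^ (1 + 2 * b)} :=
  ⟨0, fun _ ⟨_, h⟩ => beta_set_nonneg h⟩

lemma alpha_set_nonempty (k : ℕ) : ∃ a : ℝ, a < 1 ∧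
    a ∈ {a : ℝ | ∃ C : ℝ, ∀ x : ℝ, 1 ≤ x → |Delta k x| ≤ C * x ^ a} := by
  obtain ⟨Z, hZ, hZ', a, ha, C, hC⟩ := mainPoly_data k
  exact ⟨a, ha, C, hC⟩

lemma alpha_lt_one (k : ℕ) : alpha k < 1 := by
  obtain ⟨a, ha, h⟩ := alpha_set_nonempty k
  exact (csInf_le (alpha_set_bdd k) h).trans_lt ha

lemma alpha_nonneg (k : ℕ) : 0 ≤ alpha k :=
  le_csInf (let ⟨a, _, h⟩ := alpha_set_nonempty k; ⟨a, h⟩) fun _ ⟨_, h⟩ => alpha_set_nonneg h

theorem beta_le_alpha (k : ℕ) : beta k ≤ alpha k := by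
  apply le_csInf (let ⟨a, _, h⟩ := alpha_set_nonempty k; ⟨a, h⟩)
  rintro a ⟨C, hC⟩
  exact csInf_le (beta_set_bdd k) ⟨C ^ 2, sq_of_pointwise (alpha_set_nonneg hC) hC⟩

lemma beta_set_nonempty (k : ℕ) : {b : ℝ | ∃ C : ℝ, ∀ x : ℝ, 1 ≤ x →
    ∫ y in (1 : ℝ)..x, (Delta k y) ^ 2 ≤ C * x ^ (1 + 2 * b)}.Nonempty := by
  obtain ⟨a, _, C, hC⟩ := alpha_set_nonempty k
  exact ⟨a, C ^ 2, sq_of_pointwise (alpha_set_nonneg hC) hC⟩

theorem meanExp_le_beta (k : ℕ) : meanExp (fun y => |Delta k y|) ≤ beta k := by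
  apply le_csInf (beta_set_nonempty k)
  rintro b ⟨C, hC⟩
  exact csInf_le (meanExp_set_bdd _) ⟨beta_set_nonneg hC, abs_of_sq hC⟩

/-- From growth on one line to `alpha`. -/
lemma alpha_le_of_growth {j : ℕ} {σ m : ℝ} (h0 : 0 < σ) (h1 : σ < 1) (hm : 0 ≤ m)
    (h : ∃ C : ℝ, ∀ t : ℝ, 1 ≤ |t| → ‖riemannZeta (σ + t * I)‖ ^ j ≤ C * |t| ^ m) :
    alpha j ≤ 1 - (1 - σ) / (1 + m) := by
  obtain ⟨Z, hZ, hZ', _⟩ := mainPoly_data j
  apply le_of_forall_pos_le_add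
  intro ε hε
  obtain ⟨C, hC⟩ := Perron.perron_bound hZ hZ' h0 h1 hm h hε
  exact csInf_le (alpha_set_bdd j) ⟨C, hC⟩

/-- **The main inequality.** -/
theorem alpha_le {j k : ℕ} (hk : 1 ≤ k) :
    alpha j ≤ (k * meanExp (fun y => |Delta k y|) + j) / (k + j) := by
  set γ := meanExp (fun y => |Delta k y|) with hγ
  have hk0 : (0 : ℝ) < k := by exact_mod_cast hk
  have hj0 : (0 : ℝ) ≤ j := Nat.cast_nonneg j
  have hγ0 : 0 ≤ γ := meanExp_nonneg _
  have hγ1 : γ < 1 := (meanExp_le_beta k).trans_lt ((beta_le_alpha k).trans_lt (alpha_lt_one k))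
  apply le_of_forall_pos_le_add
  intro ε hε
  -- choose σ in (γ, min(1, γ+ε))
  set σ : ℝ := γ + min ε (1 - γ) / 2 with hσ
  have hmin : 0 < min ε (1 - γ) := lt_min hε (by linarith)
  have hσγ : γ < σ := by rw [hσ]; linarith
  have hσ0 : 0 < σ := by linarith
  have hσ1 : σ < 1 := by
    rw [hσ]
    have := min_le_right ε (1 - γ)
    linarith
  have hσε : σ ≤ γ + ε := by
    rw [hσ]
    have := min_le_left ε (1 - γ)
    linarith
  obtain ⟨C, hC0, hC⟩ := zeta_of_meanExp hσγ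
  have h1 : ∃ C : ℝ, ∀ t : ℝ, 1 ≤ |t| →
      ‖riemannZeta (σ + t * I)‖ ^ j ≤ C * |t| ^ ((j : ℝ) / k) := by
    refine ⟨C ^ ((j : ℝ) / k), fun t ht => ?_⟩
    have h2 := hC t ht
    have ht0 : (0 : ℝ) ≤ |t| := abs_nonneg t
    rw [← Real.mul_rpow hC0 ht0]
    have h3 : (‖riemannZeta (σ + t * I)‖ ^ k) ^ ((j : ℝ) / k) = ‖riemannZeta (σ + t * I)‖ ^ j := by
      rw [← Real.rpow_natCast, ← Real.rpow_mul (norm_nonneg _), mul_div_cancel₀ _ hk0.ne',
        Real.rpow_natCast]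
    rw [← h3]
    exact Real.rpow_le_rpow (by positivity) h2 (by positivity)
  have h2 := alpha_le_of_growth hσ0 hσ1 (by positivity) h1
  refine h2.trans ?_
  have e1 : 1 - (1 - σ) / (1 + (j : ℝ) / k) = (k * σ + j) / (k + j) := by
    have : (k : ℝ) + j ≠ 0 := by positivity
    field_simp
    ring
  rw [e1]
  have hkj : (0 : ℝ) < k + j := by positivity
  rw [div_le_iff₀ hkj, add_mul, div_mul_cancel₀ _ hkj.ne']
  nlinarith

/-! ### Identification of the limit -/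

lemma lindelof_set_bdd : BddBelow {σ : ℝ | 0 < σ ∧ ∀ ε : ℝ, 0 < ε → ∃ C : ℝ, ∀ t : ℝ, 1 ≤ |t| →
    ‖riemannZeta (σ + t * I)‖ ≤ C * |t| ^ ε} := ⟨0, fun _ h => h.1.le⟩

lemma two_mem_lindelof : (2 : ℝ) ∈ {σ : ℝ | 0 < σ ∧ ∀ ε : ℝ, 0 < ε → ∃ C : ℝ, ∀ t : ℝ, 1 ≤ |t| →
    ‖riemannZeta (σ + t * I)‖ ≤ C * |t| ^ ε} := by
  refine ⟨by norm_num, fun ε hε => ⟨∑' n : ℕ, 1 / (n : ℝ) ^ (2 : ℝ), fun t ht => ?_⟩⟩
  have h1 := norm_zeta_two (s := ((2 : ℝ) : ℂ) + t * I) (by simp)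
  refine h1.trans ?_
  have h2 : 0 ≤ ∑' n : ℕ, 1 / (n : ℝ) ^ (2 : ℝ) := tsum_nonneg fun n => by positivity
  exact le_mul_of_one_le_right h2 (Real.one_le_rpow ht hε.le)

theorem alpha_le_lindelof (j : ℕ) : alpha j ≤ lindelofAbscissa := by
  apply le_csInf ⟨2, two_mem_lindelof⟩
  rintro σ ⟨hσ, h⟩
  rcases le_or_gt 1 σ with h1 | h1
  · exact (alpha_lt_one j).le.trans h1
  apply le_of_forall_pos_le_add
  intro δ hδ
  -- m = j ε with ε = δ / (j+1)
  set ε : ℝ := δ / (j + 1) with hε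
  have hj0 : (0 : ℝ) ≤ j := Nat.cast_nonneg j
  have hε0 : 0 < ε := by positivity
  obtain ⟨C, hC⟩ := h ε hε0
  have h2 : ∃ C : ℝ, ∀ t : ℝ, 1 ≤ |t| →
      ‖riemannZeta (σ + t * I)‖ ^ j ≤ C * |t| ^ (ε * j) := by
    refine ⟨C ^ j, fun t ht => ?_⟩
    calc ‖riemannZeta (σ + t * I)‖ ^ j ≤ (C * |t| ^ ε) ^ j :=
          pow_le_pow_left₀ (norm_nonneg _) (hC t ht) j
      _ = C ^ j * |t| ^ (ε * j) := by
          rw [mul_pow, ← Real.rpow_natCast (|t| ^ ε) j, ← Real.rpow_mul (abs_nonneg t)]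
  have h3 := alpha_le_of_growth hσ h1 (by positivity) h2
  refine h3.trans ?_
  have h4 : ε * j ≤ δ := by
    rw [hε, div_mul_eq_mul_div, div_le_iff₀ (by positivity)]
    nlinarith
  have h5 : 0 ≤ ε * j := by positivity
  have h6 : (1 - σ) * (1 - ε * j) ≤ (1 - σ) / (1 + ε * j) := by
    rw [le_div_iff₀ (by positivity)]
    nlinarith [mul_nonneg (by linarith : (0 : ℝ) ≤ 1 - σ) (mul_nonneg h5 h5)]
  nlinarith

/-- if `alpha j ≤ b` for all `j` (or for arbitrarily large `j` in fact) then `L ≤ b`. -/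
theorem lindelof_le {b : ℝ} (h : ∀ j : ℕ, alpha j ≤ b) : lindelofAbscissa ≤ b := by
  apply le_of_forall_pos_le_add
  intro δ hδ
  apply csInf_le lindelof_set_bdd
  have hb : 0 ≤ b := (alpha_nonneg 0).trans (h 0)
  refine ⟨by linarith, fun ε hε => ?_⟩
  obtain ⟨k, hk⟩ := exists_nat_gt (1 / ε)
  have hk0 : (0 : ℝ) < k := lt_trans (by positivity) hk
  have hk1 : 1 ≤ k := by
    have : 0 < k := by exact_mod_cast hk0
    omega
  have hkε : 1 / (k : ℝ) ≤ ε := by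
    rw [div_le_iff₀ hk0]
    rw [div_lt_iff₀ hε] at hk
    linarith
  have hlt : meanExp (fun y => |Delta k y|) < b + δ :=
    ((meanExp_le_beta k).trans ((beta_le_alpha k).trans (h k))).trans_lt (by linarith)
  obtain ⟨C, hC0, hC⟩ := zeta_of_meanExp hlt
  refine ⟨C ^ (1 / (k : ℝ)), fun t ht => ?_⟩
  have h2 := hC t ht
  have h3 : (‖riemannZeta (((b + δ : ℝ) : ℂ) + t * I)‖ ^ k) ^ (1 / (k : ℝ)) =
      ‖riemannZeta (((b + δ : ℝ) : ℂ) + t * I)‖ := by
    rw [← Real.rpow_natCast, ← Real.rpow_mul (norm_nonneg _), mul_one_div_cancel hk0.ne',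
      Real.rpow_one]
  rw [← h3]
  calc _ ≤ (C * |t|) ^ (1 / (k : ℝ)) := Real.rpow_le_rpow (by positivity) h2 (by positivity)
    _ = C ^ (1 / (k : ℝ)) * |t| ^ (1 / (k : ℝ)) := Real.mul_rpow hC0 (abs_nonneg t)
    _ ≤ C ^ (1 / (k : ℝ)) * |t| ^ ε := by
        apply mul_le_mul_of_nonneg_left _ (by positivity)
        exact Real.rpow_le_rpow_of_exponent_le ht hkε

/-- lower bound: `meanExp ≥ alpha j - (j/k)(1 - alpha j)`. -/
lemma meanExp_ge (j : ℕ) {k : ℕ} (hk : 1 ≤ k) :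
    alpha j - (j / k) * (1 - alpha j) ≤ meanExp (fun y => |Delta k y|) := by
  have h := alpha_le (j := j) hk
  have hk0 : (0 : ℝ) < k := by exact_mod_cast hk
  have hj0 : (0 : ℝ) ≤ j := Nat.cast_nonneg j
  rw [le_div_iff₀ (by positivity)] at h
  have h2 : k * (alpha j - (j / k) * (1 - alpha j)) ≤ k * meanExp (fun y => |Delta k y|) := by
    have e : k * (alpha j - (j / k) * (1 - alpha j)) = alpha j * (k + j) - j := by
      field_simp
      ring
    rw [e]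
    linarith
  exact le_of_mul_le_mul_left h2 hk0

theorem tendsto_of_squeeze {f : ℕ → ℝ} (h1 : ∀ k, meanExp (fun y => |Delta k y|) ≤ f k)
    (h2 : ∀ k, f k ≤ alpha k) : Tendsto f atTop (𝓝 lindelofAbscissa) := by
  rw [Metric.tendsto_atTop]
  intro ε hε
  -- some `j` with `alpha j > L - ε/2`
  have h3 : ∃ j : ℕ, lindelofAbscissa - ε / 2 < alpha j := by
    by_contra hcon
    push Not at hcon
    have := lindelof_le hcon
    linarith
  obtain ⟨j, hj⟩ := h3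
  obtain ⟨N, hN⟩ := exists_nat_gt ((j : ℝ) / (ε / 2))
  refine ⟨max N 1, fun k hk => ?_⟩
  have hk1 : 1 ≤ k := le_trans (le_max_right _ _) hk
  have hkN : (N : ℝ) ≤ k := by exact_mod_cast le_trans (le_max_left _ _) hk
  have hk0 : (0 : ℝ) < k := by exact_mod_cast hk1
  have h4 := meanExp_ge j hk1
  have h5 : (j : ℝ) / k ≤ ε / 2 := by
    rw [div_lt_iff₀ (by positivity)] at hN
    rw [div_le_iff₀ hk0]
    nlinarith
  have h6 : (j : ℝ) / k * (1 - alpha j) ≤ ε / 2 := by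
    have h7 := alpha_nonneg j
    have h8 : 0 ≤ (j : ℝ) / k := by positivity
    have h9 := alpha_lt_one j
    nlinarith
  have h10 := h1 k
  have h11 := (h2 k).trans (alpha_le_lindelof k)
  rw [Real.dist_eq, abs_lt]
  constructor
  · have h12 : lindelofAbscissa - ε / 2 - ε / 2 < alpha j - (j / k) * (1 - alpha j) := by linarith
    linarith
  · linarith

end Pool.Agent.Lib.MP_bc6037_nt.Limit
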