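import Pool.Agent.Lib.MP_bc6037_nt.OneSided
import Pool.Agent.Lib.MP_bc6037_nt.HoloInt

set_option autoImplicit false

/-!
Parseval for the Mellin transform of `Err k P`.
-/

open MeasureTheory Complex Filter Set Metric
open scoped Topology FourierTransform Convolution

namespace Pool.Agent.Lib.MP_bc6037_nt.ParsevalErr

open ZetaGrowth DeltaMellin MainPoly OneSided HoloInt

lemma continuousAt_D (k : ℕ) {x : ℝ} (hx : ∀ n : ℕ, x ≠ n) : ContinuousAt (D k) x := by
  rcases lt_or_ge x 0 with h0 | h0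
  · have h1 : D k =ᶠ[𝓝 x] fun _ => D k 0 := by
      filter_upwards [gt_mem_nhds h0] with y hy
      unfold D
      rw [Nat.floor_of_nonpos hy.le, Nat.floor_zero]
    exact h1.continuousAt
  · have h2 : (⌊x⌋₊ : ℝ) < x := lt_of_le_of_ne (Nat.floor_le h0) (hx _).symm
    have h3 : x < ⌊x⌋₊ + 1 := Nat.lt_floor_add_one x
    have h1 : D k =ᶠ[𝓝 x] fun _ => D k x := by
      filter_upwards [Ioo_mem_nhds h2 h3] with y hy
      unfold D
      have : ⌊y⌋₊ = ⌊x⌋₊ := by
        rw [Nat.floor_eq_iff (by linarith [hy.1, Nat.cast_nonneg (α := ℝ) ⌊x⌋₊])]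
        exact ⟨hy.1.le, hy.2⟩
      rw [this]
    exact h1.continuousAt

lemma continuousAt_Err (k : ℕ) (P : Polynomial ℝ) {x : ℝ} (hx0 : x ≠ 0) (hx : ∀ n : ℕ, x ≠ n) :
    ContinuousAt (Err k P) x := by
  unfold Err
  apply (continuousAt_D k hx).sub
  apply continuousAt_id.mul
  exact ContinuousAt.comp (g := fun u => P.eval u) P.continuous.continuousAt
    (Real.continuousAt_log hx0)

/-- The Fourier-side function. -/
noncomputable def ff (k : ℕ) (P : Polynomial ℝ) (s : ℂ) : ℝ → ℂ :=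
  (Ioi (0 : ℝ)).indicator (fun y => (Err k P (Real.exp y) : ℂ) * cexp (-s * y))

lemma smul_exp_eq (k : ℕ) (P : Polynomial ℝ) (s : ℂ) (y : ℝ) :
    Real.exp y • ((Err k P (Real.exp y) : ℂ) * ((Real.exp y : ℝ) : ℂ) ^ (-s - 1)) =
      (Err k P (Real.exp y) : ℂ) * cexp (-s * y) := by
  rw [exp_cpow, Complex.real_smul, Complex.ofReal_exp]
  have : cexp (-s * y) = cexp y * cexp ((-s - 1) * y) := by
    rw [← Complex.exp_add]; congr 1; ring
  rw [this]
  ring

lemma integrable_ff (k : ℕ) (P : Polynomial ℝ) {s : ℂ} (hs : 1 < s.re) : Integrable (ff k P s) := by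
  unfold ff
  rw [integrable_indicator_iff measurableSet_Ioi]
  have h1 := (integrableOn_Ioi_one _).1 (integrableOn_Err k P hs)
  refine h1.congr_fun ?_ measurableSet_Ioi
  intro y _
  exact smul_exp_eq k P s y

lemma bound_ff (k : ℕ) (P : Polynomial ℝ) {s : ℂ} (hs : 1 < s.re) :
    ∃ B : ℝ, ∀ y, ‖ff k P s y‖ ≤ B := by
  obtain ⟨C, hC0, hC⟩ := Err_le k P hs
  refine ⟨C, fun y => ?_⟩
  unfold ff
  by_cases hy : y ∈ Ioi (0 : ℝ)
  · rw [indicator_of_mem hy, norm_mul, Complex.norm_real, Complex.norm_exp]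
    have hy' : (0 : ℝ) < y := hy
    have h1 := hC (Real.exp y) (Real.one_le_exp hy'.le)
    have e : (-s * (y : ℂ)).re = -(s.re * y) := by simp
    rw [e, Real.norm_eq_abs]
    have h2 : (Real.exp y) ^ s.re = Real.exp (s.re * y) := by
      rw [← Real.exp_mul, mul_comm]
    rw [h2] at h1
    calc |Err k P (Real.exp y)| * Real.exp (-(s.re * y)) ≤
        C * Real.exp (s.re * y) * Real.exp (-(s.re * y)) :=
          mul_le_mul_of_nonneg_right h1 (Real.exp_pos _).le
      _ = C := by rw [mul_assoc, ← Real.exp_add]; simp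
  · rw [indicator_of_notMem hy, norm_zero]
    exact hC0

lemma ae_continuousAt_ff (k : ℕ) (P : Polynomial ℝ) (s : ℂ) :
    ∀ᵐ y : ℝ, ContinuousAt (ff k P s) y := by
  set S : Set ℝ := insert 0 (range fun n : ℕ => Real.log n) with hS
  have hS' : S.Countable := (countable_range _).insert _
  have h1 : ∀ᵐ y : ℝ, y ∉ S := (hS'.ae_notMem _)
  filter_upwards [h1] with y hy
  have hy0 : y ≠ 0 := fun h => hy (by rw [h]; exact mem_insert _ _)
  rcases lt_or_gt_of_ne hy0 with h | h
  · have h2 : ff k P s =ᶠ[𝓝 y] fun _ => 0 := by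
      filter_upwards [gt_mem_nhds h] with z hz
      unfold ff
      rw [indicator_of_notMem]
      exact fun h' => absurd (mem_Ioi.1 h') (not_lt.2 (le_of_lt hz))
    exact h2.continuousAt
  · have h2 : ff k P s =ᶠ[𝓝 y] fun y => (Err k P (Real.exp y) : ℂ) * cexp (-s * y) := by
      filter_upwards [lt_mem_nhds h] with z hz
      unfold ff
      rw [indicator_of_mem]
      exact hz
    rw [continuousAt_congr h2]
    apply ContinuousAt.mul
    · apply Complex.continuous_ofReal.continuousAt.comp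
      apply ContinuousAt.comp (g := Err k P) _ Real.continuous_exp.continuousAt
      apply continuousAt_Err k P (Real.exp_pos y).ne'
      intro n hn
      apply hy
      apply mem_insert_of_mem
      refine ⟨n, ?_⟩
      simp only
      rw [← hn, Real.log_exp]
    · exact (by fun_prop : Continuous fun y : ℝ => cexp (-s * y)).continuousAt

lemma fourier_ff (k : ℕ) (P : Polynomial ℝ) (s : ℂ) (ξ : ℝ) :
    𝓕 (ff k P s) ξ = M (Err k P) (s + 2 * Real.pi * ξ * I) := by
  rw [Real.fourier_real_eq_integral_exp_smul, M, integral_Ioi_one]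
  simp only [smul_exp_eq]
  rw [← integral_indicator measurableSet_Ioi]
  congr 1
  ext y
  unfold ff
  by_cases hy : y ∈ Ioi (0 : ℝ)
  · rw [indicator_of_mem hy, indicator_of_mem hy, smul_eq_mul, mul_left_comm, ← Complex.exp_add]
    congr 2
    push_cast
    ring
  · rw [indicator_of_notMem hy, indicator_of_notMem hy, smul_zero]

/-- Parseval: `∫_1^∞ Err² x^{-2s-1} dx = ∫ Z(s + 2πiξ) Z(s - 2πiξ) dξ`, `Re s > 1`. -/
theorem parseval_Err (k : ℕ) (P : Polynomial ℝ) {s : ℂ} (hs : 1 < s.re)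
    (hint : Integrable (fun ξ : ℝ => M (Err k P) (s + 2 * Real.pi * ξ * I) *
      M (Err k P) (s - 2 * Real.pi * ξ * I))) :
    M (fun x => (Err k P x) ^ 2) (2 * s) = ∫ ξ : ℝ, M (Err k P) (s + 2 * Real.pi * ξ * I) *
      M (Err k P) (s - 2 * Real.pi * ξ * I) := by
  obtain ⟨B, hB⟩ := bound_ff k P hs
  have e : ∀ ξ : ℝ, 𝓕 (ff k P s) ξ * 𝓕 (ff k P s) (-ξ) =
      M (Err k P) (s + 2 * Real.pi * ξ * I) * M (Err k P) (s - 2 * Real.pi * ξ * I) := by
    intro ξ
    rw [fourier_ff, fourier_ff]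
    congr 2
    push_cast
    ring
  have h := parseval (integrable_ff k P hs) hB (ae_continuousAt_ff k P s)
    (by simpa only [e] using hint)
  simp only [e] at h
  rw [← h, M, integral_Ioi_one, ← integral_indicator measurableSet_Ioi]
  congr 1
  ext y
  unfold ff
  by_cases hy : y ∈ Ioi (0 : ℝ)
  · rw [indicator_of_mem hy, indicator_of_mem hy, exp_cpow, Complex.real_smul]
    have e1 : cexp ((-(2 * s) - 1) * y) * ((Real.exp y : ℝ) : ℂ) = cexp (-s * y) * cexp (-s * y) := by
      rw [Complex.ofReal_exp, ← Complex.exp_add, ← Complex.exp_add]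
      congr 1
      ring
    push_cast at e1 ⊢
    linear_combination (Err k P (Real.exp y) : ℂ) ^ 2 * e1
  · rw [indicator_of_notMem hy, indicator_of_notMem hy, mul_zero]

end Pool.Agent.Lib.MP_bc6037_nt.ParsevalErr
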