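import Pool.Agent.Lib.MP_bc6037_nt.Growth
import Pool.Agent.Lib.MP_bc6037_nt.ParsevalErr

set_option autoImplicit false

/-!
Mean-square bounds for `Err k P` from decay of the continued Mellin transform.
-/

open MeasureTheory Complex Filter Set Metric
open scoped Nat Topology

namespace Pool.Agent.Lib.MP_bc6037_nt.MeanSquare

open ZetaGrowth DeltaMellin MainPoly OneSided Growth HoloInt ParsevalErr Landau

lemma shift_bound {p V u ξ : ℝ} (hp : 0 ≤ p) (hu : |u| ≤ V) :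
    (1 + |u + 2 * Real.pi * ξ|) ^ (-p) ≤ (1 + V) ^ p * (1 + |ξ|) ^ (-p) := by
  have hV : 0 ≤ V := (abs_nonneg _).trans hu
  have h1 : 1 + |ξ| ≤ (1 + V) * (1 + |u + 2 * Real.pi * ξ|) := by
    have h2 : |2 * Real.pi * ξ| ≤ |u + 2 * Real.pi * ξ| + |u| := by
      have := abs_sub (u + 2 * Real.pi * ξ) u
      have e : u + 2 * Real.pi * ξ - u = 2 * Real.pi * ξ := by ring
      rwa [e] at this
    have h3 : |ξ| ≤ |2 * Real.pi * ξ| := by
      rw [abs_mul, abs_of_pos (by positivity : 0 < 2 * Real.pi)]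
      have := Real.pi_gt_three
      nlinarith [abs_nonneg ξ]
    have h4 : 0 ≤ V * |u + 2 * Real.pi * ξ| := by positivity
    nlinarith
  have hA : 0 < 1 + |u + 2 * Real.pi * ξ| := by positivity
  have hB : 0 < 1 + |ξ| := by positivity
  have h2 := Real.rpow_le_rpow hB.le h1 hp
  rw [Real.mul_rpow (by positivity) hA.le] at h2
  rw [Real.rpow_neg hA.le, Real.rpow_neg hB.le, ← div_eq_mul_inv, inv_eq_one_div,
    div_le_div_iff₀ (Real.rpow_pos_of_pos hA _) (Real.rpow_pos_of_pos hB _), one_mul]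
  exact h2

/-- The bilinear integral. -/
noncomputable def J (Z : ℂ → ℂ) (s : ℂ) : ℂ :=
  ∫ ξ : ℝ, Z (s + 2 * Real.pi * ξ * I) * Z (s - 2 * Real.pi * ξ * I)

lemma F_bound {Z : ℂ → ℂ} {c p B V : ℝ} (hB0 : 0 ≤ B) (hp : 0 ≤ p)
    (hB : ∀ s : ℂ, c ≤ s.re → ‖Z s‖ ≤ B * (1 + |s.im|) ^ (-p)) {s : ℂ} (hs : c ≤ s.re)
    (hV : |s.im| ≤ V) (ξ : ℝ) :
    ‖Z (s + 2 * Real.pi * ξ * I) * Z (s - 2 * Real.pi * ξ * I)‖ ≤
      (B * (1 + V) ^ p) ^ 2 * (1 + |ξ|) ^ (-(2 * p)) := by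
  have e1 : (s + 2 * Real.pi * ξ * I).re = s.re := by simp
  have e2 : (s - 2 * Real.pi * ξ * I).re = s.re := by simp
  have e3 : (s + 2 * Real.pi * ξ * I).im = s.im + 2 * Real.pi * ξ := by simp
  have e4 : (s - 2 * Real.pi * ξ * I).im = s.im + 2 * Real.pi * (-ξ) := by simp; ring
  have h1 := hB (s + 2 * Real.pi * ξ * I) (by rw [e1]; exact hs)
  have h2 := hB (s - 2 * Real.pi * ξ * I) (by rw [e2]; exact hs)
  rw [e3] at h1
  rw [e4] at h2
  have h3 := shift_bound (ξ := ξ) hp hV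
  have h4 := shift_bound (ξ := -ξ) hp hV
  rw [abs_neg] at h4
  have hV0 : 0 ≤ V := (abs_nonneg _).trans hV
  have h5 : ‖Z (s + 2 * Real.pi * ξ * I)‖ ≤ B * (1 + V) ^ p * (1 + |ξ|) ^ (-p) := by
    rw [mul_assoc B]
    exact h1.trans (mul_le_mul_of_nonneg_left h3 hB0)
  have h6 : ‖Z (s - 2 * Real.pi * ξ * I)‖ ≤ B * (1 + V) ^ p * (1 + |ξ|) ^ (-p) := by
    rw [mul_assoc B]
    exact h2.trans (mul_le_mul_of_nonneg_left h4 hB0)
  rw [norm_mul]
  refine (mul_le_mul h5 h6 (norm_nonneg _) (by positivity)).trans (le_of_eq ?_)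
  have e5 : (1 + |ξ|) ^ (-(2 * p)) = (1 + |ξ|) ^ (-p) * (1 + |ξ|) ^ (-p) := by
    rw [← Real.rpow_add (by positivity)]
    congr 1
    ring
  rw [e5]
  ring

lemma integrable_b {p : ℝ} (hp : 1 / 2 < p) (A : ℝ) :
    Integrable (fun ξ : ℝ => A * (1 + |ξ|) ^ (-(2 * p))) := by
  apply Integrable.const_mul
  have := integrable_one_add_norm (E := ℝ) (μ := volume) (r := 2 * p) (by simp; linarith)
  simpa [Real.norm_eq_abs] using this

lemma continuous_F {Z : ℂ → ℂ} (hZ : DifferentiableOn ℂ Z {s : ℂ | 0 < s.re}) {s : ℂ}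
    (hs : 0 < s.re) :
    Continuous fun ξ : ℝ => Z (s + 2 * Real.pi * ξ * I) * Z (s - 2 * Real.pi * ξ * I) := by
  have h1 : Continuous fun ξ : ℝ => Z (s + 2 * Real.pi * ξ * I) :=
    hZ.continuousOn.comp_continuous (by fun_prop) (fun ξ => by simpa using hs)
  have h2 : Continuous fun ξ : ℝ => Z (s - 2 * Real.pi * ξ * I) :=
    hZ.continuousOn.comp_continuous (by fun_prop) (fun ξ => by simpa using hs)
  exact h1.mul h2

lemma differentiableOn_J {Z : ℂ → ℂ} (hZ : DifferentiableOn ℂ Z {s : ℂ | 0 < s.re})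
    {c p B : ℝ} (hc : 0 < c) (hB0 : 0 ≤ B) (hp : 1 / 2 < p)
    (hB : ∀ s : ℂ, c ≤ s.re → ‖Z s‖ ≤ B * (1 + |s.im|) ^ (-p)) :
    DifferentiableOn ℂ (J Z) {s : ℂ | c < s.re} := by
  intro s₀ hs₀
  have hs₀' : c < s₀.re := hs₀
  apply DifferentiableAt.differentiableWithinAt
  set r : ℝ := min (s₀.re - c) 1 with hr
  have hr0 : 0 < r := lt_min (by linarith) one_pos
  have hre : ∀ s ∈ ball s₀ r, c < s.re := by
    intro s hs
    rw [mem_ball, dist_comm, dist_eq_norm] at hs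
    have h1 := (Complex.re_le_norm (s₀ - s)).trans_lt hs
    have h2 : r ≤ s₀.re - c := min_le_left _ _
    simp only [Complex.sub_re] at h1
    linarith
  have him : ∀ s ∈ ball s₀ r, |s.im| ≤ |s₀.im| + 1 := by
    intro s hs
    rw [mem_ball, dist_eq_norm] at hs
    have h1 := (Complex.abs_im_le_norm (s - s₀)).trans hs.le
    have h2 : r ≤ 1 := min_le_right _ _
    simp only [Complex.sub_im] at h1
    have h3 := abs_sub_abs_le_abs_sub s.im s₀.im
    linarith
  have hopen : IsOpen {s : ℂ | 0 < s.re} := isOpen_lt continuous_const Complex.continuous_re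
  refine differentiableAt_integral hr0 ?_ ?_ (integrable_b hp ((B * (1 + (|s₀.im| + 1)) ^ p) ^ 2)) ?_
  · intro ξ s hs
    have hs' := hre s hs
    have d1 : DifferentiableAt ℂ Z (s + 2 * Real.pi * ξ * I) :=
      hZ.differentiableAt (hopen.mem_nhds (by
        show 0 < (s + 2 * Real.pi * ξ * I).re
        simp; linarith))
    have d2 : DifferentiableAt ℂ Z (s - 2 * Real.pi * ξ * I) :=
      hZ.differentiableAt (hopen.mem_nhds (by
        show 0 < (s - 2 * Real.pi * ξ * I).re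
        simp; linarith))
    apply DifferentiableAt.differentiableWithinAt
    apply DifferentiableAt.fun_mul
    · exact DifferentiableAt.comp s d1 (differentiableAt_id.add_const _)
    · exact DifferentiableAt.comp s d2 (differentiableAt_id.sub_const _)
  · intro s hs
    exact (continuous_F hZ (hc.trans (hre s hs))).aestronglyMeasurable
  · intro s hs ξ
    exact F_bound hB0 (by linarith) hB (hre s hs).le (him s hs) ξ

lemma locInt_Err_sq (k : ℕ) (P : Polynomial ℝ) (X : ℝ) :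
    IntegrableOn (fun x => (Err k P x) ^ 2) (Ioc 1 X) := by
  obtain ⟨C, hC0, hC⟩ := Err_le k P (by norm_num : (1 : ℝ) < 2)
  have h1 : IntegrableOn (fun _ : ℝ => (C * (max X 1) ^ (2 : ℝ)) ^ 2) (Ioc 1 X) :=
    integrableOn_const (by simp)
  refine h1.mono' ((measurable_Err k P).pow_const 2).aestronglyMeasurable ?_
  filter_upwards [ae_restrict_mem measurableSet_Ioc] with x hx
  rw [norm_pow, Real.norm_eq_abs]
  apply pow_le_pow_left₀ (abs_nonneg _)
  refine (hC x hx.1.le).trans (mul_le_mul_of_nonneg_left ?_ hC0)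
  exact Real.rpow_le_rpow (by linarith [hx.1]) (hx.2.trans (le_max_left _ _)) (by norm_num)

/-- Mean-square bound from decay. -/
theorem mean_square_of_decay {k : ℕ} {P : Polynomial ℝ} {Z : ℂ → ℂ}
    (hZ : DifferentiableOn ℂ Z {s : ℂ | 0 < s.re})
    (hZ' : ∀ s : ℂ, 0 < s.re → s ≠ 1 → Z s = riemannZeta s ^ k / s - Q P s)
    {c p B : ℝ} (hc : 0 < c) (hB0 : 0 ≤ B) (hp : 1 / 2 < p)
    (hB : ∀ s : ℂ, c ≤ s.re → ‖Z s‖ ≤ B * (1 + |s.im|) ^ (-p)) {b : ℝ} (hb : c < b) :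
    ∃ C : ℝ, ∀ x : ℝ, 1 ≤ x → ∫ y in (1 : ℝ)..x, (Err k P y) ^ 2 ≤ C * x ^ (1 + 2 * b) := by
  have hEm := measurable_Err k P
  have hsqm : Measurable fun x => (Err k P x) ^ 2 := hEm.pow_const 2
  -- convergence at `3`
  have hconv3 : Conv (fun x => (Err k P x) ^ 2) 3 := by
    obtain ⟨C, hC0, hC⟩ := Err_le k P (by norm_num : (1 : ℝ) < 5 / 4)
    have h1 : IntegrableOn (fun x : ℝ => C ^ 2 * x ^ (-(3 / 2) : ℝ)) (Ioi 1) :=
      (integrableOn_Ioi_rpow_of_lt (by norm_num) zero_lt_one).const_mul _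
    refine h1.mono' (hsqm.mul (measurable_id.pow_const _)).aestronglyMeasurable ?_
    filter_upwards [ae_restrict_mem measurableSet_Ioi] with x hx
    have hx1 : (1 : ℝ) < x := hx
    have hx0 : (0 : ℝ) < x := by linarith
    rw [norm_mul, norm_pow, Real.norm_eq_abs, Real.norm_of_nonneg (Real.rpow_nonneg hx0.le _)]
    have h2 : |Err k P x| ^ 2 ≤ C ^ 2 * x ^ (5 / 2 : ℝ) := by
      refine (pow_le_pow_left₀ (abs_nonneg _) (hC x hx1.le) 2).trans (le_of_eq ?_)
      rw [mul_pow, ← Real.rpow_natCast (x ^ (5 / 4 : ℝ)), ← Real.rpow_mul hx0.le]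
      norm_num
    calc |Err k P x| ^ 2 * x ^ (-3 - 1 : ℝ) ≤ C ^ 2 * x ^ (5 / 2 : ℝ) * x ^ (-3 - 1 : ℝ) :=
          mul_le_mul_of_nonneg_right h2 (Real.rpow_nonneg hx0.le _)
      _ = C ^ 2 * x ^ (-(3 / 2) : ℝ) := by
          rw [mul_assoc, ← Real.rpow_add hx0]
          norm_num
  have hM : ∀ s : ℂ, 1 < s.re → M (Err k P) s = Z s := by
    intro s hs
    have hs1 : s ≠ 1 := by
      intro h
      rw [h, Complex.one_re] at hs
      linarith
    rw [M, mellin_Err k P hs, hZ' s (by linarith) hs1]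
  have hJ := differentiableOn_J hZ hc hB0 hp hB
  have hG : DifferentiableOn ℂ (fun w => J Z (w / 2)) {w : ℂ | 2 * c < w.re} := by
    have hmaps : MapsTo (fun w : ℂ => w / 2) {w : ℂ | 2 * c < w.re} {s : ℂ | c < s.re} := by
      intro w hw
      have hw' : 2 * c < w.re := hw
      show c < (w / 2).re
      simp only [Complex.div_ofNat_re]
      linarith
    exact hJ.comp (differentiableOn_id.div_const 2) hmaps
  have hconv : Conv (fun x => (Err k P x) ^ 2) (2 * b) := by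
    refine landau_mellin (σ₀ := 2 * c) (σ₁ := max 3 (2 * c)) hsqm.aestronglyMeasurable
      (fun x _ => sq_nonneg _) (hconv3.mono (le_max_left _ _)) hG ?_ (2 * b) (by linarith)
    intro w hw
    have hw3 : 3 < w.re := lt_of_le_of_lt (le_max_left _ _) hw
    have hwc : 2 * c < w.re := lt_of_le_of_lt (le_max_right _ _) hw
    have hre : (w / 2).re = w.re / 2 := by simp only [Complex.div_ofNat_re]
    have hs : 1 < (w / 2).re := by rw [hre]; linarith
    have hsc : c ≤ (w / 2).re := by rw [hre]; linarith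
    have e1 : ∀ ξ : ℝ, M (Err k P) (w / 2 + 2 * Real.pi * ξ * I) = Z (w / 2 + 2 * Real.pi * ξ * I) := by
      intro ξ
      apply hM
      have : (w / 2 + 2 * Real.pi * ξ * I).re = (w / 2).re := by simp
      rw [this]; exact hs
    have e2 : ∀ ξ : ℝ, M (Err k P) (w / 2 - 2 * Real.pi * ξ * I) = Z (w / 2 - 2 * Real.pi * ξ * I) := by
      intro ξ
      apply hM
      have : (w / 2 - 2 * Real.pi * ξ * I).re = (w / 2).re := by simp
      rw [this]; exact hs
    have hint : Integrable (fun ξ : ℝ => M (Err k P) (w / 2 + 2 * Real.pi * ξ * I) *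
        M (Err k P) (w / 2 - 2 * Real.pi * ξ * I)) := by
      simp only [e1, e2]
      refine (integrable_b hp ((B * (1 + |(w / 2).im|) ^ p) ^ 2)).mono'
        (continuous_F hZ (by linarith)).aestronglyMeasurable (ae_of_all _ fun ξ => ?_)
      exact F_bound hB0 (by linarith) hB hsc le_rfl ξ
    have h1 := parseval_Err k P hs hint
    simp only [e1, e2] at h1
    have e3 : 2 * (w / 2) = w := by ring
    rw [e3, M] at h1
    rw [J, ← h1]
  obtain ⟨C, hC⟩ := mean_of_conv (fun x _ => sq_nonneg _) (locInt_Err_sq k P)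
    (by linarith : (-1 : ℝ) ≤ 2 * b) hconv
  exact ⟨C, hC⟩

/-- `LH` implies the mean-square bounds for every `k ≥ 2`. -/
theorem mean_square_of_LH (hLH : LH) {k : ℕ} (hk : 2 ≤ k) {b : ℝ}
    (hb : ((k : ℝ) - 1) / (2 * k) < b) :
    ∃ P : Polynomial ℝ, ∃ C : ℝ, ∀ x : ℝ, 1 ≤ x →
      ∫ y in (1 : ℝ)..x, (Err k P y) ^ 2 ≤ C * x ^ (1 + 2 * b) := by
  have hk0 : (0 : ℝ) < k := by
    have : 0 < k := by omega
    exact_mod_cast this
  have hk2 : (2 : ℝ) ≤ k := by exact_mod_cast hk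
  obtain ⟨P, Z, hZ, hZ'⟩ := exists_main k
  set c₀ : ℝ := ((k : ℝ) - 1) / (2 * k) with hc₀
  have hc₀0 : 0 < c₀ := by
    rw [hc₀]
    apply div_pos <;> linarith
  set c : ℝ := (c₀ + b) / 2 with hc
  have hc1 : c₀ < c := by rw [hc]; linarith
  have hc2 : c < b := by rw [hc]; linarith
  have hcq : 1 / 2 - c < 1 / (2 * k) := by
    have : c₀ = 1 / 2 - 1 / (2 * k) := by
      rw [hc₀]
      field_simp
    linarith
  obtain ⟨q, hq0, hq, C, hC0, hC⟩ := zeta_left hLH (c := c) (q₀ := 1 / (2 * k)) (by linarith)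
    (by positivity) hcq
  obtain ⟨B, hB0, hB⟩ := Z_decay hZ hZ' (by linarith : 0 < c) hq0 hC0 hC
  have hkq : k * q < 1 / 2 := by
    rw [lt_div_iff₀ (by positivity)] at hq
    linarith
  refine ⟨P, mean_square_of_decay hZ hZ' (c := c) (p := 1 - k * q) (B := B) (by linarith) hB0
    (by linarith) ?_ hc2⟩
  intro s hs
  have := hB s hs
  have e : -(1 - (k : ℝ) * q) = k * q - 1 := by ring
  rwa [e]

end Pool.Agent.Lib.MP_bc6037_nt.MeanSquare
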