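import Pool.Agent.Lib.MP_bc6037_nt.MainPoly
import Pool.Agent.Lib.MP_bc6037_nt.Landau

set_option autoImplicit false

/-!
One-sided mean bounds for `Err k P` imply absolute convergence of its Mellin transform
(Landau's lemma), hence `|ζ(s)|^k ≤ C |s|`.
-/

open MeasureTheory Complex Filter Set ProbabilityTheory
open scoped Nat Topology

namespace Pool.Agent.Lib.MP_bc6037_nt.OneSided

open ZetaGrowth DeltaMellin MainPoly Landau

/-- The Mellin transform `∫_1^∞ g(x) x^{-s-1} dx`. -/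
noncomputable def M (g : ℝ → ℝ) (s : ℂ) : ℂ :=
  ∫ x in Ioi (1 : ℝ), (g x : ℂ) * (x : ℂ) ^ (-s - 1)

/-- Absolute convergence at `σ`. -/
def Conv (g : ℝ → ℝ) (σ : ℝ) : Prop := IntegrableOn (fun x => g x * x ^ (-σ - 1)) (Ioi 1)

lemma Conv.complex {g : ℝ → ℝ} {σ : ℝ}
    (h : Conv g σ) {s : ℂ} (hs : s.re = σ) :
    IntegrableOn (fun x : ℝ => (g x : ℂ) * (x : ℂ) ^ (-s - 1)) (Ioi 1) := by
  have h1 : IntegrableOn (fun x : ℝ => ((g x * x ^ (-σ - 1) : ℝ) : ℂ) * (x : ℂ) ^ (-(s.im : ℂ) * I))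
      (Ioi 1) := by
    have h2 : IntegrableOn (fun x : ℝ => ((g x * x ^ (-σ - 1) : ℝ) : ℂ)) (Ioi 1) := h.ofReal
    refine h2.norm.mono' ?_ ?_
    · exact h2.aestronglyMeasurable.mul
        ((Complex.measurable_ofReal.pow_const _).aestronglyMeasurable)
    · filter_upwards [ae_restrict_mem measurableSet_Ioi] with x hx
      have hx0 : (0 : ℝ) < x := by
        have hx1 : (1 : ℝ) < x := hx
        linarith
      rw [norm_mul, Complex.norm_cpow_eq_rpow_re_of_pos hx0]
      simp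
  refine h1.congr_fun ?_ measurableSet_Ioi
  intro x hx
  have hx1 : (1 : ℝ) < x := hx
  have hx0 : (0 : ℝ) < x := by linarith
  have hx0' : (x : ℂ) ≠ 0 := by exact_mod_cast hx0.ne'
  simp only
  rw [Complex.ofReal_mul, Complex.ofReal_cpow hx0.le, mul_assoc, ← Complex.cpow_add _ _ hx0']
  congr 2
  apply Complex.ext
  · simp [hs]
  · simp

lemma Conv.of_complex {g : ℝ → ℝ} {s : ℂ}
    (h : IntegrableOn (fun x : ℝ => (g x : ℂ) * (x : ℂ) ^ (-s - 1)) (Ioi 1)) : Conv g s.re := by
  have h1 : IntegrableOn (fun x : ℝ => ((g x : ℂ) * (x : ℂ) ^ (-s - 1)) *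
      (x : ℂ) ^ ((s.im : ℂ) * I)) (Ioi 1) := by
    refine h.norm.mono' ?_ ?_
    · exact h.aestronglyMeasurable.mul
        ((Complex.measurable_ofReal.pow_const _).aestronglyMeasurable)
    · filter_upwards [ae_restrict_mem measurableSet_Ioi] with x hx
      have hx0 : (0 : ℝ) < x := by
        have hx1 : (1 : ℝ) < x := hx
        linarith
      rw [norm_mul, Complex.norm_cpow_eq_rpow_re_of_pos hx0 ((s.im : ℂ) * I)]
      simp
  have h2 : IntegrableOn (fun x : ℝ => (((g x : ℂ) * (x : ℂ) ^ (-s - 1)) *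
      (x : ℂ) ^ ((s.im : ℂ) * I)).re) (Ioi 1) := h1.re
  refine h2.congr_fun ?_ measurableSet_Ioi
  intro x hx
  have hx1 : (1 : ℝ) < x := hx
  have hx0 : (0 : ℝ) < x := by linarith
  have hx0' : (x : ℂ) ≠ 0 := by exact_mod_cast hx0.ne'
  simp only
  rw [mul_assoc, ← Complex.cpow_add _ _ hx0']
  have e : -s - 1 + (s.im : ℂ) * I = ((-s.re - 1 : ℝ) : ℂ) := by
    apply Complex.ext
    · simp
    · simp
  rw [e, ← Complex.ofReal_cpow hx0.le, ← Complex.ofReal_mul]
  exact Complex.ofReal_re _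

lemma Conv.mono {g : ℝ → ℝ} {σ σ' : ℝ} (h : Conv g σ) (hσ : σ ≤ σ') : Conv g σ' := by
  unfold Conv at h ⊢
  have h1 : IntegrableOn (fun x : ℝ => (g x * x ^ (-σ - 1)) * x ^ (σ - σ')) (Ioi 1) := by
    refine h.norm.mono' ?_ ?_
    · exact h.aestronglyMeasurable.mul ((measurable_id.pow_const _).aestronglyMeasurable)
    · filter_upwards [ae_restrict_mem measurableSet_Ioi] with x hx
      have hx1 : (1 : ℝ) < x := hx
      have hx0 : (0 : ℝ) < x := by linarith
      rw [norm_mul]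
      have h2 : ‖x ^ (σ - σ')‖ ≤ 1 := by
        rw [Real.norm_of_nonneg (Real.rpow_nonneg hx0.le _)]
        exact Real.rpow_le_one_of_one_le_of_nonpos hx1.le (by linarith)
      exact mul_le_of_le_one_right (norm_nonneg _) h2
  refine h1.congr_fun ?_ measurableSet_Ioi
  intro x hx
  have hx1 : (1 : ℝ) < x := hx
  have hx0 : (0 : ℝ) < x := by linarith
  simp only
  rw [mul_assoc, ← Real.rpow_add hx0]
  congr 2
  ring

/-- Holomorphy of the Mellin transform of a nonnegative function. -/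
lemma differentiableOn_M {g : ℝ → ℝ} (hgm : Measurable g) (hg0 : ∀ x, 1 < x → 0 ≤ g x) {σ₀ : ℝ}
    (h : ∀ σ, σ₀ < σ → Conv g σ) : DifferentiableOn ℂ (M g) {s : ℂ | σ₀ < s.re} := by
  set f : ℝ → NNReal := fun x => (g x * x⁻¹).toNNReal with hf
  have hfm : AEMeasurable f (volume.restrict (Ioi 1)) := by
    apply AEMeasurable.real_toNNReal
    exact (hgm.mul measurable_inv).aemeasurable
  set ν : Measure ℝ := (volume.restrict (Ioi 1)).withDensity (fun x => (f x : ENNReal)) with hν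
  have hfx : ∀ x, 1 < x → (f x : ℝ) = g x * x⁻¹ := by
    intro x hx
    have : 0 ≤ g x * x⁻¹ := mul_nonneg (hg0 x hx) (inv_nonneg.2 (by linarith))
    simp only [hf]
    rw [Real.coe_toNNReal _ this]
  have key : ∀ τ : ℝ, Integrable (fun x => Real.exp (-τ * Real.log x)) ν ↔ Conv g τ := by
    intro τ
    rw [hν, integrable_withDensity_iff_integrable_smul₀ hfm]
    apply integrable_congr
    filter_upwards [ae_restrict_mem measurableSet_Ioi] with x hx
    have hx1 : (1 : ℝ) < x := hx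
    have hx0 : (0 : ℝ) < x := by linarith
    rw [NNReal.smul_def, hfx x hx1, smul_eq_mul, mul_assoc, exp_log_eq_real hx0]
  have hM : ∀ s : ℂ, M g s = complexMGF (fun x => -Real.log x) ν s := by
    intro s
    rw [M, complexMGF, hν, integral_withDensity_eq_integral_smul₀ hfm]
    apply integral_congr_ae
    filter_upwards [ae_restrict_mem measurableSet_Ioi] with x hx
    have hx1 : (1 : ℝ) < x := hx
    have hx0 : (0 : ℝ) < x := by linarith
    rw [← exp_log_eq hx0, NNReal.smul_def, hfx x hx1, Complex.real_smul]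
    push_cast
    have e : cexp (s * -(Real.log x : ℂ)) = cexp (-s * (Real.log x : ℂ)) := by
      congr 1; ring
    rw [e]
    ring
  have h1 : {s : ℂ | σ₀ < s.re} ⊆
      {z : ℂ | z.re ∈ interior (integrableExpSet (fun x => -Real.log x) ν)} := by
    intro s hs
    have hs' : σ₀ < s.re := hs
    show s.re ∈ interior _
    rw [mem_interior]
    refine ⟨Ioi σ₀, ?_, isOpen_Ioi, hs'⟩
    intro t ht
    show Integrable _ _
    refine ((key t).2 (h t ht)).congr (ae_of_all _ fun x => ?_)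
    simp only
    congr 1
    ring
  refine (differentiableOn_complexMGF.mono h1).congr ?_
  intro s _
  exact hM s

/-- From mean bounds to convergence. -/
lemma conv_of_mean {g : ℝ → ℝ} (hgm : Measurable g) (hg0 : ∀ x, 1 < x → 0 ≤ g x)
    (hloc : ∀ X : ℝ, IntegrableOn g (Ioc 1 X)) {a C : ℝ}
    (hC : ∀ x : ℝ, 1 ≤ x → ∫ y in (1 : ℝ)..x, g y ≤ C * x ^ (1 + a)) {σ : ℝ} (hσ : a < σ)
    (hσ' : -1 ≤ σ) : Conv g σ := by
  unfold Conv
  have hU : Ioi (1 : ℝ) = ⋃ n : ℕ, Ioc ((2 : ℝ) ^ n) (2 ^ (n + 1)) := by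
    ext x
    constructor
    · intro hx
      have hx1 : (1 : ℝ) < x := hx
      obtain ⟨n, h1, h2⟩ := exists_mem_Ioc_zpow (by linarith : (0 : ℝ) < x) one_lt_two
      have hn0 : 0 ≤ n := by
        by_contra hn
        rw [not_le] at hn
        have h3 : (2 : ℝ) ^ (n + 1) ≤ 1 := by
          rw [← zpow_zero (2 : ℝ)]
          exact zpow_le_zpow_right₀ one_le_two (by omega)
        linarith
      obtain ⟨m, rfl⟩ := Int.eq_ofNat_of_zero_le hn0
      rw [mem_iUnion]
      refine ⟨m, ?_, ?_⟩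
      · exact_mod_cast h1
      · exact_mod_cast h2
    · intro hx
      rw [mem_iUnion] at hx
      obtain ⟨n, hn⟩ := hx
      exact lt_of_le_of_lt (one_le_pow₀ one_le_two) hn.1
  rw [hU]
  have hbd : ∀ n : ℕ, ∀ x ∈ Ioc ((2 : ℝ) ^ n) (2 ^ (n + 1)),
      ‖g x * x ^ (-σ - 1)‖ ≤ g x * ((2 : ℝ) ^ n) ^ (-σ - 1) := by
    intro n x hx
    have h2n : (1 : ℝ) ≤ 2 ^ n := one_le_pow₀ one_le_two
    have hx1 : 1 < x := lt_of_le_of_lt h2n hx.1
    have hx0 : 0 < x := by linarith
    rw [norm_mul, Real.norm_of_nonneg (hg0 x hx1), Real.norm_of_nonneg (Real.rpow_nonneg hx0.le _)]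
    apply mul_le_mul_of_nonneg_left _ (hg0 x hx1)
    exact Real.rpow_le_rpow_of_nonpos (by positivity) hx.1.le (by linarith)
  have hsub : ∀ n : ℕ, Ioc ((2 : ℝ) ^ n) (2 ^ (n + 1)) ⊆ Ioc 1 ((2 : ℝ) ^ (n + 1)) := by
    intro n
    exact Ioc_subset_Ioc_left (one_le_pow₀ one_le_two)
  have hgn : ∀ n : ℕ, IntegrableOn g (Ioc ((2 : ℝ) ^ n) (2 ^ (n + 1))) := fun n =>
    (hloc _).mono_set (hsub n)
  have hmeas : Measurable fun x => g x * x ^ (-σ - 1) := hgm.mul (measurable_id.pow_const _)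
  have hin : ∀ n : ℕ, IntegrableOn (fun x => g x * x ^ (-σ - 1))
      (Ioc ((2 : ℝ) ^ n) (2 ^ (n + 1))) := by
    intro n
    refine ((hgn n).mul_const (((2 : ℝ) ^ n) ^ (-σ - 1))).mono' hmeas.aestronglyMeasurable ?_
    filter_upwards [ae_restrict_mem measurableSet_Ioc] with x hx
    exact hbd n x hx
  apply integrableOn_iUnion_of_summable_integral_norm hin
  have hr : Summable (fun n : ℕ => (C * 2 ^ (1 + a)) * ((2 : ℝ) ^ (a - σ)) ^ n) := by
    apply Summable.mul_left
    apply summable_geometric_of_lt_one (by positivity)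
    exact Real.rpow_lt_one_of_one_lt_of_neg one_lt_two (by linarith)
  refine Summable.of_nonneg_of_le (fun n => integral_nonneg fun x => norm_nonneg _) ?_ hr
  intro n
  have h3 : ∫ x in Ioc ((2 : ℝ) ^ n) (2 ^ (n + 1)), ‖g x * x ^ (-σ - 1)‖ ≤
      ∫ x in Ioc ((2 : ℝ) ^ n) (2 ^ (n + 1)), g x * ((2 : ℝ) ^ n) ^ (-σ - 1) := by
    apply setIntegral_mono_on (hin n).norm ((hgn n).mul_const _) measurableSet_Ioc
    exact hbd n
  have h4 : ∫ x in Ioc ((2 : ℝ) ^ n) (2 ^ (n + 1)), g x ≤ C * ((2 : ℝ) ^ (n + 1)) ^ (1 + a) := by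
    have h5 : (1 : ℝ) ≤ 2 ^ (n + 1) := one_le_pow₀ one_le_two
    refine le_trans ?_ (hC _ h5)
    rw [intervalIntegral.integral_of_le h5]
    apply setIntegral_mono_set (hloc _) _ (hsub n).eventuallyLE
    filter_upwards [ae_restrict_mem measurableSet_Ioc] with x hx
    exact hg0 x hx.1
  refine h3.trans ?_
  rw [integral_mul_const]
  have h6 : 0 ≤ ((2 : ℝ) ^ n) ^ (-σ - 1) := Real.rpow_nonneg (by positivity) _
  refine (mul_le_mul_of_nonneg_right h4 h6).trans (le_of_eq ?_)
  have e1 : ((2 : ℝ) ^ (n + 1)) ^ (1 + a) = 2 ^ (1 + a) * (2 : ℝ) ^ ((n : ℝ) * (1 + a)) := by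
    rw [← Real.rpow_natCast, ← Real.rpow_mul two_pos.le, ← Real.rpow_add two_pos]
    congr 1
    push_cast
    ring
  have e2 : ((2 : ℝ) ^ n) ^ (-σ - 1) = (2 : ℝ) ^ ((n : ℝ) * (-σ - 1)) := by
    rw [← Real.rpow_natCast, ← Real.rpow_mul two_pos.le]
  have e3 : ((2 : ℝ) ^ (a - σ)) ^ n = (2 : ℝ) ^ ((n : ℝ) * (1 + a)) * (2 : ℝ) ^ ((n : ℝ) * (-σ - 1)) := by
    rw [← Real.rpow_natCast, ← Real.rpow_mul two_pos.le, ← Real.rpow_add two_pos]
    congr 1
    ring
  rw [e1, e2, e3]
  ring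

/-- From convergence to mean bounds. -/
lemma mean_of_conv {g : ℝ → ℝ} (hg0 : ∀ x, 1 < x → 0 ≤ g x)
    (hloc : ∀ X : ℝ, IntegrableOn g (Ioc 1 X)) {σ : ℝ} (hσ' : -1 ≤ σ) (h : Conv g σ) :
    ∃ C : ℝ, ∀ x : ℝ, 1 ≤ x → ∫ y in (1 : ℝ)..x, g y ≤ C * x ^ (1 + σ) := by
  refine ⟨∫ y in Ioi (1 : ℝ), g y * y ^ (-σ - 1), fun x hx => ?_⟩
  have hx0 : 0 < x := by linarith
  rw [intervalIntegral.integral_of_le hx, mul_comm, ← integral_const_mul]
  have h1 : ∫ y in Ioc 1 x, g y ≤ ∫ y in Ioc 1 x, x ^ (1 + σ) * (g y * y ^ (-σ - 1)) := by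
    apply setIntegral_mono_on (hloc x) ((h.mono_set Ioc_subset_Ioi_self).const_mul _)
      measurableSet_Ioc
    intro y hy
    have hy0 : 0 < y := by linarith [hy.1]
    have h2 : 1 ≤ x ^ (1 + σ) * y ^ (-σ - 1) := by
      have h3 : y ^ (-σ - 1) = (y ^ (1 + σ))⁻¹ := by
        rw [← Real.rpow_neg hy0.le]; congr 1; ring
      rw [h3, ← div_eq_mul_inv, one_le_div (Real.rpow_pos_of_pos hy0 _)]
      exact Real.rpow_le_rpow hy0.le hy.2 (by linarith)
    nlinarith [hg0 y hy.1]
  refine h1.trans ?_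
  apply setIntegral_mono_set (h.const_mul _) _ Ioc_subset_Ioi_self.eventuallyLE
  filter_upwards [ae_restrict_mem measurableSet_Ioi] with y hy
  have hy1 : (1 : ℝ) < y := hy
  exact mul_nonneg (Real.rpow_nonneg hx0.le _)
    (mul_nonneg (hg0 y hy1) (Real.rpow_nonneg (by linarith) _))

lemma locInt_Err (k : ℕ) (P : Polynomial ℝ) (X : ℝ) : IntegrableOn (Err k P) (Ioc 1 X) := by
  obtain ⟨C, hC0, hC⟩ := Err_le k P (by norm_num : (1 : ℝ) < 2)
  have h1 : IntegrableOn (fun _ : ℝ => C * (max X 1) ^ (2 : ℝ)) (Ioc 1 X) :=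
    integrableOn_const (by simp)
  refine h1.mono' (measurable_Err k P).aestronglyMeasurable ?_
  filter_upwards [ae_restrict_mem measurableSet_Ioc] with x hx
  rw [Real.norm_eq_abs]
  refine (hC x hx.1.le).trans (mul_le_mul_of_nonneg_left ?_ hC0)
  exact Real.rpow_le_rpow (by linarith [hx.1]) (hx.2.trans (le_max_left _ _)) (by norm_num)

/-- **One-sided mean bound ⟹ absolute convergence** (Landau). -/
theorem conv_of_one_sided {k : ℕ} {P : Polynomial ℝ} {Z : ℂ → ℂ}
    (hZ : DifferentiableOn ℂ Z {s : ℂ | 0 < s.re})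
    (hZ' : ∀ s : ℂ, 0 < s.re → s ≠ 1 → Z s = riemannZeta s ^ k / s - Q P s)
    {τ : ℝ} (hτ : τ = 1 ∨ τ = -1) {a C : ℝ} (ha : 0 ≤ a)
    (hC : ∀ x : ℝ, 1 ≤ x → ∫ y in (1 : ℝ)..x, max (τ * Err k P y) 0 ≤ C * x ^ (1 + a))
    {σ : ℝ} (hσ : a < σ) : Conv (Err k P) σ := by
  have hEm := measurable_Err k P
  set gp : ℝ → ℝ := fun x => max (τ * Err k P x) 0 with hgp
  set gm : ℝ → ℝ := fun x => max (-(τ * Err k P x)) 0 with hgm
  have hgpm : Measurable gp := (hEm.const_mul τ).max measurable_const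
  have hgmm : Measurable gm := (hEm.const_mul τ).neg.max measurable_const
  have hgp0 : ∀ x, 1 < x → 0 ≤ gp x := fun x _ => le_max_right _ _
  have hgm0 : ∀ x, 1 < x → 0 ≤ gm x := fun x _ => le_max_right _ _
  have hsub : ∀ x, gp x - gm x = τ * Err k P x := by
    intro x
    simp only [hgp, hgm]
    rcases le_total 0 (τ * Err k P x) with h | h
    · rw [max_eq_left h, max_eq_right (by linarith)]; ring
    · rw [max_eq_right h, max_eq_left (by linarith)]; ring
  have hττ : τ * τ = 1 := by rcases hτ with h | h <;> rw [h] <;> norm_num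
  have hτabs : |τ| = 1 := by rcases hτ with h | h <;> rw [h] <;> norm_num
  have hgple : ∀ x, |gp x| ≤ |Err k P x| := by
    intro x
    rw [abs_of_nonneg (le_max_right _ _)]
    apply max_le _ (abs_nonneg _)
    refine (le_abs_self _).trans ?_
    rw [abs_mul, hτabs, one_mul]
  have hgmle : ∀ x, |gm x| ≤ |Err k P x| := by
    intro x
    rw [abs_of_nonneg (le_max_right _ _)]
    apply max_le _ (abs_nonneg _)
    refine (neg_le_abs _).trans ?_
    rw [abs_mul, hτabs, one_mul]
  have hlocp : ∀ X : ℝ, IntegrableOn gp (Ioc 1 X) := by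
    intro X
    refine (locInt_Err k P X).norm.mono' hgpm.aestronglyMeasurable (ae_of_all _ fun x => ?_)
    exact hgple x
  have hconvp : ∀ t, a < t → Conv gp t := fun t ht =>
    conv_of_mean hgpm hgp0 hlocp hC ht (by linarith)
  -- convergence of `gm` for large abscissa
  have hErrInt : ∀ t : ℝ, 1 < t → Conv (Err k P) t := by
    intro t ht
    have := Conv.of_complex (integrableOn_Err k P (s := (t : ℂ)) (by simpa using ht))
    simpa using this
  have hconvm2 : Conv gm 2 := by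
    refine (hErrInt 2 (by norm_num)).norm.mono'
      (hgmm.mul (measurable_id.pow_const _)).aestronglyMeasurable ?_
    filter_upwards with x
    rw [norm_mul, norm_mul]
    exact mul_le_mul_of_nonneg_right (hgmle x) (norm_nonneg _)
  have hMp := differentiableOn_M hgpm hgp0 hconvp
  have hG : DifferentiableOn ℂ (fun s => M gp s - τ * Z s) {s : ℂ | a < s.re} := by
    apply hMp.sub
    apply DifferentiableOn.const_mul
    exact hZ.mono fun s hs => lt_of_le_of_lt ha hs
  have hconvm : Conv gm σ := by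
    refine landau_mellin (σ₀ := a) (σ₁ := max 2 a) hgmm.aestronglyMeasurable hgm0
      (hconvm2.mono (le_max_left _ _)) hG ?_ σ hσ
    intro s hs
    have hs2 : 2 < s.re := lt_of_le_of_lt (le_max_left _ _) hs
    have hsa : a < s.re := lt_of_le_of_lt (le_max_right _ _) hs
    have hs1 : s ≠ 1 := by
      intro h
      rw [h, Complex.one_re] at hs2
      linarith
    have h1 : Z s = ∫ x in Ioi (1 : ℝ), (Err k P x : ℂ) * (x : ℂ) ^ (-s - 1) := by
      rw [hZ' s (by linarith) hs1, mellin_Err k P (by linarith)]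
    have i1 := (hconvp s.re hsa).complex rfl
    have i2 := (hErrInt s.re (by linarith)).complex rfl
    rw [h1, M, ← integral_const_mul, ← integral_sub i1 (i2.const_mul _)]
    apply setIntegral_congr_fun measurableSet_Ioi
    intro x _
    have h3 : gm x = gp x - τ * Err k P x := by
      have := hsub x
      linarith
    simp only
    rw [h3]
    push_cast
    ring
  -- assemble
  have h4 : IntegrableOn (fun x => τ * (gp x * x ^ (-σ - 1)) - τ * (gm x * x ^ (-σ - 1))) (Ioi 1) :=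
    ((hconvp σ hσ).const_mul τ).sub (hconvm.const_mul τ)
  refine h4.congr_fun ?_ measurableSet_Ioi
  intro x _
  have h5 : Err k P x = τ * (gp x - gm x) := by
    rw [hsub x, ← mul_assoc, hττ, one_mul]
  simp only
  rw [h5]
  ring

/-- Identification of the Mellin transform with the continuation, in the range of convergence. -/
theorem M_eq_Z {k : ℕ} {P : Polynomial ℝ} {Z : ℂ → ℂ}
    (hZ : DifferentiableOn ℂ Z {s : ℂ | 0 < s.re})
    (hZ' : ∀ s : ℂ, 0 < s.re → s ≠ 1 → Z s = riemannZeta s ^ k / s - Q P s)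
    {a : ℝ} (ha : 0 ≤ a) (hconv : ∀ σ, a < σ → Conv (Err k P) σ) {s : ℂ} (hs : a < s.re) :
    M (Err k P) s = Z s := by
  have hEm := measurable_Err k P
  -- write `Err = pos - neg`
  set gp : ℝ → ℝ := fun x => max (Err k P x) 0 with hgp
  set gm : ℝ → ℝ := fun x => max (-(Err k P x)) 0 with hgm
  have hgpm : Measurable gp := hEm.max measurable_const
  have hgmm : Measurable gm := hEm.neg.max measurable_const
  have hcp : ∀ σ, a < σ → Conv gp σ := by
    intro σ hσ
    refine (hconv σ hσ).norm.mono' (hgpm.mul (measurable_id.pow_const _)).aestronglyMeasurable ?_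
    filter_upwards with x
    rw [norm_mul, norm_mul]
    apply mul_le_mul_of_nonneg_right _ (norm_nonneg _)
    rw [Real.norm_of_nonneg (le_max_right _ _), Real.norm_eq_abs]
    exact max_le (le_abs_self _) (abs_nonneg _)
  have hcm : ∀ σ, a < σ → Conv gm σ := by
    intro σ hσ
    refine (hconv σ hσ).norm.mono' (hgmm.mul (measurable_id.pow_const _)).aestronglyMeasurable ?_
    filter_upwards with x
    rw [norm_mul, norm_mul]
    apply mul_le_mul_of_nonneg_right _ (norm_nonneg _)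
    rw [Real.norm_of_nonneg (le_max_right _ _), Real.norm_eq_abs]
    exact max_le (neg_le_abs _) (abs_nonneg _)
  have hMp := differentiableOn_M hgpm (fun x _ => le_max_right _ _) hcp
  have hMm := differentiableOn_M hgmm (fun x _ => le_max_right _ _) hcm
  have hM : ∀ s : ℂ, a < s.re → M (Err k P) s = M gp s - M gm s := by
    intro s hs
    unfold M
    rw [← integral_sub ((hcp _ hs).complex rfl) ((hcm _ hs).complex rfl)]
    apply setIntegral_congr_fun measurableSet_Ioi
    intro x _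
    have h3 : Err k P x = gp x - gm x := by
      simp only [hgp, hgm]
      rcases le_total 0 (Err k P x) with h | h
      · rw [max_eq_left h, max_eq_right (by linarith)]; ring
      · rw [max_eq_right h, max_eq_left (by linarith)]; ring
    simp only
    rw [h3]
    push_cast
    ring
  have hopen : IsOpen {s : ℂ | a < s.re} := isOpen_lt continuous_const Complex.continuous_re
  have hconn : IsPreconnected {s : ℂ | a < s.re} :=
    (convex_halfSpace_re_gt a).isPreconnected
  have h1 : AnalyticOnNhd ℂ (fun s => M gp s - M gm s) {s : ℂ | a < s.re} :=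
    (hMp.sub hMm).analyticOnNhd hopen
  have h2 : AnalyticOnNhd ℂ Z {s : ℂ | a < s.re} :=
    (hZ.mono fun s hs => lt_of_le_of_lt ha hs).analyticOnNhd hopen
  set z₀ : ℂ := ((max a 1 + 1 : ℝ) : ℂ) with hz₀
  have hz₀re : z₀.re = max a 1 + 1 := by rw [hz₀, Complex.ofReal_re]
  have hz₀a : a < z₀.re := by rw [hz₀re]; linarith [le_max_left a 1]
  have hz₀1 : 1 < z₀.re := by rw [hz₀re]; linarith [le_max_right a 1]
  have h3 : (fun s => M gp s - M gm s) =ᶠ[𝓝 z₀] Z := by
    have h4 : {s : ℂ | 1 < s.re} ∈ 𝓝 z₀ :=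
      (isOpen_lt continuous_const Complex.continuous_re).mem_nhds hz₀1
    have h5 : {s : ℂ | a < s.re} ∈ 𝓝 z₀ := hopen.mem_nhds hz₀a
    filter_upwards [h4, h5] with s hs hsa
    have hs' : 1 < s.re := hs
    have hs1 : s ≠ 1 := by
      intro h
      rw [h, Complex.one_re] at hs'
      linarith
    rw [← hM s hsa, M, mellin_Err k P hs', hZ' s (by linarith) hs1]
  have h6 := h1.eqOn_of_preconnected_of_eventuallyEq h2 hconn hz₀a h3
  rw [hM s hs]
  exact h6 hs

end Pool.Agent.Lib.MP_bc6037_nt.OneSided
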