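import Pool.Agent.Lib.MP_bc6037_nt.RecU
import Pool.Agent.Lib.MP_bc6037_nt.Perron

set_option autoImplicit false

/-!
Comparison of `|Z|²` with `|(s-1)ζ|^{2k}/(1+|t|)^{2k+2}` in a vertical strip, and interpolation of
finiteness of the weighted moments.
-/

open MeasureTheory Complex Filter Set
open scoped Topology

namespace Pool.Agent.Lib.MP_bc6037_nt.Rec

open ZetaGrowth DeltaMellin MainPoly Perron

lemma box_bound {F : ℂ → ℂ} (hF : ContinuousOn F {s : ℂ | 0 < s.re}) {σ₁ : ℝ} (σ₂ : ℝ)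
    (h0 : 0 < σ₁) : ∃ C : ℝ, 0 ≤ C ∧ ∀ s : ℂ, σ₁ ≤ s.re → s.re ≤ σ₂ → |s.im| ≤ 1 → ‖F s‖ ≤ C := by
  have hK : IsCompact (Icc σ₁ σ₂ ×ℂ Icc (-1 : ℝ) 1) := isCompact_Icc.reProdIm isCompact_Icc
  have hc : ContinuousOn F (Icc σ₁ σ₂ ×ℂ Icc (-1 : ℝ) 1) := by
    apply hF.mono
    intro s hs
    rw [mem_reProdIm] at hs
    exact lt_of_lt_of_le h0 hs.1.1
  obtain ⟨C, hC⟩ := hK.exists_bound_of_continuousOn hc
  refine ⟨max C 0, le_max_right _ _, fun s h1 h2 h3 => ?_⟩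
  refine (hC s ?_).trans (le_max_left _ _)
  rw [mem_reProdIm]
  exact ⟨⟨h1, h2⟩, abs_le.mp h3⟩

lemma half_le {v : ℝ} (hv : 1 ≤ |v|) : (1 + |v|) / 2 ≤ |v| := by linarith

/-- `|Z|² ≪ |H|^{2k}/(1+|v|)^{2k+2} + 1/(1+|v|)²`. -/
lemma Z_sq_le {k : ℕ} {P : Polynomial ℝ} {Z : ℂ → ℂ}
    (hZ : DifferentiableOn ℂ Z {s : ℂ | 0 < s.re})
    (hZ' : ∀ s : ℂ, 0 < s.re → s ≠ 1 → Z s = riemannZeta s ^ k / s - Q P s)
    {σ₁ : ℝ} (σ₂ : ℝ) (h0 : 0 < σ₁) : ∃ C : ℝ, 0 ≤ C ∧ ∀ s : ℂ, σ₁ ≤ s.re → s.re ≤ σ₂ →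
      ‖Z s‖ ^ 2 ≤ C * (‖H s‖ ^ (2 * k) / (1 + |s.im|) ^ (2 * k + 2) + 1 / (1 + |s.im|) ^ 2) := by
  obtain ⟨B, hB0, hB⟩ := norm_Q_le P
  obtain ⟨D, hD0, hD⟩ := box_bound hZ.continuousOn σ₂ h0
  refine ⟨max (4 * D ^ 2) (max (2 * 2 ^ (2 * k + 2)) (8 * B ^ 2)), by positivity, ?_⟩
  intro s hs1 hs2
  set C := max (4 * D ^ 2) (max (2 * 2 ^ (2 * k + 2)) (8 * B ^ 2)) with hC
  have c1 : 4 * D ^ 2 ≤ C := le_max_left _ _
  have c2 : 2 * 2 ^ (2 * k + 2) ≤ C := (le_max_left _ _).trans (le_max_right _ _)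
  have c3 : 8 * B ^ 2 ≤ C := (le_max_right _ _).trans (le_max_right _ _)
  have hC0 : 0 ≤ C := by positivity
  rcases le_total |s.im| 1 with hv | hv
  · have h1 := hD s hs1 hs2 hv
    have h2 : (1 : ℝ) / 4 ≤ 1 / (1 + |s.im|) ^ 2 := by
      apply one_div_le_one_div_of_le (by positivity)
      nlinarith [abs_nonneg s.im]
    have h3 : 0 ≤ ‖H s‖ ^ (2 * k) / (1 + |s.im|) ^ (2 * k + 2) := by positivity
    calc ‖Z s‖ ^ 2 ≤ D ^ 2 := pow_le_pow_left₀ (norm_nonneg _) h1 2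
      _ ≤ C * (1 / 4) := by linarith
      _ ≤ _ := by gcongr; linarith
  · have hs0 : 0 < s.re := h0.trans_le hs1
    have hne : s ≠ 1 := by
      intro h
      rw [h] at hv
      simp at hv
      linarith
    have hvp : 0 < |s.im| := by linarith
    have n1 : (1 + |s.im|) / 2 ≤ ‖s - 1‖ := by
      have := Complex.abs_im_le_norm (s - 1)
      simp only [sub_im, one_im, sub_zero] at this
      linarith
    have n2 : (1 + |s.im|) / 2 ≤ ‖s‖ := by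
      have := Complex.abs_im_le_norm s
      linarith
    have hA : 0 < (1 + |s.im|) / 2 := by positivity
    have e1 : ‖riemannZeta s ^ k / s‖ ≤ ‖H s‖ ^ k / ((1 + |s.im|) / 2) ^ (k + 1) := by
      rw [H_of_ne hne, norm_mul, norm_div, norm_pow]
      have e2 : ‖riemannZeta s‖ ^ k = (‖s - 1‖ * ‖riemannZeta s‖) ^ k / ‖s - 1‖ ^ k := by
        have : ‖s - 1‖ ≠ 0 := (hA.trans_le n1).ne'
        rw [mul_pow]
        field_simp
      rw [e2, div_div, pow_succ]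
      gcongr
    have e3 : ‖Q P s‖ ≤ 2 * B / (1 + |s.im|) := by
      refine (hB s hv).trans ?_
      rw [div_le_div_iff₀ hvp (by positivity)]
      nlinarith
    have e4 : ‖Z s‖ ≤ ‖H s‖ ^ k / ((1 + |s.im|) / 2) ^ (k + 1) + 2 * B / (1 + |s.im|) := by
      rw [hZ' s hs0 hne]
      exact (norm_sub_le _ _).trans (add_le_add e1 e3)
    have e5 : ‖Z s‖ ^ 2 ≤ 2 * (‖H s‖ ^ k / ((1 + |s.im|) / 2) ^ (k + 1)) ^ 2 +
        2 * (2 * B / (1 + |s.im|)) ^ 2 := by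
      have := pow_le_pow_left₀ (norm_nonneg _) e4 2
      refine this.trans ?_
      nlinarith [sq_nonneg (‖H s‖ ^ k / ((1 + |s.im|) / 2) ^ (k + 1) - 2 * B / (1 + |s.im|))]
    have e6 : (‖H s‖ ^ k / ((1 + |s.im|) / 2) ^ (k + 1)) ^ 2 =
        2 ^ (2 * k + 2) * (‖H s‖ ^ (2 * k) / (1 + |s.im|) ^ (2 * k + 2)) := by
      have q1 : (‖H s‖ ^ k) ^ 2 = ‖H s‖ ^ (2 * k) := by rw [← pow_mul, mul_comm]
      have q2 : (((1 + |s.im|) / 2) ^ (k + 1)) ^ 2 = (1 + |s.im|) ^ (2 * k + 2) / 2 ^ (2 * k + 2) := by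
        rw [← pow_mul, div_pow]
        have : (k + 1) * 2 = 2 * k + 2 := by ring
        rw [this]
      rw [div_pow (‖H s‖ ^ k) _ 2, q1, q2]
      field_simp
    have e7 : (2 * B / (1 + |s.im|)) ^ 2 = 4 * B ^ 2 * (1 / (1 + |s.im|) ^ 2) := by
      rw [div_pow]
      ring
    rw [e6, e7] at e5
    have h3 : 0 ≤ ‖H s‖ ^ (2 * k) / (1 + |s.im|) ^ (2 * k + 2) := by positivity
    have h4 : 0 ≤ 1 / (1 + |s.im|) ^ 2 := by positivity
    nlinarith [mul_le_mul_of_nonneg_right c2 h3, mul_le_mul_of_nonneg_right c3 h4]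

/-- `|H|^{2k} ≪ (1+|v|)^{2k+2} (|Z|² + 1/(1+|v|)²)`. -/
lemma H_pow_le {k : ℕ} {P : Polynomial ℝ} {Z : ℂ → ℂ}
    (hZ' : ∀ s : ℂ, 0 < s.re → s ≠ 1 → Z s = riemannZeta s ^ k / s - Q P s)
    {σ₁ : ℝ} (σ₂ : ℝ) (h0 : 0 < σ₁) : ∃ C : ℝ, 0 ≤ C ∧ ∀ s : ℂ, σ₁ ≤ s.re → s.re ≤ σ₂ →
      ‖H s‖ ^ (2 * k) ≤ C * (1 + |s.im|) ^ (2 * k + 2) * (‖Z s‖ ^ 2 + 1 / (1 + |s.im|) ^ 2) := by
  obtain ⟨B, hB0, hB⟩ := norm_Q_le P
  obtain ⟨D, hD0, hD⟩ := box_bound (F := H) differentiable_H.continuous.continuousOn σ₂ h0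
  set E : ℝ := 2 + |σ₂| with hE
  have hE0 : 0 < E := by positivity
  refine ⟨max (D ^ (2 * k)) (E ^ (2 * k + 2) * max 2 (8 * B ^ 2)), by positivity, ?_⟩
  intro s hs1 hs2
  set C := max (D ^ (2 * k)) (E ^ (2 * k + 2) * max 2 (8 * B ^ 2)) with hC
  have c1 : D ^ (2 * k) ≤ C := le_max_left _ _
  have c2 : E ^ (2 * k + 2) * max 2 (8 * B ^ 2) ≤ C := le_max_right _ _
  have hC0 : 0 ≤ C := by positivity
  have hu : 1 ≤ 1 + |s.im| := by linarith [abs_nonneg s.im]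
  have hup : 0 < 1 + |s.im| := by linarith
  have eR : (1 + |s.im|) ^ (2 * k + 2) * (1 / (1 + |s.im|) ^ 2) = (1 + |s.im|) ^ (2 * k) := by
    rw [pow_add]
    field_simp
  rcases le_total |s.im| 1 with hv | hv
  · have h1 := hD s hs1 hs2 hv
    have h2 : 0 ≤ (1 + |s.im|) ^ (2 * k + 2) * ‖Z s‖ ^ 2 := by positivity
    have h3 : (1 : ℝ) ≤ (1 + |s.im|) ^ (2 * k) := one_le_pow₀ hu
    calc ‖H s‖ ^ (2 * k) ≤ D ^ (2 * k) := pow_le_pow_left₀ (norm_nonneg _) h1 _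
      _ ≤ C * 1 := by linarith
      _ ≤ C * ((1 + |s.im|) ^ (2 * k + 2) * ‖Z s‖ ^ 2 + (1 + |s.im|) ^ (2 * k)) := by
          gcongr
          linarith
      _ = _ := by rw [← eR]; ring
  · have hs0 : 0 < s.re := h0.trans_le hs1
    have hne : s ≠ 1 := by
      intro h
      rw [h] at hv
      simp at hv
      linarith
    have hsne : s ≠ 0 := by
      intro h
      rw [h] at hs0
      simp at hs0
    have hvp : 0 < |s.im| := by linarith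
    have hre : |s.re| ≤ |σ₂| := by
      rw [abs_of_pos hs0]
      exact hs2.trans (le_abs_self _)
    have hns : ‖s‖ ≤ |s.re| + |s.im| := Complex.norm_le_abs_re_add_abs_im s
    have n2 : ‖s‖ ≤ E * (1 + |s.im|) := by
      nlinarith [abs_nonneg σ₂, abs_nonneg s.im, mul_nonneg (abs_nonneg σ₂) (abs_nonneg s.im)]
    have n1 : ‖s - 1‖ ≤ E * (1 + |s.im|) := by
      have := norm_sub_le s 1
      rw [norm_one] at this
      nlinarith [abs_nonneg σ₂, abs_nonneg s.im, mul_nonneg (abs_nonneg σ₂) (abs_nonneg s.im)]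
    have e0 : riemannZeta s ^ k = s * (Z s + Q P s) := by
      rw [hZ' s hs0 hne]
      field_simp
      ring
    have e3 : ‖Q P s‖ ≤ 2 * B / (1 + |s.im|) := by
      refine (hB s hv).trans ?_
      rw [div_le_div_iff₀ hvp (by positivity)]
      nlinarith
    have e4 : ‖H s‖ ^ k ≤ (E * (1 + |s.im|)) ^ (k + 1) * (‖Z s‖ + 2 * B / (1 + |s.im|)) := by
      rw [H_of_ne hne, norm_mul, mul_pow, ← norm_pow (riemannZeta s), e0, norm_mul, pow_succ]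
      calc ‖s - 1‖ ^ k * (‖s‖ * ‖Z s + Q P s‖)
          ≤ (E * (1 + |s.im|)) ^ k * ((E * (1 + |s.im|)) * (‖Z s‖ + 2 * B / (1 + |s.im|))) := by
            gcongr
            exact (norm_add_le _ _).trans (by gcongr)
        _ = _ := by ring
    have e5 : ‖H s‖ ^ (2 * k) ≤ ((E * (1 + |s.im|)) ^ (k + 1) * (‖Z s‖ + 2 * B / (1 + |s.im|))) ^ 2 := by
      rw [mul_comm 2 k, pow_mul]
      exact pow_le_pow_left₀ (by positivity) e4 2
    have e6 : ((E * (1 + |s.im|)) ^ (k + 1)) ^ 2 = E ^ (2 * k + 2) * (1 + |s.im|) ^ (2 * k + 2) := by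
      rw [← pow_mul, ← mul_pow]
      congr 1
      ring
    have e7 : (‖Z s‖ + 2 * B / (1 + |s.im|)) ^ 2 ≤
        max 2 (8 * B ^ 2) * (‖Z s‖ ^ 2 + 1 / (1 + |s.im|) ^ 2) := by
      have h1 : (‖Z s‖ + 2 * B / (1 + |s.im|)) ^ 2 ≤ 2 * ‖Z s‖ ^ 2 + 2 * (2 * B / (1 + |s.im|)) ^ 2 := by
        nlinarith [sq_nonneg (‖Z s‖ - 2 * B / (1 + |s.im|))]
      have h2 : 2 * (2 * B / (1 + |s.im|)) ^ 2 = 8 * B ^ 2 * (1 / (1 + |s.im|) ^ 2) := by
        rw [div_pow]; ring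
      have h3 : (2 : ℝ) ≤ max 2 (8 * B ^ 2) := le_max_left _ _
      have h4 : 8 * B ^ 2 ≤ max 2 (8 * B ^ 2) := le_max_right _ _
      have h5 : 0 ≤ 1 / (1 + |s.im|) ^ 2 := by positivity
      nlinarith [mul_le_mul_of_nonneg_right h3 (sq_nonneg ‖Z s‖), mul_le_mul_of_nonneg_right h4 h5]
    rw [mul_pow, e6] at e5
    calc ‖H s‖ ^ (2 * k) ≤ _ := e5
      _ ≤ E ^ (2 * k + 2) * (1 + |s.im|) ^ (2 * k + 2) *
          (max 2 (8 * B ^ 2) * (‖Z s‖ ^ 2 + 1 / (1 + |s.im|) ^ 2)) := by gcongr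
      _ = (E ^ (2 * k + 2) * max 2 (8 * B ^ 2)) * (1 + |s.im|) ^ (2 * k + 2) *
          (‖Z s‖ ^ 2 + 1 / (1 + |s.im|) ^ 2) := by ring
      _ ≤ _ := by gcongr

/-- Finiteness of the weighted `2k`-th moment at `σ`. -/
def Fin (k : ℕ) (σ : ℝ) : Prop :=
  Integrable fun t : ℝ => U σ t ^ (2 * k) / (1 + |t|) ^ (2 * k + 2)

lemma U_interp' {σ₁ σ₂ θ : ℝ} (h1 : 0 < σ₁) (h2 : 0 < σ₂) (hθ0 : 0 ≤ θ) (hθ1 : θ ≤ 1) (t : ℝ) :
    U ((1 - θ) * σ₁ + θ * σ₂) t ≤ Real.exp ((σ₂ - σ₁) ^ 2 + 1) * (U σ₁ t ^ (1 - θ) * U σ₂ t ^ θ) := by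
  rcases lt_trichotomy σ₁ σ₂ with h | h | h
  · have hd : σ₂ - σ₁ ≠ 0 := by linarith
    have e : ((1 - θ) * σ₁ + θ * σ₂ - σ₁) / (σ₂ - σ₁) = θ := by
      field_simp
      ring
    have := U_interp h1 h (σ := (1 - θ) * σ₁ + θ * σ₂) (by nlinarith) (by nlinarith) t
    rwa [e] at this
  · subst h
    have e : (1 - θ) * σ₁ + θ * σ₁ = σ₁ := by ring
    rw [e]
    have h3 := U_nonneg (σ := σ₁) t
    rcases h3.eq_or_lt with h4 | h4
    · rw [← h4]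
      positivity
    · rw [← Real.rpow_add h4]
      have : 1 ≤ Real.exp ((σ₁ - σ₁) ^ 2 + 1) := Real.one_le_exp (by positivity)
      simp only [sub_add_cancel, Real.rpow_one]
      nlinarith
  · have hd : σ₁ - σ₂ ≠ 0 := by linarith
    have e : ((1 - θ) * σ₁ + θ * σ₂ - σ₂) / (σ₁ - σ₂) = 1 - θ := by
      field_simp
      ring
    have := U_interp h2 h (σ := (1 - θ) * σ₁ + θ * σ₂) (by nlinarith) (by nlinarith) t
    rw [e] at this
    have e2 : (σ₁ - σ₂) ^ 2 = (σ₂ - σ₁) ^ 2 := by ring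
    have e3 : 1 - (1 - θ) = θ := by ring
    rw [e2, e3, mul_comm (U σ₂ t ^ θ)] at this
    exact this

/-- **Interpolation of the moments.** -/
theorem Fin.interp {i j k : ℕ} (hi : 1 ≤ i) (hj : 1 ≤ j) (hk : 1 ≤ k) {σ₁ σ₂ θ : ℝ}
    (h1 : 0 < σ₁) (h2 : 0 < σ₂) (hθ0 : 0 ≤ θ) (hθ1 : θ ≤ 1)
    (hθ : 1 / (j : ℝ) = (1 - θ) * (1 / i) + θ * (1 / k))
    (H1 : Fin i σ₁) (H2 : Fin k σ₂) : Fin j ((1 - θ) * σ₁ + θ * σ₂) := by
  have hi0 : (0 : ℝ) < i := by exact_mod_cast hi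
  have hj0 : (0 : ℝ) < j := by exact_mod_cast hj
  have hk0 : (0 : ℝ) < k := by exact_mod_cast hk
  set σ := (1 - θ) * σ₁ + θ * σ₂ with hσ
  have hσ0 : 0 < σ := by
    rw [hσ]
    rcases hθ0.eq_or_lt with h | h
    · rw [← h]; simpa using h1
    · nlinarith [mul_nonneg (by linarith : (0:ℝ) ≤ 1 - θ) h1.le, mul_pos h h2]
  set K := Real.exp ((σ₂ - σ₁) ^ 2 + 1) with hK
  have hK0 : 0 < K := Real.exp_pos _
  have hm := (H1.add H2).const_mul (K ^ (2 * j))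
  refine Integrable.mono' hm ?_ (ae_of_all _ fun t => ?_)
  · apply Continuous.aestronglyMeasurable
    exact ((continuous_U hσ0).pow _).div (by fun_prop) (fun t => by positivity)
  · have hu : 0 < 1 + |t| := by positivity
    rw [Real.norm_of_nonneg (div_nonneg (pow_nonneg (U_nonneg _) _) (by positivity))]
    set a : ℝ := (1 - θ) * j / i with ha
    set b : ℝ := θ * j / k with hb
    have hab : a + b = 1 := by
      rw [ha, hb]
      have : (1 - θ) * j / i + θ * j / k = j * ((1 - θ) * (1 / i) + θ * (1 / k)) := by ring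
      rw [this, ← hθ]
      field_simp
    have ha0 : 0 ≤ a := by
      rw [ha]
      have : 0 ≤ 1 - θ := by linarith
      positivity
    have hb0 : 0 ≤ b := by positivity
    set X := U σ₁ t ^ (2 * i) / (1 + |t|) ^ (2 * i + 2) with hX
    set Y := U σ₂ t ^ (2 * k) / (1 + |t|) ^ (2 * k + 2) with hY
    have hX0 : 0 ≤ X := div_nonneg (pow_nonneg (U_nonneg _) _) (by positivity)
    have hY0 : 0 ≤ Y := div_nonneg (pow_nonneg (U_nonneg _) _) (by positivity)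
    have e1 : X ^ a = (U σ₁ t ^ (1 - θ)) ^ (2 * j) / (1 + |t|) ^ ((2 * i + 2) * a) := by
      rw [hX, Real.div_rpow (pow_nonneg (U_nonneg _) _) (by positivity), ← Real.rpow_natCast,
        ← Real.rpow_natCast, ← Real.rpow_natCast, ← Real.rpow_mul (U_nonneg _),
        ← Real.rpow_mul (U_nonneg _), ← Real.rpow_mul hu.le]
      congr 2
      · push_cast
        rw [ha]
        field_simp
      · push_cast
        ring
    have e2 : Y ^ b = (U σ₂ t ^ θ) ^ (2 * j) / (1 + |t|) ^ ((2 * k + 2) * b) := by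
      rw [hY, Real.div_rpow (pow_nonneg (U_nonneg _) _) (by positivity), ← Real.rpow_natCast,
        ← Real.rpow_natCast, ← Real.rpow_natCast, ← Real.rpow_mul (U_nonneg _),
        ← Real.rpow_mul (U_nonneg _), ← Real.rpow_mul hu.le]
      congr 2
      · push_cast
        rw [hb]
        field_simp
      · push_cast
        ring
    have e3 : (1 + |t|) ^ (2 * j + 2) = (1 + |t|) ^ ((2 * i + 2) * a) * (1 + |t|) ^ ((2 * k + 2) * b) := by
      rw [← Real.rpow_natCast, ← Real.rpow_add hu]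
      congr 1
      push_cast
      have : (2 * (i : ℝ) + 2) * a + (2 * k + 2) * b = 2 * (i * a + k * b) + 2 * (a + b) := by ring
      rw [this, hab, ha, hb]
      field_simp
      ring
    have h3 := U_interp' h1 h2 hθ0 hθ1 t
    rw [← hσ, ← hK] at h3
    have h4 : U σ t ^ (2 * j) ≤ K ^ (2 * j) * ((U σ₁ t ^ (1 - θ)) ^ (2 * j) * (U σ₂ t ^ θ) ^ (2 * j)) := by
      rw [← mul_pow, ← mul_pow]
      exact pow_le_pow_left₀ (U_nonneg _) h3 _
    calc U σ t ^ (2 * j) / (1 + |t|) ^ (2 * j + 2)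
        ≤ K ^ (2 * j) * ((U σ₁ t ^ (1 - θ)) ^ (2 * j) * (U σ₂ t ^ θ) ^ (2 * j)) /
          (1 + |t|) ^ (2 * j + 2) := by gcongr
      _ = K ^ (2 * j) * (X ^ a * Y ^ b) := by
          rw [e1, e2, e3]
          field_simp
      _ ≤ K ^ (2 * j) * (a * X + b * Y) := by
          gcongr
          exact Real.geom_mean_le_arith_mean2_weighted ha0 hb0 hX0 hY0 hab
      _ ≤ K ^ (2 * j) * (X + Y) := by
          gcongr
          · nlinarith
          · nlinarith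
      _ = _ := rfl

end Pool.Agent.Lib.MP_bc6037_nt.Rec
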