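import Pool.Agent.Lib.MP_bc6037_nt.RecCompare
import Pool.Agent.Lib.MP_bc6037_nt.MeanSquare
import Pool.Agent.Lib.MP_bc6037_nt.Limit

set_option autoImplicit false

/-!
Finiteness of the weighted moments gives mean-square bounds for `Err k P`.
-/

open MeasureTheory Complex Filter Set Metric
open scoped Topology

namespace Pool.Agent.Lib.MP_bc6037_nt.Rec

open ZetaGrowth DeltaMellin MainPoly OneSided HoloInt ParsevalErr Landau MeanSquare Exponents Limit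

lemma integrable_inv_sq : Integrable fun y : ℝ => 1 / (1 + |y|) ^ 2 := by
  have := integrable_one_add_norm (E := ℝ) (μ := volume) (r := 2) (by simp)
  refine this.congr (ae_of_all _ fun y => ?_)
  simp only [Real.norm_eq_abs]
  rw [Real.rpow_neg (by positivity), one_div]
  norm_cast

/-- The dominating function. -/
noncomputable def gg (k : ℕ) (σ₁ σ₂ y : ℝ) : ℝ :=
  U σ₁ y ^ (2 * k) / (1 + |y|) ^ (2 * k + 2) + U σ₂ y ^ (2 * k) / (1 + |y|) ^ (2 * k + 2) +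
    1 / (1 + |y|) ^ 2

lemma integrable_gg {k : ℕ} {σ₁ σ₂ : ℝ} (h1 : Fin k σ₁) (h2 : Fin k σ₂) :
    Integrable (gg k σ₁ σ₂) := (h1.add h2).add integrable_inv_sq

lemma U_le_add {σ₁ σ₂ : ℝ} (h0 : 0 < σ₁) (h12 : σ₁ < σ₂) {σ : ℝ} (h1 : σ₁ ≤ σ) (h2 : σ ≤ σ₂)
    (t : ℝ) : U σ t ≤ Real.exp ((σ₂ - σ₁) ^ 2 + 1) * (U σ₁ t + U σ₂ t) := by
  refine (U_interp h0 h12 h1 h2 t).trans ?_
  have hd : 0 < σ₂ - σ₁ := by linarith
  have hθ0 : 0 ≤ (σ - σ₁) / (σ₂ - σ₁) := div_nonneg (by linarith) hd.le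
  have hθ1 : (σ - σ₁) / (σ₂ - σ₁) ≤ 1 := (div_le_one hd).2 (by linarith)
  apply mul_le_mul_of_nonneg_left _ (Real.exp_pos _).le
  have h3 := Real.geom_mean_le_arith_mean2_weighted (by linarith : 0 ≤ 1 - (σ - σ₁) / (σ₂ - σ₁)) hθ0
    (U_nonneg (σ := σ₁) t) (U_nonneg (σ := σ₂) t) (by ring)
  refine h3.trans ?_
  nlinarith [U_nonneg (σ := σ₁) t, U_nonneg (σ := σ₂) t]

/-- Bound for `‖Z‖²` near the line. -/
lemma Z_sq_le_gg {k : ℕ} {P : Polynomial ℝ} {Z : ℂ → ℂ}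
    (hZ : DifferentiableOn ℂ Z {s : ℂ | 0 < s.re})
    (hZ' : ∀ s : ℂ, 0 < s.re → s ≠ 1 → Z s = riemannZeta s ^ k / s - Q P s)
    {σ₁ σ₂ : ℝ} (h0 : 0 < σ₁) (h12 : σ₁ < σ₂) (V : ℝ) : ∃ C : ℝ, 0 ≤ C ∧ ∀ s : ℂ, σ₁ ≤ s.re →
      s.re ≤ σ₂ → ∀ y : ℝ, |s.im - y| ≤ V → ‖Z s‖ ^ 2 ≤ C * gg k σ₁ σ₂ y := by
  obtain ⟨C, hC0, hC⟩ := Z_sq_le hZ hZ' σ₂ h0
  set K := Real.exp V * Real.exp ((σ₂ - σ₁) ^ 2 + 1) with hK
  have hK0 : 0 < K := by positivity
  set A := max ((1 + |V|) ^ (2 * k + 2) * (K ^ (2 * k) * 2 ^ (2 * k))) ((1 + |V|) ^ 2) with hA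
  refine ⟨C * A, by positivity, ?_⟩
  intro s hs1 hs2 y hy
  refine (hC s hs1 hs2).trans ?_
  rw [mul_assoc]
  apply mul_le_mul_of_nonneg_left _ hC0
  have hV0 : 0 ≤ V := (abs_nonneg _).trans hy
  have hs0 : 0 < s.re := h0.trans_le hs1
  have u1 : 1 + |y| ≤ (1 + |V|) * (1 + |s.im|) := by
    have h1 := abs_sub_abs_le_abs_sub y s.im
    rw [abs_sub_comm] at h1
    rw [abs_of_nonneg hV0]
    nlinarith [abs_nonneg s.im, mul_nonneg hV0 (abs_nonneg s.im)]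
  have hu : 0 < 1 + |s.im| := by positivity
  have hy0 : 0 < 1 + |y| := by positivity
  have n1 : ‖H s‖ ≤ K * (U σ₁ y + U σ₂ y) := by
    have h1 := le_U hs0 s.im y
    rw [Complex.re_add_im] at h1
    have h2 := U_le_add h0 h12 hs1 hs2 y
    have h3 : ‖H s‖ ≤ Real.exp V * U s.re y := by
      calc ‖H s‖ = Real.exp |s.im - y| * (‖H s‖ * Real.exp (-|s.im - y|)) := by
            rw [mul_left_comm, ← Real.exp_add]
            simp
        _ ≤ Real.exp V * U s.re y := by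
            gcongr
    calc ‖H s‖ ≤ Real.exp V * U s.re y := h3
      _ ≤ Real.exp V * (Real.exp ((σ₂ - σ₁) ^ 2 + 1) * (U σ₁ y + U σ₂ y)) := by gcongr
      _ = _ := by rw [hK]; ring
  have n2 : ‖H s‖ ^ (2 * k) ≤ K ^ (2 * k) * 2 ^ (2 * k) * (U σ₁ y ^ (2 * k) + U σ₂ y ^ (2 * k)) := by
    have h1 := pow_le_pow_left₀ (norm_nonneg _) n1 (2 * k)
    rw [mul_pow] at h1
    have h2 := add_pow_le (U_nonneg (σ := σ₁) y) (U_nonneg (σ := σ₂) y) (2 * k)
    have h3 : (2 : ℝ) ^ (2 * k - 1) ≤ 2 ^ (2 * k) := pow_le_pow_right₀ (by norm_num) (Nat.sub_le _ _)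
    have h4 : 0 ≤ U σ₁ y ^ (2 * k) + U σ₂ y ^ (2 * k) :=
      add_nonneg (pow_nonneg (U_nonneg _) _) (pow_nonneg (U_nonneg _) _)
    calc ‖H s‖ ^ (2 * k) ≤ K ^ (2 * k) * (U σ₁ y + U σ₂ y) ^ (2 * k) := h1
      _ ≤ K ^ (2 * k) * (2 ^ (2 * k - 1) * (U σ₁ y ^ (2 * k) + U σ₂ y ^ (2 * k))) := by gcongr
      _ ≤ K ^ (2 * k) * (2 ^ (2 * k) * (U σ₁ y ^ (2 * k) + U σ₂ y ^ (2 * k))) := by gcongr
      _ = _ := by ring
  have hU : 0 ≤ U σ₁ y ^ (2 * k) + U σ₂ y ^ (2 * k) :=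
      add_nonneg (pow_nonneg (U_nonneg _) _) (pow_nonneg (U_nonneg _) _)
  have m1 : ‖H s‖ ^ (2 * k) / (1 + |s.im|) ^ (2 * k + 2) ≤
      A * ((U σ₁ y ^ (2 * k) + U σ₂ y ^ (2 * k)) / (1 + |y|) ^ (2 * k + 2)) := by
    have h1 : (1 + |y|) ^ (2 * k + 2) ≤ (1 + |V|) ^ (2 * k + 2) * (1 + |s.im|) ^ (2 * k + 2) := by
      rw [← mul_pow]
      exact pow_le_pow_left₀ (by positivity) u1 _
    rw [← mul_div_assoc, div_le_div_iff₀ (by positivity) (by positivity)]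
    calc ‖H s‖ ^ (2 * k) * (1 + |y|) ^ (2 * k + 2)
        ≤ (K ^ (2 * k) * 2 ^ (2 * k) * (U σ₁ y ^ (2 * k) + U σ₂ y ^ (2 * k))) *
          ((1 + |V|) ^ (2 * k + 2) * (1 + |s.im|) ^ (2 * k + 2)) := by gcongr
      _ = ((1 + |V|) ^ (2 * k + 2) * (K ^ (2 * k) * 2 ^ (2 * k))) *
          (U σ₁ y ^ (2 * k) + U σ₂ y ^ (2 * k)) * (1 + |s.im|) ^ (2 * k + 2) := by ring
      _ ≤ A * (U σ₁ y ^ (2 * k) + U σ₂ y ^ (2 * k)) * (1 + |s.im|) ^ (2 * k + 2) := by
          gcongr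
          exact le_max_left _ _
  have m2 : 1 / (1 + |s.im|) ^ 2 ≤ A * (1 / (1 + |y|) ^ 2) := by
    have h1 : (1 + |y|) ^ 2 ≤ (1 + |V|) ^ 2 * (1 + |s.im|) ^ 2 := by
      rw [← mul_pow]
      exact pow_le_pow_left₀ (by positivity) u1 _
    rw [mul_one_div, div_le_div_iff₀ (by positivity) (by positivity), one_mul]
    refine h1.trans ?_
    gcongr
    exact le_max_right _ _
  have e : gg k σ₁ σ₂ y = (U σ₁ y ^ (2 * k) + U σ₂ y ^ (2 * k)) / (1 + |y|) ^ (2 * k + 2) +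
      1 / (1 + |y|) ^ 2 := by
    rw [gg, add_div]
  rw [e, mul_add]
  exact add_le_add m1 m2

/-- Local domination for the bilinear integral. -/
lemma dom {k : ℕ} {P : Polynomial ℝ} {Z : ℂ → ℂ}
    (hZ : DifferentiableOn ℂ Z {s : ℂ | 0 < s.re})
    (hZ' : ∀ s : ℂ, 0 < s.re → s ≠ 1 → Z s = riemannZeta s ^ k / s - Q P s)
    {c : ℝ} (hc : 0 ≤ c) (h : ∀ σ, c < σ → Fin k σ) {s₀ : ℂ} (hs₀ : c < s₀.re) :
    ∃ r : ℝ, 0 < r ∧ (∀ s ∈ ball s₀ r, c < s.re) ∧ ∃ b : ℝ → ℝ, Integrable b ∧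
      ∀ s ∈ ball s₀ r, ∀ ξ : ℝ,
        ‖Z (s + 2 * Real.pi * ξ * I) * Z (s - 2 * Real.pi * ξ * I)‖ ≤ b ξ := by
  set r : ℝ := min ((s₀.re - c) / 2) 1 with hr
  have hr0 : 0 < r := lt_min (by linarith) one_pos
  have hr1 : r ≤ 1 := min_le_right _ _
  have hr2 : r ≤ (s₀.re - c) / 2 := min_le_left _ _
  have hre : ∀ s ∈ ball s₀ r, s₀.re - r < s.re ∧ s.re < s₀.re + r := by
    intro s hs
    rw [mem_ball, dist_eq_norm] at hs
    have h1 := (Complex.abs_re_le_norm (s - s₀)).trans_lt hs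
    simp only [Complex.sub_re] at h1
    rw [abs_lt] at h1
    constructor <;> linarith [h1.1, h1.2]
  have him : ∀ s ∈ ball s₀ r, |s.im| ≤ |s₀.im| + 1 := by
    intro s hs
    rw [mem_ball, dist_eq_norm] at hs
    have h1 := (Complex.abs_im_le_norm (s - s₀)).trans hs.le
    simp only [Complex.sub_im] at h1
    have h3 := abs_sub_abs_le_abs_sub s.im s₀.im
    linarith
  have h1 : c < s₀.re - r := by linarith
  have h2 : c < s₀.re + r := by linarith
  obtain ⟨C, hC0, hC⟩ := Z_sq_le_gg hZ hZ' (k := k) (σ₁ := s₀.re - r) (σ₂ := s₀.re + r)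
    (by linarith) (by linarith) (|s₀.im| + 1)
  refine ⟨r, hr0, fun s hs => h1.trans (hre s hs).1, fun ξ =>
    C * gg k (s₀.re - r) (s₀.re + r) ((2 * Real.pi) * ξ) +
    C * gg k (s₀.re - r) (s₀.re + r) ((-(2 * Real.pi)) * ξ), ?_, ?_⟩
  · have hg := integrable_gg (h _ h1) (h _ h2)
    exact ((hg.comp_mul_left' (by positivity)).const_mul C).add
      ((hg.comp_mul_left' (by have := Real.pi_pos; intro h; linarith)).const_mul C)
  · intro s hs ξ
    have q1 := hC (s + 2 * Real.pi * ξ * I) (by simpa using (hre s hs).1.le)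
      (by simpa using (hre s hs).2.le) ((2 * Real.pi) * ξ) (by
        have : (s + 2 * Real.pi * ξ * I).im - 2 * Real.pi * ξ = s.im := by simp
        rw [this]
        exact him s hs)
    have q2 := hC (s - 2 * Real.pi * ξ * I) (by simpa using (hre s hs).1.le)
      (by simpa using (hre s hs).2.le) ((-(2 * Real.pi)) * ξ) (by
        have : (s - 2 * Real.pi * ξ * I).im - -(2 * Real.pi) * ξ = s.im := by simp
        rw [this]
        exact him s hs)
    rw [norm_mul]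
    have g1 : 0 ≤ ‖Z (s + 2 * Real.pi * ξ * I)‖ ^ 2 := by positivity
    have g2 : 0 ≤ ‖Z (s - 2 * Real.pi * ξ * I)‖ ^ 2 := by positivity
    nlinarith [sq_nonneg (‖Z (s + 2 * Real.pi * ξ * I)‖ - ‖Z (s - 2 * Real.pi * ξ * I)‖)]

lemma differentiableOn_J' {k : ℕ} {P : Polynomial ℝ} {Z : ℂ → ℂ}
    (hZ : DifferentiableOn ℂ Z {s : ℂ | 0 < s.re})
    (hZ' : ∀ s : ℂ, 0 < s.re → s ≠ 1 → Z s = riemannZeta s ^ k / s - Q P s)
    {c : ℝ} (hc : 0 ≤ c) (h : ∀ σ, c < σ → Fin k σ) :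
    DifferentiableOn ℂ (MeanSquare.J Z) {s : ℂ | c < s.re} := by
  intro s₀ hs₀
  have hs₀' : c < s₀.re := hs₀
  apply DifferentiableAt.differentiableWithinAt
  obtain ⟨r, hr0, hre, b, hb, hbd⟩ := dom hZ hZ' hc h hs₀'
  have hopen : IsOpen {s : ℂ | 0 < s.re} := isOpen_lt continuous_const Complex.continuous_re
  refine differentiableAt_integral hr0 ?_ ?_ hb ?_
  · intro ξ s hs
    have hs' := hre s hs
    have d1 : DifferentiableAt ℂ Z (s + 2 * Real.pi * ξ * I) :=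
      hZ.differentiableAt (hopen.mem_nhds (by
        show 0 < (s + 2 * Real.pi * ξ * I).re
        simp; linarith))
    have d2 : DifferentiableAt ℂ Z (s - 2 * Real.pi * ξ * I) :=
      hZ.differentiableAt (hopen.mem_nhds (by
        show 0 < (s - 2 * Real.pi * ξ * I).re
        simp; linarith))
    apply DifferentiableAt.differentiableWithinAt
    apply DifferentiableAt.fun_mul
    · exact DifferentiableAt.comp s d1 (differentiableAt_id.add_const _)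
    · exact DifferentiableAt.comp s d2 (differentiableAt_id.sub_const _)
  · intro s hs
    exact (continuous_F hZ (hc.trans_lt (hre s hs))).aestronglyMeasurable
  · intro s hs ξ
    exact hbd s hs ξ

/-- Mean-square bound from finiteness of the weighted moments. -/
theorem mean_square_of_fin {k : ℕ} {P : Polynomial ℝ} {Z : ℂ → ℂ}
    (hZ : DifferentiableOn ℂ Z {s : ℂ | 0 < s.re})
    (hZ' : ∀ s : ℂ, 0 < s.re → s ≠ 1 → Z s = riemannZeta s ^ k / s - Q P s)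
    {c : ℝ} (hc : 0 ≤ c) (h : ∀ σ, c < σ → Fin k σ) {b : ℝ} (hb : c < b) :
    ∃ C : ℝ, ∀ x : ℝ, 1 ≤ x → ∫ y in (1 : ℝ)..x, (Err k P y) ^ 2 ≤ C * x ^ (1 + 2 * b) := by
  have hEm := measurable_Err k P
  have hsqm : Measurable fun x => (Err k P x) ^ 2 := hEm.pow_const 2
  -- convergence at `3`
  have hconv3 : Conv (fun x => (Err k P x) ^ 2) 3 := by
    obtain ⟨C, hC0, hC⟩ := Err_le k P (by norm_num : (1 : ℝ) < 5 / 4)
    have h1 : IntegrableOn (fun x : ℝ => C ^ 2 * x ^ (-(3 / 2) : ℝ)) (Ioi 1) :=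
      (integrableOn_Ioi_rpow_of_lt (by norm_num) zero_lt_one).const_mul _
    refine h1.mono' (hsqm.mul (measurable_id.pow_const _)).aestronglyMeasurable ?_
    filter_upwards [ae_restrict_mem measurableSet_Ioi] with x hx
    have hx1 : (1 : ℝ) < x := hx
    have hx0 : (0 : ℝ) < x := by linarith
    rw [norm_mul, norm_pow, Real.norm_eq_abs, Real.norm_of_nonneg (Real.rpow_nonneg hx0.le _)]
    have h2 : |Err k P x| ^ 2 ≤ C ^ 2 * x ^ (5 / 2 : ℝ) := by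
      refine (pow_le_pow_left₀ (abs_nonneg _) (hC x hx1.le) 2).trans (le_of_eq ?_)
      rw [mul_pow, ← Real.rpow_natCast (x ^ (5 / 4 : ℝ)), ← Real.rpow_mul hx0.le]
      norm_num
    calc |Err k P x| ^ 2 * x ^ (-3 - 1 : ℝ) ≤ C ^ 2 * x ^ (5 / 2 : ℝ) * x ^ (-3 - 1 : ℝ) :=
          mul_le_mul_of_nonneg_right h2 (Real.rpow_nonneg hx0.le _)
      _ = C ^ 2 * x ^ (-(3 / 2) : ℝ) := by
          rw [mul_assoc, ← Real.rpow_add hx0]
          norm_num
  have hM : ∀ s : ℂ, 1 < s.re → M (Err k P) s = Z s := by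
    intro s hs
    have hs1 : s ≠ 1 := by
      intro h
      rw [h, Complex.one_re] at hs
      linarith
    rw [M, mellin_Err k P hs, hZ' s (by linarith) hs1]
  have hJ := differentiableOn_J' hZ hZ' hc h
  have hG : DifferentiableOn ℂ (fun w => MeanSquare.J Z (w / 2)) {w : ℂ | 2 * c < w.re} := by
    have hmaps : MapsTo (fun w : ℂ => w / 2) {w : ℂ | 2 * c < w.re} {s : ℂ | c < s.re} := by
      intro w hw
      have hw' : 2 * c < w.re := hw
      show c < (w / 2).re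
      simp only [Complex.div_ofNat_re]
      linarith
    exact hJ.comp (differentiableOn_id.div_const 2) hmaps
  have hconv : Conv (fun x => (Err k P x) ^ 2) (2 * b) := by
    refine landau_mellin (σ₀ := 2 * c) (σ₁ := max 3 (2 * c)) hsqm.aestronglyMeasurable
      (fun x _ => sq_nonneg _) (hconv3.mono (le_max_left _ _)) hG ?_ (2 * b) (by linarith)
    intro w hw
    have hw3 : 3 < w.re := lt_of_le_of_lt (le_max_left _ _) hw
    have hwc : 2 * c < w.re := lt_of_le_of_lt (le_max_right _ _) hw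
    have hre : (w / 2).re = w.re / 2 := by simp only [Complex.div_ofNat_re]
    have hs : 1 < (w / 2).re := by rw [hre]; linarith
    have hsc : c < (w / 2).re := by rw [hre]; linarith
    have e1 : ∀ ξ : ℝ, M (Err k P) (w / 2 + 2 * Real.pi * ξ * I) = Z (w / 2 + 2 * Real.pi * ξ * I) := by
      intro ξ
      apply hM
      have : (w / 2 + 2 * Real.pi * ξ * I).re = (w / 2).re := by simp
      rw [this]; exact hs
    have e2 : ∀ ξ : ℝ, M (Err k P) (w / 2 - 2 * Real.pi * ξ * I) = Z (w / 2 - 2 * Real.pi * ξ * I) := by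
      intro ξ
      apply hM
      have : (w / 2 - 2 * Real.pi * ξ * I).re = (w / 2).re := by simp
      rw [this]; exact hs
    have hint : Integrable (fun ξ : ℝ => M (Err k P) (w / 2 + 2 * Real.pi * ξ * I) *
        M (Err k P) (w / 2 - 2 * Real.pi * ξ * I)) := by
      simp only [e1, e2]
      obtain ⟨r, hr0, hre', b', hb', hbd⟩ := dom hZ hZ' hc h hsc
      refine hb'.mono' (continuous_F hZ (by linarith)).aestronglyMeasurable
        (ae_of_all _ fun ξ => ?_)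
      exact hbd _ (mem_ball_self hr0) ξ
    have h1 := parseval_Err k P hs hint
    simp only [e1, e2] at h1
    have e3 : 2 * (w / 2) = w := by ring
    rw [e3, M] at h1
    rw [MeanSquare.J, ← h1]
  obtain ⟨C, hC⟩ := mean_of_conv (fun x _ => sq_nonneg _) (locInt_Err_sq k P)
    (by linarith : (-1 : ℝ) ≤ 2 * b) hconv
  exact ⟨C, hC⟩

/-- Upper bound for `beta`. -/
theorem beta_le_of_fin {k : ℕ} {c : ℝ} (hc : 0 ≤ c) (h : ∀ σ, c < σ → Fin k σ) : beta k ≤ c := by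
  obtain ⟨Z, hZ, hZ', _⟩ := mainPoly_data k
  apply le_of_forall_pos_le_add
  intro ε hε
  obtain ⟨C, hC⟩ := mean_square_of_fin hZ hZ' hc h (b := c + ε) (by linarith)
  exact csInf_le (beta_set_bdd k) ⟨C, hC⟩

end Pool.Agent.Lib.MP_bc6037_nt.Rec
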