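import Pool.Agent.Lib.MP_bc6037_nt.RecPlancherel
import Pool.Agent.Lib.MP_bc6037_nt.RecUp

set_option autoImplicit false

/-!
Mean-square bounds for `Delta k` give finiteness of the weighted moments.
-/

open MeasureTheory Complex Filter Set Metric
open scoped Topology FourierTransform Convolution

namespace Pool.Agent.Lib.MP_bc6037_nt.Rec

open ZetaGrowth DeltaMellin MainPoly OneSided HoloInt ParsevalErr Landau Exponents Limit

/-- One-dimensional Sobolev inequality. -/
lemma sobolev {G D : ℝ → ℂ} (hG : ∀ x, HasDerivAt G (D x) x) (hD : Continuous D) (u : ℝ) :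
    ‖G u‖ ^ 2 ≤ 2 * ∫ x in u..(u + 1), (‖G x‖ ^ 2 + ‖D x‖ ^ 2) := by
  have hGc : Continuous G := continuous_iff_continuousAt.2 fun x => (hG x).continuousAt
  have hu : u ≤ u + 1 := by linarith
  set A := ∫ x in u..(u + 1), ‖D x‖ with hA
  have h1 : ∀ x ∈ Icc u (u + 1), ‖G u‖ ≤ ‖G x‖ + A := by
    intro x hx
    have e : ∫ y in u..x, D y = G x - G u :=
      intervalIntegral.integral_eq_sub_of_hasDerivAt (fun y _ => hG y) (hD.intervalIntegrable _ _)
    have e2 : ‖∫ y in u..x, D y‖ ≤ A := by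
      refine (intervalIntegral.norm_integral_le_integral_norm hx.1).trans ?_
      rw [hA]
      apply intervalIntegral.integral_mono_interval le_rfl hx.1 hx.2
      · exact ae_of_all _ fun _ => norm_nonneg _
      · exact hD.norm.intervalIntegrable _ _
    have e3 : G u = G x - ∫ y in u..x, D y := by rw [e]; ring
    calc ‖G u‖ = ‖G x - ∫ y in u..x, D y‖ := by rw [← e3]
      _ ≤ ‖G x‖ + ‖∫ y in u..x, D y‖ := norm_sub_le _ _
      _ ≤ _ := by linarith
  have h2 : ‖G u‖ ≤ ∫ x in u..(u + 1), (‖G x‖ + ‖D x‖) := by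
    have h3 : ∫ x in u..(u + 1), ‖G u‖ ≤ ∫ x in u..(u + 1), (‖G x‖ + A) := by
      apply intervalIntegral.integral_mono_on hu (by simp)
        ((hGc.norm.add continuous_const).intervalIntegrable _ _)
      exact h1
    rw [intervalIntegral.integral_const, intervalIntegral.integral_add
      (hGc.norm.intervalIntegrable _ _) (by simp), intervalIntegral.integral_const] at h3
    rw [intervalIntegral.integral_add (hGc.norm.intervalIntegrable _ _)
      (hD.norm.intervalIntegrable _ _), ← hA]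
    simpa using h3
  set φ : ℝ → ℝ := fun x => ‖G x‖ + ‖D x‖ with hφ
  have hφc : Continuous φ := hGc.norm.add hD.norm
  set c := ∫ x in u..(u + 1), φ x with hc
  have h4 : c ^ 2 ≤ ∫ x in u..(u + 1), φ x ^ 2 := by
    have h5 : 0 ≤ ∫ x in u..(u + 1), (φ x - c) ^ 2 :=
      intervalIntegral.integral_nonneg hu fun x _ => sq_nonneg _
    have h6 : ∫ x in u..(u + 1), (φ x - c) ^ 2 =
        (∫ x in u..(u + 1), φ x ^ 2) - c ^ 2 := by
      have e : ∀ x, (φ x - c) ^ 2 = φ x ^ 2 - 2 * c * φ x + c ^ 2 := fun x => by ring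
      simp only [e]
      rw [intervalIntegral.integral_add, intervalIntegral.integral_sub,
        intervalIntegral.integral_const_mul, ← hc, intervalIntegral.integral_const]
      · simp
        ring
      · exact (hφc.pow 2).intervalIntegrable _ _
      · exact (continuous_const.mul hφc).intervalIntegrable _ _
      · exact ((hφc.pow 2).sub (continuous_const.mul hφc)).intervalIntegrable _ _
      · simp
    linarith
  calc ‖G u‖ ^ 2 ≤ c ^ 2 := pow_le_pow_left₀ (norm_nonneg _) h2 2
    _ ≤ ∫ x in u..(u + 1), φ x ^ 2 := h4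
    _ ≤ ∫ x in u..(u + 1), 2 * (‖G x‖ ^ 2 + ‖D x‖ ^ 2) := by
        apply intervalIntegral.integral_mono_on hu ((hφc.pow 2).intervalIntegrable _ _)
        · exact (continuous_const.mul ((hGc.norm.pow 2).add (hD.norm.pow 2))).intervalIntegrable _ _
        · intro x _
          show (‖G x‖ + ‖D x‖) ^ 2 ≤ 2 * (‖G x‖ ^ 2 + ‖D x‖ ^ 2)
          nlinarith [sq_nonneg (‖G x‖ - ‖D x‖)]
    _ = _ := by rw [intervalIntegral.integral_const_mul]

/-- Square integrability of the Fourier-side function. -/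
lemma memLp_ff {k : ℕ} {P : Polynomial ℝ} {τ : ℝ} (h : Conv (fun x => (Err k P x) ^ 2) (2 * τ)) :
    MemLp (ff k P τ) 2 := by
  have hm : AEStronglyMeasurable (ff k P τ) volume := by
    unfold ff
    apply AEStronglyMeasurable.indicator _ measurableSet_Ioi
    apply Measurable.aestronglyMeasurable
    exact (measurable_ofReal.comp ((measurable_Err k P).comp Real.measurable_exp)).mul
      (by fun_prop)
  rw [memLp_two_iff_integrable_sq_norm hm]
  have h1 : (fun y => ‖ff k P τ y‖ ^ 2) = (Ioi (0 : ℝ)).indicator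
      (fun y => Real.exp y • ((Err k P (Real.exp y)) ^ 2 * (Real.exp y) ^ (-(2 * τ) - 1))) := by
    ext y
    unfold ff
    by_cases hy : y ∈ Ioi (0 : ℝ)
    · rw [indicator_of_mem hy, indicator_of_mem hy, norm_mul, Complex.norm_real, Complex.norm_exp,
        mul_pow, Real.norm_eq_abs, sq_abs, smul_eq_mul, ← Real.exp_mul, ← Real.exp_nat_mul,
        mul_left_comm, ← Real.exp_add]
      congr 2
      simp
      ring
    · rw [indicator_of_notMem hy, indicator_of_notMem hy]
      simp
  rw [h1, integrable_indicator_iff measurableSet_Ioi]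
  exact (integrableOn_Ioi_one _).1 h

lemma integrable_ff' {k : ℕ} {P : Polynomial ℝ} {τ : ℝ} (h : Conv (Err k P) τ) :
    Integrable (ff k P τ) := by
  unfold ff
  rw [integrable_indicator_iff measurableSet_Ioi]
  have h1 := (integrableOn_Ioi_one _).1 (h.complex (s := (τ : ℂ)) (by simp))
  refine h1.congr_fun ?_ measurableSet_Ioi
  intro y _
  exact smul_exp_eq k P τ y

lemma norm_ff_le {k : ℕ} {P : Polynomial ℝ} {τ σ : ℝ} (h : τ < σ) (y : ℝ) :
    ‖(y : ℂ) * ff k P σ y‖ ≤ (1 / (σ - τ)) * ‖ff k P τ y‖ := by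
  unfold ff
  have hd : 0 < σ - τ := by linarith
  by_cases hy : y ∈ Ioi (0 : ℝ)
  · have hy0 : (0 : ℝ) < y := hy
    rw [indicator_of_mem hy, indicator_of_mem hy, norm_mul, norm_mul, norm_mul, Complex.norm_exp,
      Complex.norm_exp, Complex.norm_real, Complex.norm_real, Real.norm_eq_abs, abs_of_pos hy0]
    have e1 : (-(σ : ℂ) * (y : ℂ)).re = -(σ * y) := by simp
    have e2 : (-(τ : ℂ) * (y : ℂ)).re = -(τ * y) := by simp
    rw [e1, e2]
    have e3 : Real.exp (-(σ * y)) = Real.exp (-((σ - τ) * y)) * Real.exp (-(τ * y)) := by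
      rw [← Real.exp_add]
      congr 1
      ring
    have e4 : y * Real.exp (-((σ - τ) * y)) ≤ 1 / (σ - τ) := by
      rw [le_div_iff₀ hd]
      have h1 := Real.add_one_le_exp ((σ - τ) * y)
      have h2 : Real.exp ((σ - τ) * y) * Real.exp (-((σ - τ) * y)) = 1 := by
        rw [← Real.exp_add]; simp
      nlinarith [Real.exp_pos (-((σ - τ) * y))]
    rw [e3]
    calc _ = (y * Real.exp (-((σ - τ) * y))) *
          (‖Err k P (Real.exp y)‖ * Real.exp (-(τ * y))) := by ring
      _ ≤ (1 / (σ - τ)) * (‖Err k P (Real.exp y)‖ * Real.exp (-(τ * y))) := by gcongr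
  · rw [indicator_of_notMem hy, indicator_of_notMem hy]
    simp

lemma integrable_exp_abs : Integrable fun x : ℝ => Real.exp (-|x|) := by
  have h1 : IntegrableOn (fun x : ℝ => Real.exp (-|x|)) (Ioi 0) := by
    refine (integrableOn_exp_neg_Ioi 0).congr_fun ?_ measurableSet_Ioi
    intro x hx
    simp only
    rw [abs_of_pos hx]
  have h2 : IntegrableOn (fun x : ℝ => Real.exp (-|x|)) (Iic 0) := by
    refine (integrableOn_exp_Iic 0).congr_fun ?_ measurableSet_Iic
    intro x hx
    simp only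
    rw [abs_of_nonpos hx, neg_neg]
  rw [← integrableOn_univ, ← Iic_union_Ioi (a := (0 : ℝ))]
  exact h2.union h1

lemma poly_exp_bound (k : ℕ) (hk : 1 ≤ k) : ∃ C : ℝ, 0 ≤ C ∧ ∀ x : ℝ, 0 ≤ x →
    (1 + x) ^ (2 * k + 2) * Real.exp (-x) ^ (2 * k) ≤ C * Real.exp (-x) := by
  refine ⟨((2 * k + 2).factorial : ℝ) * Real.exp 1, by positivity, fun x hx => ?_⟩
  have h1 := Real.pow_div_factorial_le_exp (1 + x) (by positivity) (2 * k + 2)
  rw [div_le_iff₀ (by positivity)] at h1
  have h2 : Real.exp (-x) ^ (2 * k) ≤ Real.exp (-x) * Real.exp (-x) := by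
    rw [← pow_two]
    apply pow_le_pow_of_le_one (Real.exp_pos _).le
    · rw [Real.exp_le_one_iff]; linarith
    · omega
  calc (1 + x) ^ (2 * k + 2) * Real.exp (-x) ^ (2 * k)
      ≤ (Real.exp (1 + x) * ((2 * k + 2).factorial : ℝ)) * (Real.exp (-x) * Real.exp (-x)) := by
        gcongr
    _ = ((2 * k + 2).factorial : ℝ) * Real.exp 1 * Real.exp (-x) * (Real.exp x * Real.exp (-x)) := by
        rw [Real.exp_add]; ring
    _ = _ := by rw [← Real.exp_add]; simp

/-- Convergence of the mean square to the right of `beta`. -/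
lemma conv_sq_of_beta {k : ℕ} {τ : ℝ} (hτ : beta k < τ) :
    Conv (fun x => (Err k (mainPoly k) x) ^ 2) (2 * τ) := by
  obtain ⟨b, ⟨C, hC⟩, hb⟩ := exists_lt_of_csInf_lt (beta_set_nonempty k) hτ
  have hb0 := beta_set_nonneg hC
  exact conv_of_mean ((measurable_Err k _).pow_const 2) (fun x _ => sq_nonneg _)
    (MeanSquare.locInt_Err_sq k _) hC (by linarith) (by linarith)

lemma conv_of_beta {k : ℕ} {τ : ℝ} (hτ : beta k < τ) : Conv (Err k (mainPoly k)) τ := by
  obtain ⟨b, ⟨C, hC⟩, hb⟩ := exists_lt_of_csInf_lt (beta_set_nonempty k) hτ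
  have hb0 := beta_set_nonneg hC
  obtain ⟨C', hC'⟩ := abs_of_sq hC
  have h1 : Conv (fun x => |Err k (mainPoly k) x|) τ :=
    conv_of_mean (measurable_Err k _).abs (fun x _ => abs_nonneg _)
      (fun X => (locInt_Delta k X).abs) hC' hb (by linarith)
  unfold Conv at h1 ⊢
  refine h1.mono' (((measurable_Err k _).mul (measurable_id.pow_const _)).aestronglyMeasurable) ?_
  filter_upwards [ae_restrict_mem measurableSet_Ioi] with x hx
  have hx1 : (1 : ℝ) < x := hx
  rw [norm_mul, Real.norm_eq_abs, Real.norm_of_nonneg (Real.rpow_nonneg (by linarith) _)]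

lemma beta_nonneg (k : ℕ) : 0 ≤ beta k :=
  le_csInf (beta_set_nonempty k) fun _ ⟨_, h⟩ => beta_set_nonneg h

/-- `Z` on the line `σ` is square integrable together with a continuous derivative. -/
lemma exists_line {k : ℕ} {Z : ℂ → ℂ}
    (hZ : DifferentiableOn ℂ Z {s : ℂ | 0 < s.re})
    (hZ' : ∀ s : ℂ, 0 < s.re → s ≠ 1 → Z s = riemannZeta s ^ k / s - Q (mainPoly k) s)
    {σ : ℝ} (hσ : beta k < σ) : ∃ D : ℝ → ℂ, Continuous D ∧
      (∀ x : ℝ, HasDerivAt (fun u : ℝ => Z (σ + u * I)) (D x) x) ∧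
      (Integrable fun x : ℝ => ‖Z (σ + x * I)‖ ^ 2) ∧ Integrable fun x : ℝ => ‖D x‖ ^ 2 := by
  set P := mainPoly k with hP
  obtain ⟨τ, hτ1, hτ2⟩ := exists_between hσ
  have f1 : Integrable (ff k P σ) := integrable_ff' (conv_of_beta hσ)
  have f2 : MemLp (ff k P σ) 2 := memLp_ff (conv_sq_of_beta hσ)
  have g1 : Integrable (ff k P τ) := integrable_ff' (conv_of_beta hτ1)
  have g2 : MemLp (ff k P τ) 2 := memLp_ff (conv_sq_of_beta hτ1)
  have fm : Measurable (ff k P σ) := by
    unfold ff
    apply Measurable.indicator _ measurableSet_Ioi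
    exact (measurable_ofReal.comp ((measurable_Err k P).comp Real.measurable_exp)).mul
      (by fun_prop)
  have hd : 0 < σ - τ := by linarith
  have f3 : Integrable (fun y : ℝ => (y : ℂ) * ff k P σ y) := by
    refine (g1.norm.const_mul (1 / (σ - τ))).mono'
      ((measurable_ofReal.mul fm).aestronglyMeasurable) (ae_of_all _ fun y => norm_ff_le hτ2 y)
  have f4 : MemLp (fun y : ℝ => (y : ℂ) * ff k P σ y) 2 := by
    refine (g2.norm.const_mul (1 / (σ - τ))).mono ((measurable_ofReal.mul fm).aestronglyMeasurable)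
      (ae_of_all _ fun y => ?_)
    refine (norm_ff_le hτ2 y).trans (le_of_eq ?_)
    rw [norm_mul, norm_norm, Real.norm_of_nonneg (by positivity)]
  set f' : ℝ → ℂ := fun x : ℝ => (-2 * Real.pi * I * x) • ff k P σ x with hf'
  have hf'e : f' = fun x : ℝ => (-2 * Real.pi * I) * ((x : ℂ) * ff k P σ x) := by
    ext x
    simp only [hf', smul_eq_mul]
    ring
  have f5 : Integrable f' := by rw [hf'e]; exact f3.const_mul _
  have f6 : MemLp f' 2 := by rw [hf'e]; exact f4.const_mul _
  have hder : ∀ w : ℝ, HasDerivAt (𝓕 (ff k P σ)) (𝓕 f' w) w := by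
    intro w
    apply Real.hasDerivAt_fourier f1
    refine f3.congr (ae_of_all _ fun y => ?_)
    simp
  have hFc : ∀ {g : ℝ → ℂ}, Integrable g → Continuous (𝓕 g) := fun hg =>
    VectorFourier.fourierIntegral_continuous Real.continuous_fourierChar
      (by exact continuous_inner) hg
  have hFZ : ∀ ξ : ℝ, 𝓕 (ff k P σ) ξ = Z (σ + 2 * Real.pi * ξ * I) := by
    intro ξ
    rw [fourier_ff]
    apply M_eq_Z hZ hZ' (a := beta k) (beta_nonneg k) (fun τ hτ => conv_of_beta hτ)
    simpa using hσ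
  have hpi : (2 * Real.pi : ℝ) ≠ 0 := by positivity
  have hZF : ∀ u : ℝ, Z (σ + u * I) = 𝓕 (ff k P σ) ((2 * Real.pi)⁻¹ * u) := by
    intro u
    rw [hFZ]
    congr 3
    push_cast
    field_simp
  have i1 : Integrable fun ξ : ℝ => ‖𝓕 (ff k P σ) ξ‖ ^ 2 :=
    (memLp_two_iff_integrable_sq_norm (hFc f1).aestronglyMeasurable).1 (plancherel f1 f2).1
  have i2 : Integrable fun ξ : ℝ => ‖𝓕 f' ξ‖ ^ 2 :=
    (memLp_two_iff_integrable_sq_norm (hFc f5).aestronglyMeasurable).1 (plancherel f5 f6).1
  refine ⟨fun x => ((2 * Real.pi)⁻¹ : ℝ) • 𝓕 f' ((2 * Real.pi)⁻¹ * x), ?_, ?_, ?_, ?_⟩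
  · exact ((hFc f5).comp (continuous_const.mul continuous_id)).const_smul ((2 * Real.pi)⁻¹ : ℝ)
  · intro x
    have h1 : (fun u : ℝ => Z (σ + u * I)) = fun u => 𝓕 (ff k P σ) ((2 * Real.pi)⁻¹ * u) :=
      funext hZF
    rw [h1]
    have h2 : HasDerivAt (fun u : ℝ => (2 * Real.pi)⁻¹ * u) ((2 * Real.pi)⁻¹) x := by
      simpa using (hasDerivAt_id x).const_mul ((2 * Real.pi)⁻¹)
    exact HasDerivAt.scomp x (hder _) h2
  · have := i1.comp_mul_left' (inv_ne_zero hpi)
    refine this.congr (ae_of_all _ fun u => ?_)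
    simp only
    rw [← hZF]
  · have := (i2.comp_mul_left' (inv_ne_zero hpi)).const_mul (((2 * Real.pi)⁻¹) ^ 2)
    refine this.congr (ae_of_all _ fun u => ?_)
    simp only
    rw [norm_smul, mul_pow, Real.norm_of_nonneg (by positivity)]

/-- **Finiteness of the weighted moments to the right of `beta`.** -/
theorem fin_of_beta {k : ℕ} (hk : 1 ≤ k) {σ : ℝ} (hσ : beta k < σ) : Fin k σ := by
  obtain ⟨Z, hZ, hZ', _⟩ := mainPoly_data k
  have hσ0 : 0 < σ := (beta_nonneg k).trans_lt hσ
  obtain ⟨D, hDc, hD, i1, i2⟩ := exists_line hZ hZ' hσ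
  obtain ⟨C₁, hC₁0, hC₁⟩ := H_pow_le hZ' σ hσ0
  obtain ⟨C₂, hC₂0, hC₂⟩ := poly_exp_bound k hk
  set G : ℝ → ℂ := fun u => Z (σ + u * I) with hG
  have hGc : Continuous G := continuous_iff_continuousAt.2 fun x => (hD x).continuousAt
  set h : ℝ → ℝ := fun x => ‖G x‖ ^ 2 + ‖D x‖ ^ 2 + 1 / (1 + |x|) ^ 2 with hh
  have hi : Integrable h := (i1.add i2).add integrable_inv_sq
  have hc : Continuous h := by
    apply Continuous.add ((hGc.norm.pow 2).add (hDc.norm.pow 2))
    exact continuous_const.div (by fun_prop) (fun x => by positivity)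
  have h0 : ∀ x, 0 ≤ h x := fun x => by positivity
  set E : ℝ → ℝ := fun x => Real.exp (-|x|) with hE
  have hEi : Integrable E := integrable_exp_abs
  have hW := hi.integrable_convolution (ContinuousLinearMap.mul ℝ ℝ) hEi
  have hWe : ∀ t, (h ⋆[ContinuousLinearMap.mul ℝ ℝ] E) t = ∫ x, h x * Real.exp (-|t - x|) := by
    intro t
    rw [convolution_def]
    rfl
  have hloc : ∀ t, Integrable fun x => h x * Real.exp (-|t - x|) := by
    intro t
    refine hi.mono' (by fun_prop) (ae_of_all _ fun x => ?_)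
    rw [norm_mul, Real.norm_of_nonneg (h0 x), Real.norm_of_nonneg (Real.exp_pos _).le]
    have : Real.exp (-|t - x|) ≤ 1 := by
      rw [Real.exp_le_one_iff]
      simp
    nlinarith [h0 x]
  -- local bound for `‖G u‖² + 1/(1+|u|)²`
  have key : ∀ u : ℝ, ‖G u‖ ^ 2 + 1 / (1 + |u|) ^ 2 ≤ 4 * ∫ x in u..(u + 1), h x := by
    intro u
    have k1 := sobolev hD hDc u
    have hu : u ≤ u + 1 := by linarith
    have k2 : 1 / (1 + |u|) ^ 2 ≤ 4 * ∫ x in u..(u + 1), 1 / (1 + |x|) ^ 2 := by
      have k3 : ∫ x in u..(u + 1), (1 / (4 * (1 + |u|) ^ 2)) ≤ ∫ x in u..(u + 1), 1 / (1 + |x|) ^ 2 := by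
        apply intervalIntegral.integral_mono_on hu (by simp)
        · apply Continuous.intervalIntegrable
          exact continuous_const.div (by fun_prop) (fun x => by positivity)
        · intro x hx
          apply one_div_le_one_div_of_le (by positivity)
          have h1 : |x| ≤ |u| + 1 := by
            have h2 := abs_sub_abs_le_abs_sub x u
            have h3 : |x - u| ≤ 1 := by rw [abs_le]; constructor <;> linarith [hx.1, hx.2]
            linarith
          have h2 : 1 + |x| ≤ 2 * (1 + |u|) := by linarith [abs_nonneg u]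
          have h3 := pow_le_pow_left₀ (by positivity) h2 2
          linarith [h3, mul_pow 2 (1 + |u|) 2]
      rw [intervalIntegral.integral_const] at k3
      have e : (1 : ℝ) / (4 * (1 + |u|) ^ 2) = 1 / 4 * (1 / (1 + |u|) ^ 2) := by
        field_simp
      rw [e] at k3
      simp only [add_sub_cancel_left, smul_eq_mul, one_mul] at k3
      linarith
    have k4 : ∫ x in u..(u + 1), h x = (∫ x in u..(u + 1), (‖G x‖ ^ 2 + ‖D x‖ ^ 2)) +
        ∫ x in u..(u + 1), 1 / (1 + |x|) ^ 2 := by
      simp only [hh]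
      rw [intervalIntegral.integral_add]
      · exact ((hGc.norm.pow 2).add (hDc.norm.pow 2)).intervalIntegrable _ _
      · apply Continuous.intervalIntegrable
        exact continuous_const.div (by fun_prop) (fun x => by positivity)
    have k5 : 0 ≤ ∫ x in u..(u + 1), (‖G x‖ ^ 2 + ‖D x‖ ^ 2) :=
      intervalIntegral.integral_nonneg hu fun x _ => by positivity
    rw [k4]
    linarith
  set K : ℝ := C₁ * C₂ * (4 * Real.exp 1) with hK
  have hK0 : 0 ≤ K := by positivity
  -- pointwise bound for `U`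
  have main : ∀ t : ℝ, U σ t ^ (2 * k) / (1 + |t|) ^ (2 * k + 2) ≤
      K * ∫ x, h x * Real.exp (-|t - x|) := by
    intro t
    have hRHS0 : 0 ≤ K * ∫ x, h x * Real.exp (-|t - x|) :=
      mul_nonneg hK0 (integral_nonneg fun x => mul_nonneg (h0 x) (Real.exp_pos _).le)
    rw [div_le_iff₀ (by positivity)]
    have m0 : ∀ u : ℝ, (‖H (σ + u * I)‖ * Real.exp (-|u - t|)) ^ (2 * k) ≤
        (K * ∫ x, h x * Real.exp (-|t - x|)) * (1 + |t|) ^ (2 * k + 2) := by
      intro u
      have m1 := hC₁ (σ + u * I) (by simp) (by simp)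
      have e1 : (σ + u * I : ℂ).im = u := by simp
      rw [e1] at m1
      have m2 : (1 + |u|) ≤ (1 + |t|) * (1 + |u - t|) := by
        have := abs_sub_abs_le_abs_sub u t
        nlinarith [abs_nonneg t, abs_nonneg (u - t), mul_nonneg (abs_nonneg t) (abs_nonneg (u - t))]
      have m3 : (1 + |u|) ^ (2 * k + 2) ≤ (1 + |t|) ^ (2 * k + 2) * (1 + |u - t|) ^ (2 * k + 2) := by
        rw [← mul_pow]
        exact pow_le_pow_left₀ (by positivity) m2 _
      have m4 := hC₂ |u - t| (abs_nonneg _)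
      have m5 := key u
      have m6 : Real.exp (-|u - t|) * ∫ x in u..(u + 1), h x ≤
          Real.exp 1 * ∫ x, h x * Real.exp (-|t - x|) := by
        have hu : u ≤ u + 1 := by linarith
        have n1 : Real.exp (-|u - t|) * ∫ x in u..(u + 1), h x ≤
            ∫ x in u..(u + 1), Real.exp 1 * (h x * Real.exp (-|t - x|)) := by
          rw [← intervalIntegral.integral_const_mul]
          apply intervalIntegral.integral_mono_on hu
          · exact (continuous_const.mul hc).intervalIntegrable _ _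
          · apply Continuous.intervalIntegrable
            fun_prop
          · intro x hx
            have n2 : Real.exp (-|u - t|) ≤ Real.exp 1 * Real.exp (-|t - x|) := by
              rw [← Real.exp_add]
              apply Real.exp_le_exp.2
              have n3 := abs_sub_le t u x
              have n4 : |u - x| ≤ 1 := by rw [abs_le]; constructor <;> linarith [hx.1, hx.2]
              rw [abs_sub_comm t u] at n3
              linarith
            nlinarith [h0 x]
        refine n1.trans ?_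
        rw [intervalIntegral.integral_const_mul, intervalIntegral.integral_of_le hu]
        apply mul_le_mul_of_nonneg_left _ (Real.exp_pos _).le
        exact setIntegral_le_integral (hloc t)
          (ae_of_all _ fun x => mul_nonneg (h0 x) (Real.exp_pos _).le)
      rw [mul_pow]
      have hI0 : 0 ≤ ∫ x in u..(u + 1), h x :=
        intervalIntegral.integral_nonneg (by linarith) fun x _ => h0 x
      calc ‖H (σ + u * I)‖ ^ (2 * k) * Real.exp (-|u - t|) ^ (2 * k)
          ≤ (C₁ * (1 + |u|) ^ (2 * k + 2) * (‖G u‖ ^ 2 + 1 / (1 + |u|) ^ 2)) *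
            Real.exp (-|u - t|) ^ (2 * k) := by gcongr
        _ ≤ (C₁ * ((1 + |t|) ^ (2 * k + 2) * (1 + |u - t|) ^ (2 * k + 2)) *
            (4 * ∫ x in u..(u + 1), h x)) * Real.exp (-|u - t|) ^ (2 * k) := by gcongr
        _ = (C₁ * (1 + |t|) ^ (2 * k + 2) * (4 * ∫ x in u..(u + 1), h x)) *
            ((1 + |u - t|) ^ (2 * k + 2) * Real.exp (-|u - t|) ^ (2 * k)) := by ring
        _ ≤ (C₁ * (1 + |t|) ^ (2 * k + 2) * (4 * ∫ x in u..(u + 1), h x)) *
            (C₂ * Real.exp (-|u - t|)) := by gcongr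
        _ = (C₁ * C₂ * 4 * (1 + |t|) ^ (2 * k + 2)) *
            (Real.exp (-|u - t|) * ∫ x in u..(u + 1), h x) := by ring
        _ ≤ (C₁ * C₂ * 4 * (1 + |t|) ^ (2 * k + 2)) *
            (Real.exp 1 * ∫ x, h x * Real.exp (-|t - x|)) := by gcongr
        _ = _ := by rw [hK]; ring
    -- pass to the supremum
    set R := (K * ∫ x, h x * Real.exp (-|t - x|)) * (1 + |t|) ^ (2 * k + 2) with hR
    have hR0 : 0 ≤ R := by positivity
    have h2k : (2 * k : ℕ) ≠ 0 := by omega
    have hU : U σ t ≤ R ^ ((1 : ℝ) / ((2 * k : ℕ) : ℝ)) := by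
      apply U_le
      intro u
      have m1 := m0 u
      have hn : 0 ≤ ‖H (σ + u * I)‖ * Real.exp (-|u - t|) := by positivity
      calc ‖H (σ + u * I)‖ * Real.exp (-|u - t|)
          = ((‖H (σ + u * I)‖ * Real.exp (-|u - t|)) ^ (2 * k)) ^ ((1 : ℝ) / ((2 * k : ℕ) : ℝ)) := by
            rw [one_div, Real.pow_rpow_inv_natCast hn h2k]
        _ ≤ _ := Real.rpow_le_rpow (by positivity) m1 (by positivity)
    calc U σ t ^ (2 * k) ≤ (R ^ ((1 : ℝ) / ((2 * k : ℕ) : ℝ))) ^ (2 * k) :=
          pow_le_pow_left₀ (U_nonneg _) hU _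
      _ = R := by rw [one_div, Real.rpow_inv_natCast_pow hR0 h2k]
  refine Integrable.mono' (hW.const_mul K) ?_ (ae_of_all _ fun t => ?_)
  · apply Continuous.aestronglyMeasurable
    exact ((continuous_U hσ0).pow _).div (by fun_prop) (fun t => by positivity)
  · rw [Real.norm_of_nonneg (div_nonneg (pow_nonneg (U_nonneg _) _) (by positivity)), hWe]
    exact main t

end Pool.Agent.Lib.MP_bc6037_nt.Rec
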