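import Mathlib

set_option autoImplicit false

/-!
Plancherel's theorem for the Fourier integral of a function in `L¹ ∩ L²`.
-/

open MeasureTheory Complex Filter Set
open scoped FourierTransform ContDiff Topology

namespace Pool.Agent.Lib.MP_bc6037_nt.Rec

lemma fourier_ae_eq {f : ℝ → ℂ} (h1 : Integrable f) (h2 : MemLp f 2) :
    (𝓕 (h2.toLp f) : Lp ℂ 2 (volume : Measure ℝ)) =ᵐ[volume] 𝓕 f := by
  have hcont : Continuous (𝓕 f) :=
    VectorFourier.fourierIntegral_continuous Real.continuous_fourierChar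
      (by exact continuous_inner) h1
  apply ae_eq_of_integral_contDiff_smul_eq
  · exact (Lp.memLp _).locallyIntegrable (by norm_num)
  · exact hcont.locallyIntegrable
  · intro g g_smooth g_cpt
    have hg₁ : HasCompactSupport (Complex.ofRealCLM ∘ g) := g_cpt.comp_left rfl
    have hg₂ : ContDiff ℝ ∞ (Complex.ofRealCLM ∘ g) := by fun_prop
    set φ : SchwartzMap ℝ ℂ := hg₁.toSchwartzMap hg₂ with hφ
    have hφx : ∀ x, φ x = (g x : ℂ) := fun x => rfl
    have e1 : ∫ x, g x • (𝓕 (h2.toLp f) : Lp ℂ 2 (volume : Measure ℝ)) x =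
        (MeasureTheory.Lp.toTemperedDistribution
          (𝓕 (h2.toLp f) : Lp ℂ 2 (volume : Measure ℝ))) φ := by
      rw [MeasureTheory.Lp.toTemperedDistribution_apply]
      congr 1
    have e2 : MeasureTheory.Lp.toTemperedDistribution
          (𝓕 (h2.toLp f) : Lp ℂ 2 (volume : Measure ℝ)) =
        𝓕 (MeasureTheory.Lp.toTemperedDistribution (h2.toLp f)) :=
      (MeasureTheory.Lp.fourier_toTemperedDistribution_eq (h2.toLp f)).symm
    rw [e1, e2, TemperedDistribution.fourier_apply, MeasureTheory.Lp.toTemperedDistribution_apply]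
    have e3 : ∫ x, (𝓕 φ : SchwartzMap ℝ ℂ) x • (h2.toLp f : Lp ℂ 2 (volume : Measure ℝ)) x =
        ∫ x, (𝓕 (φ : ℝ → ℂ)) x • f x := by
      apply integral_congr_ae
      filter_upwards [h2.coeFn_toLp] with x hx
      rw [hx, SchwartzMap.fourier_coe]
    rw [e3]
    have e4 := VectorFourier.integral_fourierIntegral_smul_eq_flip (L := innerₗ ℝ)
      (μ := volume) (ν := volume) Real.continuous_fourierChar
      (by exact continuous_inner) φ.integrable h1
    rw [flip_innerₗ] at e4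
    refine Eq.trans ?_ (e4.trans ?_)
    · rfl
    · congr 1

theorem plancherel {f : ℝ → ℂ} (h1 : Integrable f) (h2 : MemLp f 2) :
    MemLp (𝓕 f) 2 ∧ ∫ ξ, ‖𝓕 f ξ‖ ^ 2 = ∫ x, ‖f x‖ ^ 2 := by
  have hae := fourier_ae_eq h1 h2
  have hm : MemLp (𝓕 f) 2 := (memLp_congr_ae hae).1 (Lp.memLp _)
  refine ⟨hm, ?_⟩
  have h3 : ‖(𝓕 (h2.toLp f) : Lp ℂ 2 (volume : Measure ℝ))‖ = ‖h2.toLp f‖ :=
    MeasureTheory.Lp.norm_fourier_eq _
  have h4 : ∀ F : Lp ℂ 2 (volume : Measure ℝ), ‖F‖ ^ 2 = ∫ x, ‖F x‖ ^ 2 := by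
    intro F
    rw [@norm_sq_eq_re_inner ℂ, MeasureTheory.L2.inner_def]
    simp only [inner_self_eq_norm_sq_to_K]
    rw [← integral_re]
    · congr 1
      ext x
      norm_cast
    · have := (L2.integrable_inner (𝕜 := ℂ) F F)
      simpa only [inner_self_eq_norm_sq_to_K] using this
  have h5 := congrArg (fun r => r ^ 2) h3
  simp only [h4] at h5
  have h6 : ∫ ξ, ‖𝓕 f ξ‖ ^ 2 =
      ∫ ξ, ‖(𝓕 (h2.toLp f) : Lp ℂ 2 (volume : Measure ℝ)) ξ‖ ^ 2 := by
    apply integral_congr_ae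
    filter_upwards [hae] with x hx
    rw [hx]
  have h7 : ∫ x, ‖f x‖ ^ 2 = ∫ x, ‖(h2.toLp f) x‖ ^ 2 := by
    apply integral_congr_ae
    filter_upwards [h2.coeFn_toLp] with x hx
    rw [hx]
  rw [h6, h7, h5]

end Pool.Agent.Lib.MP_bc6037_nt.Rec
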