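import Pool.Agent.Lib.MP_bc6037_nt.ZetaGrowth

set_option autoImplicit false

/-!
The exponentially weighted local maximum of `(s-1) ζ(s)` on a vertical line, and its three-lines
inequality.
-/

open MeasureTheory Complex Filter Set
open scoped Topology

namespace Pool.Agent.Lib.MP_bc6037_nt.Rec

open ZetaGrowth

/-- `U σ t = sup_u |(s-1)ζ(s)| e^{-|u-t|}`, `s = σ + iu`. -/
noncomputable def U (σ t : ℝ) : ℝ := ⨆ u : ℝ, ‖H (σ + u * I)‖ * Real.exp (-|u - t|)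

lemma norm_H_line {σ₀ σ₁ : ℝ} (h0 : 0 < σ₀) : ∃ C : ℝ, 0 ≤ C ∧ ∀ σ u : ℝ, σ₀ ≤ σ → σ ≤ σ₁ →
    ‖H (σ + u * I)‖ ≤ C * (1 + |u|) ^ 2 := by
  refine ⟨(1 + |σ₁|) + (1 + |σ₁|) * (2 + |σ₁|) / σ₀, by positivity, fun σ u hσ hσ1 => ?_⟩
  have hσp : 0 < σ := h0.trans_le hσ
  have hσ1p : |σ₁| = σ₁ := abs_of_pos (hσp.trans_le hσ1)
  have h1 := norm_H_le (s := (σ + u * I : ℂ)) (by simpa using hσp)
  have hre : (σ + u * I : ℂ).re = σ := by simp
  have n1 : ‖(σ + u * I : ℂ)‖ ≤ (1 + |σ₁|) * (1 + |u|) := by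
    have := norm_add_le (σ : ℂ) (u * I)
    rw [norm_mul, Complex.norm_I, mul_one, Complex.norm_real, Complex.norm_real,
      Real.norm_eq_abs, Real.norm_eq_abs, abs_of_pos hσp] at this
    rw [hσ1p]
    nlinarith [abs_nonneg u]
  have n2 : ‖(σ + u * I - 1 : ℂ)‖ ≤ (2 + |σ₁|) * (1 + |u|) := by
    have := norm_sub_le (σ + u * I : ℂ) 1
    rw [norm_one] at this
    have h3 := abs_nonneg u
    have h4 := abs_nonneg σ₁
    nlinarith
  rw [hre] at h1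
  refine h1.trans ?_
  have hu : 1 ≤ 1 + |u| := by linarith [abs_nonneg u]
  have hA : 0 ≤ (1 + |σ₁|) := by positivity
  calc ‖(σ + u * I : ℂ)‖ + ‖(σ + u * I : ℂ)‖ * ‖(σ + u * I - 1 : ℂ)‖ / σ
      ≤ (1 + |σ₁|) * (1 + |u|) + ((1 + |σ₁|) * (1 + |u|)) * ((2 + |σ₁|) * (1 + |u|)) / σ₀ := by
        gcongr
    _ ≤ (1 + |σ₁|) * (1 + |u|) ^ 2 + ((1 + |σ₁|) * (1 + |u|)) * ((2 + |σ₁|) * (1 + |u|)) / σ₀ := by
        have : (1 + |u|) ≤ (1 + |u|) ^ 2 := by nlinarith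
        gcongr
    _ = _ := by ring

lemma sq_exp_le {u t : ℝ} : (1 + |u|) ^ 2 * Real.exp (-|u - t|) ≤ 4 * (1 + |t|) ^ 2 := by
  have h1 : 1 + |u| ≤ (1 + |t|) * (1 + |u - t|) := by
    have := abs_sub_abs_le_abs_sub u t
    nlinarith [abs_nonneg t, abs_nonneg (u - t), mul_nonneg (abs_nonneg t) (abs_nonneg (u - t))]
  have h2 : (1 + |u - t|) ^ 2 * Real.exp (-|u - t|) ≤ 4 := by
    have h3 : (1 + |u - t|) ≤ 2 * Real.exp (|u - t| / 2) := by
      have := Real.add_one_le_exp (|u - t| / 2)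
      linarith [abs_nonneg (u - t)]
    have h4 : (1 + |u - t|) ^ 2 ≤ (2 * Real.exp (|u - t| / 2)) ^ 2 :=
      pow_le_pow_left₀ (by positivity) h3 2
    have h5 : (2 * Real.exp (|u - t| / 2)) ^ 2 = 4 * Real.exp (|u - t|) := by
      rw [mul_pow, ← Real.exp_nat_mul]
      norm_num
      ring_nf
    rw [h5] at h4
    calc _ ≤ 4 * Real.exp (|u - t|) * Real.exp (-|u - t|) := by gcongr
      _ = 4 := by rw [mul_assoc, ← Real.exp_add]; simp
  calc _ ≤ ((1 + |t|) * (1 + |u - t|)) ^ 2 * Real.exp (-|u - t|) := by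
        gcongr
    _ = (1 + |t|) ^ 2 * ((1 + |u - t|) ^ 2 * Real.exp (-|u - t|)) := by ring
    _ ≤ (1 + |t|) ^ 2 * 4 := by gcongr
    _ = _ := by ring

lemma U_bdd {σ : ℝ} (hσ : 0 < σ) (t : ℝ) :
    BddAbove (range fun u : ℝ => ‖H (σ + u * I)‖ * Real.exp (-|u - t|)) := by
  obtain ⟨C, hC0, hC⟩ := norm_H_line (σ₀ := σ) (σ₁ := σ) hσ
  refine ⟨C * (4 * (1 + |t|) ^ 2), ?_⟩
  rintro _ ⟨u, rfl⟩
  simp only
  calc _ ≤ C * (1 + |u|) ^ 2 * Real.exp (-|u - t|) := by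
        gcongr
        exact hC σ u le_rfl le_rfl
    _ = C * ((1 + |u|) ^ 2 * Real.exp (-|u - t|)) := by ring
    _ ≤ _ := mul_le_mul_of_nonneg_left sq_exp_le hC0

lemma le_U {σ : ℝ} (hσ : 0 < σ) (u t : ℝ) : ‖H (σ + u * I)‖ * Real.exp (-|u - t|) ≤ U σ t :=
  le_ciSup (U_bdd hσ t) u

lemma U_nonneg {σ : ℝ} (t : ℝ) : 0 ≤ U σ t :=
  Real.iSup_nonneg fun u => by positivity

lemma H_le_U {σ : ℝ} (hσ : 0 < σ) (t : ℝ) : ‖H (σ + t * I)‖ ≤ U σ t := by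
  have := le_U hσ t t
  simpa using this

lemma U_le {σ t B : ℝ} (h : ∀ u : ℝ, ‖H (σ + u * I)‖ * Real.exp (-|u - t|) ≤ B) : U σ t ≤ B :=
  ciSup_le h

lemma U_lip {σ : ℝ} (hσ : 0 < σ) (t t' : ℝ) : U σ t ≤ Real.exp |t - t'| * U σ t' := by
  apply U_le
  intro u
  have h1 := le_U hσ u t'
  have h2 : Real.exp (-|u - t|) ≤ Real.exp |t - t'| * Real.exp (-|u - t'|) := by
    rw [← Real.exp_add]
    apply Real.exp_le_exp.2
    have := abs_sub_le u t t'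
    linarith
  calc _ ≤ ‖H (σ + u * I)‖ * (Real.exp |t - t'| * Real.exp (-|u - t'|)) := by gcongr
    _ = Real.exp |t - t'| * (‖H (σ + u * I)‖ * Real.exp (-|u - t'|)) := by ring
    _ ≤ _ := by gcongr

lemma continuous_U {σ : ℝ} (hσ : 0 < σ) : Continuous (U σ) := by
  rw [continuous_iff_continuousAt]
  intro t₀
  have h1 : Tendsto (fun t : ℝ => Real.exp |t - t₀| * U σ t₀) (𝓝 t₀) (𝓝 (U σ t₀)) := by
    have : Continuous fun t : ℝ => Real.exp |t - t₀| * U σ t₀ := by fun_prop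
    have h := this.tendsto t₀
    simpa using h
  have h2 : Tendsto (fun t : ℝ => Real.exp (-|t - t₀|) * U σ t₀) (𝓝 t₀) (𝓝 (U σ t₀)) := by
    have : Continuous fun t : ℝ => Real.exp (-|t - t₀|) * U σ t₀ := by fun_prop
    have h := this.tendsto t₀
    simpa using h
  refine tendsto_of_tendsto_of_tendsto_of_le_of_le h2 h1 ?_ ?_
  · intro t
    simp only
    have h3 := U_lip hσ t₀ t
    rw [abs_sub_comm] at h3
    calc _ ≤ Real.exp (-|t - t₀|) * (Real.exp |t - t₀| * U σ t) := by gcongr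
      _ = U σ t := by rw [← mul_assoc, ← Real.exp_add]; simp
  · intro t
    exact U_lip hσ t t₀

/-- **Three lines** for `U`. -/
theorem U_interp {σ₁ σ₂ : ℝ} (h0 : 0 < σ₁) (h12 : σ₁ < σ₂) {σ : ℝ} (h1 : σ₁ ≤ σ) (h2 : σ ≤ σ₂)
    (t : ℝ) : U σ t ≤ Real.exp ((σ₂ - σ₁) ^ 2 + 1) *
      (U σ₁ t ^ (1 - (σ - σ₁) / (σ₂ - σ₁)) * U σ₂ t ^ ((σ - σ₁) / (σ₂ - σ₁))) := by
  have hd : 0 < σ₂ - σ₁ := by linarith
  set θ : ℝ := (σ - σ₁) / (σ₂ - σ₁) with hθ
  have hθ0 : 0 ≤ θ := div_nonneg (by linarith) hd.le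
  have hθ1 : θ ≤ 1 := (div_le_one hd).2 (by linarith)
  have hσ : 0 < σ := by linarith
  have key : ∀ w : ℝ, ‖H (σ + w * I)‖ ≤ Real.exp ((σ₂ - σ₁) ^ 2 + 1) *
      (U σ₁ w ^ (1 - θ) * U σ₂ w ^ θ) := by
    intro w
    set s₀ : ℂ := σ + w * I with hs₀
    set F : ℂ → ℂ := fun s => H s * cexp ((s - s₀) ^ 2) with hF
    have hFd : Differentiable ℂ F := by
      have := differentiable_H
      fun_prop
    have hnorm : ∀ s : ℂ, ‖F s‖ = ‖H (s.re + s.im * I)‖ *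
        Real.exp ((s.re - σ) ^ 2 - (s.im - w) ^ 2) := by
      intro s
      simp only [hF]
      rw [norm_mul, Complex.norm_exp, Complex.re_add_im]
      congr 2
      rw [hs₀, pow_two]
      simp [Complex.mul_re]
      ring
    have hexp : ∀ x : ℝ, -x ^ 2 ≤ 1 - |x| := by
      intro x
      nlinarith [sq_abs x, sq_nonneg (|x| - 1 / 2)]
    have hbound : ∀ s : ℂ, σ₁ ≤ s.re → s.re ≤ σ₂ → ‖F s‖ ≤ Real.exp ((σ₂ - σ₁) ^ 2 + 1) *
        (‖H (s.re + s.im * I)‖ * Real.exp (-|s.im - w|)) := by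
      intro s hs1 hs2
      rw [hnorm, mul_left_comm, ← Real.exp_add]
      gcongr
      have h3 : (s.re - σ) ^ 2 ≤ (σ₂ - σ₁) ^ 2 := by
        apply sq_le_sq'
        · linarith
        · linarith
      have := hexp (s.im - w)
      linarith
    obtain ⟨C, hC0, hC⟩ := norm_H_line (σ₀ := σ₁) (σ₁ := σ₂) h0
    have hB : BddAbove ((norm ∘ F) '' Complex.HadamardThreeLines.verticalClosedStrip σ₁ σ₂) := by
      refine ⟨Real.exp ((σ₂ - σ₁) ^ 2 + 1) * (C * (4 * (1 + |w|) ^ 2)), ?_⟩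
      rintro _ ⟨s, hs, rfl⟩
      have hs' : s.re ∈ Icc σ₁ σ₂ := hs
      refine (hbound s hs'.1 hs'.2).trans ?_
      refine mul_le_mul_of_nonneg_left ?_ (Real.exp_pos _).le
      calc _ ≤ C * (1 + |s.im|) ^ 2 * Real.exp (-|s.im - w|) :=
            mul_le_mul_of_nonneg_right (hC _ _ hs'.1 hs'.2) (Real.exp_pos _).le
        _ = C * ((1 + |s.im|) ^ 2 * Real.exp (-|s.im - w|)) := by ring
        _ ≤ _ := mul_le_mul_of_nonneg_left sq_exp_le hC0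
    have hz : s₀ ∈ Complex.HadamardThreeLines.verticalClosedStrip σ₁ σ₂ := by
      show s₀.re ∈ Icc σ₁ σ₂
      simp [hs₀, h1, h2]
    have h3 := Complex.HadamardThreeLines.norm_le_interp_of_mem_verticalClosedStrip' (f := F)
      (a := Real.exp ((σ₂ - σ₁) ^ 2 + 1) * U σ₁ w) (b := Real.exp ((σ₂ - σ₁) ^ 2 + 1) * U σ₂ w)
      h12 hz hFd.diffContOnCl hB ?_ ?_
    · have e0 : s₀.re = σ := by simp [hs₀]
      have e1 : ‖F s₀‖ = ‖H (σ + w * I)‖ := by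
        simp only [hF, hs₀]
        simp
      rw [e1, e0, ← hθ] at h3
      refine h3.trans (le_of_eq ?_)
      rw [Real.mul_rpow (Real.exp_pos _).le (U_nonneg _), Real.mul_rpow (Real.exp_pos _).le (U_nonneg _)]
      have e2 : Real.exp ((σ₂ - σ₁) ^ 2 + 1) ^ (1 - θ) * Real.exp ((σ₂ - σ₁) ^ 2 + 1) ^ θ =
          Real.exp ((σ₂ - σ₁) ^ 2 + 1) := by
        rw [← Real.rpow_add (Real.exp_pos _)]
        simp
      calc _ = (Real.exp ((σ₂ - σ₁) ^ 2 + 1) ^ (1 - θ) * Real.exp ((σ₂ - σ₁) ^ 2 + 1) ^ θ) *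
            (U σ₁ w ^ (1 - θ) * U σ₂ w ^ θ) := by ring
        _ = _ := by rw [e2]
    · intro z hz'
      have hz1 : z.re = σ₁ := hz'
      refine (hbound z hz1.ge (by linarith)).trans ?_
      gcongr
      rw [hz1]
      exact le_U h0 _ _
    · intro z hz'
      have hz1 : z.re = σ₂ := hz'
      refine (hbound z (by linarith) hz1.le).trans ?_
      gcongr
      rw [hz1]
      exact le_U (h0.trans h12) _ _
  apply U_le
  intro u
  have h3 := key u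
  have hU1 := U_lip h0 u t
  have hU2 := U_lip (h0.trans h12) u t
  have h4 : U σ₁ u ^ (1 - θ) * U σ₂ u ^ θ ≤ Real.exp |u - t| * (U σ₁ t ^ (1 - θ) * U σ₂ t ^ θ) := by
    calc _ ≤ (Real.exp |u - t| * U σ₁ t) ^ (1 - θ) * (Real.exp |u - t| * U σ₂ t) ^ θ := by
          apply mul_le_mul
          · exact Real.rpow_le_rpow (U_nonneg _) hU1 (by linarith)
          · exact Real.rpow_le_rpow (U_nonneg _) hU2 hθ0
          · exact Real.rpow_nonneg (U_nonneg _) _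
          · exact Real.rpow_nonneg (mul_nonneg (Real.exp_pos _).le (U_nonneg _)) _
      _ = (Real.exp |u - t| ^ (1 - θ) * Real.exp |u - t| ^ θ) * (U σ₁ t ^ (1 - θ) * U σ₂ t ^ θ) := by
          rw [Real.mul_rpow (Real.exp_pos _).le (U_nonneg _),
            Real.mul_rpow (Real.exp_pos _).le (U_nonneg _)]
          ring
      _ = _ := by
          rw [← Real.rpow_add (Real.exp_pos _)]
          simp
  calc ‖H (σ + u * I)‖ * Real.exp (-|u - t|)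
      ≤ (Real.exp ((σ₂ - σ₁) ^ 2 + 1) * (Real.exp |u - t| * (U σ₁ t ^ (1 - θ) * U σ₂ t ^ θ))) *
        Real.exp (-|u - t|) := by
        gcongr
        exact h3.trans (by gcongr)
    _ = Real.exp ((σ₂ - σ₁) ^ 2 + 1) * (U σ₁ t ^ (1 - θ) * U σ₂ t ^ θ) *
        (Real.exp |u - t| * Real.exp (-|u - t|)) := by ring
    _ = _ := by rw [← Real.exp_add]; simp

end Pool.Agent.Lib.MP_bc6037_nt.Rec
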