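import Mathlib


set_option autoImplicit false

/-!
A smoothing kernel, the shift of a vertical line of integration and the inversion formula for
smoothed functions (used for Perron-type bounds).
-/

open MeasureTheory Complex Filter Set
open scoped Topology

namespace Pool.Agent.Lib.MP_bc6037_nt.Perron

/-! ### The smoothing kernel -/

/-- The bump function centred at `-1/2`, supported in `[-1, 0]`. -/
noncomputable def bump : ContDiffBump (-1/2 : ℝ) := ⟨1/4, 1/2, by norm_num, by norm_num⟩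

/-- the kernel: smooth, nonnegative, supported in `[-1, 0]`, of integral one. -/
noncomputable def psi : ℝ → ℝ := bump.normed volume

lemma psi_nonneg (x : ℝ) : 0 ≤ psi x := bump.nonneg_normed x

lemma psi_smooth : ContDiff ℝ (⊤ : ℕ∞) psi := bump.contDiff_normed

lemma psi_continuous : Continuous psi := bump.continuous_normed

lemma psi_integral : ∫ x, psi x = 1 := bump.integral_normed

lemma psi_integrable : Integrable psi := bump.integrable_normed

lemma psi_compact : HasCompactSupport psi := bump.hasCompactSupport_normed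

lemma psi_eq_zero {x : ℝ} (hx : x ∉ Icc (-1 : ℝ) 0) : psi x = 0 := by
  by_contra h
  have h1 : x ∈ Function.support psi := h
  rw [psi, bump.support_normed_eq, Metric.mem_ball, Real.dist_eq] at h1
  apply hx
  have h2 : bump.rOut = 1/2 := rfl
  rw [h2] at h1
  rw [abs_lt] at h1
  constructor <;> linarith [h1.1, h1.2]

/-- For a smooth compactly supported function, its two-sided Laplace transform decays rapidly. -/
lemma laplace_deriv (n : ℕ) : ∀ (g : ℝ → ℂ), ContDiff ℝ (⊤ : ℕ∞) g → HasCompactSupport g →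
    ∀ w : ℂ, ∫ v, (iteratedDeriv n g v) * cexp (-w * v) = w ^ n * ∫ v, g v * cexp (-w * v) := by
  induction n with
  | zero => intro g _ _ w; simp
  | succ n ih =>
    intro g hg hc w
    have hg' : ContDiff ℝ (⊤ : ℕ∞) (deriv g) := by
      exact (contDiff_infty_iff_deriv.mp hg).2
    rw [iteratedDeriv_succ', ih (deriv g) hg' hc.deriv w, pow_succ, mul_assoc]
    congr 1
    have hd : Differentiable ℝ g := hg.differentiable (by simp)
    have h1 : ∀ v : ℝ, HasDerivAt (fun v : ℝ => cexp (-w * v)) (-w * cexp (-w * v)) v := by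
      intro v
      have h2 : HasDerivAt (fun v : ℝ => -w * (v : ℂ)) (-w) v := by
        simpa using (Complex.ofRealCLM.hasDerivAt (x := v)).const_mul (-w)
      have := h2.cexp
      rwa [mul_comm] at this
    have hcont : Continuous (fun v : ℝ => cexp (-w * v)) := by fun_prop
    have key := integral_mul_deriv_eq_deriv_mul_of_integrable (u := g)
      (v := fun v : ℝ => cexp (-w * v)) (u' := deriv g) (v' := fun v : ℝ => -w * cexp (-w * v))
      (fun v _ => (hd v).hasDerivAt) (fun v _ => h1 v) ?_ ?_ ?_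
    · have e1 : ∫ v, g v * (-w * cexp (-w * v)) = -w * ∫ v, g v * cexp (-w * v) := by
        rw [← integral_const_mul]
        congr 1
        ext v
        ring
      rw [e1] at key
      have : ∫ v, deriv g v * cexp (-w * v) = w * ∫ v, g v * cexp (-w * v) := by
        have h3 : -w * ∫ v, g v * cexp (-w * v) = -∫ v, deriv g v * cexp (-w * v) := key
        linear_combination h3
      rw [this]
    · apply Continuous.integrable_of_hasCompactSupport
      · exact hg.continuous.mul (by fun_prop)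
      · exact hc.mul_right
    · apply Continuous.integrable_of_hasCompactSupport
      · exact hg'.continuous.mul hcont
      · exact hc.deriv.mul_right
    · apply Continuous.integrable_of_hasCompactSupport
      · exact hg.continuous.mul hcont
      · exact hc.mul_right

/-- Laplace transform of the kernel. -/
noncomputable def KK (w : ℂ) : ℂ := ∫ v, (psi v : ℂ) * cexp (-w * v)

lemma psiC_smooth : ContDiff ℝ (⊤ : ℕ∞) (fun v : ℝ => (psi v : ℂ)) :=
  Complex.ofRealCLM.contDiff.comp psi_smooth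

lemma psiC_compact : HasCompactSupport (fun v : ℝ => (psi v : ℂ)) :=
  psi_compact.comp_left (g := fun x : ℝ => (x : ℂ)) (by simp)

lemma norm_exp_le {w : ℂ} (h0 : 0 ≤ w.re) (h2 : w.re ≤ 2) {v : ℝ} (hv : v ∈ Icc (-1 : ℝ) 0) :
    ‖cexp (-w * v)‖ ≤ Real.exp 2 := by
  rw [Complex.norm_exp]
  apply Real.exp_le_exp.mpr
  have : (-w * (v : ℂ)).re = -w.re * v := by simp
  rw [this]
  nlinarith [hv.1, hv.2]

lemma iteratedDeriv_psi_zero (n : ℕ) {v : ℝ} (hv : v ∉ Icc (-1 : ℝ) 0) :
    iteratedDeriv n (fun v : ℝ => (psi v : ℂ)) v = 0 := by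
  have h : (fun v : ℝ => (psi v : ℂ)) =ᶠ[𝓝 v] fun _ => 0 := by
    have : (Icc (-1 : ℝ) 0)ᶜ ∈ 𝓝 v := isClosed_Icc.isOpen_compl.mem_nhds hv
    filter_upwards [this] with x hx
    rw [psi_eq_zero hx]; simp
  rw [h.iteratedDeriv_eq n]
  simp

/-- Rapid decay of the transform of the kernel in the strip `0 ≤ Re w ≤ 2`. -/
lemma KK_decay (n : ℕ) : ∃ C : ℝ, 0 < C ∧ ∀ w : ℂ, 0 ≤ w.re → w.re ≤ 2 →
    ‖KK w‖ ≤ C * (1 + ‖w‖) ^ (-(n : ℝ)) := by
  have hbound : ∀ m : ℕ, ∃ C : ℝ, 0 ≤ C ∧ ∀ w : ℂ, 0 ≤ w.re → w.re ≤ 2 →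
      ‖w‖ ^ m * ‖KK w‖ ≤ C := by
    intro m
    set g : ℝ → ℂ := fun v => (psi v : ℂ) with hg
    have hgm : Continuous (iteratedDeriv m g) :=
      psiC_smooth.continuous_iteratedDeriv m (by exact_mod_cast le_top)
    have hgi : Integrable (iteratedDeriv m g) := by
      apply hgm.integrable_of_hasCompactSupport
      exact HasCompactSupport.intro isCompact_Icc (fun v hv => iteratedDeriv_psi_zero m hv)
    refine ⟨Real.exp 2 * ∫ v, ‖iteratedDeriv m g v‖, by positivity, ?_⟩
    intro w h0 h2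
    rw [← norm_pow, ← norm_mul, KK, ← laplace_deriv m g psiC_smooth psiC_compact w]
    calc ‖∫ v, iteratedDeriv m g v * cexp (-w * v)‖
        ≤ ∫ v, ‖iteratedDeriv m g v * cexp (-w * v)‖ := norm_integral_le_integral_norm _
      _ ≤ ∫ v, Real.exp 2 * ‖iteratedDeriv m g v‖ := by
          apply integral_mono_of_nonneg
          · exact ae_of_all _ (fun v => norm_nonneg _)
          · exact hgi.norm.const_mul _
          · refine ae_of_all _ (fun v => ?_)
            simp only
            rw [norm_mul]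
            by_cases hv : v ∈ Icc (-1 : ℝ) 0
            · rw [mul_comm]
              exact mul_le_mul_of_nonneg_right (norm_exp_le h0 h2 hv) (norm_nonneg _)
            · rw [iteratedDeriv_psi_zero m hv]; simp
      _ = _ := by rw [integral_const_mul]
  obtain ⟨C0, hC0, h0⟩ := hbound 0
  obtain ⟨C1, hC1, h1⟩ := hbound n
  refine ⟨2 ^ n * (C0 + C1) + 1, by positivity, ?_⟩
  intro w hw0 hw2
  have e0 := h0 w hw0 hw2
  have e1 := h1 w hw0 hw2
  simp only [pow_zero, one_mul] at e0
  rw [Real.rpow_neg (by positivity), Real.rpow_natCast, ← div_eq_mul_inv, le_div_iff₀ (by positivity)]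
  have hle : (1 + ‖w‖) ^ n ≤ 2 ^ n * (1 + ‖w‖ ^ n) := by
    rcases le_total ‖w‖ 1 with h | h
    · calc (1 + ‖w‖) ^ n ≤ 2 ^ n := by
            apply pow_le_pow_left₀ (by positivity); linarith
        _ = 2 ^ n * 1 := by ring
        _ ≤ 2 ^ n * (1 + ‖w‖ ^ n) := by gcongr; linarith [pow_nonneg (norm_nonneg w) n]
    · calc (1 + ‖w‖) ^ n ≤ (2 * ‖w‖) ^ n := by
            apply pow_le_pow_left₀ (by positivity); linarith
        _ = 2 ^ n * ‖w‖ ^ n := by rw [mul_pow]
        _ ≤ 2 ^ n * (1 + ‖w‖ ^ n) := by gcongr; linarith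
  calc ‖KK w‖ * (1 + ‖w‖) ^ n ≤ ‖KK w‖ * (2 ^ n * (1 + ‖w‖ ^ n)) := by gcongr
    _ = 2 ^ n * (‖KK w‖ + ‖w‖ ^ n * ‖KK w‖) := by ring
    _ ≤ 2 ^ n * (C0 + C1) := by gcongr
    _ ≤ _ := by linarith

/-- Form of the decay used below: for `0 < δ ≤ 1`, `θ ≥ 0`. -/
lemma KK_decay' (θ : ℝ) (hθ : 0 ≤ θ) : ∃ C : ℝ, 0 < C ∧ ∀ δ : ℝ, 0 < δ → δ ≤ 1 → ∀ s : ℂ,
    0 ≤ s.re → s.re ≤ 2 → ‖KK (δ * s)‖ ≤ C * (δ * (1 + |s.im|)) ^ (-θ) := by
  obtain ⟨n, hn⟩ := exists_nat_ge θ
  obtain ⟨C, hC, h⟩ := KK_decay n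
  refine ⟨C, hC, fun δ hδ hδ1 s h0 h2 => ?_⟩
  have e1 : ((δ : ℂ) * s).re = δ * s.re := by simp
  have hb := h ((δ : ℂ) * s) (by rw [e1]; positivity) (by rw [e1]; nlinarith)
  refine hb.trans ?_
  apply mul_le_mul_of_nonneg_left _ hC.le
  have hnorm : ‖(δ : ℂ) * s‖ = δ * ‖s‖ := by
    rw [norm_mul, Complex.norm_real, Real.norm_eq_abs, abs_of_pos hδ]
  rw [hnorm]
  have him : |s.im| ≤ ‖s‖ := Complex.abs_im_le_norm s
  have hpos : 0 < δ * (1 + |s.im|) := by positivity
  calc (1 + δ * ‖s‖) ^ (-(n : ℝ)) ≤ (1 + δ * ‖s‖) ^ (-θ) := by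
        apply Real.rpow_le_rpow_of_exponent_le
        · have : 0 ≤ δ * ‖s‖ := by positivity
          linarith
        · linarith
    _ ≤ (δ * (1 + |s.im|)) ^ (-θ) := by
        apply Real.rpow_le_rpow_of_nonpos hpos _ (by linarith)
        nlinarith

lemma KK_differentiable : Differentiable ℂ KK := by
  intro w0
  have hder : ∀ (v : ℝ) (w : ℂ), HasDerivAt (fun w : ℂ => (psi v : ℂ) * cexp (-w * v))
      ((psi v : ℂ) * (-v * cexp (-w * v))) w := by
    intro v w
    have h2 : HasDerivAt (fun w : ℂ => -w * (v : ℂ)) (-v) w := by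
      simpa using ((hasDerivAt_id w).neg.mul_const (v : ℂ))
    have h3 := h2.cexp.const_mul (psi v : ℂ)
    have e : (psi v : ℂ) * (-v * cexp (-w * v)) = (psi v : ℂ) * (cexp (-w * v) * -v) := by ring
    rw [e]
    exact h3
  have h := hasDerivAt_integral_of_dominated_loc_of_deriv_le (μ := volume) (𝕜 := ℂ)
    (F := fun (w : ℂ) (v : ℝ) => (psi v : ℂ) * cexp (-w * v))
    (F' := fun (w : ℂ) (v : ℝ) => (psi v : ℂ) * (-v * cexp (-w * v)))
    (x₀ := w0) (s := Metric.ball w0 1) (bound := fun v => psi v * Real.exp (‖w0‖ + 1))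
    (Metric.ball_mem_nhds w0 one_pos) ?_ ?_ ?_ ?_ ?_ ?_
  · exact h.2.differentiableAt
  · refine Eventually.of_forall (fun w => ?_)
    exact Continuous.aestronglyMeasurable
      ((Complex.continuous_ofReal.comp psi_continuous).mul (by fun_prop))
  · apply Continuous.integrable_of_hasCompactSupport
    · exact (Complex.continuous_ofReal.comp psi_continuous).mul (by fun_prop)
    · exact psiC_compact.mul_right
  · exact Continuous.aestronglyMeasurable
      ((Complex.continuous_ofReal.comp psi_continuous).mul (by fun_prop))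
  · refine ae_of_all _ (fun v w hw => ?_)
    by_cases hv : v ∈ Icc (-1 : ℝ) 0
    · rw [norm_mul, norm_mul, Complex.norm_real, Real.norm_eq_abs, abs_of_nonneg (psi_nonneg v),
        norm_neg, Complex.norm_real, Real.norm_eq_abs, Complex.norm_exp]
      apply mul_le_mul_of_nonneg_left _ (psi_nonneg v)
      have h1 : |v| ≤ 1 := by rw [abs_le]; exact ⟨hv.1, by linarith [hv.2]⟩
      have h2 : (-w * (v : ℂ)).re ≤ ‖w0‖ + 1 := by
        have e : (-w * (v : ℂ)).re = -w.re * v := by simp
        rw [e]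
        have h3 : ‖w‖ ≤ ‖w0‖ + 1 := by
          have h4 : ‖w - w0‖ < 1 := by rwa [Metric.mem_ball, dist_eq_norm] at hw
          have h5 := norm_sub_norm_le w w0
          linarith
        have h6 : |w.re| ≤ ‖w‖ := Complex.abs_re_le_norm w
        calc -w.re * v ≤ |(-w.re) * v| := le_abs_self _
          _ = |w.re| * |v| := by rw [abs_mul, abs_neg]
          _ ≤ ‖w‖ * 1 := by gcongr
          _ ≤ _ := by linarith
      calc |v| * Real.exp (-w * (v : ℂ)).re ≤ 1 * Real.exp (‖w0‖ + 1) := by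
            apply mul_le_mul h1 (Real.exp_le_exp.mpr h2) (Real.exp_pos _).le zero_le_one
        _ = _ := one_mul _
    · rw [psi_eq_zero hv]; simp
  · exact psi_integrable.mul_const _
  · refine ae_of_all _ (fun v w _ => hder v w)

/-! ### Shifting a vertical line of integration -/

/-- If `G` is holomorphic in a neighbourhood of the strip `a ≤ Re s ≤ b` and
`‖G s‖ ≤ C (1 + |Im s|)^(-2)` there, then its integrals along the two boundary lines agree. -/
theorem shift_line {G : ℂ → ℂ} {a b : ℝ} (hab : a ≤ b) {U : Set ℂ}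
    (hU : ∀ s : ℂ, a ≤ s.re → s.re ≤ b → s ∈ U) (hG : DifferentiableOn ℂ G U) (hUo : IsOpen U)
    {C : ℝ} (hb : ∀ s : ℂ, a ≤ s.re → s.re ≤ b → ‖G s‖ ≤ C * (1 + |s.im|) ^ (-2 : ℝ)) :
    ∫ t : ℝ, G (a + t * I) = ∫ t : ℝ, G (b + t * I) := by
  have hdec : Integrable (fun t : ℝ => C * (1 + |t|) ^ (-2 : ℝ)) := by
    apply Integrable.const_mul
    have := integrable_one_add_norm (E := ℝ) (μ := volume) (r := 2) (by simp)
    simpa using this
  have hcontU : ContinuousOn G U := hG.continuousOn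
  have hcont : ∀ c : ℝ, a ≤ c → c ≤ b → Continuous (fun t : ℝ => G (c + t * I)) := by
    intro c h1 h2
    rw [continuous_iff_continuousAt]
    intro t
    have hm : ((c : ℂ) + t * I) ∈ U := hU _ (by simpa using h1) (by simpa using h2)
    exact ContinuousAt.comp (f := fun t : ℝ => (c : ℂ) + t * I)
      (hcontU.continuousAt (hUo.mem_nhds hm)) (by fun_prop)
  have hint : ∀ c : ℝ, a ≤ c → c ≤ b → Integrable (fun t : ℝ => G (c + t * I)) := by
    intro c h1 h2
    refine hdec.mono' (hcont c h1 h2).aestronglyMeasurable (ae_of_all _ (fun t => ?_))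
    have := hb (c + t * I) (by simpa using h1) (by simpa using h2)
    simpa using this
  have hlim : ∀ c : ℝ, a ≤ c → c ≤ b →
      Tendsto (fun T : ℝ => ∫ t in (-T)..T, G (c + t * I)) atTop
        (𝓝 (∫ t : ℝ, G (c + t * I))) := by
    intro c h1 h2
    exact intervalIntegral_tendsto_integral (hint c h1 h2) tendsto_neg_atTop_atBot tendsto_id
  have hrect : ∀ T : ℝ, 0 ≤ T →
      ‖(∫ t in (-T)..T, G (b + t * I)) - ∫ t in (-T)..T, G (a + t * I)‖ ≤
        2 * (b - a) * (C * (1 + T) ^ (-2 : ℝ)) := by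
    intro T hT
    have hr := Complex.integral_boundary_rect_eq_zero_of_differentiableOn G
      (a - T * I) (b + T * I) ?_
    · have e1 : ((a : ℂ) - T * I).re = a := by simp
      have e2 : ((a : ℂ) - T * I).im = -T := by simp
      have e3 : ((b : ℂ) + T * I).re = b := by simp
      have e4 : ((b : ℂ) + T * I).im = T := by simp
      rw [e1, e2, e3, e4] at hr
      have hh : ∀ y : ℝ, |y| = T → ‖∫ x in a..b, G (x + y * I)‖ ≤
          (b - a) * (C * (1 + T) ^ (-2 : ℝ)) := by
        intro y hy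
        have := intervalIntegral.norm_integral_le_of_norm_le_const (a := a) (b := b)
          (f := fun x : ℝ => G (x + y * I)) (C := C * (1 + T) ^ (-2 : ℝ)) ?_
        · rw [abs_of_nonneg (by linarith)] at this
          linarith
        · intro x hx
          rw [uIoc_of_le hab] at hx
          have := hb (x + y * I) (by simpa using hx.1.le) (by simpa using hx.2)
          simpa [hy] using this
      have h1 := hh (-T) (by rw [abs_neg, abs_of_nonneg hT])
      have h2 := hh T (abs_of_nonneg hT)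
      have key : (∫ t in (-T)..T, G (b + t * I)) - ∫ t in (-T)..T, G (a + t * I) =
          I * ((∫ x in a..b, G (x + ((-T : ℝ) : ℂ) * I)) - ∫ x in a..b, G (x + (T : ℂ) * I)) := by
        have hr' := hr
        simp only [smul_eq_mul] at hr'
        have hI : I * I = -1 := I_mul_I
        linear_combination (-I) * hr' + (∫ t in (-T)..T, G (b + t * I)) * hI
          - (∫ t in (-T)..T, G (a + t * I)) * hI
      rw [key, norm_mul, norm_I, one_mul]
      calc _ ≤ ‖∫ x in a..b, G (x + ((-T : ℝ) : ℂ) * I)‖ + ‖∫ x in a..b, G (x + (T : ℂ) * I)‖ :=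
            norm_sub_le _ _
        _ ≤ _ := by linarith
    · intro s hs
      rw [mem_reProdIm] at hs
      have h1 := hs.1
      simp only [sub_re, ofReal_re, mul_re, I_re, mul_zero, ofReal_im, I_im, mul_one, sub_self,
        sub_zero, add_re, add_zero] at h1
      rw [uIcc_of_le hab] at h1
      exact (hG.differentiableAt (hUo.mem_nhds (hU s h1.1 h1.2))).differentiableWithinAt
  have hzero : Tendsto (fun T : ℝ => 2 * (b - a) * (C * (1 + T) ^ (-2 : ℝ))) atTop (𝓝 0) := by
    have h1 : Tendsto (fun T : ℝ => (1 + T) ^ (-2 : ℝ)) atTop (𝓝 0) :=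
      (tendsto_rpow_neg_atTop (by norm_num : (0 : ℝ) < 2)).comp (tendsto_atTop_add_const_left _ 1 tendsto_id)
    have h2 := (h1.const_mul C).const_mul (2 * (b - a))
    simpa using h2
  have hdiff : Tendsto (fun T : ℝ => (∫ t in (-T)..T, G (b + t * I)) -
      ∫ t in (-T)..T, G (a + t * I)) atTop (𝓝 0) := by
    apply squeeze_zero_norm' _ hzero
    filter_upwards [eventually_ge_atTop 0] with T hT
    exact hrect T hT
  have hdiff2 := (hlim b hab le_rfl).sub (hlim a le_rfl hab)
  have := tendsto_nhds_unique hdiff hdiff2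
  exact (sub_eq_zero.mp this.symm).symm


/-! ### Inversion formula for the smoothed function -/

/-- The kernel at scale `δ`. -/
noncomputable def kd (δ : ℝ) (v : ℝ) : ℝ := δ⁻¹ * psi (v / δ)

lemma kd_nonneg {δ : ℝ} (hδ : 0 < δ) (v : ℝ) : 0 ≤ kd δ v :=
  mul_nonneg (inv_nonneg.mpr hδ.le) (psi_nonneg _)

lemma kd_continuous (δ : ℝ) : Continuous (kd δ) := by
  unfold kd
  exact continuous_const.mul (psi_continuous.comp (continuous_id.div_const δ))

lemma kd_eq_zero {δ : ℝ} (hδ : 0 < δ) {v : ℝ} (hv : v ∉ Icc (-δ) 0) : kd δ v = 0 := by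
  unfold kd
  rw [psi_eq_zero, mul_zero]
  intro h
  apply hv
  rw [mem_Icc, le_div_iff₀ hδ, div_le_iff₀ hδ] at h
  rw [mem_Icc]
  constructor <;> linarith [h.1, h.2]

lemma kd_compact {δ : ℝ} (hδ : 0 < δ) : HasCompactSupport (kd δ) :=
  HasCompactSupport.intro isCompact_Icc (fun _ hv => kd_eq_zero hδ hv)

lemma kd_integral {δ : ℝ} (hδ : 0 < δ) : ∫ v, kd δ v = 1 := by
  unfold kd
  rw [integral_const_mul, MeasureTheory.Measure.integral_comp_div, psi_integral,
    abs_of_pos hδ, smul_eq_mul, mul_one, inv_mul_cancel₀ hδ.ne']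

lemma kd_laplace {δ : ℝ} (hδ : 0 < δ) (s : ℂ) :
    ∫ v, (kd δ v : ℂ) * cexp (-s * v) = KK (δ * s) := by
  have h := MeasureTheory.Measure.integral_comp_div
    (fun v : ℝ => (psi v : ℂ) * cexp (-(δ * s) * v)) δ
  have e : (fun v : ℝ => (kd δ v : ℂ) * cexp (-s * v)) =
      fun v : ℝ => (δ⁻¹ : ℂ) * ((psi (v / δ) : ℂ) * cexp (-(δ * s) * (v / δ : ℝ))) := by
    funext v
    unfold kd
    have hδ' : (δ : ℂ) ≠ 0 := by exact_mod_cast hδ.ne'
    have e2 : -(δ * s) * ((v / δ : ℝ) : ℂ) = -s * v := by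
      push_cast
      field_simp
    rw [e2]
    push_cast
    ring
  rw [e, integral_const_mul, h, abs_of_pos hδ]
  unfold KK
  rw [Complex.real_smul, ← mul_assoc]
  have hδ' : (δ : ℂ) ≠ 0 := by exact_mod_cast hδ.ne'
  rw [inv_mul_cancel₀ hδ', one_mul]

/-- Smoothing of `f` at scale `δ`. -/
noncomputable def smooth (δ : ℝ) (f : ℝ → ℝ) (y : ℝ) : ℝ := ∫ v, f (y - v) * kd δ v

/-- The inversion formula. -/
theorem smooth_eq {f : ℝ → ℝ} {Z : ℂ → ℂ} {δ : ℝ} (hδ : 0 < δ) (hδ1 : δ ≤ 1)
    (hf : Integrable (fun y => f y * Real.exp (-2 * y)))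
    (hZ : ∀ t : ℝ, ∫ y, (f y : ℂ) * cexp (-(2 + t * I) * y) = Z (2 + t * I)) (y : ℝ) :
    (smooth δ f y : ℂ) =
      (1 / (2 * Real.pi)) * ∫ t : ℝ, Z (2 + t * I) * KK (δ * (2 + t * I)) *
        cexp ((2 + t * I) * y) := by
  set g : ℝ → ℂ := fun y => ((f y * Real.exp (-2 * y) : ℝ) : ℂ) with hg
  set k : ℝ → ℂ := fun v => ((kd δ v * Real.exp (-2 * v) : ℝ) : ℂ) with hk
  have hgi : Integrable g := hf.ofReal
  have hkc : Continuous k := by
    apply Complex.continuous_ofReal.comp
    exact (kd_continuous δ).mul (by fun_prop)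
  have hkcs : HasCompactSupport k := by
    refine HasCompactSupport.intro (isCompact_Icc (a := -δ) (b := 0)) (fun v hv => ?_)
    simp only [hk]
    rw [kd_eq_zero hδ hv]; simp
  have hki : Integrable k := hkc.integrable_of_hasCompactSupport hkcs
  set h : ℝ → ℂ := convolution g k (ContinuousLinearMap.mul ℂ ℂ) volume with hh
  have hhi : Integrable h := hgi.integrable_convolution (ContinuousLinearMap.mul ℂ ℂ) hki
  have hhc : Continuous h :=
    hkcs.continuous_convolution_right (ContinuousLinearMap.mul ℂ ℂ) hgi.locallyIntegrable hkc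
  -- Fourier transforms
  have Fg : ∀ ξ : ℝ, FourierTransform.fourier g ξ = Z (2 + ((2 * Real.pi * ξ : ℝ) : ℂ) * I) := by
    intro ξ
    rw [← hZ, Real.fourier_real_eq_integral_exp_smul]
    congr 1
    funext v
    simp only [hg, smul_eq_mul]
    push_cast
    rw [mul_comm, mul_assoc, ← Complex.exp_add]
    congr 2
    ring
  have Fk : ∀ ξ : ℝ, FourierTransform.fourier k ξ =
      KK (δ * (2 + ((2 * Real.pi * ξ : ℝ) : ℂ) * I)) := by
    intro ξ
    rw [← kd_laplace hδ, Real.fourier_real_eq_integral_exp_smul]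
    congr 1
    funext v
    simp only [hk, smul_eq_mul]
    push_cast
    rw [mul_comm, mul_assoc, ← Complex.exp_add]
    congr 2
    ring
  have Fh : ∀ ξ : ℝ, FourierTransform.fourier h ξ =
      Z (2 + ((2 * Real.pi * ξ : ℝ) : ℂ) * I) *
        KK (δ * (2 + ((2 * Real.pi * ξ : ℝ) : ℂ) * I)) := by
    intro ξ
    rw [hh, Real.fourier_mul_convolution_eq hgi hki, Fg, Fk]
  -- integrability of the transform
  have hFhi : Integrable (FourierTransform.fourier h) := by
    obtain ⟨C, hC, hCb⟩ := KK_decay' 2 (by norm_num)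
    have hbd : ∀ ξ : ℝ, ‖FourierTransform.fourier h ξ‖ ≤
        (∫ y, ‖g y‖) * (C * δ ^ (-2 : ℝ)) * (1 + ‖ξ‖) ^ (-2 : ℝ) := by
      intro ξ
      rw [Fh, norm_mul]
      have hassoc : (∫ y, ‖g y‖) * (C * δ ^ (-2 : ℝ)) * (1 + ‖ξ‖) ^ (-2 : ℝ) =
        (∫ y, ‖g y‖) * ((C * δ ^ (-2 : ℝ)) * (1 + ‖ξ‖) ^ (-2 : ℝ)) := by ring
      rw [hassoc]
      apply mul_le_mul _ _ (norm_nonneg _) (by positivity)
      · rw [← Fg ξ]
        exact VectorFourier.norm_fourierIntegral_le_integral_norm _ _ _ _ _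
      · have := hCb δ hδ hδ1 (2 + ((2 * Real.pi * ξ : ℝ) : ℂ) * I) (by simp) (by simp)
        refine this.trans ?_
        have him : (2 + ((2 * Real.pi * ξ : ℝ) : ℂ) * I).im = 2 * Real.pi * ξ := by simp
        rw [him, Real.mul_rpow hδ.le (by positivity), ← mul_assoc C]
        apply mul_le_mul_of_nonneg_left _ (by positivity)
        apply Real.rpow_le_rpow_of_nonpos (by positivity) _ (by norm_num)
        rw [abs_mul, abs_of_pos (by positivity : (0:ℝ) < 2 * Real.pi), Real.norm_eq_abs]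
        have hpi : (1 : ℝ) ≤ 2 * Real.pi := by linarith [Real.pi_gt_three]
        nlinarith [abs_nonneg ξ]
    have hdec : Integrable (fun ξ : ℝ =>
        (∫ y, ‖g y‖) * (C * δ ^ (-2 : ℝ)) * (1 + ‖ξ‖) ^ (-2 : ℝ)) := by
      apply Integrable.const_mul
      exact integrable_one_add_norm (E := ℝ) (μ := volume) (r := 2) (by simp)
    refine hdec.mono' ?_ (ae_of_all _ hbd)
    exact (VectorFourier.fourierIntegral_continuous Real.continuous_fourierChar
      (by exact continuous_inner) hhi).aestronglyMeasurable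
  have hinv := hhi.fourierInv_fourier_eq hFhi hhc.continuousAt (v := y)
  have hsm : (smooth δ f y : ℂ) = cexp (2 * y) * h y := by
    have e1 : h y = ∫ v, g (y - v) * k v := by
      rw [hh]
      rw [convolution_eq_swap]
      rfl
    rw [e1, smooth, ← integral_complex_ofReal, ← integral_const_mul]
    congr 1
    funext v
    simp only [hg, hk]
    push_cast
    have e2 : cexp (2 * y) * (↑(f (y - v)) * cexp (-2 * (y - v)) * (↑(kd δ v) * cexp (-2 * v))) =
        ↑(f (y - v)) * ↑(kd δ v) * (cexp (2 * y) * cexp (-2 * (y - v)) * cexp (-2 * v)) := by ring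
    rw [e2, ← Complex.exp_add, ← Complex.exp_add]
    have e3 : 2 * (y : ℂ) + -2 * (y - v) + -2 * v = 0 := by ring
    rw [e3, Complex.exp_zero, mul_one]
  rw [hsm, ← hinv, Real.fourierInv_eq']
  have hchange := MeasureTheory.Measure.integral_comp_mul_left
    (fun t : ℝ => Z (2 + t * I) * KK (δ * (2 + t * I)) * cexp (t * I * y)) (2 * Real.pi)
  have e4 : ∫ v : ℝ, cexp (((2 * Real.pi * inner ℝ v y : ℝ) : ℂ) * I) •
      FourierTransform.fourier h v =
      ∫ v : ℝ, Z (2 + ((2 * Real.pi * v : ℝ) : ℂ) * I) *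
        KK (δ * (2 + ((2 * Real.pi * v : ℝ) : ℂ) * I)) *
        cexp (((2 * Real.pi * v : ℝ) : ℂ) * I * y) := by
    congr 1
    funext v
    rw [Fh, smul_eq_mul, mul_comm]
    congr 2
    have hin : (inner ℝ v y : ℝ) = v * y := by simp [mul_comm]
    rw [hin]
    push_cast
    ring
  rw [e4, hchange, ← integral_const_mul]
  have hpi : |(2 * Real.pi)⁻¹| = (2 * Real.pi)⁻¹ := abs_of_pos (by positivity)
  rw [hpi, Complex.real_smul, ← integral_const_mul, ← integral_const_mul]
  congr 1
  funext t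
  have e5 : cexp ((2 + t * I) * y) = cexp (2 * y) * cexp (t * I * y) := by
    rw [← Complex.exp_add]; congr 1; ring
  rw [e5]
  push_cast
  ring

end Pool.Agent.Lib.MP_bc6037_nt.Perron
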